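import Mathlib

set_option autoImplicit false

namespace Pool.Agent.H33.Adj

section abs
variable {U A : Type} [Ring U] (t : A → U)

def tw (u : List A) : U := (u.map t).prod

lemma tw_app (u v : List A) : tw t (u ++ v) = tw t u * tw t v := by simp [tw]

def J (m : ℕ) : AddSubgroup U := AddSubgroup.closure {x | ∃ u : List A, m ≤ u.length ∧ tw t u = x}

lemma tw_mem {m : ℕ} {u : List A} (h : m ≤ u.length) : tw t u ∈ J t m :=
  AddSubgroup.subset_closure ⟨u, h, rfl⟩

lemma J_mono {m n : ℕ} (h : m ≤ n) : J t n ≤ J t m :=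
  AddSubgroup.closure_mono fun _ ⟨u, h1, h2⟩ => ⟨u, h.trans h1, h2⟩

variable {t}

lemma J_mul {m n : ℕ} {x y : U} (hx : x ∈ J t m) (hy : y ∈ J t n) : x * y ∈ J t (m + n) := by
  induction hx using AddSubgroup.closure_induction with
  | mem x hx =>
    obtain ⟨u, h1, rfl⟩ := hx
    induction hy using AddSubgroup.closure_induction with
    | mem y hy =>
      obtain ⟨v, h2, rfl⟩ := hy
      rw [← tw_app]
      exact tw_mem t (by simp; omega)
    | zero => simp
    | add a b _ _ h3 h4 => rw [mul_add]; exact add_mem h3 h4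
    | neg a _ h3 => rw [mul_neg]; exact neg_mem h3
  | zero => simp
  | add a b _ _ h3 h4 => rw [add_mul]; exact add_mem h3 h4
  | neg a _ h3 => rw [neg_mul]; exact neg_mem h3

lemma J_bot {N : ℕ} (hN : ∀ u : List A, N ≤ u.length → tw t u = 0) {x : U} (hx : x ∈ J t N) :
    x = 0 := by
  have : J t N ≤ ⊥ := (AddSubgroup.closure_le _).2 fun _ ⟨u, h1, h2⟩ => by
    rw [← h2, hN u h1]; simp
  simpa using this hx

lemma prod_mem : ∀ l : List U, (∀ x ∈ l, x ∈ J t 1) → l.prod ∈ J t l.length
  | [], _ => by simpa [tw] using tw_mem t (m := 0) (u := []) le_rfl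
  | a :: l, h => by
    rw [List.prod_cons, List.length_cons, add_comm]
    exact J_mul (h a (by simp)) (prod_mem l fun x hx => h x (by simp [hx]))

theorem gen (g : A → Uˣ) (hg : ∀ a, (g a : U) = 1 + t a) (h0 : ∀ x, x ∈ J t 0) {N : ℕ}
    (hN : ∀ u : List A, N ≤ u.length → tw t u = 0)
    (hr : ∀ u : List A, 2 ≤ u.length → ∃ k, tw t (u.rotate k) = 0) {r : U} (hr1 : r ∈ J t 1) :
    ∃ h ∈ Subgroup.closure (Set.range g), (h : U) = 1 + r := by
  set H := Subgroup.closure (Set.range g)
  have ml : ∀ {m : ℕ} (x : U) {y : U}, y ∈ J t m → x * y ∈ J t m := fun x y hy => by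
    simpa using J_mul (h0 x) hy
  have mr : ∀ {m : ℕ} {x : U} (y : U), x ∈ J t m → x * y ∈ J t m := fun y hx => by
    simpa using J_mul hx (h0 y)
  have ta : ∀ a, t a ∈ J t 1 := fun a => by simpa [tw] using tw_mem t (m := 1) (u := [a]) le_rfl
  have H1 : ∀ h ∈ H, (h : U) - 1 ∈ J t 1 := by
    intro h hh
    induction hh using Subgroup.closure_induction with
    | mem x hx => obtain ⟨a, rfl⟩ := hx; simpa [hg] using ta a
    | one => simp
    | mul x y _ _ h1 h2 =>
      have : ((x * y : Uˣ) : U) - 1 = (x - 1) * y + (y - 1) := by push_cast; noncomm_ring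
      rw [this]; exact add_mem (mr _ h1) h2
    | inv x _ h1 =>
      have : ((x⁻¹ : Uˣ) : U) - 1 = -((x⁻¹ : Uˣ) * ((x : U) - 1)) := by simp [mul_sub]
      rw [this]; exact neg_mem (ml _ h1)
  let S : ℕ → U → Prop := fun m r => r ∈ J t m ∧ ∃ h ∈ H, (h : U) - 1 - r ∈ J t (m + 1)
  have Sh : ∀ {m : ℕ} {r : U} {h : Uˣ}, r ∈ J t m → (h : U) - 1 - r ∈ J t (m + 1) →
      (h : U) - 1 ∈ J t m := fun {m r h} h1 h2 => by
    simpa using add_mem (J_mono t (Nat.le_succ m) h2) h1
  have S0 : ∀ m r, r ∈ J t (m + 1) → S m r := fun m r h =>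
    ⟨J_mono t (Nat.le_succ m) h, 1, H.one_mem, by simpa using h⟩
  have Sadd : ∀ m r s, S m r → S m s → S m (r + s) := by
    rintro m r s ⟨a1, h, a2, a3⟩ ⟨b1, k, b2, b3⟩
    refine ⟨add_mem a1 b1, h * k, H.mul_mem a2 b2, ?_⟩
    have : ((h * k : Uˣ) : U) - 1 - (r + s) =
        (h - 1 - r) + (k - 1 - s) + ((h : U) - 1) * ((k : U) - 1) := by push_cast; noncomm_ring
    rw [this]
    exact add_mem (add_mem a3 b3) (J_mul (Sh a1 a3) (H1 k b2))
  have Sneg : ∀ m r, S m r → S m (-r) := by
    rintro m r ⟨a1, h, a2, a3⟩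
    refine ⟨neg_mem a1, h⁻¹, H.inv_mem a2, ?_⟩
    have : ((h⁻¹ : Uˣ) : U) - 1 - -r =
        -(h - 1 - r) - ((h : U) - 1) * (((h⁻¹ : Uˣ) : U) - 1) := by
      simp only [mul_sub, sub_mul, Units.mul_inv, one_mul, mul_one]; abel
    rw [this]
    exact sub_mem (neg_mem a3) (J_mul (Sh a1 a3) (H1 _ (H.inv_mem a2)))
  have Scom : ∀ i j r s, S i r → S j s → S (i + j) (r * s - s * r) := by
    rintro i j r s ⟨a1, h, a2, a3⟩ ⟨b1, k, b2, b3⟩
    have c : ∀ {x y : U} {p q : ℕ}, x ∈ J t p → y ∈ J t q → x * y - y * x ∈ J t (p + q) :=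
      fun {x y p q} hx hy => sub_mem (J_mul hx hy) (by rw [add_comm]; exact J_mul hy hx)
    refine ⟨c a1 b1, h * k * (h⁻¹ * k⁻¹), H.mul_mem (H.mul_mem a2 b2)
      (H.mul_mem (H.inv_mem a2) (H.inv_mem b2)), ?_⟩
    have e0 : (k : U) * h * ((h⁻¹ * k⁻¹ : Uˣ) : U) = 1 := by simp [mul_assoc]
    have e1 := H1 _ (H.mul_mem (H.inv_mem a2) (H.inv_mem b2))
    generalize h⁻¹ * k⁻¹ = w at e0 e1
    have : ((h * k * w : Uˣ) : U) - 1 - (r * s - s * r) =
        (((h : U) - 1) * ((k : U) - 1) - ((k : U) - 1) * ((h : U) - 1)) * ((w : U) - 1) +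
        ((h - 1 - r) * ((k : U) - 1) - ((k : U) - 1) * (h - 1 - r)) +
        (r * (k - 1 - s) - (k - 1 - s) * r) := by
      have e2 : ((h * k * w : Uˣ) : U) - 1 = ((h : U) * k - k * h) * w := by
        rw [sub_mul, e0]; push_cast; rfl
      rw [e2]; noncomm_ring
    rw [this]
    refine add_mem (add_mem (J_mul (c (Sh a1 a3) (Sh b1 b3)) e1) ?_) (c (q := j + 1) a1 b3)
    have := c a3 (Sh b1 b3)
    rwa [add_right_comm] at this
  have Sw : ∀ m, 1 ≤ m → ∀ u : List A, u.length = m → S m (tw t u) := by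
    intro m
    induction m using Nat.strong_induction_on with
    | _ m ih =>
    intro hm u hu
    rcases hm.eq_or_lt with rfl | hm
    · obtain ⟨a, rfl⟩ := List.length_eq_one_iff.1 hu
      exact ⟨by simpa [tw] using ta a, g a, Subgroup.subset_closure ⟨a, rfl⟩, by simp [hg, tw]⟩
    · have key : ∀ k, ∀ u : List A, u.length = m → S m (tw t (u.rotate k)) → S m (tw t u) := by
        intro k
        induction k with
        | zero => intro u _ h; simpa using h
        | succ k ihk =>
          intro u hu h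
          obtain _ | ⟨a, v⟩ := u
          · simp at hu; omega
          · rw [List.rotate_cons_succ] at h
            simp only [List.length_cons] at hu
            have h1 := ihk (v ++ [a]) (by simpa using hu) h
            have h2 := Scom _ _ _ _ (ih 1 hm le_rfl [a] rfl)
              (ih v.length (by omega) (by omega) v rfl)
            rw [show 1 + v.length = m by omega, ← tw_app, ← tw_app] at h2
            simpa using Sadd _ _ _ h2 h1
      obtain ⟨k, hk⟩ := hr u (by omega)
      refine key k u hu ?_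
      rw [hk]
      exact S0 _ _ (zero_mem _)
  have SJ : ∀ m, 1 ≤ m → ∀ r ∈ J t m, S m r := by
    intro m hm r hr
    induction hr using AddSubgroup.closure_induction with
    | mem x hx =>
      obtain ⟨u, h1, rfl⟩ := hx
      rcases h1.eq_or_lt with h | h
      · exact Sw m hm u h.symm
      · exact S0 _ _ (tw_mem t h)
    | zero => exact S0 _ _ (zero_mem _)
    | add a b _ _ h3 h4 => exact Sadd _ _ _ h3 h4
    | neg a _ h3 => exact Sneg _ _ h3
  have fin : ∀ k m, 1 ≤ m → N ≤ m + k → ∀ r ∈ J t m, ∃ h ∈ H, (h : U) = 1 + r := by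
    intro k
    induction k with
    | zero =>
      intro m _ h r hr
      exact ⟨1, H.one_mem, by simp [J_bot hN (J_mono t h hr)]⟩
    | succ k ih =>
      intro m h1 h2 r hr
      obtain ⟨-, h, a2, a3⟩ := SJ m h1 r hr
      obtain ⟨l, b1, b2⟩ := ih (m + 1) (by omega) (by omega) _ (neg_mem (ml (h⁻¹ : Uˣ) a3))
      refine ⟨h * l, H.mul_mem a2 b1, ?_⟩
      rw [Units.val_mul, b2, mul_add, mul_neg, ← mul_assoc, Units.mul_inv]
      noncomm_ring
  exact fin N 1 le_rfl (by omega) r hr1

end abs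

abbrev L := Bool × Bool × Bool

def zz (i : ℕ) : Bool := i % 2 = 1

def yy (i : ℕ) : Bool := if i % 2 = 0 then zz (i / 2 / 2) else yy (i / 2)
decreasing_by omega

def w (i : ℕ) : L := (zz (i / 2), yy i, zz i)

lemma w_even (i : ℕ) : w (2 * i) = ((w i).2.2, (w i).1, false) := by
  unfold w
  rw [yy]
  simp [zz]

lemma w_odd (i : ℕ) : w (2 * i + 1) = ((w i).2.2, (w i).2.1, true) := by
  have h1 : (2 * i + 1) / 2 = i := by omega
  have h2 : (2 * i + 1) % 2 = 1 := by omega
  unfold w
  rw [yy]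
  simp [zz, h1, h2]

lemma wz (i : ℕ) : (w (i + 1)).2.2 = !(w i).2.2 := by
  simp only [w, zz]
  rcases Nat.mod_two_eq_zero_or_one i with h | h <;> simp [Nat.add_mod, h]

lemma wz0 {p : ℕ} (h : (w p).2.2 = false) : ∃ q, p = 2 * q := ⟨p / 2, by
  simp [w, zz] at h; omega⟩

lemma wz1 {p : ℕ} (h : (w p).2.2 = true) : ∃ q, p = 2 * q + 1 := ⟨p / 2, by
  simp [w, zz] at h; omega⟩

theorem nocirc (m : ℕ) : 2 ≤ m → ∀ u : ℕ → L, (∀ k, u (k + m) = u k) →
    (∀ s, ∃ p, ∀ k < m, w (p + k) = u (s + k)) → False := by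
  induction m using Nat.strong_induction_on with
  | _ m ih =>
  intro hm
  have main : ∀ u : ℕ → L, (u 0).2.2 = false → (∀ k, u (k + m) = u k) →
      (∀ s, ∃ p, ∀ k < m, w (p + k) = u (s + k)) → False := by
    intro u h0 hp hw
    have alt : ∀ s, (u (s + 1)).2.2 = !(u s).2.2 := fun s => by
      obtain ⟨p, h⟩ := hw s
      rw [← h 1 (by omega), wz, ← Nat.add_zero s, ← h 0 (by omega)]
      rfl
    have ev : ∀ s, (u (2 * s)).2.2 = false ∧ (u (2 * s + 1)).2.2 = true := by
      intro s
      induction s with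
      | zero => simp [alt 0, h0]
      | succ s ihs =>
        have : (u (2 * (s + 1))).2.2 = false := by
          rw [show 2 * (s + 1) = 2 * s + 1 + 1 by ring, alt, ihs.2]; rfl
        exact ⟨this, by rw [alt, this]; rfl⟩
    obtain ⟨n, rfl⟩ : ∃ n, m = 2 * n := by
      rcases Nat.even_or_odd' m with ⟨n, h | h⟩
      · exact ⟨n, h⟩
      · have := hp 0
        rw [zero_add, h] at this
        have e := (ev n).2
        rw [this, h0] at e
        cases e
    rcases (show n = 1 ∨ 2 ≤ n by omega) with rfl | hn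
    · obtain ⟨p, h1⟩ := hw 0
      obtain ⟨q, h2⟩ := hw 1
      have a0 := h1 0 (by omega)
      have a1 := h1 1 (by omega)
      have b0 := h2 0 (by omega)
      have b1 := h2 1 (by omega)
      have c := hp 0
      simp only [add_zero, zero_add, mul_one] at a0 a1 b0 b1 c
      obtain ⟨p, rfl⟩ := wz0 (p := p) (by rw [a0, h0])
      obtain ⟨q, rfl⟩ := wz1 (p := q) (by rw [b0]; exact (ev 0).2)
      rw [show 1 + 1 = 2 from rfl, c, show 2 * q + 1 + 1 = 2 * (q + 1) by ring, ← a0, w_even,
        w_even] at b1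
      rw [← a1, w_odd, w_odd] at b0
      have e1 := congrArg Prod.fst b1
      have e2 := congrArg Prod.fst b0
      simp only [wz] at e1 e2
      rw [← e2] at e1
      simp at e1
    · refine ih n (by omega) hn (fun j => ((u (2 * j)).2.1, (u (2 * j + 1)).2.1, (u (2 * j)).1))
        (fun k => ?_) fun s => ?_
      · rw [show 2 * (k + n) + 1 = 2 * k + 1 + 2 * n by ring, mul_add, hp, hp]
      · obtain ⟨p, h⟩ := hw (2 * s)
        obtain ⟨p, rfl⟩ := wz0 (p := p) (by
          have := h 0 (by omega)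
          rw [add_zero] at this
          rw [this]; exact (ev s).1)
        refine ⟨p, fun k hk => ?_⟩
        have a0 := h (2 * k) (by omega)
        have a1 := h (2 * k + 1) (by omega)
        rw [← mul_add, ← mul_add, w_even] at a0
        rw [← add_assoc, ← add_assoc, ← mul_add, ← mul_add, w_odd] at a1
        rw [← a0, ← a1]
  intro u hp hw
  cases h0 : (u 0).2.2
  · exact main u h0 hp hw
  · refine main (fun k => u (k + 1)) ?_ (fun k => by rw [add_right_comm, hp]) fun s => ?_
    · obtain ⟨p, h⟩ := hw 0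
      rw [← h 1 (by omega), wz, ← Nat.add_zero p, h 0 (by omega), h0]
      rfl
    · obtain ⟨p, h⟩ := hw (s + 1)
      exact ⟨p, fun k hk => by rw [h k hk, add_right_comm]⟩

abbrev F := ZMod 2
abbrev E := Module.End F (ℕ → F)

def T (N : ℕ) (a : L) : E where
  toFun f i := if i < N ∧ w i = a then f (i + 1) else 0
  map_add' f g := by ext i; by_cases h : i < N ∧ w i = a <;> simp [h]
  map_smul' c f := by ext i; by_cases h : i < N ∧ w i = a <;> simp [h]

lemma T_ne (N : ℕ) : ∀ (u : List L) (f : ℕ → F) (i : ℕ), tw (T N) u f i ≠ 0 →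
    (u ≠ [] → i + u.length ≤ N) ∧ ∀ k (hk : k < u.length), w (i + k) = u[k]
  | [], _, _, _ => by simp
  | a :: v, f, i, h => by
    have e : tw (T N) (a :: v) f i = if i < N ∧ w i = a then tw (T N) v f (i + 1) else 0 := rfl
    rw [e] at h
    split_ifs at h with h1
    · obtain ⟨h2, h3⟩ := T_ne N v f (i + 1) h
      refine ⟨fun _ => ?_, fun k hk => ?_⟩
      · by_cases hv : v = []
        · subst hv; simp; omega
        · have := h2 hv
          simp; omega
      · cases k with
        | zero => simpa using h1.2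
        | succ k =>
          simp only [List.getElem_cons_succ]
          rw [← h3 k (by simpa using hk)]
          congr 1; omega
    · exact absurd rfl h

lemma T_long (N : ℕ) (u : List L) (h : N + 1 ≤ u.length) : tw (T N) u = 0 := by
  ext f i
  by_contra hne
  have := (T_ne N u f i hne).1 (by rintro rfl; simp at h)
  omega

lemma T_rot (N : ℕ) (u : List L) (h : 2 ≤ u.length) : ∃ k, tw (T N) (u.rotate k) = 0 := by
  by_contra hne
  push Not at hne
  refine nocirc u.length h (fun k => u[k % u.length]'(Nat.mod_lt _ (by omega)))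
    (fun k => by simp) fun s => ?_
  have : ∃ f i, tw (T N) (u.rotate s) f i ≠ 0 := by
    by_contra h1
    push Not at h1
    exact hne s (by ext f i; exact h1 f i)
  obtain ⟨f, i, h1⟩ := this
  refine ⟨i, fun k hk => ?_⟩
  rw [(T_ne N _ f i h1).2 k (by simpa using hk), List.getElem_rotate]
  simp [add_comm]

lemma T_pre (N : ℕ) : ∀ (m i : ℕ) (f : ℕ → F), i + m ≤ N →
    tw (T N) ((List.range' i m).map w) f i = f (i + m)
  | 0, _, _, _ => rfl
  | m + 1, i, f, h => by
    have e : tw (T N) ((List.range' i (m + 1)).map w) f i = if i < N ∧ w i = w i then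
      tw (T N) ((List.range' (i + 1) m).map w) f (i + 1) else 0 := rfl
    rw [e, if_pos ⟨by omega, rfl⟩, T_pre N m (i + 1) f (by omega)]
    congr 1; omega

def R (N : ℕ) : NonUnitalSubalgebra F E := NonUnitalAlgebra.adjoin F (Set.range (T N))

def tR (N : ℕ) (a : L) : R N := ⟨T N a, NonUnitalAlgebra.subset_adjoin F (Set.mem_range_self a)⟩

def tU (N : ℕ) (a : L) : Unitization F (R N) := Unitization.inr (tR N a)

lemma tU_eq (N : ℕ) : ∀ u : List L, u ≠ [] →
    ∃ r : R N, (r : E) = tw (T N) u ∧ tw (tU N) u = Unitization.inr r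
  | [], h => absurd rfl h
  | [a], _ => ⟨tR N a, by simp [tw, tR], by simp [tw, tU]⟩
  | a :: b :: v, _ => by
    obtain ⟨r, h1, h2⟩ := tU_eq N (b :: v) (by simp)
    refine ⟨tR N a * r, ?_, ?_⟩
    · rw [NonUnitalSubalgebra.coe_mul, h1]; rfl
    · rw [Unitization.inr_mul, ← h2]; rfl

lemma tU_zero (N : ℕ) (u : List L) (h : u ≠ []) (h0 : tw (T N) u = 0) : tw (tU N) u = 0 := by
  obtain ⟨r, h1, h2⟩ := tU_eq N u h
  have : r = 0 := Subtype.ext (h1.trans h0)
  rw [h2, this, Unitization.inr_zero]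

lemma inr_mem (N : ℕ) (r : R N) : (Unitization.inr r : Unitization F (R N)) ∈ J (tU N) 1 := by
  obtain ⟨r, hr⟩ := r
  induction hr using NonUnitalAlgebra.adjoin_induction with
  | mem x hx =>
    obtain ⟨a, rfl⟩ := hx
    have := tw_mem (tU N) (m := 1) (u := [a]) le_rfl
    simp only [tw, List.map_cons, List.map_nil, List.prod_cons, List.prod_nil, mul_one] at this
    exact this
  | add x y hx hy h1 h2 =>
    have := add_mem h1 h2
    rwa [← Unitization.inr_add] at this
  | zero => exact zero_mem _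
  | mul x y hx hy h1 h2 =>
    have := J_mono _ (by norm_num : 1 ≤ 1 + 1) (J_mul h1 h2)
    rwa [← Unitization.inr_mul] at this
  | smul c x hx h1 =>
    have : c = 0 ∨ c = 1 := by revert c; decide
    rcases this with rfl | rfl
    · simp only [zero_smul]; exact zero_mem _
    · simpa only [one_smul] using h1

lemma all_mem (N : ℕ) (x : Unitization F (R N)) : x ∈ J (tU N) 0 := by
  induction x using Unitization.ind with
  | inl_add_inr c r =>
    refine add_mem ?_ (J_mono _ (by norm_num) (inr_mem N r))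
    have : c = 0 ∨ c = 1 := by revert c; decide
    rcases this with rfl | rfl
    · simp
    · simpa [tw] using tw_mem (tU N) (m := 0) (u := []) le_rfl

lemma long0 (N : ℕ) (u : List L) (h : N + 1 ≤ u.length) : tw (tU N) u = 0 :=
  tU_zero N u (by rintro rfl; simp at h) (T_long N u h)

lemma rank_ge (N : ℕ) : (N : Cardinal) ≤ Module.rank F (R N) := by
  let ψ : R N →ₗ[F] (Fin N → F) :=
    { toFun := fun r j => (r : E) (Pi.single (j + 1) 1) 0
      map_add' := fun _ _ => rfl
      map_smul' := fun _ _ => rfl }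
  have hs : Function.Surjective ψ := by
    rw [← LinearMap.range_eq_top, eq_top_iff, ← (Pi.basisFun F (Fin N)).span_eq,
      Submodule.span_le]
    rintro _ ⟨j, rfl⟩
    obtain ⟨r, h1, -⟩ := tU_eq N ((List.range' 0 (j + 1)).map w) (by simp)
    refine ⟨r, ?_⟩
    ext k
    show (r : E) (Pi.single (k + 1) 1) 0 = _
    rw [h1, T_pre N _ 0 _ (by omega)]
    simp [Pi.single_apply, Fin.ext_iff, eq_comm]
  simpa using ψ.rank_le_of_surjective hs

end Pool.Agent.H33.Adj
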