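import Mathlib

set_option autoImplicit false
open Filter Topology Metric Set Cardinal

namespace Pool.Agent.H33.Asp

lemma transv {V A Z : Type} [AddCommGroup V] [Module ℝ V] (hA : #A ≤ #Z) (z : A → Z → V)
    (hz : ∀ a, LinearIndependent ℝ (z a)) :
    ∃ σ : A → Z, LinearIndependent ℝ fun a => z a (σ a) := by
  obtain ⟨_, _, ho⟩ := exists_ord_eq_type_lt A
  have key : ∀ (a : A) (f : ∀ b, b < a → Z), ∃ s,
      z a s ∉ Submodule.span ℝ (range fun b : Iio a => z b (f b b.2)) := by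
    intro a f
    by_contra h
    push Not at h
    have h1 : LinearIndependent ℝ fun s => (⟨z a s, h s⟩ : Submodule.span ℝ _) :=
      LinearIndependent.of_comp (Submodule.subtype _) (hz a)
    exact absurd (h1.cardinal_le_rank.trans ((rank_span_le _).trans mk_range_le))
      (not_le.2 ((mk_Iio_lt a ho).trans_le hA))
  choose g hg using key
  let σ : A → Z := (wellFounded_lt (α := A)).fix g
  have hσ : ∀ a, z a (σ a) ∉ Submodule.span ℝ (range fun b : Iio a => z b (σ b)) := fun a => by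
    have : σ a = g a fun b _ => σ b := WellFounded.fix_eq _ _ _
    rw [this]
    exact hg a fun b _ => σ b
  refine ⟨σ, linearIndependent_iff'.2 fun s c h => ?_⟩
  by_contra hh
  push Not at hh
  obtain ⟨a, ha, hm⟩ := (s.filter fun i => c i ≠ 0).exists_max_image id
    (by obtain ⟨i, h1, h2⟩ := hh; exact ⟨i, by simp [h1, h2]⟩)
  simp only [Finset.mem_filter, id] at ha hm
  refine hσ a ((Submodule.smul_mem_iff _ ha.2).1 ?_)
  rw [← Finset.add_sum_erase _ _ ha.1, add_eq_zero_iff_eq_neg] at h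
  rw [h]
  refine neg_mem (Submodule.sum_mem _ fun b hb => ?_)
  rw [Finset.mem_erase] at hb
  by_cases h0 : c b = 0
  · simp [h0]
  · exact Submodule.smul_mem _ _ (Submodule.subset_span
      ⟨⟨b, lt_of_le_of_ne (hm b ⟨hb.2, h0⟩) hb.1⟩, rfl⟩)

abbrev X := lp (fun _ : ℝ => ℝ) 1
abbrev K0 := ℕ × List Bool
abbrev K := K0 ⊕ ℝ × ℝ
abbrev P := X × (K → ℝ)
abbrev D := X × Finset (K × ℝ) × ℝ

lemma supp (x : X) : (Function.support (x : ℝ → ℝ)).Countable := by
  have := (x.2.summable (by simp)).countable_support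
  exact this.mono fun i hi => by simpa using hi

lemma cardX : #X ≤ 𝔠 := by
  classical
  let F : (ℕ → ℝ × ℝ) → ℝ → ℝ := fun s g => if h : ∃ n, (s n).1 = g then (s h.choose).2 else 0
  have h1 : ∀ x : X, ∃ s, F s = x := fun x => by
    obtain ⟨e, he⟩ := ((supp x).insert 0).exists_eq_range (insert_nonempty _ _)
    refine ⟨fun n => (e n, x (e n)), funext fun g => ?_⟩
    simp only [F]
    split_ifs with h
    · rw [h.choose_spec]
    · by_contra h0
      have : g ∈ range e := he ▸ Or.inr (Ne.symm h0)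
      exact h this
  choose s hs using h1
  have := mk_le_of_injective (f := s) fun x y h => lp.ext (by rw [← hs, ← hs, h])
  simpa [mk_real] using this

lemma cardD : #(K0 → D) ≤ 𝔠 := by
  have h1 : #D ≤ 𝔠 := by
    have : #(Finset (K × ℝ)) = 𝔠 := by simp [mk_finset_of_infinite, mk_real]
    simp only [mk_prod, lift_id, this, mk_real, continuum_mul_self]
    simpa using mul_le_mul' cardX (le_refl 𝔠)
  have h2 : #K0 = ℵ₀ := mk_eq_aleph0 _
  rw [← power_def, h2]
  simpa using power_le_power_right (c := ℵ₀) h1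

lemma kink (x : X) : ∃ h : X, ∀ t : ℝ, ‖x + t • h‖ = ‖x‖ + |t| := by
  obtain ⟨g, hg⟩ : ∃ g, g ∉ Function.support (x : ℝ → ℝ) := by
    by_contra h
    push Not at h
    exact not_countable_univ ((eq_univ_of_forall h) ▸ supp x)
  have h0 : (x : ℝ → ℝ) g = 0 := by simpa using hg
  refine ⟨lp.single 1 g 1, fun t => ?_⟩
  have := lp.norm_compl_sum_single (p := 1) (by simp) (x + t • lp.single 1 g 1) {g}
  simp only [Finset.sum_singleton, ENNReal.toReal_one, Real.rpow_one, lp.coeFn_add, lp.coeFn_smul,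
    Pi.add_apply, Pi.smul_apply, h0, lp.single_apply_self, zero_add,
    smul_eq_mul, mul_one, Real.norm_eq_abs] at this
  rw [show (lp.single 1 g t : X) = t • lp.single 1 g 1 by simp [← lp.single_smul],
    add_sub_cancel_right] at this
  linarith

def box (d : D) : Set P := {p | dist p.1 d.1 ≤ d.2.2 ∧ ∀ c ∈ d.2.1, dist (p.2 c.1) c.2 ≤ d.2.2}
def obox (d : D) : Set P := {p | dist p.1 d.1 < d.2.2 ∧ ∀ c ∈ d.2.1, dist (p.2 c.1) c.2 < d.2.2}

lemma obox_sub (d : D) : obox d ⊆ box d := fun _ h => ⟨h.1.le, fun c hc => (h.2 c hc).le⟩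

lemma obox_open (d : D) : IsOpen (obox d) := by
  refine IsOpen.and (isOpen_lt (by fun_prop) continuous_const) ?_
  simp only [setOf_forall]
  exact isOpen_biInter_finset fun c _ => isOpen_lt (by fun_prop) continuous_const

lemma shrink {G : Set P} (hG : IsOpen G) (hn : G.Nonempty) {ε : ℝ} (he : 0 < ε) :
    ∃ d : D, (obox d).Nonempty ∧ box d ⊆ G ∧ d.2.2 ≤ ε := by
  classical
  obtain ⟨q, hq⟩ := hn
  obtain ⟨u, hu, v, hv, h⟩ := mem_nhds_prod_iff.1 (hG.mem_nhds hq)
  rw [nhds_pi, mem_pi'] at hv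
  obtain ⟨I, t, ht, hI⟩ := hv
  have h1 := ((eventually_closedBall_subset hu).and ((eventually_all_finset I).2
    fun i _ => eventually_closedBall_subset (ht i))).and (ge_mem_nhds he)
  obtain ⟨r, ⟨⟨a1, a2⟩, a3⟩, a4⟩ :=
    ((h1.filter_mono nhdsWithin_le_nhds).and (self_mem_nhdsWithin (s := Ioi (0 : ℝ)))).exists
  refine ⟨(q.1, I.image fun k => (k, q.2 k), r), ⟨q, by simpa using a4, fun c hc => ?_⟩,
    fun p hp => h ⟨a1 hp.1, hI fun i hi => a2 i hi
      (hp.2 (i, q.2 i) (Finset.mem_image_of_mem _ hi))⟩, a3⟩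
  obtain ⟨k, -, rfl⟩ := Finset.mem_image.1 hc
  simpa using a4

lemma nested (d : ℕ → D) (h1 : ∀ n, (obox (d n)).Nonempty) (h2 : ∀ n, box (d (n + 1)) ⊆ box (d n))
    (h3 : ∀ n, (d (n + 1)).2.2 ≤ 1 / ((n : ℝ) + 1)) : ∃ p, ∀ n, p ∈ box (d n) := by
  choose q hq using h1
  have hm : ∀ m n, m ≤ n → q n ∈ box (d m) := fun m n h =>
    antitone_nat_of_succ_le (f := fun n => box (d n)) h2 h (obox_sub _ (hq n))
  have hc : CauchySeq fun n => (q (n + 1)).1 := by
    refine cauchySeq_of_le_tendsto_0' (fun n => 2 * (1 / ((n : ℝ) + 1))) (fun n m h => ?_)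
      (by simpa using tendsto_one_div_add_atTop_nhds_zero_nat.const_mul (2 : ℝ))
    have := dist_triangle_right (q (n + 1)).1 (q (m + 1)).1 (d (n + 1)).1
    linarith [(hm (n + 1) (n + 1) le_rfl).1, (hm (n + 1) (m + 1) (by omega)).1, h3 n]
  obtain ⟨x, hx⟩ := cauchySeq_tendsto_of_complete hc
  let U := hyperfilter ℕ
  refine ⟨(x, fun k => limUnder U fun n => (q n).2 k), fun n => ⟨?_, fun c hc => ?_⟩⟩
  · exact isClosed_closedBall.mem_of_tendsto hx
      ((eventually_ge_atTop n).mono fun m h => (hm n (m + 1) (by omega)).1)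
  · obtain ⟨a, a1, a2⟩ := (isCompact_closedBall c.2 (d n).2.2).ultrafilter_le_nhds'
      (U.map fun n => (q n).2 c.1) (by
        refine Nat.hyperfilter_le_atTop ?_
        exact (eventually_ge_atTop n).mono fun m h => (hm n m h).2 c hc)
    have : Tendsto (fun n => (q n).2 c.1) U (𝓝 a) := a2
    simpa [this.limUnder_eq] using a1

end Pool.Agent.H33.Asp
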