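import Pool.Agent.H33.Asp1

set_option autoImplicit false
open Filter Topology Metric Set Cardinal

namespace Pool.Agent.H33.Asp

def node (σ : ℕ → Bool) : ℕ → List Bool
  | 0 => []
  | n + 1 => σ n :: node σ n

lemma node_len (σ : ℕ → Bool) (n : ℕ) : (node σ n).length = n := by
  induction n <;> simp_all [node]

lemma node_ne {σ τ : ℕ → Bool} (h : σ ≠ τ) : ∀ᶠ n in atTop, node σ n ≠ node τ n := by
  obtain ⟨i, hi⟩ := Function.ne_iff.1 h
  refine (eventually_gt_atTop i).mono fun n hn => ?_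
  induction n, hn using Nat.le_induction with
  | base => simp [node, hi]
  | succ n _ ih => simp [node, ih]

def Cs (α : K0 → D) : Set P := {p | ∀ n, ∃ σ, p ∈ box (α (n, node σ n))}

def pr (p : P) : K0 → ℝ := fun k => p.2 (Sum.inl k)

def Good (α : K0 → D) : Prop :=
  ∃ z : (ℕ → Bool) → P, (∀ σ, z σ ∈ Cs α) ∧ LinearIndependent ℝ fun σ => pr (z σ)

lemma step {U : Set P} (hU : IsOpen U) (hd : Dense U) (n : ℕ) (W : List Bool → D)
    (hW : ∀ s : List Bool, s.length = n → (obox (W s)).Nonempty) :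
    ∃ (N : ℕ) (W' : List Bool → D), ∀ s : List Bool, s.length = n + 1 →
      (obox (W' s)).Nonempty ∧ box (W' s) ⊆ box (W s.tail) ∩ U ∧ (W' s).2.2 ≤ 1 / ((n : ℝ) + 1) ∧
      ∀ p ∈ box (W' s), ∀ t : List Bool, t.length = n + 1 →
        |pr p (N, t) - if s = t then 1 else 0| ≤ 1 / ((n : ℝ) + 1) := by
  classical
  obtain ⟨N, hN⟩ := ((List.finite_length_eq Bool n).biUnion fun s _ =>
    ((W s).2.1.finite_toSet.image fun c => Sum.elim Prod.fst 0 c.1)).exists_notMem
  simp only [mem_iUnion, mem_image, not_exists, not_and] at hN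
  have he : (0 : ℝ) < 1 / ((n : ℝ) + 1) := by positivity
  have key : ∀ s : List Bool, s.length = n + 1 → ∃ d : D,
      (obox d).Nonempty ∧ box d ⊆ box (W s.tail) ∩ U ∧ d.2.2 ≤ 1 / ((n : ℝ) + 1) ∧
      ∀ p ∈ box d, ∀ t : List Bool, t.length = n + 1 →
        |pr p (N, t) - if s = t then 1 else 0| ≤ 1 / ((n : ℝ) + 1) := by
    intro s hs
    have hl : s.tail.length = n := by simp [hs]
    obtain ⟨q, hq⟩ := hW _ hl
    let G := obox (W s.tail) ∩ ⋂ t ∈ {t : List Bool | t.length = n + 1},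
      {p : P | |pr p (N, t) - if s = t then 1 else 0| < 1 / ((n : ℝ) + 1)}
    have hG : IsOpen G := (obox_open _).inter ((List.finite_length_eq Bool (n + 1)).isOpen_biInter
      fun t _ => isOpen_lt (by unfold pr; fun_prop) continuous_const)
    have hn : G.Nonempty := by
      refine ⟨(q.1, fun k => if ∃ t, k = Sum.inl (N, t) then
        (if Sum.inl (N, s) = k then 1 else 0) else q.2 k), ⟨hq.1, fun c hc => ?_⟩, ?_⟩
      · have : ¬ ∃ t, c.1 = Sum.inl (N, t) := fun ⟨t, ht⟩ => hN _ hl c hc (by simp [ht])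
        simpa only [if_neg this] using hq.2 c hc
      · simp only [mem_iInter]
        intro t _
        simpa [pr] using he
    obtain ⟨d, d1, d2, d3⟩ := shrink (hG.inter hU) (hd.inter_open_nonempty G hG hn) he
    exact ⟨d, d1, fun p hp => ⟨obox_sub _ (d2 hp).1.1, (d2 hp).2⟩, d3,
      fun p hp t ht => (mem_iInter₂.1 (d2 hp).1.2 t ht).le⟩
  choose! W' h using key
  exact ⟨N, W', h⟩

lemma scheme (V : ℕ → Set P) (hV : ∀ n, IsOpen (V n)) (hd : ∀ n, Dense (V n)) {O : Set P}
    (hO : IsOpen O) (hn : O.Nonempty) : ∃ α, Good α ∧ Cs α ⊆ O ∩ ⋂ n, V n := by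
  classical
  obtain ⟨d0, a1, a2, -⟩ := shrink hO hn one_pos
  choose! N W' h using fun n => step (hV n) (hd n) n
  let W : ℕ → List Bool → D := fun n => Nat.rec (fun _ => d0) W' n
  have inv : ∀ n, ∀ s : List Bool, s.length = n → (obox (W n s)).Nonempty := by
    intro n
    induction n with
    | zero => exact fun _ _ => a1
    | succ n ih => exact fun s hs => (h n _ ih s hs).1
  have h' := fun n σ => h n _ (inv n) _ (node_len σ (n + 1))
  choose z hz using fun σ => nested (fun n => W n (node σ n)) (fun n => inv n _ (node_len _ _))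
    (fun n p hp => ((h' n σ).2.1 hp).1) fun n => (h' n σ).2.2.1
  refine ⟨fun k => W k.1 k.2, ⟨z, fun σ n => ⟨σ, hz σ n⟩, linearIndependent_iff'.2 fun S g e => ?_⟩,
    fun p hp => ⟨?_, mem_iInter.2 fun n => ?_⟩⟩
  · intro τ hτ
    obtain ⟨σ, hσ, hm⟩ := S.exists_max_image (fun i => |g i|) ⟨τ, hτ⟩
    have e1 : ∀ᶠ n in atTop, ∀ i ∈ S, i ≠ σ → node i n ≠ node σ n :=
      (eventually_all_finset S).2 fun i _ => by
        by_cases hi : i = σ
        · simp [hi]
        · exact (node_ne hi).mono fun n h _ => h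
    obtain ⟨n, b1, b2⟩ := (((tendsto_add_atTop_nat 1).eventually e1).and
      (eventually_ge_atTop S.card)).exists
    have e2 := congrFun e (N n (W n), node σ (n + 1))
    simp only [Finset.sum_apply, Pi.smul_apply, smul_eq_mul, Pi.zero_apply] at e2
    have e3 : ∑ i ∈ S, g i * (if node i (n + 1) = node σ (n + 1) then 1 else 0) = g σ := by
      rw [Finset.sum_eq_single_of_mem σ hσ fun i hi h0 => by simp [b1 i hi h0]]
      simp
    have e4 : |g σ| ≤ S.card • (|g σ| * (1 / ((n : ℝ) + 1))) := by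
      have e5 : |g σ| = |∑ i ∈ S, g i * (pr (z i) (N n (W n), node σ (n + 1)) -
          if node i (n + 1) = node σ (n + 1) then 1 else 0)| := by
        simp only [mul_sub, Finset.sum_sub_distrib, e2, e3, zero_sub, abs_neg]
      refine e5.trans_le ((Finset.abs_sum_le_sum_abs _ _).trans
        (Finset.sum_le_card_nsmul _ _ _ fun i hi => ?_))
      rw [abs_mul]
      exact mul_le_mul (hm i hi) ((h' n i).2.2.2 _ (hz i (n + 1)) _ (node_len _ _)) (abs_nonneg _)
        (abs_nonneg _)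
    have b3 : (S.card : ℝ) ≤ n := by exact_mod_cast b2
    rw [nsmul_eq_mul, mul_one_div, ← mul_div_assoc, le_div_iff₀ (by positivity)] at e4
    have := hm τ hτ
    exact abs_nonpos_iff.1 (by nlinarith [abs_nonneg (g σ)])
  · obtain ⟨σ, hσ⟩ := hp 0
    exact a2 hσ
  · obtain ⟨σ, hσ⟩ := hp (n + 1)
    exact ((h' n σ).2.1 hσ).2

end Pool.Agent.H33.Asp
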