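import Pool.Agent.H33.Asp2

set_option autoImplicit false
open Filter Topology Metric Set Cardinal

namespace Pool.Agent.H33.Asp

lemma exists_E : ∃ E : Submodule ℝ P,
    (∀ V : ℕ → Set P, (∀ n, IsOpen (V n)) → (∀ n, Dense (V n)) → ∀ O : Set P, IsOpen O →
      O.Nonempty → ∃ x ∈ E, x ∈ O ∩ ⋂ n, V n) ∧ (∀ x ∈ E, pr x = 0 → x = 0) ∧
    ∀ u : ℕ → P, (∀ n, u n ∈ E) → LinearIndependent ℝ u → ∃ k, ∀ n, (u n).2 k = n := by
  classical
  let A := {α : K0 → D // Good α}
  have hA : #A ≤ 𝔠 := (mk_subtype_le _).trans cardD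
  choose z z1 z2 using fun a : A => a.2
  obtain ⟨σ, hσ⟩ := transv (Z := ℕ → Bool) (by simpa using hA) _ z2
  let S : A → Set K := fun a => ⋃ j : K0, Prod.fst '' ((a.1 j).2.1 : Set (K × ℝ))
  have hS : ∀ a, (S a).Countable := fun a =>
    countable_iUnion fun j => (Finset.countable_toSet _).image _
  have hc : #(ℕ → A →₀ ℝ) ≤ #ℝ := by
    have : #(A →₀ ℝ) ≤ 𝔠 := by
      cases isEmpty_or_nonempty A
      · simpa using one_le_aleph0.trans aleph0_le_continuum
      · rw [mk_finsupp_of_infinite', mk_real]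
        exact max_le hA le_rfl
    rw [← power_def, mk_real]
    simpa using power_le_power_right (c := ℵ₀) this
  obtain ⟨enc⟩ := (le_def _ _).1 hc
  let dec := Function.invFun enc
  have hdec : ∀ v, dec (enc v) = v := Function.leftInverse_invFun enc.injective
  have hψ : ∀ v : ℕ → A →₀ ℝ, ∃ ψ : (A →₀ ℝ) →ₗ[ℝ] ℝ, LinearIndependent ℝ v → ∀ n, ψ (v n) = n := by
    intro v
    by_cases hv : LinearIndependent ℝ v
    · obtain ⟨ψ, h⟩ := ((Finsupp.linearCombination ℝ fun n : ℕ => (n : ℝ)).comp hv.repr).exists_extend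
      refine ⟨ψ, fun _ n => ?_⟩
      have := LinearMap.congr_fun h ⟨v n, Submodule.subset_span ⟨n, rfl⟩⟩
      simpa [hv.repr_eq_single n ⟨v n, Submodule.subset_span ⟨n, rfl⟩⟩ rfl] using this
    · exact ⟨0, fun h => absurd h hv⟩
  choose ψ hψ using hψ
  let p : A → P := fun a => ((z a (σ a)).1, fun k => if k ∈ S a then (z a (σ a)).2 k else
    Sum.elim (pr (z a (σ a))) (fun rs => ψ (dec rs.1) (Finsupp.single a 1)) k)
  have p1 : ∀ a, p a ∈ Cs a.1 := fun a n => by
    obtain ⟨τ, h1, h2⟩ := z1 a (σ a) n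
    refine ⟨τ, h1, fun c hc => ?_⟩
    have : c.1 ∈ S a := mem_iUnion.2 ⟨_, c, hc, rfl⟩
    simpa only [p, if_pos this] using h2 c hc
  have p2 : ∀ a, pr (p a) = pr (z a (σ a)) := fun a => by
    ext k
    simp [p, pr]
  let T := Finsupp.linearCombination ℝ p
  have hT : ∀ (v : A →₀ ℝ) (k : K), (T v).2 k = v.sum fun a c => c * (p a).2 k := fun v k => by
    simp [T, Finsupp.linearCombination_apply, Finsupp.sum, Prod.snd_sum]
  refine ⟨LinearMap.range T, fun V h1 h2 O h3 h4 => ?_, ?_, fun u h1 h2 => ?_⟩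
  · obtain ⟨α, a1, a2⟩ := scheme V h1 h2 h3 h4
    exact ⟨p ⟨α, a1⟩, ⟨Finsupp.single ⟨α, a1⟩ 1, by simp [T]⟩, a2 (p1 ⟨α, a1⟩)⟩
  · rintro _ ⟨v, rfl⟩ h
    rw [linearIndependent_iff.1 hσ v, map_zero]
    funext k
    have := congrFun h k
    simp only [pr, hT] at this
    simpa [Finsupp.linearCombination_apply, Finsupp.sum, ← p2, pr] using this
  · choose v hv using h1
    have h3 : LinearIndependent ℝ v := LinearIndependent.of_comp T (by rwa [show T ∘ v = u from funext hv])
    have h4 : (⋃ n, ⋃ a ∈ (v n).support, (fun s : ℝ => (Sum.inr (enc v, s) : K)) ⁻¹' S a).Countable :=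
      countable_iUnion fun n => (Finset.countable_toSet _).biUnion fun a _ =>
        (hS a).preimage fun _ _ h => by simpa using h
    obtain ⟨s, hs⟩ : ∃ s, s ∉ ⋃ n, ⋃ a ∈ (v n).support,
        (fun s : ℝ => (Sum.inr (enc v, s) : K)) ⁻¹' S a := by
      by_contra h
      push Not at h
      exact not_countable_univ ((eq_univ_of_forall h) ▸ h4)
    simp only [mem_iUnion, not_exists, mem_preimage] at hs
    refine ⟨Sum.inr (enc v, s), fun n => ?_⟩
    rw [← hv, hT, ← hψ v h3 n]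
    conv_rhs => rw [← (v n).sum_single, Finsupp.sum, map_sum]
    refine Finset.sum_congr rfl fun a ha => ?_
    simp only [p, if_neg (hs n a ha), Sum.elim_inr, hdec]
    rw [← smul_eq_mul, ← map_smul]
    simp

lemma sep {E J : Type} [AddCommGroup E] [Module ℝ E] [TopologicalSpace E] [IsTopologicalAddGroup E]
    [ContinuousSMul ℝ E] [Countable J]
    (fin : ∀ B : Set E, Bornology.IsVonNBounded ℝ B → FiniteDimensional ℝ (Submodule.span ℝ B))
    (c : J → StrongDual ℝ E) (hc : ∀ y, (∀ j, c j y = 0) → y = 0) :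
    TopologicalSpace.SeparableSpace (StrongDual ℝ E) := by
  classical
  let G := Submodule.span ℝ (range c)
  have hG : TopologicalSpace.IsSeparable (G : Set (StrongDual ℝ E)) :=
    (countable_range _).isSeparable.span
  refine TopologicalSpace.isSeparable_univ_iff.1 (hG.closure.mono fun f _ => ?_)
  rw [mem_closure_iff_nhds]
  intro t ht
  have ht2 : (fun g => g + f) ⁻¹' t ∈ 𝓝 (0 : StrongDual ℝ E) :=
    (continuous_add_const f).continuousAt.preimage_mem_nhds (by simpa using ht)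
  obtain ⟨⟨B, W⟩, ⟨hB, hW⟩, h⟩ := ContinuousLinearMap.hasBasis_nhds_zero.mem_iff.1 ht2
  have := fin B hB
  let R : StrongDual ℝ E →ₗ[ℝ] (Submodule.span ℝ B →ₗ[ℝ] ℝ) :=
    (LinearMap.lcomp ℝ ℝ (Submodule.span ℝ B).subtype).comp (ContinuousLinearMap.coeLM ℝ)
  have hR : ∀ g y, R g y = g y := fun _ _ => rfl
  have top : Submodule.span ℝ (R '' range c) = ⊤ := by
    refine Submodule.span_eq_top_of_ne_zero fun y hy => ?_
    by_contra hh
    push Not at hh
    exact hy (Subtype.ext (hc _ fun j => hh _ ⟨_, ⟨j, rfl⟩, rfl⟩))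
  rw [Submodule.span_image] at top
  obtain ⟨g, g1, g2⟩ : R f ∈ G.map R := top ▸ trivial
  suffices e : g - f + f ∈ t from ⟨g, by simpa using e, g1⟩
  refine h (a := g - f) fun x hx => ?_
  have := LinearMap.congr_fun g2 ⟨x, Submodule.subset_span hx⟩
  simp only [hR] at this
  simpa [this] using mem_of_mem_nhds hW

end Pool.Agent.H33.Asp
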