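import Mathlib

set_option autoImplicit false

namespace Pool.Agent.H33.Bar

variable {G W : Type} [Group G] [Lattice G] [MulLeftMono G] [MulRightMono G] [LinearOrder W]

@[ext] structure Om (l : W → W → G) : Type where
  x : G
  w : W
  s : Bool

variable {l : W → W → G}

instance : PartialOrder (Om l) where
  le p q := (p.s = q.s ∧ p.w = q.w ∧ p.x ≤ q.x) ∨
    (p.s = false ∧ q.s = true ∧ q.w ≤ p.w ∧ p.x * l p.w q.w ≤ q.x)
  le_refl p := Or.inl ⟨rfl, rfl, le_rfl⟩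
  le_trans p q r := by
    rintro (⟨h1, h2, h3⟩ | ⟨h1, h2, h3, h4⟩) (⟨k1, k2, k3⟩ | ⟨k1, k2, k3, k4⟩)
    · exact Or.inl ⟨h1.trans k1, h2.trans k2, h3.trans k3⟩
    · refine Or.inr ⟨h1.trans k1, k2, h2 ▸ k3, le_trans ?_ k4⟩
      rw [h2]; gcongr
    · exact Or.inr ⟨h1, k1 ▸ h2, k2 ▸ h3, k2 ▸ h4.trans k3⟩
    · rw [h2] at k1; cases k1
  le_antisymm p q := by
    rintro (⟨h1, h2, h3⟩ | ⟨h1, h2, h3, h4⟩) (⟨k1, k2, k3⟩ | ⟨k1, k2, k3, k4⟩)
    · exact Om.ext (le_antisymm h3 k3) h2 h1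
    · rw [h1, k1] at k2; cases k2
    · rw [h1, h2] at k1; cases k1
    · rw [h2] at k1; cases k1

lemma le_def (p q : Om l) : p ≤ q ↔ (p.s = q.s ∧ p.w = q.w ∧ p.x ≤ q.x) ∨
    (p.s = false ∧ q.s = true ∧ q.w ≤ p.w ∧ p.x * l p.w q.w ≤ q.x) := Iff.rfl

lemma le_same (x y : G) (w : W) (s : Bool) : (⟨x, w, s⟩ : Om l) ≤ ⟨y, w, s⟩ ↔ x ≤ y := by
  rw [le_def]; cases s <;> simp

lemma le_ab (x y : G) (w v : W) :
    (⟨x, w, false⟩ : Om l) ≤ ⟨y, v, true⟩ ↔ v ≤ w ∧ x * l w v ≤ y := by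
  rw [le_def]; simp

def act (g : G) : Om l ≃o Om l where
  toFun p := ⟨g * p.x, p.w, p.s⟩
  invFun p := ⟨g⁻¹ * p.x, p.w, p.s⟩
  left_inv p := by ext <;> simp
  right_inv p := by ext <;> simp
  map_rel_iff' := by
    intro p q
    simp only [Equiv.coe_fn_mk, le_def, mul_assoc, mul_le_mul_iff_left]

def IsA (p : Om l) : Prop := ∀ q r, q ≤ p → r ≤ p → ∃ t, t ≤ q ∧ t ≤ r

lemma below_A {p q : Om l} (hp : p.s = false) (h : q ≤ p) : q.s = false ∧ q.w = p.w := by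
  rcases h with ⟨h1, h2, -⟩ | ⟨-, h2, -⟩
  · exact ⟨h1.trans hp, h2⟩
  · rw [hp] at h2; cases h2

lemma above_B {p q : Om l} (hp : p.s = true) (h : p ≤ q) : q.s = true ∧ q.w = p.w := by
  rcases h with ⟨h1, h2, -⟩ | ⟨h1, -⟩
  · exact ⟨h1 ▸ hp, h2.symm⟩
  · rw [hp] at h1; cases h1

lemma layA {p q : Om l} (hp : p.s = false) (hq : q.s = false) :
    p.w = q.w ↔ ∃ t, t ≤ p ∧ t ≤ q := by
  constructor
  · intro h
    exact ⟨⟨p.x ⊓ q.x, p.w, false⟩, Or.inl ⟨hp.symm, rfl, inf_le_left⟩,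
      Or.inl ⟨hq.symm, h, inf_le_right⟩⟩
  · rintro ⟨t, h1, h2⟩
    rw [← (below_A hp h1).2, (below_A hq h2).2]

lemma layB {p q : Om l} (hp : p.s = true) (hq : q.s = true) :
    p.w = q.w ↔ ∃ t, p ≤ t ∧ q ≤ t := by
  constructor
  · intro h
    exact ⟨⟨p.x ⊔ q.x, p.w, true⟩, Or.inl ⟨hp, rfl, le_sup_left⟩,
      Or.inl ⟨hq, h.symm, le_sup_right⟩⟩
  · rintro ⟨t, h1, h2⟩
    rw [← (above_B hp h1).2, (above_B hq h2).2]

variable [NoMaxOrder W]

lemma isA_iff (p : Om l) : IsA p ↔ p.s = false := by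
  constructor
  · intro h
    by_contra hp
    have hp' : p.s = true := by simpa using hp
    obtain ⟨w', hw'⟩ := exists_gt p.w
    obtain ⟨t, h1, h2⟩ := h ⟨p.x * (l p.w p.w)⁻¹, p.w, false⟩ ⟨p.x * (l w' p.w)⁻¹, w', false⟩
      (Or.inr ⟨rfl, hp', le_rfl, by simp⟩) (Or.inr ⟨rfl, hp', hw'.le, by simp⟩)
    have := (layA (l := l) rfl rfl).2 ⟨t, h1, h2⟩
    exact hw'.ne this
  · intro hp q r hq hr
    exact (layA (below_A hp hq).1 (below_A hp hr).1).1 ((below_A hp hq).2.trans (below_A hp hr).2.symm)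

lemma side (f : Om l ≃o Om l) (p : Om l) : (f p).s = p.s := by
  have key : ∀ (f : Om l ≃o Om l) (p : Om l), IsA p → IsA (f p) := by
    intro f p h q r hq hr
    obtain ⟨t, h1, h2⟩ := h (f.symm q) (f.symm r) (f.symm_apply_le.2 hq) (f.symm_apply_le.2 hr)
    exact ⟨f t, f.le_symm_apply.1 h1, f.le_symm_apply.1 h2⟩
  have h : (f p).s = false ↔ p.s = false := by
    rw [← isA_iff, ← isA_iff]
    exact ⟨fun h => by simpa using key f.symm _ h, key f p⟩
  cases h1 : p.s <;> cases h2 : (f p).s <;> simp_all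

def sg (f : Om l ≃o Om l) (s : Bool) (w : W) : W := (f ⟨1, w, s⟩).w

lemma lay (f : Om l ≃o Om l) (p : Om l) : (f p).w = sg f p.s p.w := by
  obtain ⟨x, w, s⟩ := p
  cases s
  · obtain ⟨t, h1, h2⟩ := (layA (l := l) (p := ⟨x, w, false⟩) (q := ⟨1, w, false⟩) rfl rfl).1 rfl
    exact (layA (side f _) (side f _)).2 ⟨f t, f.monotone h1, f.monotone h2⟩
  · obtain ⟨t, h1, h2⟩ := (layB (l := l) (p := ⟨x, w, true⟩) (q := ⟨1, w, true⟩) rfl rfl).1 rfl
    exact (layB (side f _) (side f _)).2 ⟨f t, f.monotone h1, f.monotone h2⟩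

lemma sg_symm (f : Om l ≃o Om l) (s : Bool) (w : W) : sg f.symm s (sg f s w) = w := by
  have := lay f.symm (f ⟨1, w, s⟩)
  rw [side, f.symm_apply_apply] at this
  exact this.symm

lemma adj (f : Om l ≃o Om l) {v w : W} (h : v ≤ w) : sg f true v ≤ sg f false w := by
  have h1 : (⟨1, w, false⟩ : Om l) ≤ ⟨1 * l w v, v, true⟩ := (le_ab _ _ _ _).2 ⟨h, le_rfl⟩
  rcases f.monotone h1 with ⟨k1, -⟩ | ⟨-, -, k, -⟩
  · rw [side, side] at k1; cases k1
  · rwa [lay, lay] at k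

lemma adj_iff (f : Om l ≃o Om l) (v w : W) : sg f true v ≤ sg f false w ↔ v ≤ w :=
  ⟨fun h => by simpa [sg_symm] using adj f.symm h, adj f⟩

lemma sg_mono (f : Om l ≃o Om l) : StrictMono (sg f false) := by
  refine Monotone.strictMono_of_injective (fun w w' h => ?_)
    (Function.LeftInverse.injective (sg_symm f false))
  have e : sg f true (sg f.symm true (sg f false w)) = sg f false w := sg_symm f.symm true _
  rw [← e, adj_iff]
  exact ((adj_iff f _ _).1 e.le).trans h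

variable [WellFoundedLT W]

lemma sg_id (f : Om l ≃o Om l) (s : Bool) (w : W) : sg f s w = w := by
  have hA : ∀ w, sg f false w = w := by
    intro w
    refine le_antisymm ?_ ((sg_mono f).id_le w)
    have := (sg_mono f.symm).id_le (sg f false w)
    rwa [sg_symm] at this
  cases s
  · exact hA w
  · refine eq_of_forall_ge_iff fun c => ?_
    rw [← adj_iff f w c, hA]

lemma form (f : Om l ≃o Om l) (x : G) (w : W) (s : Bool) :
    f ⟨x, w, s⟩ = ⟨(f ⟨x, w, s⟩).x, w, s⟩ :=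
  Om.ext rfl (by rw [lay, sg_id]) (side f _)

lemma edge (f : Om l ≃o Om l) (x : G) {v w : W} (h : v ≤ w) :
    (f ⟨x * l w v, v, true⟩).x = (f ⟨x, w, false⟩).x * l w v := by
  apply le_antisymm
  · set z := (f ⟨x, w, false⟩).x * l w v with hz
    have h1 : f ⟨x, w, false⟩ ≤ ⟨z, v, true⟩ := by
      rw [form]; exact (le_ab _ _ _ _).2 ⟨h, le_rfl⟩
    have h2 := f.le_symm_apply.2 h1
    rw [form f.symm] at h2
    have h3 := ((le_ab _ _ _ _).1 h2).2
    have h4 := f.monotone ((le_same (l := l) _ _ v true).2 h3)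
    rw [← form f.symm, f.apply_symm_apply, form] at h4
    exact (le_same _ _ _ _).1 h4
  · have h1 : (⟨x, w, false⟩ : Om l) ≤ ⟨x * l w v, v, true⟩ := (le_ab _ _ _ _).2 ⟨h, le_rfl⟩
    have h2 := f.monotone h1
    rw [form f x, form f (x * l w v)] at h2
    exact ((le_ab _ _ _ _).1 h2).2

lemma surj (w0 : W) (h0 : ∀ w, w0 ≤ w) (l0 : ∀ w, l w w0 = 1) (l1 : ∀ w, l w w = 1)
    (hl : ∀ g, ∃ w v, v ≤ w ∧ l w v = g) (f : Om l ≃o Om l) : ∃ g, act g = f := by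
  have hA : ∀ x w, (f ⟨x, w, false⟩).x = (f ⟨x, w0, true⟩).x := by
    intro x w
    have := edge f x (h0 w)
    simpa [l0] using this.symm
  have hB : ∀ x v, (f ⟨x, v, true⟩).x = (f ⟨x, w0, true⟩).x := by
    intro x v
    have := edge f x (le_refl v)
    simpa [l1, hA] using this
  have hg : ∀ x, (f ⟨x, w0, true⟩).x = (f ⟨1, w0, true⟩).x * x := by
    intro x
    obtain ⟨w, v, h, rfl⟩ := hl x
    have := edge f 1 h
    rwa [hA, hB, one_mul] at this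
  refine ⟨(f ⟨1, w0, true⟩).x, ?_⟩
  ext1
  funext ⟨x, w, s⟩
  rw [form f x]
  cases s
  · rw [hA x, hg x]; rfl
  · rw [hB x, hg x]; rfl

theorem main (w0 : W) (h0 : ∀ w, w0 ≤ w) (l0 : ∀ w, l w w0 = 1) (l1 : ∀ w, l w w = 1)
    (hl : ∀ g, ∃ w v, v ≤ w ∧ l w v = g) :
    ∃ (Ω : Type) (_ : PartialOrder Ω) (φ : G → (Ω ≃o Ω)),
        Function.Bijective φ ∧
        (∀ a b : G, φ (a * b) = (φ b).trans (φ a)) ∧
        (∀ a b : G, a ≤ b ↔ ∀ x : Ω, φ a x ≤ φ b x) := by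
  refine ⟨Om l, inferInstance, act, ⟨fun a b h => ?_, surj w0 h0 l0 l1 hl⟩, fun a b => ?_,
    fun a b => ⟨fun h p => ?_, fun h => ?_⟩⟩
  · have := congrArg (fun f : Om l ≃o Om l => (f ⟨1, w0, true⟩).x) h
    simpa [act] using this
  · ext1; funext p; exact Om.ext (mul_assoc _ _ _) rfl rfl
  · exact (le_same _ _ _ _).2 (by gcongr)
  · have := (le_same _ _ _ _).1 (h ⟨1, w0, true⟩)
    simpa using this

def WO (G : Type) : Type := G

noncomputable instance (G : Type) : LinearOrder (WO G) := (exists_wellOrder (WO G)).choose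

instance (G : Type) : WellFoundedLT (WO G) := (exists_wellOrder (WO G)).choose_spec

end Pool.Agent.H33.Bar
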