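import Mathlib

set_option autoImplicit false

namespace Pool.Agent.H33.Borg

abbrev D := Bool × Fin 3

def r : Fin 3 → Fin 3 := ![1, 0, 2]
def tgt (d : D) : Bool := if d.2 = 2 then !d.1 else d.1
def rev (d : D) : D := (tgt d, r d.2)
def R (d e : D) : Prop := e.1 = tgt d ∧ e ≠ rev d
instance : DecidableRel R := fun d e => by unfold R; infer_instance

lemma rev_rev : ∀ d, rev (rev d) = d := by decide
lemma rev_ne : ∀ d, rev d ≠ d := by decide
lemma r_r : ∀ i, r (r i) = i := by decide
lemma tgt_rev : ∀ d, tgt (rev d) = d.1 := by decide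

lemma R_iff : ∀ e d : D, R e d ↔ d.1 = tgt e ∧ e ≠ rev d := by decide
lemma eq_rev : ∀ (d : D) (i : Fin 3), d = rev (tgt d, i) ↔ i = r d.2 := by decide

def ok (l : List D) : Prop := (∀ d ∈ l.head?, d.1 = false) ∧ l.IsChain R
def ty (l : List D) : Bool := (l.getLast?.map tgt).getD false

lemma ok_nil : ok [] := ⟨by simp, by simp⟩

@[simp] lemma ty_nil : ty [] = false := rfl
@[simp] lemma ty_concat (l : List D) (d : D) : ty (l ++ [d]) = tgt d := by simp [ty]

lemma ok_concat (l : List D) (d : D) :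
    ok (l ++ [d]) ↔ ok l ∧ d.1 = ty l ∧ l.getLast? ≠ some (rev d) := by
  rcases List.eq_nil_or_concat' l with rfl | ⟨m, e, rfl⟩
  · simp [ok]
  · have h1 : (m ++ [e] ++ [d]).head? = (m ++ [e]).head? := by cases m <;> simp
    have h2 : (m ++ [e] ++ [d]).IsChain R ↔ (m ++ [e]).IsChain R ∧ R e d := by
      rw [List.append_assoc, List.singleton_append, List.isChain_append_cons_cons]; simp
    have h3 : R e d ↔ d.1 = tgt e ∧ e ≠ rev d := R_iff e d
    rw [ok, ok, h1, h2, h3]
    simp [and_assoc]

lemma ok_append (p : List D) (d : D) (hp : ok (p ++ [d])) (k : List D) :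
    ok (p ++ d :: k) ↔ (d :: k).IsChain R := by
  have h1 : (p ++ d :: k).head? = (p ++ [d]).head? := by cases p <;> simp
  rw [ok, h1, List.isChain_split]
  exact ⟨fun h => h.2.2, fun h => ⟨hp.1, hp.2, h⟩⟩

abbrev S : Set (List D) := {l | ok l}

def mvl (i : Fin 3) (l : List D) : List D :=
  if l.getLast? = some (rev (ty l, i)) then l.dropLast else l ++ [(ty l, i)]

lemma mvl_nil (i : Fin 3) : mvl i [] = [(false, i)] := by simp [mvl]

lemma mvl_concat (i : Fin 3) (l : List D) (d : D) :
    mvl i (l ++ [d]) = if i = r d.2 then l else l ++ [d] ++ [(tgt d, i)] := by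
  simp [mvl, eq_rev]

lemma ok_mvl (i : Fin 3) {l : List D} (h : ok l) : ok (mvl i l) := by
  rcases List.eq_nil_or_concat' l with rfl | ⟨m, e, rfl⟩
  · rw [mvl_nil]; simp [ok]
  · rw [mvl_concat]
    split_ifs with h1
    · exact ((ok_concat m e).1 h).1
    · rw [ok_concat]
      refine ⟨h, by simp, ?_⟩
      simpa using fun h2 => h1 ((eq_rev e i).1 h2)

lemma ty_mvl (i : Fin 3) {l : List D} (h : ok l) : ty (mvl i l) = tgt (ty l, i) := by
  rcases List.eq_nil_or_concat' l with rfl | ⟨m, e, rfl⟩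
  · rw [mvl_nil]; rfl
  · rw [mvl_concat]
    split_ifs with h1
    · rw [← ((ok_concat m e).1 h).2.1, ty_concat, h1]
      exact (tgt_rev e).symm
    · rw [ty_concat, ty_concat]

lemma mvl_mvl (i : Fin 3) {l : List D} (h : ok l) : mvl (r i) (mvl i l) = l := by
  rcases List.eq_nil_or_concat' l with rfl | ⟨m, e, rfl⟩
  · rw [mvl_nil]
    have := mvl_concat (r i) [] (false, i)
    simpa using this
  · rw [mvl_concat]
    split_ifs with h1
    · obtain ⟨_, h3, h4⟩ := (ok_concat m e).1 h
      rw [h1, r_r, mvl, ← h3, if_neg h4]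
    · rw [mvl_concat]; simp

def mv (i : Fin 3) (x : S) : S := ⟨mvl i x.1, ok_mvl i x.2⟩

lemma mv_mv (i : Fin 3) (x : S) : mv (r i) (mv i x) = x := Subtype.ext (mvl_mvl i x.2)
lemma mv_mv' (i : Fin 3) (x : S) : mv i (mv (r i) x) = x := by
  have := mv_mv (r i) x
  rwa [r_r] at this

def mvE (i : Fin 3) : S ≃ S := ⟨mv i, mv (r i), mv_mv i, mv_mv' i⟩

def root : S := ⟨[], ok_nil⟩

lemma mvl_parent {l : List D} {d : D} (h : ok (l ++ [d])) : mvl d.2 l = l ++ [d] := by
  have := mvl_mvl (r d.2) h
  rwa [r_r, mvl_concat, if_pos rfl] at this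

lemma S_ind {P : S → Prop} (h0 : P root) (h1 : ∀ x i, P x → P (mv i x)) (x : S) : P x := by
  obtain ⟨l, hl⟩ := x
  induction l using List.reverseRecOn with
  | nil => exact h0
  | append_singleton l d ih =>
    have h2 := ((ok_concat l d).1 hl).1
    have := h1 ⟨l, h2⟩ d.2 (ih h2)
    convert this using 1
    exact Subtype.ext (mvl_parent hl).symm

lemma mvl_inj (l : List D) {i j : Fin 3} (h : mvl i l = mvl j l) : i = j := by
  rcases List.eq_nil_or_concat' l with rfl | ⟨m, e, rfl⟩
  · simpa [mvl_nil] using h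
  · rw [mvl_concat, mvl_concat] at h
    split_ifs at h with h1 h2 h2
    · rw [h1, h2]
    · have := congrArg List.length h
      simp at this
    · have := congrArg List.length h
      simp at this
    · simpa using h

lemma mvl_cases (i : Fin 3) (l : List D) :
    (∃ d, mvl i l = l ++ [d]) ∨ ∃ d, l = mvl i l ++ [d] := by
  rcases List.eq_nil_or_concat' l with rfl | ⟨m, e, rfl⟩
  · exact Or.inl ⟨_, mvl_nil i⟩
  · rw [mvl_concat]
    split_ifs
    · exact Or.inr ⟨e, rfl⟩
    · exact Or.inl ⟨_, rfl⟩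

lemma nbr (F : List D → ℂ) (hF : ∀ l, ¬ ok l → F l = 0) {l : List D} (h : ok l) :
    ∑ i, F (mvl i l) = (if l = [] then 0 else F l.dropLast) + ∑ e : D, F (l ++ [e]) := by
  have h0 : ∀ e : D, e.1 ≠ ty l → F (l ++ [e]) = 0 := fun e he =>
    hF _ fun h1 => he ((ok_concat l e).1 h1).2.1
  have h1 : ∑ e : D, F (l ++ [e]) = ∑ i, F (l ++ [(ty l, i)]) := by
    rw [Fintype.sum_prod_type, Finset.sum_eq_single (ty l)]
    · intro b _ hb
      exact Finset.sum_eq_zero fun i _ => h0 _ hb
    · simp
  rw [h1]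
  rcases List.eq_nil_or_concat' l with rfl | ⟨m, e, rfl⟩
  · simp [mvl_nil]
  · have h2 : F (m ++ [e] ++ [(tgt e, r e.2)]) = 0 := hF _ fun h1 => by
      have := ((ok_concat _ _).1 h1).2.2
      apply this
      have h3 : rev (tgt e, r e.2) = e := rev_rev e
      simp [h3]
    rw [← Finset.add_sum_erase _ _ (Finset.mem_univ (r e.2)),
      ← Finset.add_sum_erase _ (fun i => F (m ++ [e] ++ [(ty (m ++ [e]), i)]))
        (Finset.mem_univ (r e.2))]
    rw [mvl_concat, if_pos rfl, if_neg (by simp), List.dropLast_concat, ty_concat, h2, zero_add]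
    congr 1
    refine Finset.sum_congr rfl fun i hi => ?_
    rw [mvl_concat, if_neg (Finset.mem_erase.1 hi).1]

def T : SimpleGraph S where
  Adj x y := ∃ i, y = mv i x
  symm := ⟨by
    rintro x y ⟨i, rfl⟩
    exact ⟨r i, (mv_mv i x).symm⟩⟩
  loopless := ⟨by
    rintro x ⟨i, h⟩
    have h1 : x.1 = mvl i x.1 := congrArg Subtype.val h
    rcases mvl_cases i x.1 with ⟨d, h2⟩ | ⟨d, h2⟩
    · rw [← h1] at h2
      simpa using congrArg List.length h2
    · rw [← h1] at h2
      simpa using congrArg List.length h2⟩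

lemma bridge (x y : S) (d : D) (h : y.1 = x.1 ++ [d]) :
    ¬ (T \ SimpleGraph.fromEdgeSet {s(x, y)}).Reachable y x := by
  intro hr
  rw [SimpleGraph.reachable_iff_reflTransGen] at hr
  have key : ∀ z, Relation.ReflTransGen (T \ SimpleGraph.fromEdgeSet {s(x, y)}).Adj y z →
      y.1 <+: z.1 := by
    intro z hz
    induction hz with
    | refl => exact List.prefix_rfl
    | @tail a b _ hab ih =>
      obtain ⟨⟨i, rfl⟩, h2⟩ := hab
      rcases mvl_cases i a.1 with ⟨e, h3⟩ | ⟨e, h3⟩
      · show y.1 <+: mvl i a.1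
        rw [h3]; exact ih.trans (List.prefix_append _ _)
      · show y.1 <+: mvl i a.1
        rw [h3] at ih
        rcases List.prefix_concat_iff.1 ih with h4 | h4
        · exfalso
          apply h2
          have h5 : a = y := Subtype.ext (h3.trans h4.symm)
          have h6 : mv i a = x := by
            apply Subtype.ext
            rw [h] at h4
            exact (List.append_inj_left' h4 rfl).symm
          rw [h6, h5]
          simp only [SimpleGraph.fromEdgeSet_adj, Set.mem_singleton_iff, Sym2.eq_swap, true_and]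
          rintro rfl
          simpa using congrArg List.length h
        · exact h4
  have := (key x hr).length_le
  rw [h] at this
  simp at this

lemma T_tree : T.IsTree := by
  constructor
  · have h : ∀ x, T.Reachable root x := fun x => by
      induction x using S_ind with
      | h0 => exact SimpleGraph.Reachable.refl _
      | h1 x i ih => exact ih.trans (SimpleGraph.Adj.reachable ⟨i, rfl⟩)
    have : Nonempty S := ⟨root⟩
    exact ⟨fun a b => (h a).symm.trans (h b)⟩
  · rw [SimpleGraph.isAcyclic_iff_forall_adj_isBridge]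
    rintro x y ⟨i, rfl⟩
    rw [SimpleGraph.isBridge_iff]
    rcases mvl_cases i x.1 with ⟨d, h2⟩ | ⟨d, h2⟩
    · exact fun h => bridge x (mv i x) d h2 h.symm
    · have := bridge (mv i x) x d h2
      rwa [Sym2.eq_swap] at this

lemma nbr_range (x : S) : T.neighborSet x = Set.range fun i => mv i x := by
  ext y
  exact ⟨fun ⟨i, h⟩ => ⟨i, h.symm⟩, fun ⟨i, h⟩ => ⟨i, h.symm⟩⟩

lemma mv_inj (x : S) : Function.Injective fun i => mv i x := fun _ _ h =>
  mvl_inj x.1 (congrArg Subtype.val h)

def deck (w x : S) : S := x.1.foldl (fun z d => mv d.2 z) w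

lemma deck_mv (w x : S) (i : Fin 3) : deck w (mv i x) = mv i (deck w x) := by
  obtain ⟨l, hl⟩ := x
  show (mvl i l).foldl _ w = mv i (l.foldl _ w)
  rcases List.eq_nil_or_concat' l with rfl | ⟨m, e, rfl⟩
  · rw [mvl_nil]; rfl
  · rw [mvl_concat]
    split_ifs with h1
    · rw [List.foldl_append, h1]
      exact (mv_mv _ _).symm
    · rw [List.foldl_append]; rfl

lemma deck_surj (w : S) : Function.Surjective (deck w) := by
  have h1 : ∀ x i, x ∈ Set.range (deck w) → mv i x ∈ Set.range (deck w) := by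
    rintro _ i ⟨y, rfl⟩
    exact ⟨mv i y, deck_mv w y i⟩
  have h2 : ∀ x, x ∈ Set.range (deck w) → root ∈ Set.range (deck w) := by
    intro x
    induction x using S_ind with
    | h0 => exact id
    | h1 x i ih => exact fun h => ih (by simpa [mv_mv] using h1 _ (r i) h)
  intro x
  induction x using S_ind with
  | h0 => exact h2 w ⟨root, rfl⟩
  | h1 x i ih => exact h1 x i ih

lemma deck_inj (w : S) : Function.Injective (deck w) := by
  obtain ⟨w', hw'⟩ := deck_surj w root
  have h1 : ∀ x, deck w (deck w' x) = x := by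
    intro x
    induction x using S_ind with
    | h0 => exact hw'
    | h1 x i ih => rw [deck_mv, deck_mv, ih]
  intro a b hab
  obtain ⟨a, rfl⟩ := deck_surj w' a
  obtain ⟨b, rfl⟩ := deck_surj w' b
  rw [h1, h1] at hab
  rw [hab]

lemma ty_deck (w : S) (hw : ty w.1 = false) (x : S) : ty (deck w x).1 = ty x.1 := by
  induction x using S_ind with
  | h0 => exact hw
  | h1 x i ih =>
    rw [deck_mv]
    show ty (mvl i _) = ty (mvl i _)
    rw [ty_mvl i (deck w x).2, ty_mvl i x.2, ih]

noncomputable def deckIso (w : S) : T ≃g T where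
  toEquiv := Equiv.ofBijective (deck w) ⟨deck_inj w, deck_surj w⟩
  map_rel_iff' := by
    intro a b
    constructor
    · rintro ⟨i, h⟩
      exact ⟨i, deck_inj w (by rw [deck_mv]; exact h)⟩
    · rintro ⟨i, rfl⟩
      exact ⟨i, deck_mv w a i⟩

def Γ : Subgroup (T ≃g T) where
  carrier := {g | (∀ i x, g (mv i x) = mv i (g x)) ∧ ∀ x, ty (g x).1 = ty x.1}
  one_mem' := ⟨fun _ _ => rfl, fun _ => rfl⟩
  mul_mem' := by
    rintro g h ⟨g1, g2⟩ ⟨h1, h2⟩
    refine ⟨fun i x => ?_, fun x => ?_⟩
    · show g (h (mv i x)) = mv i (g (h x))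
      rw [h1, g1]
    · show ty (g (h x)).1 = _
      rw [g2, h2]
  inv_mem' := by
    rintro g ⟨g1, g2⟩
    refine ⟨fun i x => ?_, fun x => ?_⟩
    · apply g.injective
      show g (g.symm _) = g (mv i (g.symm x))
      rw [g1, RelIso.apply_symm_apply, RelIso.apply_symm_apply]
    · have := g2 (g.symm x)
      rw [RelIso.apply_symm_apply] at this
      exact this.symm

lemma Γ_free (g : T ≃g T) (hg : g ∈ Γ) (v : S) (hv : g v = v) : g = 1 := by
  have h1 : ∀ x i, g x = x → g (mv i x) = mv i x := fun x i h => by rw [hg.1, h]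
  have h2 : ∀ x, g x = x → g root = root := by
    intro x
    induction x using S_ind with
    | h0 => exact id
    | h1 x i ih => exact fun h => ih (by simpa [mv_mv] using h1 _ (r i) h)
  ext x : 1
  induction x using S_ind with
  | h0 => exact h2 v hv
  | h1 x i ih => exact h1 x i ih

lemma Γ_orb (v : S) : ∃ g ∈ Γ, g root = v ∨ g (mv 2 root) = v := by
  by_cases h : ty v.1 = false
  · exact ⟨deckIso v, ⟨fun i x => deck_mv v x i, ty_deck v h⟩, Or.inl rfl⟩
  · have h1 : ty (mv 2 v).1 = false := by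
      show ty (mvl 2 v.1) = false
      rw [ty_mvl 2 v.2]
      simpa [tgt] using h
    refine ⟨deckIso (mv 2 v), ⟨fun i x => deck_mv _ x i, ty_deck _ h1⟩, Or.inr ?_⟩
    show deck _ (mv 2 root) = v
    rw [deck_mv]
    exact mv_mv 2 v

end Pool.Agent.H33.Borg
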