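import Mathlib
import Pool.Agent.H33.Borg1

set_option autoImplicit false

namespace Pool.Agent.H33.Borg

open scoped ENNReal InnerProductSpace ComplexConjugate

abbrev L2 : Type := lp (fun _ : S => ℂ) 2

lemma mem_iff (f : S → ℂ) : Memℓp f (2 : ℝ≥0∞) ↔ Summable (fun n => ‖f n‖ ^ 2) := by
  rw [memℓp_gen_iff (by norm_num)]
  simp

lemma summ (x : L2) : Summable (fun n => ‖x n‖ ^ 2) := (mem_iff _).1 x.2

lemma normsq (x : L2) : ‖x‖ ^ 2 = ∑' n, ‖x n‖ ^ 2 := by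
  have := lp.norm_rpow_eq_tsum (p := 2) (by norm_num) x
  simpa using this

noncomputable def Ul (e : S ≃ S) : L2 →ₗ[ℂ] L2 where
  toFun f := ⟨fun x => f (e x), (mem_iff _).2 (e.summable_iff.2 (summ f))⟩
  map_add' _ _ := rfl
  map_smul' _ _ := rfl

noncomputable def U (e : S ≃ S) : L2 →L[ℂ] L2 :=
  (Ul e).mkContinuous 1 (fun f => by
    have h : ‖Ul e f‖ ^ 2 = ‖f‖ ^ 2 := by
      rw [normsq, normsq]
      exact e.tsum_eq (fun n => ‖f n‖ ^ 2)
    rw [one_mul]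
    exact ((sq_eq_sq₀ (norm_nonneg _) (norm_nonneg _)).1 h).le)

lemma U_apply (e : S ≃ S) (f : L2) (x : S) : U e f x = f (e x) := rfl

def bb (β : Bool) : ℝ := if β then 1 else 0

lemma bb_le (β : Bool) (z : ℂ) : ‖(bb β : ℂ) * z‖ ^ 2 ≤ ‖z‖ ^ 2 := by
  cases β <;> simp [bb]

noncomputable def Bl : L2 →ₗ[ℂ] L2 where
  toFun f := ⟨fun x => (bb (ty x.1) : ℂ) * f x, (mem_iff _).2
    (Summable.of_nonneg_of_le (fun n => by positivity) (fun n => bb_le _ _) (summ f))⟩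
  map_add' x y := by
    ext n
    exact mul_add _ _ _
  map_smul' c x := by
    ext n
    simp [mul_left_comm]

noncomputable def B : L2 →L[ℂ] L2 :=
  Bl.mkContinuous 1 (fun f => by
    have h : ‖Bl f‖ ^ 2 ≤ ‖f‖ ^ 2 := by
      rw [normsq, normsq]
      exact Summable.tsum_le_tsum (fun n => bb_le _ _) (summ _) (summ f)
    rw [one_mul]
    exact (sq_le_sq₀ (norm_nonneg _) (norm_nonneg _)).1 h)

lemma B_apply (f : L2) (x : S) : B f x = (bb (ty x.1) : ℂ) * f x := rfl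

noncomputable def H : L2 →L[ℂ] L2 := U (mvE 0) + U (mvE 1) + U (mvE 2) + B

lemma H_apply (f : L2) (x : S) : H f x = ∑ i, f (mv i x) + (bb (ty x.1) : ℂ) * f x := by
  rw [Fin.sum_univ_three]; rfl

lemma U_adj (i : Fin 3) (f g : L2) : ⟪U (mvE i) f, g⟫_ℂ = ⟪f, U (mvE (r i)) g⟫_ℂ := by
  rw [lp.inner_eq_tsum, lp.inner_eq_tsum, ← (mvE i).tsum_eq (fun x => ⟪f x, U (mvE (r i)) g x⟫_ℂ)]
  refine tsum_congr fun x => ?_
  rw [U_apply, U_apply]
  have : mvE (r i) (mvE i x) = x := mv_mv i x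
  rw [this]

lemma B_adj (f g : L2) : ⟪B f, g⟫_ℂ = ⟪f, B g⟫_ℂ := by
  rw [lp.inner_eq_tsum, lp.inner_eq_tsum]
  refine tsum_congr fun x => ?_
  rw [B_apply, B_apply]
  simp; ring

lemma H_symm (f g : L2) : ⟪H f, g⟫_ℂ = ⟪f, H g⟫_ℂ := by
  have e0 : r 0 = 1 := rfl
  have e1 : r 1 = 0 := rfl
  have e2 : r 2 = 2 := rfl
  simp only [H, add_apply, inner_add_left, inner_add_right, U_adj, B_adj,
    e0, e1, e2]
  ring

lemma H_sa : IsSelfAdjoint H := ContinuousLinearMap.isSelfAdjoint_iff_isSymmetric.2 H_symm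

lemma ptw (η c : ℝ) (hη : η = 1 ∨ η = -1) (c' : ℝ) (hc : 0 < c) (hcc : c' * c = 1) (a b : ℂ) :
    η * (⟪b, a⟫_ℂ).re ≤ (c * ‖a‖ ^ 2 + c' * ‖b‖ ^ 2) / 2 := by
  have h1 : |(⟪b, a⟫_ℂ).re| ≤ ‖b‖ * ‖a‖ :=
    (Complex.abs_re_le_norm _).trans (norm_inner_le_norm _ _)
  have h2 : η * (⟪b, a⟫_ℂ).re ≤ ‖b‖ * ‖a‖ := by
    rcases hη with rfl | rfl
    · simpa using (abs_le.1 h1).2
    · linarith [(abs_le.1 h1).1]
  have h3 : 0 < c' := by
    by_contra h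
    nlinarith
  have h4 : c' * (c * ‖a‖ - ‖b‖) ^ 2 = c * ‖a‖ ^ 2 + c' * ‖b‖ ^ 2 - 2 * (‖b‖ * ‖a‖) := by
    linear_combination (c * ‖a‖ ^ 2 - 2 * ‖a‖ * ‖b‖) * hcc
  have h5 : 0 ≤ c' * (c * ‖a‖ - ‖b‖) ^ 2 := by positivity
  linarith

lemma form (η lam K : ℝ) (hη : η = 1 ∨ η = -1) (c : S → Fin 3 → ℝ) (hc : ∀ x i, 0 < c x i)
    (hK : ∀ x i, c x i ≤ K) (hcc : ∀ x i, c (mv i x) (r i) * c x i = 1)
    (hs : ∀ x, ∑ i, c x i ≤ η * (lam - bb (ty x.1))) (f : L2) :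
    η * (⟪H f, f⟫_ℂ).re ≤ η * lam * ‖f‖ ^ 2 := by
  have sW : ∀ i, Summable fun x => c x i * ‖f x‖ ^ 2 := fun i =>
    Summable.of_nonneg_of_le (fun x => mul_nonneg (hc x i).le (by positivity))
      (fun x => mul_le_mul_of_nonneg_right (hK x i) (by positivity)) ((summ f).mul_left K)
  have h1 : ∀ i, η * (⟪U (mvE i) f, f⟫_ℂ).re ≤
      (∑' x, c x i * ‖f x‖ ^ 2 + ∑' x, c x (r i) * ‖f x‖ ^ 2) / 2 := by
    intro i
    have a1 := (Complex.hasSum_re (lp.hasSum_inner (U (mvE i) f) f)).mul_left η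
    have a2 := (mvE i).hasSum_iff.2 (sW (r i)).hasSum
    have a3 := ((sW i).hasSum.add a2).div_const 2
    exact hasSum_le (fun x => ptw η _ hη _ (hc x i) (hcc x i) _ _) a1 a3
  have h2 : HasSum (fun x : S => bb (ty x.1) * ‖f x‖ ^ 2) (⟪B f, f⟫_ℂ).re := by
    convert Complex.hasSum_re (lp.hasSum_inner (B f) f) using 2 with x
    rw [B_apply]
    simp only [RCLike.inner_apply, map_mul, Complex.conj_ofReal]
    rw [mul_left_comm, Complex.mul_conj, Complex.normSq_eq_norm_sq]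
    norm_cast
  have h3 : HasSum (fun x : S => η * (lam * ‖f x‖ ^ 2 - bb (ty x.1) * ‖f x‖ ^ 2))
      (η * (lam * ‖f‖ ^ 2 - (⟪B f, f⟫_ℂ).re)) := by
    rw [normsq]
    exact (((summ f).hasSum.mul_left lam).sub h2).mul_left η
  have h4 := hasSum_le (fun x => by
    have := mul_le_mul_of_nonneg_right (hs x) (sq_nonneg ‖f x‖)
    rw [Fin.sum_univ_three] at this
    linarith) (((sW 0).hasSum.add (sW 1).hasSum).add (sW 2).hasSum) h3
  have e0 : r 0 = 1 := rfl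
  have e1 : r 1 = 0 := rfl
  have e2 : r 2 = 2 := rfl
  have k0 := h1 0
  have k1 := h1 1
  have k2 := h1 2
  rw [e0] at k0
  rw [e1] at k1
  rw [e2] at k2
  simp only [H, add_apply, inner_add_left, Complex.add_re]
  linarith

lemma spec_bound (η lam : ℝ) (hη : η = 1 ∨ η = -1)
    (h : ∀ f : L2, η * (⟪H f, f⟫_ℂ).re ≤ η * lam * ‖f‖ ^ 2) (μ : ℝ) (hμ : μ ∈ spectrum ℝ H) :
    η * μ ≤ η * lam := by
  let A : L2 →L[ℂ] L2 := η • (algebraMap ℝ (L2 →L[ℂ] L2) lam - H)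
  have hA : ∀ f, A f = (η : ℂ) • ((lam : ℂ) • f - H f) := by
    intro f
    simp [A, Algebra.algebraMap_eq_smul_one]
    rfl
  have hpos : 0 ≤ A := by
    rw [ContinuousLinearMap.nonneg_iff_isPositive]
    refine ⟨fun f g => ?_, fun f => ?_⟩
    · show ⟪A f, g⟫_ℂ = ⟪f, A g⟫_ℂ
      simp only [hA, inner_smul_left, inner_smul_right, inner_sub_left, inner_sub_right, H_symm,
        Complex.conj_ofReal]
    · show 0 ≤ (⟪A f, f⟫_ℂ).re
      have := h f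
      simp only [hA, inner_smul_left, inner_sub_left, Complex.conj_ofReal, inner_self_eq_norm_sq_to_K,
        Complex.re_ofReal_mul, Complex.sub_re]
      have e : (((‖f‖ : ℝ) : ℂ) ^ 2).re = ‖f‖ ^ 2 := by norm_cast
      erw [e]
      linarith
  have hm : η * (lam - μ) ∈ spectrum ℝ A := by
    rw [spectrum.mem_iff] at hμ ⊢
    intro hu
    apply hμ
    rcases hη with rfl | rfl
    · rw [← IsUnit.neg_iff]
      convert hu using 1
      simp [A]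
    · convert hu using 1
      simp [A]
  have := spectrum_nonneg_of_nonneg hpos hm
  linarith

end Pool.Agent.H33.Borg
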