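import Mathlib
import Pool.Agent.H33.Borg2

set_option autoImplicit false

namespace Pool.Agent.H33.Borg

open scoped ENNReal InnerProductSpace ComplexConjugate

def ch (d : D) (k : List D) : Prop := (d :: k).IsChain R
def par (α : ℂ) (φ : List D → ℂ) (k : List D) : ℂ := if k = [] then α else φ k.dropLast

structure Sol (lam : ℝ) (d : D) (α : ℂ) (φ : List D → ℂ) : Prop where
  supp : ∀ k, ¬ ch d k → φ k = 0
  summ : Summable fun k => ‖φ k‖ ^ 2
  eq : ∀ k, ch d k → ((lam : ℂ) - bb (ty (d :: k))) * φ k = par α φ k + ∑ e, φ (k ++ [e])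

lemma Sol.smul {lam : ℝ} {d : D} {α : ℂ} {φ : List D → ℂ} (h : Sol lam d α φ) (c : ℂ) :
    Sol lam d (c * α) (fun k => c * φ k) := by
  refine ⟨fun k hk => by simp [h.supp k hk], ?_, fun k hk => ?_⟩
  · simpa [mul_pow] using h.summ.mul_left (‖c‖ ^ 2)
  · have h1 : par (c * α) (fun k => c * φ k) k = c * par α φ k := by
      unfold par; split_ifs <;> rfl
    rw [h1, ← Finset.mul_sum, ← mul_add, ← h.eq k hk]; ring

lemma Sol.sub {lam : ℝ} {d : D} {α α' : ℂ} {φ φ' : List D → ℂ} (h : Sol lam d α φ)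
    (h' : Sol lam d α' φ') : Sol lam d (α - α') (fun k => φ k - φ' k) := by
  refine ⟨fun k hk => by simp [h.supp k hk, h'.supp k hk], ?_, fun k hk => ?_⟩
  · refine Summable.of_nonneg_of_le (fun _ => by positivity) (fun k => ?_)
      ((h.summ.add h'.summ).mul_left 2)
    have h1 := norm_sub_le (φ k) (φ' k)
    have h2 := norm_nonneg (φ k - φ' k)
    nlinarith [sq_nonneg (‖φ k‖ - ‖φ' k‖)]
  · have h1 : par (α - α') (fun k => φ k - φ' k) k = par α φ k - par α' φ' k := by
      unfold par; split_ifs <;> rfl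
    rw [h1, Finset.sum_sub_distrib]
    linear_combination h.eq k hk - h'.eq k hk

lemma Sol.conj {lam : ℝ} {d : D} {α : ℂ} {φ : List D → ℂ} (h : Sol lam d α φ) :
    Sol lam d (conj α) (fun k => conj (φ k)) := by
  refine ⟨fun k hk => by simp [h.supp k hk], by simpa using h.summ, fun k hk => ?_⟩
  have h1 : par (conj α) (fun k => conj (φ k)) k = conj (par α φ k) := by
    unfold par; split_ifs <;> rfl
  have := congrArg (starRingEnd ℂ) (h.eq k hk)
  simpa [h1] using this

lemma Sol.child {lam : ℝ} {d : D} {α : ℂ} {φ : List D → ℂ} (h : Sol lam d α φ) {e : D}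
    (he : R d e) : Sol lam e (φ []) (fun k => φ (e :: k)) := by
  have h1 : ∀ k, ch d (e :: k) ↔ ch e k := fun k => by simp [ch, he]
  refine ⟨fun k hk => h.supp _ (by rwa [h1]), h.summ.comp_injective List.cons_injective,
    fun k hk => ?_⟩
  have h2 := h.eq (e :: k) ((h1 k).2 hk)
  have h3 : ty (d :: e :: k) = ty (e :: k) := by simp [ty]
  have h4 : par α φ (e :: k) = par (φ []) (fun k => φ (e :: k)) k := by
    cases k <;> simp [par]
  rw [h3, h4] at h2
  exact h2

lemma Sol.child0 {lam : ℝ} {d : D} {α : ℂ} {φ : List D → ℂ} (h : Sol lam d α φ) {e : D}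
    (he : ¬ R d e) (k : List D) : φ (e :: k) = 0 :=
  h.supp _ (by simp [ch, he])

noncomputable def N (φ : List D → ℂ) : ℝ := ∑' k, ‖φ k‖ ^ 2

lemma N_nonneg (φ : List D → ℂ) : 0 ≤ N φ := tsum_nonneg fun _ => by positivity

lemma N_smul (c : ℂ) (φ : List D → ℂ) : N (fun k => c * φ k) = ‖c‖ ^ 2 * N φ := by
  simp [N, mul_pow, tsum_mul_left]

lemma N_split {φ : List D → ℂ} (h : Summable fun k => ‖φ k‖ ^ 2) :
    N φ = ‖φ []‖ ^ 2 + ∑ e, N fun k => φ (e :: k) := by
  have hi : Function.Injective fun p : D × List D => p.1 :: p.2 := by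
    rintro ⟨a, l⟩ ⟨b, m⟩ hab
    simpa using hab
  have h2 : Summable fun p : D × List D => ‖φ (p.1 :: p.2)‖ ^ 2 := h.comp_injective hi
  have h3 := hi.tsum_eq (f := fun k => if k = [] then 0 else ‖φ k‖ ^ 2) (by
    intro k hk
    cases k with
    | nil => simp at hk
    | cons a l => exact ⟨(a, l), rfl⟩)
  have h4 : ∑' p : D × List D, ‖φ (p.1 :: p.2)‖ ^ 2 = ∑ e, N fun k => φ (e :: k) := by
    rw [h2.tsum_prod, tsum_fintype]; rfl
  rw [N, h.tsum_eq_add_tsum_ite [], ← h4]
  congr 1
  refine Eq.trans ?_ (h3.symm.trans ?_)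
  · exact tsum_congr fun k => by congr
  · simp

lemma ty_append (p : List D) (d : D) (k : List D) : ty (p ++ d :: k) = ty (d :: k) := by
  rcases List.eq_nil_or_concat' k with rfl | ⟨m, e, rfl⟩
  · exact (ty_concat p d).trans (ty_concat [] d).symm
  · rw [← List.cons_append, ← List.append_assoc, ty_concat, ty_concat]

noncomputable def δ (x : S) : L2 := lp.single 2 x (1 : ℂ)

lemma δ_apply (x y : S) : δ x y = if y = x then 1 else 0 := by
  simp [δ, lp.single_apply, Pi.single_apply]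

lemma place {lam : ℝ} {d : D} {α : ℂ} {φ : List D → ℂ} (h : Sol lam d α φ) (v w : S)
    (hw : w.1 = v.1 ++ [d]) : ∃ f : L2, f v = 0 ∧
      (∀ k (x : S), x.1 = v.1 ++ d :: k → f x = φ k) ∧
      H f - (lam : ℂ) • f = φ [] • δ v - α • δ w := by
  obtain ⟨p, hp⟩ := v
  obtain ⟨q, hq⟩ := w
  simp only at hw
  subst hw
  have hi : Function.Injective fun k => p ++ d :: k := fun a b hab => by simpa using hab
  obtain ⟨F, hF⟩ : ∃ F : List D → ℂ, F = Function.extend (fun k => p ++ d :: k) φ 0 := ⟨_, rfl⟩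
  have F1 : ∀ k, F (p ++ d :: k) = φ k := fun k => by rw [hF]; exact hi.extend_apply _ _ k
  have F0 : ∀ l, (¬ ∃ k, p ++ d :: k = l) → F l = 0 := fun l hl => by
    rw [hF]; exact Function.extend_apply' _ _ _ hl
  have Fok : ∀ l, ¬ ok l → F l = 0 := by
    intro l hl
    by_cases h1 : ∃ k, p ++ d :: k = l
    · obtain ⟨k, rfl⟩ := h1
      rw [F1]
      exact h.supp k fun h2 => hl ((ok_append p d hq k).2 h2)
    · exact F0 l h1
  have Fs : Summable fun l => ‖F l‖ ^ 2 := by
    rw [← hi.summable_iff]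
    · simpa [Function.comp_def, F1] using h.summ
    · intro l hl
      simp [F0 l hl]
  have Fp : F p = 0 := F0 _ (by
    rintro ⟨k, hk⟩
    simpa using congrArg List.length hk)
  refine ⟨⟨fun x => F x.1, (mem_iff _).2 (Fs.comp_injective Subtype.val_injective)⟩, Fp, ?_, ?_⟩
  · intro k x hx
    show F x.1 = _
    rw [hx, F1]
  · ext x
    obtain ⟨l, hl⟩ := x
    simp only [lp.coeFn_sub, lp.coeFn_smul, Pi.sub_apply, Pi.smul_apply, H_apply, smul_eq_mul,
      δ_apply, Subtype.mk.injEq]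
    show ∑ i, F (mvl i l) + _ * F l - _ * F l = _
    rw [nbr F Fok hl]
    by_cases h1 : ∃ k, p ++ d :: k = l
    · obtain ⟨k, rfl⟩ := h1
      have h2 := h.eq k ((ok_append p d hq k).1 hl)
      have h3 : ty (p ++ d :: k) = ty (d :: k) := ty_append p d k
      have h4 : ∀ e, F (p ++ d :: k ++ [e]) = φ (k ++ [e]) := fun e => by rw [← F1]; simp
      have h5 : ¬ p ++ d :: k = p := fun h => by simpa using congrArg List.length h
      simp only [h3, h4, F1, if_neg h5, if_neg (show ¬ p ++ d :: k = [] by simp)]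
      rcases List.eq_nil_or_concat' k with rfl | ⟨m, e, rfl⟩
      · simp only [par, if_true] at h2
        rw [List.dropLast_concat, Fp, if_pos rfl]
        linear_combination -h2
      · have h6 : (p ++ d :: (m ++ [e])).dropLast = p ++ d :: m := by
          rw [← List.cons_append, ← List.append_assoc, List.dropLast_concat]
        rw [par, if_neg (by simp), List.dropLast_concat] at h2
        rw [h6, F1, if_neg (by simp)]
        linear_combination -h2
    · have h2 : (if l = [] then 0 else F l.dropLast) = 0 := by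
        split_ifs with h3
        · rfl
        · apply F0
          rintro ⟨k, hk⟩
          apply h1
          refine ⟨k ++ [l.getLast h3], ?_⟩
          rw [← List.cons_append, ← List.append_assoc, hk, List.dropLast_append_getLast]
      rw [h2, F0 l h1, if_neg (show ¬ l = p ++ [d] from fun h3 => h1 ⟨[], h3.symm⟩)]
      by_cases h3 : l = p
      · subst h3
        rw [Finset.sum_eq_single d, F1]
        · simp
        · intro e _ he
          apply F0
          rintro ⟨k, hk⟩
          simp at hk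
          exact he hk.1.symm
        · simp
      · rw [if_neg h3, Finset.sum_eq_zero]
        · simp
        · intro e _
          apply F0
          rintro ⟨k, hk⟩
          rcases List.eq_nil_or_concat' k with rfl | ⟨m, e', rfl⟩
          · exact h3 (List.append_inj_left' hk rfl).symm
          · rw [← List.cons_append, ← List.append_assoc] at hk
            exact h1 ⟨m, List.append_inj_left' hk rfl⟩

lemma restrict {lam : ℝ} {d : D} (v w : S) (hw : w.1 = v.1 ++ [d]) (f : L2) (β γ : ℂ)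
    (hf : H f - (lam : ℂ) • f = β • δ w + γ • δ v) :
    ∃ φ, Sol lam d (f v - β) φ ∧ φ [] = f w := by
  classical
  obtain ⟨p, hp⟩ := v
  obtain ⟨q, hq⟩ := w
  simp only at hw
  subst hw
  obtain ⟨F, hF⟩ : ∃ F : List D → ℂ, F = Function.extend (Subtype.val : S → List D) f 0 :=
    ⟨_, rfl⟩
  have F1 : ∀ x : S, F x.1 = f x := fun k => by
    rw [hF]; exact Subtype.val_injective.extend_apply _ _ k
  have Fok : ∀ l, ¬ ok l → F l = 0 := fun l hl => by
    rw [hF]
    exact Function.extend_apply' _ _ _ (by rintro ⟨x, rfl⟩; exact hl x.2)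
  have Fs : Summable fun l => ‖F l‖ ^ 2 := by
    rw [← (Subtype.val_injective (p := (· ∈ S))).summable_iff]
    · exact (summ f).congr fun x => by simp [F1]
    · intro l hl
      rw [Fok l (fun h => hl ⟨⟨l, h⟩, rfl⟩)]; simp
  have hi : Function.Injective fun k => p ++ d :: k := fun a b hab => by simpa using hab
  refine ⟨fun k => F (p ++ d :: k), ⟨fun k hk => Fok _ fun h => hk ((ok_append p d hq k).1 h),
    Fs.comp_injective hi, fun k hk => ?_⟩, F1 ⟨_, hq⟩⟩
  have hl := (ok_append p d hq k).2 hk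
  have h1 := congrFun (congrArg (fun g : L2 => (g : S → ℂ)) hf) ⟨_, hl⟩
  simp only [lp.coeFn_sub, lp.coeFn_add, lp.coeFn_smul, Pi.sub_apply, Pi.add_apply, Pi.smul_apply,
    H_apply, smul_eq_mul, δ_apply, Subtype.mk.injEq, ← F1] at h1
  have h2 : ∑ i, F (mvl i (p ++ d :: k)) = _ := nbr F Fok hl
  have h3 : ty (p ++ d :: k) = ty (d :: k) := ty_append p d k
  have h5 : ¬ p ++ d :: k = p := fun h => by simpa using congrArg List.length h
  have h4 : ∀ e, p ++ d :: (k ++ [e]) = p ++ d :: k ++ [e] := fun e => by simp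
  simp only [mv] at h1
  rw [h2, h3, if_neg h5, if_neg (show ¬ p ++ d :: k = [] by simp)] at h1
  simp only [h4]
  rcases List.eq_nil_or_concat' k with rfl | ⟨m, e, rfl⟩
  · rw [List.dropLast_concat, if_pos rfl] at h1
    rw [par, if_pos rfl, ← F1]
    linear_combination -h1
  · have h6 : (p ++ d :: (m ++ [e])).dropLast = p ++ d :: m := by
      rw [← List.cons_append, ← List.append_assoc, List.dropLast_concat]
    rw [h6, if_neg (by simp)] at h1
    rw [par, if_neg (by simp), List.dropLast_concat]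
    linear_combination -h1

lemma base (d : D) : ∃ v w : S, w.1 = v.1 ++ [d] := by
  have h : ∀ d : D, ∃ p ∈ [[], [(false, 2)], [(false, 2), (true, 0)]], ok (p ++ [d]) := by
    unfold ok; decide
  obtain ⟨p, _, hp⟩ := h d
  exact ⟨⟨p, ((ok_concat p d).1 hp).1⟩, ⟨_, hp⟩, rfl⟩

lemma theory {lam : ℝ} (hl : lam ∉ spectrum ℝ H) (d : D) :
    (∃ α φ, Sol lam d α φ ∧ (α ≠ 0 ∨ φ [] ≠ 0)) ∧
    (∀ α φ α' φ', Sol lam d α φ → Sol lam d α' φ' → α * φ' [] = α' * φ []) ∧
    (∀ φ, Sol lam d 0 φ → φ [] = 0 → ∀ k, φ k = 0) := by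
  rw [spectrum.notMem_iff, ← IsUnit.neg_iff] at hl
  obtain ⟨u, hu⟩ := hl
  obtain ⟨G, hG⟩ : ∃ G : L2 →L[ℂ] L2, G = ↑u⁻¹ := ⟨_, rfl⟩
  have hu' : ∀ f, (u : L2 →L[ℂ] L2) f = H f - (lam : ℂ) • f := by
    intro f
    rw [hu]
    simp [Algebra.algebraMap_eq_smul_one]
    rfl
  have G1 : ∀ f, H (G f) - (lam : ℂ) • G f = f := by
    intro f
    rw [← hu', hG, ← mul_apply_eq_comp, u.mul_inv]; rfl
  have G2 : ∀ f, G (H f - (lam : ℂ) • f) = f := by
    intro f
    rw [← hu', hG, ← mul_apply_eq_comp, u.inv_mul]; rfl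
  have Gs : ∀ x y, G (δ x) y = conj (G (δ y) x) := by
    intro x y
    have h1 : ⟪G (δ y), δ x⟫_ℂ = ⟪δ y, G (δ x)⟫_ℂ := by
      conv_lhs => rw [← G1 (δ x)]
      conv_rhs => rw [← G1 (δ y)]
      simp only [inner_sub_left, inner_sub_right, inner_smul_left, inner_smul_right, H_symm,
        Complex.conj_ofReal]
    rw [δ, δ, lp.inner_single_left, lp.inner_single_right] at h1
    simpa [δ] using h1.symm
  obtain ⟨v, w, hw⟩ := base d
  have key : ∀ α φ, Sol lam d α φ → φ [] * G (δ v) v - α * G (δ w) v = 0 ∧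
      φ [] * G (δ v) w - α * G (δ w) w = φ [] ∧ (α = 0 → φ [] = 0 → ∀ k, φ k = 0) := by
    intro α φ h
    obtain ⟨f, f0, f1, f2⟩ := place h v w hw
    have h1 := G2 f
    rw [f2, map_sub, map_smul, map_smul] at h1
    refine ⟨?_, ?_, fun h2 h3 k => ?_⟩
    · rw [← f0, ← h1]; simp
    · conv_rhs => rw [← f1 [] w hw, ← h1]
      simp
    · by_cases hk : ch d k
      · have h4 : ok (v.1 ++ [d]) := hw ▸ w.2
        rw [← f1 k ⟨_, (ok_append v.1 d h4 k).2 hk⟩ rfl, ← h1, h2, h3]; simp
      · exact h.supp k hk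
  refine ⟨?_, fun α φ α' φ' h h' => ?_, fun φ h h0 => (key 0 φ h).2.2 rfl h0⟩
  · by_cases h : G (δ w) v = 1
    · obtain ⟨φ, h1, h2⟩ := restrict v w hw (G (δ v)) 0 1 (by rw [G1]; simp)
      exact ⟨_, φ, h1, Or.inr (by rw [h2, Gs, h]; simp)⟩
    · obtain ⟨φ, h1, _⟩ := restrict v w hw (G (δ w)) 1 0 (by rw [G1]; simp)
      exact ⟨_, φ, h1, Or.inl (sub_ne_zero.2 h)⟩
  · obtain ⟨a1, a2, -⟩ := key α φ h
    obtain ⟨b1, b2, -⟩ := key α' φ' h'
    by_contra hne
    have h1 : G (δ w) v = 0 := by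
      apply mul_left_cancel₀ (sub_ne_zero.2 hne)
      linear_combination φ [] * b1 - φ' [] * a1
    have h2 : G (δ v) w = 1 := by
      apply mul_left_cancel₀ (sub_ne_zero.2 hne)
      linear_combination α * b2 - α' * a2
    rw [Gs, h1] at h2
    simp at h2

end Pool.Agent.H33.Borg
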