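import Mathlib
import Pool.Agent.H33.Borg3

set_option autoImplicit false

namespace Pool.Agent.H33.Borg

open scoped ENNReal InnerProductSpace ComplexConjugate

lemma alg1 {μ c x P n M : ℝ} (h1 : μ * x = 1 + x ^ 2 + P) (h2 : c * P = x)
    (h3 : n = x ^ 2 + x ^ 2 * n + P ^ 2 * M) (hn : 0 ≤ n) (hM : 1 ≤ M) : x ^ 2 < 1 ∧ P ≠ 0 := by
  have hP : P ≠ 0 := by
    rintro rfl
    have : x = 0 := by linarith
    rw [this] at h1
    norm_num at h1
  refine ⟨?_, hP⟩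
  by_contra h
  have : 0 < P ^ 2 := by positivity
  nlinarith

lemma alg2 {μ c x P n x' P' n' M : ℝ} (h1 : μ * x = 1 + x ^ 2 + P) (h2 : c * P = x)
    (h3 : n = x ^ 2 + x ^ 2 * n + P ^ 2 * M) (hn : 0 ≤ n)
    (h1' : μ * x' = 1 + x' ^ 2 + P') (h2' : c * P' = x')
    (h3' : n' = x' ^ 2 + x' ^ 2 * n' + P' ^ 2 * M) (hn' : 0 ≤ n') (hM : 1 ≤ M) :
    x' = x ∧ P' = P ∧ n' = n := by
  have a1 := (alg1 h1 h2 h3 hn hM).1
  have a2 := (alg1 h1' h2' h3' hn' hM).1
  have hx : x' = x := by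
    by_cases hc : c = 0
    · rw [← h2, ← h2', hc]; simp
    · have h4 : c * ((x' - x) * (1 - x * x')) = 0 := by
        linear_combination (c * x') * h1 * (-1) + (c * x) * h1' - x' * h2 + x * h2'
      have h5 : 1 - x * x' ≠ 0 := by nlinarith [sq_nonneg (x - x')]
      have := ((mul_eq_zero.1 ((mul_eq_zero.1 h4).resolve_left hc)).resolve_right h5)
      linarith
  subst hx
  have hP : P' = P := by linarith
  subst hP
  refine ⟨rfl, rfl, ?_⟩
  have : (1 - x' ^ 2) * (n' - n) = 0 := by linear_combination h3' - h3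
  have := (mul_eq_zero.1 this).resolve_left (by linarith)
  linarith

lemma alg4 {a c u w s A B : ℝ} (u1 : u ≤ 1) (w1 : w ≤ 1) (hs : s = 1 - a * c) (s1 : 0 < s)
    (e8 : (a - c) ^ 2 ≤ 1) (hA : A = s ^ 2 + c ^ 2 * u) (hB : B = s ^ 2 + a ^ 2 * w)
    (A0 : 0 ≤ A) (_B0 : 0 ≤ B) : A * B ≤ 4 := by
  have e9 : s ≤ 5 / 4 := by nlinarith [sq_nonneg (a + c)]
  have g1 : c ^ 2 * u ≤ c ^ 2 := by nlinarith [sq_nonneg c]
  have g2 : a ^ 2 * w ≤ a ^ 2 := by nlinarith [sq_nonneg a]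
  have g3 : a ^ 2 + c ^ 2 ≤ 3 - 2 * s := by nlinarith
  have g4 : 0 ≤ s * (5 / 4 - s) := mul_nonneg s1.le (by linarith)
  have f5 : A + B ≤ 4 := by nlinarith
  nlinarith [sq_nonneg (A - B)]

lemma alg5 {p q : ℝ} (e6 : p + 2 * q = 1) (e7 : 0 ≤ p * q) : p ^ 2 ≤ 1 := by
  nlinarith [sq_nonneg q]

lemma alg6 {x y : ℝ} (a1 : x ^ 2 < 1) (b1 : y ^ 2 < 1) : 0 < 1 + x * y := by
  nlinarith [sq_nonneg (x + y)]

lemma alg7 {x P n m : ℝ} (h3 : n = x ^ 2 + x ^ 2 * n + P ^ 2 * (1 + m + m)) (P2 : 0 < P ^ 2) :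
    2 * P ^ 2 * m < (1 - x ^ 2) * n := by
  nlinarith [sq_nonneg x]

lemma alg3 {lam a c x P n y Q m : ℝ} (h1 : lam * x = 1 + x ^ 2 + P) (h2 : c * P = x)
    (h3 : n = x ^ 2 + x ^ 2 * n + P ^ 2 * (1 + m + m)) (hn : 0 ≤ n) (h4 : lam = a + x + x)
    (k1 : (lam - 1) * y = 1 + y ^ 2 + Q) (k2 : a * Q = y)
    (k3 : m = y ^ 2 + y ^ 2 * m + Q ^ 2 * (1 + n + n)) (hm : 0 ≤ m) (k4 : lam - 1 = c + y + y) :
    1 < a * c := by
  obtain ⟨a1, a2⟩ := alg1 h1 h2 h3 hn (by linarith)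
  obtain ⟨b1, b2⟩ := alg1 k1 k2 k3 hm (by linarith)
  obtain ⟨u, hu⟩ : ∃ u, u = 1 - x ^ 2 := ⟨_, rfl⟩
  obtain ⟨w, hw⟩ : ∃ w, w = 1 - y ^ 2 := ⟨_, rfl⟩
  obtain ⟨s, hs⟩ : ∃ s, s = 1 - a * c := ⟨_, rfl⟩
  have u0 : 0 < u := by linarith
  have w0 : 0 < w := by linarith
  have u1 : u ≤ 1 := by linarith [sq_nonneg x]
  have w1 : w ≤ 1 := by linarith [sq_nonneg y]
  have e1 : P * s = -u := by rw [hs, hu]; rw [h4] at h1; linear_combination -h1 - a * h2
  have e2 : Q * s = -w := by rw [hs, hw]; rw [k4] at k1; linear_combination -k1 - c * k2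
  have P2 : 0 < P ^ 2 := by positivity
  have Q2 : 0 < Q ^ 2 := by positivity
  have n1 : 2 * P ^ 2 * m < u * n := hu ▸ alg7 h3 P2
  have m1 : 2 * Q ^ 2 * n < w * m := hw ▸ alg7 k3 Q2
  have m0 : 0 < m := by
    by_contra h
    have : m = 0 := by linarith
    rw [this] at m1
    have : 0 ≤ 2 * Q ^ 2 * n := by positivity
    linarith
  have n0 : 0 < n := by
    by_contra h
    have : n = 0 := by linarith
    rw [this] at n1
    have : 0 ≤ 2 * P ^ 2 * m := by positivity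
    linarith
  have key : 4 * P ^ 2 * Q ^ 2 < u * w := by
    have h5 := mul_lt_mul'' n1 m1 (by positivity) (by positivity)
    have h6 : 0 < m * n := by positivity
    apply lt_of_mul_lt_mul_right _ h6.le
    linarith
  by_contra hcon
  have s0 : 0 ≤ s := by linarith
  have s1 : 0 < s := by
    rcases s0.lt_or_eq with h | h
    · exact h
    · rw [← h] at e1; linarith
  have e3 : x * s = -(c * u) := by rw [← h2]; linear_combination c * e1
  have e4 : y * s = -(a * w) := by rw [← k2]; linear_combination a * e2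
  have e5 : (a - c) * (u * w) = s * ((x - y) * (1 + x * y)) := by
    have : (x - y) * (1 + x * y) = x * w - y * u := by rw [hu, hw]; ring
    rw [this]
    linear_combination (-w) * e3 + u * e4
  have e6 : a - c + 2 * (x - y) = 1 := by linarith
  have xy : 0 < 1 + x * y := alg6 a1 b1
  have e7 : 0 ≤ (a - c) * (x - y) := by
    have h5 : 0 ≤ (a - c) * (x - y) * (u * w) := by
      have : (a - c) * (x - y) * (u * w) = s * (1 + x * y) * (x - y) ^ 2 := by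
        linear_combination (x - y) * e5
      rw [this]; positivity
    exact nonneg_of_mul_nonneg_left h5 (by positivity)
  have e8 : (a - c) ^ 2 ≤ 1 := alg5 e6 e7
  have f1 : s ^ 2 = u * (s ^ 2 + c ^ 2 * u) := by
    have : (x * s) ^ 2 = (c * u) ^ 2 := by rw [e3]; ring
    linear_combination this - s ^ 2 * hu
  have f2 : s ^ 2 = w * (s ^ 2 + a ^ 2 * w) := by
    have : (y * s) ^ 2 = (a * w) ^ 2 := by rw [e4]; ring
    linear_combination this - s ^ 2 * hw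
  have f3 : 4 * (u * w) < s ^ 2 * s ^ 2 := by
    have h5 : 4 * (u * w) * (u * w) = 4 * P ^ 2 * Q ^ 2 * (s ^ 2 * s ^ 2) := by
      have : u * w = P * s * (Q * s) := by rw [e1, e2]; ring
      rw [this]; ring
    have h6 := mul_lt_mul_of_pos_right key (show 0 < s ^ 2 * s ^ 2 by positivity)
    apply lt_of_mul_lt_mul_right _ (show 0 ≤ u * w by positivity)
    linarith
  obtain ⟨A, hA⟩ : ∃ A, A = s ^ 2 + c ^ 2 * u := ⟨_, rfl⟩
  obtain ⟨B, hB⟩ : ∃ B, B = s ^ 2 + a ^ 2 * w := ⟨_, rfl⟩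
  have f4 : 4 < A * B := by
    apply lt_of_mul_lt_mul_right _ (show 0 ≤ u * w by positivity)
    rw [← hA] at f1
    rw [← hB] at f2
    calc 4 * (u * w) < s ^ 2 * s ^ 2 := f3
      _ = A * B * (u * w) := by linear_combination s ^ 2 * f1 + u * A * f2
  have A0 : 0 ≤ A := by rw [hA]; positivity
  have B0 : 0 ≤ B := by rw [hB]; positivity
  exact absurd f4 (not_lt.2 (alg4 u1 w1 hs s1 e8 hA hB A0 B0))

lemma sumR {M : Type} [AddCommMonoid M] (d a b : D) (hab : a ≠ b)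
    (h : ∀ e, R d e → e = a ∨ e = b) (g : D → M) (hg : ∀ e, ¬ R d e → g e = 0) :
    ∑ e, g e = g a + g b := by
  rw [← Finset.sum_pair hab]
  symm
  apply Finset.sum_subset (Finset.subset_univ _)
  intro e _ he
  exact hg e fun h1 => he (by simpa using h e h1)

lemma numbers {lam : ℝ} (hl : lam ∉ spectrum ℝ H) : ∃ a c x P y Q : ℝ,
    lam * x = 1 + x ^ 2 + P ∧ c * P = x ∧ lam = a + x + x ∧ x ^ 2 < 1 ∧
    (lam - 1) * y = 1 + y ^ 2 + Q ∧ a * Q = y ∧ lam - 1 = c + y + y ∧ y ^ 2 < 1 ∧ 1 < a * c := by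
  have ex := fun d => (theory hl d).1
  have det := fun d => (theory hl d).2.1
  have uniq : ∀ d α φ α' φ' c, Sol lam d α φ → Sol lam d α' φ' → α' = c * α → φ' [] = c * φ [] →
      N φ' = ‖c‖ ^ 2 * N φ := by
    intro d α φ α' φ' c h h' e1 e2
    have h1 := h'.sub (h.smul c)
    rw [e1, sub_self] at h1
    have h2 := (theory hl d).2.2 _ h1 (by simp [e2])
    rw [← N_smul]
    congr 1
    funext k
    exact sub_eq_zero.1 (h2 k)
  have R1 : ∀ β : Bool, ∀ i : Fin 3, i ≠ 2 → R (β, i) (β, i) ∧ R (β, i) (β, 2) ∧ tgt (β, i) = β ∧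
      ∀ e, R (β, i) e → e = (β, i) ∨ e = (β, 2) := by decide
  have R2 : ∀ β : Bool, R (β, 2) (!β, 0) ∧ R (β, 2) (!β, 1) ∧ tgt (β, 2) = !β ∧
      ∀ e, R (β, 2) e → e = (!β, 0) ∨ e = (!β, 1) := by decide
  have ty1 : ∀ d : D, ty [d] = tgt d := fun d => rfl
  have chn : ∀ d : D, ch d [] := fun d => by simp [ch]
  have exl : ∀ β : Bool, ∀ i : Fin 3, i ≠ 2 → ∃ φ, Sol lam (β, i) 1 φ := by
    intro β i hi
    obtain ⟨α, φ, h1, h2⟩ := ex (β, i)
    have h3 : α ≠ 0 := by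
      rintro rfl
      have := det _ _ _ _ _ h1 (h1.child (R1 β i hi).1)
      simp at this h2
      exact h2 this
    have := h1.smul α⁻¹
    rw [inv_mul_cancel₀ h3] at this
    exact ⟨_, this⟩
  choose! φ hφ using exl
  have h0 : (0 : Fin 3) ≠ 2 := by decide
  have h1 : (1 : Fin 3) ≠ 2 := by decide
  have br : ∀ β α ψ, Sol lam (β, 2) α ψ →
      ((lam : ℂ) - bb (!β)) * ψ [] = α + ψ [] * φ (!β) 0 [] + ψ [] * φ (!β) 1 [] ∧
      N ψ = ‖ψ []‖ ^ 2 * (1 + N (φ (!β) 0) + N (φ (!β) 1)) := by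
    intro β α ψ h
    obtain ⟨r0, r1, r2, r3⟩ := R2 β
    have c0 := det _ _ _ _ _ (hφ (!β) 0 h0) (h.child r0)
    have c1 := det _ _ _ _ _ (hφ (!β) 1 h1) (h.child r1)
    rw [one_mul] at c0 c1
    have hne : ((!β, 0) : D) ≠ (!β, 1) := by simp
    constructor
    · have := h.eq [] (chn _)
      simp only [par, if_true, List.nil_append] at this
      rw [ty1, r2, sumR _ _ _ hne r3 _ (fun e he => h.child0 he [])] at this
      rw [this, c0, c1, add_assoc]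
    · rw [N_split h.summ, sumR _ _ _ hne r3 _ (fun e he => by simp [N, h.child0 he]),
        uniq _ _ _ _ _ (ψ []) (hφ (!β) 0 h0) (h.child r0) (by simp) c0,
        uniq _ _ _ _ _ (ψ []) (hφ (!β) 1 h1) (h.child r1) (by simp) c1]
      ring
  have exb : ∀ β : Bool, ∃ (a : ℝ) (ψ : List D → ℂ), Sol lam (β, 2) a ψ ∧ ψ [] = 1 := by
    intro β
    obtain ⟨α, ψ, h2, h3⟩ := ex (β, 2)
    have h4 : ψ [] ≠ 0 := by
      intro h
      have := (br β α ψ h2).1
      simp [h] at this h3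
      exact h3 this.symm
    have h5 := h2.smul (ψ [])⁻¹
    have h6 := det _ _ _ _ _ h5 h5.conj
    rw [inv_mul_cancel₀ h4, map_one, mul_one, mul_one] at h6
    obtain ⟨a, ha⟩ := Complex.conj_eq_iff_real.1 h6.symm
    exact ⟨a, _, ha ▸ h5, inv_mul_cancel₀ h4⟩
  choose A ψ hψ hψ1 using exb
  have line : ∀ β : Bool, ∀ i : Fin 3, i ≠ 2 → ∃ x P : ℝ, φ β i [] = x ∧
      (lam - bb β) * x = 1 + x ^ 2 + P ∧ A β * P = x ∧
      N (φ β i) = x ^ 2 + x ^ 2 * N (φ β i) + P ^ 2 * N (ψ β) := by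
    intro β i hi
    obtain ⟨r0, r1, r2, r3⟩ := R1 β i hi
    have h := hφ β i hi
    have h6 := det _ _ _ _ _ h h.conj
    rw [map_one, one_mul, one_mul] at h6
    obtain ⟨x, hx⟩ := Complex.conj_eq_iff_real.1 h6
    have c0 := det _ _ _ _ _ h (h.child r0)
    have c1 := det _ _ _ _ _ (hψ β) (h.child r1)
    rw [one_mul] at c0
    rw [hψ1, mul_one] at c1
    have hne : ((β, i) : D) ≠ (β, 2) := by simpa using hi
    have e1 := h.eq [] (chn _)
    simp only [par, if_true, List.nil_append] at e1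
    rw [ty1, r2, sumR _ _ _ hne r3 _ (fun e he => h.child0 he [])] at e1
    have hP : φ β i [(β, 2)] = (((lam - bb β) * x - 1 - x ^ 2 : ℝ) : ℂ) := by
      push_cast
      rw [c0, hx] at e1
      linear_combination -e1
    refine ⟨x, (lam - bb β) * x - 1 - x ^ 2, hx, by ring, ?_, ?_⟩
    · rw [hP, hx] at c1
      exact_mod_cast c1
    · conv_lhs => rw [N_split h.summ, sumR _ _ _ hne r3 _ (fun e he => by simp [N, h.child0 he]),
        uniq _ _ _ _ _ (φ β i []) h (h.child r0) (by simp) c0,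
        uniq _ _ _ _ _ (φ β i [(β, 2)]) (hψ β) (h.child r1) (by rw [← c1]; ring) (by simp [hψ1])]
      rw [hP, hx, Complex.norm_real, Complex.norm_real, Real.norm_eq_abs, Real.norm_eq_abs,
        sq_abs, sq_abs]
      ring
  obtain ⟨x0, P0, a0, a1, a2, a3⟩ := line false 0 h0
  obtain ⟨x1, P1, b0, b1, b2, b3⟩ := line false 1 h1
  obtain ⟨y0, Q0, c0, c1, c2, c3⟩ := line true 0 h0
  obtain ⟨y1, Q1, d0, d1, d2, d3⟩ := line true 1 h1
  obtain ⟨e1, e2⟩ := br false _ _ (hψ false)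
  obtain ⟨f1, f2⟩ := br true _ _ (hψ true)
  simp only [hψ1, Bool.not_false, Bool.not_true, a0, b0, c0, d0, norm_one, one_pow, one_mul,
    mul_one] at e1 e2 f1 f2
  have bt : bb true = 1 := rfl
  have bf : bb false = 0 := rfl
  rw [bt] at c1 d1 e1
  rw [bf] at a1 b1 f1
  rw [sub_zero] at a1 b1
  have e1' : lam - 1 = A false + y0 + y1 := by exact_mod_cast e1
  have f1' : lam - 0 = A true + x0 + x1 := by exact_mod_cast f1
  have M1 : 1 ≤ N (ψ false) := by rw [e2]; linarith [N_nonneg (φ true 0), N_nonneg (φ true 1)]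
  have M2 : 1 ≤ N (ψ true) := by rw [f2]; linarith [N_nonneg (φ false 0), N_nonneg (φ false 1)]
  obtain ⟨g1, -, g3⟩ := alg2 a1 a2 a3 (N_nonneg _) b1 b2 b3 (N_nonneg _) M1
  obtain ⟨k1, -, k3⟩ := alg2 c1 c2 c3 (N_nonneg _) d1 d2 d3 (N_nonneg _) M2
  have s1 := (alg1 a1 a2 a3 (N_nonneg _) M1).1
  have s2 := (alg1 c1 c2 c3 (N_nonneg _) M2).1
  rw [g1, sub_zero] at f1'
  rw [k1] at e1'
  rw [e2, k3] at a3
  rw [f2, g3] at c3
  exact ⟨_, _, _, _, _, _, a1, a2, f1', s1, c1, c2, e1', s2,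
    alg3 a1 a2 a3 (N_nonneg _) f1' c1 c2 c3 (N_nonneg _) e1'⟩

end Pool.Agent.H33.Borg
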