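import Mathlib
import Pool.Agent.H33.Borg4

set_option autoImplicit false

namespace Pool.Agent.H33.Borg

open scoped ENNReal InnerProductSpace ComplexConjugate

noncomputable def wt (m : D → ℝ) (l : List D) (i : Fin 3) : ℝ :=
  match l.getLast? with
  | some d => if i = r d.2 then (m d)⁻¹ else m (tgt d, i)
  | none => m (false, i)

lemma wt_nil (m : D → ℝ) (i : Fin 3) : wt m [] i = m (false, i) := rfl
lemma wt_concat (m : D → ℝ) (l : List D) (d : D) (i : Fin 3) :
    wt m (l ++ [d]) i = if i = r d.2 then (m d)⁻¹ else m (tgt d, i) := by simp [wt]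

lemma wt_child (m : D → ℝ) {l : List D} {d : D} (h : ok (l ++ [d])) : wt m l d.2 = m d := by
  obtain ⟨_, h2, h3⟩ := (ok_concat l d).1 h
  rcases List.eq_nil_or_concat' l with rfl | ⟨k, e, rfl⟩
  · rw [wt_nil, ← ty_nil, ← h2]
  · rw [ty_concat] at h2
    have h4 : d = (tgt e, d.2) := by rw [← h2]
    rw [wt_concat, if_neg, ← h4]
    intro h5
    apply h3
    rw [h4, ← (eq_rev e d.2).2 h5]
    simp

lemma bound_of (η lam : ℝ) (hη : η = 1 ∨ η = -1) (m : D → ℝ) (hm : ∀ d, 0 < m d)
    (h0 : ∑ i, m (false, i) ≤ η * lam)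
    (h1 : ∀ d : D, ∑ i, (if i = r d.2 then (m d)⁻¹ else m (tgt d, i)) ≤ η * (lam - bb (tgt d)))
    (μ : ℝ) (hμ : μ ∈ spectrum ℝ H) : η * μ ≤ η * lam := by
  obtain ⟨K, hK⟩ := Finite.exists_le fun d => max (m d) (m d)⁻¹
  refine spec_bound η lam hη (form η lam K hη (fun x i => wt m x.1 i) ?_ ?_ ?_ ?_) μ hμ
  · rintro ⟨l, hl⟩ i
    rcases List.eq_nil_or_concat' l with rfl | ⟨k, e, rfl⟩
    · exact hm _
    · simp only [wt_concat]
      split_ifs
      · exact inv_pos.2 (hm _)
      · exact hm _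
  · rintro ⟨l, hl⟩ i
    rcases List.eq_nil_or_concat' l with rfl | ⟨k, e, rfl⟩
    · exact (le_max_left _ _).trans (hK _)
    · simp only [wt_concat]
      split_ifs
      · exact (le_max_right _ _).trans (hK _)
      · exact (le_max_left _ _).trans (hK _)
  · rintro ⟨l, hl⟩ i
    show wt m (mvl i l) (r i) * wt m l i = 1
    rcases List.eq_nil_or_concat' l with rfl | ⟨k, e, rfl⟩
    · have := wt_concat m [] (false, i) (r i)
      rw [mvl_nil, wt_nil, ← List.nil_append [(false, i)], this, if_pos rfl]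
      exact inv_mul_cancel₀ (hm _).ne'
    · rw [mvl_concat, wt_concat]
      split_ifs with h
      · rw [h, r_r, wt_child m hl]
        exact mul_inv_cancel₀ (hm _).ne'
      · rw [wt_concat, if_pos rfl]
        exact inv_mul_cancel₀ (hm _).ne'
  · rintro ⟨l, hl⟩
    rcases List.eq_nil_or_concat' l with rfl | ⟨k, e, rfl⟩
    · simpa [wt_nil, bb] using h0
    · simp only [wt_concat, ty_concat]
      exact h1 e

lemma aux {X C L P : ℝ} (hX : X ≠ 0) (hC : C ≠ 0) (h1 : L * X = 1 + X ^ 2 + P) (h2 : C * P = X) :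
    X⁻¹ + X + C⁻¹ = L := by
  field_simp
  linear_combination (-C) * h1 - h2

lemma side {lam : ℝ} (hl : lam ∉ spectrum ℝ H) :
    ∃ η : ℝ, (η = 1 ∨ η = -1) ∧ ∀ μ ∈ spectrum ℝ H, η * μ ≤ η * lam := by
  obtain ⟨a, c, x, P, y, Q, h1, h2, h3, h4, k1, k2, k3, k4, h⟩ := numbers hl
  obtain ⟨η, hη, ha⟩ : ∃ η : ℝ, (η = 1 ∨ η = -1) ∧ 0 < η * a := by
    rcases lt_trichotomy a 0 with h0 | h0 | h0
    · exact ⟨-1, Or.inr rfl, by linarith⟩
    · rw [h0] at h; linarith
    · exact ⟨1, Or.inl rfl, by linarith⟩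
  have η2 : η * η = 1 := by rcases hη with rfl | rfl <;> norm_num
  have hc : 0 < η * c := by
    have : 0 < (η * a) * (η * c) := by
      rw [mul_mul_mul_comm, η2]; linarith
    exact (pos_iff_pos_of_mul_pos this).1 ha
  have hP : 0 < P := by
    have : P * (a * c - 1) = 1 - x ^ 2 := by rw [h3] at h1; linear_combination h1 + a * h2
    exact (pos_iff_pos_of_mul_pos (a := P) (b := a * c - 1) (by linarith)).2 (by linarith)
  have hQ : 0 < Q := by
    have : Q * (a * c - 1) = 1 - y ^ 2 := by rw [k3] at k1; linear_combination k1 + c * k2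
    exact (pos_iff_pos_of_mul_pos (a := Q) (b := a * c - 1) (by linarith)).2 (by linarith)
  have hx : 0 < η * x := by rw [← h2, ← mul_assoc]; positivity
  have hy : 0 < η * y := by rw [← k2, ← mul_assoc]; positivity
  have ex : (η * x)⁻¹ + η * x + (η * c)⁻¹ = η * lam :=
    aux (P := P) hx.ne' hc.ne' (by linear_combination h1 + (lam * x - x ^ 2) * η2)
      (by linear_combination η * h2)
  have ey : (η * y)⁻¹ + η * y + (η * a)⁻¹ = η * (lam - 1) :=
    aux (P := Q) hy.ne' ha.ne' (by linear_combination k1 + ((lam - 1) * y - y ^ 2) * η2)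
      (by linear_combination η * k2)
  have ix : η * x ≤ (η * x)⁻¹ := by
    rw [← one_div, le_div_iff₀ hx, mul_mul_mul_comm, η2]
    linarith
  refine ⟨η, hη, bound_of η lam hη (fun d => if d.1 then ![η * y, η * y, (η * a)⁻¹] d.2
    else ![η * x, η * x, (η * c)⁻¹] d.2) ?_ ?_ ?_⟩
  · rintro ⟨b, i⟩
    cases b <;> fin_cases i
    exacts [hx, hx, inv_pos.2 hc, hy, hy, inv_pos.2 ha]
  · simp [Fin.sum_univ_three]
    rw [mul_inv_rev] at ex ix
    rw [mul_inv_rev] at ex
    linarith
  · rintro ⟨b, i⟩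
    rw [mul_inv_rev, mul_inv_rev] at ex ey
    cases b <;> fin_cases i <;> simp [Fin.sum_univ_three, r, tgt, bb]
    · linarith
    · linarith
    · rw [k3]; linarith
    · linarith
    · linarith
    · rw [h3]; linarith

lemma spec_real {A : Type} [CStarAlgebra A] {a : A} (ha : IsSelfAdjoint a) :
    spectrum ℂ a = ((↑) : ℝ → ℂ) '' spectrum ℝ a := by
  ext z
  constructor
  · intro hz
    have h := ha.mem_spectrum_eq_re hz
    refine ⟨z.re, ?_, h.symm⟩
    rw [← spectrum.algebraMap_mem_iff ℂ]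
    rw [h] at hz
    exact hz
  · rintro ⟨t, ht, rfl⟩
    exact (spectrum.algebraMap_mem_iff ℂ).2 ht

theorem preconn : IsPreconnected (spectrum ℂ H) := by
  have h1 : spectrum ℂ H = ((↑) : ℝ → ℂ) '' spectrum ℝ H := spec_real H_sa
  rw [h1]
  refine IsPreconnected.image ?_ _ Complex.continuous_ofReal.continuousOn
  apply Set.OrdConnected.isPreconnected
  refine ⟨fun a ha b hb t ht => ?_⟩
  by_contra hcon
  obtain ⟨η, hη, h⟩ := side hcon
  rcases hη with rfl | rfl
  · have := h b hb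
    have : t = b := by linarith [ht.2]
    exact hcon (this ▸ hb)
  · have := h a ha
    have : t = a := by linarith [ht.1]
    exact hcon (this ▸ ha)

end Pool.Agent.H33.Borg
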