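import Mathlib

set_option autoImplicit false

namespace Pool.Agent.H33.Bun

open AlgebraicGeometry CategoryTheory CategoryTheory.Limits

lemma pow_dvd {A : Type} [CommRing A] [IsDomain A] {x y : A} (hx : x ≠ 0)
    (h : ∀ f, x ∣ y * f → x ∣ f) (m n : ℕ) (f : A) (hf : x ^ n ∣ y ^ m * f) : x ^ n ∣ f := by
  have h1 : ∀ (m : ℕ) f, x ∣ y ^ m * f → x ∣ f := by
    intro m
    induction m with
    | zero => simp
    | succ m ih => intro f hf; rw [pow_succ', mul_assoc] at hf; exact ih f (h _ hf)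
  induction n generalizing f with
  | zero => simp
  | succ n ih =>
    obtain ⟨g, rfl⟩ := h1 m f ((dvd_pow_self x n.succ_ne_zero).trans hf)
    rw [pow_succ', mul_left_comm, mul_dvd_mul_iff_left hx] at hf
    rw [pow_succ']
    exact mul_dvd_mul_left _ (ih g hf)

lemma hart0 {A G G1 G2 G3 : Type} [CommRing A] [IsDomain A] [CommRing G] [CommRing G1]
    [CommRing G2] [CommRing G3] [Algebra A G] [Algebra A G1] [Algebra A G2] [Algebra A G3]
    {x y : A} (hx : x ≠ 0) (hy : y ≠ 0) (h : ∀ f, x ∣ y * f → x ∣ f)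
    [IsLocalization.Away x G1] [IsLocalization.Away y G2] [IsLocalization.Away (x * y) G3]
    (r1 : G →+* G1) (r2 : G →+* G2) (s1 : G1 →+* G3) (s2 : G2 →+* G3)
    (a1 : ∀ a, r1 (algebraMap A G a) = algebraMap A G1 a)
    (b1 : ∀ a, s1 (algebraMap A G1 a) = algebraMap A G3 a)
    (b2 : ∀ a, s2 (algebraMap A G2 a) = algebraMap A G3 a)
    (c : ∀ g, s1 (r1 g) = s2 (r2 g)) (hi : Function.Injective r1) :
    Function.Bijective (algebraMap A G) := by
  have i1 : Function.Injective (algebraMap A G1) :=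
    IsLocalization.injective _ (powers_le_nonZeroDivisors_of_noZeroDivisors hx)
  have i3 : Function.Injective (algebraMap A G3) :=
    IsLocalization.injective _ (powers_le_nonZeroDivisors_of_noZeroDivisors (mul_ne_zero hx hy))
  constructor
  · intro a b hab
    apply i1
    rw [← a1, ← a1, hab]
  · intro s
    obtain ⟨n, f1, e1⟩ := IsLocalization.Away.surj x (r1 s)
    obtain ⟨m, f2, e2⟩ := IsLocalization.Away.surj y (r2 s)
    have e3 := congrArg s1 e1
    have e4 := congrArg s2 e2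
    rw [map_mul, map_pow, b1, b1] at e3
    rw [map_mul, map_pow, b2, b2, ← c] at e4
    have e5 : y ^ m * f1 = x ^ n * f2 := by
      apply i3
      rw [map_mul, map_mul, ← e3, ← e4, map_pow, map_pow]
      ring
    obtain ⟨f, rfl⟩ := pow_dvd hx h m n f1 ⟨f2, e5⟩
    refine ⟨f, hi ?_⟩
    rw [a1]
    rw [map_mul, map_pow, mul_comm] at e1
    exact (((IsLocalization.Away.algebraMap_isUnit x).pow n).mul_left_cancel e1).symm

lemma hartogs {A : CommRingCat.{0}} [IsDomain A] {x y : A} (hx : x ≠ 0)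
    (h : ∀ f, x ∣ y * f → x ∣ f) (W : (Spec A).Opens)
    (h1 : (PrimeSpectrum.basicOpen x : (Spec A).Opens) ≤ W)
    (h2 : (PrimeSpectrum.basicOpen y : (Spec A).Opens) ≤ W) (hy : y ≠ 0) :
    Function.Bijective (algebraMap A Γ(Spec A, W)) := by
  have res : ∀ {V V' : (Spec A).Opens} (i : V ≤ V') (a : A),
      ((Spec A).presheaf.map (homOfLE i).op).hom (algebraMap A Γ(Spec A, V') a) =
        algebraMap A Γ(Spec A, V) a := by
    intro V V' i a
    simp only [IsAffineOpen.algebraMap_Spec_obj, ← CommRingCat.comp_apply, Category.assoc,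
      ← Functor.map_comp]
    rfl
  have res2 : ∀ {V V' V'' : (Spec A).Opens} (i : V ≤ V') (j : V' ≤ V'') (a : Γ(Spec A, V'')),
      ((Spec A).presheaf.map (homOfLE i).op).hom (((Spec A).presheaf.map (homOfLE j).op).hom a) =
        ((Spec A).presheaf.map (homOfLE (i.trans j)).op).hom a := by
    intro V V' V'' i j a
    simp only [← CommRingCat.comp_apply, ← Functor.map_comp]
    rfl
  have k1 : (PrimeSpectrum.basicOpen (x * y) : (Spec A).Opens) ≤ PrimeSpectrum.basicOpen x :=
    PrimeSpectrum.basicOpen_mul_le_left x y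
  have k2 : (PrimeSpectrum.basicOpen (x * y) : (Spec A).Opens) ≤ PrimeSpectrum.basicOpen y :=
    PrimeSpectrum.basicOpen_mul_le_right x y
  have : Nonempty (Scheme.Opens.toScheme (X := Spec A) (PrimeSpectrum.basicOpen x)) :=
    ⟨⟨⟨⊥, Ideal.isPrime_bot⟩, hx⟩⟩
  exact hart0 (G1 := Γ(Spec A, PrimeSpectrum.basicOpen x))
    (G2 := Γ(Spec A, PrimeSpectrum.basicOpen y))
    (G3 := Γ(Spec A, PrimeSpectrum.basicOpen (x * y))) hx hy h
    ((Spec A).presheaf.map (homOfLE h1).op).hom ((Spec A).presheaf.map (homOfLE h2).op).hom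
    ((Spec A).presheaf.map (homOfLE k1).op).hom ((Spec A).presheaf.map (homOfLE k2).op).hom
    (res h1) (res k1) (res k2)
    (fun g => (res2 k1 h1 g).trans (res2 k2 h2 g).symm)
    (map_injective_of_isIntegral (Spec A) (homOfLE h1))

noncomputable def sh {X : Scheme.{0}} {R : CommRingCat.{0}} (g : X ⟶ Spec R) : R ⟶ Γ(X, ⊤) :=
  (Scheme.ΓSpecIso R).inv ≫ g.appTop

lemma sh_comp {X Y : Scheme.{0}} {R : CommRingCat.{0}} (h : X ⟶ Y) (g : Y ⟶ Spec R) :
    sh (h ≫ g) = sh g ≫ h.appTop := by simp [sh]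

lemma sh_map {X : Scheme.{0}} {R T : CommRingCat.{0}} (g : X ⟶ Spec T) (f : R ⟶ T) :
    sh (g ≫ Spec.map f) = f ≫ sh g := by
  simp [sh, Scheme.ΓSpecIso_inv_naturality_assoc]

lemma sh_bij {A : CommRingCat.{0}} [IsDomain A] {x y : A} (hx : x ≠ 0) (hy : y ≠ 0)
    (h : ∀ f, x ∣ y * f → x ∣ f) (W : (Spec A).Opens)
    (hW : W = PrimeSpectrum.basicOpen x ⊔ PrimeSpectrum.basicOpen y) :
    Function.Bijective (sh W.ι) :=
  hartogs hx h (W.ι ''ᵁ ⊤) (by rw [Scheme.Opens.ι_image_top, hW]; exact le_sup_left)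
    (by rw [Scheme.Opens.ι_image_top, hW]; exact le_sup_right) hy

lemma not_affine {A : CommRingCat.{0}} [IsDomain A] {x y : A} (hx : x ≠ 0) (hy : y ≠ 0)
    (h : ∀ f, x ∣ y * f → x ∣ f) (W : (Spec A).Opens)
    (hW : W = PrimeSpectrum.basicOpen x ⊔ PrimeSpectrum.basicOpen y)
    (hn : ∀ a b : A, a * x + b * y ≠ 1) : ¬ IsAffine W.toScheme := by
  intro hA
  have hb := sh_bij hx hy h W hW
  have e : ∀ z : A, W.toScheme.basicOpen (sh W.ι z) = W.ι ⁻¹ᵁ PrimeSpectrum.basicOpen z := by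
    intro z
    rw [← basicOpen_eq_of_affine, Scheme.preimage_basicOpen_top]
    rfl
  have h1 := ((isAffineOpen_top W.toScheme).self_le_iSup_basicOpen_iff
    (s := {sh W.ι x, sh W.ι y})).1 (by
      intro p _
      have hp : p.1 ∈ (PrimeSpectrum.basicOpen x ⊔ PrimeSpectrum.basicOpen y : (Spec A).Opens) :=
        hW ▸ p.2
      rw [TopologicalSpace.Opens.mem_iSup]
      rcases TopologicalSpace.Opens.mem_sup.1 hp with h | h
      · exact ⟨⟨sh W.ι x, by simp⟩, by rw [e]; exact h⟩
      · exact ⟨⟨sh W.ι y, by simp⟩, by rw [e]; exact h⟩)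
  obtain ⟨a, b, hab⟩ := Ideal.mem_span_pair.1 ((Ideal.eq_top_iff_one _).1 h1)
  obtain ⟨a, rfl⟩ := hb.2 a
  obtain ⟨b, rfl⟩ := hb.2 b
  apply hn a b
  apply hb.1
  simpa using hab

attribute [local instance] MvPolynomial.algebraMvPolynomial in
lemma pb_poly (R : Type) [CommRing R] [Algebra ℂ R] (n : ℕ) :
    IsPullback (Spec.map (CommRingCat.ofHom (algebraMap R (MvPolynomial (Fin n) R))))
      (Spec.map (CommRingCat.ofHom (MvPolynomial.map (σ := Fin n) (algebraMap ℂ R))))
      (Spec.map (CommRingCat.ofHom (algebraMap ℂ R)))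
      (Spec.map (CommRingCat.ofHom (algebraMap ℂ (MvPolynomial (Fin n) ℂ)))) :=
  isPullback_SpecMap_of_isPushout _ _ _ _
    (CommRingCat.isPushout_of_isPushout ℂ R (MvPolynomial (Fin n) ℂ) (MvPolynomial (Fin n) R))

lemma loc_triv {S A : Type} [CommRing S] [CommRing A] [Algebra ℂ S] (f : S →+* A) (s : S) (n : ℕ)
    [Algebra A (MvPolynomial (Fin n) (Localization.Away s))]
    (H : (MvPolynomial.C : Localization.Away s →+* _).comp (algebraMap S _) =
      (algebraMap A (MvPolynomial (Fin n) (Localization.Away s))).comp f)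
    [IsLocalization.Away (f s) (MvPolynomial (Fin n) (Localization.Away s))]
    (U : (Spec (CommRingCat.of S)).Opens) (hU : PrimeSpectrum.basicOpen s ≤ U)
    (V : U.toScheme.Opens) (hV : V = U.ι ⁻¹ᵁ PrimeSpectrum.basicOpen s) :
    ∃ e : ((Spec.map (CommRingCat.ofHom f) ∣_ U) ⁻¹ᵁ V).toScheme ≅
      pullback (V.ι ≫ U.ι ≫ Spec.map (CommRingCat.ofHom (algebraMap ℂ S)))
        (Spec.map (CommRingCat.ofHom (algebraMap ℂ (MvPolynomial (Fin n) ℂ)))),
      e.hom ≫ pullback.fst _ _ = (Spec.map (CommRingCat.ofHom f) ∣_ U) ∣_ V := by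
  have P1 := (isPullback_morphismRestrict (Spec.map (CommRingCat.ofHom f) ∣_ U) V).paste_vert
    (isPullback_morphismRestrict (Spec.map (CommRingCat.ofHom f)) U)
  have : IsLocalization ((Submonoid.powers s).map f)
      (MvPolynomial (Fin n) (Localization.Away s)) := by
    rw [Submonoid.map_powers]; infer_instance
  have P2 := (isPullback_SpecMap_of_isPushout _ _ _ _
    (CommRingCat.isPushout_of_isLocalization f MvPolynomial.C H (Submonoid.powers s))).flip
  let κ : V.toScheme ≅ Spec (CommRingCat.of (Localization.Away s)) :=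
    IsOpenImmersion.isoOfRangeEq (V.ι ≫ U.ι)
      (Spec.map (CommRingCat.ofHom (algebraMap S (Localization.Away s)))) (by
        have h1 := PrimeSpectrum.localization_away_comap_range (Localization.Away s) s
        refine Eq.trans ?_ h1.symm
        rw [Scheme.Hom.comp_base, TopCat.coe_comp, Set.range_comp, Scheme.Opens.range_ι, hV]
        ext p
        constructor
        · rintro ⟨q, hq, rfl⟩
          exact hq
        · intro hp
          exact ⟨⟨p, hU hp⟩, hp, rfl⟩)
  have hκ : κ.hom ≫ Spec.map (CommRingCat.ofHom (algebraMap S (Localization.Away s))) =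
      V.ι ≫ U.ι := IsOpenImmersion.isoOfRangeEq_hom_fac _ _ _
  have P2' := P2.of_iso (Iso.refl _) κ.symm (Iso.refl _) (Iso.refl _)
    (fst' := Spec.map (CommRingCat.ofHom MvPolynomial.C) ≫ κ.inv) (f' := V.ι ≫ U.ι)
    (by simp) (Category.comp_id _ |>.trans (Category.id_comp _).symm) (by simp [← hκ])
    (Category.comp_id _ |>.trans (Category.id_comp _).symm)
  have P3 := (pb_poly (Localization.Away s) n).of_iso (Iso.refl _) κ.symm (Iso.refl _) (Iso.refl _)
    (fst' := Spec.map (CommRingCat.ofHom MvPolynomial.C) ≫ κ.inv)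
    (f' := V.ι ≫ U.ι ≫ Spec.map (CommRingCat.ofHom (algebraMap ℂ S)))
    (by simp) (Category.comp_id _ |>.trans (Category.id_comp _).symm)
    (by
      rw [← Category.assoc V.ι, ← hκ]
      simp only [Iso.refl_hom, Category.comp_id, Iso.symm_hom, Category.assoc,
        Iso.inv_hom_id_assoc, ← Spec.map_comp, ← CommRingCat.ofHom_comp,
        ← IsScalarTower.algebraMap_eq])
    (Category.comp_id _ |>.trans (Category.id_comp _).symm)
  refine ⟨P1.isoIsPullback _ _ P2' ≪≫ P3.isoPullback, ?_⟩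
  rw [Iso.trans_hom, Category.assoc, P3.isoPullback_hom_fst, P1.isoIsPullback_hom_fst]

lemma triv_iso {S A : Type} [CommRing S] [CommRing A] [Algebra ℂ S] (f : S →+* A) (n : ℕ)
    (U : (Spec (CommRingCat.of S)).Opens)
    (h1 : Function.Bijective (sh (Spec.map (CommRingCat.ofHom f) ⁻¹ᵁ U).ι))
    (h2 : Function.Bijective (sh (Spec.map (CommRingCat.ofHom
      (algebraMap S (MvPolynomial (Fin n) S))) ⁻¹ᵁ U).ι))
    (e : (Spec.map (CommRingCat.ofHom f) ⁻¹ᵁ U).toScheme ≅
      pullback (U.ι ≫ Spec.map (CommRingCat.ofHom (algebraMap ℂ S)))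
        (Spec.map (CommRingCat.ofHom (algebraMap ℂ (MvPolynomial (Fin n) ℂ)))))
    (he : e.hom ≫ pullback.fst _ _ = Spec.map (CommRingCat.ofHom f) ∣_ U) :
    ∃ θ : MvPolynomial (Fin n) S ≃+* A, ∀ s, θ (MvPolynomial.C s) = f s := by
  have P := (isPullback_morphismRestrict (Spec.map (CommRingCat.ofHom
    (algebraMap S (MvPolynomial (Fin n) S)))) U).paste_vert (pb_poly S n)
  let e' := e ≪≫ P.isoPullback.symm
  have h3 : e'.hom ≫ Spec.map (CommRingCat.ofHom (algebraMap S (MvPolynomial (Fin n) S))) ∣_ U =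
      Spec.map (CommRingCat.ofHom f) ∣_ U := by
    rw [Iso.trans_hom, Category.assoc, Iso.symm_hom, P.isoPullback_inv_fst, he]
  have h4 := congrArg (fun g => sh (g ≫ U.ι)) h3
  simp only [Category.assoc, morphismRestrict_ι] at h4
  rw [sh_comp, sh_map, sh_map] at h4
  have : IsIso e'.hom.appTop := inferInstanceAs (IsIso (e'.hom.app ⊤))
  have h5 : Function.Bijective e'.hom.appTop := ConcreteCategory.bijective_of_isIso _
  refine ⟨((RingEquiv.ofBijective _ h2).trans (RingEquiv.ofBijective _ h5)).trans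
    (RingEquiv.ofBijective _ h1).symm, fun s => ?_⟩
  rw [RingEquiv.trans_apply, RingEquiv.symm_apply_eq]
  exact congrArg (fun g : CommRingCat.of S ⟶ _ => g.hom s) h4

end Pool.Agent.H33.Bun
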