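import Mathlib
import Pool.Agent.H33.Bun1

set_option autoImplicit false

namespace Pool.Agent.H33.Bun

open MvPolynomial

abbrev S := MvPolynomial (Fin 2) ℂ
abbrev P := MvPolynomial (Fin 5) ℂ
noncomputable def F : P := X 0 * X 3 - X 1 * X 4 - X 2 ^ 2
abbrev A := P ⧸ Ideal.span {F}
noncomputable def mk : P →ₐ[ℂ] A := Ideal.Quotient.mkₐ ℂ _
noncomputable def f : S →+* A := (aeval ![mk (X 0), mk (X 1)] : S →ₐ[ℂ] A).toRingHom

lemma f0 : f (X 0) = mk (X 0) := by simp [f]
lemma f1 : f (X 1) = mk (X 1) := by simp [f]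
lemma fC (c : ℂ) : f (C c) = algebraMap ℂ A c := by simp [f]
lemma mk_surj : Function.Surjective mk := Ideal.Quotient.mkₐ_surjective ℂ _
lemma mk_eq_zero (q : P) : mk q = 0 ↔ F ∣ q := by
  rw [← Ideal.mem_span_singleton]; exact Ideal.Quotient.eq_zero_iff_mem
lemma rel : mk (X 0) * mk (X 3) - mk (X 1) * mk (X 4) - mk (X 2) ^ 2 = 0 := by
  simpa [F] using (mk_eq_zero F).2 dvd_rfl

noncomputable def liftA {B : Type} [CommRing B] [Algebra ℂ B] (v : Fin 5 → B)
    (h : v 0 * v 3 - v 1 * v 4 - v 2 ^ 2 = 0) : A →ₐ[ℂ] B :=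
  Ideal.Quotient.liftₐ _ (aeval v) (by
    intro a ha
    obtain ⟨b, rfl⟩ := Ideal.mem_span_singleton.1 ha
    have : aeval v F = 0 := by simpa [F] using h
    rw [map_mul, this, zero_mul])

lemma liftA_X {B : Type} [CommRing B] [Algebra ℂ B] (v : Fin 5 → B)
    (h : v 0 * v 3 - v 1 * v 4 - v 2 ^ 2 = 0) (i : Fin 5) : liftA v h (mk (X i)) = v i :=
  aeval_X v i

lemma irr (i j : Fin 5) (g : P) (hij : j ≠ i) (hg : j ∉ g.vars) (v : Fin 5 → ℂ) (h1 : v i = 0)
    (h2 : eval v g ≠ 0) : Prime (X i * X j + g) := by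
  apply Irreducible.prime
  apply irreducible_mul_X_add
  · exact X_ne_zero _
  · simpa using hij
  · exact hg
  · rw [(X_prime (i := i) (R := ℂ)).irreducible.isRelPrime_iff_not_dvd]
    rintro ⟨q, hq⟩
    apply h2
    rw [hq]; simp [h1]

lemma prime_F : Prime F := by
  have h : F = X 0 * X 3 + (- (X 1 * X 4) - X 2 ^ 2) := by rw [F]; ring
  rw [h]
  refine irr 0 3 _ (by decide) (fun hv => ?_) ![0, 0, 1, 0, 0] rfl (by simp)
  rcases Finset.mem_union.1 (vars_sub_subset _ hv) with h1 | h1
  · rw [vars_neg] at h1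
    simpa using vars_mul _ _ h1
  · simpa using vars_pow _ _ h1

lemma prime_G : Prime (X 1 * X 4 + X 2 ^ 2 : P) :=
  irr 1 4 _ (by decide) (fun hv => by simpa using vars_pow _ _ hv) ![0, 0, 1, 0, 0] rfl (by simp)

instance : IsDomain A := by
  rw [Ideal.Quotient.isDomain_iff_prime, Ideal.span_singleton_prime prime_F.ne_zero]
  exact prime_F

lemma x_ne : f (X 0) ≠ 0 := by
  intro h
  have := congrArg (liftA (B := ℂ) ![1, 0, 0, 0, 0] (by simp)) h
  rw [f0, liftA_X] at this
  simp at this

lemma y_ne : f (X 1) ≠ 0 := by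
  intro h
  have := congrArg (liftA (B := ℂ) ![0, 1, 0, 0, 0] (by simp)) h
  rw [f1, liftA_X] at this
  simp at this

lemma no_unit (a b : A) : a * f (X 0) + b * f (X 1) ≠ 1 := by
  intro h
  have := congrArg (liftA (B := ℂ) ![0, 0, 0, 0, 0] (by simp)) h
  rw [f0, f1, map_add, map_mul, map_mul, liftA_X, liftA_X] at this
  simp at this

lemma reg (g : A) (h : f (X 0) ∣ f (X 1) * g) : f (X 0) ∣ g := by
  obtain ⟨q, rfl⟩ := mk_surj g
  obtain ⟨r, hr⟩ := h
  obtain ⟨r, rfl⟩ := mk_surj r
  rw [f0] at hr ⊢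
  rw [f1, ← sub_eq_zero, ← map_mul, ← map_mul, ← map_sub, mk_eq_zero] at hr
  let π : P →ₐ[ℂ] P := aeval ![0, X 1, X 2, X 3, X 4]
  have h1 : ∀ q : P, X 0 ∣ q - π q := by
    intro q
    induction q using MvPolynomial.induction_on with
    | C c => simp [π]
    | add p q hp hq =>
      have := dvd_add hp hq
      rw [map_add]
      convert this using 1
      ring
    | mul_X p k hp =>
      have h2 : X 0 ∣ X k - π (X k) := by fin_cases k <;> simp [π]
      have := dvd_add (hp.mul_right (X k)) (h2.mul_left (π p))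
      rw [map_mul]
      convert this using 1
      ring
  have h2 := map_dvd π hr
  have h3 : π F = -(X 1 * X 4 + X 2 ^ 2) := by simp [π, F]; ring
  have h4 : π (X 1 * q - X 0 * r) = X 1 * π q := by simp [π]
  rw [h3, h4, neg_dvd] at h2
  rcases prime_G.dvd_or_dvd h2 with ⟨w, hw⟩ | ⟨w, hw⟩
  · have := congrArg (eval ![0, 1, 0, 0, 0]) hw
    simp at this
  · obtain ⟨z, hz⟩ := h1 q
    refine ⟨mk (z + X 3 * w), ?_⟩
    have : q = X 0 * z + (X 1 * X 4 + X 2 ^ 2) * w := by rw [← hz, ← hw]; ring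
    rw [this]
    simp only [map_add, map_mul, map_pow]
    linear_combination (-mk w) * rel

lemma reg' (g : MvPolynomial (Fin 2) S) (h : C (X 0) ∣ C (X 1) * g) : C (X 0) ∣ g := by
  have hp : Prime (C (X 0) : MvPolynomial (Fin 2) S) := (prime_C_iff _).2 X_prime
  refine (hp.dvd_or_dvd h).resolve_left fun h1 => ?_
  simpa using map_dvd (constantCoeff : MvPolynomial (Fin 2) S →+* S) h1

lemma no_iso (θ : MvPolynomial (Fin 2) S ≃+* A) (h : ∀ s, θ (C s) = f s) : False := by
  let μ : A →ₐ[ℂ] DualNumber ℂ := liftA ![0, 0, DualNumber.eps, 0, 0] (by simp [sq])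
  let ε : MvPolynomial (Fin 2) S →+* MvPolynomial (Fin 2) ℂ := map constantCoeff
  let ν : MvPolynomial (Fin 2) ℂ →+* DualNumber ℂ :=
    eval₂Hom (algebraMap ℂ _) fun i => μ (θ (X i))
  have h1 : (μ : A →+* _).comp θ.toRingHom = ν.comp ε := by
    apply MvPolynomial.ringHom_ext'
    · apply MvPolynomial.ringHom_ext
      · intro c
        simp [h, fC, ν, ε]
      · intro i
        fin_cases i <;> simp [h, f0, f1, ν, ε, μ, liftA_X]
    · intro i
      simp [ν, ε]
  have h2 : ε (θ.symm (mk (X 2))) ^ 2 = 0 := by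
    have e0 : θ.symm (mk (X 0)) = C (X 0) := by rw [← f0, ← h, θ.symm_apply_apply]
    have e1 : θ.symm (mk (X 1)) = C (X 1) := by rw [← f1, ← h, θ.symm_apply_apply]
    have := congrArg (fun a => ε (θ.symm a)) rel
    simpa [e0, e1, ε] using this
  have h3 := RingHom.congr_fun h1 (θ.symm (mk (X 2)))
  simp only [RingHom.comp_apply, pow_eq_zero_iff two_ne_zero |>.1 h2, map_zero] at h3
  have h4 : μ (mk (X 2)) = 0 := by simpa using h3
  rw [liftA_X] at h4
  have := congrArg TrivSqZeroExt.snd h4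
  simp at this

lemma isLoc (s : S) (φ : A →ₐ[ℂ] MvPolynomial (Fin 2) (Localization.Away s))
    (hφ : ∀ i, φ (f (X i)) = C (algebraMap S _ (X i))) (g : Fin 2 → A) (hg : ∀ i, φ (g i) = X i)
    (hψ : ∀ ψ : MvPolynomial (Fin 2) (Localization.Away s) →+* Localization.Away (f s),
      (∀ a, ψ (C (algebraMap S _ a)) = algebraMap A _ (f a)) →
      (∀ i, ψ (X i) = algebraMap A _ (g i)) → ∀ i, ψ (φ (mk (X i))) = algebraMap A _ (mk (X i))) :
    (C : Localization.Away s →+* _).comp (algebraMap S _) = φ.toRingHom.comp f ∧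
    @IsLocalization.Away _ _ (f s) _ _ φ.toRingHom.toAlgebra := by
  have H : (C : Localization.Away s →+* _).comp (algebraMap S _) = φ.toRingHom.comp f := by
    apply MvPolynomial.ringHom_ext
    · intro c
      simp only [RingHom.comp_apply, fC, AlgHom.toRingHom_eq_coe, RingHom.coe_coe, AlgHom.commutes]
      rfl
    · intro i
      exact (hφ i).symm
  have H' : ∀ a, φ (f a) = C (algebraMap S _ a) := fun a => (RingHom.congr_fun H a).symm
  refine ⟨H, ?_⟩
  letI := φ.toRingHom.toAlgebra
  have ha : ∀ a, algebraMap A (MvPolynomial (Fin 2) (Localization.Away s)) a = φ a := fun _ => rfl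
  refine IsLocalization.Away.mk _ ?_ ?_ ?_
  · rw [ha, H']
    exact (IsLocalization.Away.algebraMap_isUnit s).map _
  · intro b
    simp only [ha]
    induction b using MvPolynomial.induction_on with
    | C c =>
      obtain ⟨n, a, h⟩ := IsLocalization.Away.surj s c
      exact ⟨n, f a, by rw [H', H', ← h]; simp⟩
    | add p q hp hq =>
      obtain ⟨n, a, h⟩ := hp
      obtain ⟨m, b, h'⟩ := hq
      refine ⟨n + m, a * f s ^ m + b * f s ^ n, ?_⟩
      rw [map_add, map_mul, map_mul, map_pow, map_pow, ← h, ← h']; ring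
    | mul_X p k hp =>
      obtain ⟨n, a, h⟩ := hp
      exact ⟨n, a * g k, by rw [map_mul, ← h, hg]; ring⟩
  · intro a b hab
    let ψ : MvPolynomial (Fin 2) (Localization.Away s) →+* Localization.Away (f s) :=
      eval₂Hom (IsLocalization.Away.map _ _ f s) fun i => algebraMap A _ (g i)
    have p1 : ∀ a, ψ (C (algebraMap S _ a)) = algebraMap A _ (f a) := by
      intro a
      simp [ψ, IsLocalization.Away.map]
    have h1 := hψ ψ p1 (fun i => by simp [ψ])
    have h2 : ∀ a, ψ (φ a) = algebraMap A _ a := by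
      intro a
      obtain ⟨q, rfl⟩ := mk_surj a
      induction q using MvPolynomial.induction_on with
      | C c =>
        have : mk (C c) = f (C c) := by rw [fC]; exact mk.commutes c
        rw [this, H', p1]
      | add p q hp hq => simp only [map_add, hp, hq]
      | mul_X p k hp => simp only [map_mul, hp, h1]
    apply IsLocalization.Away.exists_of_eq (S := Localization.Away (f s))
    rw [← h2, ← h2, ← ha, ← ha, hab]

lemma chart0 : ∃ φ : A →+* MvPolynomial (Fin 2) (Localization.Away (X 0 : S)),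
    (C : Localization.Away (X 0 : S) →+* _).comp (algebraMap S _) = φ.comp f ∧
    @IsLocalization.Away _ _ (f (X 0)) _ _ φ.toAlgebra := by
  obtain ⟨w, hw⟩ := (IsLocalization.Away.algebraMap_isUnit
    (S := Localization.Away (X 0 : S)) (X 0 : S)).exists_right_inv
  have hw' : (C (algebraMap S _ (X 0)) * C w : MvPolynomial (Fin 2) (Localization.Away (X 0 : S)))
      = 1 := by rw [← map_mul, hw, map_one]
  refine ⟨_, isLoc (X 0) (liftA ![C (algebraMap S _ (X 0)), C (algebraMap S _ (X 1)), X 0,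
    C w * (C (algebraMap S _ (X 1)) * X 1 + X 0 ^ 2), X 1] (by
      simp only [Matrix.cons_val_zero, Matrix.cons_val_one, Matrix.cons_val]
      linear_combination (C (algebraMap S _ (X 1)) * X 1 + X 0 ^ 2) * hw')) ?_
    ![mk (X 2), mk (X 4)] ?_ ?_⟩
  · intro i
    fin_cases i
    · exact (congrArg _ f0).trans (liftA_X _ _ 0)
    · exact (congrArg _ f1).trans (liftA_X _ _ 1)
  · intro i
    fin_cases i
    · exact liftA_X _ _ 2
    · exact liftA_X _ _ 4
  · intro ψ h1 h2 i
    rw [liftA_X]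
    fin_cases i
    · exact (h1 _).trans (congrArg _ f0)
    · exact (h1 _).trans (congrArg _ f1)
    · exact h2 0
    · have e1 := congrArg ψ hw'
      have e2 := congrArg (algebraMap A (Localization.Away (f (X 0)))) rel
      simp only [map_mul, map_one, h1, f0, map_sub, map_pow, map_zero] at e1 e2
      simp only [Fin.reduceFinMk, Matrix.cons_val, map_mul, map_add, map_pow, h1, h2, f1,
        Matrix.cons_val_zero, Matrix.cons_val_one]
      linear_combination (algebraMap A (Localization.Away (f (X 0))) (mk (X 3))) * e1 -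
        ψ (C w) * e2
    · exact h2 1

lemma chart1 : ∃ φ : A →+* MvPolynomial (Fin 2) (Localization.Away (X 1 : S)),
    (C : Localization.Away (X 1 : S) →+* _).comp (algebraMap S _) = φ.comp f ∧
    @IsLocalization.Away _ _ (f (X 1)) _ _ φ.toAlgebra := by
  obtain ⟨w, hw⟩ := (IsLocalization.Away.algebraMap_isUnit
    (S := Localization.Away (X 1 : S)) (X 1 : S)).exists_right_inv
  have hw' : (C (algebraMap S _ (X 1)) * C w : MvPolynomial (Fin 2) (Localization.Away (X 1 : S)))
      = 1 := by rw [← map_mul, hw, map_one]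
  refine ⟨_, isLoc (X 1) (liftA ![C (algebraMap S _ (X 0)), C (algebraMap S _ (X 1)), X 0, X 1,
    C w * (C (algebraMap S _ (X 0)) * X 1 - X 0 ^ 2)] (by
      simp only [Matrix.cons_val_zero, Matrix.cons_val_one, Matrix.cons_val]
      linear_combination (-(C (algebraMap S _ (X 0)) * X 1 - X 0 ^ 2)) * hw')) ?_
    ![mk (X 2), mk (X 3)] ?_ ?_⟩
  · intro i
    fin_cases i
    · exact (congrArg _ f0).trans (liftA_X _ _ 0)
    · exact (congrArg _ f1).trans (liftA_X _ _ 1)
  · intro i
    fin_cases i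
    · exact liftA_X _ _ 2
    · exact liftA_X _ _ 3
  · intro ψ h1 h2 i
    rw [liftA_X]
    fin_cases i
    · exact (h1 _).trans (congrArg _ f0)
    · exact (h1 _).trans (congrArg _ f1)
    · exact h2 0
    · exact h2 1
    · have e1 := congrArg ψ hw'
      have e2 := congrArg (algebraMap A (Localization.Away (f (X 1)))) rel
      simp only [map_mul, map_one, h1, f1, map_sub, map_pow, map_zero] at e1 e2
      simp only [Fin.reduceFinMk, Matrix.cons_val, map_mul, map_sub, map_pow, h1, h2, f0,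
        Matrix.cons_val_zero, Matrix.cons_val_one]
      linear_combination (algebraMap A (Localization.Away (f (X 1))) (mk (X 4))) * e1 +
        ψ (C w) * e2

end Pool.Agent.H33.Bun
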