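import Mathlib

set_option autoImplicit false

namespace Pool.Agent.H33.CB

open Matrix MeasureTheory Filter Topology

variable {n κ : Type} [Fintype n] [DecidableEq n] [Fintype κ] [DecidableEq κ]

/-- Cauchy-Binet with a diagonal weight. -/
lemma cb (W : Matrix n κ ℂ) (d : n → ℂ) :
    ∑ f : κ → n, (∏ s, d (f s)) * (star (W.submatrix f id).det * (W.submatrix f id).det) =
      (Fintype.card κ).factorial * (Wᴴ * diagonal d * W).det := by
  let sg : Equiv.Perm κ → ℂ := fun π => ((Equiv.Perm.sign π : ℤ) : ℂ)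
  have e : ∀ f : κ → n, (W.submatrix f id).det = ∑ π : Equiv.Perm κ, sg π * ∏ s, W (f s) (π s) := by
    intro f; rw [← det_transpose]; simp [Matrix.det_apply, sg, Units.smul_def]
  have e2 : ∀ f : κ → n, star (W.submatrix f id).det =
      ∑ π : Equiv.Perm κ, sg π * ∏ s, star (W (f s) (π s)) := by
    intro f; simp [e, sg]
  have g : ∀ a b, (Wᴴ * diagonal d * W) a b = ∑ i, d i * (star (W i a) * W i b) := by
    intro a b
    rw [Matrix.mul_apply]
    simp only [Matrix.mul_diagonal, conjTranspose_apply]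
    exact Finset.sum_congr rfl fun i _ => by ring
  have h : ∀ π : Equiv.Perm κ, ∑ τ : Equiv.Perm κ,
      sg π * sg τ * ∏ s, (Wᴴ * diagonal d * W) (π s) (τ s) = (Wᴴ * diagonal d * W).det := by
    intro π
    have := det_permute π (Wᴴ * diagonal d * W)
    rw [← det_transpose, Matrix.det_apply] at this
    simp only [Units.smul_def, zsmul_eq_mul, transpose_apply, submatrix_apply, id] at this
    simp only [mul_assoc (sg π), ← Finset.mul_sum, sg, this]
    rcases Int.units_eq_one_or (Equiv.Perm.sign π) with h | h <;> simp [h]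
  rw [← Fintype.card_perm, ← nsmul_eq_mul, ← Finset.card_univ, ← Finset.sum_const,
    ← Finset.sum_congr rfl fun π _ => h π]
  simp only [e2]
  simp only [e, Finset.sum_mul_sum, g]
  simp only [Finset.mul_sum, Finset.prod_univ_sum, Fintype.piFinset_univ]
  rw [Finset.sum_comm]
  apply Finset.sum_congr rfl
  intro π _
  rw [Finset.sum_comm]
  apply Finset.sum_congr rfl
  intro τ _
  apply Finset.sum_congr rfl
  intro f _
  simp only [Finset.prod_mul_distrib]
  ring

lemma cb_re (W : Matrix n κ ℂ) (d : n → ℝ) :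
    ∑ f : κ → n, (∏ s, d (f s)) * ‖(W.submatrix f id).det‖ ^ 2 =
      (Fintype.card κ).factorial * (Wᴴ * diagonal (fun i => (d i : ℂ)) * W).det.re := by
  have e := congrArg Complex.re (cb W fun i => (d i : ℂ))
  simpa only [Complex.re_sum, Complex.star_def, Complex.conj_mul', ← Complex.ofReal_pow,
    ← Complex.ofReal_prod, ← Complex.ofReal_mul, Complex.ofReal_re, ← Complex.ofReal_natCast,
    Complex.re_ofReal_mul] using e

lemma low_diag (W : Matrix n κ ℂ) (d : n → ℝ) (m : ℝ)
    (h : ∀ f : κ → n, Function.Injective f → m ≤ ∏ s, d (f s)) :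
    m * (Wᴴ * W).det.re ≤ (Wᴴ * diagonal (fun i => (d i : ℂ)) * W).det.re := by
  have e1 := cb_re W d
  have e2 := cb_re W fun _ => 1
  simp only [Complex.ofReal_one, diagonal_one, Matrix.mul_one] at e2
  have f0 : (0 : ℝ) < (Fintype.card κ).factorial := by exact_mod_cast Nat.factorial_pos _
  apply le_of_mul_le_mul_left _ f0
  rw [← e1, mul_left_comm, ← e2, Finset.mul_sum]
  apply Finset.sum_le_sum
  intro f _
  by_cases hf : Function.Injective f
  · simp only [Finset.prod_const_one, one_mul]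
    exact mul_le_mul_of_nonneg_right (h f hf) (by positivity)
  · obtain ⟨a, b, e, hab⟩ := Function.not_injective_iff.1 hf
    have : (W.submatrix f id).det = 0 := Matrix.det_zero_of_row_eq hab (by ext; simp [e])
    simp [this]

/-- Spectral data of a Hermitian matrix. -/
lemma spec {A : Matrix n n ℂ} (hA : A.IsHermitian) : ∃ U : Matrix n n ℂ, Uᴴ * U = 1 ∧ U * Uᴴ = 1 ∧
    A = U * diagonal (fun i => (hA.eigenvalues i : ℂ)) * Uᴴ ∧
    ∀ f : ℝ → ℝ, cfc f A = U * diagonal (fun i => (f (hA.eigenvalues i) : ℂ)) * Uᴴ :=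
  ⟨hA.eigenvectorUnitary, hA.eigenvectorUnitary.2.1, hA.eigenvectorUnitary.2.2,
    hA.spectral_theorem, fun f => hA.cfc_eq f⟩

lemma tr_cfc {A : Matrix n n ℂ} (hA : A.IsHermitian) (f : ℝ → ℝ) :
    (cfc f A).trace.re = ∑ i, f (hA.eigenvalues i) := by
  obtain ⟨U, h1, -, -, h⟩ := spec hA
  rw [h, Matrix.trace_mul_cycle, h1, Matrix.one_mul, trace_diagonal, Complex.re_sum]
  simp

lemma low {B : Matrix n n ℂ} (hB : B.IsHermitian) (W : Matrix n κ ℂ) (m : ℝ)
    (h : ∀ f : κ → n, Function.Injective f → m ≤ ∏ s, hB.eigenvalues (f s)) :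
    m * (Wᴴ * W).det.re ≤ (Wᴴ * B * W).det.re := by
  obtain ⟨U, -, h2, h3, -⟩ := spec hB
  have e := low_diag (Uᴴ * W) _ m h
  have a : (Uᴴ * W)ᴴ * (Uᴴ * W) = Wᴴ * W := by
    rw [conjTranspose_mul, conjTranspose_conjTranspose, Matrix.mul_assoc, ← Matrix.mul_assoc U, h2,
      Matrix.one_mul]
  have b : (Uᴴ * W)ᴴ * diagonal (fun i => (hB.eigenvalues i : ℂ)) * (Uᴴ * W) = Wᴴ * B * W := by
    conv_rhs => rw [h3]
    simp only [conjTranspose_mul, conjTranspose_conjTranspose, Matrix.mul_assoc]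
  rwa [a, b] at e

/-- exp (q y) as a mixture of hinge functions, for q < 0. -/
lemma hinge (q : ℝ) (hq : q < 0) (y : ℝ) :
    Integrable (fun s => max (s - y) 0 * (q ^ 2 * Real.exp (q * s))) ∧
      ∫ s, max (s - y) 0 * (q ^ 2 * Real.exp (q * s)) = Real.exp (q * y) := by
  have e : (fun s => max (s - y) 0 * (q ^ 2 * Real.exp (q * s))) =
      (Set.Ioi y).indicator fun s => (s - y) * (q ^ 2 * Real.exp (q * s)) := by
    funext s
    by_cases h : y < s
    · simp [h, h.le]
    · simp [h, not_lt.1 h]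
  have d : ∀ s ∈ Set.Ici y, HasDerivAt (fun s => (q * (s - y) - 1) * Real.exp (q * s))
      ((s - y) * (q ^ 2 * Real.exp (q * s))) s := by
    intro s _
    have a := ((((hasDerivAt_id s).sub_const y).const_mul q).sub_const 1).mul
      ((hasDerivAt_id s).const_mul q).exp
    refine a.congr_deriv ?_
    simp; ring
  have p : ∀ s ∈ Set.Ioi y, 0 ≤ (s - y) * (q ^ 2 * Real.exp (q * s)) := fun s hs =>
    mul_nonneg (sub_nonneg.2 (le_of_lt hs)) (by positivity)
  have t : Tendsto (fun s => (q * (s - y) - 1) * Real.exp (q * s)) atTop (𝓝 0) := by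
    have t0 : Tendsto (fun s : ℝ => -q * s) atTop atTop := tendsto_id.const_mul_atTop (by linarith)
    have t1 := (Real.tendsto_pow_mul_exp_neg_atTop_nhds_zero 1).comp t0
    have t2 := (Real.tendsto_pow_mul_exp_neg_atTop_nhds_zero 0).comp t0
    have := t1.neg.sub (t2.const_mul (q * y + 1))
    simp only [neg_zero, mul_zero, sub_zero] at this
    refine this.congr fun s => ?_
    simp; ring
  rw [e, integrable_indicator_iff measurableSet_Ioi, integral_indicator measurableSet_Ioi]
  refine ⟨integrableOn_Ioi_deriv_of_nonneg' d p t, ?_⟩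
  rw [integral_Ioi_of_hasDerivAt_of_nonneg' d p t]; simp

end Pool.Agent.H33.CB
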