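import Mathlib

set_option autoImplicit false
open Filter Topology MeasureTheory Metric Set
open scoped Pointwise

namespace Pool.Agent.H33.Elr

lemma conv3 {V : Type} [AddCommGroup V] [Module ℝ V] {K : Set V} (hc : Convex ℝ K) {a b c v : V}
    (ha : a ∈ K) (hb : b ∈ K) (hc' : c ∈ K) {p q r : ℝ} (hp : 0 ≤ p) (hq : 0 ≤ q) (hr : 0 ≤ r)
    (h : p + q + r = 1) (hv : v = p • a + q • b + r • c) : v ∈ K := by
  have := hc.sum_mem (t := (Finset.univ : Finset (Fin 3))) (w := ![p, q, r]) (z := ![a, b, c])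
    (fun i _ => by fin_cases i <;> simpa) (by simpa [Fin.sum_univ_three] using h)
    (fun i _ => by fin_cases i <;> simpa)
  rw [hv]
  simpa [Fin.sum_univ_three] using this

theorem elr {V : Type} [NormedAddCommGroup V] [NormedSpace ℝ V] [FiniteDimensional ℝ V]
    (K : Set V) (hc : Convex ℝ K) (hK : IsCompact K) (hs : ∀ v ∈ K, -v ∈ K) :
    interior {w | ∃ c, c + w ∈ K ∧ c - w ∈ K ∧ ∀ t : ℝ, 1 < t → t • c ∉ K} = ∅ := by
  set W := {w | ∃ c, c + w ∈ K ∧ c - w ∈ K ∧ ∀ t : ℝ, 1 < t → t • c ∉ K} with hW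
  by_contra hne
  obtain ⟨w0, hw0⟩ := nonempty_iff_ne_empty.2 hne
  obtain ⟨r, hr, hb0⟩ := Metric.mem_nhds_iff.1 (mem_interior_iff_mem_nhds.1 hw0)
  have hWK : W ⊆ K := fun w ⟨c, h1, h2, _⟩ =>
    conv3 hc h1 (hs _ h2) h1 (p := 1 / 2) (q := 1 / 2) (r := 0) (by norm_num) (by norm_num) le_rfl
      (by norm_num) (by module)
  have hb : ∀ u : V, ‖u‖ < r → u ∈ K := fun u hu =>
    conv3 hc (hWK (hb0 (show w0 + u ∈ ball w0 r by simpa using hu)))
      (hs _ (hWK (hb0 (show w0 - u ∈ ball w0 r by simpa using hu)))) (hWK (interior_subset hw0))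
      (p := 1 / 2) (q := 1 / 2) (r := 0) (by norm_num) (by norm_num) le_rfl (by norm_num) (by module)
  have h0 : (0 : V) ∈ K := hb 0 (by simpa using hr)
  borelize V
  let μ : Measure V := Measure.addHaar
  refine hne (μ.interior_eq_empty_of_null ?_)
  let d := Module.finrank ℝ V
  have fK : μ K ≠ ⊤ := hK.measure_lt_top.ne
  have key : ∀ ε : ℝ, 0 < ε → ε ≤ 1 / 4 →
      μ.real W ≤ 8 ^ d * ((1 - (1 - 3 * ε) ^ d) * μ.real K) := by
    intro ε e0 e1
    let P : Set V := {y | ∃ c ∈ K, (∀ t : ℝ, 1 < t → t • c ∉ K) ∧ y = (1 - ε) • c}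
    let M : V → Set V := fun y => {z | y + (2 : ℝ) • (z - y) ∈ K ∧ y - (2 : ℝ) • (z - y) ∈ K}
    have Mc : ∀ y, MeasurableSet (M y) := fun y =>
      ((hK.isClosed.preimage (by fun_prop)).inter (hK.isClosed.preimage (by fun_prop))).measurableSet
    have Mb : ∀ y ∈ P, ball y (ε * r / 2) ⊆ M y := by
      rintro _ ⟨c, c1, -, rfl⟩ z hz
      have h1 : ‖(2 / ε) • (z - (1 - ε) • c)‖ < r := by
        rw [norm_smul, Real.norm_of_nonneg (by positivity), div_mul_eq_mul_div, div_lt_iff₀ e0]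
        have := mem_ball_iff_norm.1 hz
        linarith
      have h2 : ε * (2 / ε) = 2 := by field_simp
      exact ⟨conv3 hc c1 (hb _ h1) h0 (p := 1 - ε) (q := ε) (r := 0) (by linarith) e0.le le_rfl
        (by ring) (by rw [smul_smul ε, h2]; module),
        conv3 hc c1 (hs _ (hb _ h1)) h0 (p := 1 - ε) (q := ε) (r := 0) (by linarith) e0.le le_rfl
        (by ring) (by rw [smul_neg, smul_smul ε, h2]; module)⟩
    have Ms : ∀ y ∈ P, M y ⊆ K \ (1 - 3 * ε) • K := by
      rintro _ ⟨c, c1, c2, rfl⟩ z ⟨z1, z2⟩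
      refine ⟨conv3 hc z1 z2 h0 (p := 3 / 4) (q := 1 / 4) (r := 0) (by norm_num) (by norm_num) le_rfl
        (by norm_num) (by module), ?_⟩
      rintro ⟨k, hk, rfl⟩
      have h1 : 0 < 1 - 2 * ε := by linarith
      refine c2 ((1 - ε) / (1 - 2 * ε)) ((one_lt_div h1).2 (by linarith))
        (conv3 hc z2 hk h0 (p := 1 / 3 / (1 - 2 * ε)) (q := 2 * (1 - 3 * ε) / 3 / (1 - 2 * ε)) (r := 0)
          (by positivity) (div_nonneg (by linarith) h1.le) le_rfl (by field_simp; ring) ?_)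
      match_scalars <;> field_simp <;> ring
    obtain ⟨u, u1, u2, u3⟩ := Vitali.exists_disjoint_subfamily_covering_enlargement M P
      (fun _ => 0) 2 (by norm_num) (fun _ _ => le_rfl) 0 (fun _ _ => le_rfl)
      fun y hy => ⟨y, Mb y hy (mem_ball_self (by positivity))⟩
    have uc : u.Countable := u2.countable_of_nonempty_interior fun y hy =>
      ⟨y, mem_interior_iff_mem_nhds.2 (mem_of_superset (ball_mem_nhds y (by positivity))
        (Mb y (u1 hy)))⟩
    have cov : W ⊆ ⋃ x ∈ u, (fun w => (1 / 8 : ℝ) • w) ⁻¹' ((fun w => x + w) ⁻¹' M x) := by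
      rintro w ⟨c, c1, c2, c3⟩
      have c0 : c ∈ K := conv3 hc c1 c2 h0 (p := 1 / 2) (q := 1 / 2) (r := 0) (by norm_num)
        (by norm_num) le_rfl (by norm_num) (by module)
      obtain ⟨x, hx, ⟨z, ⟨z1, -⟩, -, z2⟩, -⟩ := u3 _ ⟨c, c0, c3, rfl⟩
      have a1 : (1 - ε) • c + (3 / 4 : ℝ) • w ∈ K := conv3 hc c1 c0 h0 (p := 3 / 4) (q := 1 / 4 - ε)
        (r := ε) (by norm_num) (by linarith) e0.le (by ring) (by module)
      have a2 : (1 - ε) • c - (3 / 4 : ℝ) • w ∈ K := conv3 hc c2 c0 h0 (p := 3 / 4) (q := 1 / 4 - ε)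
        (r := ε) (by norm_num) (by linarith) e0.le (by ring) (by module)
      exact mem_biUnion hx ⟨conv3 hc z1 a1 z2 (p := 1 / 3) (q := 1 / 3) (r := 1 / 3) (by norm_num)
        (by norm_num) (by norm_num) (by norm_num) (by module),
        conv3 hc z1 a2 z2 (p := 1 / 3) (q := 1 / 3) (r := 1 / 3) (by norm_num)
        (by norm_num) (by norm_num) (by norm_num) (by module)⟩
    have s0 : 0 ≤ 1 - 3 * ε := by linarith
    have m1 : μ W ≤ ENNReal.ofReal (8 ^ d) * μ (K \ (1 - 3 * ε) • K) := by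
      refine (measure_mono cov).trans ((measure_biUnion_le μ uc _).trans ?_)
      have : ∀ x, μ ((fun w => (1 / 8 : ℝ) • w) ⁻¹' ((fun w => x + w) ⁻¹' M x)) =
          ENNReal.ofReal (8 ^ d) * μ (M x) := fun x => by
        rw [Measure.addHaar_preimage_smul μ (by norm_num), measure_preimage_add, one_div_pow,
          one_div, inv_inv, abs_of_pos (by positivity)]
      simp only [this]
      rw [ENNReal.tsum_mul_left, ← measure_biUnion uc u2 fun x _ => Mc x]
      gcongr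
      exact iUnion₂_subset fun x hx => Ms x (u1 hx)
    have sub : (1 - 3 * ε) • K ⊆ K := by
      rintro _ ⟨k, hk, rfl⟩
      exact conv3 hc hk h0 h0 (p := 1 - 3 * ε) (q := 3 * ε) (r := 0) s0 (by linarith) le_rfl (by ring)
        (by simp)
    have m2 : μ.real (K \ (1 - 3 * ε) • K) = (1 - (1 - 3 * ε) ^ d) * μ.real K := by
      rw [measureReal_diff sub (hK.smul _).measurableSet fK, sub_mul, one_mul]
      congr 1
      rw [Measure.real, Measure.addHaar_smul, ENNReal.toReal_mul, ENNReal.toReal_ofReal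
        (abs_nonneg _), abs_of_nonneg (pow_nonneg s0 _)]
      rfl
    rw [← m2]
    have := ENNReal.toReal_mono (ENNReal.mul_ne_top ENNReal.ofReal_ne_top
      (measure_ne_top_of_subset diff_subset fK)) m1
    rwa [ENNReal.toReal_mul, ENNReal.toReal_ofReal (by positivity)] at this
  have lim : Tendsto (fun ε : ℝ => 8 ^ d * ((1 - (1 - 3 * ε) ^ d) * μ.real K)) (𝓝[>] 0)
      (𝓝 (8 ^ d * ((1 - (1 - 3 * 0) ^ d) * μ.real K))) :=
    (Continuous.tendsto (by fun_prop) 0).mono_left nhdsWithin_le_nhds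
  have h1 := ge_of_tendsto lim (mem_of_superset (Ioc_mem_nhdsGT (show (0 : ℝ) < 1 / 4 by norm_num))
    fun ε h => key ε h.1 h.2)
  simp only [mul_zero, sub_zero, one_pow, sub_self, zero_mul] at h1
  exact (measureReal_eq_zero_iff (measure_ne_top_of_subset hWK fK)).1
    (le_antisymm h1 measureReal_nonneg)

end Pool.Agent.H33.Elr
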