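import Mathlib
import Pool.Agent.H33.Elr

set_option autoImplicit false
open Filter Topology Metric Set

namespace Pool.Agent.H33.Cheb

variable {𝕜 : Type} [RCLike 𝕜] {E : Type} [NormedAddCommGroup E] [NormedSpace 𝕜 E] {n : ℕ}

def Bad (𝕜 : Type) [RCLike 𝕜] {E : Type} [NormedAddCommGroup E] [NormedSpace 𝕜 E] (n : ℕ)
    (e : E) (m : ℕ) : Set (Fin n → E) :=
  {x | ∃ (f g : StrongDual 𝕜 E) (l : Fin n → 𝕜), ‖f‖ ≤ 1 ∧ ‖g‖ ≤ 1 ∧ ‖l‖ ≤ m ∧
    (∀ j, f (x j) = g (x j)) ∧ ‖∑ j, l j • x j‖ ≤ 1 ∧ ∑ j, l j * f (x j) = 1 ∧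
    1 / ((m : ℝ) + 1) ≤ ‖f e - g e‖}

lemma ballc : IsCompact (WeakDual.toStrongDual ⁻¹' closedBall (0 : StrongDual 𝕜 E) 1) :=
  WeakDual.isCompact_closedBall 0 1

lemma bad_closed (e : E) (m : ℕ) : IsClosed (Bad 𝕜 n e m) := by
  let B := (WeakDual.toStrongDual ⁻¹' closedBall (0 : StrongDual 𝕜 E) 1 : Set (WeakDual 𝕜 E))
  have : CompactSpace B := isCompact_iff_compactSpace.1 ballc
  let L := closedBall (0 : Fin n → 𝕜) m
  have : CompactSpace L := isCompact_iff_compactSpace.1 (isCompact_closedBall _ _)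
  have hB : ∀ f : B, ‖WeakDual.toStrongDual f.1‖ ≤ 1 := fun f => mem_closedBall_zero_iff.1 f.2
  have ev : Continuous fun p : B × E => p.1.1 p.2 := by
    refine continuous_prod_of_continuous_lipschitzWith' _ 1 (fun f => ?_) (fun y => ?_)
    · refine LipschitzWith.of_dist_le_mul fun a b => ?_
      rw [dist_eq_norm, dist_eq_norm, ← map_sub]
      exact ((WeakDual.toStrongDual f.1).le_opNorm _).trans (by
        simpa using mul_le_of_le_one_left (norm_nonneg (a - b)) (hB f))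
    · exact (WeakDual.eval_continuous y).comp continuous_subtype_val
  let S : Set ((B × B × L) × (Fin n → E)) := {p | (∀ j, p.1.1.1 (p.2 j) = p.1.2.1.1 (p.2 j)) ∧
    ‖∑ j, p.1.2.2.1 j • p.2 j‖ ≤ 1 ∧ ∑ j, p.1.2.2.1 j * p.1.1.1 (p.2 j) = 1 ∧
    1 / ((m : ℝ) + 1) ≤ ‖p.1.1.1 e - p.1.2.1.1 e‖}
  have c1 : ∀ j, Continuous fun p : (B × B × L) × (Fin n → E) => p.1.1.1 (p.2 j) := fun j =>
    ev.comp (f := fun p : (B × B × L) × (Fin n → E) => (p.1.1, p.2 j)) (by fun_prop)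
  have c2 : ∀ j, Continuous fun p : (B × B × L) × (Fin n → E) => p.1.2.1.1 (p.2 j) := fun j =>
    ev.comp (f := fun p : (B × B × L) × (Fin n → E) => (p.1.2.1, p.2 j)) (by fun_prop)
  have c3 : Continuous fun p : (B × B × L) × (Fin n → E) => p.1.1.1 e :=
    ev.comp (f := fun p : (B × B × L) × (Fin n → E) => (p.1.1, e)) (by fun_prop)
  have c4 : Continuous fun p : (B × B × L) × (Fin n → E) => p.1.2.1.1 e :=
    ev.comp (f := fun p : (B × B × L) × (Fin n → E) => (p.1.2.1, e)) (by fun_prop)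
  have c5 : ∀ j, Continuous fun p : (B × B × L) × (Fin n → E) => p.1.2.2.1 j := fun j =>
    (continuous_apply j).comp (continuous_subtype_val.comp (by fun_prop))
  have hS : IsClosed S := by
    refine IsClosed.and ?_ (IsClosed.and (isClosed_le (continuous_finsetSum _ fun j _ =>
      (c5 j).smul ((continuous_apply j).comp continuous_snd)).norm continuous_const)
      (IsClosed.and (isClosed_eq (continuous_finsetSum _ fun j _ => (c5 j).mul (c1 j))
        continuous_const) (isClosed_le continuous_const (c3.sub c4).norm)))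
    simp only [setOf_forall]
    exact isClosed_iInter fun j => isClosed_eq (c1 j) (c2 j)
  convert isClosedMap_snd_of_compactSpace S hS using 1
  ext x
  constructor
  · rintro ⟨f, g, l, h1, h2, h3, h⟩
    exact ⟨((⟨StrongDual.toWeakDual f, by simpa [B] using h1⟩, ⟨StrongDual.toWeakDual g, by simpa [B] using h2⟩,
      ⟨l, by simpa [L] using h3⟩), x), h, rfl⟩
  · rintro ⟨⟨⟨f, g, l⟩, y⟩, h, rfl⟩
    exact ⟨WeakDual.toStrongDual f.1, WeakDual.toStrongDual g.1, l.1, hB f, hB g,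
      mem_closedBall_zero_iff.1 l.2, h⟩

lemma bad_int (e : E) (m : ℕ) : interior (Bad 𝕜 n e m) = ∅ := by
  by_contra hne
  obtain ⟨x, hx⟩ := nonempty_iff_ne_empty.2 hne
  obtain ⟨δ, hδ, hb⟩ := Metric.mem_nhds_iff.1 (mem_interior_iff_mem_nhds.1 hx)
  let R : StrongDual 𝕜 E → (Fin n → 𝕜) × 𝕜 := fun f => (fun j => f (x j), f e)
  let K : Set ((Fin n → 𝕜) × 𝕜) := R '' closedBall 0 1
  have mk : ∀ (f g : StrongDual 𝕜 E) (a b : 𝕜), ‖f‖ ≤ 1 → ‖g‖ ≤ 1 → ‖a‖ + ‖b‖ ≤ 1 →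
      a • R f + b • R g ∈ K := fun f g a b hf hg hab => by
    refine ⟨a • f + b • g, ?_, by ext <;> simp [R]⟩
    rw [mem_closedBall_zero_iff]
    refine (norm_add_le _ _).trans ?_
    rw [norm_smul, norm_smul]
    nlinarith [norm_nonneg a, norm_nonneg b]
  have hc : Convex ℝ K := by
    rintro _ ⟨f, hf, rfl⟩ _ ⟨g, hg, rfl⟩ a b ha hb hab
    have := mk f g (a : 𝕜) (b : 𝕜) (by simpa using hf) (by simpa using hg)
      (by simp [abs_of_nonneg ha, abs_of_nonneg hb, hab])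
    rwa [RCLike.real_smul_eq_coe_smul (K := 𝕜) a, RCLike.real_smul_eq_coe_smul (K := 𝕜) b]
  have hK : IsCompact K := by
    have : Continuous fun f : WeakDual 𝕜 E => R (WeakDual.toStrongDual f) :=
      (continuous_pi fun j => WeakDual.eval_continuous (x j)).prodMk (WeakDual.eval_continuous e)
    convert ballc.image this using 1
    ext v
    constructor
    · rintro ⟨f, hf, rfl⟩
      exact ⟨StrongDual.toWeakDual f, by simpa using hf, rfl⟩
    · rintro ⟨f, hf, rfl⟩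
      exact ⟨_, hf, rfl⟩
  have hs : ∀ v ∈ K, -v ∈ K := by
    rintro _ ⟨f, hf, rfl⟩
    exact ⟨-f, by simpa using hf, by ext <;> simp [R]⟩
  have h := Pool.Agent.H33.Elr.elr K hc hK hs
  let O : Set ((Fin n → 𝕜) × 𝕜) :=
    {p | 0 < ‖p.2‖ ∧ ‖p.2‖ * (2 * ((m : ℝ) + 1)) < 1 ∧ ‖p.1‖ * ‖e‖ < δ * ‖p.2‖}
  have hO : IsOpen O := by
    refine IsOpen.and ?_ (IsOpen.and ?_ ?_) <;> exact isOpen_lt (by fun_prop) (by fun_prop)
  have hm : (0 : ℝ) < (m : ℝ) + 1 := by positivity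
  have hn : O.Nonempty := by
    refine ⟨(0, ((1 / (4 * ((m : ℝ) + 1)) : ℝ) : 𝕜)), ?_⟩
    have : ‖((1 / (4 * ((m : ℝ) + 1)) : ℝ) : 𝕜)‖ = 1 / (4 * ((m : ℝ) + 1)) := by
      rw [RCLike.norm_ofReal, abs_of_pos (by positivity)]
    simp only [O, mem_setOf_eq, this, norm_zero, zero_mul]
    refine ⟨by positivity, ?_, by positivity⟩
    field_simp
    norm_num
  refine hn.ne_empty (subset_empty_iff.1 (h ▸ interior_maximal ?_ hO))
  rintro ⟨a, σ⟩ ⟨h1, h2, h3⟩
  simp only at h1 h2 h3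
  have σ0 : σ ≠ 0 := norm_pos_iff.1 h1
  obtain ⟨f, g, l, hf, hg, -, p1, p2, p3, p4⟩ := hb (show (fun j => x j - (a j / σ) • e) ∈ ball x δ by
    rw [mem_ball, dist_pi_lt_iff hδ]
    intro j
    rw [dist_eq_norm, sub_sub_cancel_left, norm_neg, norm_smul, norm_div, div_mul_eq_mul_div,
      div_lt_iff₀ h1]
    exact lt_of_le_of_lt (mul_le_mul_of_nonneg_right (norm_le_pi_norm a j) (norm_nonneg e)) h3)
  simp only at p1 p2 p3
  have d0 : 0 < ‖f e - g e‖ := lt_of_lt_of_le (by positivity) p4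
  have d1 : f e - g e ≠ 0 := norm_pos_iff.1 d0
  set τ := σ / (f e - g e) with hτ
  have t0 : 0 < ‖τ‖ := by rw [hτ, norm_div]; positivity
  have t1 : ‖τ‖ ≤ 1 / 2 := by
    rw [hτ, norm_div, div_le_iff₀ d0]
    rw [div_le_iff₀ hm] at p4
    nlinarith
  set ω := τ / (‖τ‖ : 𝕜) with hω
  have t2 : (‖τ‖ : 𝕜) ≠ 0 := by exact_mod_cast t0.ne'
  have w1 : ‖ω‖ = 1 := by rw [hω, norm_div, RCLike.norm_ofReal, abs_norm, div_self t0.ne']
  have w2 : τ = ω * (‖τ‖ : 𝕜) := by rw [hω]; field_simp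
  have hw : (a, σ) = τ • R f - τ • R g := by
    ext j
    · have := p1 j
      simp only [map_sub, map_smul, smul_eq_mul] at this
      simp only [R, Prod.fst_sub, Prod.smul_fst, Pi.sub_apply, Pi.smul_apply, smul_eq_mul, hτ]
      field_simp at this ⊢
      linear_combination -this
    · simp only [R, Prod.snd_sub, Prod.smul_snd, smul_eq_mul, hτ]
      field_simp
  have n1 : ‖ω / 2 + τ‖ + ‖ω / 2 - τ‖ ≤ 1 := by
    have e1 : ω / 2 + τ = ω * ((1 / 2 + ‖τ‖ : ℝ) : 𝕜) := by push_cast; linear_combination w2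
    have e2 : ω / 2 - τ = ω * ((1 / 2 - ‖τ‖ : ℝ) : 𝕜) := by push_cast; linear_combination -w2
    rw [e1, e2, norm_mul, norm_mul, w1, RCLike.norm_ofReal, RCLike.norm_ofReal,
      abs_of_nonneg (by positivity), abs_of_nonneg (by linarith)]
    linarith
  refine ⟨(ω / 2) • R f + (ω / 2) • R g, ?_, ?_, fun t ht ⟨k, hk, ek⟩ => ?_⟩
  · convert mk f g _ _ hf hg n1 using 1
    rw [hw]; module
  · convert mk f g _ _ hf hg (by rw [add_comm]; exact n1) using 1
    rw [hw]; module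
  · have k1 : ∀ j, k (x j) = (t : 𝕜) * (ω / 2 * f (x j) + ω / 2 * g (x j)) := fun j => by
      simpa [R, RCLike.real_smul_eq_coe_mul, mul_add] using congrFun (congrArg Prod.fst ek) j
    have k2 : k e = (t : 𝕜) * (ω / 2 * f e + ω / 2 * g e) := by
      simpa [R, RCLike.real_smul_eq_coe_mul, mul_add] using congrArg Prod.snd ek
    have k3 : k (∑ j, l j • (x j - (a j / σ) • e)) = (t : 𝕜) * ω := by
      rw [← mul_one ((t : 𝕜) * ω), ← p3, map_sum, Finset.mul_sum]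
      refine Finset.sum_congr rfl fun j _ => ?_
      have := p1 j
      simp only [map_sub, map_smul, smul_eq_mul, k1, k2] at this ⊢
      linear_combination (-(t : 𝕜) * ω * l j / 2) * this
    have k4 := k.le_opNorm (∑ j, l j • (x j - (a j / σ) • e))
    rw [k3, norm_mul, w1, RCLike.norm_ofReal, abs_of_pos (by linarith)] at k4
    have k5 : ‖k‖ ≤ 1 := by simpa using hk
    nlinarith [norm_nonneg k, norm_nonneg (∑ j, l j • (x j - (a j / σ) • e))]

end Pool.Agent.H33.Cheb
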