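import Mathlib
import Pool.Agent.H33.Cheb

set_option autoImplicit false
open Filter Topology Metric Set

namespace Pool.Agent.H33.Cheb

variable {𝕜 : Type} [RCLike 𝕜] {E : Type} [NormedAddCommGroup E] [NormedSpace 𝕜 E] {n : ℕ}

lemma good [TopologicalSpace.SeparableSpace E] [CompleteSpace E] :
    Dense {x : Fin n → E | ∀ φ : StrongDual 𝕜 E, ∃! γ : StrongDual 𝕜 E, (∀ j, γ (x j) = 0) ∧
      ∀ γ' : StrongDual 𝕜 E, (∀ j, γ' (x j) = 0) → ‖φ - γ‖ ≤ ‖φ - γ'‖} := by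
  have : Nonempty E := ⟨0⟩
  have hd := dense_iInter_of_isOpen
    (f := fun p : ℕ × ℕ => (Bad 𝕜 n (TopologicalSpace.denseSeq E p.1) p.2)ᶜ)
    (fun p => (bad_closed _ _).isOpen_compl)
    (fun p => interior_eq_empty_iff_dense_compl.1 (bad_int _ _))
  refine hd.mono fun x hx φ => ?_
  let G := Submodule.span 𝕜 (range x)
  have : FiniteDimensional 𝕜 G := FiniteDimensional.span_of_finite 𝕜 (finite_range x)
  have : ProperSpace G := FiniteDimensional.proper_rclike 𝕜 G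
  let ψ : StrongDual 𝕜 G := φ.comp G.subtypeL
  have van : ∀ γ : StrongDual 𝕜 E, (∀ j, γ (x j) = 0) → ∀ y : G, γ y = 0 := fun γ h y => by
    obtain ⟨l, hl⟩ := (Submodule.mem_span_range_iff_exists_fun 𝕜).1 y.2
    simp [← hl, h]
  obtain ⟨f0, h1, h2⟩ := exists_extension_norm_eq G ψ
  have h3 : ∀ j, (φ - f0) (x j) = 0 := fun j => by
    have := h1 ⟨x j, Submodule.subset_span ⟨j, rfl⟩⟩
    simp only [ψ] at this
    simp [this]
  have uq : ∀ γ1 γ2 : StrongDual 𝕜 E, (∀ j, γ1 (x j) = 0) → (∀ j, γ2 (x j) = 0) →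
      ‖φ - γ1‖ ≤ ‖ψ‖ → ‖φ - γ2‖ ≤ ‖ψ‖ → γ1 = γ2 := by
    intro γ1 γ2 a1 a2 b1 b2
    by_contra hne
    obtain ⟨u, hu, hm⟩ := (isCompact_closedBall (0 : G) 1).exists_isMaxOn
      ⟨0, by simp⟩ (f := fun v => ‖ψ v‖) (by fun_prop)
    have c1 : ‖ψ‖ ≤ ‖ψ u‖ := ContinuousLinearMap.opNorm_le_of_unit_norm (norm_nonneg _)
      fun v hv => hm (show v ∈ closedBall (0 : G) 1 by simp [hv])
    have c2 : ψ u ≠ 0 := by
      intro h0
      rw [h0, norm_zero] at c1
      exact hne ((sub_eq_zero.1 (norm_le_zero_iff.1 (b1.trans c1))).symm.trans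
        (sub_eq_zero.1 (norm_le_zero_iff.1 (b2.trans c1))))
    have c3 : 0 < ‖ψ u‖ := norm_pos_iff.2 c2
    obtain ⟨l, hl⟩ := (Submodule.mem_span_range_iff_exists_fun 𝕜).1 u.2
    obtain ⟨i, hi⟩ : ∃ i, γ1 (TopologicalSpace.denseSeq E i) ≠ γ2 (TopologicalSpace.denseSeq E i) := by
      by_contra hh
      push Not at hh
      refine hne (DFunLike.coe_injective ?_)
      exact (TopologicalSpace.denseRange_denseSeq E).equalizer γ1.continuous γ2.continuous
        (funext hh)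
    set e := TopologicalSpace.denseSeq E i with he
    have c4 : 0 < ‖((ψ u)⁻¹ • (φ - γ1)) e - ((ψ u)⁻¹ • (φ - γ2)) e‖ := by
      rw [norm_pos_iff]
      intro h0
      simp only [ContinuousLinearMap.smul_apply, ContinuousLinearMap.sub_apply, smul_eq_mul] at h0
      field_simp at h0
      exact hi (by linear_combination -h0)
    obtain ⟨m1, q1⟩ := exists_nat_one_div_lt c4
    obtain ⟨m2, q2⟩ := exists_nat_ge ‖l‖
    refine mem_iInter.1 hx (i, max m1 m2) ⟨(ψ u)⁻¹ • (φ - γ1), (ψ u)⁻¹ • (φ - γ2), l, ?_, ?_,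
      q2.trans (by exact_mod_cast le_max_right _ _), fun j => by simp [a1, a2], ?_, ?_, ?_⟩
    · rw [norm_smul, norm_inv, inv_mul_le_iff₀ c3]; linarith
    · rw [norm_smul, norm_inv, inv_mul_le_iff₀ c3]; linarith
    · rw [hl]; simpa using hu
    · have : ψ u = ∑ j, l j * φ (x j) := by
        change φ (u : E) = _
        simp [← hl]
      simp only [ContinuousLinearMap.smul_apply, ContinuousLinearMap.sub_apply, smul_eq_mul, a1,
        sub_zero, mul_left_comm _ (ψ u)⁻¹, ← Finset.mul_sum, ← this]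
      exact inv_mul_cancel₀ c2
    · refine le_trans ?_ q1.le
      gcongr
      exact le_max_left _ _
  refine ⟨φ - f0, ⟨h3, fun γ' h => ?_⟩, fun γ h => uq _ _ h.1 h3 ?_ (by simp [h2])⟩
  · rw [sub_sub_cancel, h2]
    refine ContinuousLinearMap.opNorm_le_bound _ (norm_nonneg _) fun y => ?_
    have := (φ - γ').le_opNorm (y : E)
    simpa [van γ' h y, ψ] using this
  · simpa [h2] using h.2 _ h3

abbrev L1 (𝕜 : Type) [RCLike 𝕜] := lp (fun _ : ℕ => 𝕜) 1

noncomputable abbrev C00 (𝕜 : Type) [RCLike 𝕜] : Submodule 𝕜 (L1 𝕜) :=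
  Submodule.span 𝕜 (range fun i : ℕ => lp.single 1 i (1 : 𝕜))

lemma c00_sep : TopologicalSpace.SeparableSpace (C00 𝕜) :=
  ((countable_range _).isSeparable.span).separableSpace

lemma c00_li : LinearIndependent 𝕜 fun i : ℕ =>
    (⟨lp.single 1 i (1 : 𝕜), Submodule.subset_span ⟨i, rfl⟩⟩ : C00 𝕜) := by
  rw [linearIndependent_iff']
  intro s g h i hi
  have := congrArg (fun v : C00 𝕜 => (v.1 : ℕ → 𝕜) i) h
  simp only [Submodule.coe_sum, Submodule.coe_smul, lp.coeFn_sum, Finset.sum_apply, lp.coeFn_smul,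
    Pi.smul_apply, lp.single_apply, Pi.single_apply] at this
  simpa [hi] using this

lemma c00_fin (y : C00 𝕜) : ∀ᶠ N in atTop, (y.1 : ℕ → 𝕜) N = 0 := by
  obtain ⟨y, hy⟩ := y
  induction hy using Submodule.span_induction with
  | mem _ h =>
    obtain ⟨i, rfl⟩ := h
    filter_upwards [eventually_gt_atTop i] with N hN
    simp [lp.single_apply, hN.ne']
  | zero => simp
  | add a b _ _ h1 h2 =>
    filter_upwards [h1, h2] with N a1 a2
    simp_all
  | smul c a _ h1 =>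
    filter_upwards [h1] with N a1
    simp_all

lemma c00_bad (hn : 1 ≤ n) (x : Fin n → C00 𝕜) (hx : LinearIndependent 𝕜 x) :
    ¬ ∀ φ : StrongDual 𝕜 (C00 𝕜), ∃! γ : StrongDual 𝕜 (C00 𝕜), (∀ j, γ (x j) = 0) ∧
      ∀ γ' : StrongDual 𝕜 (C00 𝕜), (∀ j, γ' (x j) = 0) → ‖φ - γ‖ ≤ ‖φ - γ'‖ := by
  intro h
  obtain ⟨N, hN⟩ := (eventually_all.2 fun j => c00_fin (x j)).exists
  have x0 : ‖x ⟨0, hn⟩‖ ≠ 0 := norm_ne_zero_iff.2 (hx.ne_zero _)
  obtain ⟨f, f1, f2⟩ := exists_dual_vector 𝕜 _ x0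
  let eN : C00 𝕜 := ⟨lp.single 1 N (1 : 𝕜), Submodule.subset_span ⟨N, rfl⟩⟩
  let d : StrongDual 𝕜 (C00 𝕜) := LinearMap.mkContinuous
    { toFun := fun y => (y.1 : ℕ → 𝕜) N, map_add' := by simp, map_smul' := by simp } 1
    (fun y => by simpa using lp.norm_apply_le_norm one_ne_zero y.1 N)
  have d1 : ∀ y, d y = (y.1 : ℕ → 𝕜) N := fun _ => rfl
  have d2 : ∀ y : C00 𝕜, ‖y - d y • eN‖ = ‖y‖ - ‖d y‖ := fun y => by
    have := lp.norm_compl_sum_single (p := 1) (by simp) y.1 {N}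
    simp only [Finset.sum_singleton, ENNReal.toReal_one, Real.rpow_one] at this
    rw [d1, Submodule.coe_norm, Submodule.coe_norm, ← this]
    congr 2
    simp [eN, ← lp.single_smul]
  have key : ∀ t : 𝕜, ‖t‖ ≤ 1 → ‖f + (t - f eN) • d‖ ≤ 1 := fun t ht => by
    refine ContinuousLinearMap.opNorm_le_bound _ zero_le_one fun y => ?_
    have e1 : (f + (t - f eN) • d) y = f (y - d y • eN) + t * d y := by simp; ring
    have e2 := f.le_opNorm (y - d y • eN)
    rw [e1]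
    refine (norm_add_le _ _).trans ?_
    rw [norm_mul]
    rw [f1, d2] at e2
    nlinarith [norm_nonneg (d y)]
  have low : ∀ γ : StrongDual 𝕜 (C00 𝕜), (∀ j, γ (x j) = 0) → 1 ≤ ‖f - γ‖ := fun γ hγ => by
    have := (f - γ).le_opNorm (x ⟨0, hn⟩)
    simp only [ContinuousLinearMap.sub_apply, hγ, sub_zero, f2, RCLike.norm_ofReal, abs_norm] at this
    exact le_of_mul_le_mul_right (by simpa using this) (lt_of_le_of_ne (norm_nonneg _) x0.symm)
  have best : ∀ t : 𝕜, ‖t‖ ≤ 1 → (∀ j, (-((t - f eN) • d)) (x j) = 0) ∧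
      ∀ γ' : StrongDual 𝕜 (C00 𝕜), (∀ j, γ' (x j) = 0) → ‖f - -((t - f eN) • d)‖ ≤ ‖f - γ'‖ :=
    fun t ht => ⟨fun j => by simp [d1, hN j], fun γ' h' => by
      rw [sub_neg_eq_add]; exact (key t ht).trans (low _ h')⟩
  have := congrArg (fun g : StrongDual 𝕜 (C00 𝕜) => g eN)
    ((h f).unique (best 0 (by simp)) (best 1 (by simp)))
  have d3 : d eN = 1 := by simp [d1, eN, lp.single_apply]
  simp only [ContinuousLinearMap.neg_apply, ContinuousLinearMap.smul_apply, d3, smul_eq_mul,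
    mul_one, neg_inj, sub_left_inj] at this
  exact zero_ne_one this

end Pool.Agent.H33.Cheb
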