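import Mathlib

set_option autoImplicit false
open Filter Topology Finset

namespace Pool.Agent.H33.Cog

lemma avg_tendsto (z : ℂ) (hz : ‖z‖ = 1) (h1 : z ≠ 1) :
    Tendsto (fun N : ℕ => (N : ℂ)⁻¹ * ∑ n ∈ range N, z ^ n) atTop (𝓝 0) := by
  have hb : ∀ N : ℕ, ‖(N : ℂ)⁻¹ * ∑ n ∈ range N, z ^ n‖ ≤ (N : ℝ)⁻¹ * (2 / ‖z - 1‖) := by
    intro N
    rw [norm_mul, norm_inv, Complex.norm_natCast, geom_sum_eq h1, norm_div]
    gcongr
    calc ‖z ^ N - 1‖ ≤ ‖z ^ N‖ + ‖(1 : ℂ)‖ := norm_sub_le _ _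
      _ = 2 := by rw [norm_pow, hz]; norm_num
  refine squeeze_zero_norm hb ?_
  have := (tendsto_inv_atTop_nhds_zero_nat (𝕜 := ℝ)).mul_const (2 / ‖z - 1‖)
  simpa using this

lemma orth {M : Type*} [DecidableEq M] (s : Finset M) (l c : M → ℂ) (hl : ∀ a ∈ s, ‖l a‖ = 1)
    (hinj : ∀ a ∈ s, ∀ b ∈ s, l a = l b → a = b) :
    Tendsto (fun N : ℕ => (N : ℝ)⁻¹ * ∑ n ∈ range N, ‖∑ a ∈ s, c a * l a ^ n‖ ^ 2) atTop
      (𝓝 (∑ a ∈ s, ‖c a‖ ^ 2)) := by
  have key : Tendsto (fun N : ℕ => ∑ a ∈ s, ∑ b ∈ s, c a * (starRingEnd ℂ) (c b) *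
      ((N : ℂ)⁻¹ * ∑ n ∈ range N, (l a * (starRingEnd ℂ) (l b)) ^ n)) atTop
      (𝓝 (∑ a ∈ s, ∑ b ∈ s, c a * (starRingEnd ℂ) (c b) * (if a = b then 1 else 0))) := by
    refine tendsto_finsetSum _ fun a ha => tendsto_finsetSum _ fun b hb => ?_
    refine Tendsto.const_mul _ ?_
    have hu : ∀ a ∈ s, l a * (starRingEnd ℂ) (l a) = 1 := by
      intro a ha
      rw [Complex.mul_conj, Complex.normSq_eq_norm_sq, hl a ha]; simp
    split_ifs with h
    · subst h
      rw [hu a ha]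
      refine tendsto_const_nhds.congr' ?_
      filter_upwards [eventually_gt_atTop 0] with N hN
      have : (N : ℂ) ≠ 0 := by exact_mod_cast hN.ne'
      simp [this]
    · refine avg_tendsto _ ?_ ?_
      · rw [norm_mul, RCLike.norm_conj, hl a ha, hl b hb, one_mul]
      · intro h1
        apply h
        apply hinj a ha b hb
        have h2 := hu b hb
        have h0 : (starRingEnd ℂ) (l b) ≠ 0 := by
          intro h0; rw [h0] at h2; simp at h2
        exact mul_right_cancel₀ h0 (h1.trans h2.symm)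
  have k2 := (Complex.continuous_re.tendsto _).comp key
  have e1 : (∑ a ∈ s, ∑ b ∈ s, c a * (starRingEnd ℂ) (c b) * (if a = b then 1 else 0)).re
      = ∑ a ∈ s, ‖c a‖ ^ 2 := by
    rw [Complex.re_sum]
    refine sum_congr rfl fun a ha => ?_
    rw [sum_eq_single a]
    · simp only [if_true, mul_one]
      rw [Complex.mul_conj, Complex.normSq_eq_norm_sq]; norm_cast
    · intro b _ hb; simp [Ne.symm hb]
    · intro h; exact absurd ha h
  rw [e1] at k2
  refine k2.congr fun N => ?_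
  have e2 : (∑ a ∈ s, ∑ b ∈ s, c a * (starRingEnd ℂ) (c b) *
      ((N : ℂ)⁻¹ * ∑ n ∈ range N, (l a * (starRingEnd ℂ) (l b)) ^ n)) =
      (((N : ℝ)⁻¹ * ∑ n ∈ range N, ‖∑ a ∈ s, c a * l a ^ n‖ ^ 2 : ℝ) : ℂ) := by
    have : ∀ n : ℕ, ((‖∑ a ∈ s, c a * l a ^ n‖ ^ 2 : ℝ) : ℂ) =
        ∑ a ∈ s, ∑ b ∈ s, c a * (starRingEnd ℂ) (c b) * (l a * (starRingEnd ℂ) (l b)) ^ n := by
      intro n
      rw [← Complex.normSq_eq_norm_sq, ← Complex.mul_conj, map_sum, sum_mul_sum]
      refine sum_congr rfl fun a _ => sum_congr rfl fun b _ => ?_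
      simp only [map_mul, map_pow, mul_pow]; ring
    rw [Complex.ofReal_mul, Complex.ofReal_sum]
    simp only [this]
    rw [sum_comm (s := range N), mul_sum]
    refine sum_congr rfl fun a _ => ?_
    rw [sum_comm (s := range N), mul_sum]
    refine sum_congr rfl fun b _ => ?_
    rw [← mul_sum (range N)]; push_cast; ring
  simp only [Function.comp, e2, Complex.ofReal_re]

lemma multinomial_le {J : Type*} (s : Finset J) (f : J → ℕ) :
    Nat.multinomial s f ≤ (∑ i ∈ s, f i).factorial := by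
  rw [← Nat.multinomial_spec]
  exact Nat.le_mul_of_pos_left _ (prod_pos fun i _ => Nat.factorial_pos _)

lemma moment {J W : Type*} [Fintype J] [DecidableEq J] (net : Finset W) (v : J → ℂ)
    (hv : ∀ j, ‖v j‖ = 1)
    (hind : ∀ μ ν : J → ℕ, ∏ j, v j ^ μ j = ∏ j, v j ^ ν j → μ = ν)
    (w : W → J → ℂ) (hw : ∀ g ∈ net, ∀ j, ‖w g j‖ ≤ 1) (D : ℝ) (hD : 0 ≤ D)
    (h : ∀ n : ℕ, ∃ g ∈ net, D ≤ ‖∑ j, v j ^ n * w g j‖) (k : ℕ) :
    D ^ (2 * k) ≤ net.card * (k.factorial * (Fintype.card J : ℝ) ^ k) := by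
  set s : Finset (J → ℕ) := (univ : Finset J).piAntidiag k with hs
  set l : (J → ℕ) → ℂ := fun μ => ∏ j, v j ^ μ j with hl
  set c : W → (J → ℕ) → ℂ := fun g μ => (Nat.multinomial univ μ : ℂ) * ∏ j, w g j ^ μ j with hc
  have e : ∀ g n, (∑ j, v j ^ n * w g j) ^ k = ∑ μ ∈ s, c g μ * l μ ^ n := by
    intro g n
    rw [sum_pow_eq_sum_piAntidiag]
    refine sum_congr rfl fun μ _ => ?_
    simp only [hc, hl, mul_pow, prod_mul_distrib, ← prod_pow, ← pow_mul, mul_comm n]
    ring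
  have hl1 : ∀ μ ∈ s, ‖l μ‖ = 1 := by
    intro μ _; simp [hl, norm_prod, hv]
  have t := tendsto_finsetSum net fun g _ => orth s l (c g) hl1 (fun a _ b _ h => hind a b h)
  have lower : D ^ (2 * k) ≤ ∑ g ∈ net, ∑ μ ∈ s, ‖c g μ‖ ^ 2 := by
    refine ge_of_tendsto t ?_
    filter_upwards [eventually_gt_atTop 0] with N hN
    have hN' : (0 : ℝ) < N := by exact_mod_cast hN
    rw [← mul_sum, sum_comm, le_inv_mul_iff₀ hN']
    calc (N : ℝ) * D ^ (2 * k) = ∑ n ∈ range N, D ^ (2 * k) := by simp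
      _ ≤ _ := by
        refine sum_le_sum fun n _ => ?_
        obtain ⟨g, hg, hgD⟩ := h n
        refine le_trans ?_ (single_le_sum (f := fun g => ‖∑ μ ∈ s, c g μ * l μ ^ n‖ ^ 2)
          (fun _ _ => by positivity) hg)
        rw [← e, norm_pow, ← pow_mul, mul_comm k]
        gcongr
  refine lower.trans ?_
  have tot : ∑ μ ∈ s, (Nat.multinomial univ μ : ℝ) = (Fintype.card J : ℝ) ^ k := by
    have := sum_pow_eq_sum_piAntidiag (univ : Finset J) (fun _ => (1 : ℝ)) k
    simp only [one_pow, prod_const_one, mul_one, sum_const, card_univ, nsmul_eq_mul] at this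
    exact this.symm
  calc ∑ g ∈ net, ∑ μ ∈ s, ‖c g μ‖ ^ 2
      ≤ ∑ g ∈ net, (k.factorial * (Fintype.card J : ℝ) ^ k) := by
        refine sum_le_sum fun g hg => ?_
        rw [← tot, mul_sum]
        refine sum_le_sum fun μ hμ => ?_
        have h1 : ‖c g μ‖ ≤ Nat.multinomial univ μ := by
          simp only [hc, norm_mul, Complex.norm_natCast, norm_prod, norm_pow]
          refine mul_le_of_le_one_right (by positivity) ?_
          exact prod_le_one (fun _ _ => by positivity) fun j _ =>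
            pow_le_one₀ (norm_nonneg _) (hw g hg j)
        have h2 : (Nat.multinomial univ μ : ℝ) ≤ k.factorial := by
          have := multinomial_le univ μ
          rw [hs, mem_piAntidiag] at hμ
          rw [hμ.1] at this
          exact_mod_cast this
        calc ‖c g μ‖ ^ 2 = ‖c g μ‖ * ‖c g μ‖ := sq _
          _ ≤ _ := mul_le_mul (h1.trans h2) h1 (norm_nonneg _) (by positivity)
    _ = _ := by simp

/-- multiplicative independence -/
lemma indep {J : Type*} [Fintype J] (r : J → ℚ) (hr : ∀ j, 0 < r j) (hinj : Function.Injective r)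
    (z : ℂ) (hz : Transcendental ℚ z) (μ ν : J → ℕ)
    (h : ∏ j, ((r j * z + 1) / (r j * z - 1)) ^ μ j = ∏ j, ((r j * z + 1) / (r j * z - 1)) ^ ν j) :
    μ = ν := by
  classical
  open Polynomial in
  have hne : ∀ j, (r j : ℂ) * z - 1 ≠ 0 := by
    intro j h0
    apply hz
    have hr0 : (r j : ℂ) ≠ 0 := by exact_mod_cast (hr j).ne'
    have : z = algebraMap ℚ ℂ ((r j)⁻¹) := by
      simp only [eq_ratCast, Rat.cast_inv]
      field_simp
      linear_combination h0
    rw [this]; exact isAlgebraic_algebraMap _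
  open Polynomial in
  have hP : ∀ μ ν : J → ℕ,
      ∏ j, ((r j * z + 1) / (r j * z - 1)) ^ μ j = ∏ j, ((r j * z + 1) / (r j * z - 1)) ^ ν j →
      ∀ j, ν j ≤ μ j := by
    intro μ ν h j0
    have h2 : (∏ j, (r j * z + 1) ^ μ j) * ∏ j, (r j * z - 1) ^ ν j =
        (∏ j, (r j * z + 1) ^ ν j) * ∏ j, (r j * z - 1) ^ μ j := by
      simp only [div_pow, prod_div_distrib] at h
      rwa [div_eq_div_iff (prod_ne_zero_iff.2 fun j _ => pow_ne_zero _ (hne j))
        (prod_ne_zero_iff.2 fun j _ => pow_ne_zero _ (hne j))] at h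
    have h3 : ((∏ j, (C (r j) * X + 1) ^ μ j) * ∏ j, (C (r j) * X - 1) ^ ν j : ℚ[X]) =
        (∏ j, (C (r j) * X + 1) ^ ν j) * ∏ j, (C (r j) * X - 1) ^ μ j := by
      apply (transcendental_iff_injective.1 hz)
      simpa [map_prod] using h2
    -- compare root multiplicity at 1 / r j0
    set a : ℚ := (r j0)⁻¹ with ha
    have ha0 : 0 < a := inv_pos.2 (hr j0)
    have hdv : (X - C a) ^ ν j0 ∣
        (∏ j, (C (r j) * X + 1) ^ ν j) * ∏ j, (C (r j) * X - 1) ^ μ j := by
      rw [← h3]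
      refine Dvd.dvd.mul_left ?_ _
      refine dvd_trans ?_ (dvd_prod_of_mem _ (mem_univ j0))
      refine pow_dvd_pow_of_dvd ?_ _
      rw [dvd_iff_isRoot]
      simp [ha, (hr j0).ne']
    have hcop : ∀ p : ℚ[X], p.eval a ≠ 0 → IsCoprime (X - C a) p := by
      intro p hp
      rw [(irreducible_X_sub_C a).coprime_iff_not_dvd, dvd_iff_isRoot]
      exact hp
    rw [← mul_prod_erase univ (fun j => (C (r j) * X - 1) ^ μ j) (mem_univ j0), mul_left_comm]
      at hdv
    have hc2 : IsCoprime ((X - C a) ^ ν j0) ((∏ j, (C (r j) * X + 1) ^ ν j) *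
        ∏ j ∈ univ.erase j0, (C (r j) * X - 1) ^ μ j) := by
      refine IsCoprime.pow_left (hcop _ ?_)
      simp only [eval_mul, eval_prod, eval_pow, eval_add, eval_sub, eval_C, eval_X, eval_one]
      refine mul_ne_zero (prod_ne_zero_iff.2 fun j _ => pow_ne_zero _ ?_)
        (prod_ne_zero_iff.2 fun j hj => pow_ne_zero _ ?_)
      · have := hr j; positivity
      · intro h0
        apply (mem_erase.1 hj).1
        apply hinj
        have := (hr j0).ne'
        rw [ha] at h0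
        field_simp at h0
        linarith
    have h4 := hc2.dvd_of_dvd_mul_right hdv
    have hne0 : (C (r j0) * X - 1 : ℚ[X]) ^ μ j0 ≠ 0 := by
      refine pow_ne_zero _ fun h0 => ?_
      have := congrArg (eval 0) h0
      simp at this
    have h5 := natDegree_le_of_dvd h4 hne0
    have h6 : (C (r j0) * X - 1 : ℚ[X]).natDegree ≤ 1 := by compute_degree
    rw [natDegree_pow, natDegree_pow, natDegree_X_sub_C] at h5
    nlinarith
  funext j
  exact le_antisymm (hP ν μ h.symm j) (hP μ ν h j)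

end Pool.Agent.H33.Cog
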