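import Pool.Agent.H33.Cog1

set_option autoImplicit false
open Filter Topology Finset Complex

namespace Pool.Agent.H33.Cog

noncomputable def ex (α : ℝ) : ℂ := Complex.exp (I * α)

lemma norm_ex (α : ℝ) : ‖ex α‖ = 1 := by
  simp [ex, Complex.norm_exp]

lemma ex_add (α β : ℝ) : ex (α + β) = ex α * ex β := by
  simp [ex, mul_add, Complex.exp_add]

lemma ex_lip (α β : ℝ) : ‖ex α - ex β‖ ≤ |α - β| := by
  have : ex α - ex β = ex β * (ex (α - β) - 1) := by
    rw [mul_sub, ← ex_add]; simp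
  rw [this, norm_mul, norm_ex, one_mul]
  exact Real.norm_exp_I_mul_ofReal_sub_one_le

lemma ex_int (m : ℤ) : ex (2 * Real.pi * m) = 1 := by
  have := Complex.exp_int_mul_two_pi_mul_I m
  rw [ex, ← this]; congr 1; push_cast; ring

lemma approx (τ : ℝ) (Q : ℕ) (hQ : 0 < Q) :
    ∃ l < Q, ∀ p : ℕ, ‖ex (2 * Real.pi * τ * p) - ex (2 * Real.pi * l / Q * p)‖ ≤ 8 * p / Q := by
  have hQ' : (0 : ℝ) < Q := by exact_mod_cast hQ
  have h0 := Int.fract_nonneg τ
  have h1 := Int.fract_lt_one τ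
  refine ⟨⌊Q * Int.fract τ⌋₊, ?_, fun p => ?_⟩
  · rw [Nat.floor_lt (by positivity)]; nlinarith
  · have e : ex (2 * Real.pi * τ * p) = ex (2 * Real.pi * Int.fract τ * p) := by
      have : 2 * Real.pi * τ * p = 2 * Real.pi * ((⌊τ⌋ * p : ℤ) : ℝ) +
          2 * Real.pi * Int.fract τ * p := by
        rw [Int.fract]; push_cast; ring
      rw [this, ex_add, ex_int, one_mul]
    rw [e]
    refine (ex_lip _ _).trans ?_
    have f1 := Nat.floor_le (a := Q * Int.fract τ) (by positivity)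
    have f2 := Nat.lt_floor_add_one (Q * Int.fract τ)
    set l : ℝ := (⌊Q * Int.fract τ⌋₊ : ℝ)
    have : 2 * Real.pi * Int.fract τ * p - 2 * Real.pi * l / Q * p =
        2 * Real.pi * (Q * Int.fract τ - l) * p / Q := by field_simp
    have hpi := Real.pi_pos
    have hd : 0 ≤ Q * Int.fract τ - l := by linarith
    rw [this, abs_of_nonneg (by positivity)]
    gcongr
    nlinarith [Real.pi_le_four]

def nn (j : ℕ × ℕ) : ℕ := 3 ^ j.1 * 5 ^ j.2

def rr (j : ℕ × ℕ) : ℚ := (nn j : ℚ) / 2 ^ Nat.log 2 (nn j)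

lemma nn_pos (j : ℕ × ℕ) : 0 < nn j := by unfold nn; positivity

lemma rr_bd (j : ℕ × ℕ) : 1 ≤ rr j ∧ rr j ≤ 2 := by
  have h1 := Nat.pow_log_le_self 2 (nn_pos j).ne'
  have h2 := Nat.lt_pow_succ_log_self (b := 2) (by norm_num) (nn j)
  unfold rr
  constructor
  · rw [le_div_iff₀ (by positivity), one_mul]; exact_mod_cast h1
  · rw [div_le_iff₀ (by positivity), ← pow_succ']; exact_mod_cast h2.le

lemma rr_inj : Function.Injective rr := by
  rintro ⟨a, b⟩ ⟨c, d⟩ h
  unfold rr at h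
  rw [div_eq_div_iff (by positivity) (by positivity)] at h
  generalize Nat.log 2 (nn (a, b)) = i at h
  generalize Nat.log 2 (nn (c, d)) = k at h
  have h' : 3 ^ a * 5 ^ b * 2 ^ k = 3 ^ c * 5 ^ d * 2 ^ i := by exact_mod_cast h
  have f : ∀ a b k : ℕ, (3 ^ a * 5 ^ b * 2 ^ k : ℕ).factorization =
      Finsupp.single 3 a + Finsupp.single 5 b + Finsupp.single 2 k := by
    intro a b k
    rw [Nat.factorization_mul (by positivity) (by positivity),
      Nat.factorization_mul (by positivity) (by positivity),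
      Nat.Prime.factorization_pow Nat.prime_three, Nat.Prime.factorization_pow Nat.prime_five,
      Nat.Prime.factorization_pow Nat.prime_two]
  have h2 := congrArg Nat.factorization h'
  rw [f, f] at h2
  have h3 := DFunLike.congr_fun h2 3
  have h5 := DFunLike.congr_fun h2 5
  simp at h3 h5
  simp [h3, h5]

lemma rr_frac (a : ℕ) (j : ℕ × ℕ) (h1 : j.1 ≤ a) (h2 : j.2 ≤ a) :
    ∃ p q : ℕ, p ≤ 2 * 16 ^ a ∧ q ≤ 2 * 16 ^ a ∧ rr j = p / 16 ^ a ∧ (rr j)⁻¹ = q / 15 ^ a := by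
  have hb := rr_bd j
  have hn : nn j ≤ 2 ^ (4 * a) := by
    unfold nn
    calc 3 ^ j.1 * 5 ^ j.2 ≤ 3 ^ a * 5 ^ a := by gcongr <;> norm_num
      _ = 15 ^ a := by rw [← mul_pow]; norm_num
      _ ≤ 16 ^ a := by gcongr; norm_num
      _ = _ := by rw [pow_mul]; norm_num
  have hi : Nat.log 2 (nn j) ≤ 4 * a := by
    have := (Nat.pow_log_le_self 2 (nn_pos j).ne').trans hn
    exact (Nat.pow_le_pow_iff_right (by norm_num)).1 this
  have e1 : rr j = ((nn j * 2 ^ (4 * a - Nat.log 2 (nn j)) : ℕ) : ℚ) / 16 ^ a := by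
    unfold rr
    obtain ⟨d, hd⟩ := Nat.exists_eq_add_of_le hi
    have : (16 : ℚ) ^ a = 2 ^ Nat.log 2 (nn j) * 2 ^ d := by
      rw [← pow_add, ← hd, pow_mul]; norm_num
    rw [this, hd, Nat.add_sub_cancel_left]; push_cast; field_simp
  have e2 : (rr j)⁻¹ =
      ((2 ^ Nat.log 2 (nn j) * (3 ^ (a - j.1) * 5 ^ (a - j.2)) : ℕ) : ℚ) / 15 ^ a := by
    unfold rr
    generalize Nat.log 2 (nn j) = i
    obtain ⟨d, hd⟩ := Nat.exists_eq_add_of_le h1
    obtain ⟨e, he⟩ := Nat.exists_eq_add_of_le h2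
    have k1 : a - j.1 = d := by omega
    have k2 : a - j.2 = e := by omega
    have : (15 : ℚ) ^ a = 3 ^ j.1 * 3 ^ d * (5 ^ j.2 * 5 ^ e) := by
      rw [← pow_add, ← pow_add, ← hd, ← he, ← mul_pow]; norm_num
    rw [this, k1, k2]; unfold nn; push_cast; field_simp
  refine ⟨_, _, ?_, ?_, e1, e2⟩
  · have := hb.2
    rw [e1, div_le_iff₀ (by positivity)] at this
    exact_mod_cast this
  · have h3 : (rr j)⁻¹ ≤ 1 := inv_le_one_of_one_le₀ hb.1
    rw [e2, div_le_iff₀ (by positivity), one_mul] at h3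
    have h4 : 15 ^ a ≤ 16 ^ a := by gcongr; norm_num
    have h5 : 2 ^ Nat.log 2 (nn j) * (3 ^ (a - j.1) * 5 ^ (a - j.2)) ≤ 15 ^ a := by
      exact_mod_cast h3
    omega

abbrev GG := ℝ × ℝ × ℕ × ℕ

noncomputable def chi (x : ℝ) (g : GG) : ℂ :=
  ex (g.1 * x) * ex (g.2.1 * x⁻¹) * (((x / 20 : ℝ) : ℂ) ^ g.2.2.1 * ((2 / x : ℝ) : ℂ) ^ g.2.2.2)

lemma amp (x : ℝ) (hx : x ∈ Set.Icc (4 : ℝ) 10) (a b : ℕ) :
    ‖((x / 20 : ℝ) : ℂ) ^ a * ((2 / x : ℝ) : ℂ) ^ b‖ ≤ (1 / 2) ^ a * (1 / 2) ^ b := by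
  have h0 : 0 < x := by linarith [hx.1]
  rw [norm_mul, norm_pow, norm_pow, Complex.norm_real, Complex.norm_real,
    Real.norm_of_nonneg (by positivity), Real.norm_of_nonneg (by positivity)]
  have k1 : x / 20 ≤ 1 / 2 := by linarith [hx.2]
  have k2 : 2 / x ≤ 1 / 2 := by rw [div_le_iff₀ h0]; linarith [hx.1]
  exact mul_le_mul (pow_le_pow_left₀ (by positivity) k1 _) (pow_le_pow_left₀ (by positivity) k2 _)
    (by positivity) (by positivity)

lemma amp1 (a b : ℕ) : ((1 : ℝ) / 2) ^ a * (1 / 2) ^ b ≤ 1 :=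
  mul_le_one₀ (pow_le_one₀ (by norm_num) (by norm_num)) (by positivity)
    (pow_le_one₀ (by norm_num) (by norm_num))

lemma grow (c D : ℕ) : ∃ a : ℕ, 1 ≤ a ∧ D * c ^ a < a ^ a := by
  refine ⟨2 * c + D + 1, by omega, ?_⟩
  set a := 2 * c + D + 1
  have h1 : D < 2 ^ a := lt_of_lt_of_le (by omega) (Nat.lt_two_pow_self (n := a)).le
  rcases Nat.eq_zero_or_pos c with hc | hc
  · subst hc; have : 0 < a := by omega
    rw [zero_pow this.ne', mul_zero]; positivity
  calc D * c ^ a < 2 ^ a * c ^ a := by gcongr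
    _ = (2 * c) ^ a := by rw [mul_pow]
    _ ≤ a ^ a := by gcongr; omega

lemma core (θ : ℝ) (hθ : Transcendental ℚ θ) (h4 : 4 ≤ θ) (h5 : θ ≤ 5) (C : ℕ) (hC : 1 ≤ C)
    (h : ∀ a n : ℕ, 1 ≤ a → ∃ g : GG, (a : ℝ) ^ 2 / (2 * C) <
      ‖∑ j : Fin a × Fin a, ((rr (j.1, j.2) * (-I * θ) + 1) / (rr (j.1, j.2) * (-I * θ) - 1)) ^ n
        * chi (θ * rr (j.1, j.2)) g‖) : False := by
  obtain ⟨a, ha, hlt⟩ := grow (16 * C ^ 2 * 256) ((128 * C) ^ 2 * (2 * C) ^ 2)
  have hC' : (1 : ℝ) ≤ C := by exact_mod_cast hC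
  have ha' : (1 : ℝ) ≤ a := by exact_mod_cast ha
  have hθ0 : 0 < θ := by linarith
  set r : Fin a × Fin a → ℚ := fun j => rr (j.1, j.2) with hr
  have hr0 : ∀ j, 0 < r j := fun j => lt_of_lt_of_le one_pos (rr_bd _).1
  have hrinj : Function.Injective r := by
    intro j k hjk
    have := rr_inj hjk
    simp only [Prod.mk.injEq] at this
    exact Prod.ext (Fin.ext this.1) (Fin.ext this.2)
  have hz : Transcendental ℚ (-I * θ : ℂ) := by
    intro hz
    apply hθ
    have hI : IsAlgebraic ℚ (I : ℂ) := by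
      refine ⟨Polynomial.X ^ 2 + 1, ?_, by simp⟩
      intro h0
      have := congrArg (Polynomial.eval 0) h0
      simp at this
    have h2 := hI.mul hz
    have : I * (-I * θ) = algebraMap ℝ ℂ θ := by
      simp only [coe_algebraMap]
      linear_combination (-θ : ℂ) * I_mul_I
    rw [this] at h2
    exact (isAlgebraic_algebraMap_iff (algebraMap ℝ ℂ).injective).1 h2
  set u : Fin a × Fin a → ℂ := fun j => (r j * (-I * θ) + 1) / (r j * (-I * θ) - 1) with hu
  have hu1 : ∀ j, ‖u j‖ = 1 := by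
    intro j
    have e : ‖(r j : ℂ) * (-I * θ) + 1‖ = ‖(r j : ℂ) * (-I * θ) - 1‖ := by
      rw [← RCLike.norm_conj, ← norm_neg]
      congr 1
      simp
      ring
    have : ‖(r j : ℂ) * (-I * θ) - 1‖ ≠ 0 := by
      rw [norm_ne_zero_iff]
      intro h0
      have := congrArg Complex.re h0
      simp at this
    simp only [hu, norm_div, e, div_self this]
  have hx : ∀ j, θ * r j ∈ Set.Icc (4 : ℝ) 10 := by
    intro j
    have b1 : (1 : ℝ) ≤ r j := by exact_mod_cast (rr_bd (j.1, j.2)).1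
    have b2 : (r j : ℝ) ≤ 2 := by exact_mod_cast (rr_bd (j.1, j.2)).2
    constructor <;> nlinarith
  choose p q hp hq hpe hqe using fun j : Fin a × Fin a =>
    rr_frac a (j.1, j.2) j.1.2.le j.2.2.le
  set Q : ℕ := 128 * C * 16 ^ a with hQ
  have hQ0 : 0 < Q := by positivity
  set K : ℕ := 2 * C with hK
  set net : Finset (ℕ × ℕ × ℕ × ℕ) := range Q ×ˢ range Q ×ˢ range K ×ˢ range K with hnet
  set w : ℕ × ℕ × ℕ × ℕ → Fin a × Fin a → ℂ := fun g j =>
    ex (2 * Real.pi * g.1 / Q * p j) * ex (2 * Real.pi * g.2.1 / Q * q j) *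
      (((θ * r j / 20 : ℝ) : ℂ) ^ g.2.2.1 * ((2 / (θ * r j) : ℝ) : ℂ) ^ g.2.2.2) with hw
  have hm := moment net u hu1 (indep r hr0 hrinj _ hz) w (fun g _ j => by
      simp only [hw, norm_mul (ex _ * ex _), norm_mul (ex _) (ex _), norm_ex, one_mul]
      exact (amp _ (hx j) _ _).trans (amp1 _ _)) ((a : ℝ) ^ 2 / (4 * C)) (by positivity) ?_ a
  · have hcard : (net.card : ℝ) = (128 * C * 16 ^ a) ^ 2 * (2 * C) ^ 2 := by
      simp only [hnet, card_product, card_range, hQ, hK]; push_cast; ring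
    have hfa : (a.factorial : ℝ) ≤ a ^ a := by exact_mod_cast Nat.factorial_le_pow a
    rw [hcard, Fintype.card_prod, Fintype.card_fin, div_pow, div_le_iff₀ (by positivity)] at hm
    have hlt' : ((128 * C) ^ 2 * (2 * C) ^ 2 : ℝ) * (16 * C ^ 2 * 256) ^ a < (a : ℝ) ^ a := by
      exact_mod_cast hlt
    set A : ℝ := (a : ℝ) ^ a with hA
    have hA0 : 0 < A := by positivity
    have e1 : ((a : ℝ) ^ 2) ^ (2 * a) = A ^ 3 * A := by rw [hA]; ring
    have e2 : (((a * a : ℕ) : ℝ)) ^ a = A ^ 2 := by rw [hA]; push_cast; ring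
    have e3 : ((128 : ℝ) * C * 16 ^ a) ^ 2 * (2 * C) ^ 2 * (4 * C) ^ (2 * a) =
        ((128 * C) ^ 2 * (2 * C) ^ 2 : ℝ) * (16 * C ^ 2 * 256) ^ a := by
      have : (256 : ℝ) ^ a = (16 ^ a) ^ 2 := by rw [← pow_mul, mul_comm, pow_mul]; norm_num
      rw [pow_mul (4 * (C : ℝ)), mul_pow (16 * (C : ℝ) ^ 2), this]
      have : (4 * (C : ℝ)) ^ 2 = 16 * C ^ 2 := by ring
      rw [this]; ring
    rw [e1, e2] at hm
    have : A ^ 3 * A ≤ A ^ 3 * (((128 * C) ^ 2 * (2 * C) ^ 2 : ℝ) * (16 * C ^ 2 * 256) ^ a) := by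
      refine hm.trans ?_
      rw [← e3]
      calc _ ≤ (128 * C * 16 ^ a) ^ 2 * (2 * C) ^ 2 * (A * A ^ 2) * (4 * (C : ℝ)) ^ (2 * a) := by
            gcongr
        _ = _ := by ring
    have := le_of_mul_le_mul_left this (by positivity)
    linarith
  · intro n
    obtain ⟨⟨t, s, b1, b2⟩, hg⟩ := h a n ha
    obtain ⟨l1, hl1, k1⟩ := approx (t * θ / (2 * Real.pi * 16 ^ a)) Q hQ0
    obtain ⟨l2, hl2, k2⟩ := approx (s / (θ * (2 * Real.pi * 15 ^ a))) Q hQ0
    have hsmall : (1 : ℝ) / (2 * C) < (1 / 2) ^ b1 * (1 / 2) ^ b2 := by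
      have : ‖∑ j, u j ^ n * chi (θ * r j) (t, s, b1, b2)‖ ≤
          (a : ℝ) ^ 2 * ((1 / 2) ^ b1 * (1 / 2) ^ b2) := by
        refine (norm_sum_le _ _).trans ?_
        refine (sum_le_card_nsmul _ _ ((1 / 2) ^ b1 * (1 / 2) ^ b2) fun j _ => ?_).trans ?_
        · simp only [chi, norm_mul (ex _ * ex _), norm_mul (ex _) (ex _), norm_ex, one_mul,
            norm_mul (u j ^ n), norm_pow (u j), hu1, one_pow]
          exact amp _ (hx j) _ _
        · simp [sq]
      have h2 := hg.trans_le this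
      rw [div_eq_mul_one_div] at h2
      exact lt_of_mul_lt_mul_left h2 (by positivity)
    have hK' : ∀ b : ℕ, (1 : ℝ) / (2 * C) < (1 / 2) ^ b → b < K := by
      intro b hb
      rw [one_div_pow, one_div_lt_one_div (by positivity) (by positivity)] at hb
      have : 2 ^ b < K := by rw [hK]; exact_mod_cast hb
      exact (Nat.lt_two_pow_self (n := b)).trans this
    have hb1 : b1 < K := hK' _ (hsmall.trans_le (mul_le_of_le_one_right (by positivity)
      (pow_le_one₀ (by norm_num) (by norm_num))))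
    have hb2 : b2 < K := hK' _ (hsmall.trans_le (mul_le_of_le_one_left (by positivity)
      (pow_le_one₀ (by norm_num) (by norm_num))))
    refine ⟨(l1, l2, b1, b2), by simp [hnet, hl1, hl2, hb1, hb2], ?_⟩
    have hdiff : ‖∑ j, u j ^ n * chi (θ * r j) (t, s, b1, b2) -
        ∑ j, u j ^ n * w (l1, l2, b1, b2) j‖ ≤ (a : ℝ) ^ 2 / (4 * C) := by
      rw [← sum_sub_distrib]
      refine (norm_sum_le _ _).trans ?_
      refine (sum_le_card_nsmul _ _ (1 / (4 * (C : ℝ))) fun j _ => ?_).trans ?_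
      · rw [← mul_sub, norm_mul, norm_pow, hu1, one_pow, one_mul]
        simp only [chi, hw]
        rw [← sub_mul, norm_mul]
        have hpi := Real.pi_pos
        have e1 : t * (θ * r j) = 2 * Real.pi * (t * θ / (2 * Real.pi * 16 ^ a)) * p j := by
          have : (r j : ℝ) = p j / 16 ^ a := by
            have := congrArg (fun q : ℚ => (q : ℝ)) (hpe j); push_cast at this; exact this
          rw [this]; field_simp
        have e2 : s * (θ * r j)⁻¹ = 2 * Real.pi * (s / (θ * (2 * Real.pi * 15 ^ a))) * q j := by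
          have : (r j : ℝ)⁻¹ = q j / 15 ^ a := by
            have := congrArg (fun q : ℚ => (q : ℝ)) (hqe j); push_cast at this; exact this
          rw [mul_inv, this]; field_simp
        rw [e1, e2]
        have k1' := k1 (p j)
        have k2' := k2 (q j)
        have bp : (8 : ℝ) * p j / Q ≤ 1 / (8 * C) := by
          have : (p j : ℝ) ≤ 2 * 16 ^ a := by exact_mod_cast hp j
          rw [hQ]; push_cast
          calc (8 : ℝ) * p j / (128 * C * 16 ^ a) ≤ 8 * (2 * 16 ^ a) / (128 * C * 16 ^ a) := by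
                gcongr
            _ = _ := by field_simp; norm_num
        have bq : (8 : ℝ) * q j / Q ≤ 1 / (8 * C) := by
          have : (q j : ℝ) ≤ 2 * 16 ^ a := by exact_mod_cast hq j
          rw [hQ]; push_cast
          calc (8 : ℝ) * q j / (128 * C * 16 ^ a) ≤ 8 * (2 * 16 ^ a) / (128 * C * 16 ^ a) := by
                gcongr
            _ = _ := by field_simp; norm_num
        have hd : ∀ α β γ δ : ℝ, ‖ex α * ex β - ex γ * ex δ‖ ≤ ‖ex α - ex γ‖ + ‖ex β - ex δ‖ := by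
          intro α β γ δ
          have : ex α * ex β - ex γ * ex δ = (ex α - ex γ) * ex β + ex γ * (ex β - ex δ) := by ring
          rw [this]
          refine (norm_add_le _ _).trans ?_
          simp [norm_ex]
        have h8 : (1 : ℝ) / (4 * C) = (1 / (8 * C) + 1 / (8 * C)) * 1 := by field_simp; norm_num
        rw [h8]
        refine mul_le_mul ((hd _ _ _ _).trans (add_le_add (k1'.trans bp) (k2'.trans bq)))
          ((amp _ (hx j) _ _).trans (amp1 _ _)) (norm_nonneg _) (by positivity)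
      · simp [sq, div_eq_mul_inv]
    have h3 := norm_sub_norm_le (∑ j, u j ^ n * chi (θ * r j) (t, s, b1, b2))
      (∑ j, u j ^ n * w (l1, l2, b1, b2) j)
    have h6 : (a : ℝ) ^ 2 / (2 * C) = a ^ 2 / (4 * C) + a ^ 2 / (4 * C) := by field_simp; norm_num
    have hg' : (a : ℝ) ^ 2 / (2 * C) < ‖∑ j, u j ^ n * chi (θ * r j) (t, s, b1, b2)‖ := hg
    linarith

end Pool.Agent.H33.Cog
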