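import Pool.Agent.H33.Cog2

set_option autoImplicit false
open Filter Topology Finset Complex BoundedContinuousFunction

namespace Pool.Agent.H33.Cog

section gen
variable {E : Type} [NormedAddCommGroup E] [NormedSpace ℂ E] [CompleteSpace E]

noncomputable def sg (A : E →L[ℂ] E) (t : ℝ) : E →L[ℂ] E := NormedSpace.exp ((t : ℂ) • A)

lemma sg_zero (A : E →L[ℂ] E) : sg A 0 = 1 := by simp [sg]

lemma sg_add (A : E →L[ℂ] E) (s t : ℝ) : sg A (s + t) = sg A s * sg A t := by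
  letI : NormedAlgebra ℚ (E →L[ℂ] E) := NormedAlgebra.restrictScalars ℚ ℂ _
  unfold sg
  rw [ofReal_add, add_smul]
  exact NormedSpace.exp_add_of_commute (((Commute.refl A).smul_left _).smul_right _)

lemma sg_deriv (A : E →L[ℂ] E) (x : E) (t : ℝ) :
    HasDerivAt (fun t : ℝ => sg A t x) (sg A t (A x)) t := by
  have h1 := hasDerivAt_exp_smul_const (𝕂 := ℂ) A (t : ℂ)
  have h2 : HasDerivAt (fun u : ℂ => NormedSpace.exp (u • A) x)
      (NormedSpace.exp ((t : ℂ) • A) (A x)) (t : ℂ) := by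
    have := (ContinuousLinearMap.apply ℂ E x).hasFDerivAt.comp_hasDerivAt (t : ℂ) h1
    exact this
  have h3 := (h2.hasFDerivAt.restrictScalars ℝ).comp_hasDerivAt t Complex.ofRealCLM.hasDerivAt
  simpa [sg, Function.comp_def] using h3

lemma sg_cont (A : E →L[ℂ] E) (x : E) : Continuous (fun t : ℝ => sg A t x) :=
  continuous_iff_continuousAt.2 fun t => (sg_deriv A x t).continuousAt

lemma sg_gen (A : E →L[ℂ] E) (x y : E) :
    Tendsto (fun t : ℝ => t⁻¹ • (sg A t x - x)) (𝓝[>] 0) (𝓝 y) ↔ y = A x := by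
  have h := (sg_deriv A x 0).tendsto_slope_zero_right
  simp only [zero_add, sg_zero, ContinuousLinearMap.one_apply] at h
  exact ⟨fun h' => tendsto_nhds_unique h' h, fun h' => h' ▸ h⟩

lemma pow_eig (A : E →L[ℂ] E) (x : E) (c : ℂ) (h : A x = c • x) (n : ℕ) :
    (A ^ n) x = c ^ n • x := by
  induction n with
  | zero => simp
  | succ n ih => rw [pow_succ, ContinuousLinearMap.mul_apply, h, map_smul, ih, smul_smul, pow_succ']

lemma sg_eig (A : E →L[ℂ] E) (x : E) (c : ℂ) (h : A x = c • x) (t : ℝ) :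
    sg A t x = Complex.exp (t * c) • x := by
  have h1 := (NormedSpace.exp_series_hasSum_exp' (𝕂 := ℂ) ((t : ℂ) • A)).mapL
    (ContinuousLinearMap.apply ℂ E x)
  have h2 := (NormedSpace.exp_series_hasSum_exp' (𝕂 := ℂ) ((t : ℂ) * c)).smul_const x
  rw [← Complex.exp_eq_exp_ℂ] at h2
  have h3 : ((t : ℂ) • A) x = ((t : ℂ) * c) • x := by
    rw [ContinuousLinearMap.smul_apply, h, smul_smul]
  refine HasSum.unique ?_ h2
  convert h1 using 1
  · funext n
    simp only [ContinuousLinearMap.apply_apply, ContinuousLinearMap.smul_apply]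
    rw [pow_eig _ _ _ h3, smul_assoc]
  · rfl

omit [CompleteSpace E] in
lemma nsm (c : ℂ) (A : E →L[ℂ] E) : ‖c • A‖ = ‖c‖ * ‖A‖ := norm_smul _ _

omit [CompleteSpace E] in
lemma ssub (c : ℂ) (x : E) : c • x - x = (c - 1) • x := by rw [sub_smul, one_smul]
end gen

abbrev KK := Set.Icc (4 : ℝ) 10

lemma chi_le (x : KK) (g : GG) : ‖chi x g‖ ≤ 1 := by
  simp only [chi, norm_mul (ex _ * ex _), norm_mul (ex _) (ex _), norm_ex, one_mul]
  exact (amp _ x.2 _ _).trans (amp1 _ _)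

lemma chi_cont (x : ℝ) : Continuous (chi x) := by
  unfold chi ex
  have h : ∀ c : ℂ, Continuous fun n : ℕ => c ^ n := fun c => continuous_of_discreteTopology
  refine Continuous.mul (by fun_prop) (Continuous.mul ?_ ?_)
  · exact (h _).comp (by fun_prop)
  · exact (h _).comp (by fun_prop)

lemma chi_add (x : ℝ) (g h : GG) : chi x (h + g) = chi x g * chi x h := by
  simp only [chi, Prod.fst_add, Prod.snd_add, add_mul, ex_add, pow_add]; ring

noncomputable def eb (x : KK) : GG →ᵇ ℂ :=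
  BoundedContinuousFunction.ofNormedAddCommGroup (chi x) (chi_cont x) 1 (chi_le x)

noncomputable def XX : Submodule ℂ (GG →ᵇ ℂ) :=
  (Submodule.span ℂ (Set.range eb)).topologicalClosure

instance : CompleteSpace XX := (Submodule.isClosed_topologicalClosure _).completeSpace_coe

noncomputable def sh (g : GG) : (GG →ᵇ ℂ) →L[ℂ] (GG →ᵇ ℂ) :=
  BoundedContinuousFunction.compContinuousCLM ℂ ℂ ⟨fun h => h + g, by fun_prop⟩

lemma sh_eb (g : GG) (x : KK) : sh g (eb x) = chi x g • eb x := by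
  ext h
  exact chi_add x g h

lemma eb_mem (x : KK) : eb x ∈ XX :=
  Submodule.le_topologicalClosure _ (Submodule.subset_span ⟨x, rfl⟩)

lemma sh_mem (g : GG) : ∀ f ∈ XX, sh g f ∈ XX := by
  have h : XX ≤ XX.comap (sh g).toLinearMap := by
    refine Submodule.topologicalClosure_minimal _ ?_ ?_
    · rw [Submodule.span_le]
      rintro _ ⟨x, rfl⟩
      show sh g (eb x) ∈ XX
      rw [sh_eb]; exact XX.smul_mem _ (eb_mem x)
    · exact (Submodule.isClosed_topologicalClosure _).preimage (sh g).continuous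
  exact h

noncomputable def ee (x : KK) : XX := ⟨eb x, eb_mem x⟩

noncomputable def ts (g : GG) : XX →L[ℂ] XX := (sh g).restrict (sh_mem g)

lemma ts_ee (g : GG) (x : KK) : ts g (ee x) = chi x g • ee x := Subtype.ext (sh_eb g x)

lemma ts_norm (g : GG) : ‖ts g‖ ≤ 1 := by
  refine ContinuousLinearMap.opNorm_le_bound _ zero_le_one fun f => ?_
  rw [one_mul]
  exact BoundedContinuousFunction.norm_compContinuous_le (f : GG →ᵇ ℂ) _

lemma op_ext (P Q : XX →L[ℂ] XX) (h : ∀ x, P (ee x) = Q (ee x)) : P = Q := by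
  have key : ∀ f ∈ XX, ∀ hf : f ∈ XX, P ⟨f, hf⟩ = Q ⟨f, hf⟩ := by
    set S : Submodule ℂ (GG →ᵇ ℂ) := (LinearMap.ker (P - Q).toLinearMap).map XX.subtype with hS
    have hc : IsClosed (S : Set (GG →ᵇ ℂ)) :=
      (Submodule.isClosed_topologicalClosure _).isClosedEmbedding_subtypeVal.isClosedMap _
        (P - Q).isClosed_ker
    have : XX ≤ S := by
      refine Submodule.topologicalClosure_minimal _ ?_ hc
      rw [Submodule.span_le]
      rintro _ ⟨x, rfl⟩
      exact ⟨ee x, by simp [h x], rfl⟩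
    intro f hf _
    obtain ⟨y, hy, rfl⟩ := this hf
    simpa [sub_eq_zero] using hy
  ext1 f
  exact key f f.2 f.2

noncomputable def AA : XX →L[ℂ] XX := (20 * I : ℂ) • ts (0, 0, 1, 0)
noncomputable def BB : XX →L[ℂ] XX := (-I / 2 : ℂ) • ts (0, 0, 0, 1)

lemma ne0 (x : KK) : ((x : ℝ) : ℂ) ≠ 0 := by
  have := x.2.1
  exact_mod_cast (by linarith : (x : ℝ) ≠ 0)

lemma AA_ee (x : KK) : AA (ee x) = (I * (x : ℝ)) • ee x := by
  simp only [AA, ContinuousLinearMap.smul_apply, ts_ee, smul_smul]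
  congr 1
  simp [chi, ex]; ring

lemma BB_ee (x : KK) : BB (ee x) = (-I / (x : ℝ)) • ee x := by
  simp only [BB, ContinuousLinearMap.smul_apply, ts_ee, smul_smul]
  congr 1
  simp [chi, ex]; ring

lemma AB : AA * BB = 1 := by
  refine op_ext _ _ fun x => ?_
  have := ne0 x
  rw [ContinuousLinearMap.mul_apply, BB_ee, map_smul, AA_ee, smul_smul]
  have : -I / ((x : ℝ) : ℂ) * (I * (x : ℝ)) = 1 := by field_simp; simp
  rw [this]; simp

lemma BA : BB * AA = 1 := by
  refine op_ext _ _ fun x => ?_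
  have := ne0 x
  rw [ContinuousLinearMap.mul_apply, AA_ee, map_smul, BB_ee, smul_smul]
  have : (I * (x : ℝ)) * (-I / ((x : ℝ) : ℂ)) = 1 := by field_simp; simp
  rw [this]; simp

lemma sgA (t : ℝ) : sg AA t = ts (t, 0, 0, 0) := by
  refine op_ext _ _ fun x => ?_
  rw [sg_eig _ _ _ (AA_ee x), ts_ee]
  congr 1
  simp only [chi, ex]; simp; congr 1; ring

lemma sgB (t : ℝ) : sg BB t = ts (0, -t, 0, 0) := by
  refine op_ext _ _ fun x => ?_
  rw [sg_eig _ _ _ (BB_ee x), ts_ee]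
  congr 1
  simp only [chi, ex]; simp; congr 1; ring

lemma BB_norm : ‖BB‖ < 1 := by
  have := ts_norm (0, 0, 0, 1)
  rw [BB, nsm]
  have e : ‖(-I / 2 : ℂ)‖ = 1 / 2 := by simp
  rw [e]; linarith

noncomputable def VV : XX →L[ℂ] XX := (1 + BB) * ((Units.oneSub BB BB_norm)⁻¹ : (XX →L[ℂ] XX)ˣ)

lemma VV_mul : VV * (1 - BB) = 1 + BB := by
  have : ((Units.oneSub BB BB_norm)⁻¹ : (XX →L[ℂ] XX)ˣ) * (1 - BB) = (1 : XX →L[ℂ] XX) :=
    (Units.oneSub BB BB_norm).inv_mul
  rw [VV, mul_assoc, this, mul_one]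

lemma VV_A (x : XX) : VV (AA x - x) = AA x + x := by
  have h1 : BB (AA x) = x := by
    have := congrArg (fun P : XX →L[ℂ] XX => P x) BA
    simpa using this
  have := congrArg (fun P : XX →L[ℂ] XX => P (AA x)) VV_mul
  simpa [h1] using this

lemma den_ne (x : ℝ) : I * (x : ℂ) - 1 ≠ 0 := by
  intro h; have := congrArg Complex.re h; simp at this

lemma VV_ee (x : KK) : VV (ee x) = ((I * (x : ℝ) + 1) / (I * (x : ℝ) - 1)) • ee x := by
  have h := VV_A (ee x)
  rw [AA_ee] at h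
  have e1 : (I * ((x : ℝ) : ℂ)) • ee x - ee x = (I * ((x : ℝ) : ℂ) - 1) • ee x := ssub _ _
  have e2 : (I * ((x : ℝ) : ℂ)) • ee x + ee x = (I * ((x : ℝ) : ℂ) + 1) • ee x := by
    rw [add_smul, one_smul]
  rw [e1, e2, map_smul] at h
  rw [div_eq_inv_mul, mul_smul, ← h, smul_smul, inv_mul_cancel₀ (den_ne _), one_smul]

lemma unbdd : ¬ ∃ C : ℝ, ∀ n : ℕ, ‖VV ^ n‖ ≤ C := by
  rintro ⟨C0, hC0⟩
  obtain ⟨θ, hθ1, hθ⟩ : ∃ θ ∈ Set.Icc (4 : ℝ) 5, Transcendental ℚ θ := by
    by_contra hcon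
    push Not at hcon
    have h1 : (Set.Icc (4 : ℝ) 5).Countable := by
      refine (Algebraic.countable ℚ ℝ).mono fun x hx => ?_
      have := hcon x hx
      simpa [Transcendental] using this
    have := h1.measure_zero MeasureTheory.volume
    simp at this
    norm_num at this
  obtain ⟨C, hC⟩ := exists_nat_ge (max C0 1)
  have hC1 : (1 : ℝ) ≤ C := (le_max_right _ _).trans hC
  refine core θ hθ hθ1.1 hθ1.2 C (by exact_mod_cast hC1) fun a n ha => ?_
  have hx : ∀ j : Fin a × Fin a, θ * rr (j.1, j.2) ∈ Set.Icc (4 : ℝ) 10 := by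
    intro j
    have b1 : (1 : ℝ) ≤ rr (j.1, j.2) := by exact_mod_cast (rr_bd (j.1, j.2)).1
    have b2 : (rr (j.1, j.2) : ℝ) ≤ 2 := by exact_mod_cast (rr_bd (j.1, j.2)).2
    constructor <;> nlinarith [hθ1.1, hθ1.2]
  set u : Fin a × Fin a → ℂ := fun j =>
    ((rr (j.1, j.2) * (-I * θ) + 1) / (rr (j.1, j.2) * (-I * θ) - 1)) with hu
  set f : XX := ∑ j, u j ^ n • ee ⟨_, hx j⟩ with hf
  have h1 : (VV ^ n) f = ∑ j, ee ⟨_, hx j⟩ := by
    rw [hf, map_sum]
    refine sum_congr rfl fun j _ => ?_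
    rw [map_smul, pow_eig _ _ _ (VV_ee _), smul_smul, ← mul_pow]
    have d1 := den_ne (θ * rr (j.1, j.2))
    have d2 := den_ne (-(θ * rr (j.1, j.2)))
    have : u j * ((I * ((θ * rr (j.1, j.2) : ℝ) : ℂ) + 1) / (I * ((θ * rr (j.1, j.2) : ℝ) : ℂ) - 1))
        = 1 := by
      simp only [hu]
      push_cast at d1 d2 ⊢
      have d3 : (rr (j.1, j.2) : ℂ) * (-I * θ) - 1 ≠ 0 := by
        intro h; apply d2; linear_combination h
      rw [div_mul_div_comm, div_eq_one_iff_eq (mul_ne_zero d3 d1)]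
      ring
    rw [this, one_pow, one_smul]
  have h2 : (a : ℝ) ^ 2 ≤ ‖(VV ^ n) f‖ := by
    have k := BoundedContinuousFunction.norm_coe_le_norm (((VV ^ n) f : XX) : GG →ᵇ ℂ) 0
    refine le_trans (le_of_eq ?_) k
    rw [h1]
    have : ((∑ j, ee ⟨_, hx j⟩ : XX) : GG →ᵇ ℂ) 0 = ∑ j : Fin a × Fin a, (1 : ℂ) := by
      rw [Submodule.coe_sum, BoundedContinuousFunction.sum_apply]
      refine sum_congr rfl fun j _ => ?_
      show chi _ 0 = 1
      simp [chi, ex]
    rw [this]; simp [sq]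
  have h3 : ‖(VV ^ n) f‖ ≤ C * ‖f‖ :=
    ((VV ^ n).le_opNorm f).trans (mul_le_mul_of_nonneg_right
      ((hC0 n).trans ((le_max_left _ _).trans hC)) (norm_nonneg _))
  by_contra hcon
  push Not at hcon
  have ha' : (1 : ℝ) ≤ a := by exact_mod_cast ha
  have h4 : ‖f‖ ≤ (a : ℝ) ^ 2 / (2 * C) := by
    show ‖(f : GG →ᵇ ℂ)‖ ≤ _
    rw [BoundedContinuousFunction.norm_le (by positivity)]
    intro g
    refine le_trans (le_of_eq ?_) (hcon g)
    congr 1
    rw [hf, Submodule.coe_sum, BoundedContinuousFunction.sum_apply]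
    rfl
  have h5 : (C : ℝ) * ((a : ℝ) ^ 2 / (2 * C)) = a ^ 2 / 2 := by field_simp
  have h6 := mul_le_mul_of_nonneg_left h4 (by positivity : (0 : ℝ) ≤ C)
  have : (0 : ℝ) < a ^ 2 := by positivity
  linarith

end Pool.Agent.H33.Cog
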