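import Mathlib

set_option autoImplicit false

namespace Pool.Agent.H33.Dan

open AddMonoidAlgebra Polynomial

abbrev G := ℤ ×ₗ ℤ
abbrev L := AddMonoidAlgebra ℂ G

def g (a b : ℤ) : G := toLex (a, b)

lemma g_add (a b c d : ℤ) : g a b + g c d = g (a + c) (b + d) := rfl
lemma g_zero : g 0 0 = 0 := rfl
lemma g_inj {a b c d : ℤ} : g a b = g c d ↔ a = c ∧ b = d := by simp [g]
lemma g_le {a b c d : ℤ} : g a b ≤ g c d ↔ a < c ∨ (a = c ∧ b ≤ d) := by
  simp [g, Prod.Lex.toLex_le_toLex]
lemma g_surj (s : G) : ∃ a b, s = g a b := ⟨(ofLex s).1, (ofLex s).2, rfl⟩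
@[simp] lemma g_fst (a b : ℤ) : (ofLex (g a b)).1 = a := rfl
@[simp] lemma g_snd (a b : ℤ) : (ofLex (g a b)).2 = b := rfl

def Le (f : L) (e : G) : Prop := ∀ s, f.coeff s ≠ 0 → s ≤ e
def Lead (f : L) (e : G) : Prop := Le f e ∧ f.coeff e ≠ 0
def Yl (f : L) (N : ℤ) : Prop := ∀ s, f.coeff s ≠ 0 → (ofLex s).1 < N

lemma Le.add {f h : L} {e : G} (hf : Le f e) (hh : Le h e) : Le (f + h) e := by
  intro s hs
  by_contra hc
  apply hs
  have h1 : f.coeff s = 0 := by by_contra h1; exact hc (hf s h1)
  have h2 : h.coeff s = 0 := by by_contra h1; exact hc (hh s h1)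
  simp [h1, h2]

lemma Le.mono {f : L} {e e' : G} (hf : Le f e) (h : e ≤ e') : Le f e' :=
  fun s hs => (hf s hs).trans h

lemma Le.zero (e : G) : Le 0 e := fun s hs => absurd (by simp) hs

lemma Le.mul {f h : L} {e e' : G} (hf : Le f e) (hh : Le h e') :
    Le (f * h) (e + e') ∧ (f * h).coeff (e + e') = f.coeff e * h.coeff e' := by
  classical
  constructor
  · intro s hs
    have := support_coeff_mul_subset f h (Finsupp.mem_support_iff.2 hs)
    obtain ⟨a, ha, b, hb, rfl⟩ := Finset.mem_add.1 this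
    exact add_le_add (hf a (Finsupp.mem_support_iff.1 ha)) (hh b (Finsupp.mem_support_iff.1 hb))
  · apply coeff_mul_add_of_uniqueAdd
    intro a b ha hb hab
    have h1 := hf a (Finsupp.mem_support_iff.1 ha)
    have h2 := hh b (Finsupp.mem_support_iff.1 hb)
    exact (add_eq_add_iff_eq_and_eq h1 h2).1 hab

lemma Lead.mul {f h : L} {e e' : G} (hf : Lead f e) (hh : Lead h e') : Lead (f * h) (e + e') :=
  ⟨(hf.1.mul hh.1).1, by rw [(hf.1.mul hh.1).2]; exact mul_ne_zero hf.2 hh.2⟩

lemma Lead.single (e : G) : Lead (single e 1) e := by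
  constructor
  · intro s hs
    rw [coeff_single, Finsupp.single_apply_ne_zero] at hs
    exact hs.1.le
  · simp

lemma Lead.pow {f : L} {a b : ℤ} (hf : Lead f (g a b)) (n : ℕ) :
    Lead (f ^ n) (g (n * a) (n * b)) := by
  induction n with
  | zero => simpa [g_zero, one_def] using Lead.single 0
  | succ n ih =>
    have := ih.mul hf
    rw [g_add] at this
    rw [pow_succ]
    convert this using 2 <;> push_cast <;> ring

lemma Lead.unique {f : L} {e e' : G} (h : Lead f e) (h' : Lead f e') : e = e' :=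
  le_antisymm (h'.1 e h.2) (h.1 e' h'.2)

lemma Lead.ne_zero {f : L} {e : G} (h : Lead f e) : f ≠ 0 := by
  rintro rfl
  exact h.2 (by simp)

lemma exists_lead {f : L} (h : f ≠ 0) : ∃ e, Lead f e := by
  have : f.coeff.support.Nonempty := by
    rw [Finsupp.support_nonempty_iff]; simpa using h
  refine ⟨f.coeff.support.max' this, fun s hs => ?_, ?_⟩
  · exact Finset.le_max' _ _ (Finsupp.mem_support_iff.2 hs)
  · exact Finsupp.mem_support_iff.1 (Finset.max'_mem _ _)

lemma Lead.add_lt {f h : L} {e e' : G} (hf : Lead f e) (hh : Le h e') (hlt : e' < e) :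
    Lead (f + h) e := by
  refine ⟨hf.1.add (hh.mono hlt.le), ?_⟩
  have h2 : h.coeff e = 0 := by by_contra h1; exact absurd (hh e h1) (not_le.2 hlt)
  simpa [h2] using hf.2

lemma Lead.add_yl {f h : L} {a b : ℤ} (hf : Lead f (g a b)) (hh : Yl h a) :
    Lead (f + h) (g a b) := by
  refine ⟨hf.1.add fun s hs => ?_, ?_⟩
  · obtain ⟨c, d, rfl⟩ := g_surj s
    exact g_le.2 (Or.inl (hh _ hs))
  · have h2 : h.coeff (g a b) = 0 := by by_contra h1; exact absurd (hh _ h1) (by simp)
    simpa [h2] using hf.2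

lemma Le.yl {f : L} {a b N : ℤ} (hf : Le f (g a b)) (h : a < N) : Yl f N := by
  intro s hs
  obtain ⟨c, d, rfl⟩ := g_surj s
  have := g_le.1 (hf _ hs)
  simp only [g_fst]
  omega

lemma Yl.zero (N : ℤ) : Yl 0 N := fun s hs => absurd (by simp) hs

noncomputable def E (l : G → ℂ) (f : L) : L :=
  .ofCoeff (Finsupp.onFinset f.coeff.support (fun s => l s * f.coeff s)
    (fun _ hs => Finsupp.mem_support_iff.2 (right_ne_zero_of_mul hs)))

@[simp] lemma E_coeff (l : G → ℂ) (f : L) (s : G) : (E l f).coeff s = l s * f.coeff s := rfl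

lemma E_add (l : G → ℂ) (f h : L) : E l (f + h) = E l f + E l h := by
  ext s; simp [mul_add]

lemma E_zero (l : G → ℂ) : E l 0 = 0 := by ext s; simp

lemma E_single (l : G → ℂ) (e : G) (c : ℂ) : E l (single e c) = single e (l e * c) := by
  ext s
  by_cases h : s = e
  · subst h; simp
  · simp [Finsupp.single_eq_of_ne h]

lemma E_mul (l : G → ℂ) (hl : ∀ a b, l (a + b) = l a + l b) (f h : L) :
    E l (f * h) = f * E l h + h * E l f := by
  induction f using AddMonoidAlgebra.induction_linear with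
  | zero => simp [E_zero]
  | add f1 f2 h1 h2 => rw [add_mul, E_add, E_add, h1, h2]; ring
  | single a c =>
    induction h using AddMonoidAlgebra.induction_linear with
    | zero => simp [E_zero]
    | add f1 f2 h1 h2 => rw [mul_add, E_add, E_add, h1, h2]; ring
    | single b d =>
      simp only [single_mul_single, E_single, hl]
      rw [add_comm b a, ← single_add]
      congr 1; ring

lemma Le.E {f : L} {e : G} (l : G → ℂ) (hf : Le f e) : Le (E l f) e :=
  fun s hs => hf s (right_ne_zero_of_mul hs)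

def l1 (s : G) : ℂ := ((ofLex s).1 : ℤ)
def l2 (s : G) : ℂ := ((ofLex s).2 : ℤ)
lemma l1_add (a b : G) : l1 (a + b) = l1 a + l1 b := by simp [l1]
lemma l2_add (a b : G) : l2 (a + b) = l2 a + l2 b := by simp [l2]
@[simp] lemma l1_g (a b : ℤ) : l1 (g a b) = a := rfl
@[simp] lemma l2_g (a b : ℤ) : l2 (g a b) = b := rfl

noncomputable def xL : L := single (g 0 1) 1
noncomputable def xi : L := single (g 0 (-1)) 1
noncomputable def yL : L := single (g 1 0) 1
noncomputable def yi : L := single (g (-1) 0) 1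

lemma x_xi : xL * xi = 1 := by simp [xL, xi, single_mul_single, g_add, g_zero, one_def]
lemma y_yi : yL * yi = 1 := by simp [yL, yi, single_mul_single, g_add, g_zero, one_def]

lemma xL_pow (n : ℕ) : xL ^ n = single (g 0 n) 1 := by
  induction n with
  | zero => simp [g_zero, one_def]
  | succ n ih => rw [pow_succ, ih, xL, single_mul_single, g_add]; simp

lemma yL_pow (n : ℕ) : yL ^ n = single (g n 0) 1 := by
  induction n with
  | zero => simp [g_zero, one_def]
  | succ n ih => rw [pow_succ, ih, yL, single_mul_single, g_add]; simp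

lemma aeval_monomial_xL (n : ℕ) (c : ℂ) : aeval xL (monomial n c) = single (g 0 n) c := by
  rw [aeval_monomial, xL_pow, coe_algebraMap]
  simp [single_mul_single]

lemma coeff_aeval (a : ℂ[X]) (i : ℕ) : (aeval xL a).coeff (g 0 i) = a.coeff i := by
  induction a using Polynomial.induction_on' with
  | add p q hp hq => simp [hp, hq]
  | monomial n c =>
    rw [aeval_monomial_xL, coeff_monomial, coeff_single, Finsupp.single_apply]
    simp [g_inj]

lemma supp_aeval (a : ℂ[X]) (s : G) (hs : (aeval xL a).coeff s ≠ 0) : ∃ i : ℕ, s = g 0 i := by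
  induction a using Polynomial.induction_on' with
  | add p q hp hq =>
    by_contra hc
    apply hs
    have h1 : (aeval xL p).coeff s = 0 := by by_contra h1; exact hc (hp h1)
    have h2 : (aeval xL q).coeff s = 0 := by by_contra h1; exact hc (hq h1)
    simp [h1, h2]
  | monomial n c =>
    rw [aeval_monomial_xL, coeff_single, Finsupp.single_apply_ne_zero] at hs
    exact ⟨n, hs.1⟩

lemma lead_aeval {a : ℂ[X]} (ha : a ≠ 0) : Lead (aeval xL a) (g 0 a.natDegree) := by
  constructor
  · intro s hs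
    obtain ⟨i, rfl⟩ := supp_aeval a s hs
    rw [coeff_aeval] at hs
    exact g_le.2 (Or.inr ⟨rfl, by exact_mod_cast le_natDegree_of_ne_zero hs⟩)
  · rw [coeff_aeval]; simpa using ha

lemma E1_aeval (a : ℂ[X]) : E l1 (aeval xL a) = 0 := by
  ext s
  by_cases hs : (aeval xL a).coeff s = 0
  · simp [hs]
  · obtain ⟨i, rfl⟩ := supp_aeval a s hs
    simp

noncomputable def j : ℂ[X][X] →+* L := eval₂RingHom (aeval xL : ℂ[X] →ₐ[ℂ] L).toRingHom yL

lemma j_C (a : ℂ[X]) : j (C a) = aeval xL a := by simp [j]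
lemma j_X : j X = yL := by simp [j]

lemma coeff_j (F : ℂ[X][X]) (n i : ℕ) : (j F).coeff (g n i) = (F.coeff n).coeff i := by
  induction F using Polynomial.induction_on' with
  | add p q hp hq => simp [hp, hq]
  | monomial m a =>
    rw [← C_mul_X_pow_eq_monomial, map_mul, map_pow, j_C, j_X, yL_pow, coeff_C_mul_X_pow,
      coeff_mul_single_apply]
    by_cases h : n = m
    · subst h
      have : g n i + -g n 0 = g 0 i := by
        rw [add_neg_eq_iff_eq_add, g_add]; simp
      rw [this, coeff_aeval]; simp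
    · rw [if_neg h]
      have : (aeval xL a).coeff (g n i + -g m 0) = 0 := by
        by_contra hc
        obtain ⟨k, hk⟩ := supp_aeval a _ hc
        rw [add_neg_eq_iff_eq_add, g_add, g_inj] at hk
        omega
      rw [this]; simp

lemma j_inj : Function.Injective j := by
  intro F H h
  ext n i
  rw [← coeff_j, ← coeff_j, h]

end Pool.Agent.H33.Dan
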