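import Mathlib
import Pool.Agent.H33.Dan1

set_option autoImplicit false

namespace Pool.Agent.H33.Dan

open AddMonoidAlgebra Polynomial

abbrev Pol := MvPolynomial (Fin 3) ℂ

noncomputable def P : Pol :=
  MvPolynomial.X 0 ^ 2 * MvPolynomial.X 2 - MvPolynomial.X 1 ^ 7 -
    MvPolynomial.X 0 * (MvPolynomial.X 1 ^ 4 + MvPolynomial.X 1 ^ 5)

abbrev R (d : ℂ) := Pol ⧸ Ideal.span {P - MvPolynomial.C d}

noncomputable def mk (d : ℂ) : Pol →ₐ[ℂ] R d := Ideal.Quotient.mkₐ ℂ _
noncomputable def x (d : ℂ) : R d := mk d (MvPolynomial.X 0)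
noncomputable def y (d : ℂ) : R d := mk d (MvPolynomial.X 1)
noncomputable def u (d : ℂ) : R d := mk d (MvPolynomial.X 2)

lemma mk_surj (d : ℂ) : Function.Surjective (mk d) := Ideal.Quotient.mkₐ_surjective ℂ _

lemma mk_eq_zero (d : ℂ) (q : Pol) : mk d q = 0 ↔ P - MvPolynomial.C d ∣ q := by
  rw [← Ideal.mem_span_singleton]; exact Ideal.Quotient.eq_zero_iff_mem

lemma rel (d : ℂ) : x d ^ 2 * u d = y d ^ 7 + x d * (y d ^ 4 + y d ^ 5) + algebraMap ℂ (R d) d := by
  have h : mk d (P - MvPolynomial.C d) = 0 := (mk_eq_zero d _).2 dvd_rfl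
  have h2 : mk d (MvPolynomial.C d) = algebraMap ℂ (R d) d := (mk d).commutes d
  simp only [P, map_sub, map_mul, map_pow, map_add, h2] at h
  simp only [x, y, u]
  linear_combination h

noncomputable def uL (d : ℂ) : L :=
  xi ^ 2 * (yL ^ 7 + (xL * (yL ^ 4 + yL ^ 5) + algebraMap ℂ L d))

noncomputable def ι (d : ℂ) : R d →ₐ[ℂ] L :=
  Ideal.Quotient.liftₐ _ (MvPolynomial.aeval ![xL, yL, uL d]) (by
    intro a ha
    obtain ⟨b, rfl⟩ := Ideal.mem_span_singleton.1 ha
    have : MvPolynomial.aeval ![xL, yL, uL d] (P - MvPolynomial.C d) = 0 := by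
      simp only [P, map_sub, map_mul, map_pow, map_add, MvPolynomial.aeval_X, MvPolynomial.aeval_C,
        Matrix.cons_val_zero, Matrix.cons_val_one, Matrix.cons_val, uL]
      linear_combination (xL * xi + 1) *
        (yL ^ 7 + (xL * (yL ^ 4 + yL ^ 5) + algebraMap ℂ L d)) * x_xi
    rw [map_mul, this, zero_mul])

lemma ι_mk (d : ℂ) (q : Pol) : ι d (mk d q) = MvPolynomial.aeval ![xL, yL, uL d] q := rfl
lemma ι_x (d : ℂ) : ι d (x d) = xL := by simp [x, ι_mk]
lemma ι_y (d : ℂ) : ι d (y d) = yL := by simp [y, ι_mk]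
lemma ι_u (d : ℂ) : ι d (u d) = uL d := by simp [u, ι_mk]
lemma ι_aeval (d : ℂ) (a : ℂ[X]) : ι d (aeval (x d) a) = aeval xL a := by
  rw [← aeval_algHom_apply, ι_x]

lemma lead_xL : Lead xL (g 0 1) := Lead.single _
lemma lead_yL : Lead yL (g 1 0) := Lead.single _
lemma lead_xi : Lead xi (g 0 (-1)) := Lead.single _
lemma lead_yi : Lead yi (g (-1) 0) := Lead.single _

lemma le_const (d : ℂ) : Le (algebraMap ℂ L d) (g 0 0) := by
  intro s hs
  rw [coe_algebraMap] at hs
  simp only [Algebra.algebraMap_self, RingHom.coe_id, Function.comp_apply, id, coeff_single,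
    Finsupp.single_apply_ne_zero] at hs
  exact hs.1.le

lemma lead_uL (d : ℂ) : Lead (uL d) (g 7 (-2)) := by
  have h1 := lead_xi.pow 2
  have h2 := lead_yL.pow 7
  have h4 := (lead_yL.pow 4).1.mono (e' := g 5 0) (g_le.2 (by norm_num))
  have h5 := (lead_yL.pow 5).1.mono (e' := g 5 0) (g_le.2 (by norm_num))
  have h6 := (lead_xL.1.mul (h4.add h5)).1
  rw [g_add] at h6
  have h7 := h6.add ((le_const d).mono (g_le.2 (by norm_num)))
  have h8 := h1.mul (h2.add_yl (h7.yl (by norm_num)))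
  rw [g_add] at h8
  simpa [uL] using h8

noncomputable def e (d : ℂ) (n : ℕ) : R d := y d ^ (n % 7) * u d ^ (n / 7)

lemma lead_e (d : ℂ) (n : ℕ) : Lead (ι d (e d n)) (g n (-2 * (n / 7 : ℕ))) := by
  have := (lead_yL.pow (n % 7)).mul ((lead_uL d).pow (n / 7))
  rw [g_add] at this
  rw [e, map_mul, map_pow, map_pow, ι_y, ι_u]
  convert this using 2 <;> omega

def Rep (d : ℂ) : ℕ → R d → Prop
  | 0, f => f = 0
  | N + 1, f => ∃ (a : ℂ[X]) (h : R d), Rep d N h ∧ f = aeval (x d) a * e d N + h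

lemma Rep.zero (d : ℂ) : ∀ N, Rep d N 0
  | 0 => rfl
  | N + 1 => ⟨0, 0, Rep.zero d N, by simp⟩

lemma Rep.succ {d : ℂ} {N : ℕ} {f : R d} (h : Rep d N f) : Rep d (N + 1) f :=
  ⟨0, f, h, by simp⟩

lemma Rep.mono {d : ℂ} {N M : ℕ} {f : R d} (h : Rep d N f) (hN : N ≤ M) : Rep d M f := by
  induction hN with
  | refl => exact h
  | step _ ih => exact ih.succ

lemma Rep.add {d : ℂ} : ∀ {N : ℕ} {f h : R d}, Rep d N f → Rep d N h → Rep d N (f + h)
  | 0, f, h, hf, hh => by
      have h1 : f = 0 := hf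
      have h2 : h = 0 := hh
      show f + h = 0
      simp [h1, h2]
  | N + 1, f, h, ⟨a, f', hf, e1⟩, ⟨b, h', hh, e2⟩ =>
      ⟨a + b, f' + h', hf.add hh, by rw [e1, e2, map_add]; ring⟩

lemma Rep.mulx {d : ℂ} (b : ℂ[X]) : ∀ {N : ℕ} {f : R d}, Rep d N f → Rep d N (aeval (x d) b * f)
  | 0, f, hf => by
      have h1 : f = 0 := hf
      show _ = 0
      simp [h1]
  | N + 1, f, ⟨a, f', hf, e1⟩ =>
      ⟨b * a, aeval (x d) b * f', hf.mulx b, by rw [e1, map_mul]; ring⟩

def S (d : ℂ) (f : R d) : Prop := ∃ N, Rep d N f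

lemma S.add {d : ℂ} {f h : R d} (hf : S d f) (hh : S d h) : S d (f + h) := by
  obtain ⟨N, hN⟩ := hf
  obtain ⟨M, hM⟩ := hh
  exact ⟨max N M, (hN.mono (le_max_left _ _)).add (hM.mono (le_max_right _ _))⟩

lemma S.mulx {d : ℂ} (b : ℂ[X]) {f : R d} (hf : S d f) : S d (aeval (x d) b * f) := by
  obtain ⟨N, hN⟩ := hf
  exact ⟨N, hN.mulx b⟩

lemma S_e (d : ℂ) (n : ℕ) : S d (e d n) := ⟨n + 1, 1, 0, Rep.zero d n, by simp⟩

lemma S_yu (d : ℂ) (i k : ℕ) (hi : i < 7) : S d (y d ^ i * u d ^ k) := by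
  have := S_e d (i + 7 * k)
  rw [e] at this
  convert this using 3 <;> omega

lemma S.mul_of {d : ℂ} (t : R d) (ht : ∀ n, S d (e d n * t)) {f : R d} (hf : S d f) :
    S d (f * t) := by
  obtain ⟨N, hN⟩ := hf
  induction N generalizing f with
  | zero =>
    have h1 : f = 0 := hN
    exact ⟨0, by show _ = 0; simp [h1]⟩
  | succ N ih =>
    obtain ⟨a, h, hh, rfl⟩ := hN
    rw [add_mul, mul_assoc]
    exact ((ht N).mulx a).add (ih hh)

lemma S_all (d : ℂ) (f : R d) : S d f := by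
  obtain ⟨q, rfl⟩ := mk_surj d f
  induction q using MvPolynomial.induction_on with
  | C c =>
    have h2 : mk d (MvPolynomial.C c) = algebraMap ℂ (R d) c := (mk d).commutes c
    have := (S_e d 0).mulx (C c)
    rw [h2]
    simpa [e] using this
  | add p q hp hq => rw [map_add]; exact hp.add hq
  | mul_X p k hp =>
    rw [map_mul]
    apply S.mul_of _ _ hp
    intro n
    fin_cases k
    · have := (S_e d n).mulx X
      rw [aeval_X, mul_comm] at this
      exact this
    · show S d (e d n * y d)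
      by_cases h : n % 7 = 6
      · have e1 : e d n * y d = aeval (x d) (X ^ 2 : ℂ[X]) * (y d ^ 0 * u d ^ (n / 7 + 1)) +
            (aeval (x d) (-X : ℂ[X]) * (y d ^ 4 * u d ^ (n / 7)) +
            (aeval (x d) (-X : ℂ[X]) * (y d ^ 5 * u d ^ (n / 7)) +
            aeval (x d) (C (-d) : ℂ[X]) * (y d ^ 0 * u d ^ (n / 7)))) := by
          simp only [e, h, map_pow, map_neg, aeval_X, aeval_C]
          linear_combination (-u d ^ (n / 7)) * rel d
        rw [e1]
        exact ((S_yu d _ _ (by norm_num)).mulx _).add (((S_yu d _ _ (by norm_num)).mulx _).add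
          (((S_yu d _ _ (by norm_num)).mulx _).add ((S_yu d _ _ (by norm_num)).mulx _)))
      · have := S_yu d (n % 7 + 1) (n / 7) (by omega)
        convert this using 1
        rw [e]; ring
    · show S d (e d n * u d)
      have := S_yu d (n % 7) (n / 7 + 1) (by omega)
      convert this using 1
      rw [e]; ring

lemma Rep.lead {d : ℂ} : ∀ {N : ℕ} {f : R d}, Rep d N f →
    f = 0 ∨ ∃ n i : ℕ, n < N ∧ Rep d (n + 1) f ∧ Lead (ι d f) (g n (i - 2 * (n / 7 : ℕ)))
  | 0, _, hf => Or.inl hf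
  | N + 1, f, ⟨a, h, hh, e1⟩ => by
      by_cases ha : a = 0
      · have : f = h := by rw [e1, ha]; simp
        rw [this]
        rcases hh.lead with h0 | ⟨n, i, h1, h2, h3⟩
        · exact Or.inl h0
        · exact Or.inr ⟨n, i, by omega, h2, h3⟩
      · right
        refine ⟨N, a.natDegree, by omega, ⟨a, h, hh, e1⟩, ?_⟩
        have h1 := (lead_aeval ha).mul (lead_e d N)
        rw [g_add] at h1
        have h2 : Yl (ι d h) (0 + N) := by
          rcases hh.lead with h0 | ⟨n, i, h1, _, h3⟩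
          · rw [h0, map_zero]; exact Yl.zero _
          · exact h3.1.yl (by omega)
        have h3 := h1.add_yl h2
        rw [e1, map_add, map_mul, ι_aeval]
        convert h3 using 2 <;> ring

lemma lead_of_ne {d : ℂ} {f : R d} (hf : f ≠ 0) :
    ∃ n i : ℕ, Rep d (n + 1) f ∧ Lead (ι d f) (g n (i - 2 * (n / 7 : ℕ))) := by
  obtain ⟨N, hN⟩ := S_all d f
  rcases hN.lead with h0 | ⟨n, i, _, h2, h3⟩
  · exact absurd h0 hf
  · exact ⟨n, i, h2, h3⟩

lemma ι_inj (d : ℂ) : Function.Injective (ι d) := by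
  rw [injective_iff_map_eq_zero]
  intro f hf
  by_contra h
  obtain ⟨n, i, _, h2⟩ := lead_of_ne h
  exact h2.ne_zero hf

lemma rep_of_yl {d : ℂ} {f : R d} {N : ℕ} (h : Yl (ι d f) N) : Rep d N f := by
  by_cases hf : f = 0
  · rw [hf]; exact Rep.zero d N
  · obtain ⟨n, i, h1, h2⟩ := lead_of_ne hf
    have := h _ h2.2
    simp only [g_fst] at this
    exact h1.mono (by omega)

lemma Rep.poly {d : ℂ} : ∀ {N : ℕ} {f : R d}, N ≤ 7 → Rep d N f → ∃ H : ℂ[X][X], ι d f = j H
  | 0, f, _, hf => ⟨0, by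
      have h1 : f = 0 := hf
      simp [h1]⟩
  | N + 1, f, hN, ⟨a, h, hh, e1⟩ => by
      obtain ⟨H, hH⟩ := hh.poly (by omega)
      refine ⟨C a * X ^ N + H, ?_⟩
      have h1 : N % 7 = N := by omega
      have h2 : N / 7 = 0 := by omega
      rw [e1, map_add, map_mul, ι_aeval, hH, e, h1, h2]
      simp [j_C, j_X, ι_y]

lemma prime_P (d : ℂ) : Prime (P - MvPolynomial.C d) := by
  have h0 : P - MvPolynomial.C d ≠ 0 := by
    intro h
    have h1 := congrArg (MvPolynomial.eval ![0, 0, 0]) h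
    have h2 := congrArg (MvPolynomial.eval ![0, 1, 0]) h
    simp [P] at h1 h2
    rw [h1] at h2
    norm_num at h2
  rw [← Ideal.span_singleton_prime h0, ← Ideal.Quotient.isDomain_iff_prime]
  exact (ι_inj d).isDomain (ι d).toRingHom

end Pool.Agent.H33.Dan
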