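import Mathlib
import Pool.Agent.H33.Dan2

set_option autoImplicit false

namespace Pool.Agent.H33.Dan

open AddMonoidAlgebra Polynomial

def Leib {d : ℂ} (D : R d →ₗ[ℂ] R d) : Prop := ∀ a b, D (a * b) = a * D b + b * D a

lemma Leib.one {d : ℂ} {D : R d →ₗ[ℂ] R d} (h : Leib D) : D 1 = 0 := by
  have := h 1 1
  simp only [mul_one, one_mul] at this
  exact left_eq_add.1 this

lemma Leib.const {d : ℂ} {D : R d →ₗ[ℂ] R d} (h : Leib D) (c : ℂ) :
    D (algebraMap ℂ (R d) c) = 0 := by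
  rw [Algebra.algebraMap_eq_smul_one, map_smul, h.one, smul_zero]

lemma E_const (l : G → ℂ) (hl : ∀ a b, l (a + b) = l a + l b) (c : ℂ) :
    E l (algebraMap ℂ L c) = 0 := by
  have h0 : l 0 = 0 := by
    have := hl 0 0
    rw [add_zero] at this
    exact left_eq_add.1 this
  rw [coe_algebraMap]
  simp [E_single, h0]

lemma formula {d : ℂ} {D : R d →ₗ[ℂ] R d} (h : Leib D) (f : R d) :
    ι d (D f) = ι d (D (x d)) * xi * E l2 (ι d f) + ι d (D (y d)) * yi * E l1 (ι d f) := by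
  let Δ : R d → L := fun f => ι d (D f) -
    (ι d (D (x d)) * xi * E l2 (ι d f) + ι d (D (y d)) * yi * E l1 (ι d f))
  have hadd : ∀ a b, Δ (a + b) = Δ a + Δ b := by
    intro a b
    simp only [Δ, map_add, E_add]; ring
  have hmul : ∀ a b, Δ (a * b) = ι d a * Δ b + ι d b * Δ a := by
    intro a b
    simp only [Δ, h a b, map_add, map_mul, E_mul l1 l1_add, E_mul l2 l2_add]; ring
  have hc : ∀ c, Δ (algebraMap ℂ (R d) c) = 0 := by
    intro c
    simp only [Δ, h.const, map_zero, AlgHom.commutes, E_const l1 l1_add, E_const l2 l2_add]; ring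
  have hx : Δ (x d) = 0 := by
    have e1 : E l1 xL = 0 := by simp [xL, E_single]
    have e2 : E l2 xL = xL := by simp [xL, E_single]
    simp only [Δ, ι_x, e1, e2]
    linear_combination (-ι d (D (x d))) * x_xi
  have hy : Δ (y d) = 0 := by
    have e1 : E l1 yL = yL := by simp [yL, E_single]
    have e2 : E l2 yL = 0 := by simp [yL, E_single]
    simp only [Δ, ι_y, e1, e2]
    linear_combination (-ι d (D (y d))) * y_yi
  have hpow : ∀ a, Δ a = 0 → ∀ n : ℕ, Δ (a ^ n) = 0 := by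
    intro a ha n
    induction n with
    | zero => simpa using hc 1
    | succ n ih => rw [pow_succ, hmul, ha, ih]; simp
  have hu : Δ (u d) = 0 := by
    have h1 := congrArg Δ (rel d)
    simp only [hmul, hadd, hpow _ hx, hpow _ hy, hc, hx, map_pow, ι_x, mul_zero, add_zero] at h1
    linear_combination xi ^ 2 * h1 - (xL * xi + 1) * Δ (u d) * x_xi
  have key : Δ f = 0 := by
    obtain ⟨q, rfl⟩ := mk_surj d f
    induction q using MvPolynomial.induction_on with
    | C c =>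
      have h2 : mk d (MvPolynomial.C c) = algebraMap ℂ (R d) c := (mk d).commutes c
      rw [h2, hc]
    | add p q hp hq => rw [map_add, hadd, hp, hq, add_zero]
    | mul_X p k hp =>
      have : Δ (mk d (MvPolynomial.X k)) = 0 := by
        fin_cases k
        · exact hx
        · exact hy
        · exact hu
      rw [map_mul, hmul, hp, this]; simp
  exact sub_eq_zero.1 key

noncomputable def δ0 : Derivation ℂ Pol Pol :=
  MvPolynomial.mkDerivation ℂ ![0, MvPolynomial.X 0 ^ 2, 7 * MvPolynomial.X 1 ^ 6 +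
    MvPolynomial.X 0 * (4 * MvPolynomial.X 1 ^ 3 + 5 * MvPolynomial.X 1 ^ 4)]

lemma δ0_P (c : ℂ) : δ0 (P - MvPolynomial.C c) = 0 := by
  have h0 : δ0 (MvPolynomial.X 0) = 0 := by simp [δ0]
  have h1 : δ0 (MvPolynomial.X 1) = MvPolynomial.X 0 ^ 2 := by simp [δ0]
  have h2 : δ0 (MvPolynomial.X 2) = 7 * MvPolynomial.X 1 ^ 6 +
    MvPolynomial.X 0 * (4 * MvPolynomial.X 1 ^ 3 + 5 * MvPolynomial.X 1 ^ 4) := by simp [δ0]
  simp only [P, map_sub, map_add, Derivation.leibniz, Derivation.leibniz_pow, h0, h1, h2,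
    MvPolynomial.derivation_C, smul_eq_mul, nsmul_eq_mul]
  push_cast
  ring

lemma δ0_ker (c : ℂ) (q : Pol) (hq : mk c q = 0) : mk c (δ0 q) = 0 := by
  obtain ⟨b, rfl⟩ := (mk_eq_zero c q).1 hq
  rw [mk_eq_zero, Derivation.leibniz, δ0_P]
  simp

noncomputable def δ (c : ℂ) : Derivation ℂ (R c) (R c) :=
  Derivation.liftOfSurjective (f := mk c) (mk_surj c) (d := δ0) (δ0_ker c)

lemma δ_mk (c : ℂ) (q : Pol) : δ c (mk c q) = mk c (δ0 q) :=
  Derivation.liftOfSurjective_apply _ (δ0_ker c) _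

lemma δ_x (c : ℂ) : δ c (x c) = 0 := by rw [x, δ_mk]; simp [δ0]
lemma δ_y (c : ℂ) : δ c (y c) = x c ^ 2 := by rw [y, δ_mk]; simp [δ0, x]

lemma δ_leib (c : ℂ) : Leib (δ c).toLinearMap := by
  intro a b
  simp

lemma δ_nil (c : ℂ) (f : R c) : ∃ N, (δ c)^[N] f = 0 := by
  have key : ∀ (N : ℕ) (f : R c), Yl (ι c f) N → (δ c)^[N] f = 0 := by
    intro N
    induction N with
    | zero => intro f hf; exact rep_of_yl hf
    | succ N ih =>
      intro f hf
      rw [Function.iterate_succ_apply]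
      apply ih
      by_cases h0 : f = 0
      · rw [h0, map_zero, map_zero]; exact Yl.zero _
      obtain ⟨n, i, _, h2⟩ := lead_of_ne h0
      have h3 := hf _ h2.2
      have h4 := formula (δ_leib c) f
      simp only [Derivation.coeFn_coe, δ_x, δ_y, map_zero, zero_mul, zero_add, map_pow,
        ι_x] at h4
      have h5 := (((lead_xL.pow 2).mul lead_yi).1.mul (h2.1.E l1)).1
      rw [g_add, g_add] at h5
      rw [h4]
      apply h5.yl
      simp only [g_fst] at h3
      push_cast at h3 ⊢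
      omega
  obtain ⟨N, hN⟩ := S_all c f
  rcases hN.lead with h0 | ⟨n, i, _, _, h3⟩
  · exact ⟨0, h0⟩
  · exact ⟨n + 1, key _ _ (h3.1.yl (by push_cast; omega))⟩

lemma kernel {d : ℂ} {D : R d →ₗ[ℂ] R d} (h : Leib D) (hnil : ∀ f, ∃ N, D^[N] f = 0)
    (hne : ∃ f, D f ≠ 0) {f : R d} (hf : D f = 0) : Rep d 1 f := by
  obtain ⟨A, hA⟩ : ∃ A, A = ι d (D (x d)) * xi := ⟨_, rfl⟩
  obtain ⟨B, hB⟩ : ∃ B, B = ι d (D (y d)) * yi := ⟨_, rfl⟩
  have hform : ∀ f, ι d (D f) = A * E l2 (ι d f) + B * E l1 (ι d f) := by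
    intro f; rw [hA, hB]; exact formula h f
  have hAB : ∃ e, Le A e ∧ Le B e ∧ (A.coeff e ≠ 0 ∨ B.coeff e ≠ 0) := by
    by_cases hA0 : A = 0
    · by_cases hB0 : B = 0
      · obtain ⟨f, hf⟩ := hne
        exact absurd (ι_inj d (by rw [hform, hA0, hB0]; simp)) hf
      · obtain ⟨e, he⟩ := exists_lead hB0
        exact ⟨e, hA0 ▸ Le.zero e, he.1, Or.inr he.2⟩
    · obtain ⟨e, he⟩ := exists_lead hA0
      by_cases hB0 : B = 0
      · exact ⟨e, he.1, hB0 ▸ Le.zero e, Or.inl he.2⟩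
      · obtain ⟨e', he'⟩ := exists_lead hB0
        rcases le_total e e' with hle | hle
        · exact ⟨e', he.1.mono hle, he'.1, Or.inr he'.2⟩
        · exact ⟨e, he.1, he'.1.mono hle, Or.inl he.2⟩
  obtain ⟨ε, hεA, hεB, hε⟩ := hAB
  obtain ⟨α, hα⟩ : ∃ α, α = A.coeff ε := ⟨_, rfl⟩
  obtain ⟨β, hβ⟩ : ∃ β, β = B.coeff ε := ⟨_, rfl⟩
  rw [← hα, ← hβ] at hε
  obtain ⟨l, hl⟩ : ∃ l : G → ℂ, l = fun s => α * l2 s + β * l1 s := ⟨_, rfl⟩
  have ladd : ∀ a b, l (a + b) = l a + l b := by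
    intro a b; rw [hl]; simp only [l1_add, l2_add]; ring
  have lg : ∀ a b : ℤ, l (g a b) = α * b + β * a := by intro a b; rw [hl]; simp
  have step : ∀ k s, Lead (ι d k) s → l s ≠ 0 → Lead (ι d (D k)) (ε + s) := by
    intro k s hk hs
    have h1 := hεA.mul (hk.1.E l2)
    have h2 := hεB.mul (hk.1.E l1)
    rw [hform]
    refine ⟨h1.1.add h2.1, ?_⟩
    rw [AddMonoidAlgebra.coeff_add, Finsupp.add_apply, h1.2, h2.2, E_coeff, E_coeff, ← hα, ← hβ]
    have : α * (l2 s * (ι d k).coeff s) + β * (l1 s * (ι d k).coeff s) =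
      l s * (ι d k).coeff s := by rw [hl]; ring
    rw [this]
    exact mul_ne_zero hs hk.2
  have iter : ∀ (N : ℕ) k s, D^[N] k = 0 → Lead (ι d k) s →
      (∃ n : ℕ, l s + n * l ε = 0) ∧
      (l s ≠ 0 → ∃ k' s', Lead (ι d k') s' ∧ l s' + l ε = 0) := by
    intro N
    induction N with
    | zero =>
      intro k s hk hs
      have : k = 0 := hk
      exact absurd (by rw [this, map_zero]) hs.ne_zero
    | succ N ih =>
      intro k s hk hs
      by_cases h0 : l s = 0
      · exact ⟨⟨0, by simp [h0]⟩, fun h1 => absurd h0 h1⟩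
      · rw [Function.iterate_succ_apply] at hk
        obtain ⟨⟨n, hn⟩, h2⟩ := ih _ _ hk (step k s hs h0)
        refine ⟨⟨n + 1, by rw [ladd] at hn; push_cast; linear_combination hn⟩, fun _ => ?_⟩
        by_cases h3 : l (ε + s) = 0
        · exact ⟨k, s, hs, by rw [ladd] at h3; linear_combination h3⟩
        · exact h2 h3
  have iter' : ∀ k s, Lead (ι d k) s → (∃ n : ℕ, l s + n * l ε = 0) ∧
      (l s ≠ 0 → ∃ k' s', Lead (ι d k') s' ∧ l s' + l ε = 0) := by
    intro k s hs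
    obtain ⟨N, hN⟩ := hnil k
    exact iter N k s hN hs
  have ix := iter' (x d) _ (by rw [ι_x]; exact lead_xL)
  have iy := iter' (y d) _ (by rw [ι_y]; exact lead_yL)
  have iu := iter' (u d) _ (by rw [ι_u]; exact lead_uL d)
  rw [lg] at ix iy iu
  obtain ⟨⟨a, ha⟩, ix⟩ := ix
  obtain ⟨⟨b, hb⟩, iy⟩ := iy
  obtain ⟨⟨c, hc⟩, -⟩ := iu
  simp only [Int.cast_one, mul_one, Int.cast_zero, mul_zero, add_zero, zero_add] at ha hb ix iy
  push_cast at hc
  have hl0 : l ε ≠ 0 := by
    intro h0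
    rw [h0] at ha hb
    rcases hε with h1 | h1
    · exact h1 (by simpa using ha)
    · exact h1 (by simpa using hb)
  have hab : ¬ (a = 0 ∧ b = 0) := by
    rintro ⟨rfl, rfl⟩
    rcases hε with h1 | h1
    · exact h1 (by simpa using ha)
    · exact h1 (by simpa using hb)
  have habc : 7 * b = 2 * a + c := by
    have : ((7 * b : ℕ) : ℂ) = ((2 * a + c : ℕ) : ℂ) := by
      apply mul_right_cancel₀ hl0
      push_cast
      linear_combination 7 * hb - 2 * ha - hc
    exact_mod_cast this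
  have val : ∀ n i : ℕ, l (g n (i - 2 * (n / 7 : ℕ))) +
      ((a * i + b * (n % 7) + c * (n / 7) : ℕ) : ℂ) * l ε = 0 := by
    intro n i
    obtain ⟨q, hq⟩ : ∃ q, q = n / 7 := ⟨_, rfl⟩
    obtain ⟨r, hr⟩ : ∃ r, r = n % 7 := ⟨_, rfl⟩
    have hn : n = r + 7 * q := by omega
    rw [← hq, ← hr, lg, hn]
    push_cast
    linear_combination (i : ℂ) * ha + (r : ℂ) * hb + (q : ℂ) * hc
  have one : ∃ n i : ℕ, a * i + b * (n % 7) + c * (n / 7) = 1 := by
    have : ∃ k' s', Lead (ι d k') s' ∧ l s' + l ε = 0 := by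
      rcases hε with h1 | h1
      · exact ix h1
      · exact iy h1
    obtain ⟨k', s', h1, h2⟩ := this
    obtain ⟨n, i, _, h4⟩ := lead_of_ne (f := k') (by
      rintro rfl
      exact h1.ne_zero (map_zero _))
    refine ⟨n, i, ?_⟩
    have h5 := val n i
    rw [← h1.unique h4] at h5
    have : ((a * i + b * (n % 7) + c * (n / 7) : ℕ) : ℂ) = ((1 : ℕ) : ℂ) := by
      apply mul_right_cancel₀ hl0
      rw [Nat.cast_one]
      linear_combination h5 - h2
    exact_mod_cast this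
  by_cases hf0 : f = 0
  · rw [hf0]; exact Rep.zero d 1
  obtain ⟨n, i, h1, h2⟩ := lead_of_ne hf0
  have h3 : l (g n (i - 2 * (n / 7 : ℕ))) = 0 := by
    by_contra h3
    exact (step _ _ h2 h3).ne_zero (by rw [hf, map_zero])
  have h4 := val n i
  rw [h3, zero_add] at h4
  have h5 : a * i + b * (n % 7) + c * (n / 7) = 0 := by
    exact_mod_cast (mul_eq_zero.1 h4).resolve_right hl0
  have h6 : b * (n % 7) = 0 := by omega
  have h7 : c * (n / 7) = 0 := by omega
  have h8 : n % 7 = 0 := by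
    rcases Nat.mul_eq_zero.1 h6 with h | h
    · omega
    · exact h
  have h9 : n / 7 = 0 := by
    rcases Nat.mul_eq_zero.1 h7 with h | h
    · exfalso
      obtain ⟨n', i', h10⟩ := one
      obtain ⟨k, hk⟩ : ∃ k, b = 2 * k := ⟨b / 2, by omega⟩
      have hk2 : a = 7 * k := by omega
      rw [h, hk, hk2] at h10
      have h11 : k * (7 * i' + 2 * (n' % 7)) = 1 := by rw [← h10]; ring
      have := Nat.eq_one_of_mul_eq_one_left h11
      omega
    · exact h
  have : n = 0 := by omega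
  subst this
  exact h1

end Pool.Agent.H33.Dan
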