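import Mathlib
import Pool.Agent.H33.Dan3

set_option autoImplicit false

namespace Pool.Agent.H33.Dan

open AddMonoidAlgebra Polynomial

lemma rep1 {d : ℂ} {f : R d} (h : Rep d 1 f) : ∃ a : ℂ[X], f = aeval (x d) a := by
  obtain ⟨a, k, hk, e1⟩ := h
  have : k = 0 := hk
  exact ⟨a, by rw [e1, this]; simp [e]⟩

lemma rep2 {d : ℂ} {f : R d} (h : Rep d 2 f) :
    ∃ a b : ℂ[X], f = aeval (x d) a * y d + aeval (x d) b := by
  obtain ⟨a, k, hk, e1⟩ := h
  obtain ⟨b, rfl⟩ := rep1 hk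
  exact ⟨a, b, by rw [e1]; simp [e]⟩

noncomputable def tr {c d : ℂ} (φ : R c ≃ₐ[ℂ] R d) : R d →ₗ[ℂ] R d :=
  φ.toLinearMap ∘ₗ (δ c).toLinearMap ∘ₗ φ.symm.toLinearMap

lemma tr_apply {c d : ℂ} (φ : R c ≃ₐ[ℂ] R d) (f : R c) : tr φ (φ f) = φ (δ c f) := by
  simp [tr]

lemma tr_leib {c d : ℂ} (φ : R c ≃ₐ[ℂ] R d) : Leib (tr φ) := by
  intro a b
  obtain ⟨a, rfl⟩ := φ.surjective a
  obtain ⟨b, rfl⟩ := φ.surjective b
  rw [← map_mul, tr_apply, tr_apply, tr_apply]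
  simp

lemma tr_nil {c d : ℂ} (φ : R c ≃ₐ[ℂ] R d) (f : R d) : ∃ N, (tr φ)^[N] f = 0 := by
  obtain ⟨f, rfl⟩ := φ.surjective f
  obtain ⟨N, hN⟩ := δ_nil c f
  refine ⟨N, ?_⟩
  have : ∀ (n : ℕ) f, (tr φ)^[n] (φ f) = φ ((δ c)^[n] f) := by
    intro n
    induction n with
    | zero => intro f; rfl
    | succ n ih => intro f; rw [Function.iterate_succ_apply, tr_apply, ih]; rfl
  rw [this, hN, map_zero]

lemma x_ne (c : ℂ) : x c ^ 2 ≠ 0 := by
  intro h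
  have := congrArg (ι c) h
  rw [map_pow, ι_x, map_zero] at this
  exact (lead_xL.pow 2).ne_zero this

lemma img_x {c d : ℂ} (φ : R c ≃ₐ[ℂ] R d) : ∃ a : ℂ[X], φ (x c) = aeval (x d) a := by
  apply rep1
  apply kernel (tr_leib φ) (tr_nil φ)
  · refine ⟨φ (y c), ?_⟩
    rw [tr_apply, δ_y]
    exact fun h => x_ne c (φ.injective (h.trans (map_zero φ).symm))
  · rw [tr_apply, δ_x, map_zero]

lemma aeval_inj {d : ℂ} {a b : ℂ[X]} (h : aeval (x d) a = aeval (x d) b) : a = b := by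
  have := congrArg (ι d) h
  rw [ι_aeval, ι_aeval] at this
  ext i
  rw [← coeff_aeval, ← coeff_aeval, this]

lemma map_aeval {c d : ℂ} (φ : R c ≃ₐ[ℂ] R d) {a : ℂ[X]} (h : φ (x c) = aeval (x d) a)
    (b : ℂ[X]) : φ (aeval (x c) b) = aeval (x d) (b.comp a) := by
  rw [aeval_comp, ← h]
  exact (aeval_algHom_apply (φ : R c →ₐ[ℂ] R d) (x c) b).symm

lemma img_x' {c d : ℂ} (φ : R c ≃ₐ[ℂ] R d) :
    ∃ la κ : ℂ, la ≠ 0 ∧ φ (x c) = aeval (x d) (C la * X + C κ) := by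
  obtain ⟨a, ha⟩ := img_x φ
  obtain ⟨a', ha'⟩ := img_x φ.symm
  have h1 : a'.comp a = X := by
    apply aeval_inj (d := d)
    rw [← map_aeval φ ha, ← ha', aeval_X, AlgEquiv.apply_symm_apply]
  have h2 := congrArg natDegree h1
  rw [natDegree_comp, natDegree_X] at h2
  have h3 := Nat.eq_one_of_mul_eq_one_left h2
  refine ⟨a.coeff 1, a.coeff 0, ?_, ?_⟩
  · rw [← h3]
    intro h0
    have : a = 0 := by simpa using h0
    rw [this] at h3
    simp at h3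
  · rw [← eq_X_add_C_of_natDegree_le_one h3.le, ha]

lemma img_y {c d : ℂ} (φ : R c ≃ₐ[ℂ] R d) :
    ∃ ν b : ℂ[X], φ (y c) = aeval (x d) ν * y d + aeval (x d) b := by
  obtain ⟨la, κ, hla, hx⟩ := img_x' φ
  have h1 : tr φ (x d) = 0 := by
    have := tr_apply φ (x c)
    rw [δ_x, map_zero, hx] at this
    simp only [map_add, map_mul, aeval_C, aeval_X, (tr_leib φ).const, add_zero,
      ← Algebra.smul_def, map_smul] at this
    exact (smul_eq_zero.1 this).resolve_left hla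
  have h2 := formula (tr_leib φ) (φ (y c))
  rw [h1, tr_apply, δ_y, map_pow, hx, map_pow, ι_aeval, ← map_pow] at h2
  simp only [map_zero, zero_mul, zero_add] at h2
  have ha : (C la * X + C κ) ^ 2 ≠ 0 := by
    apply pow_ne_zero
    intro h
    have := congrArg (Polynomial.coeff · 1) h
    simp at this
    exact hla this
  have h3 := lead_aeval ha
  apply rep2
  by_cases hY : φ (y c) = 0
  · rw [hY]; exact Rep.zero d 2
  obtain ⟨n, i, h4, h5⟩ := lead_of_ne hY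
  by_cases hn : n = 0
  · exact h4.mono (by omega)
  have hB : tr φ (y d) ≠ 0 := by
    intro h
    rw [h] at h2
    exact h3.ne_zero (by rw [h2]; simp)
  obtain ⟨m, k, _, h6⟩ := lead_of_ne hB
  have h7 : Lead (E l1 (ι d (φ (y c)))) (g n (i - 2 * (n / 7 : ℕ))) := by
    refine ⟨h5.1.E l1, ?_⟩
    rw [E_coeff, l1_g]
    exact mul_ne_zero (by exact_mod_cast hn) h5.2
  have h8 := (h6.mul lead_yi).mul h7
  rw [← h2, g_add, g_add] at h8
  have h9 := (g_inj.1 (h3.unique h8)).1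
  exact h4.mono (by omega)

lemma coeffs8 (c0 c1 c2 c3 c4 c5 c6 c7 : ℂ)
    (h : ∀ t : ℂ, c0 + c1 * t + c2 * t ^ 2 + c3 * t ^ 3 + c4 * t ^ 4 + c5 * t ^ 5 + c6 * t ^ 6 +
      c7 * t ^ 7 = 0) : c0 = 0 ∧ c4 = 0 ∧ c5 = 0 ∧ c6 = 0 ∧ c7 = 0 := by
  have : (C c0 + C c1 * X + C c2 * X ^ 2 + C c3 * X ^ 3 + C c4 * X ^ 4 + C c5 * X ^ 5 +
      C c6 * X ^ 6 + C c7 * X ^ 7 : ℂ[X]) = 0 := by
    apply Polynomial.funext
    intro t
    simpa using h t
  have h0 := congrArg (Polynomial.coeff · 0) this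
  have h4 := congrArg (Polynomial.coeff · 4) this
  have h5 := congrArg (Polynomial.coeff · 5) this
  have h6 := congrArg (Polynomial.coeff · 6) this
  have h7 := congrArg (Polynomial.coeff · 7) this
  simp [coeff_X, coeff_X_pow, coeff_C] at h0 h4 h5 h6 h7
  exact ⟨h0, h4, h5, h6, h7⟩

theorem rigid {c d : ℂ} (φ : R c ≃ₐ[ℂ] R d) : c = d := by
  obtain ⟨la, κ, hla, hx⟩ := img_x' φ
  obtain ⟨a, ha⟩ : ∃ a : ℂ[X], a = C la * X + C κ := ⟨_, rfl⟩
  rw [← ha] at hx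
  obtain ⟨ν, b, hy⟩ := img_y φ
  obtain ⟨ν', b', hy'⟩ := img_y φ.symm
  have hν : ∀ t, ν.eval t ≠ 0 := by
    have h1 := congrArg φ hy'
    rw [AlgEquiv.apply_symm_apply, map_add, map_mul, map_aeval φ hx, map_aeval φ hx, hy] at h1
    have h2 : (X : ℂ[X][X]) = C (ν'.comp a) * (C ν * X + C b) + C (b'.comp a) := by
      apply j_inj
      have := congrArg (ι d) h1
      simpa [j_C, j_X, ι_aeval, ι_y] using this
    have h3 := congrArg (Polynomial.coeff · 1) h2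
    simp at h3
    intro t ht
    have := congrArg (eval t) h3
    simp [ht] at this
  have hr := congrArg (ι d) (congrArg φ (rel c))
  simp only [map_add, map_mul, map_pow, hx, hy, AlgEquiv.commutes, AlgHom.commutes, ι_aeval,
    ι_y] at hr
  have ha0 : a ≠ 0 := by
    intro h
    rw [ha] at h
    have := congrArg (Polynomial.coeff · 1) h
    simp at this
    exact hla this
  have hU : Rep d 8 (φ (u c)) := by
    by_cases h0 : φ (u c) = 0
    · rw [h0]; exact Rep.zero d 8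
    obtain ⟨n, i, h1, h2⟩ := lead_of_ne h0
    have h3 := ((lead_aeval ha0).pow 2).mul h2
    rw [hr, g_add] at h3
    have h4 : Yl (ι d (φ (y c))) 2 := by
      have : Rep d 2 (φ (y c)) := ⟨ν, aeval (x d) b, ⟨b, 0, rfl, by simp [e]⟩, by rw [hy]; simp [e]⟩
      rcases this.lead with h | ⟨n, i, h5, _, h6⟩
      · rw [h, map_zero]; exact Yl.zero _
      · exact h6.1.yl (by omega)
    have h5 : φ (y c) ≠ 0 := by
      intro h
      have := congrArg (ι c) (φ.injective (h.trans (map_zero φ).symm))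
      rw [ι_y, map_zero] at this
      exact lead_yL.ne_zero this
    obtain ⟨m, k, _, h6⟩ := lead_of_ne h5
    have h7 := h4 _ h6.2
    rw [hy] at h6
    simp only [map_add, map_mul, ι_aeval, ι_y, g_fst] at h6 h7
    obtain ⟨s, hs⟩ : ∃ s : ℤ, s = k - 2 * (m / 7 : ℕ) := ⟨_, rfl⟩
    rw [← hs] at h6
    have k7 := (h6.pow 7).1.mono (e' := g 8 0) (g_le.2 (by omega))
    have k4 := (h6.pow 4).1.mono (e' := g 6 0) (g_le.2 (by omega))
    have k5 := (h6.pow 5).1.mono (e' := g 6 0) (g_le.2 (by omega))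
    have k6 := ((lead_aeval ha0).1.mul (k4.add k5)).1
    rw [g_add] at k6
    have k8 := (h6.pow 7).1.mono (e' := g 7 (7 * s)) (g_le.2 (by omega))
    have k9 := (k8.add (k6.mono (g_le.2 (by omega)))).add ((le_const c).mono (g_le.2 (by omega)))
    have := g_le.1 (k9 _ h3.2)
    exact h1.mono (by omega)
  obtain ⟨a7, h, hh, e1⟩ := hU
  obtain ⟨H, hH⟩ := hh.poly le_rfl
  have e2 : e d 7 = u d := by simp [e]
  rw [e1, e2, map_add, map_mul, ι_aeval, ι_u, hH] at hr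
  have key : C a ^ 2 * (C a7 * (X ^ 7 + (C X * (X ^ 4 + X ^ 5) + C (C d))) + C X ^ 2 * H) =
      C X ^ 2 * ((C ν * X + C b) ^ 7 + C a * ((C ν * X + C b) ^ 4 + (C ν * X + C b) ^ 5) +
        C (C c)) := by
    apply j_inj
    simp only [map_add, map_mul, map_pow, j_C, j_X, aeval_X, aeval_C]
    rw [uL] at hr
    linear_combination xL ^ 2 * hr - aeval xL a ^ 2 * aeval xL a7 * (xL * xi + 1) *
      (yL ^ 7 + (xL * (yL ^ 4 + yL ^ 5) + algebraMap ℂ L d)) * x_xi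
  have key2 : ∀ t : ℂ, a ^ 2 * (a7 * (C t ^ 7 + (X * (C t ^ 4 + C t ^ 5) + C d)) +
      X ^ 2 * H.eval (C t)) = X ^ 2 * ((ν * C t + b) ^ 7 + a * ((ν * C t + b) ^ 4 +
        (ν * C t + b) ^ 5) + C c) := by
    intro t
    simpa using congrArg (eval (C t)) key
  have hκ : κ = 0 := by
    obtain ⟨r, hr⟩ : ∃ r, r = -κ / la := ⟨_, rfl⟩
    have h1 : a.eval r = 0 := by rw [ha, hr]; simp; field_simp; ring
    have h2 : ∀ t : ℂ, r ^ 2 * ((ν.eval r * t + b.eval r) ^ 7 + c) = 0 := by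
      intro t
      have := congrArg (eval r) (key2 t)
      simp only [eval_mul, eval_pow, eval_add, eval_X, eval_C, h1] at this
      linear_combination -this
    have h3 := h2 (-b.eval r / ν.eval r)
    have h4 := h2 ((1 - b.eval r) / ν.eval r)
    have := hν r
    rw [mul_div_cancel₀ _ this] at h3 h4
    have h5 : r ^ 2 = 0 := by linear_combination h4 - h3
    have h6 : r = 0 := by simpa using h5
    rw [h6] at hr
    field_simp at hr
    simpa using hr.symm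
  have key3 : ∀ t : ℂ, C la ^ 2 * (a7 * (C t ^ 7 + (X * (C t ^ 4 + C t ^ 5) + C d)) +
      X ^ 2 * H.eval (C t)) = (ν * C t + b) ^ 7 + C la * X * ((ν * C t + b) ^ 4 +
        (ν * C t + b) ^ 5) + C c := by
    intro t
    have h1 := key2 t
    rw [ha, hκ, map_zero, add_zero] at h1
    apply mul_left_cancel₀ (pow_ne_zero 2 (X_ne_zero (R := ℂ)))
    linear_combination h1
  obtain ⟨n0, hn0⟩ : ∃ n0, n0 = ν.eval 0 := ⟨_, rfl⟩
  obtain ⟨b0, hb0⟩ : ∃ b0, b0 = b.eval 0 := ⟨_, rfl⟩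
  obtain ⟨n1, hn1⟩ : ∃ n1, n1 = (derivative ν).eval 0 := ⟨_, rfl⟩
  obtain ⟨b1, hb1⟩ : ∃ b1, b1 = (derivative b).eval 0 := ⟨_, rfl⟩
  obtain ⟨m0, hm0⟩ : ∃ m0, m0 = a7.eval 0 := ⟨_, rfl⟩
  obtain ⟨m1, hm1⟩ : ∃ m1, m1 = (derivative a7).eval 0 := ⟨_, rfl⟩
  have hn : n0 ≠ 0 := hn0 ▸ hν 0
  have q0 : ∀ t : ℂ, la ^ 2 * (m0 * (t ^ 7 + d)) = (n0 * t + b0) ^ 7 + c := by
    intro t
    have := congrArg (eval 0) (key3 t)
    simpa [← hn0, ← hb0, ← hm0] using this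
  have q1 : ∀ t : ℂ, la ^ 2 * (m1 * (t ^ 7 + d) + m0 * (t ^ 4 + t ^ 5)) =
      7 * (n0 * t + b0) ^ 6 * (n1 * t + b1) + la * ((n0 * t + b0) ^ 4 + (n0 * t + b0) ^ 5) := by
    intro t
    have := congrArg (fun p => eval 0 (derivative p)) (key3 t)
    simp [derivative_pow, ← hn0, ← hb0, ← hm0, ← hn1, ← hb1, ← hm1] at this
    linear_combination this
  obtain ⟨r0, -, -, r6, r7⟩ := coeffs8 (la ^ 2 * m0 * d - b0 ^ 7 - c) (-7 * n0 * b0 ^ 6)
    (-21 * n0 ^ 2 * b0 ^ 5) (-35 * n0 ^ 3 * b0 ^ 4) (-35 * n0 ^ 4 * b0 ^ 3)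
    (-21 * n0 ^ 5 * b0 ^ 2) (-7 * n0 ^ 6 * b0) (la ^ 2 * m0 - n0 ^ 7)
    (fun t => by linear_combination q0 t)
  have hb : b0 = 0 := by
    have : -7 * n0 ^ 6 ≠ 0 := mul_ne_zero (by norm_num) (pow_ne_zero _ hn)
    exact (mul_eq_zero.1 r6).resolve_left this
  subst hb
  obtain ⟨-, s4, s5, -, -⟩ := coeffs8 (la ^ 2 * m1 * d) 0 0 0 (la ^ 2 * m0 - la * n0 ^ 4)
    (la ^ 2 * m0 - la * n0 ^ 5) (-7 * n0 ^ 6 * b1) (la ^ 2 * m1 - 7 * n0 ^ 6 * n1)
    (fun t => by linear_combination q1 t)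
  have h1 : n0 = 1 := by
    apply mul_left_cancel₀ (mul_ne_zero hla (pow_ne_zero 4 hn))
    linear_combination s4 - s5
  rw [h1] at r7
  linear_combination (-1) * r0 + d * r7

end Pool.Agent.H33.Dan
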