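import Mathlib
import Pool.Agent.H33.Dan4

set_option autoImplicit false

namespace Pool.Agent.H33.Dan

open MvPolynomial Topology Filter

lemma eval_P (a : Fin 3 → ℂ) :
    eval a P = a 0 ^ 2 * a 2 - a 1 ^ 7 - a 0 * (a 1 ^ 4 + a 1 ^ 5) := by simp [P]

lemma bound (x y u : ℂ) (h : x ^ 2 * u - y ^ 7 - x * (y ^ 4 + y ^ 5) = 0) :
    ‖y ^ 5 / x‖ ≤ ‖y‖ * (1 + ‖y + y ^ 2‖ + ‖y * u‖) := by
  by_cases hx : x = 0
  · rw [hx, div_zero, norm_zero]; positivity
  obtain ⟨k, hk⟩ : ∃ k, k = y ^ 4 / x := ⟨_, rfl⟩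
  have h1 : k * x = y ^ 4 := by rw [hk]; field_simp
  have h2 : k * k = y * u - (y + y ^ 2) * k := by
    apply mul_left_cancel₀ (pow_ne_zero 2 hx)
    linear_combination (k * x + y ^ 4 + x * (y + y ^ 2)) * h1 - y * h
  have h3 : ‖k‖ * ‖k‖ ≤ ‖y * u‖ + ‖y + y ^ 2‖ * ‖k‖ := by
    rw [← norm_mul, h2, ← norm_mul]
    exact norm_sub_le _ _
  have h4 : ‖k‖ ≤ 1 + ‖y + y ^ 2‖ + ‖y * u‖ := by
    by_contra hc
    push Not at hc
    have a1 := norm_nonneg (y + y ^ 2)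
    have a2 := norm_nonneg (y * u)
    nlinarith
  have h5 : y ^ 5 / x = y * k := by rw [hk]; ring
  rw [h5, norm_mul]
  exact mul_le_mul_of_nonneg_left h4 (norm_nonneg _)

lemma contr_P : ContractibleSpace {x : Fin 3 → ℂ | eval x P = 0} := by
  have c : ∀ i, Continuous fun a : {x : Fin 3 → ℂ | eval x P = 0} => a.1 i := fun i =>
    (continuous_apply i).comp continuous_subtype_val
  have hz : ∀ a : {x : Fin 3 → ℂ | eval x P = 0},
      a.1 0 ^ 2 * a.1 2 - a.1 1 ^ 7 - a.1 0 * (a.1 1 ^ 4 + a.1 1 ^ 5) = 0 := fun a => by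
    rw [← eval_P]; exact a.2
  have cg : Continuous fun a : {x : Fin 3 → ℂ | eval x P = 0} => a.1 1 ^ 5 / a.1 0 := by
    rw [continuous_iff_continuousAt]
    intro a
    by_cases ha : a.1 0 = 0
    · have h1 : a.1 1 = 0 := by
        have := hz a
        rw [ha] at this
        simpa using this
      have h2 : Continuous fun a : {x : Fin 3 → ℂ | eval x P = 0} =>
          ‖a.1 1‖ * (1 + ‖a.1 1 + a.1 1 ^ 2‖ + ‖a.1 1 * a.1 2‖) :=
        (c 1).norm.mul ((continuous_const.add ((c 1).add ((c 1).pow 2)).norm).add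
          ((c 1).mul (c 2)).norm)
      have h3 := h2.tendsto a
      simp only [h1, norm_zero, zero_mul] at h3
      rw [ContinuousAt, ha, div_zero]
      exact squeeze_zero_norm (fun b => bound _ _ _ (hz b)) h3
    · exact ((c 1).pow 5).continuousAt.div (c 0).continuousAt ha
  have c2 : ∀ i, Continuous fun a : unitInterval × {x : Fin 3 → ℂ | eval x P = 0} => a.2.1 i :=
    fun i => (c i).comp continuous_snd
  have c1 : Continuous fun a : unitInterval × {x : Fin 3 → ℂ | eval x P = 0} =>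
      (1 - (a.1 : ℝ) : ℂ) := by fun_prop
  rw [contractible_iff_id_nullhomotopic]
  refine ⟨⟨0, by simp [eval_P]⟩, ⟨⟨⟨fun z => ⟨![(1 - (z.1 : ℝ) : ℂ) ^ 3 * z.2.1 0,
    (1 - (z.1 : ℝ) : ℂ) * z.2.1 1, (1 - (z.1 : ℝ) : ℂ) * z.2.1 2 +
      ((1 - (z.1 : ℝ) : ℂ) ^ 2 - (1 - (z.1 : ℝ) : ℂ)) * (z.2.1 1 ^ 5 / z.2.1 0)], ?_⟩,
      ?_⟩, ?_, ?_⟩⟩⟩
  · have h := hz z.2
    simp only [Set.mem_ofPred_eq, eval_P]
    simp only [Matrix.cons_val_zero, Matrix.cons_val_one, Matrix.cons_val]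
    have h1 : z.2.1 0 * (z.2.1 1 ^ 5 / z.2.1 0) = z.2.1 1 ^ 5 := by
      by_cases ha : z.2.1 0 = 0
      · rw [ha] at h ⊢
        have : z.2.1 1 = 0 := by simpa using h
        simp [this]
      · field_simp
    generalize z.2.1 1 ^ 5 / z.2.1 0 = k at h1 ⊢
    generalize (1 - (z.1 : ℝ) : ℂ) = s
    linear_combination s ^ 7 * h + s ^ 6 * (s ^ 2 - s) * z.2.1 0 * h1
  · refine Continuous.subtype_mk ?_ _
    refine continuous_pi fun i => ?_
    fin_cases i
    · exact (c1.pow 3).mul (c2 0)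
    · exact c1.mul (c2 1)
    · exact (c1.mul (c2 2)).add (((c1.pow 2).sub c1).mul (cg.comp continuous_snd))
  · intro x; ext i; fin_cases i <;> simp
  · intro x; ext i; fin_cases i <;> simp

lemma irred_P : Irreducible P := by simpa using (prime_P 0).irreducible

end Pool.Agent.H33.Dan
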