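import Pool.Agent.H33.KB2

set_option autoImplicit false

open Metric Set Filter Topology NormedSpace

namespace H33.EP

lemma refl_of_equiv {H X : Type} [NormedAddCommGroup H] [InnerProductSpace ℝ H] [CompleteSpace H]
    [NormedAddCommGroup X] [NormedSpace ℝ X] (V : H ≃L[ℝ] X) :
    Function.Surjective (inclusionInDoubleDual ℝ X) := by
  intro Φ
  let R : H →L[ℝ] StrongDual ℝ X :=
    ((ContinuousLinearMap.compL ℝ X H ℝ).flip (V.symm : X →L[ℝ] H)).comp (innerSL ℝ)
  have hR : ∀ h x, R h x = inner ℝ h (V.symm x) := fun _ _ => rfl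
  refine ⟨V ((InnerProductSpace.toDual ℝ H).symm (Φ.comp R)), ContinuousLinearMap.ext fun ξ => ?_⟩
  have e : ξ = R ((InnerProductSpace.toDual ℝ H).symm (ξ.comp (V : H →L[ℝ] X))) := by
    ext x; rw [hR, InnerProductSpace.toDual_symm_apply]; simp
  rw [dual_def]
  conv_rhs => rw [e]
  conv_lhs => rw [e]
  rw [hR, V.symm_apply_apply, real_inner_comm, InnerProductSpace.toDual_symm_apply]
  rfl

lemma gateaux {X : Type} [NormedAddCommGroup X] [NormedSpace ℝ X] (x : X) (f : StrongDual ℝ X)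
    (hf : ‖f‖ ≤ 1) (hfx : f x = ‖x‖)
    (hu : ∀ g : StrongDual ℝ X, ‖g‖ ≤ 1 → g x = ‖x‖ → g = f) (v : X) :
    HasLineDerivAt ℝ (fun y : X => ‖y‖) (f v) x v := by
  choose g hg hg' using fun t : ℝ => exists_dual_vector'' ℝ (x + t • v)
  simp only [RCLike.ofReal_real_eq_id, id] at hg'
  have h1 : Tendsto (fun t => StrongDual.toWeakDual (g t)) (𝓝 0) (𝓝 (StrongDual.toWeakDual f)) := by
    refine (WeakDual.isCompact_closedBall (0 : StrongDual ℝ X) 1).tendsto_nhds_of_unique_mapClusterPt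
      (Eventually.of_forall fun t => by simpa using hg t) fun ψ hψ hc => ?_
    have h2 : MapClusterPt (ψ x) (𝓝 0) fun t => g t x :=
      hc.continuousAt_comp (f := fun φ : WeakDual ℝ X => φ x) (WeakDual.eval_continuous x).continuousAt
    have h3 : Tendsto (fun t => g t x) (𝓝 0) (𝓝 ‖x‖) := by
      have hc1 : Tendsto (fun t : ℝ => ‖x + t • v‖ - |t| * ‖v‖) (𝓝 0) (𝓝 ‖x‖) := by
        have : Continuous fun t : ℝ => ‖x + t • v‖ - |t| * ‖v‖ := by fun_prop
        simpa using this.tendsto 0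
      refine tendsto_of_tendsto_of_tendsto_of_le_of_le hc1 tendsto_const_nhds (fun t => ?_) fun t => ?_
      · have a1 := hg' t
        have a2 := (g t).le_of_opNorm_le (hg t) (t • v)
        rw [map_add] at a1
        rw [norm_smul, one_mul, Real.norm_eq_abs, Real.norm_eq_abs] at a2
        linarith [le_abs_self (g t (t • v))]
      · have a2 := (g t).le_of_opNorm_le (hg t) x
        rw [one_mul, Real.norm_eq_abs] at a2
        exact (le_abs_self _).trans a2
    have h4 : ψ x = ‖x‖ := eq_of_nhds_neBot (h2.clusterPt.mono h3)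
    have := hu (WeakDual.toStrongDual ψ) (by simpa using hψ) h4
    rw [← this]; rfl
  have h2 : Tendsto (fun t => g t v) (𝓝 0) (𝓝 (f v)) :=
    ((WeakDual.eval_continuous v).tendsto _).comp h1
  rw [HasLineDerivAt, hasDerivAt_iff_isLittleO_nhds_zero, Asymptotics.isLittleO_iff]
  intro c hc
  filter_upwards [Metric.tendsto_nhds.mp h2 c hc] with t ht
  rw [Real.dist_eq] at ht
  have a1 := f.le_of_opNorm_le hf (x + t • v)
  have a2 := (g t).le_of_opNorm_le (hg t) x
  have a3 := hg' t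
  rw [one_mul, Real.norm_eq_abs] at a1 a2
  rw [map_add, map_smul, smul_eq_mul] at a1 a3
  simp only [zero_add, zero_smul, add_zero, smul_eq_mul, Real.norm_eq_abs]
  rw [abs_of_nonneg (by linarith [le_abs_self (f x + t * f v)])]
  have a4 : t * (g t v - f v) ≤ c * |t| := by
    refine (le_abs_self _).trans ?_
    rw [abs_mul, mul_comm]; gcongr
  linarith [le_abs_self (g t x)]

open H33.KB

noncomputable def A (y : ℝ × L2) : ℝ :=
  ⨆ n : ℕ, max ‖y.2‖ (|cd n y.2| + (1 / 4) ^ n * |y.1 - cd n y.2|)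

lemma A_term (y : ℝ × L2) (n : ℕ) : (1 / 4 : ℝ) ^ n * |y.1 - cd n y.2| ≤ (1 / 4) ^ n * (2 * ‖y‖) := by
  have := abs_sub y.1 (cd n y.2)
  have h1 : |y.1| ≤ ‖y‖ := norm_fst_le y
  have h2 := (cd_le n y.2).trans (norm_snd_le y)
  gcongr; linarith

lemma A_bd (y : ℝ × L2) (n : ℕ) :
    max ‖y.2‖ (|cd n y.2| + (1 / 4) ^ n * |y.1 - cd n y.2|) ≤ 3 * ‖y‖ := by
  have h1 := A_term y n
  have h2 := (cd_le n y.2).trans (norm_snd_le y)
  have h3 : (1 / 4 : ℝ) ^ n ≤ 1 := pow_le_one₀ (by norm_num) (by norm_num)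
  refine max_le (by linarith [norm_snd_le y, norm_nonneg y]) ?_
  nlinarith [norm_nonneg y]

lemma le_A (y : ℝ × L2) (n : ℕ) :
    ‖y.2‖ ≤ A y ∧ |cd n y.2| + (1 / 4) ^ n * |y.1 - cd n y.2| ≤ A y :=
  max_le_iff.mp (le_ciSup (f := fun n : ℕ =>
    max ‖y.2‖ (|cd n y.2| + (1 / 4) ^ n * |y.1 - cd n y.2|)) ⟨3 * ‖y‖, by
      rintro _ ⟨n, rfl⟩; exact A_bd y n⟩ n)

lemma A_le {y : ℝ × L2} {c : ℝ} (h1 : ‖y.2‖ ≤ c)
    (h2 : ∀ n, |cd n y.2| + (1 / 4) ^ n * |y.1 - cd n y.2| ≤ c) : A y ≤ c :=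
  ciSup_le fun n => max_le h1 (h2 n)

noncomputable def tl (k : ℕ) : L2 →L[ℝ] L2 := ContinuousLinearMap.id ℝ L2 - PP (Finset.range k)

lemma tl_apply (k : ℕ) (f : L2) : tl k f = f - PP (Finset.range k) f := rfl

lemma cd_tl (k i : ℕ) (f : L2) : cd i (tl k f) = if i < k then 0 else cd i f := by
  rw [tl_apply, map_sub, cd_PP]; simp only [Finset.mem_range]; split_ifs <;> simp

lemma tl_norm (k : ℕ) (f : L2) : ‖tl k f‖ ≤ ‖f‖ := by
  refine lp.norm_mono (by norm_num) fun i => ?_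
  rw [← cd_apply, cd_tl, ← cd_apply]
  split_ifs <;> simp

lemma pyth (k : ℕ) (u v : L2) :
    ‖PP (Finset.range k) u + tl k v‖ ^ 2 = ‖PP (Finset.range k) u‖ ^ 2 + ‖tl k v‖ ^ 2 := by
  have : inner ℝ (PP (Finset.range k) u) (tl k v) = 0 := by
    rw [lp.inner_eq_tsum]
    refine (tsum_congr fun i => ?_).trans tsum_zero
    rw [← cd_apply, ← cd_apply, cd_tl, cd_PP]
    simp only [Finset.mem_range]; split_ifs <;> simp
  rw [norm_add_sq_real, this]; ring

noncomputable def rho : ℕ → ℝ × L2 → ℝ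
  | 0, y => A y
  | 1, y => ‖y.2‖
  | k + 2, y => (1 / 2) ^ k * max |y.1| ‖tl k y.2‖

lemma rho_nonneg (k : ℕ) (y : ℝ × L2) : 0 ≤ rho k y := by
  match k with
  | 0 => exact (norm_nonneg _).trans (le_A y 0).1
  | 1 => exact norm_nonneg _
  | k + 2 => unfold rho; positivity

lemma rho_le (k : ℕ) (y : ℝ × L2) : rho (k + 2) y ≤ (1 / 2) ^ k * ‖y‖ := by
  exact mul_le_mul_of_nonneg_left
    (max_le (norm_fst_le y) ((tl_norm k _).trans (norm_snd_le y))) (by positivity)

lemma rho_add (k : ℕ) (y z : ℝ × L2) : rho k (y + z) ≤ rho k y + rho k z := by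
  match k with
  | 0 =>
    refine A_le ((norm_add_le _ _).trans (add_le_add (le_A y 0).1 (le_A z 0).1)) fun n => ?_
    have h1 := (le_A y n).2
    have h2 := (le_A z n).2
    have h3 := abs_add_le (cd n y.2) (cd n z.2)
    have h4 := abs_add_le (y.1 - cd n y.2) (z.1 - cd n z.2)
    have h5 : (0 : ℝ) ≤ (1 / 4) ^ n := by positivity
    simp only [Prod.fst_add, Prod.snd_add, map_add, rho]
    rw [show y.1 + z.1 - (cd n y.2 + cd n z.2) = y.1 - cd n y.2 + (z.1 - cd n z.2) by ring]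
    nlinarith
  | 1 => exact norm_add_le _ _
  | k + 2 =>
    simp only [rho]
    rw [← mul_add]
    refine mul_le_mul_of_nonneg_left ?_ (by positivity)
    simp only [Prod.fst_add, Prod.snd_add, map_add]
    exact max_le ((abs_add_le _ _).trans (add_le_add (le_max_left _ _) (le_max_left _ _)))
      ((norm_add_le _ _).trans (add_le_add (le_max_right _ _) (le_max_right _ _)))

lemma rho_smul (k : ℕ) (c : ℝ) (y : ℝ × L2) : rho k (c • y) ≤ |c| * rho k y := by
  match k with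
  | 0 =>
    refine A_le ?_ fun n => ?_
    · rw [Prod.smul_snd, norm_smul]; exact mul_le_mul_of_nonneg_left (le_A y 0).1 (abs_nonneg c)
    · have := mul_le_mul_of_nonneg_left (le_A y n).2 (abs_nonneg c)
      simp only [Prod.smul_fst, Prod.smul_snd, map_smul, smul_eq_mul, rho]
      rw [← mul_sub, abs_mul, abs_mul]
      linarith
  | 1 => exact (norm_smul c y.2).le
  | k + 2 =>
    simp only [rho, Prod.smul_fst, Prod.smul_snd, map_smul, smul_eq_mul, norm_smul, abs_mul,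
      Real.norm_eq_abs]
    rw [← mul_max_of_nonneg _ _ (abs_nonneg c)]
    exact le_of_eq (by ring)

lemma geo (M : ℕ) (c : ℝ) :
    HasSum (fun j : ℕ => ((1 / 2 : ℝ) ^ (j + M) * c) ^ 2) (4 / 3 * (1 / 4) ^ M * c ^ 2) := by
  have := (hasSum_geometric_of_lt_one (by norm_num : (0 : ℝ) ≤ 1 / 4) (by norm_num)).mul_right
    ((1 / 4) ^ M * c ^ 2)
  have e : (fun j : ℕ => ((1 / 2 : ℝ) ^ (j + M) * c) ^ 2)
      = fun j => (1 / 4) ^ j * ((1 / 4) ^ M * c ^ 2) := by
    funext j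
    rw [mul_pow, ← pow_mul, mul_comm (j + M), pow_mul, pow_add]; norm_num; ring
  rw [e, show 4 / 3 * (1 / 4 : ℝ) ^ M * c ^ 2 = (1 - 1 / 4)⁻¹ * ((1 / 4) ^ M * c ^ 2) by ring]
  exact this

lemma rho_summable (y : ℝ × L2) : Summable fun k => rho k y ^ 2 := by
  rw [← summable_nat_add_iff 2]
  exact Summable.of_nonneg_of_le (fun k => sq_nonneg _)
    (fun k => pow_le_pow_left₀ (rho_nonneg _ _) (rho_le k y) 2) (geo 0 ‖y‖).summable

noncomputable def Lam (y : ℝ × L2) : L2 := ⟨fun k => rho k y, memℓp_gen (by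
  simpa using rho_summable y)⟩

lemma Lam_apply (y : ℝ × L2) (k : ℕ) : Lam y k = rho k y := rfl

noncomputable def N (y : ℝ × L2) : ℝ := ‖Lam y‖

lemma N_sq (y : ℝ × L2) : HasSum (fun k => rho k y ^ 2) (N y ^ 2) := by
  simpa [Lam_apply, N] using lp.hasSum_norm (p := 2) (by norm_num) (Lam y)

lemma head_le (M : ℕ) (y : ℝ × L2) : ∑ k ∈ Finset.range M, rho k y ^ 2 ≤ N y ^ 2 :=
  sum_le_hasSum _ (fun _ _ => sq_nonneg _) (N_sq y)

lemma le_head (M : ℕ) (y : ℝ × L2) :
    N y ^ 2 ≤ ∑ k ∈ Finset.range (M + 2), rho k y ^ 2 + 4 / 3 * (1 / 4) ^ M * ‖y‖ ^ 2 := by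
  rw [← (N_sq y).tsum_eq, ← (rho_summable y).sum_add_tsum_nat_add (M + 2)]
  gcongr
  exact hasSum_le (fun j => pow_le_pow_left₀ (rho_nonneg _ _) (rho_le (j + M) y) 2)
    ((summable_nat_add_iff (M + 2)).2 (rho_summable y)).hasSum (geo M ‖y‖)

lemma rho_le_N (k : ℕ) (y : ℝ × L2) : rho k y ≤ N y :=
  (le_abs_self _).trans (lp.norm_apply_le_norm (by norm_num) (Lam y) k)

lemma le_N (y : ℝ × L2) : ‖y‖ ≤ N y := by
  have := rho_le_N 2 y
  simp only [rho, pow_zero, one_mul, tl_apply, Finset.range_zero, PP_apply, Finset.sum_empty,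
    sub_zero] at this
  exact this

lemma N_le (y : ℝ × L2) : N y ≤ 4 * ‖y‖ := by
  have h1 := le_head 0 y
  have h2 : A y ≤ 3 * ‖y‖ := ciSup_le (A_bd y)
  have h3 := norm_snd_le y
  have h4 := rho_nonneg 0 y
  simp only [zero_add, Finset.sum_range_succ, Finset.range_zero, Finset.sum_empty, rho,
    pow_zero] at h1 h4
  refine abs_le_of_sq_le_sq' ?_ (by positivity) |>.2
  nlinarith [norm_nonneg y, norm_nonneg y.2]

lemma Lam_le (y z : ℝ × L2) (k : ℕ) : ‖Lam (y + z) k‖ ≤ ‖(Lam y + Lam z) k‖ := by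
  rw [lp.coeFn_add, Pi.add_apply, Lam_apply, Lam_apply, Lam_apply, Real.norm_of_nonneg (rho_nonneg _ _)]
  exact (rho_add k y z).trans (le_abs_self _)

lemma N_add (y z : ℝ × L2) : N (y + z) ≤ N y + N z :=
  (lp.norm_mono (by norm_num) (Lam_le y z)).trans (norm_add_le _ _)

lemma N_smul (c : ℝ) (y : ℝ × L2) : N (c • y) ≤ |c| * N y := by
  rw [N, N, ← Real.norm_eq_abs, ← norm_smul]
  refine lp.norm_mono (by norm_num) fun k => ?_
  rw [lp.coeFn_smul, Pi.smul_apply, Lam_apply, Lam_apply, norm_smul,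
    Real.norm_of_nonneg (rho_nonneg _ _), Real.norm_of_nonneg (rho_nonneg _ _)]
  exact rho_smul k c y

lemma N_strict {y z : ℝ × L2} (h1 : N y = N z) (h2 : N y + N z ≤ N (y + z)) : y = z := by
  have h3 := lp.norm_mono (p := 2) (by norm_num) (Lam_le y z)
  have h4 := norm_add_le (Lam y) (Lam z)
  unfold N at h1 h2
  have e1 : Lam y = Lam z := eq_of_norm_eq_of_norm_add_eq h1 (by linarith)
  have e2 : Lam (y + z) = Lam y + Lam z := by
    refine eq_of_norm_eq_of_norm_add_eq (by linarith) (le_antisymm (norm_add_le _ _) ?_)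
    have : ‖Lam (y + z) + Lam (y + z)‖ ≤ ‖Lam (y + z) + (Lam y + Lam z)‖ := by
      refine lp.norm_mono (by norm_num) fun k => ?_
      simp only [lp.coeFn_add, Pi.add_apply, Lam_apply]
      have := rho_add k y z
      have := rho_nonneg k (y + z)
      rw [Real.norm_of_nonneg (by linarith), Real.norm_of_nonneg (by linarith)]
      linarith
    rw [← two_smul ℝ (Lam (y + z)), norm_smul, Real.norm_two] at this
    linarith
  have a1 : ∀ k, rho k y = rho k z := fun k => congrArg (fun u : L2 => u k) e1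
  have a2 : ∀ k, rho k (y + z) = rho k y + rho k z := fun k => congrArg (fun u : L2 => u k) e2
  have lim : ∀ u : ℝ × L2, Tendsto (fun k => max |u.1| ‖tl k u.2‖) atTop (𝓝 |u.1|) := fun u => by
    have := (tendsto_const_nhds (x := u.2)).sub (hasSum_ee u.2).tendsto_sum_nat
    have := (tendsto_const_nhds (x := |u.1|)).max this.norm
    simpa [tl_apply, PP_apply] using this
  have p : ∀ k : ℕ, (0 : ℝ) < (1 / 2) ^ k := fun k => by positivity
  have b1 : |y.1| = |z.1| := tendsto_nhds_unique (lim y) ((lim z).congr fun k =>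
    (mul_left_cancel₀ (p k).ne' (a1 (k + 2))).symm)
  have b2 : |y.1 + z.1| = |y.1| + |z.1| :=
    tendsto_nhds_unique (lim (y + z)) (((lim y).add (lim z)).congr fun k =>
      mul_left_cancel₀ (p k).ne' (by rw [mul_add]; exact (a2 (k + 2)).symm))
  exact Prod.ext (eq_of_norm_eq_of_norm_add_eq b1 b2) (eq_of_norm_eq_of_norm_add_eq (a1 1) (a2 1))

end H33.EP
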