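import Pool.Agent.H33.EP1

set_option autoImplicit false

open Metric Set Filter Topology NormedSpace

namespace H33.EP
open H33.KB

lemma ev {g : ℝ → ℝ} {a : ℝ} (hg : Continuous g) (h0 : g 0 < a) : ∀ᶠ s in 𝓝[>] 0, g s < a :=
  mem_nhdsWithin_of_mem_nhds ((hg.tendsto 0).eventually (gt_mem_nhds h0))

lemma star (C θ : ℝ) (hC : 0 ≤ C) (hθ : 0 < θ) : ∃ m : ℕ, ∃ δ > 0, ∀ y z : ℝ × L2, y.1 = z.1 →
    N z ≤ C → ‖PP (Finset.range m) (y.2 - z.2)‖ ≤ δ → ‖y.2‖ ≤ ‖z.2‖ + δ → N y ≤ C + θ := by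
  have hq : ∀ c : ℝ, Tendsto (fun n : ℕ => (1 / 4 : ℝ) ^ n * c) atTop (𝓝 0) := fun c => by
    simpa using (tendsto_pow_atTop_nhds_zero_of_lt_one (r := (1 / 4 : ℝ)) (by norm_num)
      (by norm_num)).mul_const c
  obtain ⟨M, hM⟩ := ((hq (4 / 3 * (C + 1) ^ 2)).eventually
    (gt_mem_nhds (show 0 < θ ^ 2 / 2 by positivity))).exists
  obtain ⟨σ, hσ1, hσ⟩ := ((ev (g := fun s => ((M : ℝ) + 2) * (2 * C * s + s ^ 2)) (a := θ ^ 2 / 2)
    (by fun_prop) (by simp; positivity)).and self_mem_nhdsWithin).exists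
  have hσ0 : 0 < σ := hσ
  obtain ⟨m0, hm0⟩ := eventually_atTop.mp ((hq (2 * (C + 1))).eventually (gt_mem_nhds (half_pos hσ0)))
  obtain ⟨δ, ⟨⟨hδ1, hδ2⟩, hδ3⟩, hδ⟩ := ((((ev (g := fun s => 4 * C * s + 4 * s ^ 2) (a := σ ^ 2)
    (by fun_prop) (by simp; positivity)).and (ev (g := id) continuous_id (half_pos hσ0))).and
    (ev (g := id) continuous_id one_pos)).and self_mem_nhdsWithin).exists
  have hδ0 : 0 < δ := hδ
  simp only [id] at hδ2 hδ3
  refine ⟨max M m0, δ, hδ0, fun y z h1 h2 h3 h4 => ?_⟩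
  have hz := (le_N z).trans h2
  have hz2 := (norm_snd_le z).trans hz
  have hy : ‖y‖ ≤ C + 1 := by
    rw [Prod.norm_def]
    exact max_le (by rw [h1]; linarith [norm_fst_le z]) (by linarith)
  have key : ∀ k < M + 2, rho k y ≤ rho k z + σ := by
    intro k hk
    match k with
    | 0 =>
      change A y ≤ A z + σ
      refine A_le (by linarith [(le_A z 0).1]) fun n => ?_
      rcases lt_or_ge n (max M m0) with h | h
      · have a1 := (cd_le n _).trans h3
        rw [cd_PP, if_pos (Finset.mem_range.mpr h), map_sub] at a1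
        have a2 := (le_A z n).2
        have a3 : (1 / 4 : ℝ) ^ n ≤ 1 := pow_le_one₀ (by norm_num) (by norm_num)
        have a4 : (0 : ℝ) ≤ (1 / 4) ^ n := by positivity
        have a5 := abs_sub_abs_le_abs_sub (cd n y.2) (cd n z.2)
        have a6 := abs_sub_le z.1 (cd n z.2) (cd n y.2)
        rw [abs_sub_comm (cd n z.2)] at a6
        rw [h1]
        nlinarith
      · have a1 := A_term y n
        have a2 := hm0 n ((le_max_right _ _).trans h)
        have a3 : (1 / 4 : ℝ) ^ n * (2 * ‖y‖) ≤ (1 / 4) ^ n * (2 * (C + 1)) := by gcongr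
        linarith [cd_le n y.2, (le_A z 0).1]
    | 1 => change ‖y.2‖ ≤ ‖z.2‖ + σ; linarith
    | k + 2 =>
      have a0 : ‖PP (Finset.range k) (y.2 - z.2)‖ ≤ δ := by
        refine le_trans (le_of_eq ?_) ((PP_norm (Finset.range k) _).trans h3)
        rw [PP_PP, Finset.range_inter_range, min_eq_left (by omega)]
      have a1 := pyth k z.2 y.2
      have a2 := pyth k z.2 z.2
      rw [tl_apply k z.2, add_sub_cancel, ← tl_apply] at a2
      have a3 : ‖PP (Finset.range k) z.2 + tl k y.2‖ ≤ ‖z.2‖ + 2 * δ := by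
        rw [show PP (Finset.range k) z.2 + tl k y.2 = y.2 - PP (Finset.range k) (y.2 - z.2) by
          rw [tl_apply, map_sub]; abel]
        linarith [norm_sub_le y.2 (PP (Finset.range k) (y.2 - z.2))]
      have a4 := pow_le_pow_left₀ (norm_nonneg _) a3 2
      have a5 : ‖tl k y.2‖ ≤ ‖tl k z.2‖ + σ := by
        refine (abs_le_of_sq_le_sq' ?_ (by positivity)).2
        nlinarith [norm_nonneg (tl k z.2)]
      have a6 : max |y.1| ‖tl k y.2‖ ≤ max |z.1| ‖tl k z.2‖ + σ :=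
        max_le (by rw [h1]; linarith [le_max_left |z.1| ‖tl k z.2‖])
          (by linarith [le_max_right |z.1| ‖tl k z.2‖])
      have a7 : (1 / 2 : ℝ) ^ k ≤ 1 := pow_le_one₀ (by norm_num) (by norm_num)
      have a8 : (0 : ℝ) ≤ (1 / 2) ^ k := by positivity
      simp only [rho]
      nlinarith
  have b1 : ∑ k ∈ Finset.range (M + 2), rho k y ^ 2
      ≤ ∑ k ∈ Finset.range (M + 2), (rho k z ^ 2 + (2 * C * σ + σ ^ 2)) :=
    Finset.sum_le_sum fun k hk => by
      have c1 := pow_le_pow_left₀ (rho_nonneg _ _) (key k (Finset.mem_range.mp hk)) 2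
      have c2 := (rho_le_N k z).trans h2
      nlinarith
  rw [Finset.sum_add_distrib, Finset.sum_const, Finset.card_range, nsmul_eq_mul] at b1
  have b2 := le_head M y
  have b3 := head_le (M + 2) z
  have b4 := pow_le_pow_left₀ (norm_nonneg _) hy 2
  have b5 : N z ^ 2 ≤ C ^ 2 := pow_le_pow_left₀ (norm_nonneg _) h2 2
  have b6 : 4 / 3 * (1 / 4 : ℝ) ^ M * ‖y‖ ^ 2 ≤ 4 / 3 * (1 / 4) ^ M * (C + 1) ^ 2 := by gcongr
  push_cast at b1
  refine (abs_le_of_sq_le_sq' ?_ (by positivity)).2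
  nlinarith

lemma ee_norm (n : ℕ) : ‖ee n‖ = 1 := by rw [ee, lp.norm_single (by norm_num), norm_one]

lemma spike1 (n : ℕ) : N (1, ee n) ^ 2 ≤ 10 / 3 := by
  have h1 := le_head 0 (1, ee n)
  have h2 : A (1, ee n) ≤ 1 := A_le (ee_norm n).le fun k => by
    simp only [cd_ee]
    split_ifs
    · simp
    · simpa using pow_le_one₀ (M₀ := ℝ) (a := 4⁻¹) (n := k) (by norm_num) (by norm_num)
  have h4 := rho_nonneg 0 (1, ee n)
  simp only [zero_add, Finset.sum_range_succ, Finset.range_zero, Finset.sum_empty, rho,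
    pow_zero, Prod.norm_def, ee_norm, norm_one, max_self] at h1 h4
  nlinarith

lemma spike2 (n : ℕ) (t : ℝ) (h : N (t, ee n) ^ 2 ≤ 10 / 3) : 5 / 6 ≤ t := by
  have h1 := head_le (n + 1 + 2) (t, ee n)
  rw [Finset.sum_range_succ', Finset.sum_range_succ'] at h1
  have h2 := (le_A (t, ee n) n).2
  simp only [cd_ee, if_true, abs_one] at h2
  have h3 : ∑ k ∈ Finset.range (n + 1), (1 / 4 : ℝ) ^ k
      ≤ ∑ k ∈ Finset.range (n + 1), rho (k + 1 + 1) (t, ee n) ^ 2 :=
    Finset.sum_le_sum fun k hk => by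
      have e : tl k (ee n) = ee n := l2ext fun i => by
        have := Finset.mem_range.mp hk
        rw [cd_tl, cd_ee]; split_ifs <;> first | rfl | omega
      have e2 : (1 / 4 : ℝ) ^ k = ((1 / 2) ^ k * 1) ^ 2 := by
        rw [mul_one, ← pow_mul, mul_comm k, pow_mul]; norm_num
      rw [e2]
      refine pow_le_pow_left₀ (by positivity) (mul_le_mul_of_nonneg_left ?_ (by positivity)) 2
      rw [e, ee_norm]; exact le_max_right _ _
  rw [geom_sum_eq (by norm_num), pow_succ, show ((1 / 4 : ℝ) ^ n * (1 / 4) - 1) / (1 / 4 - 1)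
    = 4 / 3 - (1 / 4) ^ n / 3 by ring] at h3
  simp only [zero_add, rho, ee_norm] at h1 h3
  have h5 : (0 : ℝ) < (1 / 4) ^ n := by positivity
  have h6 := pow_le_pow_left₀ (by positivity) h2 2
  have h7 : (1 / 4 : ℝ) ^ n * |t - 1| ≤ (1 / 4) ^ n * (1 / 6) := by
    nlinarith [sq_nonneg ((1 / 4 : ℝ) ^ n * |t - 1|)]
  linarith [(abs_le.mp (le_of_mul_le_mul_left h7 h5)).1]

def Y : Type := ℝ × L2

noncomputable instance : AddCommGroup Y := inferInstanceAs (AddCommGroup (ℝ × L2))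
noncomputable instance : Module ℝ Y := inferInstanceAs (Module ℝ (ℝ × L2))

lemma N_neg (y : ℝ × L2) : N (-y) = N y := by
  have h : ∀ y : ℝ × L2, N (-y) ≤ N y := fun y => by simpa using N_smul (-1) y
  exact le_antisymm (h y) (by simpa using h (-y))

noncomputable instance : NormedAddCommGroup Y :=
  AddGroupNorm.toNormedAddCommGroup
    { toFun := fun y => N y
      map_zero' := le_antisymm (show N (0 : ℝ × L2) ≤ 0 by simpa using N_le 0) (norm_nonneg _)
      add_le' := N_add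
      neg' := N_neg
      eq_zero_of_map_eq_zero' := fun y hy => norm_le_zero_iff.mp (hy ▸ le_N y) }

noncomputable instance : NormedSpace ℝ Y := ⟨fun c y => N_smul c y⟩

theorem exists_Y : ∃ (X : Type) (_ : NormedAddCommGroup X) (_ : NormedSpace ℝ X)
    (U : (ℝ × L2) ≃L[ℝ] X), ∀ y, ‖U y‖ = N y := by
  let e : (ℝ × L2) ≃ₗ[ℝ] Y := LinearEquiv.refl ℝ (ℝ × L2)
  exact ⟨Y, inferInstance, inferInstance, e.toContinuousLinearEquivOfBounds 4 1 N_le
      (fun y => by rw [one_mul]; exact le_N y), fun _ => rfl⟩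

theorem exists_X (Z : Type) [NormedAddCommGroup Z] [NormedSpace ℝ Z] :
    ∃ (X : Type) (_ : NormedAddCommGroup X) (_ : NormedSpace ℝ X) (_ : CompleteSpace X),
    Nonempty (X ≃ₗᵢ[ℝ] StrongDual ℝ Z) :=
  ⟨StrongDual ℝ Z, inferInstance, inferInstance, inferInstance, ⟨LinearIsometryEquiv.refl ℝ _⟩⟩

section
variable {Z : Type} [NormedAddCommGroup Z] [NormedSpace ℝ Z] (U : (ℝ × L2) ≃L[ℝ] Z)
  {X : Type} [NormedAddCommGroup X] [NormedSpace ℝ X] (Φ : X ≃ₗᵢ[ℝ] StrongDual ℝ Z)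
include U Φ

lemma reflZ (ξ : StrongDual ℝ X) : ∃ z : Z, ‖z‖ = ‖ξ‖ ∧ ∀ x, ξ x = Φ x z := by
  obtain ⟨z, hz⟩ := refl_of_equiv ((WithLp.prodContinuousLinearEquiv 2 ℝ ℝ L2).trans U)
    (ξ.comp (Φ.symm : StrongDual ℝ Z →L[ℝ] X))
  refine ⟨z, ?_, fun x => ?_⟩
  · rw [← ξ.opNorm_comp_linearIsometryEquiv Φ.symm]
    exact ((inclusionInDoubleDualLi ℝ (E := Z)).norm_map z).symm.trans (congrArg norm hz)
  · simpa [dual_def] using (congrArg (fun η => η (Φ x)) hz).symm

lemma reflX : Function.Surjective (inclusionInDoubleDual ℝ X) :=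
  refl_of_equiv (((InnerProductSpace.toDual ℝ (WithLp 2 (ℝ × L2))).toContinuousLinearEquiv.trans
    (((WithLp.prodContinuousLinearEquiv 2 ℝ ℝ L2).trans U).arrowCongr
      (ContinuousLinearEquiv.refl ℝ ℝ))).trans Φ.symm.toContinuousLinearEquiv)

omit U in
lemma bd (x : X) (z : Z) : ‖Φ x z‖ ≤ ‖x‖ * ‖z‖ := by
  rw [← Φ.norm_map x]; exact (Φ x).le_opNorm z

lemma smoothX (hU : ∀ y, ‖U y‖ = N y) (x : X) (hx : x ≠ 0) :
    ∃ f : X →L[ℝ] ℝ, ∀ v, HasLineDerivAt ℝ (fun y : X => ‖y‖) (f v) x v := by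
  obtain ⟨f, hf, hfx⟩ := exists_dual_vector'' ℝ x
  simp only [RCLike.ofReal_real_eq_id, id] at hfx
  refine ⟨f, gateaux x f hf hfx fun g hg hgx => ?_⟩
  obtain ⟨y, hy, hy'⟩ := reflZ U Φ f
  obtain ⟨z, hz, hz'⟩ := reflZ U Φ g
  have hp := norm_pos_iff.mpr hx
  have a : ∀ w : Z, ∀ c, Φ x w = c * ‖x‖ → c ≤ ‖w‖ := fun w c h => by
    have := bd Φ x w
    rw [h, Real.norm_eq_abs, mul_comm ‖x‖] at this
    exact le_of_mul_le_mul_right ((le_abs_self _).trans this) hp
  have a1 := a y 1 (by rw [← hy', hfx, one_mul])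
  have a2 := a z 1 (by rw [← hz', hgx, one_mul])
  have a3 := a (y + z) 2 (by rw [map_add, ← hy', ← hz', hfx, hgx, two_mul])
  have : U.symm y = U.symm z := N_strict (by rw [← hU, ← hU]; simp; linarith)
    (by rw [← hU, ← hU, ← hU]; simp; linarith)
  ext w
  rw [hy', hz', U.symm.injective this]

noncomputable def io : X →L[ℝ] ℝ :=
  (inclusionInDoubleDual ℝ Z (U (1, 0))).comp (Φ : X →L[ℝ] StrongDual ℝ Z)

lemma io_apply (x : X) : io U Φ x = Φ x (U (1, 0)) := rfl

noncomputable def EE : Subspace ℝ X := LinearMap.ker (io U Φ).toLinearMap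

lemma mem_EE {x : X} : x ∈ EE U Φ ↔ Φ x (U (1, 0)) = 0 := Iff.rfl

noncomputable def c0 : X := Φ.symm ((ContinuousLinearMap.fst ℝ ℝ L2).comp (U.symm : Z →L[ℝ] _))

lemma c0_apply (y : ℝ × L2) : Φ (c0 U Φ) (U y) = y.1 := by simp [c0]

noncomputable def cE (i : ℕ) : EE U Φ :=
  ⟨Φ.symm (((cd i).comp (ContinuousLinearMap.snd ℝ ℝ L2)).comp (U.symm : Z →L[ℝ] _)), by
    rw [mem_EE]; simp⟩

lemma cE_apply (i : ℕ) (y : ℝ × L2) : Φ (cE U Φ i) (U y) = cd i y.2 := by simp [cE]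

omit Φ in
lemma split (x : StrongDual ℝ Z) (t : ℝ) (f : L2) :
    x (U (t, f)) = x (U (0, f)) + t * x (U (1, 0)) := by
  rw [← smul_eq_mul, ← map_smul, ← map_smul, ← map_add, ← map_add]; simp

lemma approx (hU : ∀ y, ‖U y‖ = N y) (ε : ℝ) (hε : 0 < ε) (K : Type) [TopologicalSpace K]
    [CompactSpace K] [T2Space K] (T : EE U Φ →L[ℝ] C(K, ℝ)) :
    ∃ S : X →L[ℝ] C(K, ℝ), (∀ e : EE U Φ, S e = T e) ∧ ‖S‖ ≤ (1 + ε) * ‖T‖ := by
  rcases (ContinuousLinearMap.opNorm_nonneg T).eq_or_lt with hT | hT0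
  · refine ⟨0, fun e => ?_, by rw [← hT, mul_zero]; exact ContinuousLinearMap.opNorm_zero.le⟩
    have := T.le_opNorm e
    rw [← hT, zero_mul, norm_le_zero_iff] at this
    rw [this]; rfl
  have h1 : ∀ k : K, ∃ y : ℝ × L2, N y ≤ ‖T‖ ∧ ∀ e : EE U Φ, Φ e (U y) = T e k := by
    intro k
    obtain ⟨ξ, h1, h2⟩ := exists_extension_norm_eq (EE U Φ) ((ContinuousMap.evalCLM ℝ k).comp T)
    obtain ⟨z, hz, hz'⟩ := reflZ U Φ ξ
    refine ⟨U.symm z, ?_, fun e => by rw [U.apply_symm_apply, ← hz', h1]; rfl⟩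
    rw [← hU, U.apply_symm_apply, hz, h2]
    exact ContinuousLinearMap.opNorm_le_bound _ hT0.le fun e =>
      ((T e).norm_coe_le_norm k).trans (T.le_opNorm e)
  choose y hy hy' using h1
  have hc : ∀ i, Continuous fun k => cd i (y k).2 := fun i =>
    (T (cE U Φ i)).continuous.congr fun k => by rw [← hy', cE_apply]
  obtain ⟨m, δ, hδ, hs⟩ := star ‖T‖ (ε * ‖T‖) hT0.le (by positivity)
  have hP : Continuous fun k => PP (Finset.range m) (y k).2 := by
    simp only [PP_apply]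
    exact continuous_finset_sum _ fun i _ => (hc i).smul continuous_const
  obtain ⟨g, hg⟩ := exists_continuous_forall_mem_convex_of_local_const
    (t := fun k => {t : ℝ | ‖U (t, (y k).2)‖ ≤ (1 + ε) * ‖T‖}) (fun k => by
      have : {t : ℝ | ‖U (t, (y k).2)‖ ≤ (1 + ε) * ‖T‖} = (AffineMap.lineMap (k := ℝ)
          (U (0, (y k).2)) (U (1, (y k).2))) ⁻¹' closedBall 0 ((1 + ε) * ‖T‖) := by
        ext t
        simp only [mem_preimage, mem_closedBall_zero_iff, AffineMap.lineMap_apply_module,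
          ← map_smul, ← map_add]
        simp [← add_smul]
      rw [this]; exact (convex_closedBall _ _).affine_preimage _) (fun k0 => by
      set W := {k | ‖PP (Finset.range m) (y k).2 - PP (Finset.range m) (y k0).2‖ < δ / 2} with hW
      have hWn : W ∈ 𝓝 k0 := (isOpen_lt (hP.sub continuous_const).norm continuous_const).mem_nhds
        (by simpa [hW] using hδ)
      have hb : BddAbove ((fun k => ‖(y k).2‖) '' W) := ⟨‖T‖, by
        rintro _ ⟨k, -, rfl⟩; exact (norm_snd_le _).trans ((le_N _).trans (hy k))⟩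
      obtain ⟨_, ⟨k1, hk1, rfl⟩, h⟩ := exists_lt_of_lt_csSup
        (⟨_, k0, mem_of_mem_nhds hWn, rfl⟩ : ((fun k => ‖(y k).2‖) '' W).Nonempty)
        (sub_lt_self _ hδ)
      refine ⟨(y k1).1, mem_of_superset hWn fun k hk => ?_⟩
      change ‖U ((y k1).1, (y k).2)‖ ≤ _
      rw [hU, add_mul, one_mul]
      refine hs _ (y k1) rfl (hy k1) ?_ (by linarith [le_csSup hb ⟨k, hk, rfl⟩])
      rw [map_sub]
      have := norm_sub_le_norm_sub_add_norm_sub (PP (Finset.range m) (y k).2)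
        (PP (Finset.range m) (y k0).2) (PP (Finset.range m) (y k1).2)
      rw [norm_sub_rev (PP (Finset.range m) (y k0).2)] at this
      have a1 : _ < δ / 2 := hk
      have a2 : _ < δ / 2 := hk1
      linarith)
  let P : X →L[ℝ] EE U Φ :=
    (ContinuousLinearMap.id ℝ _ - (io U Φ).smulRight (c0 U Φ)).codRestrict _ fun x => by
      rw [mem_EE]; simp [io_apply, c0_apply]
  have hPx : ∀ x, (P x : X) = x - Φ x (U (1, 0)) • c0 U Φ := fun _ => rfl
  refine ⟨T.comp P + (io U Φ).smulRight g, fun e => ?_, ContinuousLinearMap.opNorm_le_bound _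
    (by positivity) fun x => (ContinuousMap.norm_le _ (by positivity)).mpr fun k => ?_⟩
  · have h0 : Φ e (U (1, 0)) = 0 := e.2
    have : P e = e := Subtype.ext (by rw [hPx, h0, zero_smul, sub_zero])
    simp [this, io_apply, h0]
  · have e : (T.comp P + (io U Φ).smulRight g) x k = Φ x (U (g k, (y k).2)) := by
      change T (P x) k + Φ x (U (1, 0)) * g k = _
      rw [← hy', hPx, split U (Φ x) (g k), map_sub, map_smul, sub_apply, smul_apply, c0_apply,
        show Φ x (U (y k)) = _ from split U (Φ x) (y k).1 (y k).2, smul_eq_mul]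
      ring
    rw [e, mul_comm]
    exact (bd Φ x _).trans (mul_le_mul_of_nonneg_left (hg k) (norm_nonneg _))

lemma noext (hU : ∀ y, ‖U y‖ = N y) : ∃ T : EE U Φ →L[ℝ] C(OnePoint ℕ, ℝ),
    ¬ ∃ S : X →L[ℝ] C(OnePoint ℕ, ℝ), (∀ e : EE U Φ, S e = T e) ∧ ‖S‖ ≤ ‖T‖ := by
  have hl : ∀ x : StrongDual ℝ Z, Tendsto (fun n => (-1 : ℝ) ^ n * x (U (0, ee n))) atTop (𝓝 0) := by
    intro x
    set a := (InnerProductSpace.toDual ℝ L2).symm
      (x.comp ((U : ℝ × L2 →L[ℝ] Z).comp (ContinuousLinearMap.inr ℝ ℝ L2))) with ha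
    have h1 := (hasSum_ee a).summable.tendsto_atTop_zero
    rw [tendsto_zero_iff_norm_tendsto_zero] at h1 ⊢
    refine h1.congr fun n => ?_
    have : x (U (0, ee n)) = cd n a := by
      have := InnerProductSpace.toDual_symm_apply (𝕜 := ℝ) (x := ee n)
        (y := x.comp ((U : ℝ × L2 →L[ℝ] Z).comp (ContinuousLinearMap.inr ℝ ℝ L2)))
      rw [← ha, ee, lp.inner_single_right] at this
      simpa [cd_apply, ee] using this.symm
    simp [norm_smul, ee_norm, this]
  let l : X → C(OnePoint ℕ, ℝ) := fun e => OnePoint.continuousMapMkNat _ _ (hl (Φ e))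
  have l1 : ∀ e, l e OnePoint.infty = 0 := fun _ => rfl
  have l2 : ∀ e (n : ℕ), l e n = (-1 : ℝ) ^ n * Φ e (U (0, ee n)) := fun _ _ => rfl
  let L : EE U Φ →ₗ[ℝ] C(OnePoint ℕ, ℝ) :=
    { toFun := fun e => l e
      map_add' := fun a b => by
        ext k; induction k using OnePoint.rec <;> simp [l1, l2, mul_add]
      map_smul' := fun c a => by
        ext k; induction k using OnePoint.rec <;> simp [l1, l2, mul_left_comm] }
  have hL : ∀ (e : EE U Φ) (n : ℕ), L e n = (-1 : ℝ) ^ n * Φ e (U (0, ee n)) := fun _ _ => rfl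
  have hn : ∀ e, ‖L e‖ ≤ √(10 / 3) * ‖e‖ := fun e => by
    refine (ContinuousMap.norm_le _ (by positivity)).mpr fun k => ?_
    induction k using OnePoint.rec with
    | infty => change ‖(0 : ℝ)‖ ≤ _; rw [norm_zero]; positivity
    | coe n =>
      have h0 : Φ e (U (1, 0)) = 0 := e.2
      have h1 := split U (Φ e) 1 (ee n)
      rw [h0, mul_zero, add_zero] at h1
      rw [hL, ← h1, norm_mul, norm_pow, norm_neg, norm_one, one_pow, one_mul, mul_comm]
      refine (bd Φ _ _).trans (mul_le_mul_of_nonneg_left ?_ (norm_nonneg _))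
      rw [hU]; exact Real.le_sqrt_of_sq_le (spike1 n)
  refine ⟨L.mkContinuous _ hn, ?_⟩
  rintro ⟨S, h1, h2⟩
  have h3 : ‖S‖ ≤ √(10 / 3) := h2.trans (L.mkContinuous_norm_le (by positivity) hn)
  have h4 : ∀ n : ℕ, 5 / 6 ≤ (-1 : ℝ) ^ n * S (c0 U Φ) n := fun n => by
    obtain ⟨z, hz, hz'⟩ := reflZ U Φ ((ContinuousMap.evalCLM ℝ (n : OnePoint ℕ)).comp S)
    obtain ⟨y, rfl⟩ := U.surjective z
    have a1 : ‖U y‖ ≤ √(10 / 3) := by
      rw [hz]
      exact ContinuousLinearMap.opNorm_le_bound _ (by positivity) fun x =>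
        ((S x).norm_coe_le_norm _).trans (S.le_of_opNorm_le h3 x)
    have a2 : S (c0 U Φ) n = y.1 := (hz' (c0 U Φ)).trans (c0_apply U Φ y)
    have sq : (-1 : ℝ) ^ n * (-1) ^ n = 1 := by rw [← mul_pow]; simp
    have a3 : (-1 : ℝ) ^ n • y = ((-1) ^ n * y.1, ee n) := by
      refine Prod.ext rfl (l2ext fun i => ?_)
      have b1 : S (cE U Φ i) n = _ := hz' (cE U Φ i)
      rw [h1, cE_apply] at b1
      have b2 : L (cE U Φ i) n = cd i y.2 := b1
      rw [hL, cE_apply] at b2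
      rw [Prod.smul_snd, map_smul, ← b2, smul_eq_mul, ← mul_assoc, sq, one_mul]
    rw [a2]
    refine spike2 n _ ?_
    rw [← a3, ← hU, map_smul, norm_smul, norm_pow, norm_neg, norm_one, one_pow, one_mul]
    exact (pow_le_pow_left₀ (norm_nonneg _) a1 2).trans_eq (Real.sq_sqrt (by norm_num))
  have h5 : Tendsto (fun n : ℕ => S (c0 U Φ) n) atTop (𝓝 (S (c0 U Φ) OnePoint.infty)) :=
    (OnePoint.continuous_iff_from_nat _).mp (S (c0 U Φ)).continuous
  have h6 := ge_of_tendsto' (h5.comp (tendsto_atTop_mono (f := id) (g := fun n => 2 * n)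
    (fun n => by simp; omega) tendsto_id)) fun n => by simpa using h4 (2 * n)
  have h7 := le_of_tendsto' (h5.comp (tendsto_atTop_mono (f := id) (g := fun n => 2 * n + 1)
    (fun n => by simp; omega) tendsto_id)) (b := -(5 / 6)) fun n => by
      have := h4 (2 * n + 1)
      simp only [pow_succ, pow_mul] at this
      simp only [Function.comp]
      norm_num at this ⊢
      linarith
  linarith
end

end H33.EP
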