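import Mathlib

set_option autoImplicit false

namespace Pool.Agent.H33.Fib

variable {Q : Type} [CommRing Q]

structure Rel (x y : Fin 6 → Q) : Prop where
  r01 : x 3 * x 4 * y 0 = x 0 * x 1 * x 2 * y 1
  r02 : x 3 * y 0 = x 1 * x 2 * y 2
  r03 : x 4 * y 0 = x 0 * y 3
  r04 : x 5 * y 0 = x 2 * y 4
  r05 : x 4 * x 5 * y 0 = x 0 * x 1 * y 5
  r12 : x 0 * y 1 = x 4 * y 2
  r13 : x 1 * x 2 * y 1 = x 3 * y 3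
  r14 : x 0 * x 1 * x 5 * y 1 = x 3 * x 4 * y 4
  r15 : x 2 * x 5 * y 1 = x 3 * y 5
  r23 : x 1 * x 2 * x 4 * y 2 = x 0 * x 3 * y 3
  r24 : x 1 * x 5 * y 2 = x 3 * y 4
  r25 : x 2 * x 4 * x 5 * y 2 = x 0 * x 3 * y 5
  r34 : x 0 * x 5 * y 3 = x 2 * x 4 * y 4
  r35 : x 5 * y 3 = x 1 * y 5
  r45 : x 2 * x 4 * y 4 = x 0 * x 1 * y 5
  hh : y 0 * y 1 = y 2 * y 3

lemma Rel.ee {x y : Fin 6 → Q} (h : Rel x y) : x 2 * y 1 * y 4 = x 1 * y 2 * y 5 := by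
  linear_combination (-y 1) * h.r04 + x 5 * h.hh + y 2 * h.r35

def mono (x y : Fin 6 → Q) (a0 a1 a2 a3 a4 a5 p0 p1 p2 p3 p4 p5 : ℕ) : Q :=
  x 0 ^ a0 * x 1 ^ a1 * x 2 ^ a2 * x 3 ^ a3 * x 4 ^ a4 * x 5 ^ a5 * y 0 ^ p0 * y 1 ^ p1 * y 2 ^ p2 * y 3 ^ p3 * y 4 ^ p4 * y 5 ^ p5

def Cond (k a0 a1 a2 a3 a4 a5 p0 p1 p2 p3 p4 p5 b0 b1 b2 b3 b4 b5 q0 q1 q2 q3 q4 q5 : ℕ) : Prop :=
  a0 + p0 + p2 + p4 = b0 + q0 + q2 + q4 ∧ a1 + p0 + p3 + p4 = b1 + q0 + q3 + q4 ∧ a2 + p0 + p3 + p5 = b2 + q0 + q3 + q5 ∧ a3 + p1 + p2 = b3 + q1 + q2 ∧ a4 + p1 + p3 + p5 = b4 + q1 + q3 + q5 ∧ a5 + p4 + p5 = b5 + q4 + q5 ∧ p0 + p1 + p2 + p3 + p4 + p5 = k ∧ q0 + q1 + q2 + q3 + q4 + q5 = k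

def Good (x y : Fin 6 → Q) (k : ℕ) : Prop :=
  ∀ a0 a1 a2 a3 a4 a5 p0 p1 p2 p3 p4 p5 b0 b1 b2 b3 b4 b5 q0 q1 q2 q3 q4 q5 : ℕ, Cond k a0 a1 a2 a3 a4 a5 p0 p1 p2 p3 p4 p5 b0 b1 b2 b3 b4 b5 q0 q1 q2 q3 q4 q5 →
    mono x y a0 a1 a2 a3 a4 a5 p0 p1 p2 p3 p4 p5 = mono x y b0 b1 b2 b3 b4 b5 q0 q1 q2 q3 q4 q5

lemma share {x y : Fin 6 → Q} {k : ℕ} (ih : Good x y k) (a0 a1 a2 a3 a4 a5 p0 p1 p2 p3 p4 p5 b0 b1 b2 b3 b4 b5 q0 q1 q2 q3 q4 q5 : ℕ)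
    (hc : Cond (k + 1) a0 a1 a2 a3 a4 a5 p0 p1 p2 p3 p4 p5 b0 b1 b2 b3 b4 b5 q0 q1 q2 q3 q4 q5)
    (hs : (0 < p0 ∧ 0 < q0) ∨ (0 < p1 ∧ 0 < q1) ∨ (0 < p2 ∧ 0 < q2) ∨ (0 < p3 ∧ 0 < q3) ∨ (0 < p4 ∧ 0 < q4) ∨ (0 < p5 ∧ 0 < q5)) :
    mono x y a0 a1 a2 a3 a4 a5 p0 p1 p2 p3 p4 p5 = mono x y b0 b1 b2 b3 b4 b5 q0 q1 q2 q3 q4 q5 := by
  unfold Cond at hc
  rcases hs with hs | hs | hs | hs | hs | hs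
  · obtain ⟨p0, rfl⟩ : ∃ t, p0 = t + 1 := ⟨p0 - 1, by omega⟩
    obtain ⟨q0, rfl⟩ : ∃ t, q0 = t + 1 := ⟨q0 - 1, by omega⟩
    have e := ih a0 a1 a2 a3 a4 a5 p0 p1 p2 p3 p4 p5 b0 b1 b2 b3 b4 b5 q0 q1 q2 q3 q4 q5 (by unfold Cond; omega)
    simp only [mono] at e ⊢
    linear_combination y 0 * e
  · obtain ⟨p1, rfl⟩ : ∃ t, p1 = t + 1 := ⟨p1 - 1, by omega⟩
    obtain ⟨q1, rfl⟩ : ∃ t, q1 = t + 1 := ⟨q1 - 1, by omega⟩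
    have e := ih a0 a1 a2 a3 a4 a5 p0 p1 p2 p3 p4 p5 b0 b1 b2 b3 b4 b5 q0 q1 q2 q3 q4 q5 (by unfold Cond; omega)
    simp only [mono] at e ⊢
    linear_combination y 1 * e
  · obtain ⟨p2, rfl⟩ : ∃ t, p2 = t + 1 := ⟨p2 - 1, by omega⟩
    obtain ⟨q2, rfl⟩ : ∃ t, q2 = t + 1 := ⟨q2 - 1, by omega⟩
    have e := ih a0 a1 a2 a3 a4 a5 p0 p1 p2 p3 p4 p5 b0 b1 b2 b3 b4 b5 q0 q1 q2 q3 q4 q5 (by unfold Cond; omega)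
    simp only [mono] at e ⊢
    linear_combination y 2 * e
  · obtain ⟨p3, rfl⟩ : ∃ t, p3 = t + 1 := ⟨p3 - 1, by omega⟩
    obtain ⟨q3, rfl⟩ : ∃ t, q3 = t + 1 := ⟨q3 - 1, by omega⟩
    have e := ih a0 a1 a2 a3 a4 a5 p0 p1 p2 p3 p4 p5 b0 b1 b2 b3 b4 b5 q0 q1 q2 q3 q4 q5 (by unfold Cond; omega)
    simp only [mono] at e ⊢
    linear_combination y 3 * e
  · obtain ⟨p4, rfl⟩ : ∃ t, p4 = t + 1 := ⟨p4 - 1, by omega⟩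
    obtain ⟨q4, rfl⟩ : ∃ t, q4 = t + 1 := ⟨q4 - 1, by omega⟩
    have e := ih a0 a1 a2 a3 a4 a5 p0 p1 p2 p3 p4 p5 b0 b1 b2 b3 b4 b5 q0 q1 q2 q3 q4 q5 (by unfold Cond; omega)
    simp only [mono] at e ⊢
    linear_combination y 4 * e
  · obtain ⟨p5, rfl⟩ : ∃ t, p5 = t + 1 := ⟨p5 - 1, by omega⟩
    obtain ⟨q5, rfl⟩ : ∃ t, q5 = t + 1 := ⟨q5 - 1, by omega⟩
    have e := ih a0 a1 a2 a3 a4 a5 p0 p1 p2 p3 p4 p5 b0 b1 b2 b3 b4 b5 q0 q1 q2 q3 q4 q5 (by unfold Cond; omega)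
    simp only [mono] at e ⊢
    linear_combination y 5 * e

lemma Cond.symm {k a0 a1 a2 a3 a4 a5 p0 p1 p2 p3 p4 p5 b0 b1 b2 b3 b4 b5 q0 q1 q2 q3 q4 q5 : ℕ} (hc : Cond k a0 a1 a2 a3 a4 a5 p0 p1 p2 p3 p4 p5 b0 b1 b2 b3 b4 b5 q0 q1 q2 q3 q4 q5) : Cond k b0 b1 b2 b3 b4 b5 q0 q1 q2 q3 q4 q5 a0 a1 a2 a3 a4 a5 p0 p1 p2 p3 p4 p5 := by
  unfold Cond at *
  omega

lemma eA {x y : Fin 6 → Q} (h : Rel x y) {k : ℕ} (ih : Good x y k) {a0 a1 a2 a3 a4 a5 p0 p1 p2 p3 p4 p5 b0 b1 b2 b3 b4 b5 q0 q1 q2 q3 q4 q5 : ℕ}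
    (hc : Cond (k + 1) a0 a1 a2 a3 a4 a5 p0 p1 p2 p3 p4 p5 b0 b1 b2 b3 b4 b5 q0 q1 q2 q3 q4 q5)
    (ha2 : 0 < a2) (hp1 : 0 < p1) (hp4 : 0 < p4) (ht : 0 < q2 ∨ 0 < q5) :
    mono x y a0 a1 a2 a3 a4 a5 p0 p1 p2 p3 p4 p5 = mono x y b0 b1 b2 b3 b4 b5 q0 q1 q2 q3 q4 q5 := by
  obtain ⟨a2, rfl⟩ := Nat.exists_eq_add_one_of_ne_zero ha2.ne'
  obtain ⟨p1, rfl⟩ := Nat.exists_eq_add_one_of_ne_zero hp1.ne'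
  obtain ⟨p4, rfl⟩ := Nat.exists_eq_add_one_of_ne_zero hp4.ne'
  rw [← share ih a0 (a1 + 1) a2 a3 a4 a5 p0 p1 (p2 + 1) p3 p4 (p5 + 1) b0 b1 b2 b3 b4 b5 q0 q1 q2 q3 q4 q5 (by unfold Cond at *; omega) (by clear hc; omega)]
  simp only [mono]
  linear_combination ((x 0 ^ a0 * x 1 ^ a1 * x 2 ^ a2 * x 3 ^ a3 * x 4 ^ a4 * x 5 ^ a5 * y 0 ^ p0 * y 1 ^ p1 * y 2 ^ p2 * y 3 ^ p3 * y 4 ^ p4 * y 5 ^ p5)) * h.ee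

lemma eB {x y : Fin 6 → Q} (h : Rel x y) {k : ℕ} (ih : Good x y k) {a0 a1 a2 a3 a4 a5 p0 p1 p2 p3 p4 p5 b0 b1 b2 b3 b4 b5 q0 q1 q2 q3 q4 q5 : ℕ}
    (hc : Cond (k + 1) a0 a1 a2 a3 a4 a5 p0 p1 p2 p3 p4 p5 b0 b1 b2 b3 b4 b5 q0 q1 q2 q3 q4 q5)
    (ha1 : 0 < a1) (hp2 : 0 < p2) (hp5 : 0 < p5) (ht : 0 < q1 ∨ 0 < q4) :
    mono x y a0 a1 a2 a3 a4 a5 p0 p1 p2 p3 p4 p5 = mono x y b0 b1 b2 b3 b4 b5 q0 q1 q2 q3 q4 q5 := by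
  obtain ⟨a1, rfl⟩ := Nat.exists_eq_add_one_of_ne_zero ha1.ne'
  obtain ⟨p2, rfl⟩ := Nat.exists_eq_add_one_of_ne_zero hp2.ne'
  obtain ⟨p5, rfl⟩ := Nat.exists_eq_add_one_of_ne_zero hp5.ne'
  rw [← share ih a0 a1 (a2 + 1) a3 a4 a5 p0 (p1 + 1) p2 p3 (p4 + 1) p5 b0 b1 b2 b3 b4 b5 q0 q1 q2 q3 q4 q5 (by unfold Cond at *; omega) (by clear hc; omega)]
  simp only [mono]
  linear_combination (-(x 0 ^ a0 * x 1 ^ a1 * x 2 ^ a2 * x 3 ^ a3 * x 4 ^ a4 * x 5 ^ a5 * y 0 ^ p0 * y 1 ^ p1 * y 2 ^ p2 * y 3 ^ p3 * y 4 ^ p4 * y 5 ^ p5)) * h.ee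

lemma hA {x y : Fin 6 → Q} (h : Rel x y) {k : ℕ} (ih : Good x y k) {a0 a1 a2 a3 a4 a5 p0 p1 p2 p3 p4 p5 b0 b1 b2 b3 b4 b5 q0 q1 q2 q3 q4 q5 : ℕ}
    (hc : Cond (k + 1) a0 a1 a2 a3 a4 a5 p0 p1 p2 p3 p4 p5 b0 b1 b2 b3 b4 b5 q0 q1 q2 q3 q4 q5)
    (hp0 : 0 < p0) (hp1 : 0 < p1) (ht : 0 < q2 ∨ 0 < q3) :
    mono x y a0 a1 a2 a3 a4 a5 p0 p1 p2 p3 p4 p5 = mono x y b0 b1 b2 b3 b4 b5 q0 q1 q2 q3 q4 q5 := by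
  obtain ⟨p0, rfl⟩ := Nat.exists_eq_add_one_of_ne_zero hp0.ne'
  obtain ⟨p1, rfl⟩ := Nat.exists_eq_add_one_of_ne_zero hp1.ne'
  rw [← share ih a0 a1 a2 a3 a4 a5 p0 p1 (p2 + 1) (p3 + 1) p4 p5 b0 b1 b2 b3 b4 b5 q0 q1 q2 q3 q4 q5 (by unfold Cond at *; omega) (by clear hc; omega)]
  simp only [mono]
  linear_combination ((x 0 ^ a0 * x 1 ^ a1 * x 2 ^ a2 * x 3 ^ a3 * x 4 ^ a4 * x 5 ^ a5 * y 0 ^ p0 * y 1 ^ p1 * y 2 ^ p2 * y 3 ^ p3 * y 4 ^ p4 * y 5 ^ p5)) * h.hh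

lemma hB {x y : Fin 6 → Q} (h : Rel x y) {k : ℕ} (ih : Good x y k) {a0 a1 a2 a3 a4 a5 p0 p1 p2 p3 p4 p5 b0 b1 b2 b3 b4 b5 q0 q1 q2 q3 q4 q5 : ℕ}
    (hc : Cond (k + 1) a0 a1 a2 a3 a4 a5 p0 p1 p2 p3 p4 p5 b0 b1 b2 b3 b4 b5 q0 q1 q2 q3 q4 q5)
    (hp2 : 0 < p2) (hp3 : 0 < p3) (ht : 0 < q0 ∨ 0 < q1) :
    mono x y a0 a1 a2 a3 a4 a5 p0 p1 p2 p3 p4 p5 = mono x y b0 b1 b2 b3 b4 b5 q0 q1 q2 q3 q4 q5 := by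
  obtain ⟨p2, rfl⟩ := Nat.exists_eq_add_one_of_ne_zero hp2.ne'
  obtain ⟨p3, rfl⟩ := Nat.exists_eq_add_one_of_ne_zero hp3.ne'
  rw [← share ih a0 a1 a2 a3 a4 a5 (p0 + 1) (p1 + 1) p2 p3 p4 p5 b0 b1 b2 b3 b4 b5 q0 q1 q2 q3 q4 q5 (by unfold Cond at *; omega) (by clear hc; omega)]
  simp only [mono]
  linear_combination (-(x 0 ^ a0 * x 1 ^ a1 * x 2 ^ a2 * x 3 ^ a3 * x 4 ^ a4 * x 5 ^ a5 * y 0 ^ p0 * y 1 ^ p1 * y 2 ^ p2 * y 3 ^ p3 * y 4 ^ p4 * y 5 ^ p5)) * h.hh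

lemma m01 {x y : Fin 6 → Q} (h : Rel x y) {k : ℕ} (ih : Good x y k) {a0 a1 a2 a3 a4 a5 p0 p1 p2 p3 p4 p5 b0 b1 b2 b3 b4 b5 q0 q1 q2 q3 q4 q5 : ℕ}
    (hc : Cond (k + 1) a0 a1 a2 a3 a4 a5 p0 p1 p2 p3 p4 p5 b0 b1 b2 b3 b4 b5 q0 q1 q2 q3 q4 q5)
    (ha3 : 0 < a3) (ha4 : 0 < a4) (hp0 : 0 < p0) (ht : 0 < q1) :
    mono x y a0 a1 a2 a3 a4 a5 p0 p1 p2 p3 p4 p5 = mono x y b0 b1 b2 b3 b4 b5 q0 q1 q2 q3 q4 q5 := by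
  obtain ⟨a3, rfl⟩ := Nat.exists_eq_add_one_of_ne_zero ha3.ne'
  obtain ⟨a4, rfl⟩ := Nat.exists_eq_add_one_of_ne_zero ha4.ne'
  obtain ⟨p0, rfl⟩ := Nat.exists_eq_add_one_of_ne_zero hp0.ne'
  rw [← share ih (a0 + 1) (a1 + 1) (a2 + 1) a3 a4 a5 p0 (p1 + 1) p2 p3 p4 p5 b0 b1 b2 b3 b4 b5 q0 q1 q2 q3 q4 q5 (by unfold Cond at *; omega) (by clear hc; omega)]
  simp only [mono]
  linear_combination ((x 0 ^ a0 * x 1 ^ a1 * x 2 ^ a2 * x 3 ^ a3 * x 4 ^ a4 * x 5 ^ a5 * y 0 ^ p0 * y 1 ^ p1 * y 2 ^ p2 * y 3 ^ p3 * y 4 ^ p4 * y 5 ^ p5)) * h.r01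

lemma m02 {x y : Fin 6 → Q} (h : Rel x y) {k : ℕ} (ih : Good x y k) {a0 a1 a2 a3 a4 a5 p0 p1 p2 p3 p4 p5 b0 b1 b2 b3 b4 b5 q0 q1 q2 q3 q4 q5 : ℕ}
    (hc : Cond (k + 1) a0 a1 a2 a3 a4 a5 p0 p1 p2 p3 p4 p5 b0 b1 b2 b3 b4 b5 q0 q1 q2 q3 q4 q5)
    (ha3 : 0 < a3) (hp0 : 0 < p0) (ht : 0 < q2) :
    mono x y a0 a1 a2 a3 a4 a5 p0 p1 p2 p3 p4 p5 = mono x y b0 b1 b2 b3 b4 b5 q0 q1 q2 q3 q4 q5 := by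
  obtain ⟨a3, rfl⟩ := Nat.exists_eq_add_one_of_ne_zero ha3.ne'
  obtain ⟨p0, rfl⟩ := Nat.exists_eq_add_one_of_ne_zero hp0.ne'
  rw [← share ih a0 (a1 + 1) (a2 + 1) a3 a4 a5 p0 p1 (p2 + 1) p3 p4 p5 b0 b1 b2 b3 b4 b5 q0 q1 q2 q3 q4 q5 (by unfold Cond at *; omega) (by clear hc; omega)]
  simp only [mono]
  linear_combination ((x 0 ^ a0 * x 1 ^ a1 * x 2 ^ a2 * x 3 ^ a3 * x 4 ^ a4 * x 5 ^ a5 * y 0 ^ p0 * y 1 ^ p1 * y 2 ^ p2 * y 3 ^ p3 * y 4 ^ p4 * y 5 ^ p5)) * h.r02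

lemma m03 {x y : Fin 6 → Q} (h : Rel x y) {k : ℕ} (ih : Good x y k) {a0 a1 a2 a3 a4 a5 p0 p1 p2 p3 p4 p5 b0 b1 b2 b3 b4 b5 q0 q1 q2 q3 q4 q5 : ℕ}
    (hc : Cond (k + 1) a0 a1 a2 a3 a4 a5 p0 p1 p2 p3 p4 p5 b0 b1 b2 b3 b4 b5 q0 q1 q2 q3 q4 q5)
    (ha4 : 0 < a4) (hp0 : 0 < p0) (ht : 0 < q3) :
    mono x y a0 a1 a2 a3 a4 a5 p0 p1 p2 p3 p4 p5 = mono x y b0 b1 b2 b3 b4 b5 q0 q1 q2 q3 q4 q5 := by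
  obtain ⟨a4, rfl⟩ := Nat.exists_eq_add_one_of_ne_zero ha4.ne'
  obtain ⟨p0, rfl⟩ := Nat.exists_eq_add_one_of_ne_zero hp0.ne'
  rw [← share ih (a0 + 1) a1 a2 a3 a4 a5 p0 p1 p2 (p3 + 1) p4 p5 b0 b1 b2 b3 b4 b5 q0 q1 q2 q3 q4 q5 (by unfold Cond at *; omega) (by clear hc; omega)]
  simp only [mono]
  linear_combination ((x 0 ^ a0 * x 1 ^ a1 * x 2 ^ a2 * x 3 ^ a3 * x 4 ^ a4 * x 5 ^ a5 * y 0 ^ p0 * y 1 ^ p1 * y 2 ^ p2 * y 3 ^ p3 * y 4 ^ p4 * y 5 ^ p5)) * h.r03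

lemma m04 {x y : Fin 6 → Q} (h : Rel x y) {k : ℕ} (ih : Good x y k) {a0 a1 a2 a3 a4 a5 p0 p1 p2 p3 p4 p5 b0 b1 b2 b3 b4 b5 q0 q1 q2 q3 q4 q5 : ℕ}
    (hc : Cond (k + 1) a0 a1 a2 a3 a4 a5 p0 p1 p2 p3 p4 p5 b0 b1 b2 b3 b4 b5 q0 q1 q2 q3 q4 q5)
    (ha5 : 0 < a5) (hp0 : 0 < p0) (ht : 0 < q4) :
    mono x y a0 a1 a2 a3 a4 a5 p0 p1 p2 p3 p4 p5 = mono x y b0 b1 b2 b3 b4 b5 q0 q1 q2 q3 q4 q5 := by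
  obtain ⟨a5, rfl⟩ := Nat.exists_eq_add_one_of_ne_zero ha5.ne'
  obtain ⟨p0, rfl⟩ := Nat.exists_eq_add_one_of_ne_zero hp0.ne'
  rw [← share ih a0 a1 (a2 + 1) a3 a4 a5 p0 p1 p2 p3 (p4 + 1) p5 b0 b1 b2 b3 b4 b5 q0 q1 q2 q3 q4 q5 (by unfold Cond at *; omega) (by clear hc; omega)]
  simp only [mono]
  linear_combination ((x 0 ^ a0 * x 1 ^ a1 * x 2 ^ a2 * x 3 ^ a3 * x 4 ^ a4 * x 5 ^ a5 * y 0 ^ p0 * y 1 ^ p1 * y 2 ^ p2 * y 3 ^ p3 * y 4 ^ p4 * y 5 ^ p5)) * h.r04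

lemma m05 {x y : Fin 6 → Q} (h : Rel x y) {k : ℕ} (ih : Good x y k) {a0 a1 a2 a3 a4 a5 p0 p1 p2 p3 p4 p5 b0 b1 b2 b3 b4 b5 q0 q1 q2 q3 q4 q5 : ℕ}
    (hc : Cond (k + 1) a0 a1 a2 a3 a4 a5 p0 p1 p2 p3 p4 p5 b0 b1 b2 b3 b4 b5 q0 q1 q2 q3 q4 q5)
    (ha4 : 0 < a4) (ha5 : 0 < a5) (hp0 : 0 < p0) (ht : 0 < q5) :
    mono x y a0 a1 a2 a3 a4 a5 p0 p1 p2 p3 p4 p5 = mono x y b0 b1 b2 b3 b4 b5 q0 q1 q2 q3 q4 q5 := by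
  obtain ⟨a4, rfl⟩ := Nat.exists_eq_add_one_of_ne_zero ha4.ne'
  obtain ⟨a5, rfl⟩ := Nat.exists_eq_add_one_of_ne_zero ha5.ne'
  obtain ⟨p0, rfl⟩ := Nat.exists_eq_add_one_of_ne_zero hp0.ne'
  rw [← share ih (a0 + 1) (a1 + 1) a2 a3 a4 a5 p0 p1 p2 p3 p4 (p5 + 1) b0 b1 b2 b3 b4 b5 q0 q1 q2 q3 q4 q5 (by unfold Cond at *; omega) (by clear hc; omega)]
  simp only [mono]
  linear_combination ((x 0 ^ a0 * x 1 ^ a1 * x 2 ^ a2 * x 3 ^ a3 * x 4 ^ a4 * x 5 ^ a5 * y 0 ^ p0 * y 1 ^ p1 * y 2 ^ p2 * y 3 ^ p3 * y 4 ^ p4 * y 5 ^ p5)) * h.r05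

lemma m12 {x y : Fin 6 → Q} (h : Rel x y) {k : ℕ} (ih : Good x y k) {a0 a1 a2 a3 a4 a5 p0 p1 p2 p3 p4 p5 b0 b1 b2 b3 b4 b5 q0 q1 q2 q3 q4 q5 : ℕ}
    (hc : Cond (k + 1) a0 a1 a2 a3 a4 a5 p0 p1 p2 p3 p4 p5 b0 b1 b2 b3 b4 b5 q0 q1 q2 q3 q4 q5)
    (ha0 : 0 < a0) (hp1 : 0 < p1) (ht : 0 < q2) :
    mono x y a0 a1 a2 a3 a4 a5 p0 p1 p2 p3 p4 p5 = mono x y b0 b1 b2 b3 b4 b5 q0 q1 q2 q3 q4 q5 := by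
  obtain ⟨a0, rfl⟩ := Nat.exists_eq_add_one_of_ne_zero ha0.ne'
  obtain ⟨p1, rfl⟩ := Nat.exists_eq_add_one_of_ne_zero hp1.ne'
  rw [← share ih a0 a1 a2 a3 (a4 + 1) a5 p0 p1 (p2 + 1) p3 p4 p5 b0 b1 b2 b3 b4 b5 q0 q1 q2 q3 q4 q5 (by unfold Cond at *; omega) (by clear hc; omega)]
  simp only [mono]
  linear_combination ((x 0 ^ a0 * x 1 ^ a1 * x 2 ^ a2 * x 3 ^ a3 * x 4 ^ a4 * x 5 ^ a5 * y 0 ^ p0 * y 1 ^ p1 * y 2 ^ p2 * y 3 ^ p3 * y 4 ^ p4 * y 5 ^ p5)) * h.r12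

lemma m14 {x y : Fin 6 → Q} (h : Rel x y) {k : ℕ} (ih : Good x y k) {a0 a1 a2 a3 a4 a5 p0 p1 p2 p3 p4 p5 b0 b1 b2 b3 b4 b5 q0 q1 q2 q3 q4 q5 : ℕ}
    (hc : Cond (k + 1) a0 a1 a2 a3 a4 a5 p0 p1 p2 p3 p4 p5 b0 b1 b2 b3 b4 b5 q0 q1 q2 q3 q4 q5)
    (ha0 : 0 < a0) (ha1 : 0 < a1) (ha5 : 0 < a5) (hp1 : 0 < p1) (ht : 0 < q4) :
    mono x y a0 a1 a2 a3 a4 a5 p0 p1 p2 p3 p4 p5 = mono x y b0 b1 b2 b3 b4 b5 q0 q1 q2 q3 q4 q5 := by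
  obtain ⟨a0, rfl⟩ := Nat.exists_eq_add_one_of_ne_zero ha0.ne'
  obtain ⟨a1, rfl⟩ := Nat.exists_eq_add_one_of_ne_zero ha1.ne'
  obtain ⟨a5, rfl⟩ := Nat.exists_eq_add_one_of_ne_zero ha5.ne'
  obtain ⟨p1, rfl⟩ := Nat.exists_eq_add_one_of_ne_zero hp1.ne'
  rw [← share ih a0 a1 a2 (a3 + 1) (a4 + 1) a5 p0 p1 p2 p3 (p4 + 1) p5 b0 b1 b2 b3 b4 b5 q0 q1 q2 q3 q4 q5 (by unfold Cond at *; omega) (by clear hc; omega)]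
  simp only [mono]
  linear_combination ((x 0 ^ a0 * x 1 ^ a1 * x 2 ^ a2 * x 3 ^ a3 * x 4 ^ a4 * x 5 ^ a5 * y 0 ^ p0 * y 1 ^ p1 * y 2 ^ p2 * y 3 ^ p3 * y 4 ^ p4 * y 5 ^ p5)) * h.r14

lemma m21 {x y : Fin 6 → Q} (h : Rel x y) {k : ℕ} (ih : Good x y k) {a0 a1 a2 a3 a4 a5 p0 p1 p2 p3 p4 p5 b0 b1 b2 b3 b4 b5 q0 q1 q2 q3 q4 q5 : ℕ}
    (hc : Cond (k + 1) a0 a1 a2 a3 a4 a5 p0 p1 p2 p3 p4 p5 b0 b1 b2 b3 b4 b5 q0 q1 q2 q3 q4 q5)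
    (ha4 : 0 < a4) (hp2 : 0 < p2) (ht : 0 < q1) :
    mono x y a0 a1 a2 a3 a4 a5 p0 p1 p2 p3 p4 p5 = mono x y b0 b1 b2 b3 b4 b5 q0 q1 q2 q3 q4 q5 := by
  obtain ⟨a4, rfl⟩ := Nat.exists_eq_add_one_of_ne_zero ha4.ne'
  obtain ⟨p2, rfl⟩ := Nat.exists_eq_add_one_of_ne_zero hp2.ne'
  rw [← share ih (a0 + 1) a1 a2 a3 a4 a5 p0 (p1 + 1) p2 p3 p4 p5 b0 b1 b2 b3 b4 b5 q0 q1 q2 q3 q4 q5 (by unfold Cond at *; omega) (by clear hc; omega)]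
  simp only [mono]
  linear_combination (-(x 0 ^ a0 * x 1 ^ a1 * x 2 ^ a2 * x 3 ^ a3 * x 4 ^ a4 * x 5 ^ a5 * y 0 ^ p0 * y 1 ^ p1 * y 2 ^ p2 * y 3 ^ p3 * y 4 ^ p4 * y 5 ^ p5)) * h.r12

lemma m23 {x y : Fin 6 → Q} (h : Rel x y) {k : ℕ} (ih : Good x y k) {a0 a1 a2 a3 a4 a5 p0 p1 p2 p3 p4 p5 b0 b1 b2 b3 b4 b5 q0 q1 q2 q3 q4 q5 : ℕ}
    (hc : Cond (k + 1) a0 a1 a2 a3 a4 a5 p0 p1 p2 p3 p4 p5 b0 b1 b2 b3 b4 b5 q0 q1 q2 q3 q4 q5)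
    (ha1 : 0 < a1) (ha2 : 0 < a2) (ha4 : 0 < a4) (hp2 : 0 < p2) (ht : 0 < q3) :
    mono x y a0 a1 a2 a3 a4 a5 p0 p1 p2 p3 p4 p5 = mono x y b0 b1 b2 b3 b4 b5 q0 q1 q2 q3 q4 q5 := by
  obtain ⟨a1, rfl⟩ := Nat.exists_eq_add_one_of_ne_zero ha1.ne'
  obtain ⟨a2, rfl⟩ := Nat.exists_eq_add_one_of_ne_zero ha2.ne'
  obtain ⟨a4, rfl⟩ := Nat.exists_eq_add_one_of_ne_zero ha4.ne'
  obtain ⟨p2, rfl⟩ := Nat.exists_eq_add_one_of_ne_zero hp2.ne'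
  rw [← share ih (a0 + 1) a1 a2 (a3 + 1) a4 a5 p0 p1 p2 (p3 + 1) p4 p5 b0 b1 b2 b3 b4 b5 q0 q1 q2 q3 q4 q5 (by unfold Cond at *; omega) (by clear hc; omega)]
  simp only [mono]
  linear_combination ((x 0 ^ a0 * x 1 ^ a1 * x 2 ^ a2 * x 3 ^ a3 * x 4 ^ a4 * x 5 ^ a5 * y 0 ^ p0 * y 1 ^ p1 * y 2 ^ p2 * y 3 ^ p3 * y 4 ^ p4 * y 5 ^ p5)) * h.r23

lemma m24 {x y : Fin 6 → Q} (h : Rel x y) {k : ℕ} (ih : Good x y k) {a0 a1 a2 a3 a4 a5 p0 p1 p2 p3 p4 p5 b0 b1 b2 b3 b4 b5 q0 q1 q2 q3 q4 q5 : ℕ}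
    (hc : Cond (k + 1) a0 a1 a2 a3 a4 a5 p0 p1 p2 p3 p4 p5 b0 b1 b2 b3 b4 b5 q0 q1 q2 q3 q4 q5)
    (ha1 : 0 < a1) (ha5 : 0 < a5) (hp2 : 0 < p2) (ht : 0 < q4) :
    mono x y a0 a1 a2 a3 a4 a5 p0 p1 p2 p3 p4 p5 = mono x y b0 b1 b2 b3 b4 b5 q0 q1 q2 q3 q4 q5 := by
  obtain ⟨a1, rfl⟩ := Nat.exists_eq_add_one_of_ne_zero ha1.ne'
  obtain ⟨a5, rfl⟩ := Nat.exists_eq_add_one_of_ne_zero ha5.ne'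
  obtain ⟨p2, rfl⟩ := Nat.exists_eq_add_one_of_ne_zero hp2.ne'
  rw [← share ih a0 a1 a2 (a3 + 1) a4 a5 p0 p1 p2 p3 (p4 + 1) p5 b0 b1 b2 b3 b4 b5 q0 q1 q2 q3 q4 q5 (by unfold Cond at *; omega) (by clear hc; omega)]
  simp only [mono]
  linear_combination ((x 0 ^ a0 * x 1 ^ a1 * x 2 ^ a2 * x 3 ^ a3 * x 4 ^ a4 * x 5 ^ a5 * y 0 ^ p0 * y 1 ^ p1 * y 2 ^ p2 * y 3 ^ p3 * y 4 ^ p4 * y 5 ^ p5)) * h.r24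

lemma m25 {x y : Fin 6 → Q} (h : Rel x y) {k : ℕ} (ih : Good x y k) {a0 a1 a2 a3 a4 a5 p0 p1 p2 p3 p4 p5 b0 b1 b2 b3 b4 b5 q0 q1 q2 q3 q4 q5 : ℕ}
    (hc : Cond (k + 1) a0 a1 a2 a3 a4 a5 p0 p1 p2 p3 p4 p5 b0 b1 b2 b3 b4 b5 q0 q1 q2 q3 q4 q5)
    (ha2 : 0 < a2) (ha4 : 0 < a4) (ha5 : 0 < a5) (hp2 : 0 < p2) (ht : 0 < q5) :
    mono x y a0 a1 a2 a3 a4 a5 p0 p1 p2 p3 p4 p5 = mono x y b0 b1 b2 b3 b4 b5 q0 q1 q2 q3 q4 q5 := by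
  obtain ⟨a2, rfl⟩ := Nat.exists_eq_add_one_of_ne_zero ha2.ne'
  obtain ⟨a4, rfl⟩ := Nat.exists_eq_add_one_of_ne_zero ha4.ne'
  obtain ⟨a5, rfl⟩ := Nat.exists_eq_add_one_of_ne_zero ha5.ne'
  obtain ⟨p2, rfl⟩ := Nat.exists_eq_add_one_of_ne_zero hp2.ne'
  rw [← share ih (a0 + 1) a1 a2 (a3 + 1) a4 a5 p0 p1 p2 p3 p4 (p5 + 1) b0 b1 b2 b3 b4 b5 q0 q1 q2 q3 q4 q5 (by unfold Cond at *; omega) (by clear hc; omega)]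
  simp only [mono]
  linear_combination ((x 0 ^ a0 * x 1 ^ a1 * x 2 ^ a2 * x 3 ^ a3 * x 4 ^ a4 * x 5 ^ a5 * y 0 ^ p0 * y 1 ^ p1 * y 2 ^ p2 * y 3 ^ p3 * y 4 ^ p4 * y 5 ^ p5)) * h.r25

lemma m31 {x y : Fin 6 → Q} (h : Rel x y) {k : ℕ} (ih : Good x y k) {a0 a1 a2 a3 a4 a5 p0 p1 p2 p3 p4 p5 b0 b1 b2 b3 b4 b5 q0 q1 q2 q3 q4 q5 : ℕ}
    (hc : Cond (k + 1) a0 a1 a2 a3 a4 a5 p0 p1 p2 p3 p4 p5 b0 b1 b2 b3 b4 b5 q0 q1 q2 q3 q4 q5)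
    (ha3 : 0 < a3) (hp3 : 0 < p3) (ht : 0 < q1) :
    mono x y a0 a1 a2 a3 a4 a5 p0 p1 p2 p3 p4 p5 = mono x y b0 b1 b2 b3 b4 b5 q0 q1 q2 q3 q4 q5 := by
  obtain ⟨a3, rfl⟩ := Nat.exists_eq_add_one_of_ne_zero ha3.ne'
  obtain ⟨p3, rfl⟩ := Nat.exists_eq_add_one_of_ne_zero hp3.ne'
  rw [← share ih a0 (a1 + 1) (a2 + 1) a3 a4 a5 p0 (p1 + 1) p2 p3 p4 p5 b0 b1 b2 b3 b4 b5 q0 q1 q2 q3 q4 q5 (by unfold Cond at *; omega) (by clear hc; omega)]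
  simp only [mono]
  linear_combination (-(x 0 ^ a0 * x 1 ^ a1 * x 2 ^ a2 * x 3 ^ a3 * x 4 ^ a4 * x 5 ^ a5 * y 0 ^ p0 * y 1 ^ p1 * y 2 ^ p2 * y 3 ^ p3 * y 4 ^ p4 * y 5 ^ p5)) * h.r13

lemma m32 {x y : Fin 6 → Q} (h : Rel x y) {k : ℕ} (ih : Good x y k) {a0 a1 a2 a3 a4 a5 p0 p1 p2 p3 p4 p5 b0 b1 b2 b3 b4 b5 q0 q1 q2 q3 q4 q5 : ℕ}
    (hc : Cond (k + 1) a0 a1 a2 a3 a4 a5 p0 p1 p2 p3 p4 p5 b0 b1 b2 b3 b4 b5 q0 q1 q2 q3 q4 q5)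
    (ha0 : 0 < a0) (ha3 : 0 < a3) (hp3 : 0 < p3) (ht : 0 < q2) :
    mono x y a0 a1 a2 a3 a4 a5 p0 p1 p2 p3 p4 p5 = mono x y b0 b1 b2 b3 b4 b5 q0 q1 q2 q3 q4 q5 := by
  obtain ⟨a0, rfl⟩ := Nat.exists_eq_add_one_of_ne_zero ha0.ne'
  obtain ⟨a3, rfl⟩ := Nat.exists_eq_add_one_of_ne_zero ha3.ne'
  obtain ⟨p3, rfl⟩ := Nat.exists_eq_add_one_of_ne_zero hp3.ne'
  rw [← share ih a0 (a1 + 1) (a2 + 1) a3 (a4 + 1) a5 p0 p1 (p2 + 1) p3 p4 p5 b0 b1 b2 b3 b4 b5 q0 q1 q2 q3 q4 q5 (by unfold Cond at *; omega) (by clear hc; omega)]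
  simp only [mono]
  linear_combination (-(x 0 ^ a0 * x 1 ^ a1 * x 2 ^ a2 * x 3 ^ a3 * x 4 ^ a4 * x 5 ^ a5 * y 0 ^ p0 * y 1 ^ p1 * y 2 ^ p2 * y 3 ^ p3 * y 4 ^ p4 * y 5 ^ p5)) * h.r23

lemma m34 {x y : Fin 6 → Q} (h : Rel x y) {k : ℕ} (ih : Good x y k) {a0 a1 a2 a3 a4 a5 p0 p1 p2 p3 p4 p5 b0 b1 b2 b3 b4 b5 q0 q1 q2 q3 q4 q5 : ℕ}
    (hc : Cond (k + 1) a0 a1 a2 a3 a4 a5 p0 p1 p2 p3 p4 p5 b0 b1 b2 b3 b4 b5 q0 q1 q2 q3 q4 q5)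
    (ha0 : 0 < a0) (ha5 : 0 < a5) (hp3 : 0 < p3) (ht : 0 < q4) :
    mono x y a0 a1 a2 a3 a4 a5 p0 p1 p2 p3 p4 p5 = mono x y b0 b1 b2 b3 b4 b5 q0 q1 q2 q3 q4 q5 := by
  obtain ⟨a0, rfl⟩ := Nat.exists_eq_add_one_of_ne_zero ha0.ne'
  obtain ⟨a5, rfl⟩ := Nat.exists_eq_add_one_of_ne_zero ha5.ne'
  obtain ⟨p3, rfl⟩ := Nat.exists_eq_add_one_of_ne_zero hp3.ne'
  rw [← share ih a0 a1 (a2 + 1) a3 (a4 + 1) a5 p0 p1 p2 p3 (p4 + 1) p5 b0 b1 b2 b3 b4 b5 q0 q1 q2 q3 q4 q5 (by unfold Cond at *; omega) (by clear hc; omega)]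
  simp only [mono]
  linear_combination ((x 0 ^ a0 * x 1 ^ a1 * x 2 ^ a2 * x 3 ^ a3 * x 4 ^ a4 * x 5 ^ a5 * y 0 ^ p0 * y 1 ^ p1 * y 2 ^ p2 * y 3 ^ p3 * y 4 ^ p4 * y 5 ^ p5)) * h.r34

lemma m35 {x y : Fin 6 → Q} (h : Rel x y) {k : ℕ} (ih : Good x y k) {a0 a1 a2 a3 a4 a5 p0 p1 p2 p3 p4 p5 b0 b1 b2 b3 b4 b5 q0 q1 q2 q3 q4 q5 : ℕ}
    (hc : Cond (k + 1) a0 a1 a2 a3 a4 a5 p0 p1 p2 p3 p4 p5 b0 b1 b2 b3 b4 b5 q0 q1 q2 q3 q4 q5)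
    (ha5 : 0 < a5) (hp3 : 0 < p3) (ht : 0 < q5) :
    mono x y a0 a1 a2 a3 a4 a5 p0 p1 p2 p3 p4 p5 = mono x y b0 b1 b2 b3 b4 b5 q0 q1 q2 q3 q4 q5 := by
  obtain ⟨a5, rfl⟩ := Nat.exists_eq_add_one_of_ne_zero ha5.ne'
  obtain ⟨p3, rfl⟩ := Nat.exists_eq_add_one_of_ne_zero hp3.ne'
  rw [← share ih a0 (a1 + 1) a2 a3 a4 a5 p0 p1 p2 p3 p4 (p5 + 1) b0 b1 b2 b3 b4 b5 q0 q1 q2 q3 q4 q5 (by unfold Cond at *; omega) (by clear hc; omega)]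
  simp only [mono]
  linear_combination ((x 0 ^ a0 * x 1 ^ a1 * x 2 ^ a2 * x 3 ^ a3 * x 4 ^ a4 * x 5 ^ a5 * y 0 ^ p0 * y 1 ^ p1 * y 2 ^ p2 * y 3 ^ p3 * y 4 ^ p4 * y 5 ^ p5)) * h.r35

lemma m40 {x y : Fin 6 → Q} (h : Rel x y) {k : ℕ} (ih : Good x y k) {a0 a1 a2 a3 a4 a5 p0 p1 p2 p3 p4 p5 b0 b1 b2 b3 b4 b5 q0 q1 q2 q3 q4 q5 : ℕ}
    (hc : Cond (k + 1) a0 a1 a2 a3 a4 a5 p0 p1 p2 p3 p4 p5 b0 b1 b2 b3 b4 b5 q0 q1 q2 q3 q4 q5)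
    (ha2 : 0 < a2) (hp4 : 0 < p4) (ht : 0 < q0) :
    mono x y a0 a1 a2 a3 a4 a5 p0 p1 p2 p3 p4 p5 = mono x y b0 b1 b2 b3 b4 b5 q0 q1 q2 q3 q4 q5 := by
  obtain ⟨a2, rfl⟩ := Nat.exists_eq_add_one_of_ne_zero ha2.ne'
  obtain ⟨p4, rfl⟩ := Nat.exists_eq_add_one_of_ne_zero hp4.ne'
  rw [← share ih a0 a1 a2 a3 a4 (a5 + 1) (p0 + 1) p1 p2 p3 p4 p5 b0 b1 b2 b3 b4 b5 q0 q1 q2 q3 q4 q5 (by unfold Cond at *; omega) (by clear hc; omega)]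
  simp only [mono]
  linear_combination (-(x 0 ^ a0 * x 1 ^ a1 * x 2 ^ a2 * x 3 ^ a3 * x 4 ^ a4 * x 5 ^ a5 * y 0 ^ p0 * y 1 ^ p1 * y 2 ^ p2 * y 3 ^ p3 * y 4 ^ p4 * y 5 ^ p5)) * h.r04

lemma m42 {x y : Fin 6 → Q} (h : Rel x y) {k : ℕ} (ih : Good x y k) {a0 a1 a2 a3 a4 a5 p0 p1 p2 p3 p4 p5 b0 b1 b2 b3 b4 b5 q0 q1 q2 q3 q4 q5 : ℕ}
    (hc : Cond (k + 1) a0 a1 a2 a3 a4 a5 p0 p1 p2 p3 p4 p5 b0 b1 b2 b3 b4 b5 q0 q1 q2 q3 q4 q5)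
    (ha3 : 0 < a3) (hp4 : 0 < p4) (ht : 0 < q2) :
    mono x y a0 a1 a2 a3 a4 a5 p0 p1 p2 p3 p4 p5 = mono x y b0 b1 b2 b3 b4 b5 q0 q1 q2 q3 q4 q5 := by
  obtain ⟨a3, rfl⟩ := Nat.exists_eq_add_one_of_ne_zero ha3.ne'
  obtain ⟨p4, rfl⟩ := Nat.exists_eq_add_one_of_ne_zero hp4.ne'
  rw [← share ih a0 (a1 + 1) a2 a3 a4 (a5 + 1) p0 p1 (p2 + 1) p3 p4 p5 b0 b1 b2 b3 b4 b5 q0 q1 q2 q3 q4 q5 (by unfold Cond at *; omega) (by clear hc; omega)]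
  simp only [mono]
  linear_combination (-(x 0 ^ a0 * x 1 ^ a1 * x 2 ^ a2 * x 3 ^ a3 * x 4 ^ a4 * x 5 ^ a5 * y 0 ^ p0 * y 1 ^ p1 * y 2 ^ p2 * y 3 ^ p3 * y 4 ^ p4 * y 5 ^ p5)) * h.r24

lemma m45 {x y : Fin 6 → Q} (h : Rel x y) {k : ℕ} (ih : Good x y k) {a0 a1 a2 a3 a4 a5 p0 p1 p2 p3 p4 p5 b0 b1 b2 b3 b4 b5 q0 q1 q2 q3 q4 q5 : ℕ}
    (hc : Cond (k + 1) a0 a1 a2 a3 a4 a5 p0 p1 p2 p3 p4 p5 b0 b1 b2 b3 b4 b5 q0 q1 q2 q3 q4 q5)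
    (ha2 : 0 < a2) (ha4 : 0 < a4) (hp4 : 0 < p4) (ht : 0 < q5) :
    mono x y a0 a1 a2 a3 a4 a5 p0 p1 p2 p3 p4 p5 = mono x y b0 b1 b2 b3 b4 b5 q0 q1 q2 q3 q4 q5 := by
  obtain ⟨a2, rfl⟩ := Nat.exists_eq_add_one_of_ne_zero ha2.ne'
  obtain ⟨a4, rfl⟩ := Nat.exists_eq_add_one_of_ne_zero ha4.ne'
  obtain ⟨p4, rfl⟩ := Nat.exists_eq_add_one_of_ne_zero hp4.ne'
  rw [← share ih (a0 + 1) (a1 + 1) a2 a3 a4 a5 p0 p1 p2 p3 p4 (p5 + 1) b0 b1 b2 b3 b4 b5 q0 q1 q2 q3 q4 q5 (by unfold Cond at *; omega) (by clear hc; omega)]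
  simp only [mono]
  linear_combination ((x 0 ^ a0 * x 1 ^ a1 * x 2 ^ a2 * x 3 ^ a3 * x 4 ^ a4 * x 5 ^ a5 * y 0 ^ p0 * y 1 ^ p1 * y 2 ^ p2 * y 3 ^ p3 * y 4 ^ p4 * y 5 ^ p5)) * h.r45

lemma m50 {x y : Fin 6 → Q} (h : Rel x y) {k : ℕ} (ih : Good x y k) {a0 a1 a2 a3 a4 a5 p0 p1 p2 p3 p4 p5 b0 b1 b2 b3 b4 b5 q0 q1 q2 q3 q4 q5 : ℕ}
    (hc : Cond (k + 1) a0 a1 a2 a3 a4 a5 p0 p1 p2 p3 p4 p5 b0 b1 b2 b3 b4 b5 q0 q1 q2 q3 q4 q5)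
    (ha0 : 0 < a0) (ha1 : 0 < a1) (hp5 : 0 < p5) (ht : 0 < q0) :
    mono x y a0 a1 a2 a3 a4 a5 p0 p1 p2 p3 p4 p5 = mono x y b0 b1 b2 b3 b4 b5 q0 q1 q2 q3 q4 q5 := by
  obtain ⟨a0, rfl⟩ := Nat.exists_eq_add_one_of_ne_zero ha0.ne'
  obtain ⟨a1, rfl⟩ := Nat.exists_eq_add_one_of_ne_zero ha1.ne'
  obtain ⟨p5, rfl⟩ := Nat.exists_eq_add_one_of_ne_zero hp5.ne'
  rw [← share ih a0 a1 a2 a3 (a4 + 1) (a5 + 1) (p0 + 1) p1 p2 p3 p4 p5 b0 b1 b2 b3 b4 b5 q0 q1 q2 q3 q4 q5 (by unfold Cond at *; omega) (by clear hc; omega)]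
  simp only [mono]
  linear_combination (-(x 0 ^ a0 * x 1 ^ a1 * x 2 ^ a2 * x 3 ^ a3 * x 4 ^ a4 * x 5 ^ a5 * y 0 ^ p0 * y 1 ^ p1 * y 2 ^ p2 * y 3 ^ p3 * y 4 ^ p4 * y 5 ^ p5)) * h.r05

lemma m51 {x y : Fin 6 → Q} (h : Rel x y) {k : ℕ} (ih : Good x y k) {a0 a1 a2 a3 a4 a5 p0 p1 p2 p3 p4 p5 b0 b1 b2 b3 b4 b5 q0 q1 q2 q3 q4 q5 : ℕ}
    (hc : Cond (k + 1) a0 a1 a2 a3 a4 a5 p0 p1 p2 p3 p4 p5 b0 b1 b2 b3 b4 b5 q0 q1 q2 q3 q4 q5)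
    (ha3 : 0 < a3) (hp5 : 0 < p5) (ht : 0 < q1) :
    mono x y a0 a1 a2 a3 a4 a5 p0 p1 p2 p3 p4 p5 = mono x y b0 b1 b2 b3 b4 b5 q0 q1 q2 q3 q4 q5 := by
  obtain ⟨a3, rfl⟩ := Nat.exists_eq_add_one_of_ne_zero ha3.ne'
  obtain ⟨p5, rfl⟩ := Nat.exists_eq_add_one_of_ne_zero hp5.ne'
  rw [← share ih a0 a1 (a2 + 1) a3 a4 (a5 + 1) p0 (p1 + 1) p2 p3 p4 p5 b0 b1 b2 b3 b4 b5 q0 q1 q2 q3 q4 q5 (by unfold Cond at *; omega) (by clear hc; omega)]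
  simp only [mono]
  linear_combination (-(x 0 ^ a0 * x 1 ^ a1 * x 2 ^ a2 * x 3 ^ a3 * x 4 ^ a4 * x 5 ^ a5 * y 0 ^ p0 * y 1 ^ p1 * y 2 ^ p2 * y 3 ^ p3 * y 4 ^ p4 * y 5 ^ p5)) * h.r15

lemma m52 {x y : Fin 6 → Q} (h : Rel x y) {k : ℕ} (ih : Good x y k) {a0 a1 a2 a3 a4 a5 p0 p1 p2 p3 p4 p5 b0 b1 b2 b3 b4 b5 q0 q1 q2 q3 q4 q5 : ℕ}
    (hc : Cond (k + 1) a0 a1 a2 a3 a4 a5 p0 p1 p2 p3 p4 p5 b0 b1 b2 b3 b4 b5 q0 q1 q2 q3 q4 q5)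
    (ha0 : 0 < a0) (ha3 : 0 < a3) (hp5 : 0 < p5) (ht : 0 < q2) :
    mono x y a0 a1 a2 a3 a4 a5 p0 p1 p2 p3 p4 p5 = mono x y b0 b1 b2 b3 b4 b5 q0 q1 q2 q3 q4 q5 := by
  obtain ⟨a0, rfl⟩ := Nat.exists_eq_add_one_of_ne_zero ha0.ne'
  obtain ⟨a3, rfl⟩ := Nat.exists_eq_add_one_of_ne_zero ha3.ne'
  obtain ⟨p5, rfl⟩ := Nat.exists_eq_add_one_of_ne_zero hp5.ne'
  rw [← share ih a0 a1 (a2 + 1) a3 (a4 + 1) (a5 + 1) p0 p1 (p2 + 1) p3 p4 p5 b0 b1 b2 b3 b4 b5 q0 q1 q2 q3 q4 q5 (by unfold Cond at *; omega) (by clear hc; omega)]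
  simp only [mono]
  linear_combination (-(x 0 ^ a0 * x 1 ^ a1 * x 2 ^ a2 * x 3 ^ a3 * x 4 ^ a4 * x 5 ^ a5 * y 0 ^ p0 * y 1 ^ p1 * y 2 ^ p2 * y 3 ^ p3 * y 4 ^ p4 * y 5 ^ p5)) * h.r25

lemma m53 {x y : Fin 6 → Q} (h : Rel x y) {k : ℕ} (ih : Good x y k) {a0 a1 a2 a3 a4 a5 p0 p1 p2 p3 p4 p5 b0 b1 b2 b3 b4 b5 q0 q1 q2 q3 q4 q5 : ℕ}
    (hc : Cond (k + 1) a0 a1 a2 a3 a4 a5 p0 p1 p2 p3 p4 p5 b0 b1 b2 b3 b4 b5 q0 q1 q2 q3 q4 q5)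
    (ha1 : 0 < a1) (hp5 : 0 < p5) (ht : 0 < q3) :
    mono x y a0 a1 a2 a3 a4 a5 p0 p1 p2 p3 p4 p5 = mono x y b0 b1 b2 b3 b4 b5 q0 q1 q2 q3 q4 q5 := by
  obtain ⟨a1, rfl⟩ := Nat.exists_eq_add_one_of_ne_zero ha1.ne'
  obtain ⟨p5, rfl⟩ := Nat.exists_eq_add_one_of_ne_zero hp5.ne'
  rw [← share ih a0 a1 a2 a3 a4 (a5 + 1) p0 p1 p2 (p3 + 1) p4 p5 b0 b1 b2 b3 b4 b5 q0 q1 q2 q3 q4 q5 (by unfold Cond at *; omega) (by clear hc; omega)]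
  simp only [mono]
  linear_combination (-(x 0 ^ a0 * x 1 ^ a1 * x 2 ^ a2 * x 3 ^ a3 * x 4 ^ a4 * x 5 ^ a5 * y 0 ^ p0 * y 1 ^ p1 * y 2 ^ p2 * y 3 ^ p3 * y 4 ^ p4 * y 5 ^ p5)) * h.r35


lemma good {x y : Fin 6 → Q} (hr : Rel x y) (k : ℕ) : Good x y k := by
  induction k with
  | zero =>
    intro a0 a1 a2 a3 a4 a5 p0 p1 p2 p3 p4 p5 b0 b1 b2 b3 b4 b5 q0 q1 q2 q3 q4 q5 hc
    unfold Cond at hc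
    obtain ⟨rfl, rfl, rfl, rfl, rfl, rfl⟩ : p0 = q0 ∧ p1 = q1 ∧ p2 = q2 ∧ p3 = q3 ∧ p4 = q4 ∧ p5 = q5 := by omega
    obtain ⟨rfl, rfl, rfl, rfl, rfl, rfl⟩ : a0 = b0 ∧ a1 = b1 ∧ a2 = b2 ∧ a3 = b3 ∧ a4 = b4 ∧ a5 = b5 := by omega
    rfl
  | succ k ih => ?_
  intro a0 a1 a2 a3 a4 a5 p0 p1 p2 p3 p4 p5 b0 b1 b2 b3 b4 b5 q0 q1 q2 q3 q4 q5 hc
  by_cases hs : (0 < p0 ∧ 0 < q0) ∨ (0 < p1 ∧ 0 < q1) ∨ (0 < p2 ∧ 0 < q2) ∨ (0 < p3 ∧ 0 < q3) ∨ (0 < p4 ∧ 0 < q4) ∨ (0 < p5 ∧ 0 < q5)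
  · exact share ih _ _ _ _ _ _ _ _ _ _ _ _ _ _ _ _ _ _ _ _ _ _ _ _ hc hs
  have hc' := hc
  unfold Cond at hc'
  obtain ⟨c0, c1, c2, c3, c4, c5, c6, c7⟩ := hc'

  have d0 : p0 = 0 ∨ q0 = 0 := by omega
  have d1 : p1 = 0 ∨ q1 = 0 := by omega
  have d2 : p2 = 0 ∨ q2 = 0 := by omega
  have d3 : p3 = 0 ∨ q3 = 0 := by omega
  have d4 : p4 = 0 ∨ q4 = 0 := by omega
  have d5 : p5 = 0 ∨ q5 = 0 := by omega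
  clear hs
  rcases Nat.eq_zero_or_pos p1 with h | h
  · rcases Nat.eq_zero_or_pos p5 with h | h
    · rcases Nat.eq_zero_or_pos p2 with h | h
      · rcases Nat.eq_zero_or_pos p3 with h | h
        · rcases Nat.eq_zero_or_pos q3 with h | h
          · rcases Nat.eq_zero_or_pos p0 with h | h
            · rcases Nat.eq_zero_or_pos q0 with h | h
              · rcases Nat.eq_zero_or_pos q1 with h | h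
                · rcases Nat.eq_zero_or_pos q2 with h | h
                  · exact m45 hr ih hc (by omega) (by omega) (by omega) (by omega)
                  · exact (m24 hr ih hc.symm (by omega) (by omega) (by omega) (by omega)).symm
                · exact (m14 hr ih hc.symm (by omega) (by omega) (by omega) (by omega) (by omega)).symm
              · exact (m04 hr ih hc.symm (by omega) (by omega) (by omega)).symm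
            · rcases Nat.eq_zero_or_pos q1 with h | h
              · rcases Nat.eq_zero_or_pos q2 with h | h
                · rcases Nat.eq_zero_or_pos q4 with h | h
                  · exact m05 hr ih hc (by omega) (by omega) (by omega) (by omega)
                  · exact m04 hr ih hc (by omega) (by omega) (by omega)
                · exact m02 hr ih hc (by omega) (by omega) (by omega)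
              · exact m01 hr ih hc (by omega) (by omega) (by omega) (by omega)
          · rcases Nat.eq_zero_or_pos p0 with h | h
            · exact (m34 hr ih hc.symm (by omega) (by omega) (by omega) (by omega)).symm
            · exact m03 hr ih hc (by omega) (by omega) (by omega)
        · rcases Nat.eq_zero_or_pos q1 with h | h
          · rcases Nat.eq_zero_or_pos q5 with h | h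
            · rcases Nat.eq_zero_or_pos q0 with h | h
              · rcases Nat.eq_zero_or_pos q2 with h | h
                · exact m34 hr ih hc (by omega) (by omega) (by omega) (by omega)
                · exact (m23 hr ih hc.symm (by omega) (by omega) (by omega) (by omega) (by omega)).symm
              · exact (m03 hr ih hc.symm (by omega) (by omega) (by omega)).symm
            · exact (m53 hr ih hc.symm (by omega) (by omega) (by omega)).symm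
          · exact m31 hr ih hc (by omega) (by omega) (by omega)
      · rcases Nat.eq_zero_or_pos q1 with h | h
        · rcases Nat.eq_zero_or_pos q4 with h | h
          · rcases Nat.eq_zero_or_pos q0 with h | h
            · rcases Nat.eq_zero_or_pos q3 with h | h
              · exact m25 hr ih hc (by omega) (by omega) (by omega) (by omega) (by omega)
              · exact (m32 hr ih hc.symm (by omega) (by omega) (by omega) (by omega)).symm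
            · exact (m02 hr ih hc.symm (by omega) (by omega) (by omega)).symm
          · exact (m42 hr ih hc.symm (by omega) (by omega) (by omega)).symm
        · rcases Nat.eq_zero_or_pos a4 with h | h
          · exact hB hr ih hc (by omega) (by omega) (by omega)
          · exact m21 hr ih hc (by omega) (by omega) (by omega)
    · rcases Nat.eq_zero_or_pos q3 with h | h
      · rcases Nat.eq_zero_or_pos q1 with h | h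
        · rcases Nat.eq_zero_or_pos q2 with h | h
          · rcases Nat.eq_zero_or_pos q0 with h | h
            · exact (m45 hr ih hc.symm (by omega) (by omega) (by omega) (by omega)).symm
            · exact m50 hr ih hc (by omega) (by omega) (by omega) (by omega)
          · exact m52 hr ih hc (by omega) (by omega) (by omega) (by omega)
        · rcases Nat.eq_zero_or_pos a3 with h | h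
          · exact eB hr ih hc (by omega) (by omega) (by omega) (by omega)
          · exact m51 hr ih hc (by omega) (by omega) (by omega)
      · rcases Nat.eq_zero_or_pos a1 with h | h
        · rcases Nat.eq_zero_or_pos b5 with h | h
          · exact (m40 hr ih hc.symm (by omega) (by omega) (by omega)).symm
          · exact (m35 hr ih hc.symm (by omega) (by omega) (by omega)).symm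
        · exact m53 hr ih hc (by omega) (by omega) (by omega)
  · rcases Nat.eq_zero_or_pos q2 with h | h
    · rcases Nat.eq_zero_or_pos q3 with h | h
      · rcases Nat.eq_zero_or_pos q5 with h | h
        · rcases Nat.eq_zero_or_pos q0 with h | h
          · exact m14 hr ih hc (by omega) (by omega) (by omega) (by omega) (by omega)
          · exact (m01 hr ih hc.symm (by omega) (by omega) (by omega) (by omega)).symm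
        · exact (m51 hr ih hc.symm (by omega) (by omega) (by omega)).symm
      · exact (m31 hr ih hc.symm (by omega) (by omega) (by omega)).symm
    · rcases Nat.eq_zero_or_pos a0 with h | h
      · rcases Nat.eq_zero_or_pos p0 with h | h
        · exact eA hr ih hc (by omega) (by omega) (by omega) (by omega)
        · exact hA hr ih hc (by omega) (by omega) (by omega)
      · exact m12 hr ih hc (by omega) (by omega) (by omega)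

end Pool.Agent.H33.Fib
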