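import Mathlib

set_option autoImplicit false

namespace Pool.Agent.H33.Gab

open MeasureTheory Real Set ComplexConjugate

abbrev V := EuclideanSpace ℝ (Fin 2)

noncomputable def e (r : ℝ) : ℂ := Complex.exp (2 * π * Complex.I * r)

lemma e_add (a b : ℝ) : e (a + b) = e a * e b := by
  simp only [e, ← Complex.exp_add]; congr 1; push_cast; ring

lemma e_conj (a : ℝ) : conj (e a) = e (-a) := by
  simp only [e, ← Complex.exp_conj, map_mul, Complex.conj_ofReal, Complex.conj_I, map_ofNat]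
  congr 1; push_cast; ring

lemma e_int (n : ℤ) : e n = 1 := by
  rw [e, ← Complex.exp_int_mul_two_pi_mul_I n]; congr 1; push_cast; ring

lemma e_zero : e 0 = 1 := by simp [e]

lemma e_half (n : ℤ) : e (n + 1 / 2) = -1 := by
  rw [e_add, e_int, one_mul, e, ← Complex.exp_pi_mul_I]; congr 1; push_cast; ring

lemma e_norm (a : ℝ) : ‖e a‖ = 1 := by
  rw [e, Complex.norm_exp]; simp

lemma e_cont : Continuous e := by unfold e; fun_prop

lemma geo (n : ℕ) (hn : 0 < n) (k : ℤ) :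
    ∑ i ∈ Finset.range n, e (i * (k / n)) = if (n : ℤ) ∣ k then (n : ℂ) else 0 := by
  have n0 : (n : ℝ) ≠ 0 := by positivity
  split_ifs with h
  · obtain ⟨m, rfl⟩ := h
    rw [Finset.sum_congr rfl fun (i : ℕ) _ => show e (i * ((n * m : ℤ) / n)) = 1 by
      rw [← e_int (i * m)]; congr 1; push_cast; field_simp]
    simp
  have e1 : ∀ i : ℕ, e (i * (k / n)) = e (k / n) ^ i := fun i => by
    simp only [e, ← Complex.exp_nat_mul]; congr 1; push_cast; ring
  have := geom_sum_mul (e (k / n)) n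
  rw [← e1, mul_div_cancel₀ _ n0, e_int, sub_self] at this
  simp only [e1]
  refine (mul_eq_zero.1 this).resolve_right fun h1 => h ?_
  obtain ⟨m, hm⟩ := Complex.exp_eq_one_iff.1 (sub_eq_zero.1 h1)
  rw [mul_comm (m : ℂ), mul_right_inj' Complex.two_pi_I_ne_zero] at hm
  have : (k : ℝ) / n = m := by exact_mod_cast hm
  rw [div_eq_iff n0] at this
  exact ⟨m, by rw [mul_comm]; exact_mod_cast this⟩

lemma inn (s x : V) : inner ℝ s x = s 0 * x 0 + s 1 * x 1 := by
  simp [PiLp.inner_apply, mul_comm]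

noncomputable def v (c : ℤ × ℤ) : V := !₂[c.1, c.2]

noncomputable def cl (x : V) : ℤ × ℤ := (⌈x 0⌉, ⌈x 1⌉)

def Q : Set V := cl ⁻¹' {0}

lemma cl_add (x : V) (c : ℤ × ℤ) : cl (x + v c) = cl x + c := by simp [cl, v, Prod.ext_iff]

lemma cl_sub (x : V) (c : ℤ × ℤ) : cl (x - v c) = cl x - c := by simp [cl, v, Prod.ext_iff]

lemma mcl : Measurable cl := by unfold cl; fun_prop

lemma mQ : MeasurableSet Q := mcl (measurableSet_singleton _)

lemma torus : (∀ m n : ℤ, ∫ x in Q, e (m * x 0 + n * x 1) = if m = 0 ∧ n = 0 then 1 else 0) ∧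
    volume Q = 1 ∧ ∀ h : V → ℂ, MemLp h 2 (volume.restrict Q) →
      (∀ m n : ℤ, ∫ x in Q, h x * e (m * x 0 + n * x 1) = 0) → ∀ᵐ x ∂volume.restrict Q, h x = 0 := by
  have ms : MeasurableSet {x : Fin 2 → ℝ | ∀ i, x i ∈ Ioc (-1 : ℝ) (-1 + 1)} :=
    MeasurableSet.univ_pi' fun i => measurableSet_Ioc
  have h1 := (measurePreserving_subtype_coe ms).comp
    (UnitAddTorus.measurePreserving_equivPiIoc fun _ : Fin 2 => (-1 : ℝ))
  have h2 := (PiLp.volume_preserving_toLp (Fin 2)).restrict_preimage mQ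
  rw [show WithLp.toLp 2 ⁻¹' Q = {x : Fin 2 → ℝ | ∀ i, x i ∈ Ioc (-1 : ℝ) (-1 + 1)} by
    ext x; simp [Q, cl, Prod.ext_iff, Int.ceil_eq_iff]] at h2
  have h3 := h2.comp h1
  have h4 := (MeasurableEquiv.toLp 2 (Fin 2 → ℝ)).measurableEmbedding.comp
    ((MeasurableEmbedding.subtype_coe ms).comp
      (UnitAddTorus.measurableEquivPiIoc fun _ : Fin 2 => (-1 : ℝ)).measurableEmbedding)
  rw [MeasurableEquiv.coe_toLp] at h4
  have h5 : ∀ (n : Fin 2 → ℤ) z, UnitAddTorus.mFourier n z = e (n 0 * (WithLp.toLp 2 ∘ Subtype.val ∘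
      UnitAddTorus.measurableEquivPiIoc fun _ : Fin 2 => (-1 : ℝ)) z 0 + n 1 * (WithLp.toLp 2 ∘
      Subtype.val ∘ UnitAddTorus.measurableEquivPiIoc fun _ : Fin 2 => (-1 : ℝ)) z 1) := fun n z => by
    obtain ⟨y, rfl⟩ := (UnitAddTorus.measurableEquivPiIoc fun _ : Fin 2 => (-1 : ℝ)).symm.surjective z
    simp only [Function.comp, MeasurableEquiv.apply_symm_apply]
    simp only [UnitAddTorus.coe_symm_measurableEquivPiIoc_apply, UnitAddTorus.mFourier,
      ContinuousMap.coe_mk, Fin.prod_univ_two, fourier_coe_apply, e_add]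
    simp [e, mul_assoc]
  obtain ⟨Φ, h3, h4, h5⟩ : ∃ Φ : UnitAddTorus (Fin 2) → V, MeasurePreserving Φ
      (Measure.pi fun _ => AddCircle.haarAddCircle) (volume.restrict Q) ∧ MeasurableEmbedding Φ ∧
      ∀ (n : Fin 2 → ℤ) z, UnitAddTorus.mFourier n z = e (n 0 * Φ z 0 + n 1 * Φ z 1) := ⟨_, h3, h4, h5⟩
  refine ⟨fun m n => ?_, ?_, fun h hh h0 => ?_⟩
  · have := orthonormal_iff_ite.1 UnitAddTorus.orthonormal_mFourier 0 ![m, n]
    rw [ContinuousMap.inner_toLp] at this
    rw [← h3.integral_comp h4]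
    simp only [h5, UnitAddTorus.mFourier_zero, ContinuousMap.one_apply, map_one, mul_one] at this
    refine this.trans ?_
    simp [funext_iff, eq_comm]
  · have := h3.measure_preimage MeasurableSet.univ.nullMeasurableSet
    rw [Measure.restrict_apply_univ, preimage_univ] at this
    rw [← this, measure_univ]
  · have hm := hh.comp_measurePreserving h3
    have : hm.toLp = 0 := UnitAddTorus.mFourierBasis.repr.injective (by
      ext n
      rw [UnitAddTorus.mFourierBasis_repr, map_zero, UnitAddTorus.mFourierCoeff,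
        integral_congr_ae (g := fun z => h (Φ z) * e ((-n) 0 * Φ z 0 + (-n) 1 * Φ z 1)) (by
          filter_upwards [hm.coeFn_toLp] with z hz
          rw [hz, h5, smul_eq_mul, mul_comm]; rfl)]
      exact (h3.integral_comp h4 fun x => h x * e ((-n) 0 * x 0 + (-n) 1 * x 1)).trans (h0 _ _))
    rw [← h3.map_eq, h4.ae_map_iff]
    exact hm.coeFn_toLp.symm.trans (this ▸ Lp.coeFn_zero _ _ _)

lemma dec (A : Finset (ℤ × ℤ)) (G : ℤ × ℤ → ℂ) (hG : ∀ c ∉ A, G c = 0) (t : ℤ × ℤ) (h : V → ℂ)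
    (hh : ∀ c, IntegrableOn (fun x => h (x + v c)) Q) :
    ∫ x, G (cl x - t) * h x = ∑ c ∈ A, G c * ∫ x in Q, h (x + v (c + t)) := by
  have p : ∀ c, (fun x => x + v c) ⁻¹' (cl ⁻¹' {c}) = Q := fun c => by ext x; simp [Q, cl_add]
  have m : ∀ c, MeasurableSet (cl ⁻¹' {c}) := fun c => mcl (measurableSet_singleton _)
  have e1 : ∀ x, G (cl x - t) * h x = ∑ c ∈ A, G c * (cl ⁻¹' {c + t}).indicator h x := fun x => by
    rw [Finset.sum_eq_single (cl x - t) (fun c _ hc => by
      rw [indicator_of_notMem (fun h => hc (by rw [h, add_sub_cancel_right])), mul_zero])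
      fun hc => by rw [hG _ hc, zero_mul], indicator_of_mem (by simp)]
  simp only [e1]
  rw [integral_finset_sum _ fun c _ => ((integrable_indicator_iff (m _)).2
    (((measurePreserving_add_right volume (v (c + t))).integrableOn_comp_preimage
      (measurableEmbedding_addRight _)).1 (by rw [p]; exact hh _))).const_mul _]
  refine Finset.sum_congr rfl fun c _ => ?_
  rw [integral_const_mul, integral_indicator (m _), ← (measurePreserving_add_right volume
    (v (c + t))).setIntegral_preimage_emb (measurableEmbedding_addRight _), p]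

lemma finQ : IsFiniteMeasure (volume.restrict Q) := ⟨by simp [torus.2.1]⟩

lemma emem (ξ η : ℝ) (μ : Measure V) [IsFiniteMeasure μ] (G : ℤ × ℤ → ℂ) (hG : ∀ c, ‖G c‖ ≤ 1) :
    MemLp (fun x : V => G (cl x) * e (ξ * x 0 + η * x 1)) 2 μ :=
  .of_bound (((measurable_of_countable G).comp mcl).mul
    (e_cont.comp (by fun_prop)).measurable).aestronglyMeasurable 1
    (.of_forall fun x => by rw [norm_mul, e_norm, mul_one]; exact hG _)

lemma esh (ξ η : ℝ) (x : V) (c : ℤ × ℤ) : e (ξ * (x + v c) 0 + η * (x + v c) 1) =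
    e (ξ * c.1 + η * c.2) * e (ξ * x 0 + η * x 1) := by
  rw [← e_add]; congr 1; simp [v]; ring

lemma decE (A : Finset (ℤ × ℤ)) (G : ℤ × ℤ → ℂ) (hG : ∀ c ∉ A, G c = 0) (t : ℤ × ℤ) (ξ η : ℝ) :
    ∫ x : V, G (cl x - t) * e (ξ * x 0 + η * x 1) = (∑ c ∈ A, G c * e (ξ * c.1 + η * c.2)) *
      (e (ξ * t.1 + η * t.2) * ∫ x in Q, e (ξ * x 0 + η * x 1)) := by
  have := finQ
  rw [dec A G hG t _ fun c => by
    simpa only [esh, IntegrableOn] using
      (emem ξ η _ _ fun _ => (e_norm _).le).integrable one_le_two, Finset.sum_mul]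
  refine Finset.sum_congr rfl fun c _ => ?_
  simp only [esh, integral_const_mul]
  rw [show ξ * (c + t).1 + η * (c + t).2 = ξ * c.1 + η * c.2 + (ξ * t.1 + η * t.2) by
    push_cast [Prod.fst_add, Prod.snd_add]; ring, e_add]
  ring

lemma comp (f : V → ℂ) (hf : MemLp f 2 volume) (A : Finset (ℤ × ℤ)) (G : ℤ × ℤ → ℂ)
    (hG : ∀ c ∉ A, G c = 0) (t : ℤ × ℤ) (ξ η : ℝ)
    (h : ∀ m n : ℤ, ∫ x : V, G (cl x - t) * (f x * e ((ξ + m) * x 0 + (η + n) * x 1)) = 0) :
    ∀ᵐ x ∂volume.restrict Q, ∑ c ∈ A, G c * (f (x + v (c + t)) *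
      e (ξ * (c + t).1 + η * (c + t).2)) = 0 := by
  have := finQ
  have m : ∀ c (ξ η : ℝ), MemLp (fun x : V => f (x + v c) * e (ξ * x 0 + η * x 1)) 2
      (volume.restrict Q) := fun c ξ η =>
    ((hf.comp_measurePreserving (measurePreserving_add_right volume (v c))).restrict Q).of_le
      (((hf.comp_measurePreserving (measurePreserving_add_right volume (v c))).restrict Q).1.mul
        (e_cont.comp (by fun_prop)).aestronglyMeasurable)
      (.of_forall fun x => by rw [norm_mul, e_norm, mul_one]; rfl)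
  refine (torus.2.2 (fun x => ∑ c ∈ A, G c * e (ξ * (c + t).1 + η * (c + t).2) *
    (f (x + v (c + t)) * e (ξ * x 0 + η * x 1)))
    (memLp_finset_sum _ fun c _ => (m _ _ _).const_mul _) fun a b => ?_).mono fun x hx => ?_
  swap
  · have : e (ξ * x 0 + η * x 1) ≠ 0 := Complex.exp_ne_zero _
    refine (mul_eq_zero.1 (Eq.trans ?_ hx)).resolve_right this
    rw [Finset.sum_mul]
    exact Finset.sum_congr rfl fun c _ => by ring
  rw [← h a b, dec A G hG t _ fun c => by
    simpa only [esh, mul_left_comm (f _), IntegrableOn] using ((m c _ _).const_mul _).integrable one_le_two]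
  simp only [esh, mul_left_comm (f _)]
  simp only [Finset.sum_mul, mul_assoc, show ∀ x : V, e (ξ * x 0 + η * x 1) * e (a * x 0 + b * x 1) =
    e ((ξ + a) * x 0 + (η + b) * x 1) from fun x => by rw [← e_add]; ring_nf]
  rw [integral_finset_sum _ fun c _ => (((m _ _ _).const_mul _).const_mul _).integrable one_le_two]
  refine Finset.sum_congr rfl fun c _ => ?_
  rw [integral_const_mul, show (ξ + a) * (c + t).1 + (η + b) * (c + t).2 = ξ * (c + t).1 +
    η * (c + t).2 + (a * (c + t).1 + b * (c + t).2 : ℤ) by push_cast; ring, e_add _ (_ : ℤ), e_int,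
    mul_one]

lemma zero (f : V → ℂ) (h : ∀ᵐ x ∂volume.restrict Q, ∀ c, f (x + v c) = 0) : f =ᵐ[volume] 0 := by
  rw [ae_restrict_iff' mQ] at h
  have := ae_all_iff.2 fun c =>
    (measurePreserving_sub_right volume (v c)).quasiMeasurePreserving.ae h
  filter_upwards [this] with x hx
  simpa using hx (cl x) (by simp [Q, cl_sub]) (cl x)

lemma ip (A : Finset (ℤ × ℤ)) (W : ℤ × ℤ → ℂ) (hW : ∀ c ∉ A, W c = 0) (t t' : ℤ × ℤ) (ξ η ξ' η' : ℝ) :
    ∫ x : V, W (cl (x - v t)) * e (ξ * x 0 + η * x 1) * conj (W (cl (x - v t')) * e (ξ' * x 0 + η' * x 1))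
      = (∑ c ∈ A, W c * conj (W (c + (t - t'))) * e ((ξ - ξ') * c.1 + (η - η') * c.2)) *
      (e ((ξ - ξ') * t.1 + (η - η') * t.2) * ∫ x in Q, e ((ξ - ξ') * x 0 + (η - η') * x 1)) := by
  rw [← decE A (fun c => W c * conj (W (c + (t - t')))) (fun c hc => by rw [hW c hc, zero_mul]) t]
  refine integral_congr_ae (.of_forall fun x => ?_)
  simp only [cl_sub, map_mul, e_conj, sub_add_sub_cancel]
  rw [mul_mul_mul_comm, ← e_add]
  ring_nf

lemma comp' (f : V → ℂ) (hf : MemLp f 2 volume) (A : Finset (ℤ × ℤ)) (W : ℤ × ℤ → ℂ)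
    (hW : ∀ c ∉ A, W c = 0) (t : ℤ × ℤ) (ξ η : ℝ)
    (h : ∀ m n : ℤ, ∫ x : V, f x * conj (W (cl (x - v t)) * e (-(ξ + m) * x 0 + -(η + n) * x 1)) = 0) :
    ∀ᵐ x ∂volume.restrict Q, ∑ c ∈ A, conj (W c) * (f (x + v (c + t)) *
      e (ξ * (c + t).1 + η * (c + t).2)) = 0 := by
  refine comp f hf A _ (fun c hc => by rw [hW c hc, map_zero]) t ξ η fun m n => ?_
  rw [← h m n]
  refine integral_congr_ae (.of_forall fun x => ?_)
  simp only [cl_sub, map_mul, e_conj]
  ring_nf

end Pool.Agent.H33.Gab
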