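import Mathlib

set_option autoImplicit false
open MeasureTheory
open scoped ENNReal

namespace H33.HG

lemma pw (n : ℕ) : ∃ K : ℝ, 1 ≤ K ∧ ∀ a b : ℝ,
    |(a + b) ^ (n + 2) - a ^ (n + 2) - (n + 2) * a ^ (n + 1) * b| ≤ K * b ^ 2 * (|a| + |b|) ^ n := by
  induction n with
  | zero =>
    refine ⟨1, le_rfl, fun a b => ?_⟩
    have : (a + b) ^ (0 + 2) - a ^ (0 + 2) - ((0 : ℕ) + 2) * a ^ (0 + 1) * b = b ^ 2 := by
      push_cast; ring
    rw [this, abs_of_nonneg (sq_nonneg b)]; simp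
  | succ n ih =>
    obtain ⟨K, hK, h⟩ := ih
    refine ⟨K + (n + 2), by have : (0 : ℝ) ≤ n := Nat.cast_nonneg n; linarith, fun a b => ?_⟩
    have e : (a + b) ^ (n + 1 + 2) - a ^ (n + 1 + 2) - (((n + 1 : ℕ) : ℝ) + 2) * a ^ (n + 1 + 1) * b
        = (a + b) * ((a + b) ^ (n + 2) - a ^ (n + 2) - (n + 2) * a ^ (n + 1) * b)
          + (n + 2) * a ^ (n + 1) * b ^ 2 := by push_cast; ring
    rw [e]
    have h1 : |a + b| ≤ |a| + |b| := abs_add_le a b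
    have h2 : |a| ^ (n + 1) ≤ (|a| + |b|) ^ (n + 1) :=
      pow_le_pow_left₀ (abs_nonneg a) (by linarith [abs_nonneg b]) _
    have h3 : |(a + b) * ((a + b) ^ (n + 2) - a ^ (n + 2) - (n + 2) * a ^ (n + 1) * b)|
        ≤ (|a| + |b|) * (K * b ^ 2 * (|a| + |b|) ^ n) := by
      rw [abs_mul]; exact mul_le_mul h1 (h a b) (abs_nonneg _) (by positivity)
    have h4 : |((n : ℝ) + 2) * a ^ (n + 1) * b ^ 2| ≤ (n + 2) * (|a| + |b|) ^ (n + 1) * b ^ 2 := by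
      rw [abs_mul, abs_mul, abs_pow, abs_of_nonneg (sq_nonneg b),
        abs_of_nonneg (by positivity : (0 : ℝ) ≤ (n : ℝ) + 2)]
      gcongr
    calc _ ≤ _ := abs_add_le _ _
      _ ≤ (|a| + |b|) * (K * b ^ 2 * (|a| + |b|) ^ n) + (n + 2) * (|a| + |b|) ^ (n + 1) * b ^ 2 :=
        add_le_add h3 h4
      _ = _ := by ring

lemma young (x y : ℝ) (hx : 0 ≤ x) (hy : 0 ≤ y) (j : ℕ) : x * y ^ j ≤ x ^ (j + 1) + y ^ (j + 1) := by
  rcases le_total x y with h | h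
  · have : x * y ^ j ≤ y * y ^ j := by gcongr
    have h2 : 0 ≤ x ^ (j + 1) := by positivity
    rw [pow_succ' y]; linarith
  · have : x * y ^ j ≤ x * x ^ j := by gcongr
    have h2 : 0 ≤ y ^ (j + 1) := by positivity
    rw [pow_succ' x]; linarith

lemma sumpow (a b : ℝ) (j : ℕ) :
    ((|a| + |b|) ^ 2) ^ (j + 1) ≤ 4 ^ (j + 1) * (a ^ (2 * j + 2) + b ^ (2 * j + 2)) := by
  have ea : a ^ (2 * j + 2) = (|a| ^ 2) ^ (j + 1) := by rw [sq_abs, ← pow_mul]; ring_nf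
  have eb : b ^ (2 * j + 2) = (|b| ^ 2) ^ (j + 1) := by rw [sq_abs, ← pow_mul]; ring_nf
  rw [ea, eb]
  have ha := abs_nonneg a
  have hb := abs_nonneg b
  rcases le_total |a| |b| with h | h
  · have : ((|a| + |b|) ^ 2) ^ (j + 1) ≤ (4 * |b| ^ 2) ^ (j + 1) :=
      pow_le_pow_left₀ (by positivity) (by nlinarith) _
    rw [mul_pow] at this
    have h2 : 0 ≤ 4 ^ (j + 1) * (|a| ^ 2) ^ (j + 1) := by positivity
    linarith
  · have : ((|a| + |b|) ^ 2) ^ (j + 1) ≤ (4 * |a| ^ 2) ^ (j + 1) :=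
      pow_le_pow_left₀ (by positivity) (by nlinarith) _
    rw [mul_pow] at this
    have h2 : 0 ≤ 4 ^ (j + 1) * (|b| ^ 2) ^ (j + 1) := by positivity
    linarith

variable {α : Type} {m0 : MeasurableSpace α} {μ : Measure α} {q : ℝ≥0∞} [Fact (1 ≤ q)]

omit [Fact (1 ≤ q)] in
lemma intpow (j : ℕ) (hq : q = ((2 * j + 2 : ℕ) : ℝ≥0∞)) (x : Lp ℝ q μ) :
    Integrable (fun a => x a ^ (2 * j + 2)) μ := by
  have h := Lp.memLp x
  have h' : MemLp x ((2 * j + 2 : ℕ) : ℝ≥0∞) μ := hq ▸ h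
  have := h'.integrable_norm_pow (by omega)
  refine this.congr (Filter.Eventually.of_forall fun a => ?_)
  simp only [Real.norm_eq_abs]
  exact Even.pow_abs ⟨j + 1, by ring⟩ _

omit [Fact (1 ≤ q)] in
lemma normpow (j : ℕ) (hq : q = ((2 * j + 2 : ℕ) : ℝ≥0∞)) (x : Lp ℝ q μ) :
    ‖x‖ ^ (2 * j + 2) = ∫ a, x a ^ (2 * j + 2) ∂μ := by
  have h0 : q ≠ 0 := by rw [hq]; exact_mod_cast (by omega : 2 * j + 2 ≠ 0)
  have h1 : q ≠ ∞ := by rw [hq]; exact ENNReal.natCast_ne_top _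
  have e : q.toReal = ((2 * j + 2 : ℕ) : ℝ) := by rw [hq]; exact ENNReal.toReal_natCast _
  have e2 : ∫ a, ‖x a‖ ^ q.toReal ∂μ = ∫ a, x a ^ (2 * j + 2) ∂μ := by
    congr 1; funext a
    rw [e, Real.rpow_natCast, Real.norm_eq_abs]
    exact Even.pow_abs ⟨j + 1, by ring⟩ _
  have hn : 0 ≤ ∫ a, x a ^ (2 * j + 2) ∂μ :=
    integral_nonneg fun a => Even.pow_nonneg ⟨j + 1, by ring⟩ _
  rw [Lp.norm_def, (Lp.memLp x).eLpNorm_eq_integral_rpow_norm h0 h1, e2,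
    ENNReal.toReal_ofReal (Real.rpow_nonneg hn _), e]
  exact Real.rpow_inv_natCast_pow hn (by omega)

lemma smooth (j : ℕ) (hq : q = ((2 * j + 2 : ℕ) : ℝ≥0∞)) : ∃ C : ℝ, 1 ≤ C ∧ ∀ f d : Lp ℝ q μ,
    Integrable (fun a => f a ^ (2 * j + 1) * d a) μ → ∫ a, f a ^ (2 * j + 1) * d a ∂μ = 0 →
    ‖f + d‖ ^ 2 ≤ ‖f‖ ^ 2 + C * ‖d‖ ^ 2 := by
  obtain ⟨K, hK, h⟩ := pw (2 * j)
  have h4 : (1 : ℝ) ≤ 4 ^ (j + 1) := one_le_pow₀ (by norm_num)
  refine ⟨K * (1 + 2 * 4 ^ (j + 1)), by nlinarith, fun f d hi h0 => ?_⟩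
  set C := K * (1 + 2 * 4 ^ (j + 1)) with hC
  have hC1 : 1 ≤ C := by nlinarith
  rcases eq_or_ne d 0 with rfl | hd
  · simp
  have hD : 0 < ‖d‖ := norm_pos_iff.mpr hd
  set D := ‖d‖ ^ 2 with hDd
  set F := ‖f‖ ^ 2 with hFd
  have hD2 : 0 < D := by positivity
  have hF2 : 0 ≤ F := by positivity
  set S := F + D with hS
  have hS0 : 0 < S := by positivity
  have nf : ∫ a, f a ^ (2 * j + 2) ∂μ = F ^ (j + 1) := by
    rw [← normpow j hq, hFd, ← pow_mul]; ring_nf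
  have nd : ∫ a, d a ^ (2 * j + 2) ∂μ = D ^ (j + 1) := by
    rw [← normpow j hq, hDd, ← pow_mul]; ring_nf
  have nfd : ∫ a, (f a + d a) ^ (2 * j + 2) ∂μ = (‖f + d‖ ^ 2) ^ (j + 1) := by
    rw [← pow_mul, show 2 * (j + 1) = 2 * j + 2 by ring, normpow j hq]
    refine integral_congr_ae ?_
    filter_upwards [Lp.coeFn_add f d] with a ha
    rw [ha]; rfl
  have ifd : Integrable (fun a => (f a + d a) ^ (2 * j + 2)) μ := by
    refine (intpow j hq (f + d)).congr ?_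
    filter_upwards [Lp.coeFn_add f d] with a ha
    rw [ha]; rfl
  have jf := intpow j hq f
  have jd := intpow j hq d
  have pt : ∀ a b : ℝ, (a + b) ^ (2 * j + 2) ≤ a ^ (2 * j + 2) + (2 * j + 2) * (a ^ (2 * j + 1) * b)
      + K * D * S ^ j * (b ^ (2 * j + 2) / D ^ (j + 1)
        + 4 ^ (j + 1) * (a ^ (2 * j + 2) + b ^ (2 * j + 2)) / S ^ (j + 1)) := by
    intro a b
    have h1 := (abs_le.mp (h a b)).2
    have h2 := young (b ^ 2 / D) ((|a| + |b|) ^ 2 / S) (by positivity) (by positivity) j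
    have h3 := sumpow a b j
    have e1 : K * b ^ 2 * (|a| + |b|) ^ (2 * j)
        = K * D * S ^ j * (b ^ 2 / D * ((|a| + |b|) ^ 2 / S) ^ j) := by
      rw [div_pow, ← pow_mul]; field_simp
    have e2 : (b ^ 2 / D) ^ (j + 1) = b ^ (2 * j + 2) / D ^ (j + 1) := by
      rw [div_pow, ← pow_mul]; ring_nf
    have e3 : ((|a| + |b|) ^ 2 / S) ^ (j + 1)
        ≤ 4 ^ (j + 1) * (a ^ (2 * j + 2) + b ^ (2 * j + 2)) / S ^ (j + 1) := by
      rw [div_pow]; gcongr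
    have h5 : K * D * S ^ j * (b ^ 2 / D * ((|a| + |b|) ^ 2 / S) ^ j)
        ≤ K * D * S ^ j * (b ^ (2 * j + 2) / D ^ (j + 1)
        + 4 ^ (j + 1) * (a ^ (2 * j + 2) + b ^ (2 * j + 2)) / S ^ (j + 1)) := by
      have : 0 ≤ K * D * S ^ j := by positivity
      refine mul_le_mul_of_nonneg_left ?_ this
      linarith
    push_cast at h1
    linarith
  have key : (‖f + d‖ ^ 2) ^ (j + 1) ≤ F ^ (j + 1) + (2 * j + 2) * 0
      + K * D * S ^ j * (D ^ (j + 1) / D ^ (j + 1)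
        + 4 ^ (j + 1) * (F ^ (j + 1) + D ^ (j + 1)) / S ^ (j + 1)) := by
    rw [← nfd]
    have i1 : Integrable (fun a => (2 * j + 2 : ℝ) * (f a ^ (2 * j + 1) * d a)) μ := hi.const_mul _
    have i2 : Integrable (fun a => d a ^ (2 * j + 2) / D ^ (j + 1)) μ := jd.div_const _
    have i0 : Integrable (fun a => f a ^ (2 * j + 2) + d a ^ (2 * j + 2)) μ := jf.add jd
    have i3 : Integrable (fun a => 4 ^ (j + 1) * (f a ^ (2 * j + 2) + d a ^ (2 * j + 2))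
        / S ^ (j + 1)) μ := (i0.const_mul _).div_const _
    have i4 : Integrable (fun a => d a ^ (2 * j + 2) / D ^ (j + 1) + 4 ^ (j + 1)
        * (f a ^ (2 * j + 2) + d a ^ (2 * j + 2)) / S ^ (j + 1)) μ := i2.add i3
    have i5 : Integrable (fun a => f a ^ (2 * j + 2)
        + (2 * j + 2 : ℝ) * (f a ^ (2 * j + 1) * d a)) μ := jf.add i1
    refine (integral_mono ifd (i5.add (i4.const_mul (K * D * S ^ j))) fun a => pt _ _).trans_eq ?_
    simp only [Pi.add_apply]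
    rw [integral_add i5 (i4.const_mul _), integral_add jf i1, integral_const_mul, integral_const_mul,
      integral_add i2 i3, integral_div, integral_div, integral_const_mul, integral_add jf jd, nf, nd,
      h0]
  have b1 : F ^ (j + 1) ≤ S ^ (j + 1) := pow_le_pow_left₀ hF2 (by linarith) _
  have b2 : D ^ (j + 1) ≤ S ^ (j + 1) := pow_le_pow_left₀ hD2.le (by linarith) _
  have b3 : 4 ^ (j + 1) * (F ^ (j + 1) + D ^ (j + 1)) / S ^ (j + 1) ≤ 2 * 4 ^ (j + 1) := by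
    rw [div_le_iff₀ (by positivity)]; nlinarith
  have b4 : D ^ (j + 1) / D ^ (j + 1) = 1 := div_self (by positivity)
  rw [b4] at key
  have b5 : K * D * S ^ j * (1 + 4 ^ (j + 1) * (F ^ (j + 1) + D ^ (j + 1)) / S ^ (j + 1))
      ≤ K * D * S ^ j * (1 + 2 * 4 ^ (j + 1)) := by gcongr
  have b6 : F ^ j ≤ (F + C * D) ^ j := pow_le_pow_left₀ hF2 (by nlinarith) _
  have b7 : S ^ j ≤ (F + C * D) ^ j := pow_le_pow_left₀ hS0.le (by nlinarith) _
  have b8 : (‖f + d‖ ^ 2) ^ (j + 1) ≤ (F + C * D) ^ (j + 1) := by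
    have e : (F + C * D) ^ (j + 1) = F * (F + C * D) ^ j + C * D * (F + C * D) ^ j := by ring
    have c1 : F ^ (j + 1) ≤ F * (F + C * D) ^ j := by rw [pow_succ']; gcongr
    have c2 : C * D * S ^ j ≤ C * D * (F + C * D) ^ j := by gcongr
    have c3 : K * D * S ^ j * (1 + 2 * 4 ^ (j + 1)) = C * D * S ^ j := by rw [hC]; ring
    linarith
  exact le_of_pow_le_pow_left₀ (Nat.succ_ne_zero j) (by positivity) b8

end H33.HG
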