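import Pool.Agent.H33.HG1

set_option autoImplicit false
open MeasureTheory Filter Topology
open scoped ENNReal

namespace H33.HG

variable {α : Type} {m : MeasurableSpace α} {m0 : MeasurableSpace α} {μ : Measure α} {q : ℝ≥0∞}
  [Fact (1 ≤ q)]

def Bes (Φ : Set (Lp ℝ q μ)) : Prop :=
  ∀ (s : Finset (Lp ℝ q μ)) (a : Lp ℝ q μ → ℝ), ↑s ⊆ Φ →
    ‖∑ φ ∈ s, a φ • φ‖ ^ 2 ≤ ∑ φ ∈ s, a φ ^ 2

noncomputable def V (Φ : Set (Lp ℝ q μ)) : Submodule ℝ (Lp ℝ q μ) :=
  (Submodule.span ℝ Φ).topologicalClosure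

def Ind (W : Submodule ℝ (Lp ℝ q μ)) (B : Set α) : Prop :=
  ∃ f ∈ W, ⇑f =ᵐ[μ] B.indicator (fun _ => (1 : ℝ))

def Good (x : MeasurableSpace α × Set (Lp ℝ q μ)) : Prop :=
  x.1 ≤ m0 ∧ (∀ φ ∈ x.2, AEStronglyMeasurable[x.1] φ μ) ∧ Bes x.2 ∧
    ∀ B, MeasurableSet[x.1] B → Ind (V x.2) B

lemma V_closed (Φ : Set (Lp ℝ q μ)) : IsClosed (V Φ : Set (Lp ℝ q μ)) :=
  Submodule.isClosed_topologicalClosure _

lemma V_mono {Φ Ψ : Set (Lp ℝ q μ)} (h : Φ ⊆ Ψ) : V Φ ≤ V Ψ :=
  Submodule.topologicalClosure_mono (Submodule.span_mono h)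

lemma mem_V {Φ : Set (Lp ℝ q μ)} {φ : Lp ℝ q μ} (h : φ ∈ Φ) : φ ∈ V Φ :=
  Submodule.le_topologicalClosure _ (Submodule.subset_span h)

lemma V_le {Φ : Set (Lp ℝ q μ)} {W : Submodule ℝ (Lp ℝ q μ)} (hW : IsClosed (W : Set (Lp ℝ q μ)))
    (h : Φ ⊆ W) : V Φ ≤ W :=
  Submodule.topologicalClosure_minimal _ (Submodule.span_le.mpr h) hW

lemma lemA (hm : m ≤ m0) (hq : q ≠ ∞) (W : Submodule ℝ (Lp ℝ q μ))
    (hW : IsClosed (W : Set (Lp ℝ q μ))) (h : ∀ B, MeasurableSet[m] B → Ind W B) :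
    ∀ f : Lp ℝ q μ, AEStronglyMeasurable[m] f μ → f ∈ W := by
  refine Lp.induction_stronglyMeasurable hm hq (fun f => f ∈ W) ?_ ?_ ?_
  · intro c s hs hμs
    obtain ⟨f, hf, hfs⟩ := h s hs
    have : (Lp.simpleFunc.indicatorConst q (hm s hs) hμs.ne c : Lp ℝ q μ) = c • f := by
      rw [Lp.simpleFunc.coe_indicatorConst]
      refine Lp.ext ?_
      filter_upwards [indicatorConstLp_coeFn (p := q) (hs := hm s hs) (hμs := hμs.ne) (c := c),
        Lp.coeFn_smul c f, hfs] with a h1 h2 h3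
      rw [h1, h2, Pi.smul_apply, h3]
      by_cases ha : a ∈ s <;> simp [ha]
    rw [this]; exact W.smul_mem _ hf
  · intro f g hf hg _ _ _ h1 h2; exact W.add_mem h1 h2
  · exact hW.preimage continuous_subtype_val

lemma ind_iff [IsFiniteMeasure μ] {W : Submodule ℝ (Lp ℝ q μ)} {B : Set α} (hB : MeasurableSet B) :
    Ind W B ↔ indicatorConstLp q hB (measure_ne_top μ B) (1 : ℝ) ∈ W := by
  constructor
  · rintro ⟨f, hf, h⟩
    have : indicatorConstLp q hB (measure_ne_top μ B) (1 : ℝ) = f :=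
      Lp.ext (indicatorConstLp_coeFn.trans h.symm)
    rw [this]; exact hf
  · intro h; exact ⟨_, h, indicatorConstLp_coeFn⟩

lemma lemB [IsFiniteMeasure μ] (hq : q ≠ ∞) (W : Submodule ℝ (Lp ℝ q μ))
    (hW : IsClosed (W : Set (Lp ℝ q μ))) (S : Set (Set α)) (hS : IsPiSystem S)
    (hm : MeasurableSpace.generateFrom S ≤ m0) (h1 : Ind W Set.univ) (h : ∀ B ∈ S, Ind W B) :
    ∀ B, MeasurableSet[MeasurableSpace.generateFrom S] B → Ind W B := by
  have he : Ind W ∅ := ⟨0, W.zero_mem, by rw [Set.indicator_empty]; exact Lp.coeFn_zero ℝ q μ⟩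
  intro B hB
  induction B, hB using MeasurableSpace.induction_on_inter (m := MeasurableSpace.generateFrom S)
    (s := S) (h_eq := rfl) (h_inter := hS) with
  | empty => exact he
  | basic t ht => exact h t ht
  | compl t _ ht =>
    obtain ⟨f, hf, e1⟩ := h1
    obtain ⟨g, hg, e2⟩ := ht
    refine ⟨f - g, W.sub_mem hf hg, ?_⟩
    filter_upwards [Lp.coeFn_sub f g, e1, e2] with a a1 a2 a3
    rw [a1, Pi.sub_apply, a2, a3]
    by_cases ha : a ∈ t <;> simp [ha]
  | iUnion f hd hfm hf =>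
    have hf0 : ∀ i, MeasurableSet (f i) := fun i => hm _ (hfm i)
    let t : ℕ → Set α := fun n => ⋃ i ∈ Finset.range n, f i
    have ht : ∀ n, MeasurableSet (t n) := fun n => Finset.measurableSet_biUnion _ fun i _ => hf0 i
    have hi : ∀ n, Ind W (t n) := by
      intro n
      induction n with
      | zero => simpa [t] using he
      | succ n ih =>
        obtain ⟨g, hg, e1⟩ := ih
        obtain ⟨k, hk, e2⟩ := hf n
        have e : t (n + 1) = f n ∪ t n := by simp only [t]; rw [Finset.range_add_one, Finset.set_biUnion_insert]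
        have hdj : Disjoint (f n) (t n) := by
          simp only [t, Set.disjoint_iUnion_right, Finset.mem_range]
          intro i hi; exact hd (by omega)
        refine ⟨k + g, W.add_mem hk hg, ?_⟩
        rw [e, Set.indicator_union_of_disjoint hdj]
        filter_upwards [Lp.coeFn_add k g, e1, e2] with a a1 a2 a3
        rw [a1, Pi.add_apply, a2, a3]
    have hU : MeasurableSet (⋃ i, f i) := MeasurableSet.iUnion hf0
    rw [ind_iff hU]
    have hl : Tendsto (fun n => μ (symmDiff (t n) (⋃ i, f i))) atTop (𝓝 0) := by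
      have := tendsto_measure_biUnion_Ici_zero_of_pairwise_disjoint (μ := μ)
        (fun i => (hf0 i).nullMeasurableSet) hd
      refine tendsto_of_tendsto_of_tendsto_of_le_of_le tendsto_const_nhds this
        (fun _ => zero_le) fun n => measure_mono ?_
      intro a ha
      simp only [t, Set.mem_symmDiff, Set.mem_iUnion, Finset.mem_range, not_exists] at ha ⊢
      rcases ha with ⟨⟨i, _, hi⟩, h2⟩ | ⟨⟨i, hi⟩, h2⟩
      · exact absurd hi (h2 i)
      · exact ⟨i, not_lt.mp fun hlt => h2 i hlt hi, hi⟩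
    exact hW.mem_of_tendsto (tendsto_indicatorConstLp_set (ht := ht)
      (hμt := fun n => measure_ne_top μ _) hq hl)
      (Eventually.of_forall fun n => (ind_iff (ht n)).mp (hi n))

lemma mulop (h : α → ℝ) (hm : AEStronglyMeasurable h μ) (hb : ∀ᵐ a ∂μ, |h a| ≤ 2) :
    ∃ M : Lp ℝ q μ →L[ℝ] Lp ℝ q μ, (∀ f, ⇑(M f) =ᵐ[μ] fun a => h a * f a) ∧
      ∀ f, ‖M f‖ ≤ 2 * ‖f‖ := by
  have hle : ∀ f : Lp ℝ q μ, ∀ᵐ a ∂μ, ‖h a * f a‖ ≤ 2 * ‖f a‖ := fun f => by
    filter_upwards [hb] with a ha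
    rw [norm_mul]; exact mul_le_mul_of_nonneg_right ha (norm_nonneg _)
  have mem : ∀ f : Lp ℝ q μ, MemLp (fun a => h a * f a) q μ := fun f =>
    (Lp.memLp f).of_le_mul (hm.mul (Lp.aestronglyMeasurable f)) (hle f)
  let L : Lp ℝ q μ →ₗ[ℝ] Lp ℝ q μ :=
    { toFun := fun f => (mem f).toLp _
      map_add' := fun f g => by
        refine Lp.ext ?_
        filter_upwards [(mem (f + g)).coeFn_toLp, (mem f).coeFn_toLp, (mem g).coeFn_toLp,
          Lp.coeFn_add f g, Lp.coeFn_add ((mem f).toLp _) ((mem g).toLp _)] with a a1 a2 a3 a4 a5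
        rw [a1, a5, Pi.add_apply, a2, a3, a4, Pi.add_apply, mul_add]
      map_smul' := fun c f => by
        refine Lp.ext ?_
        filter_upwards [(mem (c • f)).coeFn_toLp, (mem f).coeFn_toLp,
          Lp.coeFn_smul c f, Lp.coeFn_smul c ((mem f).toLp _)] with a a1 a2 a4 a5
        rw [RingHom.id_apply, a1, a5, Pi.smul_apply, a2, a4, Pi.smul_apply, smul_eq_mul, smul_eq_mul]
        ring }
  have hn : ∀ f, ‖L f‖ ≤ 2 * ‖f‖ := fun f => by
    refine Lp.norm_le_mul_norm_of_ae_le_mul ?_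
    filter_upwards [(mem f).coeFn_toLp, hle f] with a a1 a2
    exact a1 ▸ a2
  exact ⟨L.mkContinuous 2 hn, fun f => (mem f).coeFn_toLp, hn⟩

lemma succ [IsFiniteMeasure μ] (j : ℕ) (hq : q = ((2 * j + 2 : ℕ) : ℝ≥0∞))
    (Φ : Set (Lp ℝ q μ)) (hx : Good (m, Φ)) (A : Set α) (hA : MeasurableSet A) :
    ∃ y : MeasurableSpace α × Set (Lp ℝ q μ), Good y ∧ (m, Φ) ≤ y ∧ MeasurableSet[y.1] A := by
  classical
  obtain ⟨hm, hΦ, hB, hI⟩ := hx
  simp only at hm hΦ hB hI
  have hq' : q ≠ ∞ := by rw [hq]; exact ENNReal.natCast_ne_top _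
  obtain ⟨C, hC, hs⟩ := smooth (μ := μ) j hq
  set I : α → ℝ := A.indicator (fun _ => (1 : ℝ)) with hIdef
  have hIb : ∀ a, |I a| ≤ 1 := fun a => by by_cases ha : a ∈ A <;> simp [hIdef, ha]
  have hIi : Integrable I μ := (integrable_const (1 : ℝ)).indicator hA
  set P : α → ℝ := μ[I | m] with hP
  have hPm : StronglyMeasurable[m] P := stronglyMeasurable_condExp
  have hPb : ∀ᵐ a ∂μ, |P a| ≤ 1 := ae_bdd_abs_condExp_of_ae_bdd_abs (Eventually.of_forall hIb)
  have hP0 : AEStronglyMeasurable P μ := (hPm.mono hm).aestronglyMeasurable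
  obtain ⟨M, hM, hMn⟩ := mulop (q := q) (fun a => I a - P a) (hIi.aestronglyMeasurable.sub hP0)
    (by filter_upwards [hPb] with a ha; linarith [abs_sub (I a) (P a), hIb a])
  obtain ⟨M', hM', -⟩ := mulop (q := q) P hP0 (by filter_upwards [hPb] with a ha; linarith)
  set c : ℝ := (2 * C)⁻¹ with hc
  have hc0 : 0 < c := by positivity
  set N : Lp ℝ q μ →L[ℝ] Lp ℝ q μ := c • M with hN
  have hNa : ∀ f, ⇑(N f) =ᵐ[μ] fun a => c * ((I a - P a) * f a) := fun f => by
    filter_upwards [hM f, Lp.coeFn_smul c (M f)] with a a1 a2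
    rw [hN, smul_apply, a2, Pi.smul_apply, a1, smul_eq_mul]
  let S : Set (Set α) := {B | MeasurableSet[m] B} ∪ {D | ∃ B, MeasurableSet[m] B ∧ D = B ∩ A}
  have hS : IsPiSystem S := by
    rintro _ (h1 | ⟨B1, h1, rfl⟩) _ (h2 | ⟨B2, h2, rfl⟩) -
    · exact Or.inl (MeasurableSet.inter h1 h2)
    · exact Or.inr ⟨_, MeasurableSet.inter h1 h2, by rw [Set.inter_assoc]⟩
    · exact Or.inr ⟨_, MeasurableSet.inter h1 h2, by rw [Set.inter_right_comm]⟩
    · exact Or.inr ⟨_, MeasurableSet.inter h1 h2, by ext a; simp; tauto⟩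
  have hm' : MeasurableSpace.generateFrom S ≤ m0 := by
    refine MeasurableSpace.generateFrom_le ?_
    rintro _ (h1 | ⟨B1, h1, rfl⟩)
    · exact hm _ h1
    · exact (hm _ h1).inter hA
  have hmm : m ≤ MeasurableSpace.generateFrom S := fun B h =>
    MeasurableSpace.measurableSet_generateFrom (Or.inl h)
  have hA' : MeasurableSet[MeasurableSpace.generateFrom S] A :=
    MeasurableSpace.measurableSet_generateFrom (Or.inr ⟨_, MeasurableSet.univ, by simp⟩)
  refine ⟨(MeasurableSpace.generateFrom S, Φ ∪ N '' Φ), ⟨hm', ?_, ?_, ?_⟩,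
    ⟨hmm, Set.subset_union_left⟩, hA'⟩
  · rintro _ (h | ⟨φ, h, rfl⟩)
    · exact (hΦ _ h).mono hmm
    · refine AEStronglyMeasurable.congr ?_ (hNa φ).symm
      have i1 : StronglyMeasurable[MeasurableSpace.generateFrom S] I :=
        stronglyMeasurable_const.indicator hA'
      exact (((i1.sub (hPm.mono hmm)).aestronglyMeasurable).mul ((hΦ _ h).mono hmm)).const_mul c
  · intro s a hsub
    have hsur : Set.SurjOn N Φ (s.filter (· ∉ Φ) : Finset _) := by
      intro ψ hψ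
      simp only [Finset.coe_filter, Set.mem_setOf_eq] at hψ
      exact (hsub hψ.1).resolve_left hψ.2
    obtain ⟨u, hu, hinj, himg⟩ := Finset.exists_subset_injOn_image_eq_of_surjOn _ _ hsur
    set f := ∑ φ ∈ s.filter (· ∈ Φ), a φ • φ with hf
    set g := ∑ φ ∈ u, a (N φ) • φ with hg
    have e1 : ∑ φ ∈ s, a φ • φ = f + N g := by
      rw [← Finset.sum_filter_add_sum_filter_not s (· ∈ Φ), ← himg, Finset.sum_image hinj, hg,
        map_sum]
      simp only [map_smul, hf]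
    have e2 : ∑ φ ∈ s, a φ ^ 2 = ∑ φ ∈ s.filter (· ∈ Φ), a φ ^ 2 + ∑ φ ∈ u, a (N φ) ^ 2 := by
      rw [← Finset.sum_filter_add_sum_filter_not s (· ∈ Φ), ← himg, Finset.sum_image hinj]
    have b1 := hB (s.filter (· ∈ Φ)) a (fun φ h => (Finset.mem_filter.mp h).2)
    have b2 := hB u (fun φ => a (N φ)) hu
    have fm : AEStronglyMeasurable[m] f μ := by
      rw [← mem_lpMeas_iff_aestronglyMeasurable (𝕜 := ℝ)]
      exact Submodule.sum_mem _ fun φ h => Submodule.smul_mem _ _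
        (mem_lpMeas_iff_aestronglyMeasurable.mpr (hΦ _ (Finset.mem_filter.mp h).2))
    have gm : AEStronglyMeasurable[m] g μ := by
      rw [← mem_lpMeas_iff_aestronglyMeasurable (𝕜 := ℝ)]
      exact Submodule.sum_mem _ fun φ h => Submodule.smul_mem _ _
        (mem_lpMeas_iff_aestronglyMeasurable.mpr (hΦ _ (hu h)))
    have hint : ∀ x y : Lp ℝ q μ, Integrable (fun a => x a ^ (2 * j + 1) * y a) μ := by
      intro x y
      refine ((intpow j hq y).add (intpow j hq x)).mono'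
        (((Lp.aestronglyMeasurable x).pow _).mul (Lp.aestronglyMeasurable y))
        (Eventually.of_forall fun a => ?_)
      have := young |y a| |x a| (abs_nonneg _) (abs_nonneg _) (2 * j + 1)
      have ev : Even (2 * j + 1 + 1) := ⟨j + 1, by ring⟩
      rw [ev.pow_abs, ev.pow_abs] at this
      rw [Real.norm_eq_abs, abs_mul, abs_pow, mul_comm]
      exact this
    set w : α → ℝ := fun a => f a ^ (2 * j + 1) * g a with hw
    have wi : Integrable w μ := hint f g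
    have wm : AEStronglyMeasurable[m] w μ := (fm.pow _).mul gm
    have wI : Integrable (w * I) μ := wi.mul_bdd hIi.aestronglyMeasurable
      (Eventually.of_forall hIb)
    have wP : Integrable (w * P) μ := wi.mul_bdd hP0 hPb
    have e3 : ∫ a, (w * I) a ∂μ = ∫ a, (w * P) a ∂μ := by
      rw [← integral_condExp hm (f := w * I)]
      exact integral_congr_ae (condExp_mul_of_aestronglyMeasurable_left wm wI hIi)
    have e4 : ∫ a, f a ^ (2 * j + 1) * N g a ∂μ = 0 := by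
      have : ∫ a, f a ^ (2 * j + 1) * N g a ∂μ = ∫ a, c * ((w * I) a - (w * P) a) ∂μ := by
        refine integral_congr_ae ?_
        filter_upwards [hNa g] with a ha
        rw [ha]; simp only [Pi.mul_apply, hw]; ring
      rw [this, integral_const_mul, integral_sub wI wP, e3, sub_self, mul_zero]
    have b3 := hs f (N g) (hint _ _) e4
    have b4 : ‖N g‖ ≤ C⁻¹ * ‖g‖ := by
      rw [hN, smul_apply, norm_smul, Real.norm_eq_abs, abs_of_pos hc0]
      calc c * ‖M g‖ ≤ c * (2 * ‖g‖) := mul_le_mul_of_nonneg_left (hMn g) hc0.le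
        _ = _ := by rw [hc]; field_simp
    have b5 : C * ‖N g‖ ^ 2 ≤ ‖g‖ ^ 2 := by
      calc C * ‖N g‖ ^ 2 ≤ C * (C⁻¹ * ‖g‖) ^ 2 := by gcongr
        _ = C⁻¹ * ‖g‖ ^ 2 := by field_simp
        _ ≤ 1 * ‖g‖ ^ 2 := by gcongr; exact inv_le_one_of_one_le₀ hC
        _ = _ := one_mul _
    rw [e1, e2]; linarith
  · have hle : V Φ ≤ V (Φ ∪ N '' Φ) := V_mono Set.subset_union_left
    have h1 : ∀ B, MeasurableSet[m] B → Ind (V (Φ ∪ N '' Φ)) B := fun B h => by
      obtain ⟨f, hf, e⟩ := hI B h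
      exact ⟨f, hle hf, e⟩
    refine lemB hq' _ (V_closed _) S hS hm' (h1 _ MeasurableSet.univ) ?_
    rintro _ (h | ⟨B, h, rfl⟩)
    · exact h1 _ h
    obtain ⟨f, hf, e⟩ := hI B h
    have hNf : N f ∈ V (Φ ∪ N '' Φ) := by
      have : V Φ ≤ (V (Φ ∪ N '' Φ)).comap (N : Lp ℝ q μ →ₗ[ℝ] Lp ℝ q μ) :=
        V_le ((V_closed _).preimage N.continuous) fun φ h => mem_V (Or.inr ⟨φ, h, rfl⟩)
      exact this hf
    have hMf : M' f ∈ V Φ := by
      refine lemA hm hq' _ (V_closed _) hI _ (AEStronglyMeasurable.congr ?_ (hM' f).symm)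
      have i1 : StronglyMeasurable[m] (B.indicator fun _ => (1 : ℝ)) :=
        stronglyMeasurable_const.indicator h
      exact hPm.aestronglyMeasurable.mul (i1.aestronglyMeasurable.congr e.symm)
    refine ⟨c⁻¹ • N f + M' f, Submodule.add_mem _ (Submodule.smul_mem _ _ hNf) (hle hMf), ?_⟩
    filter_upwards [Lp.coeFn_add (c⁻¹ • N f) (M' f), Lp.coeFn_smul c⁻¹ (N f), hNa f, hM' f, e]
      with a a1 a2 a3 a4 a5
    rw [a1, Pi.add_apply, a2, Pi.smul_apply, a3, a4, a5, smul_eq_mul, ← mul_assoc,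
      inv_mul_cancel₀ hc0.ne', one_mul]
    by_cases h1 : a ∈ A <;> by_cases h2 : a ∈ B <;> simp [hIdef, h1, h2]

lemma exists_family [IsFiniteMeasure μ] (j : ℕ) (hq : q = ((2 * j + 2 : ℕ) : ℝ≥0∞)) :
    ∃ Φ : Set (Lp ℝ q μ), Bes Φ ∧ ∀ f, f ∈ V Φ := by
  have hq' : q ≠ ∞ := by rw [hq]; exact ENNReal.natCast_ne_top _
  set o : Lp ℝ q μ := indicatorConstLp q MeasurableSet.univ (measure_ne_top μ _) (1 : ℝ) with ho
  set c : ℝ := (1 + ‖o‖)⁻¹ with hc
  have hc0 : 0 < c := by positivity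
  have hb : Good ((MeasurableSpace.generateFrom {Set.univ}, {c • o}) :
      MeasurableSpace α × Set (Lp ℝ q μ)) := by
    have hm : MeasurableSpace.generateFrom {Set.univ} ≤ m0 :=
      MeasurableSpace.generateFrom_le (by rintro _ rfl; exact MeasurableSet.univ)
    have h1 : Ind (V {c • o}) Set.univ := by
      rw [ind_iff MeasurableSet.univ]
      have := Submodule.smul_mem _ c⁻¹ (mem_V (Set.mem_singleton (c • o)))
      rwa [smul_smul, inv_mul_cancel₀ hc0.ne', one_smul] at this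
    refine ⟨hm, ?_, ?_, lemB hq' _ (V_closed _) _ (IsPiSystem.singleton _) hm h1
      (by rintro _ rfl; exact h1)⟩
    · rintro _ rfl
      refine AEStronglyMeasurable.congr (f := fun _ => c) aestronglyMeasurable_const ?_
      filter_upwards [Lp.coeFn_smul c o, indicatorConstLp_coeFn (p := q) (hs := MeasurableSet.univ)
        (hμs := measure_ne_top μ _) (c := (1 : ℝ))] with a a1 a2
      rw [a1, Pi.smul_apply, ho, a2]; simp
    · intro s a hs
      rcases Finset.subset_singleton_iff.mp (show s ⊆ {c • o} from fun z hz => Finset.mem_singleton.mpr (hs hz)) with rfl | rfl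
      · simp
      · have : ‖c • o‖ ≤ 1 := by
          rw [norm_smul, Real.norm_eq_abs, abs_of_pos hc0, hc, inv_mul_le_iff₀ (by positivity)]
          linarith
        rw [Finset.sum_singleton, Finset.sum_singleton, norm_smul, mul_pow, Real.norm_eq_abs, sq_abs]
        exact mul_le_of_le_one_right (sq_nonneg _) (pow_le_one₀ (norm_nonneg _) this)
  obtain ⟨x, -, hx⟩ := zorn_le_nonempty₀ {x : MeasurableSpace α × Set (Lp ℝ q μ) | Good x} (by
    intro ch hch hc y hy
    let S : Set (Set α) := {B | ∃ z ∈ ch, MeasurableSet[z.1] B}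
    have hS : IsPiSystem S := by
      rintro B1 ⟨z1, h1, b1⟩ B2 ⟨z2, h2, b2⟩ -
      rcases hc.total h1 h2 with h | h
      · exact ⟨z2, h2, (h.1 _ b1).inter b2⟩
      · exact ⟨z1, h1, b1.inter (h.1 _ b2)⟩
    have hm : MeasurableSpace.generateFrom S ≤ m0 :=
      MeasurableSpace.generateFrom_le (by rintro B ⟨z, h, b⟩; exact (hch h).1 _ b)
    have hle : ∀ z ∈ ch, z.1 ≤ MeasurableSpace.generateFrom S := fun z h B b =>
      MeasurableSpace.measurableSet_generateFrom ⟨z, h, b⟩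
    have hsub : ∀ z ∈ ch, z.2 ⊆ ⋃ z ∈ ch, z.2 := fun z h φ hφ => Set.mem_iUnion₂.mpr ⟨z, h, hφ⟩
    have hI : ∀ B ∈ S, Ind (V (⋃ z ∈ ch, z.2)) B := by
      rintro B ⟨z, h, b⟩
      obtain ⟨f, hf, e⟩ := (hch h).2.2.2 B b
      exact ⟨f, V_mono (hsub z h) hf, e⟩
    refine ⟨(MeasurableSpace.generateFrom S, ⋃ z ∈ ch, z.2), ⟨hm, ?_, ?_,
      lemB hq' _ (V_closed _) S hS hm (hI _ ⟨y, hy, MeasurableSet.univ⟩) hI⟩,
      fun z h => ⟨hle z h, hsub z h⟩⟩
    · intro φ hφ
      obtain ⟨z, h, b⟩ := Set.mem_iUnion₂.mp hφ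
      exact ((hch h).2.1 φ b).mono (hle z h)
    · intro s a hs
      have hd : DirectedOn (fun i k : MeasurableSpace α × Set (Lp ℝ q μ) => i.2 ⊆ k.2) ch := by
        intro z1 h1 z2 h2
        rcases hc.total h1 h2 with h | h
        · exact ⟨z2, h2, h.2, le_rfl⟩
        · exact ⟨z1, h1, le_rfl, h.2⟩
      obtain ⟨z, h, b⟩ := DirectedOn.exists_mem_subset_of_finset_subset_biUnion ⟨y, hy⟩ hd hs
      exact (hch h).2.2.1 s a b) _ hb
  refine ⟨x.2, hx.prop.2.2.1, fun f => lemA le_rfl hq' _ (V_closed _) (fun A hA => ?_) f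
    (Lp.aestronglyMeasurable f)⟩
  obtain ⟨y, hy, hxy, hAy⟩ := succ j hq x.2 hx.prop A hA
  exact hx.prop.2.2.2 A ((hx.le_of_ge hy hxy).1 _ hAy)

end H33.HG
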