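import Pool.Agent.H33.HG2

set_option autoImplicit false
open MeasureTheory Filter Topology
open scoped ENNReal

namespace H33.HG

lemma synth {X : Type} [NormedAddCommGroup X] [NormedSpace ℝ X] [CompleteSpace X] (Φ : Set X)
    (hB : ∀ (s : Finset X) (a : X → ℝ), ↑s ⊆ Φ → ‖∑ φ ∈ s, a φ • φ‖ ^ 2 ≤ ∑ φ ∈ s, a φ ^ 2) :
    ∃ T : lp (fun _ : Φ => ℝ) 2 →L[ℝ] X, ∀ φ ∈ Φ, φ ∈ Set.range T := by
  classical
  have hB' : ∀ (s : Finset Φ) (a : Φ → ℝ), ‖∑ φ ∈ s, a φ • (φ : X)‖ ^ 2 ≤ ∑ φ ∈ s, a φ ^ 2 := by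
    intro s a
    have := hB (s.map (Function.Embedding.subtype _)) (fun x => if h : x ∈ Φ then a ⟨x, h⟩ else 0)
      (by intro x hx; obtain ⟨y, -, rfl⟩ := Finset.mem_map.mp hx; exact y.2)
    simpa [Finset.sum_map] using this
  have hs2 : ∀ a : lp (fun _ : Φ => ℝ) 2, HasSum (fun φ => a φ ^ 2) (‖a‖ ^ 2) := by
    intro a
    have := lp.hasSum_norm (p := 2) (by norm_num) a
    simpa using this
  have hsum : ∀ a : lp (fun _ : Φ => ℝ) 2, Summable (fun φ : Φ => a φ • (φ : X)) := by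
    intro a
    rw [summable_iff_vanishing_norm]
    intro ε hε
    obtain ⟨s, hs⟩ := summable_iff_vanishing_norm.mp (hs2 a).summable (ε ^ 2) (by positivity)
    refine ⟨s, fun t ht => ?_⟩
    exact lt_of_pow_lt_pow_left₀ 2 hε.le ((hB' t a).trans_lt ((le_abs_self _).trans_lt (hs t ht)))
  let L : lp (fun _ : Φ => ℝ) 2 →ₗ[ℝ] X :=
    { toFun := fun a => ∑' φ : Φ, a φ • (φ : X)
      map_add' := fun a b => by
        rw [← (hsum a).tsum_add (hsum b)]; congr 1; funext φ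
        rw [lp.coeFn_add, Pi.add_apply, add_smul]
      map_smul' := fun c a => by
        rw [RingHom.id_apply, ← (hsum a).tsum_const_smul c]; congr 1; funext φ
        rw [lp.coeFn_smul, Pi.smul_apply, smul_smul, smul_eq_mul] }
  have hn : ∀ a, ‖L a‖ ≤ 1 * ‖a‖ := by
    intro a
    rw [one_mul]
    refine le_of_tendsto' (hsum a).hasSum.norm fun s => ?_
    exact le_of_pow_le_pow_left₀ two_ne_zero (norm_nonneg _)
      ((hB' s a).trans (sum_le_hasSum s (fun _ _ => sq_nonneg _) (hs2 a)))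
  refine ⟨L.mkContinuous 1 hn, fun φ hφ => ⟨lp.single 2 ⟨φ, hφ⟩ 1, ?_⟩⟩
  change ∑' ψ : Φ, (lp.single 2 (⟨φ, hφ⟩ : Φ) (1 : ℝ) : lp (fun _ : Φ => ℝ) 2) ψ • (ψ : X) = φ
  rw [tsum_eq_single ⟨φ, hφ⟩]
  · simp
  · intro ψ hψ
    rw [lp.single_apply_ne _ _ _ hψ, zero_smul]

variable {α : Type} {m0 : MeasurableSpace α} {μ : Measure α}

lemma incl [IsFiniteMeasure μ] {p q : ℝ≥0∞} [Fact (1 ≤ p)] [Fact (1 ≤ q)] (hpq : p ≤ q) :
    ∃ J : Lp ℝ q μ →L[ℝ] Lp ℝ p μ, ∀ f, ⇑(J f) =ᵐ[μ] f := by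
  have mem : ∀ f : Lp ℝ q μ, MemLp f p μ := fun f => (Lp.memLp f).mono_exponent hpq
  let L : Lp ℝ q μ →ₗ[ℝ] Lp ℝ p μ :=
    { toFun := fun f => (mem f).toLp _
      map_add' := fun f g => by
        refine Lp.ext ?_
        filter_upwards [(mem (f + g)).coeFn_toLp, (mem f).coeFn_toLp, (mem g).coeFn_toLp,
          Lp.coeFn_add f g, Lp.coeFn_add ((mem f).toLp _) ((mem g).toLp _)] with a a1 a2 a3 a4 a5
        rw [a1, a5, Pi.add_apply, a2, a3, a4, Pi.add_apply]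
      map_smul' := fun c f => by
        refine Lp.ext ?_
        filter_upwards [(mem (c • f)).coeFn_toLp, (mem f).coeFn_toLp,
          Lp.coeFn_smul c f, Lp.coeFn_smul c ((mem f).toLp _)] with a a1 a2 a4 a5
        rw [RingHom.id_apply, a1, a5, Pi.smul_apply, a2, a4, Pi.smul_apply] }
  have hfin : μ Set.univ ^ (1 / p.toReal - 1 / q.toReal) ≠ ∞ := by
    refine ENNReal.rpow_ne_top_of_nonneg ?_ (measure_ne_top _ _)
    rcases eq_or_ne q ∞ with rfl | hq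
    · simp
    · have h1 : 0 < p.toReal := ENNReal.toReal_pos
        (lt_of_lt_of_le zero_lt_one (Fact.out : 1 ≤ p)).ne' (ne_top_of_le_ne_top hq hpq)
      exact sub_nonneg.mpr (one_div_le_one_div_of_le h1 (ENNReal.toReal_mono hq hpq))
  have hn : ∀ f, ‖L f‖ ≤ (μ Set.univ ^ (1 / p.toReal - 1 / q.toReal)).toReal * ‖f‖ := fun f => by
    change ‖(mem f).toLp _‖ ≤ _
    rw [Lp.norm_toLp, Lp.norm_def, ← ENNReal.toReal_mul, mul_comm]
    exact ENNReal.toReal_mono (ENNReal.mul_ne_top (Lp.eLpNorm_ne_top f) hfin)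
      (eLpNorm_le_eLpNorm_mul_rpow_measure_univ hpq (Lp.aestronglyMeasurable f))
  exact ⟨L.mkContinuous _ hn, fun f => (mem f).coeFn_toLp⟩

theorem main [IsFiniteMeasure μ] (p : ℝ≥0∞) [Fact (1 ≤ p)] (hp : p ≠ ∞) :
    ∃ (H : Type) (_ : NormedAddCommGroup H) (_ : InnerProductSpace ℝ H)
      (_ : CompleteSpace H) (T : H →L[ℝ] Lp ℝ p μ), DenseRange (⇑T) := by
  obtain ⟨j, hj⟩ := ENNReal.exists_nat_gt hp
  have hpq : p ≤ ((2 * j + 2 : ℕ) : ℝ≥0∞) := hj.le.trans (by exact_mod_cast (by omega))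
  haveI : Fact (1 ≤ ((2 * j + 2 : ℕ) : ℝ≥0∞)) := ⟨(Fact.out : 1 ≤ p).trans hpq⟩
  obtain ⟨Φ, hB, hV⟩ := exists_family (μ := μ) j rfl
  obtain ⟨T, hT⟩ := synth Φ hB
  obtain ⟨J, hJ⟩ := incl (μ := μ) hpq
  refine ⟨lp (fun _ : Φ => ℝ) 2, inferInstance, inferInstance, inferInstance, J.comp T, ?_⟩
  set W : Submodule ℝ (Lp ℝ p μ) := (LinearMap.range (J.comp T).toLinearMap).topologicalClosure
  have hW : IsClosed (W : Set (Lp ℝ p μ)) := Submodule.isClosed_topologicalClosure _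
  have h1 : V Φ ≤ W.comap J.toLinearMap := by
    refine V_le (hW.preimage J.continuous) fun φ h => ?_
    obtain ⟨a, ha⟩ := hT φ h
    exact Submodule.le_topologicalClosure _ ⟨a, by simp [ha]⟩
  intro f
  refine lemA le_rfl hp W hW (fun B hB => ?_) f (Lp.aestronglyMeasurable f)
  exact ⟨J (indicatorConstLp _ hB (measure_ne_top μ B) 1), h1 (hV _),
    (hJ _).trans indicatorConstLp_coeFn⟩

end H33.HG
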