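import Mathlib

set_option autoImplicit false
open Filter Topology

namespace Pool.Agent.H33.Hf

lemma obstr {Y H : Type} [TopologicalSpace Y] (S : Y ≃ₜ Y) [NormedAddCommGroup H]
    [InnerProductSpace ℂ H] (U : H ≃ₗᵢ[ℂ] H) (g : Y → H) (hi : Function.Injective g)
    (he : ∀ y, g (S y) = U (g y)) (hc : ∀ v : H, Continuous fun y => inner ℂ v (g y))
    (y0 y1 z : Y) (hz : S z = z) (N : ℕ → ℕ) (h1 : Tendsto (fun k => S^[N k] y0) atTop (𝓝 y1))
    (h2 : Tendsto (fun k => S.symm^[N k] y1) atTop (𝓝 z)) : y1 = z := by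
  have e : ∀ y, g (S y) - g z = U (g y - g z) := fun y => by rw [map_sub, ← he, ← he, hz]
  have key : ∀ (n : ℕ) (a b : Y), inner ℂ (g a - g z) (g (S^[n] b) - g z) =
      inner ℂ (g (S.symm^[n] a) - g z) (g b - g z) := by
    intro n
    induction n with
    | zero => intro a b; rfl
    | succ n ih =>
      intro a b
      rw [Function.iterate_succ_apply', Function.iterate_succ_apply, ← ih, e]
      conv_lhs => rw [← S.apply_symm_apply a, e]
      exact U.inner_map_map _ _
  have c1 : ∀ v : H, Continuous fun y => inner ℂ v (g y - g z) := fun v => by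
    simp only [inner_sub_right]; exact (hc v).sub continuous_const
  have c2 : ∀ v : H, Continuous fun y => inner ℂ (g y - g z) v := fun v => by
    have := Complex.continuous_conj.comp (c1 v)
    refine this.congr fun y => ?_
    simp only [Function.comp]
    exact inner_conj_symm _ _
  have t1 := ((c1 (g y1 - g z)).tendsto y1).comp h1
  have t2 := ((c2 (g y0 - g z)).tendsto z).comp h2
  have t3 := tendsto_nhds_unique (t1.congr fun k => key (N k) y1 y0) t2
  rw [sub_self, inner_zero_left, inner_self_eq_zero, sub_eq_zero] at t3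
  exact hi t3

section
variable {H : Type} [NormedAddCommGroup H] [InnerProductSpace ℂ H]

abbrev B (H : Type) [NormedAddCommGroup H] [InnerProductSpace ℂ H] : Type :=
  ↥(WeakDual.toStrongDual ⁻¹' Metric.closedBall (0 : StrongDual ℂ H) 1 : Set (WeakDual ℂ H))

lemma B_le (x : B H) : ‖WeakDual.toStrongDual x.1‖ ≤ 1 := by
  exact mem_closedBall_zero_iff.1 x.2

noncomputable def act (U : H ≃ₗᵢ[ℂ] H) (x : B H) : B H :=
  ⟨StrongDual.toWeakDual ((WeakDual.toStrongDual x.1).comp (U.symm : H →L[ℂ] H)), by
    simp only [Set.mem_preimage, mem_closedBall_zero_iff]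
    refine ContinuousLinearMap.opNorm_le_bound _ zero_le_one fun v => ?_
    have := (WeakDual.toStrongDual x.1).le_of_opNorm_le (B_le x) (U.symm v)
    rw [U.symm.norm_map] at this
    exact this⟩

lemma act_apply (U : H ≃ₗᵢ[ℂ] H) (x : B H) (v : H) : (act U x).1 v = x.1 (U.symm v) := rfl

lemma cont_ev (v : H) : Continuous fun x : B H => x.1 v :=
  (WeakDual.eval_continuous v).comp continuous_subtype_val

lemma cont_act (U : H ≃ₗᵢ[ℂ] H) : Continuous (act U) :=
  Continuous.subtype_mk (WeakDual.continuous_of_continuous_eval fun v => cont_ev (U.symm v)) _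

noncomputable def actH (U : H ≃ₗᵢ[ℂ] H) : B H ≃ₜ B H where
  toFun := act U
  invFun := act U.symm
  left_inv x := by
    apply Subtype.ext; apply DFunLike.ext; intro v
    rw [act_apply, act_apply]; simp
  right_inv x := by
    apply Subtype.ext; apply DFunLike.ext; intro v
    rw [act_apply, act_apply]; simp
  continuous_toFun := cont_act U
  continuous_invFun := cont_act U.symm

noncomputable def Ph (z : ℂ) : ℝ := max 0 (‖z‖ - 1 / 4)

lemma cont_Ph : Continuous Ph := by unfold Ph; fun_prop

noncomputable def pr (e : ℤ → H) (x : B H) : ℤ → ℝ := fun n => Ph (x.1 (e (-n)))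

lemma cont_pr (e : ℤ → H) : Continuous (pr e) := continuous_pi fun n => cont_Ph.comp (cont_ev _)

abbrev Y (e : ℤ → H) : Type := ↥(Set.range (pr e))

variable {U : H ≃ₗᵢ[ℂ] H} {e : ℤ → H}

lemma pr_act (he : ∀ n, U (e n) = e (n + 1)) (x : B H) (n : ℤ) :
    pr e (act U x) n = pr e x (n + 1) := by
  unfold pr
  rw [act_apply, show -n = -(n + 1) + 1 by ring, ← he, U.symm_apply_apply]

lemma pr_act' (he : ∀ n, U (e n) = e (n + 1)) (x : B H) (n : ℤ) :
    pr e (act U.symm x) n = pr e x (n - 1) := by
  unfold pr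
  rw [act_apply, U.symm_symm, he, show -n + 1 = -(n - 1) by ring]

noncomputable def sh (he : ∀ n, U (e n) = e (n + 1)) : Y e ≃ₜ Y e where
  toFun y := ⟨fun n => y.1 (n + 1), by
    obtain ⟨x, hx⟩ := y.2
    exact ⟨act U x, by funext n; rw [pr_act he, hx]⟩⟩
  invFun y := ⟨fun n => y.1 (n - 1), by
    obtain ⟨x, hx⟩ := y.2
    exact ⟨act U.symm x, by funext n; rw [pr_act' he, hx]⟩⟩
  left_inv y := by apply Subtype.ext; funext n; simp
  right_inv y := by apply Subtype.ext; funext n; simp
  continuous_toFun := by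
    refine Continuous.subtype_mk (continuous_pi fun n => ?_) _
    exact (continuous_apply (n + 1)).comp continuous_subtype_val
  continuous_invFun := by
    refine Continuous.subtype_mk (continuous_pi fun n => ?_) _
    exact (continuous_apply (n - 1)).comp continuous_subtype_val

lemma sh_iter (he : ∀ n, U (e n) = e (n + 1)) (k : ℕ) (y : Y e) (n : ℤ) :
    ((sh he)^[k] y).1 n = y.1 (n + k) := by
  induction k generalizing n with
  | zero => simp
  | succ k ih =>
    rw [Function.iterate_succ_apply']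
    show ((sh he)^[k] y).1 (n + 1) = _
    rw [ih]; congr 1; push_cast; ring

lemma sh_iter' (he : ∀ n, U (e n) = e (n + 1)) (k : ℕ) (y : Y e) (n : ℤ) :
    ((sh he).symm^[k] y).1 n = y.1 (n - k) := by
  induction k generalizing n with
  | zero => simp
  | succ k ih =>
    rw [Function.iterate_succ_apply']
    show ((sh he).symm^[k] y).1 (n - 1) = _
    rw [ih]; congr 1; push_cast; ring

lemma norm_e (he : ∀ n, U (e n) = e (n + 1)) (h0 : ‖e 0‖ = 1) (n : ℤ) : ‖e n‖ = 1 := by
  induction n using Int.induction_on with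
  | zero => exact h0
  | succ n ih => rw [← he, U.norm_map, ih]
  | pred n ih => rw [← U.norm_map, he, sub_add_cancel, ih]

noncomputable def pt (v : H) (hv : ‖v‖ ≤ 1) : B H :=
  ⟨StrongDual.toWeakDual (innerSL ℂ v), by
    simp only [Set.mem_preimage, mem_closedBall_zero_iff]
    show ‖innerSL ℂ v‖ ≤ 1
    rw [innerSL_apply_norm]; exact hv⟩

lemma pt_apply (v : H) (hv : ‖v‖ ≤ 1) (w : H) : (pt v hv).1 w = inner ℂ v w := rfl

theorem main [CompleteSpace H] [TopologicalSpace.SeparableSpace H]
    (he : ∀ n, U (e n) = e (n + 1)) (h0 : ‖e 0‖ = 1) (N : ℕ → ℕ)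
    (hp : ∀ m : ℤ, Tendsto (fun k => inner ℂ (e 0) (e (m + N k))) atTop (𝓝 (inner ℂ (e 0) (e m) / 2)))
    (hm : ∀ m : ℤ, Tendsto (fun k => inner ℂ (e 0) (e (m - N k))) atTop (𝓝 (inner ℂ (e 0) (e m) / 2))) :
    ¬ (∀ (X Y : Type) [MetricSpace X] [CompactSpace X] [MetricSpace Y] [CompactSpace Y]
      (T : X ≃ₜ X) (S : Y ≃ₜ Y) (π : X → Y),
      Continuous π → Function.Surjective π → (∀ x, π (T x) = S (π x)) →
      (∃ (H : Type) (_ : NormedAddCommGroup H) (_ : InnerProductSpace ℂ H) (_ : CompleteSpace H)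
          (U : H ≃ₗᵢ[ℂ] H) (f : X → H),
          Function.Injective f ∧ (∀ x, ‖f x‖ ≤ 1) ∧ (∀ x, f (T x) = U (f x)) ∧
          ∀ v : H, Continuous (fun x => inner ℂ v (f x))) →
      (∃ (H : Type) (_ : NormedAddCommGroup H) (_ : InnerProductSpace ℂ H) (_ : CompleteSpace H)
          (U : H ≃ₗᵢ[ℂ] H) (g : Y → H),
          Function.Injective g ∧ (∀ y, ‖g y‖ ≤ 1) ∧ (∀ y, g (S y) = U (g y)) ∧
          ∀ v : H, Continuous (fun y => inner ℂ v (g y)))) := by
  intro hh
  have hK := WeakDual.isCompact_closedBall (𝕜 := ℂ) (E := H) 0 1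
  have i1 : CompactSpace (B H) := isCompact_iff_compactSpace.1 hK
  have i2 : TopologicalSpace.MetrizableSpace (B H) := WeakDual.metrizable_of_isCompact ℂ H _ hK
  have i3 : CompactSpace (Y e) := isCompact_iff_compactSpace.1 (isCompact_range (cont_pr e))
  have i4 : TopologicalSpace.MetrizableSpace (Y e) := inferInstance
  obtain ⟨H', _, _, _, U', g, hi, -, hg, hc⟩ := @hh (B H) (Y e)
    (TopologicalSpace.metrizableSpaceMetric _) i1 (TopologicalSpace.metrizableSpaceMetric _) i3
    (actH U) (sh he) (fun x => ⟨pr e x, x, rfl⟩) (Continuous.subtype_mk (cont_pr e) _)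
    (by rintro ⟨_, x, rfl⟩; exact ⟨x, rfl⟩)
    (fun x => Subtype.ext (funext fun n => pr_act he x n))
    ⟨H, _, _, inferInstance, U,
      fun x => (InnerProductSpace.toDual ℂ H).symm (WeakDual.toStrongDual x.1),
      fun x y h => Subtype.ext (WeakDual.toStrongDual.injective
        ((InnerProductSpace.toDual ℂ H).symm.injective h)),
      fun x => by rw [LinearIsometryEquiv.norm_map]; exact B_le x,
      fun x => by
        apply ext_inner_right ℂ
        intro v
        conv_rhs => rw [← U.apply_symm_apply v, U.inner_map_map]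
        rw [InnerProductSpace.toDual_symm_apply, InnerProductSpace.toDual_symm_apply]
        rfl,
      fun v => by
        refine (Complex.continuous_conj.comp (cont_ev v)).congr fun x => ?_
        rw [← inner_conj_symm, InnerProductSpace.toDual_symm_apply]
        rfl⟩
  have hv1 : ‖(1 / 2 : ℂ) • e 0‖ ≤ 1 := by rw [norm_smul, h0]; norm_num
  have in1 : ∀ w, inner ℂ ((1 / 2 : ℂ) • e 0) w = inner ℂ (e 0) w / 2 := fun w => by
    rw [inner_smul_left, map_div₀, map_one, map_ofNat]; ring
  have key := obstr (sh he) U' g hi hg hc ⟨_, pt (e 0) h0.le, rfl⟩ ⟨_, pt _ hv1, rfl⟩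
    ⟨_, pt 0 (by simp), rfl⟩ (by
      apply Subtype.ext; funext n
      show Ph _ = Ph _
      simp only [pt_apply, inner_zero_left]) N (by
      rw [tendsto_subtype_rng, tendsto_pi_nhds]
      intro n
      simp only [sh_iter, pr, pt_apply, in1]
      refine ((cont_Ph.tendsto _).comp (hm (-n))).congr fun k => ?_
      simp only [Function.comp]; congr 3; ring) (by
      rw [tendsto_subtype_rng, tendsto_pi_nhds]
      intro n
      simp only [sh_iter', pr, pt_apply, in1, inner_zero_left]
      have h1 : Ph (inner ℂ (e 0) (e (-n)) / 2 / 2) = Ph 0 := by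
        have := norm_inner_le_norm (𝕜 := ℂ) (e 0) (e (-n))
        rw [h0, norm_e he h0] at this
        unfold Ph
        rw [max_eq_left, max_eq_left (by norm_num)]
        simp only [norm_div, Complex.norm_ofNat]; linarith
      rw [← h1]
      refine ((cont_Ph.tendsto _).comp ((hp (-n)).div_const 2)).congr fun k => ?_
      simp only [Function.comp]; congr 4; ring)
  have h2 := congrFun (congrArg Subtype.val key) 0
  simp only [pr, pt_apply, in1, inner_zero_left, neg_zero, inner_self_eq_norm_sq_to_K, h0, Ph] at h2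
  norm_num at h2

end

end Pool.Agent.H33.Hf
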