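import Pool.Agent.H33.Hf

set_option autoImplicit false
open Filter Topology MeasureTheory

namespace Pool.Agent.H33.Hf

abbrev Om : Type := ℕ → ZMod 2

noncomputable def mu : Measure Om := Measure.addHaarMeasure ⊤

lemma mu_prob : IsProbabilityMeasure mu := ⟨by
  have := Measure.addHaarMeasure_self (G := Om) (K₀ := ⊤)
  simpa [mu] using this⟩

lemma mu_inv : mu.IsAddLeftInvariant := by unfold mu; infer_instance

noncomputable def ex (x : ℝ) : ℂ := Complex.exp (x * Complex.I)

lemma ex_add (x y : ℝ) : ex (x + y) = ex x * ex y := by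
  unfold ex; rw [← Complex.exp_add]; congr 1; push_cast; ring

lemma norm_ex (x : ℝ) : ‖ex x‖ = 1 := Complex.norm_exp_ofReal_mul_I x

lemma ex_zero : ex 0 = 1 := by simp [ex]

lemma cont_ex : Continuous ex := by unfold ex; fun_prop

lemma ex_int (n : ℤ) : ex (n * (2 * Real.pi)) = 1 := by
  unfold ex
  have := Complex.exp_int_mul_two_pi_mul_I n
  rw [← this]; congr 1; push_cast; ring

lemma ex_third : ex (Real.pi / 3) + ex (-(Real.pi / 3)) = 1 := by
  unfold ex
  have h := Complex.two_cos ((Real.pi / 3 : ℝ) : ℂ)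
  rw [← Complex.ofReal_cos, Real.cos_pi_div_three] at h
  rw [Complex.ofReal_neg, ← h]; norm_num

def r (a : ZMod 2) : ℤ := if a = 0 then 1 else -1

lemma r_flip (a : ZMod 2) : r (1 + a) = -r a := by revert a; decide

lemma r_cases (a : ZMod 2) : r a = 1 ∨ r a = -1 := by revert a; decide

lemma abs_r (a : ZMod 2) : |(r a : ℝ)| = 1 := by rcases r_cases a with h | h <;> simp [h]

def N (k : ℕ) : ℕ := 6 ^ (k ^ 2)

noncomputable def th (l : ℕ) : ℝ := Real.pi / 3 / N l

lemma N_pos (k : ℕ) : (0 : ℝ) < N k := by unfold N; positivity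

lemma th_pos (l : ℕ) : 0 < th l := by unfold th; have := N_pos l; have := Real.pi_pos; positivity

lemma ratio_le (k l : ℕ) : (N k : ℝ) * th (l + (k + 1)) ≤ (1 / 2) ^ k * (1 / 2) ^ l := by
  have h1 : 6 * 2 ^ (k + l) * N k ≤ N (l + (k + 1)) := by
    unfold N
    calc 6 * 2 ^ (k + l) * 6 ^ k ^ 2 ≤ 6 * 6 ^ (k + l) * 6 ^ k ^ 2 := by gcongr; norm_num
      _ = 6 ^ (1 + (k + l) + k ^ 2) := by ring
      _ ≤ _ := Nat.pow_le_pow_right (by norm_num) (by nlinarith)
  have h2 : (6 : ℝ) * 2 ^ (k + l) * N k ≤ N (l + (k + 1)) := by exact_mod_cast h1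
  have h3 := N_pos (l + (k + 1))
  have h4 := N_pos k
  unfold th
  rw [← pow_add, one_div_pow, ← mul_div_assoc, div_le_div_iff₀ h3 (by positivity)]
  have h5 : (0 : ℝ) < 2 ^ (k + l) := by positivity
  nlinarith [Real.pi_le_four, mul_pos h4 h5]

lemma th_le (l : ℕ) : th (l + 1) ≤ (1 / 2) ^ l := by
  have := ratio_le 0 l
  simpa [N] using this

lemma summ_th : Summable th :=
  (summable_nat_add_iff 1).1 (Summable.of_nonneg_of_le (fun _ => (th_pos _).le) th_le
    summable_geometric_two)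

noncomputable def tm (ω : Om) (l : ℕ) : ℝ := th l * r (ω l)

lemma norm_tm (ω : Om) (l : ℕ) : ‖tm ω l‖ = th l := by
  unfold tm; rw [Real.norm_eq_abs, abs_mul, abs_r, mul_one, abs_of_pos (th_pos l)]

lemma summ_tm (ω : Om) : Summable (tm ω) :=
  Summable.of_norm_bounded summ_th fun l => (norm_tm ω l).le

noncomputable def g (ω : Om) : ℝ := ∑' l, tm ω l

lemma cont_g : Continuous g := by
  refine continuous_tsum (fun l => ?_) summ_th fun l ω => (norm_tm ω l).le
  unfold tm
  exact continuous_const.mul ((continuous_of_discreteTopology (f := fun a : ZMod 2 => (r a : ℝ))).comp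
    (continuous_apply l))

lemma g_flip (k : ℕ) (ω : Om) : g (Pi.single k 1 + ω) = g ω - 2 * tm ω k := by
  unfold g
  rw [← tsum_ite_eq k (fun _ => 2 * tm ω k), ← (summ_tm ω).tsum_sub (hasSum_ite_eq k _).summable]
  congr 1; funext l
  unfold tm
  by_cases h : l = k
  · subst h; simp [r_flip]; ring
  · simp [h]

noncomputable def tl (k : ℕ) (ω : Om) : ℝ := ∑' l, (N k : ℝ) * tm ω (l + (k + 1))

lemma tl_le (k : ℕ) (ω : Om) : ‖tl k ω‖ ≤ (1 / 2) ^ k * 2 := by
  refine tsum_of_norm_bounded (hasSum_geometric_two.mul_left _) fun l => ?_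
  rw [norm_mul, norm_tm, Real.norm_eq_abs, abs_of_pos (N_pos k)]
  exact ratio_le k l

lemma N_g (k : ℕ) (ω : Om) : ∃ n : ℤ, N k * g ω = n * (2 * Real.pi) + Real.pi / 3 * r (ω k) + tl k ω := by
  have h1 : ∀ l ∈ Finset.range k, ∃ n : ℤ, N k * tm ω l = n * (2 * Real.pi) := by
    intro l hl
    have hl := Finset.mem_range.1 hl
    obtain ⟨j, hj⟩ : ∃ j, k ^ 2 = l ^ 2 + 1 + j := Nat.exists_eq_add_of_le (by nlinarith)
    refine ⟨6 ^ j * r (ω l), ?_⟩
    unfold tm th N
    rw [hj]; push_cast; field_simp; ring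
  choose! n hn using h1
  refine ⟨∑ l ∈ Finset.range k, n l, ?_⟩
  unfold g tl
  rw [← (summ_tm ω).sum_add_tsum_nat_add (k + 1), Finset.sum_range_succ, tsum_mul_left, mul_add,
    mul_add, Finset.mul_sum, Finset.sum_congr rfl hn, ← Finset.sum_mul]
  push_cast
  congr 2
  unfold tm th
  have := N_pos k
  field_simp

lemma lim (m s : ℤ) (hs : s = 1 ∨ s = -1) :
    Tendsto (fun k => ∫ ω, ex ((m + s * N k : ℤ) * g ω) ∂mu) atTop (𝓝 ((∫ ω, ex (m * g ω) ∂mu) / 2)) := by
  have := mu_prob
  have := mu_inv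
  have hc : ∀ t : ℝ, Continuous fun ω => ex (t * g ω) := fun t =>
    cont_ex.comp (continuous_const.mul cont_g)
  have hint : ∀ {F : Om → ℂ}, Continuous F → Integrable F mu := fun hF =>
    hF.integrable_of_hasCompactSupport (HasCompactSupport.of_compactSpace _)
  have h1 : ∀ k, ∫ ω, ex ((m + s * N k : ℤ) * g ω) ∂mu = (∫ ω, (ex ((m + s * N k : ℤ) * g ω) +
      ex ((m + s * N k : ℤ) * g (Pi.single k 1 + ω))) ∂mu) / 2 := by
    intro k
    have hc2 : Continuous fun ω => ex ((m + s * N k : ℤ) * g (Pi.single k 1 + ω)) :=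
      (hc _).comp (continuous_add_left (Pi.single k 1 : Om))
    rw [integral_add (hint (hc _)) (hint hc2),
      integral_add_left_eq_self (fun ω => ex ((m + s * N k : ℤ) * g ω))]
    ring
  refine (Tendsto.div_const ?_ 2).congr fun k => (h1 k).symm
  refine tendsto_integral_of_dominated_convergence (fun _ => 2) (fun k => ?_) (integrable_const _)
    (fun k => Eventually.of_forall fun ω => ?_) (Eventually.of_forall fun ω => ?_)
  · exact ((hc _).add ((hc _).comp (continuous_const.add continuous_id))).aestronglyMeasurable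
  · refine (norm_add_le _ _).trans ?_
    rw [norm_ex, norm_ex]; norm_num
  · have e : ∀ k, ex ((m + s * N k : ℤ) * g ω) + ex ((m + s * N k : ℤ) * g (Pi.single k 1 + ω)) =
        ex (m * g ω) * (ex (s * tl k ω) * (1 + (ex (-2 * m * tm ω k) - 1) *
          ex (-(s * (Real.pi / 3 * r (ω k)))))) := by
      intro k
      obtain ⟨n, hn⟩ := N_g k ω
      have a1 : (N k : ℝ) * tm ω k = Real.pi / 3 * r (ω k) := by
        unfold tm th; have := N_pos k; field_simp
      have a2 : ((m + s * N k : ℤ) : ℝ) * g ω = m * g ω + s * tl k ω +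
          s * (Real.pi / 3 * r (ω k)) + (s * n : ℤ) * (2 * Real.pi) := by
        push_cast; linear_combination (s : ℝ) * hn
      have a3 : ((m + s * N k : ℤ) : ℝ) * g (Pi.single k 1 + ω) = m * g ω + s * tl k ω +
          -2 * m * tm ω k + -(s * (Real.pi / 3 * r (ω k))) + (s * n : ℤ) * (2 * Real.pi) := by
        rw [g_flip]; push_cast; linear_combination (s : ℝ) * hn - 2 * (s : ℝ) * a1
      have a4 : ex (s * (Real.pi / 3 * r (ω k))) + ex (-(s * (Real.pi / 3 * r (ω k)))) = 1 := by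
        rcases hs with h | h <;> rcases r_cases (ω k) with h' | h' <;> rw [h, h'] <;>
          simp only [Int.cast_one, Int.cast_neg, mul_one, one_mul, mul_neg, neg_mul, neg_neg]
        · exact ex_third
        · rw [add_comm]; exact ex_third
        · rw [add_comm]; exact ex_third
        · exact ex_third
      rw [a2, a3]
      simp only [ex_add, ex_int]
      linear_combination ex (m * g ω) * ex (s * tl k ω) * a4
    simp only [e]
    have t0 : Tendsto (fun k : ℕ => (1 / 2 : ℝ) ^ k * 2) atTop (𝓝 (0 * 2)) :=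
      (tendsto_pow_atTop_nhds_zero_of_lt_one (by norm_num) (by norm_num)).mul_const 2
    rw [zero_mul] at t0
    have t1 : Tendsto (fun k => tl k ω) atTop (𝓝 0) := squeeze_zero_norm (fun k => tl_le k ω) t0
    have t2 : Tendsto (fun k => ex (s * tl k ω)) atTop (𝓝 (ex (s * 0))) :=
      (cont_ex.tendsto _).comp (t1.const_mul _)
    have t3 : Tendsto (fun k => ex (-2 * m * tm ω k) - 1) atTop (𝓝 (ex (-2 * m * 0) - 1)) :=
      ((cont_ex.tendsto _).comp ((summ_tm ω).tendsto_atTop_zero.const_mul _)).sub_const 1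
    rw [mul_zero, ex_zero] at t2
    rw [mul_zero, ex_zero, sub_self] at t3
    have t4 : Tendsto (fun k => (ex (-2 * m * tm ω k) - 1) * ex (-(s * (Real.pi / 3 * r (ω k)))))
        atTop (𝓝 0) := by
      refine squeeze_zero_norm (fun k => ?_) (tendsto_zero_iff_norm_tendsto_zero.1 t3)
      rw [norm_mul, norm_ex, mul_one]
    have := (t2.mul (t4.const_add 1)).const_mul (ex (m * g ω))
    simpa using this

abbrev L : Type := Lp ℂ 2 mu

noncomputable def mul (t : ℝ) (f : L) : L :=
  MemLp.toLp (fun ω => ex (t * g ω) * f ω) ((Lp.memLp f).of_le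
    ((cont_ex.comp (continuous_const.mul cont_g)).aestronglyMeasurable.mul (Lp.aestronglyMeasurable f))
    (Eventually.of_forall fun ω => by rw [norm_mul, norm_ex, one_mul]))

lemma mul_ae (t : ℝ) (f : L) : mul t f =ᵐ[mu] fun ω => ex (t * g ω) * f ω := MemLp.coeFn_toLp _

lemma mul_mul (t : ℝ) (f : L) : mul t (mul (-t) f) = f := by
  apply Lp.ext
  filter_upwards [mul_ae t (mul (-t) f), mul_ae (-t) f] with ω h1 h2
  rw [h1, h2, ← mul_assoc, ← ex_add, show t * g ω + -t * g ω = 0 by ring, ex_zero, one_mul]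

noncomputable def UU : L ≃ₗᵢ[ℂ] L where
  toFun := mul 1
  invFun := mul (-1)
  left_inv f := by have := mul_mul (-1) f; rwa [neg_neg] at this
  right_inv f := mul_mul 1 f
  map_add' f h := by
    apply Lp.ext
    filter_upwards [mul_ae 1 (f + h), mul_ae 1 f, mul_ae 1 h, Lp.coeFn_add f h,
      Lp.coeFn_add (mul 1 f) (mul 1 h)] with ω h1 h2 h3 h4 h5
    rw [h1, h5, h4, Pi.add_apply, Pi.add_apply, h2, h3, mul_add]
  map_smul' c f := by
    apply Lp.ext
    filter_upwards [mul_ae 1 (c • f), mul_ae 1 f, Lp.coeFn_smul c f,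
      Lp.coeFn_smul c (mul 1 f)] with ω h1 h2 h3 h4
    rw [RingHom.id_apply, h1, h4, h3, Pi.smul_apply, Pi.smul_apply, h2, smul_eq_mul, smul_eq_mul]
    ring
  norm_map' f := by
    show ‖mul 1 f‖ = ‖f‖
    rw [Lp.norm_def, Lp.norm_def]
    congr 1
    apply eLpNorm_congr_norm_ae
    filter_upwards [mul_ae 1 f] with ω h1
    rw [h1, norm_mul, norm_ex, one_mul]

noncomputable def ee (n : ℤ) : L :=
  have := mu_prob
  ContinuousMap.toLp 2 mu ℂ ⟨fun ω => ex (n * g ω), cont_ex.comp (continuous_const.mul cont_g)⟩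

lemma ee_ae (n : ℤ) : ee n =ᵐ[mu] fun ω => ex (n * g ω) :=
  have := mu_prob
  ContinuousMap.coeFn_toLp (p := 2) (𝕜 := ℂ) mu _

lemma UU_ee (n : ℤ) : UU (ee n) = ee (n + 1) := by
  apply Lp.ext
  filter_upwards [mul_ae 1 (ee n), ee_ae n, ee_ae (n + 1)] with ω h1 h2 h3
  show mul 1 (ee n) ω = _
  rw [h1, h2, h3, ← ex_add]; congr 1; push_cast; ring

lemma inner_ee (n : ℤ) : inner ℂ (ee 0) (ee n) = ∫ ω, ex (n * g ω) ∂mu := by
  have := mu_prob
  unfold ee
  rw [ContinuousMap.inner_toLp]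
  simp [ex_zero]

lemma norm_ee : ‖ee 0‖ = 1 := by
  have := mu_prob
  have h := inner_ee 0
  rw [inner_self_eq_norm_sq_to_K] at h
  simp only [Int.cast_zero, zero_mul, ex_zero, integral_const, probReal_univ, one_smul] at h
  have h2 : ‖ee 0‖ ^ 2 = 1 := by
    have h3 : ((‖ee 0‖ ^ 2 : ℝ) : ℂ) = ((1 : ℝ) : ℂ) := by push_cast; exact h
    exact Complex.ofReal_injective h3
  exact (pow_eq_one_iff_of_nonneg (norm_nonneg _) two_ne_zero).1 h2

lemma sepL : TopologicalSpace.SeparableSpace L := by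
  have := mu_prob
  have : Fact ((2 : ENNReal) ≠ ⊤) := ⟨by simp⟩
  have : MeasurableSpace.CountablyGenerated Om := inferInstance
  have : IsSeparable mu := inferInstance
  have : SecondCountableTopology L := Lp.SecondCountableTopology
  infer_instance

lemma hp (m : ℤ) : Tendsto (fun k => inner ℂ (ee 0) (ee (m + N k))) atTop
    (𝓝 (inner ℂ (ee 0) (ee m) / 2)) := by
  simp only [inner_ee]
  have := lim m 1 (Or.inl rfl)
  simpa only [one_mul] using this

lemma hm (m : ℤ) : Tendsto (fun k => inner ℂ (ee 0) (ee (m - N k))) atTop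
    (𝓝 (inner ℂ (ee 0) (ee m) / 2)) := by
  simp only [inner_ee]
  have := lim m (-1) (Or.inr rfl)
  simpa only [neg_mul, one_mul, ← sub_eq_add_neg] using this

end Pool.Agent.H33.Hf
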