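import Pool.Agent.H33.HrD
import Pool.Agent.H33.Hf2

set_option autoImplicit false
open Filter Topology MeasureTheory

namespace Pool.Agent.H33.Hr
open Pool.Agent.H33.Hf

lemma no_group {X Y : Type} [TopologicalSpace X] [CompactSpace X] [T2Space X]
    [TopologicalSpace Y] [T2Space Y] (T : X ≃ₜ X) (S : Y ≃ₜ Y) (hT : HRep T) (hG : GroupFactor T S)
    (y0 y1 z : Y) (hz : S z = z) (N : ℕ → ℕ) (h1 : Tendsto (fun k => S^[N k] y0) atTop (𝓝 y1))
    (h2 : Tendsto (fun k => S.symm^[N k] y1) atTop (𝓝 z)) : y1 = z := by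
  obtain ⟨H, _, _, _, U, f, hi, he, hc⟩ := hT
  obtain ⟨K, π, hK, hcom, ⟨πc, πs, πe⟩, hfib⟩ := hG
  have key : ∀ (n : ℕ) (a b : X), inner ℂ (f a) (f (T^[n] b)) = inner ℂ (f (T.symm^[n] a)) (f b) := by
    intro n
    induction n with
    | zero => intro a b; rfl
    | succ n ih =>
      intro a b
      rw [Function.iterate_succ_apply', Function.iterate_succ_apply, ← ih, he]
      conv_lhs => rw [← T.apply_symm_apply a, he]
      exact U.inner_map_map _ _
  have c2 : ∀ v : H, Continuous fun y => inner ℂ (f y) v := fun v => by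
    refine (Complex.continuous_conj.comp (hc v)).congr fun y => ?_
    simp only [Function.comp]
    exact inner_conj_symm _ _
  let p : Ultrafilter ℕ := Ultrafilter.of atTop
  have hp : (p : Filter ℕ) ≤ atTop := Ultrafilter.of_le _
  have lim : ∀ u : ℕ → X, ∃ a, Tendsto u p (𝓝 a) := fun u => by
    obtain ⟨a, _, ha⟩ := isCompact_univ.ultrafilter_le_nhds (p.map u) (by simp)
    exact ⟨a, ha⟩
  have key2 : ∀ a a' b b' : X, Tendsto (fun k => T.symm^[N k] a) p (𝓝 a') →
      Tendsto (fun k => T^[N k] b) p (𝓝 b') → inner ℂ (f a) (f b') = inner ℂ (f a') (f b) := by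
    intro a a' b b' ha hb
    exact tendsto_nhds_unique ((((hc (f a)).tendsto b').comp hb).congr fun k => key (N k) a b)
      (((c2 (f b)).tendsto a').comp ha)
  have πi : ∀ n x, π (T^[n] x) = S^[n] (π x) := fun n x =>
    (Function.Semiconj.iterate_right (f := π) πe n) x
  have πi' : ∀ n x, π (T.symm^[n] x) = S.symm^[n] (π x) := fun n x =>
    (Function.Semiconj.iterate_right (f := π) (ga := T.symm) (gb := S.symm) (fun x => by
      apply S.injective; rw [← πe]; simp) n) x
  obtain ⟨x0, rfl⟩ := πs y0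
  obtain ⟨x1, hx1⟩ := lim fun k => T^[N k] x0
  obtain ⟨x2, hx2⟩ := lim fun k => T.symm^[N k] x1
  have e1 : π x1 = y1 :=
    tendsto_nhds_unique (((πc.tendsto _).comp hx1).congr fun k => πi _ _) (h1.mono_left hp)
  have e2 : π x2 = z := by
    refine tendsto_nhds_unique (((πc.tendsto _).comp hx2).congr fun k => ?_) (h2.mono_left hp)
    simp only [Function.comp]; rw [πi', e1]
  have hκ : ∀ k, ∃ κ ∈ K, κ x2 = T^[N k] x2 := fun k =>
    (hfib _ _).1 (by rw [πi, e2, Function.iterate_fixed hz])
  choose κ hκK hκ using hκ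
  obtain ⟨_, ⟨κ0, hκ0, rfl⟩, hl⟩ := hK.ultrafilter_le_nhds (p.map fun k => (κ k : C(X, X)))
    (by
      rw [Ultrafilter.coe_map, le_principal_iff, mem_map]
      exact univ_mem' fun k => ⟨κ k, hκK k, rfl⟩)
  have hl : Tendsto (fun k => (κ k : C(X, X))) p (𝓝 (κ0 : C(X, X))) := hl
  have ev : ∀ (u : ℕ → X) (a : X), Tendsto u p (𝓝 a) → Tendsto (fun k => κ k (u k)) p (𝓝 (κ0 a)) :=
    fun u a hu => (continuous_eval.tendsto ((κ0 : C(X, X)), a)).comp (hl.prodMk_nhds hu)
  have com : ∀ κ ∈ K, ∀ n x, κ (T.symm^[n] x) = T.symm^[n] (κ x) := fun κ hκ n x =>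
    (Function.Semiconj.iterate_right (f := κ) (ga := T.symm) (gb := T.symm) (fun x => by
      apply T.injective; rw [← hcom κ hκ]; simp) n) x
  have hx3 : Tendsto (fun k => T^[N k] x2) p (𝓝 (κ0 x2)) :=
    (ev (fun _ => x2) x2 tendsto_const_nhds).congr hκ
  obtain ⟨w, hw⟩ := lim fun k => T.symm^[N k] x2
  have e3 : κ0 w = x2 := by
    refine tendsto_nhds_unique (ev _ _ hw) (tendsto_const_nhds.congr fun k => ?_)
    rw [com _ (hκK k), hκ]
    exact ((Function.LeftInverse.iterate T.symm_apply_apply (N k)) x2).symm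
  have hx4 : Tendsto (fun k => T.symm^[N k] (κ0 x2)) p (𝓝 x2) := by
    have := (κ0.continuous.tendsto w).comp hw
    rw [e3] at this
    exact this.congr fun k => com _ hκ0 _ _
  have a1 := key2 _ _ _ _ hx2 hx1
  have a2 := key2 _ _ _ _ hx4 hx1
  have a3 := key2 _ _ _ _ hx2 hx3
  have a4 := key2 _ _ _ _ hx4 hx3
  have a5 : inner ℂ (f x1 - f (κ0 x2)) (f x1 - f (κ0 x2)) = 0 := by
    rw [inner_sub_left, inner_sub_right, inner_sub_right, a1, a2, a3, a4]; ring
  rw [inner_self_eq_zero, sub_eq_zero] at a5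
  rw [← e1, ← e2, hi a5]
  exact ((hfib _ _).2 ⟨κ0, hκ0, rfl⟩).symm

lemma self_group {Y : Type} [TopologicalSpace Y] (S : Y ≃ₜ Y) : GroupFactor S S := by
  refine ⟨⊥, id, by simp, ?_, ⟨continuous_id, Function.surjective_id, fun _ => rfl⟩, ?_⟩
  · intro κ hκ x
    rw [Subgroup.mem_bot.1 hκ]; rfl
  · intro x x'
    simp

lemma gen (ν : Measure UnitAddCircle) [h : IsFiniteMeasure ν] :
    (fun n : ℤ => ∫ t, fourier (-n) t ∂ν) ∈ BZ :=
  Submodule.subset_span ⟨ν, h, fun _ => rfl⟩

lemma one_mem : (1 : ℤ → ℂ) ∈ BZ := by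
  have := gen (Measure.dirac 0)
  convert this using 1
  funext n; simp

lemma mul_mem {a b : ℤ → ℂ} (ha : a ∈ BZ) (hb : b ∈ BZ) : a * b ∈ BZ := by
  induction ha using Submodule.span_induction with
  | zero => simp
  | add x y _ _ h1 h2 => rw [add_mul]; exact BZ.add_mem h1 h2
  | smul c x _ h1 => rw [smul_mul_assoc]; exact BZ.smul_mem c h1
  | mem x hx =>
    induction hb using Submodule.span_induction with
    | zero => simp
    | add x y _ _ h1 h2 => rw [mul_add]; exact BZ.add_mem h1 h2
    | smul c x _ h1 => rw [mul_smul_comm]; exact BZ.smul_mem c h1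
    | mem y hy =>
      obtain ⟨ν, _, h1⟩ := hx
      obtain ⟨ν', _, h2⟩ := hy
      have := gen ((ν.prod ν').map fun p => p.1 + p.2)
      convert this using 1
      funext n
      rw [integral_map (by fun_prop) (fourier (-n)).continuous.aestronglyMeasurable, Pi.mul_apply,
        h1, h2, ← integral_prod_mul]
      congr 1; funext p
      simp only [fourier_apply, smul_add, AddCircle.toCircle_add, Circle.coe_mul]

lemma star_mem {a : ℤ → ℂ} (ha : a ∈ BZ) : star a ∈ BZ := by
  induction ha using Submodule.span_induction with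
  | zero => simp
  | add x y _ _ h1 h2 => rw [star_add]; exact BZ.add_mem h1 h2
  | smul c x _ h1 => rw [star_smul]; exact BZ.smul_mem _ h1
  | mem x hx =>
    obtain ⟨ν, _, h1⟩ := hx
    have := gen (ν.map fun p => -p)
    convert this using 1
    funext n
    rw [integral_map (by fun_prop) (fourier (-n)).continuous.aestronglyMeasurable, Pi.star_apply,
      h1, Complex.star_def, ← integral_conj]
    congr 1; funext p
    rw [← fourier_neg]
    simp only [fourier_apply, neg_smul, smul_neg]

lemma dens (ν : Measure UnitAddCircle) [IsFiniteMeasure ν] (ρ : UnitAddCircle → ℝ)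
    (hρ : Continuous ρ) (h0 : ∀ t, 0 ≤ ρ t) :
    (fun n : ℤ => ∫ t, (ρ t : ℂ) * fourier (-n) t ∂ν) ∈ BZ := by
  have hc : Continuous fun t => (ρ t).toNNReal := continuous_real_toNNReal.comp hρ
  have := IsLocallyFiniteMeasure.withDensity_coe (μ := ν) hc
  have := gen (ν.withDensity fun t => (ρ t).toNNReal)
  convert this using 1
  funext n
  rw [integral_withDensity_eq_integral_smul hc.measurable]
  congr 1; funext t
  rw [NNReal.smul_def, Real.coe_toNNReal _ (h0 t), Complex.real_smul]

lemma shift_gen (ν : Measure UnitAddCircle) [IsFiniteMeasure ν] (a : ℤ) :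
    (fun n : ℤ => ∫ t, fourier (-(n + a)) t ∂ν) ∈ BZ := by
  have hb : ∀ t : UnitAddCircle, ‖fourier (-a) t‖ = 1 := fun t => Circle.norm_coe _
  have hc := (fourier (T := 1) (-a)).continuous
  have h1 := dens ν (fun t => 1 + (fourier (-a) t).re) (by fun_prop) fun t => by
    have := abs_le.1 ((Complex.abs_re_le_norm _).trans (hb t).le); linarith [this.1]
  have h2 := dens ν (fun t => 1 + (fourier (-a) t).im) (by fun_prop) fun t => by
    have := abs_le.1 ((Complex.abs_im_le_norm _).trans (hb t).le); linarith [this.1]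
  have h3 := BZ.sub_mem (BZ.add_mem h1 (BZ.smul_mem Complex.I h2))
    (BZ.smul_mem (1 + Complex.I) (gen ν))
  convert h3 using 1
  funext n
  have hn := (fourier (T := 1) (-n)).continuous
  have hint : ∀ {F : UnitAddCircle → ℂ}, Continuous F → Integrable F ν := fun hF =>
    hF.integrable_of_hasCompactSupport (HasCompactSupport.of_compactSpace _)
  simp only [Pi.sub_apply, Pi.add_apply, Pi.smul_apply, smul_eq_mul]
  rw [← integral_const_mul, ← integral_const_mul, ← integral_add (hint (by fun_prop))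
    (hint (by fun_prop)), ← integral_sub (hint (by fun_prop)) (hint (by fun_prop))]
  congr 1; funext t
  rw [neg_add, fourier_add]
  have := Complex.re_add_im (fourier (-a) t)
  push_cast
  linear_combination (-fourier (-n) t) * this

noncomputable def ph (n : ℤ) : ℂ := ∫ ω, ex (n * g ω) ∂mu

lemma ph_mem (a : ℤ) : (fun n => ph (n + a)) ∈ BZ := by
  have := mu_prob
  have hc : Continuous fun ω => ((-g ω / (2 * Real.pi) : ℝ) : UnitAddCircle) :=
    (AddCircle.continuous_mk' (1 : ℝ)).comp (cont_g.neg.div_const _)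
  have := shift_gen (mu.map fun ω => ((-g ω / (2 * Real.pi) : ℝ) : UnitAddCircle)) a
  convert this using 1
  funext n
  rw [integral_map hc.aemeasurable (fourier _).continuous.aestronglyMeasurable]
  unfold ph
  congr 1; funext ω
  rw [fourier_coe_apply]
  unfold ex
  congr 1
  have : (Real.pi : ℂ) ≠ 0 := by exact_mod_cast Real.pi_ne_zero
  push_cast; field_simp

lemma norm_ph (n : ℤ) : ‖ph n‖ ≤ 1 := by
  have := mu_prob
  have := norm_integral_le_of_norm_le_const (μ := mu) (f := fun ω => ex (n * g ω)) (C := 1)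
    (Eventually.of_forall fun ω => (norm_ex _).le)
  simpa [ph] using this

lemma ph_zero : ph 0 = 1 := by
  have := mu_prob
  simp [ph, ex_zero]

lemma ph_p (m : ℤ) : Tendsto (fun k => ph (m + N k)) atTop (𝓝 (ph m / 2)) := by
  have := lim m 1 (Or.inl rfl)
  simpa only [one_mul, ph] using this

lemma ph_m (m : ℤ) : Tendsto (fun k => ph (m - N k)) atTop (𝓝 (ph m / 2)) := by
  have := lim m (-1) (Or.inr rfl)
  simpa only [neg_mul, one_mul, ← sub_eq_add_neg, ph] using this

lemma ph_rig (m : ℤ) : Tendsto (fun k => ph (m + 6 * N k)) atTop (𝓝 (ph m)) := by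
  have := mu_prob
  refine tendsto_integral_of_dominated_convergence (fun _ => 1)
    (fun k => (cont_ex.comp (continuous_const.mul cont_g)).aestronglyMeasurable) (integrable_const _)
    (fun k => Eventually.of_forall fun ω => (norm_ex _).le) (Eventually.of_forall fun ω => ?_)
  have e : ∀ k, ex ((m + 6 * N k : ℤ) * g ω) = ex (m * g ω + 6 * tl k ω) := by
    intro k
    obtain ⟨n, hn⟩ := N_g k ω
    have : ((m + 6 * N k : ℤ) : ℝ) * g ω = m * g ω + 6 * tl k ω +
        ((6 * n + r (ω k) : ℤ) : ℝ) * (2 * Real.pi) := by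
      push_cast; linear_combination 6 * hn
    rw [this, ex_add, ex_int, mul_one]
  simp only [e]
  have t0 : Tendsto (fun k : ℕ => (1 / 2 : ℝ) ^ k * 2) atTop (𝓝 (0 * 2)) :=
    (tendsto_pow_atTop_nhds_zero_of_lt_one (by norm_num) (by norm_num)).mul_const 2
  rw [zero_mul] at t0
  have t1 : Tendsto (fun k => tl k ω) atTop (𝓝 0) := squeeze_zero_norm (fun k => tl_le k ω) t0
  have := (cont_ex.tendsto _).comp ((t1.const_mul 6).const_add (m * g ω))
  rw [mul_zero, add_zero] at this
  exact this

end Pool.Agent.H33.Hr
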