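import Pool.Agent.H33.Hr1

set_option autoImplicit false
open Filter Topology MeasureTheory

namespace Pool.Agent.H33.Hr
open Pool.Agent.H33.Hf

section
variable {E : Type} [TopologicalSpace E]

def ob (a : ℤ → E) (m : ℤ) : ℤ → E := fun n => a (n + m)

abbrev Cl (a : ℤ → E) : Type := closure (Set.range (ob a))

def tr (a : ℤ → E) (j : ℤ) (y : Cl a) : Cl a := ⟨fun n => y.1 (n + j), by
  refine map_mem_closure (f := fun (x : ℤ → E) n => x (n + j))
    (continuous_pi fun n => continuous_apply _) y.2 ?_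
  rintro _ ⟨m, rfl⟩
  exact ⟨j + m, by funext n; simp only [ob, add_assoc]⟩⟩

lemma cont_tr (a : ℤ → E) (j : ℤ) : Continuous (tr a j) := by
  refine Continuous.subtype_mk (continuous_pi fun n => ?_) _
  exact (continuous_apply (n + j)).comp continuous_subtype_val

def Sh (a : ℤ → E) : Cl a ≃ₜ Cl a where
  toFun := tr a 1
  invFun := tr a (-1)
  left_inv y := by apply Subtype.ext; funext n; simp [tr]
  right_inv y := by apply Subtype.ext; funext n; simp [tr]
  continuous_toFun := cont_tr a 1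
  continuous_invFun := cont_tr a (-1)

lemma Sh_zpow (a : ℤ → E) (m : ℤ) (y : Cl a) : (Sh a ^ m) y = tr a m y := by
  induction m using Int.induction_on generalizing y with
  | zero => apply Subtype.ext; funext n; simp [tr]
  | succ m ih =>
    rw [zpow_add_one, Homeomorph.mul_apply, ih]
    apply Subtype.ext; funext n
    show y.1 (n + m + 1) = y.1 (n + (m + 1))
    rw [add_assoc]
  | pred m ih =>
    rw [zpow_sub_one, Homeomorph.mul_apply, ih]
    apply Subtype.ext; funext n
    show y.1 (n + -m + -1) = y.1 (n + (-m - 1))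
    congr 1; ring

lemma Sh_iter (a : ℤ → E) (k : ℕ) (y : Cl a) : (Sh a)^[k] y = tr a k y := by
  induction k with
  | zero => apply Subtype.ext; funext n; simp [tr]
  | succ k ih =>
    rw [Function.iterate_succ_apply', ih]
    apply Subtype.ext; funext n
    show y.1 (n + 1 + k) = y.1 (n + (k + 1 : ℕ))
    congr 1; push_cast; ring

lemma Sh_iter' (a : ℤ → E) (k : ℕ) (y : Cl a) : (Sh a).symm^[k] y = tr a (-k) y := by
  induction k with
  | zero => apply Subtype.ext; funext n; simp [tr]
  | succ k ih =>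
    rw [Function.iterate_succ_apply', ih]
    apply Subtype.ext; funext n
    show y.1 (n + -1 + -k) = y.1 (n + -(k + 1 : ℕ))
    congr 1; push_cast; ring

def b0 (a : ℤ → E) : Cl a := ⟨a, subset_closure ⟨0, by funext n; simp [ob]⟩⟩

lemma dense_b0 (a : ℤ → E) : DenseRange fun m : ℤ => tr a m (b0 a) := by
  intro y
  rw [closure_subtype, ← Set.range_comp]
  exact y.2

lemma compact_Cl [T2Space E] (a : ℤ → E) {K : Set E} (hK : IsCompact K) (h : ∀ n, a n ∈ K) :
    CompactSpace (Cl a) := by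
  have h1 : IsCompact (Set.pi Set.univ fun _ : ℤ => K) := isCompact_univ_pi fun _ => hK
  refine isCompact_iff_compactSpace.1 (h1.of_isClosed_subset isClosed_closure
    (closure_minimal ?_ h1.isClosed))
  rintro _ ⟨m, rfl⟩ i _
  exact h _

end

noncomputable def ya (n : ℤ) : ℝ := Ph (ph n)

lemma compact_Y : CompactSpace (Cl ya) :=
  compact_Cl ya (cont_Ph.continuousOn |> (isCompact_closedBall (0 : ℂ) 1).image_of_continuousOn)
    fun n => ⟨ph n, mem_closedBall_zero_iff.2 (norm_ph n), rfl⟩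

lemma compact_X : CompactSpace (Cl ph) :=
  compact_Cl ph (isCompact_closedBall (0 : ℂ) 1) fun n => mem_closedBall_zero_iff.2 (norm_ph n)

noncomputable def prj (x : Cl ph) : Cl ya := ⟨fun n => Ph (x.1 n), by
  refine map_mem_closure (f := fun (x : ℤ → ℂ) n => Ph (x n))
    (continuous_pi fun n => cont_Ph.comp (continuous_apply _)) x.2 ?_
  rintro _ ⟨m, rfl⟩
  exact ⟨m, rfl⟩⟩

lemma cont_prj : Continuous prj := by
  refine Continuous.subtype_mk (continuous_pi fun n => ?_) _
  exact cont_Ph.comp ((continuous_apply n).comp continuous_subtype_val)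

noncomputable def alg : StarSubalgebra ℂ C(Cl ph, ℂ) where
  carrier := {G | (fun m : ℤ => G (tr ph m (b0 ph))) ∈ BZ}
  mul_mem' ha hb := mul_mem ha hb
  add_mem' ha hb := BZ.add_mem ha hb
  algebraMap_mem' c := by
    have := BZ.smul_mem c one_mem
    show _ ∈ BZ
    convert this using 1
    funext n; simp
  star_mem' ha := star_mem ha

lemma hilb : HilbertSys (Sh ya) := by
  have := compact_X
  refine ⟨b0 ya, by simp only [Sh_zpow]; exact dense_b0 ya, fun F ε hε => ?_⟩
  have h1 := ContinuousMap.starSubalgebra_topologicalClosure_eq_top_of_separatesPoints alg (by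
    intro x y hxy
    obtain ⟨n, hn⟩ : ∃ n, x.1 n ≠ y.1 n := by
      by_contra hc
      exact hxy (Subtype.ext (funext fun n => by_contra fun h => hc ⟨n, h⟩))
    refine ⟨_, ⟨⟨fun x => x.1 n, (continuous_apply n).comp continuous_subtype_val⟩, ?_, rfl⟩, hn⟩
    have := ph_mem n
    show _ ∈ BZ
    convert this using 1
    funext m
    show ph (n + m) = _
    rw [add_comm])
  have h2 : F.comp ⟨prj, cont_prj⟩ ∈ closure (alg : Set C(Cl ph, ℂ)) := by
    rw [← StarSubalgebra.topologicalClosure_coe, h1]; trivial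
  obtain ⟨G, hG, hd⟩ := Metric.mem_closure_iff.1 h2 ε hε
  refine ⟨_, hG, fun n => ?_⟩
  have h3 := (ContinuousMap.dist_apply_le_dist (f := F.comp ⟨prj, cont_prj⟩) (g := G)
    (tr ph n (b0 ph))).trans hd.le
  rw [dist_eq_norm] at h3
  rw [Sh_zpow]
  exact h3

lemma t1 : Tendsto (fun k => ob ya (N k)) atTop (𝓝 fun n => Ph (ph n / 2)) :=
  tendsto_pi_nhds.2 fun n => (cont_Ph.tendsto _).comp (ph_p n)

noncomputable def y1 : Cl ya := ⟨_, mem_closure_of_tendsto t1 (Eventually.of_forall fun _ => ⟨_, rfl⟩)⟩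

lemma t2 : Tendsto (fun k => (tr ya (-N k) y1).1) atTop (𝓝 0) := by
  refine tendsto_pi_nhds.2 fun n => ?_
  have h1 : Ph (ph n / 2 / 2) = 0 := by
    have := norm_ph n
    unfold Ph
    rw [max_eq_left]
    simp only [norm_div, Complex.norm_ofNat]; linarith
  have := (cont_Ph.tendsto _).comp ((ph_m n).div_const 2)
  rw [h1] at this
  exact this

noncomputable def z0 : Cl ya :=
  ⟨0, isClosed_closure.mem_of_tendsto t2 (Eventually.of_forall fun k => (tr ya (-N k) y1).2)⟩

lemma y1_zero : y1.1 0 = 1 / 4 := by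
  show Ph (ph 0 / 2) = _
  rw [ph_zero]; unfold Ph; norm_num

lemma not_group {X : Type} [TopologicalSpace X] [CompactSpace X] [T2Space X] (T : X ≃ₜ X)
    (hT : HRep T) : ¬ GroupFactor T (Sh ya) := by
  intro hG
  have := no_group T (Sh ya) hT hG (b0 ya) y1 z0 rfl N
    (by simp only [Sh_iter]; exact tendsto_subtype_rng.2 t1)
    (by simp only [Sh_iter']; exact tendsto_subtype_rng.2 t2)
  have h2 := y1_zero
  rw [this] at h2
  have h3 : (0 : ℝ) = 1 / 4 := h2
  norm_num at h3

lemma no_iso (y : Cl ya) : ¬ IsOpen ({y} : Set (Cl ya)) := by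
  intro hy
  obtain ⟨m, hm⟩ := (dense_b0 ya).exists_mem_open hy (Set.singleton_nonempty y)
  have h1 : Tendsto (fun k => tr ya (m + 6 * N k) (b0 ya)) atTop (𝓝 (tr ya m (b0 ya))) := by
    refine tendsto_subtype_rng.2 (tendsto_pi_nhds.2 fun n => ?_)
    refine ((cont_Ph.tendsto _).comp (ph_rig (n + m))).congr fun k => ?_
    show Ph (ph _) = Ph (ph _)
    rw [add_assoc]
  obtain ⟨k, hk⟩ := (h1.eventually (hy.mem_nhds hm)).exists
  obtain ⟨q, hq, hper⟩ : ∃ q : ℕ, 0 < q ∧ ∀ n, ya (n + q) = ya n := by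
    refine ⟨6 * N k, by have := N_pos k; have : 0 < N k := by exact_mod_cast this
                        omega, fun n => ?_⟩
    have h2 : tr ya (m + 6 * N k) (b0 ya) = tr ya m (b0 ya) := (Set.mem_singleton_iff.1 hk).trans
      (Set.mem_singleton_iff.1 hm).symm
    have h3 : ya (n - m + (m + 6 * N k)) = ya (n - m + m) :=
      congrFun (congrArg Subtype.val h2) (n - m)
    convert h3 using 2 <;> push_cast <;> ring
  have h4 : Function.Periodic y1.1 (q : ℤ) := fun n =>
    tendsto_nhds_unique (tendsto_pi_nhds.1 t1 (n + q)) ((tendsto_pi_nhds.1 t1 n).congr fun j => by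
      show ya _ = ya _
      rw [← hper]; congr 1; ring)
  have h5 : ∀ᶠ j in atTop, ∀ n ∈ Finset.range q, (tr ya (-N j) y1).1 n < 1 / 4 :=
    (eventually_all_finset _).2 fun n _ =>
      (tendsto_pi_nhds.1 t2 n).eventually (gt_mem_nhds (by norm_num))
  obtain ⟨j, hj⟩ := h5.exists
  have h6 : y1.1 (((N j % q : ℕ) : ℤ) + -N j) < 1 / 4 :=
    hj (N j % q) (Finset.mem_range.2 (Nat.mod_lt _ hq))
  have h7 : ((N j % q : ℕ) : ℤ) + -N j = 0 - (N j / q : ℕ) * (q : ℤ) := by
    have := Nat.mod_add_div (N j) q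
    have h8 : ((N j % q : ℕ) : ℤ) + q * (N j / q : ℕ) = N j := by exact_mod_cast this
    linarith
  rw [h7, h4.sub_nat_mul_eq, y1_zero] at h6
  exact lt_irrefl _ h6

end Pool.Agent.H33.Hr
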