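import Pool.Agent.H33.Hr2

set_option autoImplicit false
open Filter Topology MeasureTheory

namespace Pool.Agent.H33.Hr
open Pool.Agent.H33.Hf

section
variable {H : Type} [NormedAddCommGroup H] [InnerProductSpace ℂ H]

lemma min_norm [CompleteSpace H] (e : ℤ → H) (f : ℤ → ℂ) (ε : ℝ)
    (h : ∃ ζ : H, ∀ n, ‖inner ℂ (e n) ζ - f n‖ ≤ ε) :
    ∃ η : H, (∀ n, ‖inner ℂ (e n) η - f n‖ ≤ ε) ∧
      ∀ ζ : H, (∀ n, ‖inner ℂ (e n) ζ - f n‖ ≤ ε) → ‖ζ‖ ≤ ‖η‖ → ζ = η := by
  letI := InnerProductSpace.rclikeToReal ℂ H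
  let C : Set H := {ζ | ∀ n, ‖inner ℂ (e n) ζ - f n‖ ≤ ε}
  have hc : IsClosed C := by
    simp only [C, Set.setOf_forall]
    exact isClosed_iInter fun n => isClosed_le (by fun_prop) continuous_const
  have hconv : Convex ℝ C := by
    intro x hx y hy a b ha hb hab n
    have e1 : inner ℂ (e n) (a • x + b • y) - f n =
        (a : ℂ) * (inner ℂ (e n) x - f n) + (b : ℂ) * (inner ℂ (e n) y - f n) := by
      have h1 : a • x = (a : ℂ) • x := rfl
      have h2 : b • y = (b : ℂ) • y := rfl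
      have h3 : (a : ℂ) + b = 1 := by exact_mod_cast hab
      rw [h1, h2, inner_add_right, inner_smul_right, inner_smul_right]
      linear_combination f n * h3
    rw [e1]
    refine (norm_add_le _ _).trans ?_
    rw [norm_mul, norm_mul, Complex.norm_real, Complex.norm_real, Real.norm_eq_abs,
      Real.norm_eq_abs, abs_of_nonneg ha, abs_of_nonneg hb]
    have := mul_le_mul_of_nonneg_left (hx n) ha
    have := mul_le_mul_of_nonneg_left (hy n) hb
    have : a * ε + b * ε = ε := by rw [← add_mul, hab, one_mul]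
    linarith
  obtain ⟨η, hη, hm⟩ := exists_norm_eq_iInf_of_complete_convex (K := C) h hc.isComplete hconv 0
  refine ⟨η, hη, fun ζ hζ hle => ?_⟩
  have h1 := (norm_eq_iInf_iff_real_inner_le_zero hconv hη).1 hm ζ hζ
  have h2 : ζ = η + (ζ - η) := by abel
  have h3 := norm_add_sq_real η (ζ - η)
  rw [← h2] at h3
  rw [zero_sub, inner_neg_left] at h1
  have h4 : ‖ζ‖ ^ 2 ≤ ‖η‖ ^ 2 := pow_le_pow_left₀ (norm_nonneg _) hle 2
  have h5 : ‖ζ - η‖ ^ 2 ≤ 0 := by linarith
  exact sub_eq_zero.1 (norm_eq_zero.1 (pow_eq_zero_iff two_ne_zero |>.1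
    (le_antisymm h5 (sq_nonneg _))))

lemma zorb {G X : Type} [Group G] (ap : G → X → X) (h1 : ∀ x, ap 1 x = x)
    (hm : ∀ a b x, ap (a * b) x = ap a (ap b x)) (T : G) (u : ℤ → X)
    (h : ∀ m, ap T (u m) = u (m + 1)) (m n : ℤ) : ap (T ^ m) (u n) = u (n + m) := by
  induction m using Int.induction_on generalizing n with
  | zero => simp [h1]
  | succ m ih => rw [zpow_add_one, hm, h, ih]; congr 1; ring
  | pred m ih =>
    have h2 := h (n - 1)
    rw [sub_add_cancel] at h2
    rw [zpow_sub_one, hm, ← h2, ← hm T⁻¹, inv_mul_cancel, h1, ih]; congr 1; ring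

lemma zsemi {X Y : Type} [TopologicalSpace X] [TopologicalSpace Y] (T : X ≃ₜ X) (S : Y ≃ₜ Y)
    (π : X → Y) (h : ∀ x, π (T x) = S (π x)) (m : ℤ) (x : X) : π ((T ^ m) x) = (S ^ m) (π x) := by
  have := zorb (fun (a : Y ≃ₜ Y) y => a y) (fun _ => rfl) (fun _ _ _ => rfl) S
    (fun n => π ((T ^ n) x)) (fun n => by
      rw [add_comm, zpow_one_add, Homeomorph.mul_apply, h]) m 0
  simpa using this.symm

lemma gdelta {X Y : Type} [TopologicalSpace X] [CompactSpace X] [TopologicalSpace.MetrizableSpace X]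
    [TopologicalSpace Y] [T2Space Y] (π : X → Y) (hπ : Continuous π) :
    IsGδ {x | π ⁻¹' {π x} = {x}} := by
  letI := TopologicalSpace.metrizableSpaceMetric X
  have : {x | π ⁻¹' {π x} = {x}} = ⋂ k : ℕ, (Prod.fst '' {p : X × X | π p.1 = π p.2 ∧
      1 / ((k : ℝ) + 1) ≤ dist p.1 p.2})ᶜ := by
    ext x
    simp only [Set.mem_setOf_eq, Set.mem_iInter, Set.mem_compl_iff]
    constructor
    · rintro h k ⟨p, ⟨h1, h2⟩, rfl⟩
      have h3 : p.2 ∈ π ⁻¹' {π p.1} := h1.symm
      rw [h] at h3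
      rw [Set.mem_singleton_iff.1 h3, dist_self] at h2
      exact absurd h2 (not_le.2 (by positivity))
    · intro h
      refine Set.eq_singleton_iff_unique_mem.2 ⟨rfl, fun y hy => ?_⟩
      by_contra hne
      obtain ⟨k, hk⟩ := exists_nat_one_div_lt (dist_pos.2 (Ne.symm hne))
      exact h k ⟨(x, y), ⟨(Set.mem_singleton_iff.1 hy).symm, hk.le⟩, rfl⟩
  rw [this]
  refine IsGδ.iInter_of_isOpen fun k => ?_
  refine (IsCompact.image (IsClosed.isCompact ?_) continuous_fst).isClosed.isOpen_compl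
  exact (isClosed_eq (hπ.comp continuous_fst) (hπ.comp continuous_snd)).inter
    (isClosed_le continuous_const continuous_dist)

noncomputable def rz [CompleteSpace H] (x : B H) : H :=
  (InnerProductSpace.toDual ℂ H).symm (WeakDual.toStrongDual x.1)

lemma rz_inner [CompleteSpace H] (x : B H) (v : H) : inner ℂ (rz x) v = x.1 v :=
  InnerProductSpace.toDual_symm_apply

lemma B_ext {x y : B H} (h : ∀ v, x.1 v = y.1 v) : x = y := Subtype.ext (DFunLike.ext _ _ h)

lemma build {Y : Type} [MetricSpace Y] [CompactSpace Y] (S : Y ≃ₜ Y) (y0 : Y)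
    (hd : DenseRange fun n : ℤ => (S ^ n) y0) [CompleteSpace H] (W : H ≃ₗᵢ[ℂ] H) (w : ℤ → H)
    (hw : ∀ m, W (w m) = w (m + 1)) (h1 : ∀ m, ‖w m‖ ≤ 1)
    (H1 : ∀ j : ℤ, ∀ ε > (0 : ℝ), ∃ v, ∀ m,
      ‖inner ℂ v (w m) - (dist ((S ^ m) y0) ((S ^ j) y0) : ℝ)‖ ≤ ε)
    (H2 : ∀ (l : Filter ℤ) (_ : NeBot l) (z : H), Tendsto (fun m => (S ^ m) y0) l (𝓝 y0) →
      (∀ v, Tendsto (fun m => inner ℂ (w m) v) l (𝓝 (inner ℂ z v))) → z = w 0) :
    ∃ (X : Type) (_ : TopologicalSpace X) (_ : CompactSpace X) (_ : TopologicalSpace.MetrizableSpace X)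
      (T : X ≃ₜ X) (π : X → Y), HRep T ∧ Factor T S π ∧ Almost11 π := by
  have i1 : CompactSpace (B H) :=
    isCompact_iff_compactSpace.1 (WeakDual.isCompact_closedBall (𝕜 := ℂ) (E := H) 0 1)
  let γ : ℤ → B H × Y := fun m => (pt (w m) (h1 m), (S ^ m) y0)
  let P : B H × Y ≃ₜ B H × Y := (actH W).prodCongr S
  have hγ : ∀ m, P (γ m) = γ (m + 1) := by
    intro m
    apply Prod.ext
    · apply B_ext; intro v
      show inner ℂ (w m) (W.symm v) = inner ℂ (w (m + 1)) v
      rw [← W.inner_map_map, hw, W.apply_symm_apply]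
    · show S ((S ^ m) y0) = (S ^ (m + 1)) y0
      rw [add_comm, zpow_one_add, Homeomorph.mul_apply]
  let X : Type := closure (Set.range γ)
  have i2 : CompactSpace X := isCompact_iff_compactSpace.1 isClosed_closure.isCompact
  let T : X ≃ₜ X :=
    { toFun := fun x => ⟨P x.1, map_mem_closure P.continuous x.2 (by
        rintro _ ⟨m, rfl⟩; exact ⟨m + 1, (hγ m).symm⟩)⟩
      invFun := fun x => ⟨P.symm x.1, map_mem_closure P.symm.continuous x.2 (by
        rintro _ ⟨m, rfl⟩
        refine ⟨m - 1, ?_⟩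
        apply P.injective
        rw [hγ, sub_add_cancel, P.apply_symm_apply])⟩
      left_inv := fun x => Subtype.ext (P.symm_apply_apply x.1)
      right_inv := fun x => Subtype.ext (P.apply_symm_apply x.1)
      continuous_toFun := Continuous.subtype_mk (P.continuous.comp continuous_subtype_val) _
      continuous_invFun := Continuous.subtype_mk (P.symm.continuous.comp continuous_subtype_val) _ }
  have cev : ∀ v, Continuous fun p : B H × Y => p.1.1 v := fun v => (cont_ev v).comp continuous_fst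
  have inj : Function.Injective fun x : X => rz x.1.1 := by
    intro x x' h
    have e1 : x.1.1 = x'.1.1 := B_ext fun v => by
      rw [← rz_inner, ← rz_inner]; exact congrArg (inner ℂ · v) h
    have e2 : ∀ j : ℤ, dist x.1.2 ((S ^ j) y0) = dist x'.1.2 ((S ^ j) y0) := by
      intro j
      apply eq_of_forall_dist_le
      intro ε hε
      obtain ⟨v, hv⟩ := H1 j (ε / 2) (by positivity)
      have hc : ∀ x : X, ‖(starRingEnd ℂ) (x.1.1.1 v) - (dist x.1.2 ((S ^ j) y0) : ℝ)‖ ≤ ε / 2 := by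
        intro x
        refine closure_minimal (s := Set.range γ) (t := {p : B H × Y |
          ‖(starRingEnd ℂ) (p.1.1 v) - (dist p.2 ((S ^ j) y0) : ℝ)‖ ≤ ε / 2}) ?_ ?_ x.2
        · rintro _ ⟨m, rfl⟩
          show ‖(starRingEnd ℂ) (inner ℂ (w m) v) - _‖ ≤ _
          rw [inner_conj_symm]; exact hv m
        · refine isClosed_le (Continuous.norm (Continuous.sub
            (Complex.continuous_conj.comp (cev v)) (by fun_prop))) continuous_const
      have a1 := hc x
      have a2 := hc x'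
      rw [← e1] at a2
      have a3 := norm_sub_le_norm_sub_add_norm_sub ((dist x.1.2 ((S ^ j) y0) : ℝ) : ℂ)
        ((starRingEnd ℂ) (x.1.1.1 v)) ((dist x'.1.2 ((S ^ j) y0) : ℝ) : ℂ)
      rw [norm_sub_rev] at a1
      rw [← Complex.ofReal_sub, Complex.norm_real] at a3
      rw [dist_eq_norm]; linarith
    have e3 : dist x.1.2 x.1.2 = dist x'.1.2 x.1.2 :=
      hd.induction_on (p := fun y => dist x.1.2 y = dist x'.1.2 y) x.1.2
        (isClosed_eq (by fun_prop) (by fun_prop)) e2
    rw [dist_self] at e3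
    exact Subtype.ext (Prod.ext e1 (dist_eq_zero.1 e3.symm).symm)
  have i3 : TopologicalSpace.MetrizableSpace X := by
    refine Metric.PiNatEmbed.TopologicalSpace.MetrizableSpace.of_countable_separating
      (fun (n : ℤ) (x : X) => x.1.1.1 (w n)) (fun n => (cev _).comp continuous_subtype_val) ?_
    intro x x' hne
    by_contra hcon
    simp only [not_exists, not_not] at hcon
    apply hne
    apply inj
    have hu : ∀ x'' : X, x''.1.1.1 (rz x.1.1 - rz x'.1.1) = 0 := by
      intro x''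
      refine closure_minimal (s := Set.range γ) (t := {p : B H × Y |
          p.1.1 (rz x.1.1 - rz x'.1.1) = 0}) ?_ (isClosed_eq (cev _) continuous_const) x''.2
      rintro _ ⟨m, rfl⟩
      show inner ℂ (w m) _ = 0
      rw [← inner_conj_symm, inner_sub_left, rz_inner, rz_inner, hcon, sub_self, map_zero]
    have : inner ℂ (rz x.1.1 - rz x'.1.1) (rz x.1.1 - rz x'.1.1) = 0 := by
      rw [inner_sub_left, rz_inner, rz_inner, hu, hu, sub_self]
    exact sub_eq_zero.1 (inner_self_eq_zero.1 this)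
  let xm : ℤ → X := fun m => ⟨γ m, subset_closure ⟨m, rfl⟩⟩
  have hπ : Continuous fun x : X => x.1.2 := by fun_prop
  have hdx : DenseRange xm := by
    intro y
    rw [closure_subtype, ← Set.range_comp]
    exact y.2
  have fib0 : ∀ x : X, x.1.2 = y0 → x = xm 0 := by
    intro x hx
    have hl : NeBot (comap γ (𝓝 x.1)) := comap_neBot fun t ht => by
      obtain ⟨_, h2, m, rfl⟩ := mem_closure_iff_nhds.1 x.2 t ht
      exact ⟨m, h2⟩
    have ht : Tendsto γ (comap γ (𝓝 x.1)) (𝓝 x.1) := tendsto_comap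
    have h3 := H2 _ hl (rz x.1.1) (by
      have := (continuous_snd.tendsto _).comp ht
      rw [hx] at this; exact this) fun v => by
        rw [rz_inner]; exact ((cev v).tendsto _).comp ht
    apply inj
    show rz x.1.1 = rz (pt (w 0) (h1 0))
    rw [h3]
    apply ext_inner_right ℂ
    intro v
    rw [rz_inner]; rfl
  refine ⟨X, inferInstance, i2, i3, T, fun x => x.1.2,
    ⟨H, _, _, inferInstance, W, fun x => rz x.1.1, inj, fun x => ?_, fun v => ?_⟩,
    ⟨hπ, fun y => ?_, fun x => rfl⟩, _, ?_, gdelta _ hπ, fun x hx => hx⟩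
  · apply ext_inner_right ℂ
    intro v
    conv_rhs => rw [← W.apply_symm_apply v, W.inner_map_map]
    rw [rz_inner, rz_inner]; rfl
  · refine (Complex.continuous_conj.comp ((cev v).comp continuous_subtype_val)).congr fun x => ?_
    rw [← inner_conj_symm, rz_inner]; rfl
  · exact hd.induction_on (p := fun y => y ∈ Set.range fun x : X => x.1.2) y
      (isCompact_range hπ).isClosed fun m => ⟨xm m, rfl⟩
  · refine Dense.mono ?_ hdx
    rintro _ ⟨m, rfl⟩
    refine Set.eq_singleton_iff_unique_mem.2 ⟨rfl, fun x hx => ?_⟩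
    have hx : x.1.2 = (S ^ m) y0 := hx
    have h2 := zsemi T S (fun x => x.1.2) (fun x => rfl) (-m) x
    have h3 := fib0 ((T ^ (-m)) x) (by
      rw [h2, hx, ← Homeomorph.mul_apply, ← zpow_add, neg_add_cancel, zpow_zero]; rfl)
    have h4 := zorb (fun (a : X ≃ₜ X) y => a y) (fun _ => rfl) (fun _ _ _ => rfl) T xm
      (fun m => Subtype.ext (hγ m)) m 0
    rw [← h3, ← Homeomorph.mul_apply, ← zpow_add, add_neg_cancel, zpow_zero, zero_add] at h4
    exact h4

end

end Pool.Agent.H33.Hr
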