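import Pool.Agent.H33.Hr3

set_option autoImplicit false
open Filter Topology MeasureTheory

namespace Pool.Agent.H33.Hr
open Pool.Agent.H33.Hf

lemma norm_four (a : ℤ) (t : UnitAddCircle) : ‖fourier a t‖ = 1 := Circle.norm_coe _

lemma int_bdd (ν : Measure UnitAddCircle) [IsFiniteMeasure ν] {h : UnitAddCircle → ℂ}
    (hm : Measurable h) {C : ℝ} (hC : ∀ t, ‖h t‖ ≤ C) (a : ℤ) :
    Integrable (fun t => h t * fourier a t) ν :=
  Integrable.of_bound (hm.mul (fourier a).continuous.measurable).aestronglyMeasurable C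
    (Eventually.of_forall fun t => by rw [norm_mul, norm_four, mul_one]; exact hC t)

lemma lift (ν ν' : Measure UnitAddCircle) [IsFiniteMeasure ν] [IsFiniteMeasure ν'] (hle : ν ≤ ν') :
    ∃ ρ : UnitAddCircle → ℝ, Measurable ρ ∧ (∀ t, |ρ t| ≤ 1) ∧
      ∀ F : UnitAddCircle → ℂ, ∫ t, F t ∂ν = ∫ t, (ρ t : ℂ) * F t ∂ν' := by
  refine ⟨fun t => min (ν.rnDeriv ν' t).toReal 1,
    (Measure.measurable_rnDeriv _ _).ennreal_toReal.min measurable_const, fun t => ?_, fun F => ?_⟩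
  · rw [abs_of_nonneg (le_min ENNReal.toReal_nonneg zero_le_one)]; exact min_le_right _ _
  · have := Measure.haveLebesgueDecomposition_of_finiteMeasure (μ := ν) (ν := ν')
    rw [← integral_rnDeriv_smul (Measure.absolutelyContinuous_of_le hle)]
    apply integral_congr_ae
    filter_upwards [Measure.rnDeriv_le_one_of_le hle] with t ht
    rw [min_eq_left (ENNReal.toReal_le_of_le_ofReal zero_le_one (by simpa using ht)),
      Complex.real_smul]

lemma rep {b : ℤ → ℂ} (hb : b ∈ BZ) : ∃ ν : Measure UnitAddCircle, IsFiniteMeasure ν ∧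
    ∃ (h : UnitAddCircle → ℂ) (C : ℝ), Measurable h ∧ (∀ t, ‖h t‖ ≤ C) ∧
      ∀ n, b n = ∫ t, h t * fourier (-n) t ∂ν := by
  induction hb using Submodule.span_induction with
  | zero => exact ⟨0, inferInstance, 0, 0, measurable_const, by simp, by simp⟩
  | mem x hx =>
    obtain ⟨ν, h1, h2⟩ := hx
    exact ⟨ν, h1, 1, 1, measurable_const, by simp, by simpa using h2⟩
  | smul c x _ h1 =>
    obtain ⟨ν, h1, h, C, h2, h3, h4⟩ := h1
    refine ⟨ν, h1, fun t => c * h t, ‖c‖ * C, h2.const_mul c, fun t => ?_, fun n => ?_⟩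
    · rw [norm_mul]; exact mul_le_mul_of_nonneg_left (h3 t) (norm_nonneg _)
    · rw [Pi.smul_apply, h4, smul_eq_mul, ← integral_const_mul]; simp only [mul_assoc]
  | add x y _ _ h1 h2 =>
    obtain ⟨ν, _, h, C, a2, a3, a4⟩ := h1
    obtain ⟨ν', _, h', C', b2, b3, b4⟩ := h2
    obtain ⟨ρ, r1, r2, r3⟩ := lift ν (ν + ν') (Measure.le_add_right le_rfl)
    obtain ⟨ρ', s1, s2, s3⟩ := lift ν' (ν + ν') (Measure.le_add_left le_rfl)
    have bd : ∀ {ρ : UnitAddCircle → ℝ} {h : UnitAddCircle → ℂ} {C : ℝ}, (∀ t, |ρ t| ≤ 1) →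
        (∀ t, ‖h t‖ ≤ C) → ∀ t, ‖(ρ t : ℂ) * h t‖ ≤ C := by
      intro ρ h C h1 h2 t
      rw [norm_mul, Complex.norm_real, Real.norm_eq_abs]
      exact (mul_le_of_le_one_left (norm_nonneg _) (h1 t)).trans (h2 t)
    have m1 : Measurable fun t => (ρ t : ℂ) * h t := (Complex.measurable_ofReal.comp r1).mul a2
    have m2 : Measurable fun t => (ρ' t : ℂ) * h' t := (Complex.measurable_ofReal.comp s1).mul b2
    refine ⟨ν + ν', inferInstance, fun t => ρ t * h t + ρ' t * h' t, C + C', m1.add m2,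
      fun t => (norm_add_le _ _).trans (add_le_add (bd r2 a3 t) (bd s2 b3 t)), fun n => ?_⟩
    rw [Pi.add_apply, a4, b4, r3, s3]
    simp only [add_mul]
    rw [integral_add (int_bdd _ m1 (bd r2 a3) _) (int_bdd _ m2 (bd s2 b3) _)]
    simp only [mul_assoc]

section
variable (ν : Measure UnitAddCircle)

noncomputable def mulF (a : ℤ) (f : Lp ℂ 2 ν) : Lp ℂ 2 ν :=
  MemLp.toLp (fun t => fourier a t * f t) ((Lp.memLp f).of_le
    ((fourier a).continuous.aestronglyMeasurable.mul (Lp.aestronglyMeasurable f))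
    (Eventually.of_forall fun t => by rw [norm_mul, norm_four, one_mul]))

lemma mulF_ae (a : ℤ) (f : Lp ℂ 2 ν) : mulF ν a f =ᵐ[ν] fun t => fourier a t * f t :=
  MemLp.coeFn_toLp _

lemma mulF_mulF (a : ℤ) (f : Lp ℂ 2 ν) : mulF ν a (mulF ν (-a) f) = f := by
  apply Lp.ext
  filter_upwards [mulF_ae ν a (mulF ν (-a) f), mulF_ae ν (-a) f] with t h1 h2
  rw [h1, h2, ← mul_assoc, ← fourier_add, add_neg_cancel, fourier_zero, one_mul]

noncomputable def UF : Lp ℂ 2 ν ≃ₗᵢ[ℂ] Lp ℂ 2 ν where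
  toFun := mulF ν 1
  invFun := mulF ν (-1)
  left_inv f := by have := mulF_mulF ν (-1) f; rwa [neg_neg] at this
  right_inv f := mulF_mulF ν 1 f
  map_add' f h := by
    apply Lp.ext
    filter_upwards [mulF_ae ν 1 (f + h), mulF_ae ν 1 f, mulF_ae ν 1 h, Lp.coeFn_add f h,
      Lp.coeFn_add (mulF ν 1 f) (mulF ν 1 h)] with t h1 h2 h3 h4 h5
    rw [h1, h5, h4, Pi.add_apply, Pi.add_apply, h2, h3, mul_add]
  map_smul' c f := by
    apply Lp.ext
    filter_upwards [mulF_ae ν 1 (c • f), mulF_ae ν 1 f, Lp.coeFn_smul c f,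
      Lp.coeFn_smul c (mulF ν 1 f)] with t h1 h2 h3 h4
    rw [RingHom.id_apply, h1, h4, h3, Pi.smul_apply, Pi.smul_apply, h2, smul_eq_mul, smul_eq_mul]
    ring
  norm_map' f := by
    show ‖mulF ν 1 f‖ = ‖f‖
    rw [Lp.norm_def, Lp.norm_def]
    congr 1
    apply eLpNorm_congr_norm_ae
    filter_upwards [mulF_ae ν 1 f] with t h1
    rw [h1, norm_mul, norm_four, one_mul]

end

lemma rep2 {b : ℤ → ℂ} (hb : b ∈ BZ) : ∃ (ν : Measure UnitAddCircle) (e : ℤ → Lp ℂ 2 ν)
    (ζ : Lp ℂ 2 ν), (∀ n, UF ν (e n) = e (n + 1)) ∧ ∀ n, inner ℂ (e n) ζ = b n := by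
  obtain ⟨ν, _, h, C, h1, h2, h3⟩ := rep hb
  have hm : MemLp h 2 ν := MemLp.of_bound h1.aestronglyMeasurable C (Eventually.of_forall h2)
  have ae : ∀ n : ℤ, ContinuousMap.toLp 2 ν ℂ (fourier n) =ᵐ[ν] fourier n := fun n =>
    ContinuousMap.coeFn_toLp (p := 2) (𝕜 := ℂ) ν _
  refine ⟨ν, fun n => ContinuousMap.toLp 2 ν ℂ (fourier n), hm.toLp h, fun n => ?_, fun n => ?_⟩
  · apply Lp.ext
    filter_upwards [mulF_ae ν 1 (ContinuousMap.toLp 2 ν ℂ (fourier n)), ae n, ae (n + 1)]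
      with t a1 a2 a3
    show mulF ν 1 _ t = _
    rw [a1, a2, a3, ← fourier_add, add_comm]
  · rw [h3, L2.inner_def]
    apply integral_congr_ae
    filter_upwards [ae n, hm.coeFn_toLp] with t a1 a2
    rw [a1, a2, fourier_neg]; rfl

section
variable {ι : Type} {G : ι → Type} [∀ i, NormedAddCommGroup (G i)] [∀ i, InnerProductSpace ℂ (G i)]

noncomputable def lpM (U : ∀ i, G i ≃ₗᵢ[ℂ] G i) (x : lp G 2) : lp G 2 :=
  ⟨fun i => U i (x i), by
    apply memℓp_gen
    simp only [LinearIsometryEquiv.norm_map]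
    exact (lp.memℓp x).summable (by simp)⟩

noncomputable def lpU (U : ∀ i, G i ≃ₗᵢ[ℂ] G i) : lp G 2 ≃ₗᵢ[ℂ] lp G 2 where
  toFun := lpM U
  invFun := lpM fun i => (U i).symm
  left_inv x := lp.ext (funext fun i => (U i).symm_apply_apply _)
  right_inv x := lp.ext (funext fun i => (U i).apply_symm_apply _)
  map_add' x y := lp.ext (funext fun i => (U i).map_add _ _)
  map_smul' c x := lp.ext (funext fun i => (U i).map_smul _ _)
  norm_map' x := by
    show ‖lpM U x‖ = ‖x‖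
    rw [lp.norm_eq_tsum_rpow (by simp), lp.norm_eq_tsum_rpow (by simp)]
    congr 2; funext i
    exact congrArg (· ^ _) ((U i).norm_map _)

lemma scale [Countable ι] (η : ∀ i, G i) : ∃ (c : ι → ℝ) (z : lp G 2), (∀ i, 0 < c i) ∧ ‖z‖ ≤ 1 ∧
    ∀ i, z i = (c i : ℂ) • η i := by
  have := Encodable.ofCountable ι
  let c : ι → ℝ := fun i => (1 / 2) ^ Encodable.encode i / (‖η i‖ + 1)
  have hc : ∀ i, 0 < c i := fun i => by positivity
  have hm : Memℓp (fun i => (c i : ℂ) • η i) 2 := by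
    apply memℓp_gen
    refine Summable.of_nonneg_of_le (fun i => by positivity) (fun i => ?_)
      (summable_geometric_two_encode (ι := ι))
    have h1 : ‖(c i : ℂ) • η i‖ ≤ (1 / 2) ^ Encodable.encode i := by
      rw [norm_smul, Complex.norm_real, Real.norm_eq_abs, abs_of_pos (hc i), div_mul_eq_mul_div,
        div_le_iff₀ (by positivity)]
      exact mul_le_mul_of_nonneg_left (by linarith) (by positivity)
    have h2 : (1 / 2 : ℝ) ^ Encodable.encode i ≤ 1 := pow_le_one₀ (by norm_num) (by norm_num)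
    have h3 : (2 : ENNReal).toReal = ((2 : ℕ) : ℝ) := by simp
    rw [h3, Real.rpow_natCast]
    nlinarith [norm_nonneg ((c i : ℂ) • η i)]
  let z : lp G 2 := ⟨_, hm⟩
  refine ⟨fun i => (‖z‖ + 1)⁻¹ * c i, (((‖z‖ + 1)⁻¹ : ℝ) : ℂ) • z, fun i => by
    have := hc i; positivity, ?_, fun i => ?_⟩
  · rw [norm_smul, Complex.norm_real, Real.norm_eq_abs, abs_of_pos (by positivity),
      inv_mul_le_iff₀ (by positivity)]
    linarith
  · rw [Complex.ofReal_mul, mul_smul]; rfl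

end

theorem almost {Y : Type} [TopologicalSpace Y] [CompactSpace Y] [TopologicalSpace.MetrizableSpace Y]
    (S : Y ≃ₜ Y) (hS : HilbertSys S) :
    ∃ (X : Type) (_ : TopologicalSpace X) (_ : CompactSpace X) (_ : TopologicalSpace.MetrizableSpace X)
      (T : X ≃ₜ X) (π : X → Y), HRep T ∧ Factor T S π ∧ Almost11 π := by
  classical
  letI := TopologicalSpace.metrizableSpaceMetric Y
  obtain ⟨y0, hd, h⟩ := hS
  let F : ℤ → C(Y, ℂ) := fun j => ⟨fun y => (dist y ((S ^ j) y0) : ℝ), by fun_prop⟩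
  choose b hb hb2 using fun i : ℤ × ℕ => h (F i.1) (1 / ((i.2 : ℝ) + 1)) (by positivity)
  choose ν e ζ he hζ using fun i => rep2 (hb i)
  choose η hη hmin using fun i : ℤ × ℕ => min_norm (e i) (fun n => F i.1 ((S ^ n) y0))
    (1 / ((i.2 : ℝ) + 1)) ⟨ζ i, fun n => by rw [hζ, norm_sub_rev]; exact hb2 i n⟩
  obtain ⟨c, z, hc, hz, hzc⟩ := scale (G := fun i => Lp ℂ 2 (ν i)) η
  let w : ℤ → lp (fun i => Lp ℂ 2 (ν i)) 2 := fun m => lpU (fun i => UF (ν i) ^ (-m)) z
  have wi : ∀ m i, w m i = (c i : ℂ) • (UF (ν i) ^ (-m)) (η i) := fun m i => by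
    rw [← map_smul, ← hzc]; rfl
  have inn : ∀ i n m, inner ℂ (e i n) ((UF (ν i) ^ (-m)) (η i)) = inner ℂ (e i (n + m)) (η i) := by
    intro i n m
    have := zorb (fun (a : Lp ℂ 2 (ν i) ≃ₗᵢ[ℂ] Lp ℂ 2 (ν i)) y => a y) (fun _ => rfl)
      (fun _ _ _ => rfl) (UF (ν i)) (e i) (he i) m n
    rw [← (UF (ν i) ^ m).inner_map_map, this]
    congr 1
    show (UF (ν i) ^ m * UF (ν i) ^ (-m)) (η i) = _
    rw [← zpow_add, add_neg_cancel, zpow_zero]; rfl
  refine build S y0 hd (lpU fun i => (UF (ν i))⁻¹) w (fun m => lp.ext (funext fun i => ?_))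
    (fun m => by rw [LinearIsometryEquiv.norm_map]; exact hz) (fun j ε hε => ?_)
    (fun l hl x hy hx => lp.ext (funext fun i => ?_))
  · show ((UF (ν i))⁻¹ * UF (ν i) ^ (-m)) (z i) = (UF (ν i) ^ (-(m + 1))) (z i)
    rw [← zpow_neg_one, ← zpow_add]; congr 2; ring
  · obtain ⟨k, hk⟩ := exists_nat_one_div_lt hε
    refine ⟨lp.single 2 (j, k) ((((c (j, k))⁻¹ : ℝ) : ℂ) • e (j, k) 0), fun m => ?_⟩
    rw [lp.inner_single_left, wi, inner_smul_left, inner_smul_right, inn, Complex.conj_ofReal,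
      ← mul_assoc, ← Complex.ofReal_mul, inv_mul_cancel₀ (hc _).ne', Complex.ofReal_one, one_mul,
      zero_add]
    exact (hη (j, k) m).trans hk.le
  · have hci : (c i : ℂ) ≠ 0 := by exact_mod_cast (hc i).ne'
    have hw : ∀ v, Tendsto (fun m => inner ℂ v ((UF (ν i) ^ (-m)) (η i))) l
        (𝓝 (inner ℂ v ((c i : ℂ)⁻¹ • x i))) := by
      intro v
      have := ((Complex.continuous_conj.tendsto _).comp (hx (lp.single 2 i v))).const_mul (c i : ℂ)⁻¹
      simp only [Function.comp_def, inner_conj_symm, lp.inner_single_left, wi, inner_smul_right,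
        inv_mul_cancel_left₀ hci] at this
      rw [inner_smul_right]; exact this
    have h1 := hmin i ((c i : ℂ)⁻¹ • x i) (fun n => by
      have t1 := ((hw (e i n)).sub ((((F i.1).continuous.comp (S ^ n).continuous).tendsto y0).comp
        hy)).norm
      refine le_of_tendsto' t1 fun m => ?_
      have := hη i (n + m)
      rw [zpow_add, Homeomorph.mul_apply, ← inn] at this
      exact this) (by
      have t1 := (hw ((c i : ℂ)⁻¹ • x i)).norm
      have t2 := le_of_tendsto' t1 fun m => (norm_inner_le_norm (𝕜 := ℂ) _ _).trans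
        (le_of_eq (by rw [LinearIsometryEquiv.norm_map]))
      rw [inner_self_eq_norm_sq_to_K, norm_pow] at t2
      simp only [Complex.coe_algebraMap, Complex.norm_real, norm_norm] at t2
      by_contra hlt
      rw [not_le] at hlt
      nlinarith [norm_nonneg (η i)])
    rw [wi, neg_zero, zpow_zero, ← h1]
    show x i = (c i : ℂ) • (c i : ℂ)⁻¹ • x i
    rw [smul_inv_smul₀ hci]

end Pool.Agent.H33.Hr
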