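import Mathlib

set_option autoImplicit false

namespace Pool.Agent.H33.Hr

/-- Hilbert-representable system: an equivariant embedding into a Hilbert space with its weak
topology. -/
def HEmb {X : Type} [TopologicalSpace X] (T : X ≃ₜ X) : Prop :=
  ∃ (H : Type) (_ : NormedAddCommGroup H) (_ : InnerProductSpace ℂ H) (_ : CompleteSpace H)
    (U : H ≃ₗᵢ[ℂ] H) (α : X → H),
    Topology.IsEmbedding (fun x => toWeakSpace ℂ H (α x)) ∧ ∀ x, α (T x) = U (α x)

end Pool.Agent.H33.Hr
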