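import Pool.Agent.H33.Hr4
import Pool.Agent.H33.HrE

set_option autoImplicit false
open Filter Topology MeasureTheory

namespace Pool.Agent.H33.Hr
open Pool.Agent.H33.Hf

lemma rep_of_emb {X : Type} [TopologicalSpace X] {T : X ≃ₜ X} (h : HEmb T) : HRep T := by
  obtain ⟨H, _, _, _, U, α, h1, h2⟩ := h
  refine ⟨H, _, _, inferInstance, U, α, fun x y h => h1.injective (by simp only [h]), h2,
    fun v => ?_⟩
  exact (WeakBilin.eval_continuous (topDualPairing ℂ H).flip (innerSL ℂ v)).comp h1.continuous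

lemma emb_of_rep {X : Type} [TopologicalSpace X] [CompactSpace X] {T : X ≃ₜ X} (h : HRep T) :
    HEmb T := by
  obtain ⟨H, _, _, _, U, α, h1, h2, h3⟩ := h
  refine ⟨H, _, _, inferInstance, U, α, ?_, h2⟩
  have hc : Continuous fun x => toWeakSpace ℂ H (α x) := by
    refine WeakBilin.continuous_of_continuous_eval (topDualPairing ℂ H).flip fun φ => ?_
    refine (h3 ((InnerProductSpace.toDual ℂ H).symm φ)).congr fun x => ?_
    rw [InnerProductSpace.toDual_symm_apply]; rfl
  exact (hc.isClosedEmbedding ((toWeakSpace ℂ H).injective.comp h1)).isEmbedding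

lemma obstr' {Y H : Type} [TopologicalSpace Y] (S : Y ≃ₜ Y) [NormedAddCommGroup H]
    [InnerProductSpace ℂ H] (U : H ≃ₗᵢ[ℂ] H) (g : Y → H)
    (he : ∀ y, g (S y) = U (g y)) (hc : ∀ v : H, Continuous fun y => inner ℂ v (g y))
    (y0 y1 y2 z : Y) (hz : S z = z) (N : ℕ → ℕ) (h1 : Tendsto (fun k => S^[N k] y0) atTop (𝓝 y1))
    (h2 : Tendsto (fun k => S.symm^[N k] y1) atTop (𝓝 y2)) (h3 : g y2 = g z) : g y1 = g z := by
  have e : ∀ y, g (S y) - g z = U (g y - g z) := fun y => by rw [map_sub, ← he, ← he, hz]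
  have key : ∀ (n : ℕ) (a b : Y), inner ℂ (g a - g z) (g (S^[n] b) - g z) =
      inner ℂ (g (S.symm^[n] a) - g z) (g b - g z) := by
    intro n
    induction n with
    | zero => intro a b; rfl
    | succ n ih =>
      intro a b
      rw [Function.iterate_succ_apply', Function.iterate_succ_apply, ← ih, e]
      conv_lhs => rw [← S.apply_symm_apply a, e]
      exact U.inner_map_map _ _
  have c1 : ∀ v : H, Continuous fun y => inner ℂ v (g y - g z) := fun v => by
    simp only [inner_sub_right]; exact (hc v).sub continuous_const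
  have c2 : ∀ v : H, Continuous fun y => inner ℂ (g y - g z) v := fun v => by
    have := Complex.continuous_conj.comp (c1 v)
    refine this.congr fun y => ?_
    simp only [Function.comp]
    exact inner_conj_symm _ _
  have t1 := ((c1 (g y1 - g z)).tendsto y1).comp h1
  have t2 := ((c2 (g y0 - g z)).tendsto y2).comp h2
  have t3 := tendsto_nhds_unique (t1.congr fun k => key (N k) y1 y0) t2
  rwa [h3, sub_self, inner_zero_left, inner_self_eq_zero, sub_eq_zero] at t3

def M (i k : ℕ) : ℕ := 6 ^ (k ^ 2 - i)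

noncomputable def al (i : ℕ) : ℝ := Real.pi / 3 / 6 ^ i

lemma M_N {i k : ℕ} (hk : i < k) : (M i k : ℝ) = N k / 6 ^ i := by
  obtain ⟨j, hj⟩ : ∃ j, k ^ 2 = i + j := Nat.exists_eq_add_of_le (by nlinarith)
  unfold M N
  rw [hj, Nat.add_sub_cancel_left]; push_cast; field_simp; ring

lemma M_g {i k : ℕ} (hk : i < k) (ω : Om) :
    ∃ n : ℤ, M i k * g ω = n * (2 * Real.pi) + al i * r (ω k) + tl k ω / 6 ^ i := by
  have h1 : ∀ l ∈ Finset.range k, ∃ n : ℤ, M i k * tm ω l = n * (2 * Real.pi) := by
    intro l hl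
    have hl := Finset.mem_range.1 hl
    obtain ⟨j, hj⟩ : ∃ j, k ^ 2 = i + (l ^ 2 + 1) + j := Nat.exists_eq_add_of_le (by nlinarith)
    refine ⟨6 ^ j * r (ω l), ?_⟩
    unfold tm th N M
    rw [hj, add_assoc, Nat.add_sub_cancel_left]; push_cast; field_simp; ring
  choose! n hn using h1
  refine ⟨∑ l ∈ Finset.range k, n l, ?_⟩
  unfold g tl
  rw [← (summ_tm ω).sum_add_tsum_nat_add (k + 1), Finset.sum_range_succ, tsum_mul_left, mul_add,
    mul_add, Finset.mul_sum, Finset.sum_congr rfl hn, ← Finset.sum_mul, M_N hk]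
  push_cast
  have := N_pos k
  congr 1
  · congr 1
    unfold tm th al
    field_simp
  · ring

lemma ex_cos (x : ℝ) : ex x + ex (-x) = 2 * (Real.cos x : ℝ) := by
  unfold ex
  have h := Complex.two_cos (x : ℂ)
  rw [← Complex.ofReal_cos] at h
  rw [Complex.ofReal_neg, ← h]

lemma lim' (i : ℕ) (m s : ℤ) (hs : s = 1 ∨ s = -1) :
    Tendsto (fun k => ph (m + s * M i k)) atTop (𝓝 ((Real.cos (al i) : ℝ) * ph m)) := by
  have := mu_prob
  have := mu_inv
  have hc : ∀ t : ℝ, Continuous fun ω => ex (t * g ω) := fun t =>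
    cont_ex.comp (continuous_const.mul cont_g)
  have hint : ∀ {F : Om → ℂ}, Continuous F → Integrable F mu := fun hF =>
    hF.integrable_of_hasCompactSupport (HasCompactSupport.of_compactSpace _)
  have h1 : ∀ k, ∫ ω, ex ((m + s * M i k : ℤ) * g ω) ∂mu = (∫ ω, (ex ((m + s * M i k : ℤ) * g ω) +
      ex ((m + s * M i k : ℤ) * g (Pi.single k 1 + ω))) ∂mu) / 2 := by
    intro k
    have hc2 : Continuous fun ω => ex ((m + s * M i k : ℤ) * g (Pi.single k 1 + ω)) :=
      (hc _).comp (continuous_add_left (Pi.single k 1 : Om))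
    rw [integral_add (hint (hc _)) (hint hc2),
      integral_add_left_eq_self (fun ω => ex ((m + s * M i k : ℤ) * g ω))]
    ring
  have h0 : ((Real.cos (al i) : ℝ) : ℂ) * ph m =
      (∫ ω, ex (m * g ω) * (2 * (Real.cos (al i) : ℝ)) ∂mu) / 2 := by
    rw [integral_mul_const]; unfold ph; ring
  rw [h0]
  refine (Tendsto.div_const ?_ 2).congr fun k => (h1 k).symm
  refine tendsto_integral_of_dominated_convergence (fun _ => 2) (fun k => ?_) (integrable_const _)
    (fun k => Eventually.of_forall fun ω => ?_) (Eventually.of_forall fun ω => ?_)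
  · exact ((hc _).add ((hc _).comp (continuous_const.add continuous_id))).aestronglyMeasurable
  · refine (norm_add_le _ _).trans ?_
    rw [norm_ex, norm_ex]; norm_num
  · have e : ∀ k, i < k → ex (m * g ω) * (ex (s * (tl k ω / 6 ^ i)) * (2 * (Real.cos (al i) : ℝ) +
        (ex (-2 * m * tm ω k) - 1) * ex (-(s * (al i * r (ω k)))))) =
        ex ((m + s * M i k : ℤ) * g ω) + ex ((m + s * M i k : ℤ) * g (Pi.single k 1 + ω)) := by
      intro k hk
      obtain ⟨n, hn⟩ := M_g hk ω
      have a1 : (M i k : ℝ) * tm ω k = al i * r (ω k) := by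
        rw [M_N hk]; unfold tm th al; have := N_pos k; field_simp
      have a2 : ((m + s * M i k : ℤ) : ℝ) * g ω = m * g ω + s * (tl k ω / 6 ^ i) +
          s * (al i * r (ω k)) + (s * n : ℤ) * (2 * Real.pi) := by
        push_cast; linear_combination (s : ℝ) * hn
      have a3 : ((m + s * M i k : ℤ) : ℝ) * g (Pi.single k 1 + ω) = m * g ω +
          s * (tl k ω / 6 ^ i) + -2 * m * tm ω k + -(s * (al i * r (ω k))) +
          (s * n : ℤ) * (2 * Real.pi) := by
        rw [g_flip]; push_cast; linear_combination (s : ℝ) * hn - 2 * (s : ℝ) * a1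
      have a4 : ex (s * (al i * r (ω k))) + ex (-(s * (al i * r (ω k)))) =
          2 * (Real.cos (al i) : ℝ) := by
        rw [ex_cos]
        rcases hs with h | h <;> rcases r_cases (ω k) with h' | h' <;> rw [h, h'] <;> simp
      rw [a2, a3]
      simp only [ex_add, ex_int]
      linear_combination (-ex (m * g ω) * ex (s * (tl k ω / 6 ^ i))) * a4
    refine Tendsto.congr' ((eventually_gt_atTop i).mono e) ?_
    have t0 : Tendsto (fun k : ℕ => (1 / 2 : ℝ) ^ k * 2) atTop (𝓝 (0 * 2)) :=
      (tendsto_pow_atTop_nhds_zero_of_lt_one (by norm_num) (by norm_num)).mul_const 2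
    rw [zero_mul] at t0
    have t1 : Tendsto (fun k => tl k ω) atTop (𝓝 0) := squeeze_zero_norm (fun k => tl_le k ω) t0
    have t2 : Tendsto (fun k => ex (s * (tl k ω / 6 ^ i))) atTop (𝓝 (ex (s * (0 / 6 ^ i)))) :=
      (cont_ex.tendsto _).comp ((t1.div_const _).const_mul _)
    have t3 : Tendsto (fun k => ex (-2 * m * tm ω k) - 1) atTop (𝓝 (ex (-2 * m * 0) - 1)) :=
      ((cont_ex.tendsto _).comp ((summ_tm ω).tendsto_atTop_zero.const_mul _)).sub_const 1
    rw [zero_div, mul_zero, ex_zero] at t2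
    rw [mul_zero, ex_zero, sub_self] at t3
    have t4 : Tendsto (fun k => (ex (-2 * m * tm ω k) - 1) * ex (-(s * (al i * r (ω k)))))
        atTop (𝓝 0) := by
      refine squeeze_zero_norm (fun k => ?_) (tendsto_zero_iff_norm_tendsto_zero.1 t3)
      rw [norm_mul, norm_ex, mul_one]
    have := (t2.mul (t4.const_add (2 * ((Real.cos (al i) : ℝ) : ℂ)))).const_mul (ex (m * g ω))
    rwa [one_mul, add_zero] at this

noncomputable def yy (a : ℝ) : ℤ → ℝ := fun n => Ph (a * ph n)

lemma yy_lim (i : ℕ) (a : ℝ) (s : ℤ) (hs : s = 1 ∨ s = -1) :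
    Tendsto (fun k => fun n => yy a (n + s * M i k)) atTop (𝓝 (yy (a * Real.cos (al i)))) := by
  refine tendsto_pi_nhds.2 fun n => ?_
  have := (cont_Ph.tendsto _).comp ((lim' i n s hs).const_mul (a : ℂ))
  rw [← mul_assoc, ← Complex.ofReal_mul] at this
  exact this

lemma yy_one : yy 1 = ya := by funext n; simp [yy, ya]

lemma yy_mem (i m : ℕ) : yy (Real.cos (al i) ^ m) ∈ closure (Set.range (ob ya)) := by
  induction m with
  | zero => rw [pow_zero, yy_one]; exact (b0 ya).2
  | succ m ih =>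
    rw [pow_succ]
    exact isClosed_closure.mem_of_tendsto (yy_lim i _ 1 (Or.inl rfl))
      (Eventually.of_forall fun k => (tr ya (1 * M i k) ⟨_, ih⟩).2)

noncomputable def yp (i m : ℕ) : Cl ya := ⟨_, yy_mem i m⟩

lemma const {H : Type} [NormedAddCommGroup H] [InnerProductSpace ℂ H] (U : H ≃ₗᵢ[ℂ] H)
    (β : Cl ya → H) (he : ∀ y, β (Sh ya y) = U (β y))
    (hc : ∀ v : H, Continuous fun y => inner ℂ v (β y)) (y : Cl ya) : β y = β z0 := by
  have step : ∀ i m, β (yp i (m + 2)) = β z0 → β (yp i (m + 1)) = β z0 := by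
    intro i m h
    refine obstr' (Sh ya) U β he hc (yp i m) _ _ z0 rfl (M i) ?_ ?_ h
    · simp only [Sh_iter]
      refine tendsto_subtype_rng.2 ?_
      have := yy_lim i (Real.cos (al i) ^ m) 1 (Or.inl rfl)
      simp only [one_mul, ← pow_succ] at this
      exact this
    · simp only [Sh_iter']
      refine tendsto_subtype_rng.2 ?_
      have := yy_lim i (Real.cos (al i) ^ (m + 1)) (-1) (Or.inr rfl)
      simp only [neg_mul, one_mul, ← pow_succ] at this
      exact this
  have h1 : ∀ i, β (yp i 1) = β z0 := by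
    intro i
    have p1 : 0 < al i := by unfold al; have := Real.pi_pos; positivity
    have p2 : al i ≤ Real.pi / 3 := div_le_self (by have := Real.pi_pos; positivity)
      (one_le_pow₀ (by norm_num))
    have p3 : Real.cos (al i) < 1 := by
      rw [← Real.cos_zero]
      exact Real.cos_lt_cos_of_nonneg_of_le_pi le_rfl (by linarith [Real.pi_pos]) p1
    have p4 : 0 ≤ Real.cos (al i) :=
      Real.cos_nonneg_of_mem_Icc ⟨by linarith [Real.pi_pos], by linarith [Real.pi_pos]⟩
    obtain ⟨m, hm⟩ := exists_pow_lt_of_lt_one (show (0 : ℝ) < 1 / 4 by norm_num) p3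
    have h2 : yp i (m + 1) = z0 := by
      apply Subtype.ext; funext n
      show Ph _ = 0
      unfold Ph
      rw [max_eq_left]
      rw [norm_mul, Complex.norm_real, Real.norm_eq_abs, abs_of_nonneg (pow_nonneg p4 _), pow_succ]
      have := norm_ph n
      have h3 := pow_nonneg p4 m
      have h4 : Real.cos (al i) * ‖ph n‖ ≤ 1 := mul_le_one₀ p3.le (norm_nonneg _) this
      nlinarith
    have h3 : ∀ m, β (yp i (m + 1)) = β z0 → β (yp i 1) = β z0 := by
      intro m
      induction m with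
      | zero => exact id
      | succ m ih => exact fun h => ih (step i m h)
    exact h3 m (by rw [h2])
  have h2 : Tendsto (fun i => yp i 1) atTop (𝓝 (b0 ya)) := by
    refine tendsto_subtype_rng.2 (tendsto_pi_nhds.2 fun n => ?_)
    have t1 : Tendsto al atTop (𝓝 0) :=
      (tendsto_pow_atTop_atTop_of_one_lt (show (1 : ℝ) < 6 by norm_num)).const_div_atTop _
    have t2 := (Real.continuous_cos.tendsto _).comp t1
    rw [Real.cos_zero] at t2
    have t3 := (cont_Ph.tendsto _).comp
      (((Complex.continuous_ofReal.tendsto _).comp t2).mul_const (ph n))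
    rw [Complex.ofReal_one, one_mul] at t3
    refine t3.congr fun i => ?_
    show _ = Ph (_ * _)
    rw [pow_one]; rfl
  have h3 : β (b0 ya) = β z0 := ext_inner_left ℂ fun v =>
    tendsto_nhds_unique (((hc v).tendsto _).comp h2)
      (tendsto_const_nhds.congr fun i => by simp only [Function.comp, h1])
  have h4 : ∀ m : ℤ, β (tr ya m (b0 ya)) = β z0 := by
    intro m
    have hU : U (β z0) = β z0 := by rw [← he]; rfl
    induction m using Int.induction_on with
    | zero => rw [← Sh_zpow, zpow_zero]; exact h3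
    | succ m ih =>
      rw [← Sh_zpow, add_comm, zpow_one_add, Homeomorph.mul_apply, he, Sh_zpow, ih, hU]
    | pred m ih =>
      apply U.injective
      rw [← he, hU, ← Sh_zpow, ← Homeomorph.mul_apply, ← zpow_one_add, add_sub_cancel, Sh_zpow, ih]
  refine ext_inner_left ℂ fun v => ?_
  exact (dense_b0 ya).induction_on (p := fun y => inner ℂ v (β y) = inner ℂ v (β z0)) y
    (isClosed_eq (hc v) continuous_const) fun m => by rw [h4]

lemma beta {Y H : Type} [TopologicalSpace Y] [CompactSpace Y] [T2Space Y] (S : Y ≃ₜ Y) (y0 : Y)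
    (hd : DenseRange fun n : ℤ => (S ^ n) y0) [NormedAddCommGroup H] [InnerProductSpace ℂ H]
    [CompleteSpace H] (U : H ≃ₗᵢ[ℂ] H) (e : ℤ → H) (he : ∀ n, U (e n) = e (n + 1)) (ζ : H)
    (hζ : ‖ζ‖ ≤ 1) (F : C(Y, ℂ)) (hF : ∀ n, inner ℂ (e n) ζ = F ((S ^ n) y0)) :
    ∃ β : Y → H, (∀ y, β (S y) = U.symm (β y)) ∧ (∀ v : H, Continuous fun y => inner ℂ v (β y)) ∧
      ∀ y, inner ℂ (e 0) (β y) = F y := by
  have i1 : CompactSpace (B H) :=
    isCompact_iff_compactSpace.1 (WeakDual.isCompact_closedBall (𝕜 := ℂ) (E := H) 0 1)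
  let L : Submodule ℂ H := (Submodule.span ℂ (Set.range e))ᗮ
  have hL : ∀ w, w ∈ L ↔ ∀ n, inner ℂ (e n) w = 0 := fun w => by
    refine ⟨fun h n => h _ (Submodule.subset_span ⟨n, rfl⟩), fun h u hu => ?_⟩
    induction hu using Submodule.span_induction with
    | mem x hx => obtain ⟨n, rfl⟩ := hx; exact h n
    | zero => simp
    | add x y _ _ h1 h2 => rw [inner_add_left, h1, h2, add_zero]
    | smul c x _ h1 => rw [inner_smul_left, h1, mul_zero]
  have ex1 : ∀ y, ∃ x : B H, ∀ n, x.1 (e n) = starRingEnd ℂ (F ((S ^ n) y)) := by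
    let Q : Set (B H × Y) := {p | ∀ n, p.1.1 (e n) = starRingEnd ℂ (F ((S ^ n) p.2))}
    have hQ : IsClosed Q := by
      simp only [Q, Set.setOf_forall]
      exact isClosed_iInter fun n => isClosed_eq ((cont_ev _).comp continuous_fst)
        (Complex.continuous_conj.comp (F.continuous.comp ((S ^ n).continuous.comp continuous_snd)))
    intro y
    obtain ⟨p, hp, rfl⟩ := hd.induction_on (p := fun y => y ∈ Prod.snd '' Q) y
      (hQ.isCompact.image continuous_snd).isClosed fun m => by
        refine ⟨(pt ((U ^ (-m)) ζ) (by rw [LinearIsometryEquiv.norm_map]; exact hζ), _),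
          fun n => ?_, rfl⟩
        have := zorb (fun (a : H ≃ₗᵢ[ℂ] H) y => a y) (fun _ => rfl) (fun _ _ _ => rfl) U e he m n
        show inner ℂ _ _ = starRingEnd ℂ (F ((S ^ n * S ^ m) y0))
        rw [← zpow_add, ← hF, inner_conj_symm, ← (U ^ m).inner_map_map, this]
        congr 1
        show (U ^ m * U ^ (-m)) ζ = _
        rw [← zpow_add, add_neg_cancel, zpow_zero]; rfl
    exact ⟨p.1, hp⟩
  have ex2 : ∀ y, ∃ v : H, ‖v‖ ≤ 2 ∧ v ∈ Lᗮ ∧ ∀ n, inner ℂ (e n) v = F ((S ^ n) y) := by
    intro y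
    obtain ⟨x, hx⟩ := ex1 y
    have h1 : ‖rz x‖ ≤ 1 := by unfold rz; rw [LinearIsometryEquiv.norm_map]; exact B_le x
    refine ⟨rz x - L.starProjection (rz x), ?_, L.sub_starProjection_mem_orthogonal _, fun n => ?_⟩
    · have := L.norm_starProjection_apply_le (rz x)
      exact (norm_sub_le _ _).trans (by linarith)
    · rw [inner_sub_right, (hL _).1 (L.starProjection_apply_mem _) n, sub_zero, ← inner_conj_symm,
        rz_inner, hx, Complex.conj_conj]
  choose β b1 b2 b3 using ex2
  refine ⟨β, fun y => ?_, fun v => ?_, fun y => by simpa using b3 y 0⟩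
  · have h1 : U.symm (β y) ∈ Lᗮ := fun w hw => by
      rw [← U.inner_map_map, U.apply_symm_apply]
      refine b2 y _ ((hL _).2 fun n => ?_)
      rw [← sub_add_cancel n 1, ← he, U.inner_map_map]
      exact (hL _).1 hw _
    have h2 : β (S y) - U.symm (β y) ∈ L := (hL _).2 fun n => by
      rw [inner_sub_right, b3, ← U.inner_map_map, U.apply_symm_apply, he, b3, zpow_add_one,
        Homeomorph.mul_apply, sub_self]
    exact sub_eq_zero.1 (inner_self_eq_zero.1 (Lᗮ.sub_mem (b2 _) h1 _ h2))
  · let A : Submodule ℂ H :=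
      { carrier := {v | Continuous fun y => inner ℂ v (β y)}
        add_mem' := fun ha hb => by
          simp only [Set.mem_setOf_eq, inner_add_left]; exact Continuous.add ha hb
        zero_mem' := by simp only [Set.mem_setOf_eq, inner_zero_left]; exact continuous_const
        smul_mem' := fun c x hx => by
          simp only [Set.mem_setOf_eq, inner_smul_left]; exact Continuous.mul continuous_const hx }
    have hA : IsClosed (A : Set H) := by
      refine isClosed_of_closure_subset fun w hw => ?_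
      refine continuous_of_uniform_approx_of_continuous fun u hu => ?_
      obtain ⟨ε, hε, hu⟩ := Metric.mem_uniformity_dist.1 hu
      obtain ⟨w', hw', hd⟩ := Metric.mem_closure_iff.1 hw (ε / 2) (by positivity)
      refine ⟨_, hw', fun y => hu ?_⟩
      rw [dist_eq_norm] at hd ⊢
      rw [← inner_sub_left]
      have := norm_inner_le_norm (𝕜 := ℂ) (w - w') (β y)
      nlinarith [b1 y, norm_nonneg (w - w')]
    have := hA.completeSpace_coe
    have h1 : A = ⊤ := by
      rw [← Submodule.orthogonal_eq_bot_iff, eq_bot_iff]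
      intro w hw
      have h2 : w ∈ L := (hL _).2 fun n => hw _ (by
        show Continuous _
        simp only [b3]; exact F.continuous.comp (S ^ n).continuous)
      have h3 : w ∈ A := by
        show Continuous _
        simp only [fun y => b2 y w h2]; exact continuous_const
      exact inner_self_eq_zero.1 (hw w h3)
    have h2 : v ∈ A := by rw [h1]; trivial
    exact h2

lemma alg_const (F : C(Cl ya, ℂ)) (h : (fun n : ℤ => F ((Sh ya ^ n) (b0 ya))) ∈ BZ) :
    ∃ c, ∀ n : ℤ, F ((Sh ya ^ n) (b0 ya)) = c := by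
  have := compact_Y
  obtain ⟨ν, e, ζ, he, hζ⟩ := rep2 h
  have hp : (0 : ℝ) < ‖ζ‖ + 1 := by positivity
  obtain ⟨β, b1, b2, b3⟩ := beta (Sh ya) (b0 ya) (by simp only [Sh_zpow]; exact dense_b0 ya) (UF ν)
    (fun n => ((‖ζ‖ + 1 : ℝ) : ℂ) • e n) (fun n => by rw [map_smul, he])
    ((((‖ζ‖ + 1)⁻¹ : ℝ) : ℂ) • ζ) (by
      rw [norm_smul, Complex.norm_real, Real.norm_eq_abs, abs_of_pos (by positivity),
        inv_mul_le_iff₀ hp]
      linarith) F (fun n => by
      rw [inner_smul_left, inner_smul_right, hζ, Complex.conj_ofReal, ← mul_assoc,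
        ← Complex.ofReal_mul, mul_inv_cancel₀ hp.ne', Complex.ofReal_one, one_mul])
  exact ⟨_, fun n => by rw [← b3, const _ β b1 b2]⟩

lemma hilb0 (F : C(Cl ya, ℂ)) (ε : ℝ) (hε : ε > 0) :
    ∃ b ∈ BZ, ∀ n : ℤ, ‖F ((Sh ya ^ n) (b0 ya)) - b n‖ ≤ ε := by
  have := compact_X
  have h1 := ContinuousMap.starSubalgebra_topologicalClosure_eq_top_of_separatesPoints alg (by
    intro x y hxy
    obtain ⟨n, hn⟩ : ∃ n, x.1 n ≠ y.1 n := by
      by_contra hc
      exact hxy (Subtype.ext (funext fun n => by_contra fun h => hc ⟨n, h⟩))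
    refine ⟨_, ⟨⟨fun x => x.1 n, (continuous_apply n).comp continuous_subtype_val⟩, ?_, rfl⟩, hn⟩
    have := ph_mem n
    show _ ∈ BZ
    convert this using 1
    funext m
    show ph (n + m) = _
    rw [add_comm])
  have h2 : F.comp ⟨prj, cont_prj⟩ ∈ closure (alg : Set C(Cl ph, ℂ)) := by
    rw [← StarSubalgebra.topologicalClosure_coe, h1]; trivial
  obtain ⟨G, hG, hd⟩ := Metric.mem_closure_iff.1 h2 ε hε
  refine ⟨_, hG, fun n => ?_⟩
  have h3 := (ContinuousMap.dist_apply_le_dist (f := F.comp ⟨prj, cont_prj⟩) (g := G)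
    (tr ph n (b0 ph))).trans hd.le
  rw [dist_eq_norm] at h3
  rw [Sh_zpow]
  exact h3

end Pool.Agent.H33.Hr
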