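import Mathlib

set_option autoImplicit false
open MeasureTheory

namespace Pool.Agent.H33.Hr

/-- Fourier-Stieltjes transforms of complex measures on the circle: the complex span of the
transforms of finite positive Borel measures. -/
def BZ : Submodule ℂ (ℤ → ℂ) :=
  Submodule.span ℂ {b | ∃ ν : Measure UnitAddCircle, IsFiniteMeasure ν ∧
    ∀ n, b n = ∫ t, fourier (-n) t ∂ν}

/-- Point-transitive Hilbert system. -/
def HilbertSys {Y : Type} [TopologicalSpace Y] (S : Y ≃ₜ Y) : Prop :=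
  ∃ y0 : Y, DenseRange (fun n : ℤ => (S ^ n) y0) ∧
    ∀ F : C(Y, ℂ), ∀ ε > (0 : ℝ), ∃ b ∈ BZ, ∀ n : ℤ, ‖F ((S ^ n) y0) - b n‖ ≤ ε

/-- Hilbert-representable system. -/
def HRep {X : Type} [TopologicalSpace X] (T : X ≃ₜ X) : Prop :=
  ∃ (H : Type) (_ : NormedAddCommGroup H) (_ : InnerProductSpace ℂ H) (_ : CompleteSpace H)
    (U : H ≃ₗᵢ[ℂ] H) (f : X → H), Function.Injective f ∧ (∀ x, f (T x) = U (f x)) ∧
      ∀ v : H, Continuous fun x => inner ℂ v (f x)

/-- Factor map. -/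
def Factor {X Y : Type} [TopologicalSpace X] [TopologicalSpace Y] (T : X ≃ₜ X) (S : Y ≃ₜ Y)
    (π : X → Y) : Prop :=
  Continuous π ∧ Function.Surjective π ∧ ∀ x, π (T x) = S (π x)

/-- Group-factor: the fibres of a factor map are the orbits of a compact group of homeomorphisms
commuting with T. -/
def GroupFactor {X Y : Type} [TopologicalSpace X] [TopologicalSpace Y] (T : X ≃ₜ X)
    (S : Y ≃ₜ Y) : Prop :=
  ∃ (K : Subgroup (X ≃ₜ X)) (π : X → Y),
    IsCompact ((fun κ : X ≃ₜ X => (κ : C(X, X))) '' K) ∧ (∀ κ ∈ K, ∀ x, κ (T x) = T (κ x)) ∧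
      Factor T S π ∧ ∀ x x', π x = π x' ↔ ∃ κ ∈ K, κ x = x'

/-- Almost one-to-one map. -/
def Almost11 {X Y : Type} [TopologicalSpace X] (π : X → Y) : Prop :=
  ∃ X0 : Set X, Dense X0 ∧ IsGδ X0 ∧ ∀ x ∈ X0, π ⁻¹' {π x} = {x}

end Pool.Agent.H33.Hr
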