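import Mathlib

set_option autoImplicit false
open Filter Topology Set

namespace Pool.Agent.H33.Inv

lemma pairing {Λ S : Type} [Countable Λ] (φ : Λ → S) (ι : S → S) (hι : ∀ s, ι (ι s) = s)
    (h : ∀ s, {l | φ l = s}.Infinite) :
    ∃ σ : Equiv.Perm Λ, (∀ l, σ (σ l) = l) ∧ ∀ l, φ (σ l) = ι (φ l) := by
  classical
  have : ∀ s, ∃ (enc : Λ → ℕ) (dec : ℕ → Λ), (∀ n, φ (dec n) = s ∧ enc (dec n) = n) ∧
      ∀ l, φ l = s → dec (enc l) = l := fun s => by
    have := (h s).to_subtype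
    obtain ⟨e⟩ := nonempty_denumerable {l | φ l = s}
    let q := Denumerable.eqv {l | φ l = s}
    refine ⟨fun l => if h : φ l = s then q ⟨l, h⟩ else 0, fun n => (q.symm n).1,
      fun n => ⟨(q.symm n).2, ?_⟩, fun l hl => ?_⟩
    · simp only
      rw [dif_pos (show φ (q.symm n).1 = s from (q.symm n).2)]
      exact q.apply_symm_apply n
    · simp [hl]
  choose enc dec h1 h2 using this
  have h3 : Function.Involutive fun l => dec (ι (φ l)) (enc (φ l) l) := fun l => by
    simp only [(h1 _ _).1, (h1 _ _).2, hι, h2 _ l rfl]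
  exact ⟨h3.toPerm, h3, fun l => (h1 _ _).1⟩

variable {H : Type} [NormedAddCommGroup H] [InnerProductSpace ℂ H]

abbrev K := ℕ × Bool × Fin 5
abbrev L := Option (K × Bool)
noncomputable abbrev HH (H : Type) [NormedAddCommGroup H] := lp (fun _ : L => H) 2

noncomputable def Pm (σ : Equiv.Perm L) : HH H →L[ℂ] HH H := LinearMap.mkContinuous
  { toFun := fun f => ⟨fun l => f (σ l), memℓp_gen
      (σ.summable_iff.2 (f.2.summable (by simp)))⟩
    map_add' := fun _ _ => rfl
    map_smul' := fun _ _ => rfl } 1 fun f => by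
    rw [one_mul, lp.norm_eq_tsum_rpow (by simp), lp.norm_eq_tsum_rpow (by simp) f,
      ← σ.tsum_eq fun l => ‖f l‖ ^ (2 : ENNReal).toReal]
    rfl

@[simp] lemma Pm_apply (σ : Equiv.Perm L) (f : HH H) (l : L) : Pm σ f l = f (σ l) := rfl

def lab : L → Option (Bool × Fin 5 × Bool) := Option.map fun k => (k.1.2.1, k.1.2.2, k.2)

noncomputable def Dg (w : Option (Bool × Fin 5 × Bool) → H →L[ℂ] H) : HH H →L[ℂ] HH H :=
  lp.mapCLM 2 (fun l => w (lab l)) (K := ∑ s, ‖w s‖) (by positivity)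
    fun l => Finset.single_le_sum (f := fun s => ‖w s‖) (fun _ _ => norm_nonneg _) (Finset.mem_univ _)

@[simp] lemma Dg_apply (w : Option (Bool × Fin 5 × Bool) → H →L[ℂ] H) (f : HH H) (l : L) :
    Dg w f l = w (lab l) (f l) := rfl

def tau : Equiv.Perm L := Equiv.optionCongr ((Equiv.refl K).prodCongr Equiv.boolNot)

noncomputable def Mx (a : H →L[ℂ] H) (m : Fin 5 → Matrix Bool Bool ℂ) (z : Bool → H →L[ℂ] H) :
    HH H →L[ℂ] HH H :=
  Dg (fun s => s.elim a fun s => m s.2.1 s.2.2 s.2.2 • z s.1) +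
    Dg (fun s => s.elim 0 fun s => m s.2.1 s.2.2 (!s.2.2) • z s.1) * Pm tau

variable (a a' : H →L[ℂ] H) (m m' : Fin 5 → Matrix Bool Bool ℂ) (z z' : Bool → H →L[ℂ] H)

lemma Mx_none (f : HH H) : Mx a m z f none = a (f none) := by simp [Mx, lab]

lemma Mx_some (f : HH H) (k : K) (p : Bool) : Mx a m z f (some (k, p)) =
    m k.2.2 p true • z k.2.1 (f (some (k, true))) + m k.2.2 p false • z k.2.1 (f (some (k, false))) := by
  cases p <;> simp [Mx, lab, tau, add_comm]

lemma Mx_mul : Mx a m z * Mx a' m' z' = Mx (a * a') (m * m') (z * z') := by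
  ext f l
  rcases l with _ | ⟨k, p⟩
  · simp [Mx_none]
  · simp only [ContinuousLinearMap.mul_apply, Mx_some, map_add, map_smul, Pi.mul_apply,
      Matrix.mul_apply, Fintype.sum_bool]
    module

lemma Mx_one : Mx (1 : H →L[ℂ] H) 1 1 = 1 := by
  ext f l
  rcases l with _ | ⟨k, p⟩
  · simp [Mx_none]
  · cases p <;> simp [Mx_some]

def I2 {R : Type} [Monoid R] (x : R) : Prop := ∃ j k : R, j * j = 1 ∧ k * k = 1 ∧ x = j * k

lemma I2.conj {R : Type} [Monoid R] {x : R} (h : I2 x) (u v : R) (h1 : u * v = 1) (h2 : v * u = 1) :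
    I2 (u * x * v) := by
  obtain ⟨j, k, a, b, rfl⟩ := h
  have e : ∀ x y : R, u * x * v * (u * y * v) = u * (x * y) * v := fun x y => by
    simp only [mul_assoc]; rw [← mul_assoc v, h2, one_mul]
  exact ⟨u * j * v, u * k * v, by rw [e, a, mul_one, h1], by rw [e, b, mul_one, h1], (e _ _).symm⟩

lemma diag_I2 (d : Fin 5 → Bool → ℂ) (σ : Equiv.Perm L) (h1 : ∀ l, σ (σ l) = l)
    (w : L → H →L[ℂ] H) (hw : ∀ l, w (σ l) * w l = 1) (h0 : w none = a)
    (h2 : ∀ k p, w (some (k, p)) = d k.2.2 p • z k.2.1) :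
    I2 (Mx a (fun t => Matrix.diagonal (d t)) z) := by
  have e : ∀ f l, Mx a (fun t => Matrix.diagonal (d t)) z f l = w l (f l) := fun f l => by
    rcases l with _ | ⟨k, p⟩
    · rw [Mx_none, h0]
    · cases p <;> simp [Mx_some, h2]
  refine ⟨Pm σ, Pm σ * Mx a (fun t => Matrix.diagonal (d t)) z, ?_, ?_, ?_⟩ <;> ext f l
  · simp [h1]
  · simpa [e, h1] using congrArg (fun T : H →L[ℂ] H => T (f l)) (hw l)
  · simp [h1]

def sg (b : Bool) : ℂ := if b then 1 else -1

def l1 : Fin 5 → Bool → Bool × SignType :=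
  ![fun p => (p, 0), fun p => (p, 1), fun p => (!p, 1),
    fun p => (true, if p then -1 else 1), fun p => (false, if p then -1 else 1)]

def l2 : Fin 5 → Bool → Bool × Bool :=
  ![fun _ => (true, true), fun p => (true, p), fun p => (false, p), fun p => (p, true),
    fun p => (!p, true)]

theorem model (A A' : H →L[ℂ] H) (h1 : A * A' = 1) (h2 : A' * A = 1) (μ : ℂ) (hμ : μ ≠ 0) :
    ∃ X Y, I2 X ∧ I2 Y ∧ Mx A (fun _ => Matrix.diagonal fun p => sg p * μ) 1 = X * Y := by
  let z : Bool → H →L[ℂ] H := fun e => if e then A else A'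
  have hz : ∀ e, z (!e) * z e = 1 := fun e => by cases e <;> simp [z, h1, h2]
  have hs : ∀ b, sg b * sg b = 1 := fun b => by cases b <;> simp [sg]
  let v1 : Bool × SignType → ℂ := fun s => sg s.1 * μ ^ (s.2 : ℤ)
  let v2 : Bool × Bool → ℂ := fun s => sg s.1 * if s.2 then μ else μ⁻¹
  obtain ⟨σ, s1, s2⟩ := pairing (fun l : L => l.elim ((true, 0), true) fun k => (l1 k.1.2.2 k.2, k.1.2.1))
    (fun s => ((s.1.1, -s.1.2), !s.2)) (by simp) fun s => by
      obtain ⟨t, p, h⟩ : ∃ t p, l1 t p = s.1 := by generalize s.1 = s; revert s; decide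
      exact infinite_of_injective_forall_mem (f := fun n : ℕ => (some ((n, s.2, t), p) : L))
        (fun _ _ h => by simpa using h) fun n => by simp [h]
  obtain ⟨ρ, r1, r2⟩ := pairing (fun k : K × Bool => (l2 k.1.2.2 k.2, k.1.2.1))
    (fun s => ((s.1.1, !s.1.2), !s.2)) (by simp) fun s => by
      obtain ⟨t, p, h⟩ : ∃ t p, l2 t p = s.1 := by generalize s.1 = s; revert s; decide
      exact infinite_of_injective_forall_mem (f := fun n : ℕ => (((n, s.2, t), p) : K × Bool))
        (fun _ _ h => by simpa using h) fun n => by simp [h]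
  have a1 := diag_I2 A z (fun t p => v1 (l1 t p)) σ s1
    (fun l => (fun s : (Bool × SignType) × Bool => v1 s.1 • z s.2)
      (l.elim ((true, 0), true) fun k => (l1 k.1.2.2 k.2, k.1.2.1))) (fun l => by
      rw [s2]
      generalize (l.elim ((true, 0), true) fun k => (l1 k.1.2.2 k.2, k.1.2.1)) = s
      simp only [smul_mul_smul_comm, hz, v1, SignType.coe_neg, zpow_neg]
      rw [mul_mul_mul_comm, hs, inv_mul_cancel₀ (zpow_ne_zero _ hμ)]; simp)
    (by simp [v1, z, sg]) fun _ _ => rfl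
  have a2 := diag_I2 1 (fun e => z (!e)) (fun t p => v2 (l2 t p)) (Equiv.optionCongr ρ)
    (fun l => by cases l <;> simp [r1])
    (fun l => l.elim 1 fun k => (fun s : (Bool × Bool) × Bool => v2 s.1 • z (!s.2))
      (l2 k.1.2.2 k.2, k.1.2.1)) (fun l => by
      rcases l with _ | k
      · simp
      · have r3 := r2 k
        simp only [Prod.mk.injEq] at r3
        simp only [Equiv.optionCongr_apply, Option.map_some, Option.elim_some, r3.1, r3.2,
          smul_mul_smul_comm, hz, v2]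
        rw [mul_mul_mul_comm, hs]
        cases (l2 k.1.2.2 k.2).2 <;> simp [hμ]) rfl fun _ _ => rfl
  let Hd : Matrix Bool Bool ℂ := fun p q => if p || q then 1 else -1
  let B : Matrix Bool Bool ℂ := fun p q => if p = q then μ + 1 else μ - 1
  let B' : Matrix Bool Bool ℂ := fun p q => (4 * μ)⁻¹ * if p = q then μ + 1 else 1 - μ
  have e1 : Hd * ((1 / 2 : ℂ) • Hd) = 1 := by
    ext p q; cases p <;> cases q <;> simp [Hd, Matrix.mul_apply] <;> norm_num
  have e2 : B * B' = 1 := by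
    ext p q; cases p <;> cases q <;> simp [B, B', Matrix.mul_apply] <;> field_simp <;> ring
  have inv : ∀ u u' : Fin 5 → Matrix Bool Bool ℂ, (∀ t, u t * u' t = 1) →
      Mx (1 : H →L[ℂ] H) u 1 * Mx 1 u' 1 = 1 ∧ Mx (1 : H →L[ℂ] H) u' 1 * Mx 1 u 1 = 1 :=
    fun u u' h => by
      rw [Mx_mul, Mx_mul, show u * u' = 1 from funext h,
        show u' * u = 1 from funext fun t => mul_eq_one_comm.1 (h t)]
      simpa using Mx_one
  obtain ⟨i1, i2⟩ := inv ![1, B, B, Hd, Hd] ![1, B', B', (1 / 2 : ℂ) • Hd, (1 / 2 : ℂ) • Hd]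
    fun t => by fin_cases t <;> simp [e1, e2, -one_div, -Matrix.mul_smul]
  obtain ⟨i3, i4⟩ := inv ![1, Hd, Hd, B, B] ![1, (1 / 2 : ℂ) • Hd, (1 / 2 : ℂ) • Hd, B', B']
    fun t => by fin_cases t <;> simp [e1, e2, -one_div, -Matrix.mul_smul]
  refine ⟨_, _, a1.conj _ _ i1 i2, a2.conj _ _ i3 i4, ?_⟩
  simp only [Mx_mul, mul_one, one_mul]
  congr 1
  · ext t p q
    fin_cases t <;> cases p <;> cases q <;>
      simp [Matrix.mul_apply, Matrix.diagonal_apply, v1, v2, l1, l2, sg, Hd, B, B'] <;>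
      field_simp <;> ring
  · ext e : 1
    cases e <;> simp [z, h1, h2]

end Pool.Agent.H33.Inv
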