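import Mathlib

set_option autoImplicit false
open Filter Topology Set
open scoped InnerProductSpace

namespace Pool.Agent.H33.Inv

variable {H : Type} [NormedAddCommGroup H] [InnerProductSpace ℂ H] [CompleteSpace H]

structure Sm (P : Set H → Prop) : Prop where
  un : ∀ F G, P F → P G → P (F ∪ G)
  fin : ∀ F : Set H, F.Finite → P F
  ex : ∀ F, P F → ∃ x, ‖x‖ = 1 ∧ ∀ f ∈ F, ⟪f, x⟫_ℂ = 0

def Good (P : Set H → Prop) (R : H →L[ℂ] H) : Prop :=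
  ∃ C : ℝ, ∀ F, P F → ∃ x y, ‖x‖ = 1 ∧ (∀ f ∈ F, ⟪f, x⟫_ℂ = 0) ∧
    y ∈ Submodule.span ℂ {x, R x} ∧ ‖y‖ ≤ C ∧ ⟪y, x⟫_ℂ = 1 ∧ ⟪y, R x⟫_ℂ = 0

def Sc (P : Set H → Prop) (R : H →L[ℂ] H) (c : ℂ) : Prop :=
  ∀ ε > (0 : ℝ), ∃ F, P F ∧ ∀ x, ‖x‖ = 1 → (∀ f ∈ F, ⟪f, x⟫_ℂ = 0) → ‖R x - c • x‖ ≤ ε

variable {P : Set H → Prop}

omit [CompleteSpace H] in
lemma notgood {R : H →L[ℂ] H} (h : ¬ Good P R) (δ : ℝ) (hδ : 0 < δ) :
    ∃ F, P F ∧ ∀ x, (∀ f ∈ F, ⟪f, x⟫_ℂ = 0) → ∃ a : ℂ, ‖x - a • R x‖ ≤ δ * ‖x‖ := by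
  unfold Good at h
  push Not at h
  obtain ⟨F, hF, h⟩ := h δ⁻¹
  refine ⟨F, hF, fun x hx => ?_⟩
  suffices key : ∀ x, ‖x‖ = 1 → (∀ f ∈ F, ⟪f, x⟫_ℂ = 0) → ∃ a : ℂ, ‖x - a • R x‖ ≤ δ by
    by_cases h0 : x = 0
    · exact ⟨0, by simp [h0]⟩
    have h1 : 0 < ‖x‖ := norm_pos_iff.2 h0
    obtain ⟨a, ha⟩ := key ((‖x‖ : ℂ)⁻¹ • x) (by simp [norm_smul, h1.ne'])
      fun f hf => by simp [hx f hf]
    rw [map_smul, smul_comm a, ← smul_sub, norm_smul, norm_inv, Complex.norm_real, norm_norm,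
      inv_mul_le_iff₀ h1, mul_comm] at ha
    exact ⟨a, ha⟩
  intro x h1 hx
  obtain ⟨a, ha⟩ := Submodule.mem_span_singleton.1 ((ℂ ∙ R x).starProjection_apply_mem x)
  refine ⟨a, by_contra fun hn => ?_⟩
  have o : ⟪x - a • R x, R x⟫_ℂ = 0 := by
    rw [ha]
    exact Submodule.starProjection_inner_eq_zero x _ (Submodule.mem_span_singleton_self _)
  set w := x - a • R x with hw
  have w0 : δ < ‖w‖ := not_le.1 hn
  have w1 : (‖w‖ : ℂ) ≠ 0 := by exact_mod_cast (hδ.trans w0).ne'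
  refine h x (((‖w‖ : ℂ) ^ 2)⁻¹ • w) h1 hx (Submodule.smul_mem _ _ (Submodule.sub_mem _
    (Submodule.subset_span (by simp)) (Submodule.smul_mem _ _ (Submodule.subset_span (by simp)))))
    ?_ ?_ (by simp [o])
  · rw [norm_smul, norm_inv, norm_pow, Complex.norm_real, norm_norm, sq, mul_inv, mul_assoc,
      inv_mul_cancel₀ (hδ.trans w0).ne', mul_one]
    exact inv_anti₀ hδ w0.le
  · have : ⟪w, x⟫_ℂ = (‖w‖ : ℂ) ^ 2 := by
      rw [show x = w + a • R x by simp [hw], inner_add_right, inner_smul_right]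
      simp [← hw, o, inner_self_eq_norm_sq_to_K]
    simp [this, w1]

omit [CompleteSpace H] in
lemma orth_le {u v : H} (h : ⟪u, v⟫_ℂ = 0) : ‖u‖ ≤ ‖u + v‖ ∧ ‖v‖ ≤ ‖u + v‖ := by
  have := norm_add_sq_eq_norm_sq_add_norm_sq_of_inner_eq_zero u v h
  constructor <;> refine le_of_sq_le_sq ?_ (norm_nonneg _) <;>
    nlinarith [mul_self_nonneg ‖u‖, mul_self_nonneg ‖v‖]

lemma two (hP : Sm P) {R : H →L[ℂ] H} (h : ¬ Good P R) (δ : ℝ) (hδ : 0 < δ) :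
    ∃ x1 F, ‖x1‖ = 1 ∧ P F ∧ ∀ x, ‖x‖ = 1 → (∀ f ∈ F, ⟪f, x⟫_ℂ = 0) →
      ∃ a : ℂ, ‖x1 - a • R x1‖ ≤ 2 * δ ∧ ‖x - a • R x‖ ≤ 2 * δ := by
  obtain ⟨F, hF, h⟩ := notgood h δ hδ
  obtain ⟨x1, a1, a2⟩ := hP.ex F hF
  refine ⟨x1, F ∪ {x1, R x1, R.adjoint x1, R.adjoint (R x1)}, a1,
    hP.un _ _ hF (hP.fin _ (toFinite _)), fun x b1 b2 => ?_⟩
  obtain ⟨a, ha⟩ := h (x1 + x) fun f hf => by rw [inner_add_right, a2 f hf, b2 f (Or.inl hf), add_zero]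
  have c1 := b2 x1 (by simp)
  have c2 := b2 (R x1) (by simp)
  have c3 := b2 (R.adjoint x1) (by simp)
  have c4 := b2 (R.adjoint (R x1)) (by simp)
  rw [ContinuousLinearMap.adjoint_inner_left] at c3 c4
  have o := orth_le (u := x1 - a • R x1) (v := x - a • R x) (by simp [c1, c2, c3, c4])
  rw [show x1 - a • R x1 + (x - a • R x) = x1 + x - a • R (x1 + x) by rw [map_add]; module] at o
  have := norm_add_le x1 x
  exact ⟨a, by nlinarith [o.1], by nlinarith [o.2]⟩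

lemma sc_zero (hP : Sm P) {R : H →L[ℂ] H} (h : Sc P R 0) : Good P R := by
  by_contra hn
  obtain ⟨x1, F, a1, hF, h1⟩ := two hP hn (1 / 8) (by norm_num)
  have r0 : 0 < ‖R x1‖ := by
    obtain ⟨x, b1, b2⟩ := hP.ex F hF
    obtain ⟨a, c1, -⟩ := h1 x b1 b2
    refine norm_pos_iff.2 fun e => ?_
    simp [e, a1] at c1
    linarith
  obtain ⟨G, hG, h2⟩ := h (‖R x1‖ / 4) (by positivity)
  obtain ⟨x, b1, b2⟩ := hP.ex _ (hP.un _ _ hF hG)
  obtain ⟨a, c1, c2⟩ := h1 x b1 fun f hf => b2 f (Or.inl hf)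
  have c3 := h2 x b1 fun f hf => b2 f (Or.inr hf)
  have d1 := norm_sub_norm_le x (a • R x)
  have d2 := norm_sub_norm_le (a • R x1) x1
  rw [norm_sub_rev] at d2
  rw [norm_smul] at d1 d2
  rw [zero_smul, sub_zero] at c3
  nlinarith [norm_nonneg a]

lemma sc_ex (hP : Sm P) {R : H →L[ℂ] H} (h : ¬ Good P R) : ∃ c, Sc P R c := by
  have key : ∀ ε > (0 : ℝ), ∃ (c : ℂ) (F : Set H), P F ∧
      ∀ x, ‖x‖ = 1 → (∀ f ∈ F, ⟪f, x⟫_ℂ = 0) → ‖R x - c • x‖ ≤ ε := by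
    intro ε he
    obtain ⟨δ, d0, d1, d2⟩ : ∃ δ : ℝ, 0 < δ ∧ δ ≤ 1 / 4 ∧ 12 * δ * ‖R‖ ≤ ε :=
      ⟨min (1 / 4) (ε / (12 * (‖R‖ + 1))), by positivity, min_le_left _ _, by
        have := (le_div_iff₀ (by positivity)).1 (min_le_right (1 / 4) (ε / (12 * (‖R‖ + 1))))
        have h0 : 0 < min (1 / 4) (ε / (12 * (‖R‖ + 1))) := by positivity
        nlinarith⟩
    have l : ∀ (x : H) (a : ℂ), ‖x‖ = 1 → ‖x - a • R x‖ ≤ 2 * δ → ‖R x - a⁻¹ • x‖ ≤ ε / 3 := by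
      intro x a h1 h2
      have e1 := norm_sub_norm_le x (a • R x)
      have e2 := R.le_opNorm x
      rw [norm_smul] at e1
      have a0 : a ≠ 0 := by rintro rfl; simp [h1] at h2; linarith
      have a1 : 0 < ‖a‖ := norm_pos_iff.2 a0
      rw [show R x - a⁻¹ • x = -(a⁻¹ • (x - a • R x)) by simp [smul_sub, smul_smul, a0], norm_neg,
        norm_smul, norm_inv, inv_mul_le_iff₀ a1]
      have : 1 / 2 ≤ ‖a‖ * ‖R‖ := by nlinarith
      nlinarith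
    obtain ⟨x1, F, a1, hF, h1⟩ := two hP h δ d0
    obtain ⟨x2, b1, b2⟩ := hP.ex F hF
    obtain ⟨a0, c0, -⟩ := h1 x2 b1 b2
    refine ⟨a0⁻¹, F, hF, fun x e1 e2 => ?_⟩
    obtain ⟨a, c1, c2⟩ := h1 x e1 e2
    have f1 := norm_sub_le (R x1 - a0⁻¹ • x1) (R x1 - a⁻¹ • x1)
    have f2 := norm_add_le (R x - a⁻¹ • x) ((a⁻¹ - a0⁻¹) • x)
    rw [show R x1 - a0⁻¹ • x1 - (R x1 - a⁻¹ • x1) = (a⁻¹ - a0⁻¹) • x1 by module, norm_smul] at f1
    rw [show R x - a⁻¹ • x + (a⁻¹ - a0⁻¹) • x = R x - a0⁻¹ • x by module, norm_smul] at f2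
    rw [a1] at f1
    rw [e1] at f2
    linarith [l _ _ a1 c0, l _ _ a1 c1, l _ _ e1 c2]
  choose c F hF hc using fun n : ℕ => key (1 / ((n : ℝ) + 1)) (by positivity)
  have cau : ∀ n m, n ≤ m → dist (c n) (c m) ≤ 2 * (1 / ((n : ℝ) + 1)) := fun n m hm => by
    obtain ⟨x, b1, b2⟩ := hP.ex _ (hP.un _ _ (hF n) (hF m))
    have f1 := norm_sub_le (R x - c m • x) (R x - c n • x)
    rw [show R x - c m • x - (R x - c n • x) = (c n - c m) • x by module, norm_smul, b1] at f1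
    have := Nat.one_div_le_one_div (α := ℝ) hm
    rw [dist_eq_norm]
    linarith [hc n x b1 fun f hf => b2 f (Or.inl hf), hc m x b1 fun f hf => b2 f (Or.inr hf)]
  have t0 := tendsto_one_div_add_atTop_nhds_zero_nat (𝕜 := ℝ)
  obtain ⟨c0, h0⟩ := cauchySeq_tendsto_of_complete
    (cauchySeq_of_le_tendsto_0' _ cau (by simpa using t0.const_mul (2 : ℝ)))
  refine ⟨c0, fun ε he => ?_⟩
  obtain ⟨n, n1, n2⟩ := ((t0.eventually (ge_mem_nhds (half_pos he))).and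
    (h0.eventually (Metric.closedBall_mem_nhds c0 (half_pos he)))).exists
  refine ⟨F n, hF n, fun x e1 e2 => ?_⟩
  have f2 := norm_add_le (R x - c n • x) ((c n - c0) • x)
  rw [show R x - c n • x + (c n - c0) • x = R x - c0 • x by module, norm_smul, e1] at f2
  linarith [hc n x e1 e2, mem_closedBall_iff_norm.1 n2]

omit [CompleteSpace H] in
lemma Sc.comb (hP : Sm P) {R S : H →L[ℂ] H} {c d : ℂ} (h1 : Sc P R c) (h2 : Sc P S d) (a b : ℂ) :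
    Sc P (a • R + b • S) (a * c + b * d) := fun ε he => by
  obtain ⟨F, hF, h1⟩ := h1 (ε / (‖a‖ + ‖b‖ + 1)) (by positivity)
  obtain ⟨G, hG, h2⟩ := h2 (ε / (‖a‖ + ‖b‖ + 1)) (by positivity)
  refine ⟨_, hP.un _ _ hF hG, fun x e1 e2 => ?_⟩
  have f1 := (le_div_iff₀ (by positivity)).1 (h1 x e1 fun f hf => e2 f (Or.inl hf))
  have f2 := (le_div_iff₀ (by positivity)).1 (h2 x e1 fun f hf => e2 f (Or.inr hf))
  rw [show (a • R + b • S) x - (a * c + b * d) • x = a • (R x - c • x) + b • (S x - d • x) by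
    simp only [ContinuousLinearMap.add_apply, ContinuousLinearMap.smul_apply]; module]
  refine (norm_add_le _ _).trans ?_
  rw [norm_smul, norm_smul]
  have := norm_nonneg a
  have := norm_nonneg b
  rcases le_total ‖R x - c • x‖ ‖S x - d • x‖ with e | e <;>
    nlinarith [norm_nonneg (R x - c • x), norm_nonneg (S x - d • x)]

theorem exists_good (hP : Sm P) (T T' : H →L[ℂ] H) (h : T' * T = 1) :
    ∃ μ : ℂ, μ ≠ 0 ∧ Good P (T - μ ^ 2 • T') := by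
  by_contra hn
  push Not at hn
  obtain ⟨c, h1⟩ := sc_ex hP (hn 1 one_ne_zero)
  obtain ⟨d, h2⟩ := sc_ex hP (hn Complex.I Complex.I_ne_zero)
  have h3 := h1.comb hP h2 (1 / 2) (1 / 2)
  have h4 := h1.comb hP h2 (-1 / 2) (1 / 2)
  rw [Complex.I_sq] at h3 h4
  rw [show (1 / 2 : ℂ) • (T - (1 : ℂ) ^ 2 • T') + (1 / 2 : ℂ) • (T - (-1 : ℂ) • T') = T by module] at h3
  rw [show (-1 / 2 : ℂ) • (T - (1 : ℂ) ^ 2 • T') + (1 / 2 : ℂ) • (T - (-1 : ℂ) • T') = T' by module] at h4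
  generalize 1 / 2 * c + 1 / 2 * d = l at h3
  generalize -1 / 2 * c + 1 / 2 * d = l' at h4
  have e : l * l' = 1 := by
    rw [eq_comm, ← sub_eq_zero, ← norm_le_zero_iff]
    refine le_of_forall_pos_le_add fun ε he => ?_
    obtain ⟨F, hF, h3⟩ := h3 (ε / (‖T'‖ + ‖l‖ + 1)) (by positivity)
    obtain ⟨G, hG, h4⟩ := h4 (ε / (‖T'‖ + ‖l‖ + 1)) (by positivity)
    obtain ⟨x, e1, e2⟩ := hP.ex _ (hP.un _ _ hF hG)
    have f1 := (le_div_iff₀ (by positivity)).1 (h3 x e1 fun f hf => e2 f (Or.inl hf))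
    have f2 := (le_div_iff₀ (by positivity)).1 (h4 x e1 fun f hf => e2 f (Or.inr hf))
    have f3 := norm_add_le (T' (T x - l • x)) (l • (T' x - l' • x))
    have f4 := T'.le_opNorm (T x - l • x)
    have f5 : T' (T x) = x := congrArg (fun S : H →L[ℂ] H => S x) h
    rw [show T' (T x - l • x) + l • (T' x - l' • x) = (1 - l * l') • x by
      rw [map_sub, map_smul, f5]; module, norm_smul, norm_smul, e1] at f3
    have := norm_nonneg T'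
    have := norm_nonneg l
    rcases le_total ‖T x - l • x‖ ‖T' x - l' • x‖ with e | e <;>
      nlinarith [norm_nonneg (T x - l • x), norm_nonneg (T' x - l' • x)]
  have h5 := h3.comb hP h4 1 (-l ^ 2)
  rw [show 1 * l + -l ^ 2 * l' = 0 by linear_combination -l * e,
    show (1 : ℂ) • T + -l ^ 2 • T' = T - l ^ 2 • T' by module] at h5
  exact hn l (left_ne_zero_of_mul_eq_one e) (sc_zero hP h5)

end Pool.Agent.H33.Inv
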