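import Pool.Agent.H33.Inv1
import Pool.Agent.H33.Inv2

set_option autoImplicit false
open Filter Topology Set Cardinal
open scoped InnerProductSpace

namespace Pool.Agent.H33.Inv

variable {H : Type} [NormedAddCommGroup H] [InnerProductSpace ℂ H] [CompleteSpace H]

lemma sm_card {ι : Type} [Infinite ι] (b : HilbertBasis ι ℂ H) : Sm fun F : Set H => #F < #ι where
  un F G h1 h2 := (mk_union_le F G).trans_lt (add_lt_of_lt (aleph0_le_mk ι) h1 h2)
  fin F h := h.lt_aleph0.trans_le (aleph0_le_mk ι)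
  ex F h := by
    by_cases hF : F.Finite
    · have := FiniteDimensional.span_of_finite ℂ hF
      have h1 : (Submodule.span ℂ F)ᗮ ≠ ⊥ := fun e => by
        rw [Submodule.orthogonal_eq_bot_iff] at e
        rw [e] at this
        have : FiniteDimensional ℂ H := Module.finite_def.2 (Module.Finite.iff_fg.1 this)
        exact Module.Finite.not_linearIndependent_of_infinite _ b.orthonormal.linearIndependent
      obtain ⟨x, x1, x2⟩ := Submodule.exists_mem_ne_zero_of_ne_bot h1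
      exact ⟨(‖x‖ : ℂ)⁻¹ • x, by simp [norm_smul, x2],
        fun f hf => by simp [x1 f (Submodule.subset_span hf)]⟩
    · have h1 : ∀ f : F, #(Function.support (b.repr f)) ≤ ℵ₀ := fun f =>
        le_aleph0_iff_set_countable.2 (((b.repr f).2.summable (by simp)).countable_support.mono
          fun i hi => by simpa using hi)
      have h2 : #(⋃ f : F, Function.support (b.repr f)) < #ι :=
        (mk_iUnion_le _).trans_lt ((mul_le_mul' le_rfl (ciSup_le' h1)).trans_lt (by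
          rwa [mul_aleph0_eq (infinite_iff.1 (Set.Infinite.to_subtype hF))]))
      obtain ⟨i, hi⟩ : ∃ i, i ∉ ⋃ f : F, Function.support (b.repr f) := by
        by_contra e
        push Not at e
        simp [eq_univ_of_forall e] at h2
      refine ⟨b i, b.orthonormal.1 i, fun f hf => ?_⟩
      rw [inner_eq_zero_symm, ← b.repr_apply_apply]
      exact by_contra fun e => hi (mem_iUnion.2 ⟨⟨f, hf⟩, e⟩)

lemma family {κ : Cardinal} (hκ : ℵ₀ ≤ κ) (B : Fin 6 → H →L[ℂ] H) (h0 : B 0 = 1) (Q : H → Prop)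
    (hg : ∀ F : Set H, #F < κ → ∃ x, ‖x‖ = 1 ∧ (∀ f ∈ F, ⟪f, x⟫_ℂ = 0) ∧ Q x)
    (I : Type) (hI : #I ≤ κ) : ∃ x : I → H, (∀ j, ‖x j‖ = 1 ∧ Q (x j)) ∧
      Pairwise fun i j => ∀ k l, ⟪B k (x i), B l (x j)⟫_ℂ = 0 := by
  obtain ⟨s, hs⟩ := zorn_subset {s : Set H | (∀ x ∈ s, ‖x‖ = 1 ∧ Q x) ∧
      s.Pairwise fun x y => ∀ k l, ⟪B k x, B l y⟫_ℂ = 0} fun c hc ch =>
    ⟨⋃₀ c, ⟨fun x ⟨t, h1, h2⟩ => (hc h1).1 x h2,
      (pairwise_sUnion ch.directedOn).2 fun t h1 => (hc h1).2⟩, fun t h => subset_sUnion_of_mem h⟩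
  have h1 : κ ≤ #s := by
    by_contra hn
    obtain ⟨x, x1, x2, x3⟩ := hg (range fun p : s × Fin 6 × Fin 6 =>
      (B p.2.2).adjoint (B p.2.1 p.1)) (mk_range_le.trans_lt (by
        rw [mk_prod]
        exact mul_lt_of_lt hκ (by simpa using not_le.1 hn) (by
          simpa using (lt_aleph0_of_finite (Fin 6 × Fin 6)).trans_le hκ)))
    have o : ∀ y ∈ s, ∀ k l, ⟪B k y, B l x⟫_ℂ = 0 := fun y hy k l => by
      rw [← ContinuousLinearMap.adjoint_inner_left]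
      exact x2 _ ⟨(⟨y, hy⟩, k, l), rfl⟩
    have m : x ∈ s := hs.mem_of_prop_insert ⟨forall_mem_insert.2 ⟨⟨x1, x3⟩, hs.prop.1⟩,
      hs.prop.2.insert fun y hy _ => ⟨fun k l => inner_eq_zero_symm.1 (o y hy l k), o y hy⟩⟩
    have := o x m 0 0
    simp [h0, x1] at this
  obtain ⟨e⟩ := (le_def _ _).1 (hI.trans h1)
  exact ⟨fun j => e j, fun j => hs.prop.1 _ (e j).2, fun i j h => hs.prop.2 (e i).2 (e j).2
    fun h' => h (e.injective (Subtype.ext h'))⟩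

lemma loc {G : Type} [NormedAddCommGroup G] [InnerProductSpace ℂ G] (x x' y y' : G) (C : ℝ)
    (b1 : ‖x‖ ≤ C) (b2 : ‖x'‖ ≤ C) (b3 : ‖y‖ ≤ C) (b4 : ‖y'‖ ≤ C) (h1 : ⟪y, x⟫_ℂ = 1)
    (h2 : ⟪y', x'⟫_ℂ = 1) (h3 : ⟪y', x⟫_ℂ = ⟪y, x'⟫_ℂ) : ∃ J : G →L[ℂ] G, J * J = 1 ∧
      ‖J - 1‖ ≤ 4 * C ^ 2 + 2 ∧ J x' = x ∧ ∀ v, ⟪y, J v⟫_ℂ = ⟪y', v⟫_ℂ := by
  set s := ⟪y, x'⟫_ℂ with hs
  obtain ⟨e, e1, e2, e3⟩ : ∃ e : ℂ, e * e = 1 ∧ starRingEnd ℂ e = e ∧ 1 ≤ ‖1 + e * s‖ := by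
    have := norm_add_le (1 + 1 * s) (1 + -1 * s)
    rw [show 1 + 1 * s + (1 + -1 * s) = 2 by ring, Complex.norm_two] at this
    by_cases h : 1 ≤ ‖1 + 1 * s‖
    · exact ⟨1, by simp, by simp, h⟩
    · exact ⟨-1, by simp, by simp, by linarith⟩
  have e4 : ‖e‖ = 1 := by
    have := congrArg norm e1
    rw [norm_mul, norm_one] at this
    nlinarith [norm_nonneg e]
  have e5 : 1 + e * s ≠ 0 := norm_pos_iff.1 (by linarith)
  obtain ⟨c, hc⟩ : ∃ c, c * (1 + e * s) = 1 := ⟨_, inv_mul_cancel₀ e5⟩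
  have e6 : ‖c‖ ≤ 1 := by
    have := congrArg norm hc
    rw [norm_mul, norm_one] at this
    nlinarith [norm_nonneg c]
  refine ⟨e • (c • (innerSL ℂ (y + e • y')).smulRight (x + e • x') - 1), ?_, ?_, ?_, fun v => ?_⟩
  · have hw : ⟪y + e • y', x + e • x'⟫_ℂ = 2 * (1 + e * s) := by
      simp [inner_add_left, inner_add_right, e2, h1, h2, h3, ← hs]
      linear_combination e1
    generalize y + e • y' = h at hw
    generalize x + e • x' = w at hw
    ext v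
    simp [inner_sub_right, inner_smul_right, hw]
    match_scalars
    · linear_combination (2 * e * e * c * ⟪h, v⟫_ℂ) * hc
    · linear_combination e1
  · refine (norm_sub_le _ _).trans ?_
    rw [norm_smul, e4, one_mul]
    have n1 := norm_add_le y (e • y')
    have n2 := norm_add_le x (e • x')
    have n3 := norm_sub_le (c • (innerSL ℂ (y + e • y')).smulRight (x + e • x')) 1
    rw [norm_smul, e4] at n1 n2
    rw [norm_smul, ContinuousLinearMap.norm_smulRight_apply, innerSL_apply_norm] at n3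
    have n4 : ‖(1 : G →L[ℂ] G)‖ ≤ 1 := ContinuousLinearMap.norm_id_le
    have n5 : ‖y + e • y'‖ * ‖x + e • x'‖ ≤ (2 * C) * (2 * C) :=
      mul_le_mul (by linarith) (by linarith) (norm_nonneg _) (by linarith [norm_nonneg x])
    have n6 := mul_le_of_le_one_left (mul_nonneg (norm_nonneg (y + e • y'))
      (norm_nonneg (x + e • x'))) e6
    linarith
  · simp [inner_add_left, e2, h2, ← hs]
    match_scalars
    · linear_combination hc - c * 0 * e1 + c * e1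
    · linear_combination e * hc + e * c * e1
  · simp [inner_add_left, inner_add_right, e2, h1, ← hs]
    linear_combination (e * (⟪y, v⟫_ℂ + e * ⟪y', v⟫_ℂ)) * hc + ⟪y', v⟫_ℂ * e1

omit [CompleteSpace H] in
lemma assemble (S S' : H →L[ℂ] H) (h1 : S * S' = 1) (h2 : S' * S = 1) (μ : ℂ) (hμ : μ ≠ 0)
    (V : HH H →L[ℂ] H) (W : H →L[ℂ] HH H) (O : H ≃L[ℂ] HH H) (a1 : ∀ f, W (V f) = f)
    (a2 : ∀ f, S (V f) = V (Mx (μ • 1) (fun _ => Matrix.diagonal fun p => sg p * μ) 1 f))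
    (a3 : ∀ v, W (S v) = Mx (μ • 1) (fun _ => Matrix.diagonal fun p => sg p * μ) 1 (W v)) :
    ∃ X Y, I2 X ∧ I2 Y ∧ S = X * Y := by
  classical
  have s1 : ∀ v, S (S' v) = v := fun v => congrArg (fun T : H →L[ℂ] H => T v) h1
  have s2 : ∀ v, S' (S v) = v := fun v => congrArg (fun T : H →L[ℂ] H => T v) h2
  have c1 : ∀ v, V (W (S v)) = S (V (W v)) := fun v => by rw [a2, a3]
  have c2 : ∀ v, V (W (S' v)) = S' (V (W v)) := fun v => by
    rw [← s2 (V (W (S' v))), ← c1, s1]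
  obtain ⟨X, Y, hX, hY, e⟩ := model (S * (1 - V ∘L W) + μ • V ∘L W) (S' * (1 - V ∘L W) + μ⁻¹ • V ∘L W)
    (by ext v; simp [a1, c2, s1, smul_smul, hμ]) (by ext v; simp [a1, c1, s2, smul_smul, hμ]) μ hμ
  let i0 := lp.singleContinuousLinearMap ℂ (fun _ : L => H) 2 none
  let p0 := lp.evalCLM ℂ (fun _ : L => H) 2 none
  have q1 : ∀ v, i0 v none = v := fun v => by simp [i0]
  have q2 : ∀ v k, i0 v (some k) = 0 := fun v k => by simp [i0, lp.single_apply]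
  have q3 : ∀ f, p0 f = f none := fun _ => rfl
  let Θ : H →L[ℂ] HH H := W + i0 ∘L (1 - V ∘L W + V ∘L O ∘L p0 ∘L W - p0 ∘L W)
  let Θ' : HH H →L[ℂ] H := (1 - V ∘L W) ∘L p0 + V ∘L (1 + i0 ∘L (O.symm ∘L W ∘L p0 - p0))
  have t1 : ∀ f, Θ (Θ' f) = f := fun f => by
    simp [Θ, Θ', a1, q1, q3]
    abel
  have t2 : ∀ v, Θ' (Θ v) = v := fun v => by
    simp [Θ, Θ', a1, q1, q3]
    abel
  have t3 : ∀ v, Θ (S v) = (X * Y) (Θ v) := fun v => by
    rw [← e]
    ext l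
    rcases l with _ | ⟨k, p⟩
    · simp [Θ, Mx_none, a1, q1, q3, a3, ← a2]
    · simp [Θ, Mx_some, q2, a3, -map_add, -map_sub]
  have cj : ∀ X, I2 X → I2 (Θ' ∘L X ∘L Θ) := fun X ⟨j, k, b1, b2, b3⟩ =>
    ⟨Θ' ∘L j ∘L Θ, Θ' ∘L k ∘L Θ,
      by ext v; simpa [t1, t2] using congrArg (fun T : HH H →L[ℂ] HH H => Θ' (T (Θ v))) b1,
      by ext v; simpa [t1, t2] using congrArg (fun T : HH H →L[ℂ] HH H => Θ' (T (Θ v))) b2,
      by ext v; simp [b3, t1]⟩
  exact ⟨_, _, cj X hX, cj Y hY, by ext v; simpa [t1, t2] using congrArg Θ' (t3 v)⟩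

end Pool.Agent.H33.Inv
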