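import Pool.Agent.H33.Inv3

set_option autoImplicit false
open Filter Topology Set Cardinal
open scoped InnerProductSpace

namespace Pool.Agent.H33.Inv

variable {H : Type} [NormedAddCommGroup H] [InnerProductSpace ℂ H] [CompleteSpace H]

lemma blocks {I : Type} (T : H →L[ℂ] H) (G : I → Submodule ℂ H) [∀ j, CompleteSpace (G j)]
    (hG : Pairwise fun i j => G i ⟂ G j) (x x' y y' : ∀ j, G j) (μ : I → ℂ) (C : ℝ) (hC : 0 ≤ C)
    (b : ∀ j, ‖x j‖ ≤ C ∧ ‖x' j‖ ≤ C ∧ ‖y j‖ ≤ C ∧ ‖y' j‖ ≤ C) (h1 : ∀ j, ⟪y j, x j⟫_ℂ = 1)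
    (h2 : ∀ j, ⟪y' j, x' j⟫_ℂ = 1) (h3 : ∀ j, ⟪y' j, x j⟫_ℂ = ⟪y j, x' j⟫_ℂ)
    (h4 : ∀ j, T (x j) = μ j • (x' j : H)) (h5 : ∀ j v, ⟪(y' j : H), T v⟫_ℂ = μ j * ⟪(y j : H), v⟫_ℂ) :
    ∃ (J : H →L[ℂ] H) (V : lp (fun _ : I => ℂ) 2 →L[ℂ] H) (W : H →L[ℂ] lp (fun _ : I => ℂ) 2),
      J * J = 1 ∧ (∀ f, W (V f) = f) ∧ (∀ v j, W (J (T v)) j = μ j * W v j) ∧
      ∀ D : lp (fun _ : I => ℂ) 2 →L[ℂ] lp (fun _ : I => ℂ) 2, (∀ f j, D f j = μ j * f j) →
        ∀ f, J (T (V f)) = V (D f) := by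
  classical
  choose J j1 j2 j3 j4 using fun j => loc (x j) (x' j) (y j) (y' j) C (b j).1 (b j).2.1 (b j).2.2.1
    (b j).2.2.2 (h1 j) (h2 j) (h3 j)
  have hV := OrthogonalFamily.of_pairwise hG
  let Φ := hV.linearIsometry.toContinuousLinearMap
  have k0 : ∀ f, Φ.adjoint (Φ f) = f := fun f => ext_inner_left ℂ fun g => by
    rw [ContinuousLinearMap.adjoint_inner_right]
    exact hV.linearIsometry.inner_map_map g f
  have k1 : ∀ j (z : G j), Φ (lp.single 2 j z) = z := fun j z => hV.linearIsometry_apply_single z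
  have k2 : ∀ j (z : G j) v, ⟪z, Φ.adjoint v j⟫_ℂ = ⟪(z : H), v⟫_ℂ := fun j z v => by
    rw [← k1, ← ContinuousLinearMap.adjoint_inner_right, lp.inner_single_left]
  let Δ := lp.mapCLM 2 (fun j => J j - 1) (by positivity) j2
  have d1 : ∀ f j, Δ f j = J j (f j) - f j := fun _ _ => rfl
  let X := lp.mapCLM 2 (fun j => ContinuousLinearMap.toSpanSingleton ℂ (x j)) hC
    fun j => by simpa using (b j).1
  let Y := lp.mapCLM 2 (fun j => innerSL ℂ (y j)) hC fun j => by simpa using (b j).2.2.1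
  have x1 : ∀ f j, X f j = f j • x j := fun _ _ => rfl
  have y1 : ∀ f j, Y f j = ⟪y j, f j⟫_ℂ := fun _ _ => rfl
  have x2 : ∀ j (c : ℂ), X (lp.single 2 j c) = lp.single 2 j (c • x j) := fun j c => by
    ext i : 2
    by_cases e : i = j
    · subst e; simp [x1]
    · simp [x1, lp.single_apply, e]
  have d2 : ∀ f, Δ f + Δ f + Δ (Δ f) = 0 := fun f => by
    ext i : 2
    have : J i (J i (f i)) = f i := congrArg (fun S : G i →L[ℂ] G i => S (f i)) (j1 i)
    simp [d1, this]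
  have d3 : ∀ j, Δ (lp.single 2 j (x' j)) = lp.single 2 j (x j - x' j) := fun j => by
    ext i : 2
    by_cases e : i = j
    · subst e; simp [d1, j3]
    · simp [d1, lp.single_apply, e]
  refine ⟨1 + Φ ∘L Δ ∘L Φ.adjoint, Φ ∘L X, Y ∘L Φ.adjoint, ?_, fun f => ?_, fun v j => ?_,
    fun D hD f => ?_⟩
  · ext v
    have := congrArg Φ (d2 (Φ.adjoint v))
    simp only [map_add, map_zero] at this
    simp [k0, add_assoc, ← this]
  · ext j
    simp [k0, x1, y1, h1]
  · simp only [ContinuousLinearMap.comp_apply, ContinuousLinearMap.add_apply, y1, map_add, k0,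
      ContinuousLinearMap.one_apply, lp.coeFn_add, Pi.add_apply, d1, inner_sub_right, j4, k2, h5]
    ring
  · refine congrArg (fun S : lp (fun _ : I => ℂ) 2 →L[ℂ] H => S f) (lp.ext_continuousLinearMap
      (f := (1 + Φ ∘L Δ ∘L Φ.adjoint) ∘L T ∘L Φ ∘L X) (g := Φ ∘L X ∘L D) (by simp) fun j => ?_)
    have e : D (lp.single 2 j 1) = lp.single 2 j (μ j) := by
      ext i
      by_cases e : i = j
      · subst e; simp [hD]
      · simp [hD, lp.single_apply, e]
    have e2 : Φ.adjoint (x' j) = lp.single 2 j (x' j) := by rw [← k1, k0]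
    ext
    simp [e, x2, k1, h4, e2, d3, -lp.single_sub, -lp.single_smul, smul_sub]

theorem five (hH : ¬ FiniteDimensional ℂ H) (T T' : H →L[ℂ] H) (h1 : T * T' = 1) (h2 : T' * T = 1) :
    ∃ J X Y, J * J = 1 ∧ I2 X ∧ I2 Y ∧ T = J * (X * Y) := by
  classical
  obtain ⟨w, b, -⟩ := exists_hilbertBasis ℂ H
  have : Infinite w := by
    by_contra hw
    have : Fintype w := fintypeOfNotInfinite hw
    exact hH (Module.Finite.of_basis b.toOrthonormalBasis.toBasis)
  obtain ⟨μ, hμ, C, hC⟩ := exists_good (sm_card b) T T' h2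
  have hI : #(L × w) = #w := by
    rw [mk_prod, mk_eq_aleph0 L]
    simpa using aleph0_mul_eq (aleph0_le_mk w)
  let B : Fin 6 → H →L[ℂ] H := ![1, T, T', T'.adjoint, T'.adjoint * T, T'.adjoint * T']
  obtain ⟨x, x1, x2⟩ := family (aleph0_le_mk w) B rfl (fun x => ∃ y, y ∈ Submodule.span ℂ
    {x, (T - μ ^ 2 • T') x} ∧ ‖y‖ ≤ C ∧ ⟪y, x⟫_ℂ = 1 ∧ ⟪y, (T - μ ^ 2 • T') x⟫_ℂ = 0)
    (fun F hF => by obtain ⟨x, y, a, c, d⟩ := hC F hF; exact ⟨x, a, c, y, d⟩) (L × w) hI.le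
  choose y y1 y2 y3 y4 using fun j => (x1 j).2
  let G : L × w → Submodule ℂ H := fun j => Submodule.span ℂ (range fun k => B k (x j))
  have : ∀ j, CompleteSpace (G j) := fun j => by
    have := FiniteDimensional.span_of_finite ℂ (finite_range fun k => B k (x j))
    exact FiniteDimensional.complete ℂ _
  have g : ∀ j k, B k (x j) ∈ G j := fun j k => Submodule.subset_span ⟨k, rfl⟩
  have g1 : ∀ j, y j ∈ G j ∧ T'.adjoint (y j) ∈ G j := fun j => by
    obtain ⟨a, c, e⟩ := Submodule.mem_span_pair.1 (y1 j)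
    simp only [← e, map_add, map_smul, map_sub, ContinuousLinearMap.sub_apply,
      ContinuousLinearMap.smul_apply]
    exact ⟨add_mem ((G j).smul_mem _ (g j 0)) ((G j).smul_mem _
      (sub_mem (g j 1) ((G j).smul_mem _ (g j 2)))), add_mem ((G j).smul_mem _ (g j 3))
      ((G j).smul_mem _ (sub_mem (g j 4) ((G j).smul_mem _ (g j 5))))⟩
  let m : L → ℂ := fun l => l.elim μ fun k => sg k.2 * μ
  have m1 : ∀ l, m l * m l = μ ^ 2 ∧ ‖m l‖ = ‖μ‖ := fun l => by
    rcases l with _ | ⟨k, _ | _⟩ <;> simp [m, sg, sq]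
  have m2 : ∀ l, m l ≠ 0 := fun l => by rw [← norm_ne_zero_iff, (m1 l).2]; simpa using hμ
  have t2 : ∀ v, T' (T v) = v := fun v => congrArg (fun S : H →L[ℂ] H => S v) h2
  have C0 : 0 ≤ C := (norm_nonneg _).trans (y2 (none, Classical.arbitrary w))
  have p1 : 0 ≤ ‖μ‖⁻¹ * ‖T‖ := by positivity
  have p2 : 0 ≤ ‖μ‖ * (‖T'‖ * C) := by positivity
  obtain ⟨J, V, W, a1, a2, a3, a4⟩ := blocks T G (fun i j h => Submodule.isOrtho_span.2 (by
      rintro _ ⟨k, rfl⟩ _ ⟨l, rfl⟩; exact x2 h k l)) (fun j => ⟨x j, g j 0⟩)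
    (fun j => ⟨(m j.1)⁻¹ • T (x j), (G j).smul_mem _ (g j 1)⟩) (fun j => ⟨y j, (g1 j).1⟩)
    (fun j => ⟨starRingEnd ℂ (m j.1) • T'.adjoint (y j), (G j).smul_mem _ (g1 j).2⟩)
    (fun j => m j.1) (1 + ‖μ‖⁻¹ * ‖T‖ + C + ‖μ‖ * (‖T'‖ * C)) (by positivity) (fun j => by
      have e1 := T.le_opNorm (x j)
      have e2 := T'.adjoint.le_opNorm (y j)
      rw [(x1 j).1, mul_one] at e1
      rw [LinearIsometryEquiv.norm_map] at e2
      have e3 := mul_le_mul_of_nonneg_left e1 (inv_nonneg.2 (norm_nonneg μ))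
      have e4 := mul_le_mul_of_nonneg_left (e2.trans (mul_le_mul_of_nonneg_left (y2 j)
        (norm_nonneg _))) (norm_nonneg μ)
      simp only [Submodule.coe_norm, norm_smul, norm_inv, (m1 _).2, (x1 j).1, RCLike.norm_conj]
      refine ⟨?_, ?_, ?_, ?_⟩ <;> linarith [y2 j]) y3
    (fun j => by simp [inner_smul_left, inner_smul_right, ContinuousLinearMap.adjoint_inner_left, t2,
      y3, m2])
    (fun j => by
      have := y4 j
      simp only [ContinuousLinearMap.sub_apply, ContinuousLinearMap.smul_apply, inner_sub_right,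
        inner_smul_right, sub_eq_zero] at this
      simp [inner_smul_left, inner_smul_right, ContinuousLinearMap.adjoint_inner_left, this,
        ← (m1 j.1).1, mul_assoc, m2])
    (fun j => by simp [m2]) fun j v => by
      simp [inner_smul_left, ContinuousLinearMap.adjoint_inner_left, t2, mul_comm]
  have on : Orthonormal ℂ fun j : L × w => (lp.single 2 j.1 (b j.2) : HH H) := by
    rw [orthonormal_iff_ite]
    rintro ⟨l, i⟩ ⟨l', i'⟩
    rw [lp.inner_single_left]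
    by_cases e : l = l'
    · subst e; simp [orthonormal_iff_ite.1 b.orthonormal]
    · simp [lp.single_apply, e]
  let e : HilbertBasis (L × w) ℂ (HH H) := HilbertBasis.mkOfOrthogonalEqBot on
    (eq_bot_iff.2 fun f hf => by
      ext l
      refine b.repr.injective (lp.ext (funext fun i => ?_))
      have := hf _ (Submodule.subset_span ⟨(l, i), rfl⟩)
      simpa [lp.inner_single_left, b.repr_apply_apply] using this)
  have e1 : ∀ f j, e.repr f j = ⟪b j.2, f j.1⟫_ℂ := fun f j => by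
    simp [e.repr_apply_apply, e, lp.inner_single_left]
  obtain ⟨q⟩ := Cardinal.eq.1 hI
  let b' : HilbertBasis (L × w) ℂ H := HilbertBasis.mk (b.orthonormal.comp q q.injective)
    (by rw [q.surjective.range_comp, b.dense_span])
  set D := Mx (μ • (1 : H →L[ℂ] H)) (fun _ => Matrix.diagonal fun p => sg p * μ) 1 with hD
  have d1 : ∀ f j, e.repr (D f) j = m j.1 * e.repr f j := fun f ⟨l, i⟩ => by
    rcases l with _ | ⟨k, _ | _⟩ <;> simp [e1, hD, Mx_none, Mx_some, m]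
  let E := e.repr.toContinuousLinearEquiv
  obtain ⟨X, Y, c1, c2, c3⟩ := assemble (J * T) (T' * J)
    (by rw [mul_assoc, ← mul_assoc T, h1, one_mul, a1])
    (by rw [mul_assoc, ← mul_assoc J, a1, one_mul, h2]) μ hμ (V ∘L E) (E.symm ∘L W)
    (b'.repr.trans e.repr.symm).toContinuousLinearEquiv (fun f => by simp [a2])
    (fun f => by simpa using a4 (E ∘L D ∘L E.symm) (fun f j => by simp [E, d1]) (E f))
    fun v => e.repr.injective (lp.ext (funext fun j => by simp [← hD, d1, E, a3]))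
  exact ⟨J, X, Y, a1, c1, c2, by rw [← c3, ← mul_assoc, a1, one_mul]⟩

end Pool.Agent.H33.Inv
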