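import Pool.Agent.H5.Kink

set_option autoImplicit false

open Metric Set Filter Topology
open Pool.Agent.H5.Kink

namespace H33.KB

variable {H : Type} [NormedAddCommGroup H] [InnerProductSpace ℝ H]

noncomputable def w (F : ℕ → H →L[ℝ] ℝ) : ℕ → ℝ
  | 0 => 1
  | k + 1 => w F k / (2 * (k + 1) * (1 + ‖F (k + 1)‖))

lemma w_pos (F : ℕ → H →L[ℝ] ℝ) (k : ℕ) : 0 < w F k := by
  induction k with
  | zero => unfold w; positivity
  | succ k ih => unfold w; positivity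

lemma w_succ (F : ℕ → H →L[ℝ] ℝ) (k : ℕ) :
    w F (k + 1) * (1 + ‖F (k + 1)‖) = w F k / (k + 1) / 2 := by
  rw [w]; field_simp

lemma w_le (F : ℕ → H →L[ℝ] ℝ) (k j : ℕ) : w F (j + k) ≤ w F k / 2 ^ j := by
  induction j with
  | zero => simp
  | succ j ih =>
    have h1 := w_succ F (j + k)
    have h2 := w_pos F (j + k + 1)
    have h3 : 0 ≤ w F (j + k + 1) * ‖F (j + k + 1)‖ := by positivity
    have h4 : w F (j + k) / ((j + k : ℕ) + 1) ≤ w F (j + k) :=
      div_le_self (w_pos F _).le (by linarith [(Nat.cast_nonneg (j + k) : (0 : ℝ) ≤ _)])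
    rw [show j + 1 + k = j + k + 1 by ring, pow_succ, ← div_div]
    linarith

lemma w_tail (F : ℕ → H →L[ℝ] ℝ) (k j : ℕ) :
    w F (j + (k + 1)) * (1 + ‖F (j + (k + 1))‖) ≤ w F k / (k + 1) / 2 / 2 ^ j := by
  rw [← add_assoc, w_succ]
  have h1 := w_le F k j
  have h2 := w_pos F k
  calc w F (j + k) / ((j + k : ℕ) + 1) / 2 ≤ w F k / 2 ^ j / (k + 1) / 2 := by
        gcongr
        omega
    _ = _ := by field_simp

lemma term_le (F : H →L[ℝ] ℝ) (y : H) : term F y ≤ (1 + ‖F‖) * ‖y‖ := by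
  simpa [term] using term_lip F y 0

lemma summable_term (F : ℕ → H →L[ℝ] ℝ) (y : H) : Summable fun k => w F k * term (F k) y := by
  rw [← summable_nat_add_iff 1]
  refine Summable.of_nonneg_of_le (fun k => mul_nonneg (w_pos F _).le (term_nonneg _ _))
    (fun k => ?_) ((summable_geometric_two' (w F 0 / ((0 : ℕ) + 1))).mul_right ‖y‖)
  have h1 := term_le (F (k + 1)) y
  have h2 := w_tail F 0 k
  have h3 := w_pos F (k + 1)
  simp only [zero_add] at h2 ⊢
  calc _ ≤ w F (k + 1) * ((1 + ‖F (k + 1)‖) * ‖y‖) := by gcongr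
    _ ≤ _ := by rw [← mul_assoc]; gcongr

noncomputable def nrm (F : ℕ → H →L[ℝ] ℝ) (y : H) : ℝ := ∑' k, w F k * term (F k) y

lemma tail_le (F : ℕ → H →L[ℝ] ℝ) (k : ℕ) (y z : H) :
    ∑' j, w F (j + (k + 1)) * term (F (j + (k + 1))) y ≤
      ∑' j, w F (j + (k + 1)) * term (F (j + (k + 1))) z + w F k / (k + 1) * ‖y - z‖ := by
  have h1 := (summable_nat_add_iff (k + 1)).2 (summable_term F y)
  have h2 := (summable_nat_add_iff (k + 1)).2 (summable_term F z)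
  have h3 := (hasSum_geometric_two' (w F k / (k + 1))).mul_right ‖y - z‖
  refine hasSum_le (fun j => ?_) h1.hasSum (h2.hasSum.add h3)
  have h5 := term_lip (F (j + (k + 1))) y z
  have h6 := w_tail F k j
  have h7 := w_pos F (j + (k + 1))
  calc _ ≤ w F (j + (k + 1)) * (term (F (j + (k + 1))) z + (1 + ‖F (j + (k + 1))‖) * ‖y - z‖) := by
        gcongr
    _ ≤ _ := by rw [mul_add, ← mul_assoc]; gcongr

lemma nrm_le (F : ℕ → H →L[ℝ] ℝ) (k : ℕ) {y z : H} (h : nrm F z ≤ nrm F y) :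
    ∑ l ∈ Finset.range k, w F l * term (F l) z + w F k * term (F k) z ≤
      ∑ l ∈ Finset.range k, w F l * term (F l) y + w F k * term (F k) y
        + w F k / (k + 1) * ‖y - z‖ := by
  unfold nrm at h
  rw [← (summable_term F y).sum_add_tsum_nat_add (k + 1),
    ← (summable_term F z).sum_add_tsum_nat_add (k + 1), Finset.sum_range_succ,
    Finset.sum_range_succ] at h
  linarith [tail_le F k y z]

lemma le_nrm (F : ℕ → H →L[ℝ] ℝ) (y : H) : ‖y‖ ≤ nrm F y := by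
  have := (summable_term F y).le_tsum 0 fun k _ => mul_nonneg (w_pos F _).le (term_nonneg _ _)
  rw [w, one_mul] at this
  exact (le_max_left _ _).trans this

lemma nrm_head (F : ℕ → H →L[ℝ] ℝ) (k : ℕ) (y : H) :
    nrm F y ≤ ∑ l ∈ Finset.range (k + 1), w F l * term (F l) y + w F k * ‖y‖ := by
  unfold nrm
  rw [← (summable_term F y).sum_add_tsum_nat_add (k + 1)]
  have h1 := tail_le F k y 0
  simp only [term, norm_zero, map_zero, abs_zero, max_self, mul_zero, tsum_zero, zero_add,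
    sub_zero] at h1 ⊢
  have h4 : w F k / (k + 1) ≤ w F k :=
    div_le_self (w_pos F _).le (by linarith [(Nat.cast_nonneg k : (0 : ℝ) ≤ _)])
  have := mul_le_mul_of_nonneg_right h4 (norm_nonneg y)
  linarith

lemma nrm_contr (F : ℕ → H →L[ℝ] ℝ) (k : ℕ) (y z : H) (h0 : ‖z‖ ≤ ‖y‖)
    (h : ∀ l ≤ k, term (F l) z ≤ term (F l) y) : nrm F z ≤ (1 + 1 / 2 ^ k) * nrm F y := by
  have h1 := nrm_head F k z
  have h2 : ∑ l ∈ Finset.range (k + 1), w F l * term (F l) z ≤ nrm F y :=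
    (Finset.sum_le_sum fun l hl => mul_le_mul_of_nonneg_left
      (h l (Nat.lt_succ_iff.mp (Finset.mem_range.mp hl))) (w_pos F l).le).trans
      ((summable_term F y).sum_le_tsum _ fun k _ => mul_nonneg (w_pos F _).le (term_nonneg _ _))
  have h3 := w_le F 0 k
  rw [w, add_zero] at h3
  have h4 : w F k * ‖z‖ ≤ 1 / 2 ^ k * nrm F y :=
    mul_le_mul h3 (h0.trans (le_nrm F y)) (norm_nonneg _) (by positivity)
  linarith

lemma nrm_add (F : ℕ → H →L[ℝ] ℝ) (y z : H) : nrm F (y + z) ≤ nrm F y + nrm F z := by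
  refine hasSum_le (fun k => ?_) (summable_term F _).hasSum
    ((summable_term F y).hasSum.add (summable_term F z).hasSum)
  rw [← mul_add]
  refine mul_le_mul_of_nonneg_left ?_ (w_pos F k).le
  unfold term
  refine max_le ((norm_add_le _ _).trans (add_le_add (le_max_left _ _) (le_max_left _ _))) ?_
  rw [map_add]
  exact (abs_add_le _ _).trans (add_le_add (le_max_right _ _) (le_max_right _ _))

lemma nrm_smul (F : ℕ → H →L[ℝ] ℝ) (c : ℝ) (y : H) : nrm F (c • y) = |c| * nrm F y := by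
  unfold nrm
  rw [← tsum_mul_left]
  refine tsum_congr fun k => ?_
  unfold term
  rw [norm_smul, map_smul, smul_eq_mul, abs_mul, Real.norm_eq_abs,
    ← mul_max_of_nonneg _ _ (abs_nonneg c)]
  ring

lemma jump (F : ℕ → H →L[ℝ] ℝ) (G : Submodule ℝ H) (x : H)
    (h : ∀ g ∈ G, ∀ α : ℝ, nrm F g ≤ nrm F (g + α • x)) (k : ℕ) (g u : H) (hgG : g ∈ G)
    (huG : u ∈ G) (hg0 : g ≠ 0) (hFg : F k g = ‖g‖) (hl : ∀ l < k, |F l g| ≠ ‖g‖)
    (hu : ‖u‖ < F k u) : (F k x - 2 * ‖x‖ / (k + 1)) * ‖g‖ ≤ inner ℝ g x := by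
  have hA : DifferentiableAt ℝ (fun y => ∑ l ∈ Finset.range k, w F l * term (F l) y) g :=
    DifferentiableAt.fun_sum fun l hl' =>
      (term_diff _ hg0 (hl l (Finset.mem_range.mp hl'))).const_mul _
  obtain ⟨L, hL⟩ := hA
  obtain ⟨φ, hφ⟩ : DifferentiableAt ℝ (fun y : H => ‖y‖) g := differentiableAt_id.norm ℝ hg0
  have hφ1 : ∀ v, φ v ≤ ‖v‖ := fun v => by
    have h1 := hφ.le_of_lipschitz lipschitzWith_one_norm
    have h2 := φ.le_of_opNorm_le h1 v
    simp only [NNReal.coe_one, one_mul, Real.norm_eq_abs] at h2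
    exact (le_abs_self _).trans h2
  have hφ2 : φ x * ‖g‖ = inner ℝ g x := by
    have h1 := (hφ.pow 2).unique (hasStrictFDerivAt_norm_sq g).hasFDerivAt
    have h2 := congrArg (fun T : H →L[ℝ] ℝ => T x) h1
    simp at h2
    linarith
  have ha := w_pos F k
  set η := w F k / (k + 1) with hη
  have key : ∀ v ∈ G, ∀ κ : ℝ, |κ| = 1 → L v + w F k * max (φ v) (F k v) ≤
      L (v + κ • x) + w F k * max (φ (v + κ • x)) (F k (v + κ • x)) + η * ‖x‖ := by
    intro v hv κ hκ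
    have h1 := fun v => ((hL.hasLineDerivAt v).tendsto_slope_zero_right).add
      ((term_slope (F k) hg0 hFg hφ v).const_mul (w F k))
    refine le_of_tendsto_of_tendsto (h1 v) ((h1 (v + κ • x)).add_const (η * ‖x‖)) ?_
    filter_upwards [self_mem_nhdsWithin] with s hs
    have hs0 : 0 < s := hs
    have h2 := nrm_le F k (h (g + s • v) (G.add_mem hgG (G.smul_mem _ hv)) (s * κ))
    rw [add_sub_cancel_left, norm_smul, Real.norm_eq_abs, abs_mul, hκ, abs_of_pos hs0,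
      show g + s • v + (s * κ) • x = g + s • (v + κ • x) by module] at h2
    simp only [smul_eq_mul]
    have h3 := mul_le_mul_of_nonneg_left h2 (inv_pos.2 hs0).le
    have h4 : s⁻¹ * (η * (s * 1 * ‖x‖)) = η * ‖x‖ := by field_simp
    linarith
  have hd : 0 < F k u - φ u := by linarith [hφ1 u]
  set ρ := |F k x - φ x| / (F k u - φ u) with hρ
  have hρ' : ρ * (F k u - φ u) = |F k x - φ x| := div_mul_cancel₀ _ hd.ne'
  have h1 := key (ρ • u) (G.smul_mem _ huG) (-1) (by simp)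
  have h2 := key (-(ρ • u)) (G.neg_mem (G.smul_mem _ huG)) 1 (by simp)
  have h3 := le_abs_self (F k x - φ x)
  have h5 := abs_nonneg (F k x - φ x)
  simp only [map_add, map_smul, map_neg, smul_eq_mul] at h1 h2
  rw [max_eq_right (by linarith), max_eq_right (by linarith)] at h1
  rw [max_eq_left (by linarith), max_eq_left (by linarith)] at h2
  have h6 : w F k * (F k x - 2 * ‖x‖ / (k + 1)) ≤ w F k * φ x := by
    have : w F k * (2 * ‖x‖ / (k + 1)) = 2 * (η * ‖x‖) := by rw [hη]; ring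
    linarith
  have h7 := le_of_mul_le_mul_left h6 ha
  rw [← hφ2]
  exact mul_le_mul_of_nonneg_right h7 (norm_nonneg _)

lemma pair (F : ℕ → H →L[ℝ] ℝ) (p q : H →L[ℝ] ℝ) (hq : ∀ y, |q y| ≤ ‖y‖) (G : Submodule ℝ H)
    (u v : H) (huG : u ∈ G) (hvG : v ∈ G) (hu : p u = 1) (hv : p v = 0) (hv0 : v ≠ 0) (x : H)
    (hvx : inner ℝ v x ≤ 0) (h : ∀ g ∈ G, ∀ α : ℝ, nrm F g ≤ nrm F (g + α • x)) (n : ℕ)
    (hn : 2 * ‖u‖ < 4 ^ n)
    (hF : ∀ k, 4 ^ n ≤ k → k < 4 ^ (n + 1) → ∀ y, F k y = k * p y + q y / 2) :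
    ∃ k : ℕ, 4 ^ n ≤ k ∧ k * (k * p x + q x / 2) ≤ (2 * ‖u‖ + 2) * ‖x‖ := by
  classical
  have hvn : 0 < ‖v‖ := norm_pos_iff.2 hv0
  have hτ : ∀ k : ℕ, 4 ^ n ≤ k → ∃ τ : ℝ, 0 ≤ τ ∧ ‖u + τ • v‖ - q (u + τ • v) / 2 = k := by
    intro k hk
    have hk' : (4 : ℝ) ^ n ≤ k := by exact_mod_cast hk
    have hcont : Continuous fun t : ℝ => ‖u + t • v‖ - q (u + t • v) / 2 := by fun_prop
    have h0 : 0 ≤ (2 * k + ‖u‖) / ‖v‖ := by positivity
    obtain ⟨t, ht0, ht⟩ : (k : ℝ) ∈ (fun t : ℝ => ‖u + t • v‖ - q (u + t • v) / 2) ''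
        Icc 0 ((2 * k + ‖u‖) / ‖v‖) := by
      refine intermediate_value_Icc h0 hcont.continuousOn ⟨?_, ?_⟩
      · simp only [zero_smul, add_zero]
        linarith [(abs_le.mp (hq u)).1, norm_nonneg u]
      · have h3 := norm_sub_le (u + ((2 * k + ‖u‖) / ‖v‖) • v) u
        rw [add_sub_cancel_left, norm_smul, Real.norm_of_nonneg h0, div_mul_cancel₀ _ hvn.ne'] at h3
        have h4 := (abs_le.mp (hq (u + ((2 * k + ‖u‖) / ‖v‖) • v))).2
        show _ ≤ ‖u + _‖ - _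
        linarith
    exact ⟨t, ht0.1, ht⟩
  choose! τ hτ0 hτ using hτ
  have hinj : ∀ k l, 4 ^ n ≤ k → 4 ^ n ≤ l → τ k = τ l → k = l := fun k l hk hl hkl => by
    have h1 := hτ k hk
    rw [hkl, hτ l hl] at h1
    exact_mod_cast h1.symm
  have h4 : 0 < 4 ^ n := by positivity
  obtain ⟨k, hk, hk'⟩ : ∃ k ∈ Finset.Ico (4 ^ n) (4 ^ (n + 1)),
      ∀ l ∈ Finset.range (4 ^ n), |F l (u + τ k • v)| ≠ ‖u + τ k • v‖ := by
    by_contra hcon
    push Not at hcon
    choose! l hl hl' using hcon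
    obtain ⟨m, -, hm⟩ := Finset.exists_lt_card_fiber_of_mul_lt_card_of_maps_to (n := 2) hl (by
      rw [Nat.card_Ico, Finset.card_range, pow_succ]; omega)
    obtain ⟨a, ha, b, hb, c, hc, hab, hac, hbc⟩ := Finset.two_lt_card.1 hm
    rw [Finset.mem_filter] at ha hb hc
    have h1 : ∀ a ∈ Finset.Ico (4 ^ n) (4 ^ (n + 1)), 4 ^ n ≤ a := fun a ha =>
      (Finset.mem_Ico.1 ha).1
    exact three_roots (F m) p (by rw [hu]; exact one_ne_zero) hv hv0
      (fun h => hab (hinj _ _ (h1 a ha.1) (h1 b hb.1) h))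
      (fun h => hac (hinj _ _ (h1 a ha.1) (h1 c hc.1) h))
      (fun h => hbc (hinj _ _ (h1 b hb.1) (h1 c hc.1) h)) (ha.2 ▸ hl' a ha.1) (hb.2 ▸ hl' b hb.1)
      (hc.2 ▸ hl' c hc.1)
  rw [Finset.mem_Ico] at hk
  have hk1 : (4 : ℝ) ^ n ≤ k := by exact_mod_cast hk.1
  have hk0 : (0 : ℝ) < k := lt_of_lt_of_le (by positivity) hk1
  set g := u + τ k • v with hg
  have hgn : ‖g‖ - q g / 2 = k := hτ k hk.1
  have hqg := abs_le.mp (hq g)
  have hpg : p g = 1 := by rw [hg, map_add, map_smul, hv, smul_zero, add_zero, hu]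
  have hg1 : (k : ℝ) ≤ 2 * ‖g‖ := by linarith [norm_nonneg g]
  have hgp : 0 < ‖g‖ := by linarith
  have hj := jump F G x h k g u (G.add_mem huG (G.smul_mem _ hvG)) huG (norm_pos_iff.mp hgp)
    (by rw [hF k hk.1 hk.2, hpg]; linarith) (fun l hl => by
      rcases lt_or_ge l (4 ^ n) with h1 | h1
      · exact hk' l (Finset.mem_range.2 h1)
      · have h2 : (l : ℝ) < k := by exact_mod_cast hl
        have h3 : (0 : ℝ) ≤ l := l.cast_nonneg
        rw [hF l h1 (hl.trans hk.2), hpg]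
        exact (abs_lt.mpr ⟨by linarith, by linarith⟩).ne)
    (by rw [hF k hk.1 hk.2, hu]; linarith [(abs_le.mp (hq u)).1, norm_nonneg u])
  refine ⟨k, hk.1, ?_⟩
  rw [hF k hk.1 hk.2] at hj
  have h5 : inner ℝ g x ≤ ‖u‖ * ‖x‖ := by
    rw [hg, inner_add_left, real_inner_smul_left]
    nlinarith [real_inner_le_norm u x, hτ0 k hk.1]
  have h6 : 2 * ‖x‖ / (k + 1) * k ≤ 2 * ‖x‖ := by
    rw [div_mul_eq_mul_div, div_le_iff₀ (by positivity)]; nlinarith [norm_nonneg x]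
  set D := k * p x + q x / 2 - 2 * ‖x‖ / (k + 1) with hD
  have h7 : D * k ≤ 2 * (‖u‖ * ‖x‖) := by
    rcases le_total D 0 with h8 | h8
    · nlinarith [norm_nonneg u, norm_nonneg x, mul_nonneg (norm_nonneg u) (norm_nonneg x)]
    · nlinarith
  have : k * p x + q x / 2 = D + 2 * ‖x‖ / (k + 1) := by rw [hD]; ring
  rw [this]; linarith

lemma pair_zero (F : ℕ → H →L[ℝ] ℝ) (p q : H →L[ℝ] ℝ) (hq : ∀ y, |q y| ≤ ‖y‖) (G : Submodule ℝ H)
    (u v : H) (huG : u ∈ G) (hvG : v ∈ G) (hu : p u = 1) (hv : p v = 0) (hv0 : v ≠ 0) (x : H)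
    (h : ∀ g ∈ G, ∀ α : ℝ, nrm F g ≤ nrm F (g + α • x))
    (hF : ∀ N, ∃ n ≥ N, ∀ k, 4 ^ n ≤ k → k < 4 ^ (n + 1) → ∀ y, F k y = k * p y + q y / 2) :
    p x = 0 ∧ q x = 0 := by
  have key : ∀ x, (∀ g ∈ G, ∀ α : ℝ, nrm F g ≤ nrm F (g + α • x)) → ∀ R : ℝ, ∃ k : ℝ, R < k ∧
      k * (k * p x + q x / 2) ≤ (2 * ‖u‖ + 2) * ‖x‖ := by
    intro x h R
    obtain ⟨N, hN⟩ := pow_unbounded_of_one_lt (max R (2 * ‖u‖)) (by norm_num : (1 : ℝ) < 4)
    obtain ⟨n, hn, hF'⟩ := hF N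
    have h1 : max R (2 * ‖u‖) < 4 ^ n := hN.trans_le (pow_le_pow_right₀ (by norm_num) hn)
    have : ∃ k : ℕ, 4 ^ n ≤ k ∧ k * (k * p x + q x / 2) ≤ (2 * ‖u‖ + 2) * ‖x‖ := by
      rcases le_total (inner ℝ v x) 0 with h2 | h2
      · exact pair F p q hq G u v huG hvG hu hv hv0 x h2 h n ((le_max_right _ _).trans_lt h1) hF'
      · exact pair F p q hq G u (-v) huG (G.neg_mem hvG) hu (by simp [hv]) (neg_ne_zero.mpr hv0) x
          (by simpa using h2) h n ((le_max_right _ _).trans_lt h1) hF'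
    obtain ⟨k, hk, hk'⟩ := this
    exact ⟨k, ((le_max_left _ _).trans_lt h1).trans_le (by exact_mod_cast hk), hk'⟩
  have h' : ∀ g ∈ G, ∀ α : ℝ, nrm F g ≤ nrm F (g + α • (-x)) := fun g hg α => by
    simpa using h g hg (-α)
  have aux : ∀ a b C : ℝ, (∀ R : ℝ, ∃ k : ℝ, R < k ∧ k * (k * a + b) ≤ C) →
      a ≤ 0 ∧ (a = 0 → b ≤ 0) := by
    intro a b C hh
    refine ⟨not_lt.mp fun ha => ?_, fun ha => not_lt.mp fun hb => ?_⟩
    · obtain ⟨k, hk, hk'⟩ := hh (max |C| ((1 + |b|) / a))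
      have h1 : |C| < k := (le_max_left _ _).trans_lt hk
      have h2 : 1 + |b| < k * a := (div_lt_iff₀ ha).mp ((le_max_right _ _).trans_lt hk)
      nlinarith [le_abs_self C, abs_nonneg C, neg_abs_le b]
    · obtain ⟨k, hk, hk'⟩ := hh (C / b)
      rw [ha, mul_zero, zero_add] at hk'
      linarith [(div_lt_iff₀ hb).mp hk]
  have a1 := aux _ _ _ (key x h)
  have a2 := aux _ _ _ (key (-x) h')
  simp only [map_neg] at a2
  have hp : p x = 0 := by linarith [a1.1, a2.1]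
  exact ⟨hp, by linarith [a1.2 hp, a2.2 (by rw [hp, neg_zero])]⟩

def E (_ : ℕ → H →L[ℝ] ℝ) : Type := H

instance (F : ℕ → H →L[ℝ] ℝ) : AddCommGroup (E F) := inferInstanceAs (AddCommGroup H)
instance (F : ℕ → H →L[ℝ] ℝ) : Module ℝ (E F) := inferInstanceAs (Module ℝ H)

noncomputable instance (F : ℕ → H →L[ℝ] ℝ) : NormedAddCommGroup (E F) :=
  AddGroupNorm.toNormedAddCommGroup
    { toFun := fun y => nrm F y
      map_zero' := show nrm F (0 : H) = 0 by simpa using nrm_smul F 0 0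
      add_le' := nrm_add F
      neg' := fun y : H => show nrm F (-y) = nrm F y by simpa using nrm_smul F (-1) y
      eq_zero_of_map_eq_zero' := fun y hy => norm_le_zero_iff.mp (hy ▸ le_nrm F y) }

noncomputable instance (F : ℕ → H →L[ℝ] ℝ) : NormedSpace ℝ (E F) :=
  ⟨fun c y => (nrm_smul F c y).le⟩

theorem exists_space [CompleteSpace H] (F : ℕ → H →L[ℝ] ℝ) :
    ∃ (X : Type) (_ : NormedAddCommGroup X) (_ : NormedSpace ℝ X) (_ : CompleteSpace X)
      (U : H ≃L[ℝ] X), ∀ y, ‖U y‖ = nrm F y := by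
  let e : H ≃ₗ[ℝ] E F := LinearEquiv.refl ℝ H
  let U : H ≃L[ℝ] E F := e.toContinuousLinearEquivOfBounds (2 + ‖F 0‖) 1 (fun y => by
    have h1 := nrm_head F 0 y
    have h2 := term_le (F 0) y
    simp only [zero_add, Finset.range_one, Finset.sum_singleton, w, one_mul] at h1
    change nrm F y ≤ _
    linarith) (fun y => by rw [one_mul]; exact le_nrm F y)
  exact ⟨E F, inferInstance, inferInstance,
    (completeSpace_congr (e := U.toEquiv) U.isUniformEmbedding).1 inferInstance, U, fun _ => rfl⟩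

end H33.KB
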