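import Pool.Agent.H33.KB1

set_option autoImplicit false

open Metric Set Filter Topology
open Pool.Agent.H5.Kink

namespace H33.KB

abbrev L2 : Type := lp (fun _ : ℕ => ℝ) 2

noncomputable def cd (j : ℕ) : L2 →L[ℝ] ℝ := lp.evalCLM ℝ (fun _ : ℕ => ℝ) 2 j

lemma cd_apply (j : ℕ) (y : L2) : cd j y = y j := rfl

lemma cd_le (j : ℕ) (y : L2) : |cd j y| ≤ ‖y‖ := lp.norm_apply_le_norm (by norm_num) y j

noncomputable def ee (j : ℕ) : L2 := lp.single 2 j (1 : ℝ)

lemma cd_ee (i j : ℕ) : cd i (ee j) = if i = j then 1 else 0 := by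
  rw [cd_apply, ee, lp.single_apply, Pi.single_apply]

def iI (k : ℕ) : ℕ := (Nat.unpair (Nat.unpair (Nat.log 4 k)).1).1
def lI (k : ℕ) : ℕ := iI k + 1 + (Nat.unpair (Nat.unpair (Nat.log 4 k)).1).2

noncomputable def FF (k : ℕ) : L2 →L[ℝ] ℝ := (k : ℝ) • cd (iI k) + (1 / 2 : ℝ) • cd (lI k)

lemma FF_apply (k : ℕ) (y : L2) : FF k y = k * cd (iI k) y + cd (lI k) y / 2 := by
  simp only [FF, add_apply, smul_apply, smul_eq_mul]; ring

lemma orth (G : Submodule ℝ L2) (u v : L2) (huG : u ∈ G) (hvG : v ∈ G) (i : ℕ) (hu : cd i u = 1)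
    (hv : cd i v = 0) (hv0 : v ≠ 0) (x : L2)
    (h : ∀ g ∈ G, ∀ α : ℝ, nrm FF g ≤ nrm FF (g + α • x)) : ∀ l, i ≤ l → cd l x = 0 := by
  have key : ∀ d, cd i x = 0 ∧ cd (i + 1 + d) x = 0 := fun d =>
    pair_zero FF (cd i) (cd (i + 1 + d)) (cd_le _) G u v huG hvG hu hv hv0 x h fun N =>
      ⟨Nat.pair (Nat.pair i d) N, Nat.right_le_pair _ _, fun k h1 h2 y => by
        rw [FF_apply]
        simp only [lI, iI, Nat.log_eq_of_pow_le_of_lt_pow h1 h2, Nat.unpair_pair]⟩
  intro l hl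
  rcases hl.eq_or_lt with rfl | hl
  · exact (key 0).1
  · have := (key (l - (i + 1))).2
    rwa [show i + 1 + (l - (i + 1)) = l by omega] at this

noncomputable def PP (A : Finset ℕ) : L2 →L[ℝ] L2 := ∑ j ∈ A, (cd j).smulRight (ee j)

lemma PP_apply (A : Finset ℕ) (y : L2) : PP A y = ∑ j ∈ A, cd j y • ee j := by
  simp [PP]

lemma cd_sum (A : Finset ℕ) (b : ℕ → ℝ) (i : ℕ) :
    cd i (∑ j ∈ A, b j • ee j) = if i ∈ A then b i else 0 := by
  simp [map_sum, cd_ee]

lemma cd_PP (A : Finset ℕ) (y : L2) (i : ℕ) : cd i (PP A y) = if i ∈ A then cd i y else 0 := by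
  rw [PP_apply, cd_sum]

lemma l2ext {y z : L2} (h : ∀ i, cd i y = cd i z) : y = z := lp.ext (funext h)

lemma PP_norm (A : Finset ℕ) (y : L2) : ‖PP A y‖ ≤ ‖y‖ := by
  refine lp.norm_mono (by norm_num) fun i => ?_
  rw [← cd_apply, cd_PP, ← cd_apply]
  split_ifs <;> simp

lemma PP_PP (A B : Finset ℕ) (y : L2) : PP A (PP B y) = PP (A ∩ B) y := by
  refine l2ext fun i => ?_
  simp only [cd_PP, Finset.mem_inter]
  by_cases h1 : i ∈ A <;> by_cases h2 : i ∈ B <;> simp [h1, h2]

lemma PP_nrm (K : ℕ) (A : Finset ℕ) (hA : ∀ k ≤ K, iI k ∈ A → lI k ∈ A) (y : L2) :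
    nrm FF (PP A y) ≤ (1 + 1 / 2 ^ K) * nrm FF y := by
  refine nrm_contr FF K y _ (PP_norm A y) fun k hk => max_le ((PP_norm A y).trans (le_max_left _ _)) ?_
  rw [FF_apply, cd_PP, cd_PP]
  by_cases h1 : iI k ∈ A
  · rw [if_pos h1, if_pos (hA k hk h1), ← FF_apply]; exact le_max_right _ _
  · rw [if_neg h1, mul_zero, zero_add]
    refine le_trans ?_ (le_max_left _ _)
    have := cd_le (lI k) y
    split_ifs
    · rw [abs_div, abs_two]; linarith [norm_nonneg y]
    · simp

lemma hasSum_ee (y : L2) : HasSum (fun j => cd j y • ee j) y := by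
  have := lp.hasSum_single (p := 2) (by norm_num) y
  convert this using 2 with j
  rw [ee, ← lp.single_smul, smul_eq_mul, mul_one, cd_apply]

lemma bound (K : ℕ) : ∃ M : ℕ, ∀ k ≤ K, lI k < M :=
  ⟨(Finset.range (K + 1)).sup lI + 1, fun k hk => Nat.lt_succ_of_le
    (Finset.le_sup (f := lI) (Finset.mem_range.mpr (Nat.lt_succ_of_le hk)))⟩

lemma small (δ : ℝ) (hδ : 0 < δ) : ∃ K : ℕ, (1 : ℝ) / 2 ^ K ≤ δ := by
  obtain ⟨K, hK⟩ := exists_pow_lt_of_lt_one hδ (by norm_num : (1 / 2 : ℝ) < 1)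
  exact ⟨K, by rw [← one_div_pow]; exact hK.le⟩

lemma not_fd : ¬ FiniteDimensional ℝ L2 := fun _ =>
  Module.Finite.not_linearIndependent_of_infinite _
    (default : HilbertBasis ℕ ℝ L2).orthonormal.linearIndependent

section
variable {X : Type} [NormedAddCommGroup X] [NormedSpace ℝ X] (U : L2 ≃L[ℝ] X)

noncomputable def QQ (A : Finset ℕ) : X →L[ℝ] X :=
  (U : L2 →L[ℝ] X).comp ((PP A).comp (U.symm : X →L[ℝ] L2))

lemma QQ_apply (A : Finset ℕ) (x : X) : QQ U A x = U (PP A (U.symm x)) := rfl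

lemma QQ_fd (A : Finset ℕ) : FiniteDimensional ℝ (LinearMap.range (QQ U A : X →ₗ[ℝ] X)) := by
  have hle : LinearMap.range (QQ U A : X →ₗ[ℝ] X) ≤
      Submodule.span ℝ ((fun j => U (ee j)) '' (A : Set ℕ)) := by
    rintro _ ⟨x, rfl⟩
    change U (PP A (U.symm x)) ∈ _
    rw [PP_apply, map_sum]
    exact Submodule.sum_mem _ fun j hj => by
      rw [map_smul]; exact Submodule.smul_mem _ _ (Submodule.subset_span ⟨j, hj, rfl⟩)
  haveI := FiniteDimensional.span_of_finite ℝ (A.finite_toSet.image fun j => U (ee j))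
  exact Submodule.finiteDimensional_of_le hle

lemma QQ_comp (A B : Finset ℕ) : (QQ U A).comp (QQ U B) = QQ U (A ∩ B) := by
  ext x
  simp [QQ_apply, PP_PP]

lemma QQ_tend (M : ℕ) (x : X) : Tendsto (fun n => QQ U (Finset.range (n + M)) x) atTop (𝓝 x) := by
  have h1 := ((hasSum_ee (U.symm x)).tendsto_sum_nat).comp (tendsto_add_atTop_nat M)
  have h2 := (U.continuous.tendsto _).comp h1
  rw [U.apply_symm_apply] at h2
  refine h2.congr fun n => ?_
  simp [QQ_apply, PP_apply]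

lemma QQ_norm (hU : ∀ y, ‖U y‖ = nrm FF y) (δ : ℝ) (hδ : 0 < δ) :
    ∃ M : ℕ, ∀ n, ‖QQ U (Finset.range (n + M))‖ ≤ 1 + δ := by
  obtain ⟨K, hK⟩ := small δ hδ
  obtain ⟨M, hM⟩ := bound K
  refine ⟨M, fun n => ContinuousLinearMap.opNorm_le_bound _ (by linarith) fun x => ?_⟩
  rw [QQ_apply, hU]
  have h1 := PP_nrm K (Finset.range (n + M)) (fun k hk _ => Finset.mem_range.mpr
    (by have := hM k hk; omega)) (U.symm x)
  rw [← hU (U.symm x), U.apply_symm_apply] at h1
  nlinarith [norm_nonneg x]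

lemma no_proj (hU : ∀ y, ‖U y‖ = nrm FF y) (P : X →L[ℝ] X)
    (hfd : FiniteDimensional ℝ (LinearMap.range (P : X →ₗ[ℝ] X))) (hP : P.comp P = P)
    (hn : ‖P‖ ≤ 1) (h0 : ‖P (U (ee 0)) - U (ee 0)‖ ≤ 1 / 4)
    (h1 : ‖P (U (ee 1)) - U (ee 1)‖ ≤ 1 / 4) : False := by
  have hPP : ∀ x, P (P x) = P x := fun x => congrArg (fun T : X →L[ℝ] X => T x) hP
  have hc : ∀ i j, ‖P (U (ee j)) - U (ee j)‖ ≤ 1 / 4 →
      |cd i (U.symm (P (U (ee j)))) - cd i (ee j)| ≤ 1 / 4 := fun i j h => by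
    rw [← map_sub]
    refine (cd_le _ _).trans ((le_nrm FF _).trans ?_)
    rwa [← hU, map_sub, U.apply_symm_apply]
  set a := U.symm (P (U (ee 0))) with ha
  set b := U.symm (P (U (ee 1))) with hb
  have a0 := abs_le.mp (hc 0 0 h0)
  have a1 := abs_le.mp (hc 1 0 h0)
  have b0 := abs_le.mp (hc 0 1 h1)
  have b1 := abs_le.mp (hc 1 1 h1)
  simp only [cd_ee, if_true, zero_ne_one, one_ne_zero, if_false, ← ha, ← hb] at a0 a1 b0 b1
  let G : Submodule ℝ L2 := (LinearMap.range (P : X →ₗ[ℝ] X)).comap (U : L2 →ₗ[ℝ] X)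
  have haG : a ∈ G := ⟨U (ee 0), by simp [ha]⟩
  have hbG : b ∈ G := ⟨U (ee 1), by simp [hb]⟩
  have ha0 : cd 0 a ≠ 0 := by linarith
  have hker : ∀ x, P x = 0 → x = 0 := by
    intro x hx
    have := orth G ((cd 0 a)⁻¹ • a) (cd 0 a • b - cd 0 b • a) (G.smul_mem _ haG)
      (G.sub_mem (G.smul_mem _ hbG) (G.smul_mem _ haG)) 0 (by simp [ha0])
      (by simp only [map_sub, map_smul, smul_eq_mul]; ring) (fun h => by
        have := congrArg (cd 1) h
        simp only [map_sub, map_smul, smul_eq_mul, map_zero] at this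
        nlinarith) (U.symm x) (by
        rintro g ⟨z, hz⟩ α
        have hz' : P z = U g := hz
        rw [← hU, ← hU, map_add, map_smul, U.apply_symm_apply]
        have h2 := P.le_of_opNorm_le hn (U g + α • x)
        rwa [map_add, map_smul, hx, smul_zero, add_zero, ← hz', hPP, one_mul, hz'] at h2)
    have h2 : U.symm x = 0 := l2ext fun i => by rw [this i (Nat.zero_le _), map_zero]
    simpa using congrArg U h2
  have htop : LinearMap.range (P : X →ₗ[ℝ] X) = ⊤ := by
    rw [eq_top_iff]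
    intro x _
    exact ⟨x, sub_eq_zero.mp (hker (P x - x) (by rw [map_sub, hPP, sub_self]))⟩
  rw [htop] at hfd
  haveI : FiniteDimensional ℝ X := Submodule.topEquiv.finiteDimensional
  exact not_fd U.symm.toLinearEquiv.finiteDimensional

lemma basis_perm (σ : Equiv.Perm ℕ) (x : X) : ∃! a : ℕ → ℝ,
    Tendsto (fun n : ℕ => ∑ i ∈ Finset.range n, a i • U (ee (σ i))) atTop (nhds x) := by
  refine ⟨fun i => cd (σ i) (U.symm x), ?_, fun a ha => funext fun i => ?_⟩
  · have h1 := ((σ.hasSum_iff.mpr (hasSum_ee (U.symm x))).tendsto_sum_nat)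
    have h2 := (U.continuous.tendsto _).comp h1
    rw [U.apply_symm_apply] at h2
    refine h2.congr fun n => ?_
    simp
  · have h1 := (((cd (σ i)).continuous.comp U.symm.continuous).tendsto x).comp ha
    refine tendsto_nhds_unique (tendsto_const_nhds.congr' ?_) h1
    filter_upwards [eventually_gt_atTop i] with n hn
    simp [map_sum, cd_ee, hn]

lemma basis_const (hU : ∀ y, ‖U y‖ = nrm FF y) (δ : ℝ) (hδ : 0 < δ) :
    ∃ σ : Equiv.Perm ℕ, ∀ (b : ℕ → ℝ) (p q : ℕ), p ≤ q →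
      ‖∑ i ∈ Finset.range p, b i • U (ee (σ i))‖ ≤
        (1 + δ) * ‖∑ i ∈ Finset.range q, b i • U (ee (σ i))‖ := by
  obtain ⟨K, hK⟩ := small δ hδ
  obtain ⟨M, hM⟩ := bound K
  let s : ℕ → ℕ := fun n => if n ≤ M then M - n else n
  have hs : Function.Involutive s := fun n => by simp only [s]; split_ifs <;> omega
  refine ⟨hs.toPerm s, fun b p q hpq => ?_⟩
  simp only [Function.Involutive.coe_toPerm, ← map_smul, ← map_sum, hU]
  have e : ∀ r, ∑ i ∈ Finset.range r, b i • ee (s i)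
      = ∑ j ∈ (Finset.range r).image s, b (s j) • ee j := fun r => by
    rw [Finset.sum_image hs.injective.injOn]
    simp only [hs _]
  have mem : ∀ r j, j ∈ (Finset.range r).image s ↔ s j < r := fun r j => by
    rw [Finset.mem_image]
    exact ⟨by rintro ⟨i, hi, rfl⟩; rw [hs]; exact Finset.mem_range.mp hi,
      fun h => ⟨s j, Finset.mem_range.mpr h, hs j⟩⟩
  have h1 := PP_nrm K ((Finset.range p).image s) (fun k hk h => by
    rw [mem] at h ⊢
    have h2 := hM k hk
    have h3 : iI k < lI k := by unfold lI; omega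
    simp only [s] at h ⊢
    rw [if_pos (by omega)] at h ⊢
    omega) (∑ i ∈ Finset.range q, b i • ee (s i))
  have e2 : PP ((Finset.range p).image s) (∑ i ∈ Finset.range q, b i • ee (s i))
      = ∑ i ∈ Finset.range p, b i • ee (s i) := by
    refine l2ext fun j => ?_
    rw [cd_PP, e, e, cd_sum, cd_sum]
    simp only [mem]
    split_ifs <;> first | rfl | omega
  rw [e2] at h1
  refine h1.trans (mul_le_mul_of_nonneg_right (by linarith) ((norm_nonneg _).trans (le_nrm FF (∑ i ∈ Finset.range q, b i • ee (s i)))))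

lemma no_mono (hU : ∀ y, ‖U y‖ = nrm FF y) (e : ℕ → X)
    (he : ∀ x : X, ∃! a : ℕ → ℝ,
      Tendsto (fun n : ℕ => ∑ i ∈ Finset.range n, a i • e i) atTop (nhds x))
    (hm : ∀ (a : ℕ → ℝ) (m n : ℕ), m ≤ n →
      ‖∑ i ∈ Finset.range m, a i • e i‖ ≤ ‖∑ i ∈ Finset.range n, a i • e i‖) : False := by
  classical
  have hli : LinearIndependent ℝ e := by
    rw [linearIndependent_iff'']
    intro s g hg h0 i
    have h1 : Tendsto (fun n : ℕ => ∑ i ∈ Finset.range n, g i • e i) atTop (nhds 0) := by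
      refine tendsto_const_nhds.congr' ?_
      filter_upwards [eventually_gt_atTop (s.sup id)] with n hn
      rw [← h0]
      refine Finset.sum_subset (fun j hj => Finset.mem_range.mpr
        ((Finset.le_sup (f := id) hj).trans_lt hn)) fun j _ hj => by rw [hg j hj, zero_smul]
    exact congrFun ((he 0).unique h1 (y₂ := fun _ => 0) (by simp)) i
  set f : ℕ → L2 := fun n => U.symm (e n) with hf
  have hlf : LinearIndependent ℝ f := hli.map' (U.symm : X →ₗ[ℝ] L2) U.symm.toLinearEquiv.ker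
  have h01 : ∀ s t : ℝ, s • f 0 + t • f 1 = 0 → s = 0 ∧ t = 0 :=
    LinearIndependent.pair_iff.mp (by
      have := hlf.comp (![0, 1] : Fin 2 → ℕ) (by decide)
      rwa [show f ∘ (![0, 1] : Fin 2 → ℕ) = ![f 0, f 1] by
        funext i; fin_cases i <;> rfl] at this)
  obtain ⟨i, hi⟩ : ∃ i, cd i (f 0) ≠ 0 := by
    by_contra hcon
    push Not at hcon
    exact hlf.ne_zero 0 (l2ext fun i => by rw [hcon, map_zero])
  let G : Submodule ℝ L2 := Submodule.span ℝ {f 0, f 1}
  have g0 : f 0 ∈ G := Submodule.subset_span (by simp)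
  have g1 : f 1 ∈ G := Submodule.subset_span (by simp)
  have hz : ∀ n l, i ≤ l → cd l (f (n + 2)) = 0 := fun n =>
    orth G ((cd i (f 0))⁻¹ • f 0) ((-cd i (f 1)) • f 0 + cd i (f 0) • f 1) (G.smul_mem _ g0)
      (G.add_mem (G.smul_mem _ g0) (G.smul_mem _ g1)) i (by simp [hi])
      (by simp only [map_add, map_smul, smul_eq_mul]; ring) (fun h => hi (h01 _ _ h).2) _ (by
        intro g hg α
        obtain ⟨s, t, rfl⟩ := Submodule.mem_span_pair.mp hg
        have := hm (fun j => if j = 0 then s else if j = 1 then t else if j = n + 2 then α else 0)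
          2 (n + 3) (by omega)
        rw [Finset.sum_range_succ _ (n + 2), ← Finset.sum_range_add_sum_Ico _ (by omega : 2 ≤ n + 2),
          Finset.sum_eq_zero (s := Finset.Ico 2 (n + 2)) (fun j hj => by
            have := Finset.mem_Ico.mp hj
            rw [if_neg (by omega), if_neg (by omega), if_neg (by omega), zero_smul])] at this
        rw [← hU, ← hU]
        simpa [Finset.sum_range_succ, hf] using this)
  have h2 : LinearIndependent ℝ (fun n => f (n + 2)) := hlf.comp _ (add_left_injective 2)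
  let W : Submodule ℝ L2 := Submodule.span ℝ (ee '' (Finset.range i : Set ℕ))
  haveI : FiniteDimensional ℝ W :=
    FiniteDimensional.span_of_finite ℝ ((Finset.range i).finite_toSet.image ee)
  have hW : ∀ n, f (n + 2) ∈ W := fun n => by
    have : f (n + 2) = PP (Finset.range i) (f (n + 2)) := l2ext fun l => by
      rw [cd_PP]
      split_ifs with h
      · rfl
      · exact hz n l (by simpa using h)
    rw [this, PP_apply]
    exact Submodule.sum_mem _ fun j hj => Submodule.smul_mem _ _ (Submodule.subset_span ⟨j, hj, rfl⟩)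
  exact Module.Finite.not_linearIndependent_of_infinite (fun n => (⟨f (n + 2), hW n⟩ : W))
    (LinearIndependent.of_comp W.subtype h2)
end

end H33.KB
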