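import Mathlib

set_option autoImplicit false

namespace Pool.Agent.H33.Kos

open MvPolynomial

abbrev S := MvPolynomial (Fin 4) ℚ
abbrev Q := MvPolynomial (Fin 2) ℚ

section colon
variable {R : Type} [CommRing R] (io : Q →+* R) (y t : R) (hy : y ^ 2 = io (X 0) ^ 2)
  (ht : t ^ 2 = io (X 1) ^ 2)
  (nf : ∀ r, ∃ A B C D, r = io A + io B * y + io C * t + io D * (y * t))
  (key : ∀ A B C D, io A + io B * y + io C * t + io D * (y * t) = 0 → A = 0 ∧ B = 0 ∧ C = 0 ∧ D = 0)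
include nf key

lemma nd : ¬ (X 0 : Q) ∣ X 1 := by
  rw [X_dvd_X]; decide

lemma c1 (r : R) (h : r * io (X 0) = 0) : r = 0 := by
  obtain ⟨A, B, C, D, rfl⟩ := nf r
  obtain ⟨h1, h2, h3, h4⟩ := key (A * X 0) (B * X 0) (C * X 0) (D * X 0)
    (by simp only [map_mul]; linear_combination h)
  simp only [mul_eq_zero, X_ne_zero, or_false] at h1 h2 h3 h4
  simp only [h1, h2, h3, h4, map_zero, zero_mul, add_zero]

lemma c3 (r s : R) (h : s * io (X 0) = r * io (X 1)) : ∃ a, a * io (X 0) = r := by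
  obtain ⟨A, B, C, D, rfl⟩ := nf r
  obtain ⟨A', B', C', D', rfl⟩ := nf s
  obtain ⟨h1, h2, h3, h4⟩ := key (A * X 1 - X 0 * A') (B * X 1 - X 0 * B') (C * X 1 - X 0 * C')
    (D * X 1 - X 0 * D') (by simp only [map_mul, map_sub]; linear_combination -h)
  have p : ∀ A A' : Q, A * X 1 - X 0 * A' = 0 → X 0 ∣ A := fun A A' h =>
    ((X_prime (i := 0)).dvd_or_dvd ⟨A', sub_eq_zero.1 h⟩).resolve_right (nd io y t nf key)
  obtain ⟨a, rfl⟩ := p _ _ h1
  obtain ⟨b, rfl⟩ := p _ _ h2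
  obtain ⟨c, rfl⟩ := p _ _ h3
  obtain ⟨d, rfl⟩ := p _ _ h4
  exact ⟨io a + io b * y + io c * t + io d * (y * t), by simp only [map_mul]; ring⟩

include hy in
lemma c2 (r : R) (h : r * y = 0) : r = 0 := by
  obtain ⟨A, B, C, D, rfl⟩ := nf r
  obtain ⟨h1, h2, h3, h4⟩ := key (B * X 0 ^ 2) A (D * X 0 ^ 2) C
    (by simp only [map_mul, map_pow]; linear_combination h - (io B + io D * t) * hy)
  simp only [sq, mul_eq_zero, X_ne_zero, or_false] at h1 h3
  simp only [h1, h2, h3, h4, map_zero, zero_mul, add_zero]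

include hy ht in
lemma c4 (r s : R) (h : s * y = r * t) : ∃ a, a * y = r := by
  obtain ⟨A, B, C, D, rfl⟩ := nf r
  obtain ⟨A', B', C', D', rfl⟩ := nf s
  obtain ⟨h1, h2, h3, h4⟩ := key (X 1 ^ 2 * C - X 0 ^ 2 * B') (X 1 ^ 2 * D - A') (A - X 0 ^ 2 * D')
    (B - C') (by
      simp only [map_mul, map_sub, map_pow]
      linear_combination -h - (io C + io D * y) * ht + (io B' + io D' * t) * hy)
  obtain ⟨c, rfl⟩ : X 0 ^ 2 ∣ C := (X_prime (i := 0)).pow_dvd_of_dvd_mul_left 2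
    (fun h => nd io y t nf key ((X_prime (i := 0)).dvd_of_dvd_pow h)) ⟨B', sub_eq_zero.1 h1⟩
  rw [sub_eq_zero.1 h3]
  exact ⟨io D' * y + io B + io c * y * t + io D * t, by
    simp only [map_mul, map_pow]; linear_combination (io D' + io c * t) * hy⟩

include hy in
lemma c5 (r s u : R) (h : s * io (X 0) + u * io (X 1) = r * y) :
    ∃ a b c, a * io (X 0) + b * io (X 1) + c * y = r := by
  obtain ⟨A, B, C, D, rfl⟩ := nf r
  obtain ⟨A', B', C', D', rfl⟩ := nf s
  obtain ⟨A'', B'', C'', D'', rfl⟩ := nf u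
  obtain ⟨h1, h2, h3, h4⟩ := key (X 0 ^ 2 * B - (X 0 * A' + X 1 * A'')) (A - (X 0 * B' + X 1 * B''))
    (X 0 ^ 2 * D - (X 0 * C' + X 1 * C'')) (C - (X 0 * D' + X 1 * D'')) (by
      simp only [map_mul, map_sub, map_pow, map_add]
      linear_combination -h - (io B + io D * t) * hy)
  rw [sub_eq_zero.1 h2, sub_eq_zero.1 h4]
  exact ⟨io B' + io D' * t, io B'' + io D'' * t, io B + io D * t, by
    simp only [map_mul, map_add]; ring⟩

include hy ht in
lemma c6 (r s u v : R) (h : s * io (X 0) + u * io (X 1) + v * y = r * t) :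
    ∃ a b c d, a * io (X 0) + b * io (X 1) + c * y + d * t = r := by
  obtain ⟨A, B, C, D, rfl⟩ := nf r
  obtain ⟨A', B', C', D', rfl⟩ := nf s
  obtain ⟨A'', B'', C'', D'', rfl⟩ := nf u
  obtain ⟨a, b, c, d, rfl⟩ := nf v
  obtain ⟨h1, h2, h3, h4⟩ := key (X 1 ^ 2 * C - (X 0 * A' + X 1 * A'' + X 0 ^ 2 * b))
    (X 1 ^ 2 * D - (X 0 * B' + X 1 * B'' + a))
    (A - (X 0 * C' + X 1 * C'' + X 0 ^ 2 * d)) (B - (X 0 * D' + X 1 * D'' + c)) (by
      simp only [map_mul, map_sub, map_pow, map_add]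
      linear_combination -h - (io C + io D * y) * ht + (io b + io d * t) * hy)
  rw [sub_eq_zero.1 h3]
  exact ⟨io C' + io (X 0) * io d, io C'', io B, io C + io D * y, by
    simp only [map_mul, map_add, map_pow]; ring⟩

end colon

noncomputable def J : Ideal S := Ideal.span {X 0 ^ 2 - X 1 ^ 2, X 2 ^ 2 - X 3 ^ 2}

noncomputable def io : Q →+* S ⧸ J :=
  (Ideal.Quotient.mk J).comp (aeval ![(X 0 : S), X 2]).toRingHom

lemma io0 : io (X 0) = Ideal.Quotient.mk J (X 0) := by simp [io]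
lemma io1 : io (X 1) = Ideal.Quotient.mk J (X 2) := by simp [io]

lemma hy : Ideal.Quotient.mk J (X 1) ^ 2 = io (X 0) ^ 2 := by
  rw [io0, ← map_pow, ← map_pow, eq_comm, Ideal.Quotient.eq]
  exact Ideal.subset_span (Or.inl rfl)

lemma ht : Ideal.Quotient.mk J (X 3) ^ 2 = io (X 1) ^ 2 := by
  rw [io1, ← map_pow, ← map_pow, eq_comm, Ideal.Quotient.eq]
  exact Ideal.subset_span (Or.inr rfl)

lemma nf (r : S ⧸ J) : ∃ A B C D, r = io A + io B * Ideal.Quotient.mk J (X 1) +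
    io C * Ideal.Quotient.mk J (X 3) +
    io D * (Ideal.Quotient.mk J (X 1) * Ideal.Quotient.mk J (X 3)) := by
  obtain ⟨f, rfl⟩ := Ideal.Quotient.mk_surjective r
  induction f using MvPolynomial.induction_on with
  | C a => exact ⟨C a, 0, 0, 0, by simp [io]⟩
  | add p q hp hq =>
    obtain ⟨A, B, C, D, h⟩ := hp
    obtain ⟨A', B', C', D', h'⟩ := hq
    exact ⟨A + A', B + B', C + C', D + D', by simp only [map_add, h, h']; ring⟩
  | mul_X p i hp =>
    obtain ⟨A, B, C, D, h⟩ := hp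
    rw [map_mul, h]
    fin_cases i
    · exact ⟨A * X 0, B * X 0, C * X 0, D * X 0, by simp only [map_mul, io0]; simp; ring⟩
    · exact ⟨B * X 0 ^ 2, A, D * X 0 ^ 2, C, by simp only [map_mul, map_pow, ← hy]; simp; ring⟩
    · exact ⟨A * X 1, B * X 1, C * X 1, D * X 1, by simp only [map_mul, io1]; simp; ring⟩
    · exact ⟨C * X 1 ^ 2, D * X 1 ^ 2, A, B, by simp only [map_mul, map_pow, ← ht]; simp; ring⟩

lemma kill {T : Type} [CommRing T] (F : S →+* T) (h1 : F (X 0) ^ 2 = F (X 1) ^ 2)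
    (h2 : F (X 2) ^ 2 = F (X 3) ^ 2) : ∀ a ∈ J, F a = 0 := by
  intro a ha
  obtain ⟨u, v, rfl⟩ := Ideal.mem_span_pair.1 ha
  simp [h1, h2]

lemma key (A B C D : Q) (h : io A + io B * Ideal.Quotient.mk J (X 1) +
    io C * Ideal.Quotient.mk J (X 3) +
    io D * (Ideal.Quotient.mk J (X 1) * Ideal.Quotient.mk J (X 3)) = 0) :
    A = 0 ∧ B = 0 ∧ C = 0 ∧ D = 0 := by
  have e : ∀ a b : Q, a ^ 2 = 1 → b ^ 2 = 1 →
      A + B * (a * X 0) + C * (b * X 1) + D * (a * X 0 * (b * X 1)) = 0 := by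
    intro a b ha hb
    let F : S →+* Q := (aeval ![X 0, a * X 0, X 1, b * X 1]).toRingHom
    have hF := kill F (by simp [F, mul_pow, ha]) (by simp [F, mul_pow, hb])
    have : (Ideal.Quotient.lift J F hF).comp io = RingHom.id Q := by
      apply MvPolynomial.ringHom_ext
      · intro r; simp [io, F]
      · intro i; fin_cases i <;> simp [io, F]
    have h2 : ∀ A, Ideal.Quotient.lift J F hF (io A) = A := fun A => DFunLike.congr_fun this A
    have := congrArg (Ideal.Quotient.lift J F hF) h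
    simp only [map_add, map_mul, h2, map_zero, Ideal.Quotient.lift_mk] at this
    simpa [F] using this
  have e1 := e 1 1 (by ring) (by ring)
  have e2 := e 1 (-1) (by ring) (by ring)
  have e3 := e (-1) 1 (by ring) (by ring)
  have e4 := e (-1) (-1) (by ring) (by ring)
  have h1 : 4 * A = 0 := by linear_combination e1 + e2 + e3 + e4
  have h2 : 4 * X 0 * B = 0 := by linear_combination e1 + e2 - e3 - e4
  have h3 : 4 * X 1 * C = 0 := by linear_combination e1 - e2 + e3 - e4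
  have h4 : 4 * X 0 * X 1 * D = 0 := by linear_combination e1 - e2 - e3 + e4
  simp_all

lemma const {ι : Type} [Fintype ι] (e : ι → S) (he : ∀ k, (e k).IsHomogeneous 2) (p : S)
    (hp : p.IsHomogeneous 2) (h : p ∈ Ideal.span (Set.range e)) :
    ∃ c : ι → ℚ, p = ∑ k, C (c k) * e k := by
  obtain ⟨s, hs⟩ := Ideal.mem_span_range_iff_exists_fun.1 h
  refine ⟨fun k => coeff 0 (s k), sub_eq_zero.1 ?_⟩
  have h1 : (p - ∑ k, C (coeff 0 (s k)) * e k).IsHomogeneous 2 :=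
    hp.sub (IsHomogeneous.sum _ _ _ fun k _ => (he k).C_mul _)
  have h2 : p - ∑ k, C (coeff 0 (s k)) * e k ∈ idealOfVars (Fin 4) ℚ ^ (1 + 2) := by
    rw [← hs, ← Finset.sum_sub_distrib]
    refine Ideal.sum_mem _ fun k _ => ?_
    rw [← sub_mul, pow_add]
    refine Ideal.mul_mem_mul ?_ ?_
    · rw [mem_pow_idealOfVars_iff']
      simp [Finsupp.degree_eq_zero_iff]
    · rw [mem_pow_idealOfVars_iff']
      exact fun d hd => (he k).coeff_eq_zero hd.ne
  ext d
  by_cases hd : d.degree = 2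
  · exact (mem_pow_idealOfVars_iff' _ _).1 h2 d (by omega)
  · exact h1.coeff_eq_zero hd

lemma lin (p : S) (hp : p.IsHomogeneous 1) : ∃ c : Fin 4 → ℚ, p = ∑ i, C (c i) * X i := by
  have a : p ∈ homogeneousSubmodule (Fin 4) ℚ 1 := hp
  rw [homogeneousSubmodule_one_eq_span_X, Submodule.mem_span_range_iff_exists_fun] at a
  obtain ⟨c, hc⟩ := a
  exact ⟨c, by simp [← hc, smul_eq_C_mul]⟩

end Pool.Agent.H33.Kos
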