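import Mathlib

set_option autoImplicit false

namespace Pool.Agent.H33.LU

open Matrix

abbrev M2 : Type := Matrix (Fin 2) (Fin 2) ℂ
abbrev MN (n : ℕ) : Type := Matrix (Fin n → Fin 2) (Fin n → Fin 2) ℂ

variable {n : ℕ}

def ten (a : Fin n → M2) : MN n := fun x y => ∏ k, a k (x k) (y k)

def pm (π : Equiv.Perm (Fin n)) : MN n := fun x y => if y = x ∘ π then 1 else 0

def sg : Fin 4 → M2 := ![1, !![0, 1; 1, 0], !![1, 0; 0, -1], !![0, -Complex.I; Complex.I, 0]]

lemma ten_mul (a b : Fin n → M2) : ten a * ten b = ten fun k => a k * b k := by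
  ext x y
  simp only [ten, Matrix.mul_apply, ← Finset.prod_mul_distrib]
  rw [Finset.prod_univ_sum]
  simp

lemma ten_one : ten (fun _ : Fin n => (1 : M2)) = 1 := by
  ext x y
  simp only [ten, Matrix.one_apply]
  by_cases h : x = y
  · simp [h]
  · obtain ⟨k, hk⟩ := Function.ne_iff.1 h
    rw [if_neg h]
    exact Finset.prod_eq_zero (Finset.mem_univ k) (by simp [hk])

lemma ten_ct (a : Fin n → M2) : (ten a)ᴴ = ten fun k => (a k)ᴴ := by
  ext x y
  simp [ten, Matrix.conjTranspose_apply]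

lemma ten_tr (a : Fin n → M2) : (ten a).trace = ∏ k, (a k).trace := by
  simp only [ten, Matrix.trace, Matrix.diag]
  rw [Finset.prod_univ_sum]
  simp

lemma ten_smul (c : Fin n → ℂ) (a : Fin n → M2) :
    ten (fun k => c k • a k) = (∏ k, c k) • ten a := by
  ext x y
  simp [ten, Finset.prod_mul_distrib]

lemma pm_mul (π : Equiv.Perm (Fin n)) (A : MN n) (x y : Fin n → Fin 2) :
    (pm π * A) x y = A (x ∘ π) y := by
  simp [pm, Matrix.mul_apply]

lemma mul_pm (π : Equiv.Perm (Fin n)) (A : MN n) (x y : Fin n → Fin 2) :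
    (A * (pm π)ᴴ) x y = A x (y ∘ π) := by
  simp [pm, Matrix.mul_apply, Matrix.conjTranspose_apply]

lemma pm_conj (π : Equiv.Perm (Fin n)) (b : Fin n → M2) :
    pm π * ten b * (pm π)ᴴ = ten fun k => b (π.symm k) := by
  ext x y
  rw [mul_pm, pm_mul]
  simp only [ten, Function.comp]
  exact Fintype.prod_equiv π _ _ (by simp)

lemma pm_unit (π : Equiv.Perm (Fin n)) : (pm π)ᴴ * pm π = 1 := by
  apply mul_eq_one_comm.1
  have := pm_conj π fun _ => 1
  rwa [ten_one, Matrix.mul_one] at this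

def e2 (a b : Fin 4) : ℤ := if a = 0 ∨ b = 0 ∨ a = b then 1 else -1

lemma sg_comm (a b : Fin 4) : sg a * sg b = (e2 a b : ℂ) • (sg b * sg a) := by
  fin_cases a <;> fin_cases b <;> simp [sg, e2]

lemma sg_sq (a : Fin 4) : sg a * sg a = 1 := by
  fin_cases a <;> simp [sg, Matrix.one_fin_two]

lemma sg_ct (a : Fin 4) : (sg a)ᴴ = sg a := by
  ext i j
  fin_cases a <;> fin_cases i <;> fin_cases j <;> simp [sg, Matrix.conjTranspose_apply]

lemma sg_tr (a b c : Fin 4) (h : a.val ^^^ b.val ^^^ c.val ≠ 0) :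
    (sg a * sg b * sg c).trace = 0 := by
  fin_cases a <;> fin_cases b <;> fin_cases c <;> simp at h <;>
    simp [sg, Matrix.trace_fin_two]

def ps (g : Fin n → Fin 4) : MN n := ten fun k => sg (g k)

lemma ps_sq (g : Fin n → Fin 4) : ps g * ps g = 1 := by
  simp only [ps, ten_mul, sg_sq, ten_one]

lemma ps_ct (g : Fin n → Fin 4) : (ps g)ᴴ = ps g := by
  simp only [ps, ten_ct, sg_ct]

lemma ps_comm (g h : Fin n → Fin 4) (e : ∏ k, e2 (g k) (h k) = 1) : ps g * ps h = ps h * ps g := by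
  simp only [ps, ten_mul]
  have : (fun k => sg (g k) * sg (h k)) = fun k => (e2 (g k) (h k) : ℂ) • (sg (h k) * sg (g k)) :=
    funext fun k => sg_comm _ _
  rw [this, ten_smul, ← Int.cast_prod, e]
  simp

def code (g : Fin 3 → Fin n → Fin 4) : Set ((Fin n → Fin 2) → ℂ) := {ψ | ∀ i, ps (g i) *ᵥ ψ = ψ}

def Comm (g : Fin 3 → Fin n → Fin 4) : Prop := ∀ i j, ∏ k, e2 (g i k) (g j k) = 1

noncomputable def pj (g : Fin 3 → Fin n → Fin 4) : MN n :=
  (1 / 8 : ℂ) • ((1 + ps (g 0)) * (1 + ps (g 1)) * (1 + ps (g 2)))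

lemma pj_fix (g : Fin 3 → Fin n → Fin 4) (ψ : (Fin n → Fin 2) → ℂ) (h : ψ ∈ code g) :
    pj g *ᵥ ψ = ψ := by
  have e : ∀ i, (1 + ps (g i)) *ᵥ ψ = (2 : ℂ) • ψ := by
    intro i; rw [Matrix.add_mulVec, h i, Matrix.one_mulVec, two_smul]
  rw [pj, Matrix.smul_mulVec, ← Matrix.mulVec_mulVec, ← Matrix.mulVec_mulVec, e,
    Matrix.mulVec_smul, e, Matrix.mulVec_smul, Matrix.mulVec_smul, e, smul_smul, smul_smul,
    smul_smul]
  norm_num

lemma cm (g : Fin 3 → Fin n → Fin 4) (hc : Comm g) (i j : Fin 3) :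
    Commute (1 + ps (g i)) (1 + ps (g j)) :=
  (Commute.one_left _).add_left ((Commute.one_right _).add_right (ps_comm _ _ (hc i j)))

lemma pj_ct (g : Fin 3 → Fin n → Fin 4) (hc : Comm g) : (pj g)ᴴ = pj g := by
  simp only [pj, Matrix.conjTranspose_smul, Matrix.conjTranspose_mul, Matrix.conjTranspose_add,
    Matrix.conjTranspose_one, ps_ct]
  congr 1
  · simp
  · rw [(cm g hc 1 0).eq, ((cm g hc 2 0).mul_right (cm g hc 2 1)).eq]

lemma pj_mem (g : Fin 3 → Fin n → Fin 4) (hc : Comm g) (v : (Fin n → Fin 2) → ℂ) :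
    pj g *ᵥ v ∈ code g := by
  have a : ∀ i, ps (g i) * (1 + ps (g i)) = 1 + ps (g i) := by
    intro i; rw [Matrix.mul_add, ps_sq, Matrix.mul_one, add_comm]
  intro i
  rw [Matrix.mulVec_mulVec]
  congr 1
  rw [pj, Matrix.mul_smul]
  congr 1
  fin_cases i
  · show ps (g 0) * _ = _
    rw [← Matrix.mul_assoc, ← Matrix.mul_assoc, a]
  · show ps (g 1) * _ = _
    rw [(cm g hc 0 1).eq, ← Matrix.mul_assoc, ← Matrix.mul_assoc, a]
  · show ps (g 2) * _ = _
    rw [← ((cm g hc 2 0).mul_right (cm g hc 2 1)).eq, ← Matrix.mul_assoc, a]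

lemma conj_eq (g h : Fin 3 → Fin n → Fin 4) (hg : Comm g) (hh : Comm h) (W : MN n)
    (hW : Wᴴ * W = 1) (him : (fun ψ => W *ᵥ ψ) '' code g = code h) :
    W * pj g * Wᴴ = pj h := by
  have h1 : pj h * (W * pj g * Wᴴ) = W * pj g * Wᴴ := by
    apply Matrix.ext_iff_mulVec.2
    intro v
    rw [← Matrix.mulVec_mulVec]
    apply pj_fix
    rw [← him]
    exact ⟨pj g *ᵥ (Wᴴ *ᵥ v), pj_mem g hg _, by simp only [Matrix.mulVec_mulVec, Matrix.mul_assoc]⟩
  have h2 : (W * pj g * Wᴴ) * pj h = pj h := by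
    apply Matrix.ext_iff_mulVec.2
    intro v
    obtain ⟨q, hq, e⟩ := him.symm ▸ pj_mem h hh v
    simp only at e
    rw [← Matrix.mulVec_mulVec, ← e, Matrix.mulVec_mulVec, Matrix.mul_assoc, hW, Matrix.mul_one,
      ← Matrix.mulVec_mulVec, pj_fix g q hq]
  have h3 := congrArg Matrix.conjTranspose h2
  simp only [Matrix.conjTranspose_mul, pj_ct g hg, pj_ct h hh,
    Matrix.conjTranspose_conjTranspose] at h3
  rw [← h1]
  simpa [Matrix.mul_assoc] using h3

def lab (g : Fin 3 → Fin n → Fin 4) (s : Bool × Bool × Bool) (k : Fin n) : ℕ :=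
  (if s.1 then g 0 k else 0).val ^^^ (if s.2.1 then g 1 k else 0).val ^^^
    (if s.2.2 then g 2 k else 0).val

lemma pj_eq (g : Fin 3 → Fin n → Fin 4) :
    pj g = (1 / 8 : ℂ) • ∑ s : Bool × Bool × Bool, ten fun k =>
      sg (if s.1 then g 0 k else 0) * sg (if s.2.1 then g 1 k else 0) *
        sg (if s.2.2 then g 2 k else 0) := by
  have h0 : (ten fun _ : Fin n => sg 0) = 1 := ten_one
  simp only [pj, ← ten_mul, Fintype.sum_prod_type, Fintype.sum_bool, if_true, Bool.false_eq_true,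
    if_false, h0, ps]
  congr 1
  noncomm_ring

lemma tr_pj (g : Fin 3 → Fin n → Fin 4) (b : Fin n → M2) (i j : Fin n) (hi : b i = 1)
    (hj : b j = 1)
    (hs : ∀ s : Bool × Bool × Bool, s ≠ (false, false, false) → lab g s i ≠ 0 ∨ lab g s j ≠ 0) :
    (pj g * ten b).trace = (1 / 8) * ∏ k, (b k).trace := by
  rw [pj_eq, Matrix.smul_mul, Matrix.trace_smul, Finset.sum_mul, Matrix.trace_sum,
    Finset.sum_eq_single (false, false, false)]
  · simp [ten_mul, ten_tr, sg]
  · intro s _ h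
    rw [ten_mul, ten_tr]
    rcases hs s h with h | h
    · exact Finset.prod_eq_zero (Finset.mem_univ i) (by rw [hi, Matrix.mul_one]; exact sg_tr _ _ _ h)
    · exact Finset.prod_eq_zero (Finset.mem_univ j) (by rw [hj, Matrix.mul_one]; exact sg_tr _ _ _ h)
  · simp

lemma tr_ps (g : Fin 3 → Fin n → Fin 4) (hc : Comm g) (m : Fin 3) :
    (pj g * ps (g m)).trace = (pj g).trace := by
  rw [Matrix.trace_mul_comm]
  congr 1
  apply Matrix.ext_iff_mulVec.2
  intro v
  rw [← Matrix.mulVec_mulVec]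
  exact pj_mem g hc v m

/-- If generator m of g is trivial at positions a, b and nontrivial at c, then the images of a, b
cannot form a pair meeting the support of every nonidentity element of h. -/
lemma key (g h : Fin 3 → Fin n → Fin 4) (hg : Comm g) (hh : Comm h)
    (U : Fin n → unitaryGroup (Fin 2) ℂ) (π : Equiv.Perm (Fin n))
    (him : (fun ψ => (ten (fun k => (U k : M2)) * pm π) *ᵥ ψ) '' code g = code h)
    (m : Fin 3) (a b c : Fin n) (ha : g m a = 0) (hb : g m b = 0) (hc : g m c ≠ 0)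
    (hs : ∀ s : Bool × Bool × Bool, s ≠ (false, false, false) →
      lab h s (π a) ≠ 0 ∨ lab h s (π b) ≠ 0) : False := by
  have u1 : ∀ k, (U k : M2)ᴴ * U k = 1 := fun k => (U k).2.1
  have u2 : ∀ k, (U k : M2) * (U k : M2)ᴴ = 1 := fun k => (U k).2.2
  set W := ten (fun k => (U k : M2)) * pm π with hWd
  have hW : Wᴴ * W = 1 := by
    rw [hWd, Matrix.conjTranspose_mul, Matrix.mul_assoc, ← Matrix.mul_assoc (ten _)ᴴ, ten_ct,
      ten_mul]
    simp only [u1, ten_one, Matrix.one_mul, pm_unit]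
  have e := conj_eq g h hg hh W hW him
  have e2 : W * ps (g m) * Wᴴ = ten fun k => U k * sg (g m (π.symm k)) * (U k : M2)ᴴ := by
    rw [hWd, Matrix.conjTranspose_mul, ten_ct, ← ten_mul, ← ten_mul, ← pm_conj π fun k => sg (g m k)]
    simp only [Matrix.mul_assoc, ps]
  have t1 := tr_pj h (fun k => U k * sg (g m (π.symm k)) * (U k : M2)ᴴ) (π a) (π b)
    (by simp [ha, sg, u2]) (by simp [hb, sg, u2]) hs
  have t2 := tr_pj h (fun _ => 1) (π a) (π b) rfl rfl hs
  have z : ∏ k, (U k * sg (g m (π.symm k)) * (U k : M2)ᴴ).trace = 0 := by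
    apply Finset.prod_eq_zero (Finset.mem_univ (π c))
    rw [Matrix.trace_mul_cycle, u1, Matrix.one_mul, Equiv.symm_apply_apply]
    have := sg_tr (g m c) 0 0 (by simpa using hc)
    simpa [sg] using this
  rw [z, ← e2, ← e] at t1
  rw [ten_one, Matrix.mul_one, ← e] at t2
  have t3 : (W * pj g * Wᴴ * (W * ps (g m) * Wᴴ)).trace = (W * pj g * Wᴴ).trace := by
    have : W * pj g * Wᴴ * (W * ps (g m) * Wᴴ) = W * (pj g * ps (g m)) * Wᴴ := by
      simp only [Matrix.mul_assoc]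
      rw [← Matrix.mul_assoc Wᴴ W, hW, Matrix.one_mul]
    rw [this, Matrix.trace_mul_cycle, hW, Matrix.one_mul, tr_ps g hg, Matrix.trace_mul_cycle, hW,
      Matrix.one_mul]
  rw [t3, t2] at t1
  simp at t1

end Pool.Agent.H33.LU
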