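import Mathlib

set_option autoImplicit false
open Filter Topology Set

namespace Pool.Agent.H33.Lfin

lemma amen {G : Type} [Group G]
    (h : ∀ s : Finset G, ∃ F : Subgroup G, (F : Set G).Finite ∧ ∀ g ∈ s, g ∈ F) :
    ∃ μ : Set G → ℝ, (∀ A, 0 ≤ μ A) ∧ μ Set.univ = 1 ∧
      (∀ A B : Set G, Disjoint A B → μ (A ∪ B) = μ A + μ B) ∧
      (∀ (g : G) (A : Set G), μ ((fun x => g * x) '' A) = μ A) := by
  classical
  choose F F1 F2 using h
  let U : Ultrafilter (Finset G) := Ultrafilter.of atTop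
  let d : Set G → Finset G → ℝ := fun A s => (A ∩ F s).ncard / (F s : Set G).ncard
  have pos : ∀ s, (0 : ℝ) < (F s : Set G).ncard := fun s => by
    exact_mod_cast (ncard_pos (F1 s)).2 ⟨1, (F s).one_mem⟩
  have ex : ∀ A, ∃ c ∈ Icc (0 : ℝ) 1, Tendsto (d A) U (𝓝 c) := fun A =>
    isCompact_Icc.ultrafilter_le_nhds' (U.map (d A)) (Ultrafilter.mem_map.2
      (univ_mem' (f := (U : Filter (Finset G))) fun s => ⟨by simp only [d]; positivity,
        (div_le_one (pos s)).2 (by exact_mod_cast ncard_le_ncard inter_subset_right (F1 s))⟩))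
  choose μ m1 m2 using ex
  refine ⟨μ, fun A => (m1 A).1, tendsto_nhds_unique (m2 _) ?_, fun A B hd =>
    tendsto_nhds_unique (m2 _) ?_, fun g A => tendsto_nhds_unique (m2 _) ?_⟩
  · exact tendsto_const_nhds.congr fun s => by simp [d, div_self (pos s).ne']
  · refine ((m2 A).add (m2 B)).congr fun s => ?_
    simp only [d]
    rw [union_inter_distrib_right, ncard_union_eq (hd.mono inter_subset_left inter_subset_left)
      ((F1 s).inter_of_right _) ((F1 s).inter_of_right _), Nat.cast_add, add_div]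
  · refine (m2 A).congr' ((Ultrafilter.of_le _) ?_)
    filter_upwards [eventually_ge_atTop {g}] with s hs
    have hg := F2 s g (hs (Finset.mem_singleton_self g))
    simp only [d]
    rw [← ncard_image_of_injective (A ∩ F s) (mul_right_injective g)]
    congr 3
    ext x
    constructor
    · rintro ⟨y, ⟨h1, h2⟩, rfl⟩
      exact ⟨⟨y, h1, rfl⟩, (F s).mul_mem hg h2⟩
    · rintro ⟨⟨y, h1, rfl⟩, h2⟩
      exact ⟨y, ⟨h1, ((F s).mul_mem_cancel_left hg).1 h2⟩, rfl⟩

@[ext] structure G where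
  v : ℕ → ZMod 2
  a : ℕ × ℕ → ZMod 2

instance : Mul G := ⟨fun x y => ⟨x.v + y.v, x.a + y.a + fun p => x.v p.1 * y.v p.2⟩⟩
instance : One G := ⟨⟨0, 0⟩⟩
instance : Inv G := ⟨fun x => ⟨-x.v, -x.a + fun p => x.v p.1 * x.v p.2⟩⟩

@[simp] lemma mul_v (x y : G) : (x * y).v = x.v + y.v := rfl
@[simp] lemma mul_a (x y : G) : (x * y).a = x.a + y.a + fun p => x.v p.1 * y.v p.2 := rfl
@[simp] lemma one_v : (1 : G).v = 0 := rfl
@[simp] lemma one_a : (1 : G).a = 0 := rfl
@[simp] lemma inv_v (x : G) : x⁻¹.v = -x.v := rfl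
@[simp] lemma inv_a (x : G) : x⁻¹.a = -x.a + fun p => x.v p.1 * x.v p.2 := rfl

instance : Group G := Group.ofLeftAxioms
  (fun x y z => by ext <;> simp <;> ring) (fun x => by ext <;> simp)
  (fun x => by ext <;> simp [CharTwo.add_self_eq_zero])

lemma locfin (s : Finset G) : ∃ F : Subgroup G, (F : Set G).Finite ∧ ∀ g ∈ s, g ∈ F := by
  let S := Submodule.span (ZMod 2) (G.v '' s)
  have hS : (S : Set (ℕ → ZMod 2)).Finite := (s.finite_toSet.image _).submoduleSpan _
  let t : Set (ℕ × ℕ → ZMod 2) := G.a '' s ∪ image2 (fun (u w : ℕ → ZMod 2) p => u p.1 * w p.2) S S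
  let T := Submodule.span (ZMod 2) t
  have hT : (T : Set (ℕ × ℕ → ZMod 2)).Finite :=
    ((s.finite_toSet.image _).union (hS.image2 _ hS)).submoduleSpan _
  refine ⟨⟨⟨⟨{x | x.v ∈ S ∧ x.a ∈ T}, fun {x y} hx hy => ⟨S.add_mem hx.1 hy.1,
    T.add_mem (T.add_mem hx.2 hy.2) (Submodule.subset_span (Or.inr ⟨_, hx.1, _, hy.1, rfl⟩))⟩⟩,
    S.zero_mem, T.zero_mem⟩, fun {x} hx => ⟨S.neg_mem hx.1, T.add_mem (T.neg_mem hx.2)
      (Submodule.subset_span (Or.inr ⟨_, hx.1, _, hx.1, rfl⟩))⟩⟩, ?_, fun g hg =>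
    ⟨Submodule.subset_span ⟨g, hg, rfl⟩, Submodule.subset_span (Or.inl ⟨g, hg, rfl⟩)⟩⟩
  exact (hS.prod hT).preimage (f := fun x : G => (x.v, x.a))
    fun x _ y _ h => G.ext (congrArg Prod.fst h) (congrArg Prod.snd h)

lemma comm {x y : G} (h : x * y = y * x) (hx : x.v ≠ 0) : y.v = 0 ∨ y.v = x.v := by
  obtain ⟨i, hi⟩ := Function.ne_iff.1 hx
  have h1 : ∀ j, x.v i * y.v j = y.v i * x.v j := fun j => by
    have := congrFun (congrArg G.a h) (i, j)
    simp only [mul_a, Pi.add_apply] at this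
    linear_combination this
  have h2 : ∀ c : ZMod 2, c = 0 ∨ c = 1 := by decide
  have h3 := (h2 (x.v i)).resolve_left hi
  rcases h2 (y.v i) with e | e
  · exact Or.inl (funext fun j => by simpa [h3, e] using h1 j)
  · exact Or.inr (funext fun j => by simpa [h3, e] using h1 j)

noncomputable def sg (c : ZMod 2) : ℂ := if c = 0 then 1 else -1

lemma sg_add (c d : ZMod 2) : sg (c + d) = sg c * sg d := by
  have h2 : ∀ c : ZMod 2, c = 0 ∨ c = 1 := by decide
  have h3 : (1 + 1 : ZMod 2) = 0 := by decide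
  rcases h2 c with rfl | rfl <;> rcases h2 d with rfl | rfl <;> simp [sg, h3]

lemma sg_norm (c : ZMod 2) : ‖sg c‖ = 1 := by unfold sg; split_ifs <;> simp

noncomputable abbrev L := lp (fun _ : G => ℂ) 1

lemma sn (f : L) : Summable fun x => ‖f x‖ := by simpa using f.2.summable (by simp)

lemma sn' (f : L) (c : G → ℂ) (hc : ∀ x, ‖c x‖ ≤ 1) : Summable fun x => ‖f x * c x‖ :=
  (sn f).of_nonneg_of_le (fun _ => norm_nonneg _) fun x => by
    rw [norm_mul]; exact mul_le_of_le_one_right (norm_nonneg _) (hc x)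

noncomputable def pairing (c : G → ℂ) (hc : ∀ x, ‖c x‖ ≤ 1) : L →L[ℂ] ℂ :=
  LinearMap.mkContinuous
    { toFun := fun f => ∑' x, f x * c x
      map_add' := fun f g => by
        simp only [lp.coeFn_add, Pi.add_apply, add_mul]
        exact (sn' f c hc).of_norm.tsum_add (sn' g c hc).of_norm
      map_smul' := fun r f => by simp [mul_assoc, tsum_mul_left] } 1 fun f => by
    refine tsum_of_norm_bounded (g := fun x => ‖f x‖) ?_ fun x => ?_
    · simpa using lp.hasSum_norm (p := 1) (by simp) f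
    · rw [norm_mul]; exact mul_le_of_le_one_right (norm_nonneg _) (hc x)

lemma pairing_apply (c : G → ℂ) (hc : ∀ x, ‖c x‖ ≤ 1) (f : L) :
    pairing c hc f = ∑' x, f x * c x := rfl

lemma pairing_single (c : G → ℂ) (hc : ∀ x, ‖c x‖ ≤ 1) [DecidableEq G] (y : G) :
    pairing c hc (lp.single 1 y 1) = c y := by
  rw [pairing_apply, tsum_eq_single y fun x hx => by simp [lp.single_apply, hx]]
  simp

noncomputable def chi (i : ℕ) : L →L[ℂ] ℂ := pairing (fun x => sg (x.v i)) fun _ => (sg_norm _).le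

lemma chi_conv (i : ℕ) (f g h : L) (e : ∀ x : G, h x = ∑' y : G, f y * g (y⁻¹ * x)) :
    chi i h = chi i f * chi i g := by
  have s1 := sn' f (fun x => sg (x.v i)) fun _ => (sg_norm _).le
  have s2 := sn' g (fun x => sg (x.v i)) fun _ => (sg_norm _).le
  have s3 := (Equiv.prodShear (Equiv.refl G) fun y => Equiv.mulLeft y⁻¹).summable_iff.2
    (summable_mul_of_summable_norm s1 s2)
  have e1 : ∀ y x : G, f y * sg (y.v i) * (g (y⁻¹ * x) * sg ((y⁻¹ * x).v i)) =
      f y * g (y⁻¹ * x) * sg (x.v i) := fun y x => by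
    have : sg (x.v i) = sg (y.v i) * sg ((y⁻¹ * x).v i) := by
      rw [← sg_add, mul_v, inv_v, Pi.add_apply, Pi.neg_apply, add_neg_cancel_left]
    rw [this]; ring
  simp only [chi, pairing_apply, e, ← tsum_mul_right]
  rw [Summable.tsum_comm (f := fun y x : G => f y * g (y⁻¹ * x) * sg (x.v i))
    (s3.congr fun p => e1 p.1 p.2)]
  refine tsum_congr fun y => ?_
  rw [← tsum_mul_left, ← (Equiv.mulLeft y⁻¹).tsum_eq
    fun x => f y * sg (y.v i) * (g x * sg (x.v i))]
  exact tsum_congr fun x => (e1 y x).symm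

end Pool.Agent.H33.Lfin
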