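import Mathlib

set_option autoImplicit false

namespace Pool.Agent.H33.LocGen

open Submodule Pointwise

/-- Locally at a prime, a subgroup of an `r`-generated abelian group is generated by `r` members
of any generating set. -/
lemma core {X : Type*} [AddCommGroup X] {r p : ℕ} (hp : p.Prime) (f : Fin r → X)
    (hf : AddSubgroup.closure (Set.range f) = ⊤) (T : Set X) : ∃ S : Finset X, ↑S ⊆ T ∧
    S.card ≤ r ∧ ∃ n : ℤ, ¬ (p : ℤ) ∣ n ∧ ∀ x ∈ T, n • x ∈ span ℤ (S : Set X) := by
  classical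
  have := Fact.mk hp
  let π := Fintype.linearCombination ℤ f
  have hπ : Function.Surjective π := by
    rw [← LinearMap.range_eq_top, Fintype.range_linearCombination, ← toAddSubgroup_inj,
      span_int_eq_addSubgroupClosure, hf, top_toAddSubgroup]
  let N := span ℤ (π ⁻¹' T)
  let b := Module.finBasis ℤ N
  let ρ : N →ₗ[ℤ] (Fin (Module.finrank ℤ N) → ZMod p) :=
    ((Int.castAddHom (ZMod p)).toIntLinearMap.compLeft _).comp b.equivFun.toLinearMap
  obtain ⟨t, t1, t2, t3⟩ := exists_linearIndependent (ZMod p) (ρ '' ((↑) ⁻¹' (π ⁻¹' T)))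
  obtain ⟨t, rfl⟩ := t.toFinite.exists_finset_coe
  have t4 : t.card ≤ r := t3.finset_card_le_finrank.trans (by simpa using N.finrank_le)
  choose g g1 g2 using fun y : t => t1 y.2
  have A : ∀ y ∈ span (ZMod p) (t : Set _), ∃ z ∈ span ℤ (Set.range g), ρ z = y := by
    intro y hy
    induction hy using span_induction with
    | mem y hy => exact ⟨_, subset_span ⟨⟨y, hy⟩, rfl⟩, g2 _⟩
    | zero => exact ⟨0, zero_mem _, map_zero _⟩
    | add _ _ _ _ h1 h2 =>
      obtain ⟨a, a1, rfl⟩ := h1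
      obtain ⟨c, c1, rfl⟩ := h2
      exact ⟨_, add_mem a1 c1, map_add ..⟩
    | smul c _ _ h =>
      obtain ⟨a, a1, rfl⟩ := h
      obtain ⟨k, rfl⟩ := ZMod.intCast_surjective c
      exact ⟨_, smul_mem _ k a1, by rw [map_smul, Int.cast_smul_eq_zsmul]⟩
  obtain ⟨n, n1, n2⟩ := exists_sub_one_mem_and_smul_le_of_fg_of_le_sup (I := Ideal.span {(p : ℤ)})
    (N := span ℤ (Set.range g)) (N' := ⊤) (P := ⊤) Module.Finite.fg_top le_rfl (fun x _ => by
      have h1 : ρ x ∈ span ℤ (ρ '' ((↑) ⁻¹' (π ⁻¹' T))) := by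
        rw [← map_span, span_span_coe_preimage]
        exact mem_map_of_mem trivial
      obtain ⟨z, z1, z2⟩ := A _ (t2 ▸ span_le_restrictScalars ℤ (ZMod p) _ h1)
      have h2 : ∀ j, (p : ℤ) ∣ b.equivFun (x - z) j := fun j =>
        (ZMod.intCast_zmod_eq_zero_iff_dvd ..).1 (congrFun (show ρ (x - z) = 0 by simp [z2]) j)
      choose c hc using h2
      refine mem_sup.2 ⟨z, z1, (p : ℤ) • b.equivFun.symm c, smul_mem_smul
        (Ideal.mem_span_singleton_self _) trivial, ?_⟩
      rw [← eq_sub_iff_add_eq', ← map_smul, LinearEquiv.symm_apply_eq]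
      exact funext fun j => (hc j).symm)
  refine ⟨Finset.univ.image fun y => π (g y), fun x hx => ?_, Finset.card_image_le.trans
    (by simpa), n, fun h => hp.one_lt.ne' ?_, fun x hx => ?_⟩
  · obtain ⟨y, -, rfl⟩ := Finset.mem_image.1 hx
    exact g1 y
  · exact_mod_cast Int.eq_one_of_dvd_one (by positivity)
      ((dvd_sub_right h).1 (Ideal.mem_span_singleton.1 n1))
  · obtain ⟨y, rfl⟩ := hπ x
    have := mem_map_of_mem (f := π.comp N.subtype)
      (n2 (smul_mem_pointwise_smul (⟨y, subset_span hx⟩ : N) n ⊤ trivial))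
    rw [map_span, ← Set.range_comp, map_smul] at this
    simpa [Function.comp_def] using this

/-- A subgroup membership that holds locally at every prime holds. -/
lemma glob {Y : Type*} [AddCommGroup Y] (A : AddSubgroup Y) (a : Y)
    (h : ∀ p : ℕ, p.Prime → ∃ n : ℤ, ¬ (p : ℤ) ∣ n ∧ n • a ∈ A) : a ∈ A := by
  by_contra ha
  have h1 : addOrderOf (a : Y ⧸ A) ≠ 1 := by simpa
  obtain ⟨p, hp, h2⟩ := Nat.exists_prime_and_dvd h1
  obtain ⟨n, n1, n2⟩ := h p hp
  refine n1 ((Int.natCast_dvd_natCast.2 h2).trans (addOrderOf_dvd_iff_zsmul_eq_zero.2 ?_))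
  rwa [← QuotientAddGroup.mk_zsmul, QuotientAddGroup.eq_zero_iff]

end Pool.Agent.H33.LocGen
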