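import Mathlib

set_option autoImplicit false
open Filter Topology

namespace Pool.Agent.H33.Nt

variable {H : Type} [NormedAddCommGroup H] [InnerProductSpace ℝ H]

lemma percep (D : Finset H) (hD : ∀ x ∈ D, ‖x‖ ≤ 1) {ε : ℝ} (hε : 0 < ε) (k : ℕ) :
    ∃ C : Finset H, C.card ≤ (2 * D.card + 1) ^ k ∧ ∀ w : H, ∃ c ∈ C,
      (∀ x ∈ D, |inner ℝ (w - c) x| ≤ ε) ∨ ‖w - c‖ ^ 2 ≤ ‖w‖ ^ 2 - k * ε ^ 2 := by
  classical
  induction k with
  | zero => exact ⟨{0}, by simp, fun w => ⟨0, by simp, Or.inr (by simp)⟩⟩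
  | succ k ih =>
    obtain ⟨C, hC, h⟩ := ih
    let S : Finset H := insert 0 (D.image (fun x => ε • x) ∪ D.image (fun x => -(ε • x)))
    have hS : S.card ≤ 2 * D.card + 1 := by
      refine (Finset.card_insert_le _ _).trans ?_
      have h1 := Finset.card_union_le (D.image (fun x => ε • x)) (D.image (fun x => -(ε • x)))
      have h2 := Finset.card_image_le (s := D) (f := fun x => ε • x)
      have h3 := Finset.card_image_le (s := D) (f := fun x => -(ε • x))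
      omega
    refine ⟨(C ×ˢ S).image (fun p => p.1 + p.2), ?_, fun w => ?_⟩
    · refine Finset.card_image_le.trans ?_
      rw [Finset.card_product, pow_succ]
      exact Nat.mul_le_mul hC hS
    · obtain ⟨c, hc, h1⟩ := h w
      by_cases hg : ∀ x ∈ D, |inner ℝ (w - c) x| ≤ ε
      · refine ⟨c, Finset.mem_image.2 ⟨(c, 0), Finset.mem_product.2 ⟨hc, by simp [S]⟩, by simp⟩,
          Or.inl hg⟩
      · have h2 := h1.resolve_left hg
        simp only [not_forall, not_le] at hg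
        obtain ⟨x, hx, hlt⟩ := hg
        have hx1 := hD x hx
        have hx2 : ‖x‖ ^ 2 ≤ 1 := pow_le_one₀ (norm_nonneg _) hx1
        have hn : ‖ε • x‖ ^ 2 ≤ ε ^ 2 := by
          rw [norm_smul, mul_pow, Real.norm_eq_abs, sq_abs]
          exact mul_le_of_le_one_right (by positivity) hx2
        rcases lt_abs.1 hlt with h3 | h3
        · refine ⟨c + ε • x, Finset.mem_image.2 ⟨(c, ε • x), Finset.mem_product.2 ⟨hc, ?_⟩, rfl⟩,
            Or.inr ?_⟩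
          · exact Finset.mem_insert_of_mem (Finset.mem_union_left _ (Finset.mem_image_of_mem _ hx))
          · rw [← sub_sub, norm_sub_sq_real, real_inner_smul_right]
            push_cast; nlinarith
        · refine ⟨c + -(ε • x), Finset.mem_image.2 ⟨(c, -(ε • x)),
            Finset.mem_product.2 ⟨hc, ?_⟩, rfl⟩, Or.inr ?_⟩
          · exact Finset.mem_insert_of_mem (Finset.mem_union_right _
              (Finset.mem_image_of_mem (fun x => -(ε • x)) hx))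
          · rw [← sub_sub, sub_neg_eq_add, norm_add_sq_real, real_inner_smul_right]
            push_cast; nlinarith

lemma percep' {ε : ℝ} (hε : 0 < ε) : ∃ N : ℕ, ∀ D : Finset H, (∀ x ∈ D, ‖x‖ ≤ 1) →
    ∃ C : Finset H, C.card ≤ (2 * D.card + 1) ^ N ∧ ∀ w : H, ‖w‖ ≤ 1 → ∃ c ∈ C,
      ∀ x ∈ D, |inner ℝ (w - c) x| ≤ ε := by
  obtain ⟨N, hN⟩ := exists_nat_gt (1 / ε ^ 2)
  refine ⟨N, fun D hD => ?_⟩
  obtain ⟨C, hC, h⟩ := percep D hD hε N
  refine ⟨C, hC, fun w hw => ?_⟩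
  obtain ⟨c, hc, h1⟩ := h w
  refine ⟨c, hc, h1.resolve_right fun h2 => ?_⟩
  rw [div_lt_iff₀ (by positivity)] at hN
  have : ‖w‖ ^ 2 ≤ 1 := pow_le_one₀ (norm_nonneg _) hw
  nlinarith [sq_nonneg ‖w - c‖]

lemma mul_diff {x y x' y' a b : ℝ} (hx : |x| ≤ 1) (hy : |y'| ≤ 1) (h1 : |x - x'| ≤ a)
    (h2 : |y - y'| ≤ b) : |x * y - x' * y'| ≤ a + b := by
  have e : x * y - x' * y' = x * (y - y') + (x - x') * y' := by ring
  rw [e]
  refine (abs_add_le _ _).trans ?_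
  rw [abs_mul, abs_mul]
  have := abs_nonneg (y - y'); have := abs_nonneg (x - x')
  nlinarith [abs_nonneg x, abs_nonneg y']

lemma abs_mul_le1 {x y : ℝ} (hx : |x| ≤ 1) (hy : |y| ≤ 1) : |x * y| ≤ 1 := by
  rw [abs_mul]; exact mul_le_one₀ hx (abs_nonneg _) hy

lemma quad_diff {α α' τ τ' s s' π ε : ℝ} (hα : |α| ≤ 1) (hτ : 0 ≤ τ ∧ τ ≤ 1) (hτ' : 0 ≤ τ' ∧ τ' ≤ 1)
    (hs : |s'| ≤ 1) (hπ : |π| ≤ 1) (h1 : |α - α'| ≤ ε) (h2 : |τ - τ'| ≤ ε) (h3 : |s - s'| ≤ 2 * ε) :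
    |(α * (τ * τ) + 2 * ((τ * (1 - τ)) * s) + ((1 - τ) * (1 - τ)) * π) -
      (α' * (τ' * τ') + 2 * ((τ' * (1 - τ')) * s') + ((1 - τ') * (1 - τ')) * π)| ≤ 13 * ε := by
  have a1 : |τ| ≤ 1 := by rw [abs_le]; constructor <;> linarith [hτ.1, hτ.2]
  have a2 : |τ'| ≤ 1 := by rw [abs_le]; constructor <;> linarith [hτ'.1, hτ'.2]
  have a3 : |1 - τ| ≤ 1 := by rw [abs_le]; constructor <;> linarith [hτ.1, hτ.2]
  have a4 : |1 - τ'| ≤ 1 := by rw [abs_le]; constructor <;> linarith [hτ'.1, hτ'.2]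
  have a5 : |(1 - τ) - (1 - τ')| ≤ ε := by
    rw [show (1 - τ) - (1 - τ') = -(τ - τ') by ring, abs_neg]; exact h2
  have b1 := mul_diff hα (abs_mul_le1 a2 a2) h1 (mul_diff a1 a2 h2 h2)
  have b2 := mul_diff (abs_mul_le1 a1 a3) hs (mul_diff a1 a4 h2 a5) h3
  have b3 := mul_diff (y := π) (b := 0) (abs_mul_le1 a3 a3) hπ (mul_diff a3 a4 a5 a5) (by simp)
  rw [abs_le] at b1 b2 b3 ⊢
  constructor <;> linarith [b1.1, b1.2, b2.1, b2.2, b3.1, b3.2]

lemma ratio_diff {N N' S S' e : ℝ} (hS : 1 / 36 ≤ S) (hS' : 0 < S') (h0 : 0 ≤ N') (h1 : N' ≤ S')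
    (hN : |N - N'| ≤ e) (hD : |S - S'| ≤ 2 * e) : |N / S - N' / S'| ≤ 108 * e := by
  have hS0 : 0 < S := by linarith
  have e1 : N / S - N' / S' = ((N - N') - (N' / S') * (S - S')) / S := by field_simp; ring
  have h2 : |N' / S'| ≤ 1 := by
    rw [abs_of_nonneg (by positivity), div_le_one hS']; exact h1
  have h3 : |(N - N') - (N' / S') * (S - S')| ≤ 3 * e := by
    refine (abs_sub _ _).trans ?_
    rw [abs_mul]
    nlinarith [abs_nonneg (S - S'), abs_nonneg (N' / S')]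
  rw [e1, abs_div, abs_of_pos hS0, div_le_iff₀ hS0]
  have : 0 ≤ e := (abs_nonneg _).trans hN
  nlinarith

noncomputable def q (u v : H) : ℝ := ‖u‖ ^ 2 / (1 + ‖u‖ ^ 2 + ‖v‖ ^ 2)

noncomputable def rho (u v : H) : ℝ := √(1 + ‖u‖ ^ 2 + ‖v‖ ^ 2)

noncomputable def sig (p r : H) : ℝ := ‖p‖ + ‖r‖ + 1

lemma rho_sq (u v : H) : rho u v ^ 2 = 1 + ‖u‖ ^ 2 + ‖v‖ ^ 2 := Real.sq_sqrt (by positivity)

lemma one_le_rho (u v : H) : 1 ≤ rho u v := by
  unfold rho; rw [Real.one_le_sqrt]; nlinarith [sq_nonneg ‖u‖, sq_nonneg ‖v‖]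

lemma le_rho1 (u v : H) : ‖u‖ ≤ rho u v := by
  apply Real.le_sqrt_of_sq_le; nlinarith [sq_nonneg ‖v‖]

lemma le_rho2 (u v : H) : ‖v‖ ≤ rho u v := by
  apply Real.le_sqrt_of_sq_le; nlinarith [sq_nonneg ‖u‖]

lemma sig_pos (p r : H) : 0 < sig p r := by unfold sig; positivity

lemma nrm_le {u : H} {c : ℝ} (hc : 0 < c) (h : ‖u‖ ≤ c) : ‖c⁻¹ • u‖ ≤ 1 := by
  rw [norm_smul, norm_inv, Real.norm_eq_abs, abs_of_pos hc, inv_mul_le_iff₀ hc]; linarith

lemma expand (u p : H) {ρ σ : ℝ} (hρ : 0 < ρ) (hσ : 0 < σ) :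
    ‖u + p‖ ^ 2 / (ρ + σ) ^ 2 = (‖u‖ ^ 2 / ρ ^ 2) * ((ρ / (ρ + σ)) * (ρ / (ρ + σ))) +
      2 * (((ρ / (ρ + σ)) * (1 - ρ / (ρ + σ))) * inner ℝ (ρ⁻¹ • u) (σ⁻¹ • p)) +
      ((1 - ρ / (ρ + σ)) * (1 - ρ / (ρ + σ))) * (‖p‖ ^ 2 / σ ^ 2) := by
  rw [norm_add_sq_real, real_inner_smul_left, real_inner_smul_right]
  have : 1 - ρ / (ρ + σ) = σ / (ρ + σ) := by field_simp; ring
  rw [this]; field_simp

lemma q_close (u v u' v' p r : H) {ε : ℝ} (h : rho u v ≤ rho (u + p) (v + r))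
    (h1 : |‖u‖ ^ 2 / rho u v ^ 2 - ‖u'‖ ^ 2 / rho u' v' ^ 2| ≤ ε)
    (h2 : |rho u v / (rho u v + sig p r) - rho u' v' / (rho u' v' + sig p r)| ≤ ε)
    (h3 : |inner ℝ ((rho u v)⁻¹ • u) ((sig p r)⁻¹ • p) -
      inner ℝ ((rho u' v')⁻¹ • u') ((sig p r)⁻¹ • p)| ≤ 2 * ε)
    (h4 : |inner ℝ ((rho u v)⁻¹ • v) ((sig p r)⁻¹ • r) -
      inner ℝ ((rho u' v')⁻¹ • v') ((sig p r)⁻¹ • r)| ≤ 2 * ε) :
    |q (u + p) (v + r) - q (u' + p) (v' + r)| ≤ 1404 * ε := by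
  have hσ := sig_pos p r
  have hρ : 0 < rho u v := by linarith [one_le_rho u v]
  have hρ' : 0 < rho u' v' := by linarith [one_le_rho u' v']
  have hp : ‖p‖ ≤ sig p r := by unfold sig; linarith [norm_nonneg r]
  have hr : ‖r‖ ≤ sig p r := by unfold sig; linarith [norm_nonneg p]
  have hτ : ∀ ρ : ℝ, 0 < ρ → 0 ≤ ρ / (ρ + sig p r) ∧ ρ / (ρ + sig p r) ≤ 1 := fun ρ h0 =>
    ⟨by positivity, by rw [div_le_one (by positivity)]; linarith⟩
  have sq1 : ∀ {a c : ℝ}, 0 ≤ a → 0 < c → a ≤ c → |a ^ 2 / c ^ 2| ≤ 1 := by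
    intro a c ha hc hac
    rw [abs_of_nonneg (by positivity), div_le_one (by positivity)]
    exact pow_le_pow_left₀ ha hac 2
  have in1 : ∀ {x y : H}, ‖x‖ ≤ 1 → ‖y‖ ≤ 1 → |inner ℝ x y| ≤ 1 := fun hx hy =>
    (abs_real_inner_le_norm _ _).trans (mul_le_one₀ hx (norm_nonneg _) hy)
  have A := quad_diff (sq1 (norm_nonneg u) hρ (le_rho1 u v)) (hτ _ hρ) (hτ _ hρ')
    (in1 (nrm_le hρ' (le_rho1 u' v')) (nrm_le hσ hp)) (sq1 (norm_nonneg p) hσ hp) h1 h2 h3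
  rw [← expand u p hρ hσ, ← expand u' p hρ' hσ] at A
  have e1 : ∀ a b : H, 1 - ‖a‖ ^ 2 / rho a b ^ 2 = (1 + ‖b‖ ^ 2) / rho a b ^ 2 := by
    intro a b
    have : 0 < rho a b := by linarith [one_le_rho a b]
    field_simp; rw [rho_sq]; ring
  have B := quad_diff (α := (1 + ‖v‖ ^ 2) / rho u v ^ 2) (α' := (1 + ‖v'‖ ^ 2) / rho u' v' ^ 2)
    (by
      rw [abs_of_nonneg (by positivity), div_le_one (by positivity), rho_sq]
      nlinarith [sq_nonneg ‖u‖]) (hτ _ hρ) (hτ _ hρ')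
    (in1 (nrm_le hρ' (le_rho2 u' v')) (nrm_le hσ hr)) (sq1 (norm_nonneg r) hσ hr)
    (by
      rw [← e1, ← e1, abs_sub_comm]
      convert h1 using 2; ring) h2 h4
  have e2 : ∀ (a : H) (ρ : ℝ), 0 < ρ → (1 + ‖a‖ ^ 2) / ρ ^ 2 * ((ρ / (ρ + sig p r)) * (ρ / (ρ + sig p r))) +
      2 * (((ρ / (ρ + sig p r)) * (1 - ρ / (ρ + sig p r))) * inner ℝ (ρ⁻¹ • a) ((sig p r)⁻¹ • r)) +
      ((1 - ρ / (ρ + sig p r)) * (1 - ρ / (ρ + sig p r))) * (‖r‖ ^ 2 / sig p r ^ 2) =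
      (1 + ‖a + r‖ ^ 2) / (ρ + sig p r) ^ 2 := by
    intro a ρ h0
    rw [add_div (1 : ℝ) (‖a + r‖ ^ 2), expand a r h0 hσ]
    have : 0 < ρ + sig p r := by positivity
    field_simp; ring
  rw [e2 v _ hρ, e2 v' _ hρ'] at B
  have e3 : ∀ (a b : H) (c : ℝ), 0 < c → q a b = (‖a‖ ^ 2 / c ^ 2) /
      (‖a‖ ^ 2 / c ^ 2 + (1 + ‖b‖ ^ 2) / c ^ 2) := by
    intro a b c hc
    unfold q
    field_simp; ring
  have hc : 0 < rho u v + sig p r := by positivity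
  have hc' : 0 < rho u' v' + sig p r := by positivity
  rw [e3 _ _ _ hc, e3 (u' + p) _ _ hc']
  have := ratio_diff (N := ‖u + p‖ ^ 2 / (rho u v + sig p r) ^ 2)
    (N' := ‖u' + p‖ ^ 2 / (rho u' v' + sig p r) ^ 2)
    (S := ‖u + p‖ ^ 2 / (rho u v + sig p r) ^ 2 + (1 + ‖v + r‖ ^ 2) / (rho u v + sig p r) ^ 2)
    (S' := ‖u' + p‖ ^ 2 / (rho u' v' + sig p r) ^ 2 + (1 + ‖v' + r‖ ^ 2) / (rho u' v' + sig p r) ^ 2)
    (e := 13 * ε) ?_ (by positivity) (by positivity) (le_add_of_nonneg_right (by positivity)) A ?_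
  · linarith
  · rw [← add_div, le_div_iff₀ (by positivity)]
    have k1 : ‖p‖ ≤ ‖u + p‖ + ‖u‖ := by
      have := norm_sub_le (u + p) u; simpa using this
    have k2 : ‖r‖ ≤ ‖v + r‖ + ‖v‖ := by
      have := norm_sub_le (v + r) v; simpa using this
    have k3 := le_rho1 (u + p) (v + r)
    have k4 := le_rho2 (u + p) (v + r)
    have k5 := one_le_rho (u + p) (v + r)
    have k6 := le_rho1 u v
    have k7 := le_rho2 u v
    have k8 : rho u v + sig p r ≤ 6 * rho (u + p) (v + r) := by unfold sig; linarith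
    have k9 := pow_le_pow_left₀ hc.le k8 2
    rw [mul_pow, rho_sq] at k9
    linarith
  · rw [abs_le] at A B ⊢
    constructor <;> linarith [A.1, A.2, B.1, B.2]

lemma floor_close {x y : ℝ} {K : ℕ} (hK : 0 < K) (hx : 0 ≤ x) (hy : 0 ≤ y)
    (h : ⌊x * K⌋₊ = ⌊y * K⌋₊) : |x - y| ≤ 1 / K := by
  have hK' : (0 : ℝ) < K := by exact_mod_cast hK
  have a1 := Nat.floor_le (mul_nonneg hx hK'.le)
  have a2 := Nat.lt_floor_add_one (x * K)
  have a3 := Nat.floor_le (mul_nonneg hy hK'.le)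
  have a4 := Nat.lt_floor_add_one (y * K)
  rw [h] at a1 a2
  rw [le_div_iff₀ hK', ← abs_of_pos hK', ← abs_mul, abs_le]
  constructor <;> nlinarith

lemma floor_le_K {x : ℝ} (K : ℕ) (hx : x ≤ 1) : ⌊x * K⌋₊ ≤ K := by
  apply Nat.floor_le_of_le
  exact mul_le_of_le_one_left (by positivity) hx

lemma cover {η : ℝ} (hη : 0 < η) : ∃ M : ℕ, ∀ (I : Finset ℕ) (a b : ℕ → H) {α : Type}
    (F : Finset α) (θ φ : α → H), I.Nonempty →
    (∀ x ∈ F, ∀ y ∈ F, x ≠ y → ∃ i ∈ I, η ≤ |q (a i - θ x) (b i - φ x) - q (a i - θ y) (b i - φ y)|) →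
    F.card ≤ (I.card + 1) ^ M := by
  classical
  obtain ⟨K, hK⟩ := exists_nat_gt (1404 / η)
  have hK0 : (0 : ℝ) < K := lt_trans (by positivity) hK
  have hK1 : 0 < K := by exact_mod_cast hK0
  obtain ⟨N, hN⟩ := percep' (H := H) (ε := 1 / K) (by positivity)
  refine ⟨1 + 4 * N + 4 * N + K + (K + 1), fun I a b α F θ φ hI hF => ?_⟩
  let s : ℕ × ℕ → ℝ := fun p => sig (a p.1 - a p.2) (b p.1 - b p.2)
  let D : Finset H := (I ×ˢ I).image (fun p => (s p)⁻¹ • (a p.1 - a p.2)) ∪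
    (I ×ˢ I).image (fun p => (s p)⁻¹ • (b p.1 - b p.2))
  obtain ⟨C, hC, hC2⟩ := hN D (by
    intro x hx
    rcases Finset.mem_union.1 hx with h | h <;> obtain ⟨p, _, rfl⟩ := Finset.mem_image.1 h
    · exact nrm_le (sig_pos _ _) (by unfold s sig; linarith [norm_nonneg (b p.1 - b p.2)])
    · exact nrm_le (sig_pos _ _) (by unfold s sig; linarith [norm_nonneg (a p.1 - a p.2)]))
  have hj : ∀ x : α, ∃ j ∈ I, ∀ i ∈ I, rho (a j - θ x) (b j - φ x) ≤ rho (a i - θ x) (b i - φ x) :=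
    fun x => I.exists_min_image _ hI
  choose j hjI hj using hj
  let ρ : α → ℝ := fun x => rho (a (j x) - θ x) (b (j x) - φ x)
  have hρ : ∀ x, 0 < ρ x := fun x => lt_of_lt_of_le one_pos (one_le_rho _ _)
  choose c1 hc1 hc1' using fun x => hC2 ((ρ x)⁻¹ • (a (j x) - θ x)) (nrm_le (hρ x) (le_rho1 _ _))
  choose c2 hc2 hc2' using fun x => hC2 ((ρ x)⁻¹ • (b (j x) - φ x)) (nrm_le (hρ x) (le_rho2 _ _))
  let τ : α → ℕ → ℝ := fun x i => ρ x / (ρ x + s (i, j x))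
  have hτ : ∀ x i, 0 ≤ τ x i ∧ τ x i ≤ 1 := fun x i => by
    have h1 := hρ x
    have h2 : 0 < s (i, j x) := sig_pos _ _
    exact ⟨by positivity, by rw [div_le_one (by positivity)]; linarith⟩
  let code : α → ℕ × H × H × ℕ × ℕ := fun x =>
    (j x, c1 x, c2 x, ⌊‖a (j x) - θ x‖ ^ 2 / ρ x ^ 2 * K⌋₊, ∑ i ∈ I, ⌊τ x i * K⌋₊)
  have hmaps : ∀ x ∈ F, code x ∈ I ×ˢ C ×ˢ C ×ˢ Finset.range (K + 1) ×ˢ
      Finset.range (I.card * K + 1) := by
    intro x _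
    simp only [code, Finset.mem_product, Finset.mem_range, Nat.lt_succ_iff]
    refine ⟨hjI x, hc1 x, hc2 x, floor_le_K K ?_, ?_⟩
    · rw [div_le_one (pow_pos (hρ x) 2)]
      exact pow_le_pow_left₀ (norm_nonneg _) (le_rho1 _ _) 2
    · have := Finset.sum_le_card_nsmul I (fun i => ⌊τ x i * K⌋₊) K fun i _ => floor_le_K K (hτ x i).2
      simpa using this
  have hinj : Set.InjOn code F := by
    intro x hx y hy hxy
    by_contra hne
    obtain ⟨i, hi, hη2⟩ := hF x hx y hy hne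
    simp only [code, Prod.mk.injEq] at hxy
    obtain ⟨e1, e2, e3, e4, e5⟩ := hxy
    have hfl : ⌊τ x i * K⌋₊ = ⌊τ y i * K⌋₊ := by
      have mono : ∀ x y : α, j x = j y → ρ x ≤ ρ y → ∀ i ∈ I, ⌊τ x i * K⌋₊ ≤ ⌊τ y i * K⌋₊ := by
        intro x y e h i _
        apply Nat.floor_le_floor
        refine mul_le_mul_of_nonneg_right ?_ hK0.le
        have h1 := hρ x
        have h2 := hρ y
        have h3 : 0 < s (i, j y) := sig_pos _ _
        simp only [τ]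
        rw [e, div_le_div_iff₀ (by positivity) (by positivity)]
        nlinarith
      rcases le_total (ρ x) (ρ y) with h | h
      · exact (Finset.sum_eq_sum_iff_of_le (mono x y e1 h)).1 e5 i hi
      · exact ((Finset.sum_eq_sum_iff_of_le (mono y x e1.symm h)).1 e5.symm i hi).symm
    have hmem : (i, j x) ∈ I ×ˢ I := Finset.mem_product.2 ⟨hi, hjI x⟩
    have d1 : (s (i, j x))⁻¹ • (a i - a (j x)) ∈ D :=
      Finset.mem_union_left _ (Finset.mem_image.2 ⟨(i, j x), hmem, rfl⟩)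
    have d2 : (s (i, j x))⁻¹ • (b i - b (j x)) ∈ D :=
      Finset.mem_union_right _ (Finset.mem_image.2 ⟨(i, j x), hmem, rfl⟩)
    have tri : ∀ (w w' c z : H), |inner ℝ (w - c) z| ≤ 1 / (K : ℝ) → |inner ℝ (w' - c) z| ≤ 1 / (K : ℝ) →
        |inner ℝ w z - inner ℝ w' z| ≤ 2 * (1 / (K : ℝ)) := by
      intro w w' c z h1 h2
      rw [inner_sub_left, abs_le] at h1 h2
      rw [abs_le]; constructor <;> linarith [h1.1, h1.2, h2.1, h2.2]
    have key := q_close (a (j x) - θ x) (b (j x) - φ x) (a (j y) - θ y) (b (j y) - φ y)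
      (a i - a (j x)) (b i - b (j x)) (ε := 1 / K)
      (by simpa using hj x i hi)
      (floor_close hK1 (by positivity) (by positivity) e4)
      (by
        have := floor_close hK1 (hτ x i).1 (hτ y i).1 hfl
        simp only [τ] at this
        rw [← e1] at this
        exact this)
      (tri _ _ (c1 x) _ (hc1' x _ d1) (by rw [e2]; exact hc1' y _ d1))
      (tri _ _ (c2 x) _ (hc2' x _ d2) (by rw [e3]; exact hc2' y _ d2))
    rw [← e1] at key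
    simp only [sub_add_sub_cancel'] at key
    rw [div_lt_iff₀ hη] at hK
    have : 1404 * (1 / (K : ℝ)) < η := by
      rw [mul_one_div, div_lt_iff₀ hK0]; linarith
    linarith
  have hcard := Finset.card_le_card_of_injOn code hmaps hinj
  simp only [Finset.card_product, Finset.card_range] at hcard
  have hr : 1 ≤ I.card := hI.card_pos
  have hD : D.card ≤ 2 * (I.card * I.card) := by
    have h1 := Finset.card_union_le ((I ×ˢ I).image (fun p => (s p)⁻¹ • (a p.1 - a p.2)))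
      ((I ×ˢ I).image (fun p => (s p)⁻¹ • (b p.1 - b p.2)))
    have h2 := Finset.card_image_le (s := I ×ˢ I) (f := fun p => (s p)⁻¹ • (a p.1 - a p.2))
    have h3 := Finset.card_image_le (s := I ×ˢ I) (f := fun p => (s p)⁻¹ • (b p.1 - b p.2))
    rw [Finset.card_product] at h2 h3
    simp only [D]; omega
  generalize I.card = r at *
  have g1 : 2 * D.card + 1 ≤ (r + 1) ^ 4 := by
    have : (r + 1) ^ 4 = r ^ 4 + 4 * r ^ 3 + 6 * (r * r) + 4 * r + 1 := by ring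
    omega
  have g2 : C.card ≤ (r + 1) ^ (4 * N) := by
    rw [pow_mul]; exact hC.trans (Nat.pow_le_pow_left g1 N)
  have g3 : K + 1 ≤ (r + 1) ^ K :=
    (Nat.lt_two_pow_self (n := K)).trans_le (Nat.pow_le_pow_left (by omega) K)
  have g4 : r * K + 1 ≤ (r + 1) ^ (K + 1) := by
    rw [pow_succ]; nlinarith
  calc F.card ≤ _ := hcard
    _ ≤ (r + 1) ^ 1 * ((r + 1) ^ (4 * N) * ((r + 1) ^ (4 * N) * ((r + 1) ^ K * (r + 1) ^ (K + 1)))) := by
      gcongr; simp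
    _ = _ := by ring

end Pool.Agent.H33.Nt
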