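import Pool.Agent.H33.Nt

set_option autoImplicit false
open Filter Topology

namespace Pool.Agent.H33.Nt

def c (k : ℕ) : ℕ := (k + 1) * (k + 1).factorial

def P : ℕ → ℕ
  | 0 => 1
  | k + 1 => P k * (c (k + 1) * 2 ^ (k + 1))

lemma c_pos (k : ℕ) : 1 ≤ c k := Nat.mul_pos (by omega) (Nat.factorial_pos _)

lemma P_pos (k : ℕ) : 1 ≤ P k := by
  induction k with
  | zero => simp [P]
  | succ k ih => exact Nat.mul_pos ih (Nat.mul_pos (c_pos _) (by positivity))

lemma P_dvd (k l : ℕ) : P k ∣ P (k + l) := by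
  induction l with
  | zero => simp
  | succ l ih => exact ih.trans (Dvd.intro _ rfl)

lemma P_ge (k : ℕ) : k + 1 ≤ P k := by
  induction k with
  | zero => simp [P]
  | succ k ih =>
    have h1 : 2 ≤ c (k + 1) * 2 ^ (k + 1) := by
      have := c_pos (k + 1)
      have h2 : 2 ≤ 2 ^ (k + 1) := by rw [pow_succ]; have := Nat.one_le_two_pow (n := k); omega
      nlinarith
    show _ ≤ P k * _
    nlinarith

lemma sum_c (k : ℕ) : ∑ l ∈ Finset.range k, c l + 1 = (k + 1).factorial := by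
  induction k with
  | zero => simp
  | succ k ih =>
    rw [Finset.sum_range_succ, Nat.factorial_succ (k + 1)]
    unfold c at *
    nlinarith

noncomputable def term (w : ℕ → ℝ) (x : ℝ) (l : ℕ) : ℝ :=
  w l * (2 - 2 * Real.cos (2 * Real.pi * (x / (4 * P l))))

def W (w : ℕ → ℝ) : Prop := ∀ l, 0 ≤ w l ∧ w l ≤ c l

variable {w : ℕ → ℝ}

lemma term_nonneg (hw : W w) (x : ℝ) (l : ℕ) : 0 ≤ term w x l :=
  mul_nonneg (hw l).1 (by linarith [Real.cos_le_one (2 * Real.pi * (x / (4 * P l)))])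

lemma term_le (hw : W w) (x : ℝ) (l : ℕ) : term w x l ≤ 4 * c l := by
  have h1 := Real.neg_one_le_cos (2 * Real.pi * (x / (4 * P l)))
  have h2 := Real.cos_le_one (2 * Real.pi * (x / (4 * P l)))
  unfold term
  nlinarith [(hw l).1, (hw l).2]

lemma term_tail (hw : W w) (x : ℝ) (k l : ℕ) :
    term w x (l + (k + 1)) ≤ 40 * (x / (4 * P k)) ^ 2 * (1 / 2) ^ k * ((1 / 2) * (1 / 2) ^ l) := by
  have h1 := Real.one_sub_sq_div_two_le_cos (x := 2 * Real.pi * (x / (4 * P (l + (k + 1)))))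
  have h2 : (P k : ℝ) * (c (l + (k + 1)) * 2 ^ (l + (k + 1))) ≤ P (l + (k + 1)) := by
    have h3 : P k ≤ P (l + k) := by
      rw [add_comm]; exact Nat.le_of_dvd (P_pos _) (P_dvd k l)
    have : P k * (c (l + (k + 1)) * 2 ^ (l + (k + 1))) ≤ P (l + (k + 1)) :=
      Nat.mul_le_mul_right _ h3
    exact_mod_cast this
  have hc : (1 : ℝ) ≤ c (l + (k + 1)) := by exact_mod_cast c_pos _
  have hP : (1 : ℝ) ≤ P k := by exact_mod_cast P_pos _
  have h2' : (1 : ℝ) ≤ 2 ^ (l + (k + 1)) := one_le_pow₀ (by norm_num)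
  have hpi : Real.pi ^ 2 ≤ 10 := by nlinarith [Real.pi_lt_d2, Real.pi_pos]
  have h4 := hw (l + (k + 1))
  have e : (1 / 2 : ℝ) ^ k * ((1 / 2) * (1 / 2) ^ l) = 1 / 2 ^ (l + (k + 1)) := by
    rw [← one_div_pow]; ring
  rw [mul_assoc, e]
  unfold term
  generalize (P (l + (k + 1)) : ℝ) = Q at *
  generalize (c (l + (k + 1)) : ℝ) = C at *
  generalize (2 : ℝ) ^ (l + (k + 1)) = E at *
  generalize (P k : ℝ) = R at *
  have hQ : 0 < Q := lt_of_lt_of_le (by positivity) h2
  have h5 : (x / (4 * Q)) ^ 2 ≤ (x / (4 * R)) ^ 2 / (C * E) := by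
    rw [div_pow, div_pow, div_div]
    apply div_le_div_of_nonneg_left (sq_nonneg x) (by positivity)
    have h6 : (R * (C * E)) ^ 2 ≤ Q ^ 2 := pow_le_pow_left₀ (by positivity) h2 2
    have h7 : 1 ≤ C * E := one_le_mul_of_one_le_of_one_le hc h2'
    have h8 : R ^ 2 * (C * E) ≤ R ^ 2 * (C * E) ^ 2 :=
      mul_le_mul_of_nonneg_left (by nlinarith) (by positivity)
    nlinarith
  have h9 : 2 - 2 * Real.cos (2 * Real.pi * (x / (4 * Q))) ≤ 40 * ((x / (4 * R)) ^ 2 / (C * E)) := by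
    have : (2 * Real.pi * (x / (4 * Q))) ^ 2 = 4 * Real.pi ^ 2 * (x / (4 * Q)) ^ 2 := by ring
    have h10 : Real.pi ^ 2 * (x / (4 * Q)) ^ 2 ≤ 10 * ((x / (4 * R)) ^ 2 / (C * E)) :=
      mul_le_mul hpi h5 (sq_nonneg _) (by norm_num)
    linarith
  calc _ ≤ C * (40 * ((x / (4 * R)) ^ 2 / (C * E))) :=
        mul_le_mul h4.2 h9 (by linarith [Real.cos_le_one (2 * Real.pi * (x / (4 * Q)))]) (by linarith)
    _ = _ := by field_simp

lemma geo : HasSum (fun l : ℕ => (1 / 2 : ℝ) * (1 / 2) ^ l) 1 := by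
  have := hasSum_geometric_two.mul_left (1 / 2)
  simpa using this

lemma summ_tail (hw : W w) (x : ℝ) (k : ℕ) : Summable fun l => term w x (l + (k + 1)) :=
  Summable.of_nonneg_of_le (fun _ => term_nonneg hw x _) (term_tail hw x k) (geo.summable.mul_left _)

lemma summ (hw : W w) (x : ℝ) : Summable (term w x) :=
  (summable_nat_add_iff 1).1 (summ_tail hw x 0)

noncomputable def E (w : ℕ → ℝ) (x : ℝ) : ℝ := ∑' l, term w x l

lemma E_le (hw : W w) (x : ℝ) (k : ℕ) :
    E w x ≤ ∑ l ∈ Finset.range (k + 1), term w x l + 40 * (x / (4 * P k)) ^ 2 * (1 / 2) ^ k := by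
  unfold E
  rw [← (summ hw x).sum_add_tsum_nat_add (k + 1)]
  have := (summ_tail hw x k).tsum_le_tsum (term_tail hw x k) (geo.summable.mul_left _)
  rw [tsum_mul_left, geo.tsum_eq, mul_one] at this
  linarith

lemma E_rig (hw : W w) (k : ℕ) : E w (4 * P k) ≤ 40 * (1 / 2) ^ k := by
  have h := E_le hw (4 * P k) k
  have hP : (0 : ℝ) < P k := by exact_mod_cast P_pos _
  rw [div_self (by positivity), Finset.sum_eq_zero] at h
  · simpa using h
  · intro l hl
    obtain ⟨j, rfl⟩ := Nat.exists_eq_add_of_le (Nat.lt_succ_iff.1 (Finset.mem_range.1 hl))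
    obtain ⟨m, hm⟩ := P_dvd l j
    have hP2 : (0 : ℝ) < P l := by exact_mod_cast P_pos _
    have : 2 * Real.pi * (4 * (P (l + j) : ℝ) / (4 * P l)) = m * (2 * Real.pi) := by
      rw [hm]; push_cast; field_simp
    unfold term
    rw [this, Real.cos_nat_mul_two_pi]; ring

lemma E_small (hw : W w) {k : ℕ} (h0 : w k = 0) {x : ℝ} (hx : 0 ≤ x) (hx2 : x ≤ 4 * P k) :
    E w x ≤ 44 * (k + 1).factorial := by
  have h := E_le hw x k
  have hP : (0 : ℝ) < P k := by exact_mod_cast P_pos _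
  have h1 : term w x k = 0 := by unfold term; rw [h0, zero_mul]
  rw [Finset.sum_range_succ, h1] at h
  have h2 : ∑ l ∈ Finset.range k, term w x l ≤ 4 * (k + 1).factorial := by
    refine (Finset.sum_le_sum fun l _ => term_le hw x l).trans ?_
    rw [← Finset.mul_sum, ← sum_c]; push_cast; linarith
  have h3 : (x / (4 * P k)) ^ 2 ≤ 1 :=
    pow_le_one₀ (by positivity) ((div_le_one (by positivity)).2 hx2)
  have h4 : (1 / 2 : ℝ) ^ k ≤ 1 := pow_le_one₀ (by norm_num) (by norm_num)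
  have h5 : (x / (4 * P k)) ^ 2 * (1 / 2 : ℝ) ^ k ≤ 1 := mul_le_one₀ h3 (by positivity) h4
  have h6 : (1 : ℝ) ≤ (k + 1).factorial := by exact_mod_cast Nat.factorial_pos _
  nlinarith

lemma E_big (hw : W w) {k : ℕ} (h0 : w k = c k) {x : ℝ} (hx : P k ≤ x) (hx2 : x ≤ 3 * P k) :
    2 * ((k + 1) * (k + 1).factorial) ≤ E w x := by
  have hP : (0 : ℝ) < P k := by exact_mod_cast P_pos _
  have h1 : term w x k ≤ E w x := (summ hw x).le_tsum k fun j _ => term_nonneg hw x j
  have h2 : 1 / 4 ≤ x / (4 * P k) := by rw [le_div_iff₀ (by positivity)]; linarith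
  have h3 : x / (4 * P k) ≤ 3 / 4 := by rw [div_le_iff₀ (by positivity)]; linarith
  have h4 : Real.cos (2 * Real.pi * (x / (4 * P k))) ≤ 0 :=
    Real.cos_nonpos_of_pi_div_two_le_of_le (by nlinarith [Real.pi_pos]) (by nlinarith [Real.pi_pos])
  unfold term at h1
  rw [h0] at h1
  have h5 : (c k : ℝ) = (k + 1) * (k + 1).factorial := by unfold c; push_cast; ring
  rw [← h5]
  have : (0 : ℝ) ≤ c k := by positivity
  nlinarith

abbrev Hs : Type := lp (fun _ : ℕ => ℂ) 2

lemma norm_exp (x y : ℝ) : ‖Complex.exp (x * Complex.I) - Complex.exp (y * Complex.I)‖ ^ 2 =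
    2 - 2 * Real.cos (x - y) := by
  rw [Complex.sq_norm, Complex.normSq_apply, Complex.sub_re, Complex.sub_im,
    Complex.exp_ofReal_mul_I_re, Complex.exp_ofReal_mul_I_re, Complex.exp_ofReal_mul_I_im,
    Complex.exp_ofReal_mul_I_im, Real.cos_sub]
  nlinarith [Real.sin_sq_add_cos_sq x, Real.sin_sq_add_cos_sq y]

noncomputable def co (w : ℕ → ℝ) (x : ℝ) (l : ℕ) : ℂ :=
  (√(w l) : ℝ) * Complex.exp ((2 * Real.pi * (x / (4 * P l)) : ℝ) * Complex.I)

lemma norm_co (hw : W w) (x y : ℝ) (l : ℕ) : ‖co w x l - co w y l‖ ^ 2 = term w (x - y) l := by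
  unfold co term
  rw [← mul_sub, norm_mul, mul_pow, norm_exp, Complex.norm_real, Real.norm_eq_abs, sq_abs,
    Real.sq_sqrt (hw l).1]
  congr 4; ring

noncomputable def emb (hw : W w) (x : ℝ) : Hs := ⟨fun l => co w x l - co w 0 l, by
  apply memℓp_gen
  have : (2 : ENNReal).toReal = ((2 : ℕ) : ℝ) := by simp
  simp only [this, Real.rpow_natCast, norm_co hw]
  exact summ hw _⟩

lemma norm_emb (hw : W w) (x y : ℝ) : ‖emb hw x - emb hw y‖ ^ 2 = E w (x - y) := by
  have h := lp.norm_rpow_eq_tsum (p := 2) (by simp) (emb hw x - emb hw y)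
  have : (2 : ENNReal).toReal = ((2 : ℕ) : ℝ) := by simp
  simp only [this, Real.rpow_natCast] at h
  rw [h]; unfold E
  congr 1; funext l
  rw [← norm_co hw]
  congr 2
  show co w x l - co w 0 l - (co w y l - co w 0 l) = _
  ring

noncomputable def wA (l : ℕ) : ℝ := if Even l then c l else 0
noncomputable def wB (l : ℕ) : ℝ := if Even l then 0 else c l

lemma WA : W wA := fun l => by unfold wA; split_ifs <;> simp
lemma WB : W wB := fun l => by unfold wB; split_ifs <;> simp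

noncomputable def f (x : ℝ) : ℝ := E wA x / (1 + E wA x + E wB x)

lemma f_eq (x y : ℝ) : f (x - y) = q (emb WA x - emb WA y) (emb WB x - emb WB y) := by
  unfold f q; rw [norm_emb, norm_emb]

lemma E_nonneg (hw : W w) (x : ℝ) : 0 ≤ E w x := tsum_nonneg (term_nonneg hw x)

lemma f_mem (x : ℝ) : f x ∈ Set.Icc (0 : ℝ) 1 := by
  have h1 := E_nonneg WA x
  have h2 := E_nonneg WB x
  unfold f
  exact ⟨by positivity, by rw [div_le_one (by positivity)]; linarith⟩

lemma emb_rig (hw : W w) (x : ℝ) : Tendsto (fun k => emb hw (x + 4 * P k)) atTop (𝓝 (emb hw x)) := by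
  rw [tendsto_iff_norm_sub_tendsto_zero]
  have h1 : Tendsto (fun k : ℕ => √(40 * (1 / 2 : ℝ) ^ k)) atTop (𝓝 (√(40 * 0))) :=
    ((tendsto_pow_atTop_nhds_zero_of_lt_one (by norm_num) (by norm_num)).const_mul 40).sqrt
  rw [mul_zero, Real.sqrt_zero] at h1
  refine squeeze_zero (fun _ => norm_nonneg _) (fun k => ?_) h1
  apply Real.le_sqrt_of_sq_le
  rw [norm_emb, add_sub_cancel_left]
  exact E_rig hw k

lemma f_rig (x : ℝ) : Tendsto (fun k => f (x + 4 * P k)) atTop (𝓝 (f x)) := by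
  have e : ∀ y, f y = q (emb WA y - emb WA 0) (emb WB y - emb WB 0) := fun y => by
    rw [← f_eq, sub_zero]
  simp only [e]
  unfold q
  have h1 := (((emb_rig WA x).sub_const (emb WA 0)).norm).pow 2
  have h2 := (((emb_rig WB x).sub_const (emb WB 0)).norm).pow 2
  exact h1.div ((h1.const_add 1).add h2) (by positivity)

lemma f_small {k : ℕ} (hk : ¬ Even k) {x : ℝ} (hx : P k ≤ x) (hx2 : x ≤ 3 * P k) :
    f x ≤ 22 / (k + 1) := by
  have hP : (0 : ℝ) < P k := by exact_mod_cast P_pos _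
  have h1 := E_small WA (k := k) (by simp [wA, hk]) (x := x) (by linarith) (by linarith)
  have h2 := E_big WB (k := k) (by simp [wB, hk]) hx hx2
  have h3 := E_nonneg WA x
  have h4 := E_nonneg WB x
  unfold f
  rw [div_le_div_iff₀ (by positivity) (by positivity)]
  have h5 : (0 : ℝ) ≤ k + 1 := by positivity
  nlinarith [mul_le_mul_of_nonneg_right h1 h5]

lemma f_big {k : ℕ} (hk : Even k) (hk2 : 22 ≤ k) {x : ℝ} (hx : P k ≤ x) (hx2 : x ≤ 3 * P k) :
    1 / 2 ≤ f x := by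
  have hP : (0 : ℝ) < P k := by exact_mod_cast P_pos _
  have h1 := E_small WB (k := k) (by simp [wB, hk]) (x := x) (by linarith) (by linarith)
  have h2 := E_big WA (k := k) (by simp [wA, hk]) hx hx2
  have h3 := E_nonneg WA x
  have h4 := E_nonneg WB x
  have h6 : (1 : ℝ) ≤ (k + 1).factorial := by exact_mod_cast Nat.factorial_pos _
  have h7 : (22 : ℝ) ≤ k := by exact_mod_cast hk2
  unfold f
  rw [div_le_div_iff₀ (by positivity) (by positivity)]
  nlinarith

end Pool.Agent.H33.Nt
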