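import Pool.Agent.H33.Nt2

set_option autoImplicit false
open Filter Topology
open scoped PiCountable

namespace Pool.Agent.H33.Nt

noncomputable def o (m : ℕ) : ℕ → ℝ := fun i => f (m + i)

abbrev X : Type := closure (Set.range o)

lemma compact_X : CompactSpace X := by
  have h1 : IsCompact (Set.pi Set.univ fun _ : ℕ => Set.Icc (0 : ℝ) 1) :=
    isCompact_univ_pi fun _ => isCompact_Icc
  have h2 : closure (Set.range o) ⊆ Set.pi Set.univ fun _ : ℕ => Set.Icc (0 : ℝ) 1 := by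
    refine closure_minimal ?_ h1.isClosed
    rintro _ ⟨m, rfl⟩ i _
    exact f_mem _
  exact isCompact_iff_compactSpace.1 (h1.of_isClosed_subset isClosed_closure h2)

def sh (x : ℕ → ℝ) : ℕ → ℝ := fun i => x (i + 1)

lemma cont_sh : Continuous sh := continuous_pi fun i => continuous_apply (i + 1)

lemma sh_o (m : ℕ) : sh (o m) = o (m + 1) := by
  funext i; unfold sh o; congr 1; push_cast; ring

def T (x : X) : X := ⟨sh x.1, by
  refine map_mem_closure cont_sh x.2 ?_
  rintro _ ⟨m, rfl⟩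
  exact ⟨m + 1, (sh_o m).symm⟩⟩

lemma cont_T : Continuous T := Continuous.subtype_mk (cont_sh.comp continuous_subtype_val) _

lemma iter_T (n : ℕ) (x : X) (i : ℕ) : (T^[n] x).1 i = x.1 (n + i) := by
  induction n generalizing i with
  | zero => simp
  | succ n ih =>
    rw [Function.iterate_succ_apply']
    show (T^[n] x).1 (i + 1) = _
    rw [ih]; congr 1; ring

noncomputable def oo (m : ℕ) : X := ⟨o m, subset_closure ⟨m, rfl⟩⟩

lemma iter_oo (n m : ℕ) : T^[n] (oo m) = oo (m + n) := by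
  apply Subtype.ext; funext i
  rw [iter_T]
  show f _ = f _
  congr 1; push_cast; ring

lemma exists_oo {U : Set X} (hU : IsOpen U) (h : U.Nonempty) : ∃ m, oo m ∈ U := by
  obtain ⟨V, hV, rfl⟩ := isOpen_induced_iff.1 hU
  obtain ⟨x, hx⟩ := h
  obtain ⟨_, h1, m, rfl⟩ := mem_closure_iff.1 x.2 V hV hx
  exact ⟨m, h1⟩

lemma trans (U V : Set X) (hU : IsOpen U) (hV : IsOpen V) (h1 : U.Nonempty) (h2 : V.Nonempty) :
    ∃ n : ℕ, 1 ≤ n ∧ (V ∩ T^[n] ⁻¹' U).Nonempty := by
  obtain ⟨b, hb⟩ := exists_oo hU h1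
  obtain ⟨a, ha⟩ := exists_oo hV h2
  have h3 : Tendsto (fun k => oo (b + 4 * P k)) atTop (𝓝 (oo b)) := by
    rw [tendsto_subtype_rng, tendsto_pi_nhds]
    intro i
    refine (f_rig ((b : ℝ) + i)).congr fun k => ?_
    show f _ = f _
    congr 1; push_cast; ring
  obtain ⟨k, hk1, hk2⟩ := ((h3.eventually (hU.mem_nhds hb)).and (eventually_ge_atTop a)).exists
  have := P_ge k
  refine ⟨b + 4 * P k - a, by omega, oo a, ha, ?_⟩
  rw [Set.mem_preimage, iter_oo, show a + (b + 4 * P k - a) = b + 4 * P k by omega]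
  exact hk1

lemma dist_le (x y : ℕ → ℝ) (L : ℕ) {η : ℝ} (h : ∀ k < L, |x k - y k| ≤ η) :
    dist x y ≤ L * η + 2 * (1 / 2) ^ L := by
  have hs := PiCountable.dist_summable x y
  rw [PiCountable.dist_eq_tsum, ← hs.sum_add_tsum_nat_add L]
  apply add_le_add
  · have := Finset.sum_le_card_nsmul (Finset.range L)
      (fun i => min ((2 : ℝ)⁻¹ ^ Encodable.encode i) (dist (x i) (y i))) η fun i hi =>
        (min_le_right _ _).trans (h i (Finset.mem_range.1 hi))
    simpa using this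
  · have h1 : HasSum (fun i : ℕ => (1 / 2 : ℝ) ^ i * (1 / 2) ^ L) (2 * (1 / 2) ^ L) :=
      hasSum_geometric_two.mul_right _
    rw [← h1.tsum_eq]
    refine ((summable_nat_add_iff L).2 hs).tsum_le_tsum (fun i => (min_le_left _ _).trans ?_)
      h1.summable
    simp [pow_add]

lemma approx (x : X) (I : Finset ℕ) {η : ℝ} (hη : 0 < η) :
    ∃ m : ℕ, ∀ i ∈ I, |x.1 i - f (m + i)| < η := by
  have h1 : IsOpen {y : ℕ → ℝ | ∀ i ∈ I, |x.1 i - y i| < η} := by
    have : {y : ℕ → ℝ | ∀ i ∈ I, |x.1 i - y i| < η} = ⋂ i ∈ I, {y : ℕ → ℝ | |x.1 i - y i| < η} := by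
      ext y; simp
    rw [this]
    exact isOpen_biInter_finset fun i _ => isOpen_lt (by fun_prop) continuous_const
  obtain ⟨_, h2, m, rfl⟩ := mem_closure_iff.1 x.2 _ h1 (fun i _ => by simpa using hη)
  exact ⟨m, h2⟩

lemma null (a : ℕ → ℕ) (ε : ℝ) (hε : 0 < ε) (δ : ℝ) (hδ : 0 < δ) :
    ∀ᶠ n in atTop, ∀ F : Finset X,
      (∀ x ∈ F, ∀ y ∈ F, x ≠ y → ∃ i < n, ε ≤ dist (T^[a i] x) (T^[a i] y)) →
      (F.card : ℝ) ≤ Real.exp (δ * n) := by
  classical
  obtain ⟨L0, hL0⟩ := exists_pow_lt_of_lt_one (show 0 < ε / 4 by positivity)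
    (show (1 / 2 : ℝ) < 1 by norm_num)
  obtain ⟨L, hL1, hL⟩ : ∃ L : ℕ, 1 ≤ L ∧ (1 / 2 : ℝ) ^ L < ε / 4 :=
    ⟨L0 + 1, by omega, by rw [pow_succ]; nlinarith [pow_pos (show (0 : ℝ) < 1 / 2 by norm_num) L0]⟩
  have hL2 : (0 : ℝ) < L := by exact_mod_cast hL1
  obtain ⟨η, hη, hη2⟩ : ∃ η : ℝ, 0 < η ∧ L * (3 * η) = ε / 2 :=
    ⟨ε / (6 * L), by positivity, by field_simp; ring⟩
  obtain ⟨M, hM⟩ := cover (H := Hs) hη
  have h1 := (isLittleO_pow_exp_pos_mul_atTop M hδ).bound
    (show (0 : ℝ) < 1 / ((L : ℝ) + 1) ^ M by positivity)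
  filter_upwards [tendsto_natCast_atTop_atTop.eventually h1, eventually_ge_atTop 1] with n hn hn1
  intro F hF
  let I : Finset ℕ := (Finset.range n ×ˢ Finset.range L).image fun p => a p.1 + p.2
  have hI : I.card ≤ n * L := by
    refine Finset.card_image_le.trans ?_
    simp
  choose m hm using fun x : X => approx x I hη
  have h2 := hM I (fun i => emb WA i) (fun i => emb WB i) F (fun x => emb WA (-(m x : ℝ)))
    (fun x => emb WB (-(m x : ℝ)))
    ⟨a 0 + 0, Finset.mem_image.2 ⟨(0, 0), by simp; omega, rfl⟩⟩ (by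
      intro x hx y hy hne
      obtain ⟨i, hi, h3⟩ := hF x hx y hy hne
      by_contra hcon
      simp only [not_exists, not_and, not_le, ← f_eq] at hcon
      have h4 := dist_le (T^[a i] x).1 (T^[a i] y).1 L (η := 3 * η) (by
        intro k hk
        have hmem : a i + k ∈ I := Finset.mem_image.2 ⟨(i, k), by simp [hi, hk], rfl⟩
        have b1 := hm x _ hmem
        have b2 := hm y _ hmem
        have b3 := hcon _ hmem
        rw [sub_neg_eq_add, sub_neg_eq_add, add_comm _ (m x : ℝ), add_comm _ (m y : ℝ)] at b3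
        rw [iter_T, iter_T]
        rw [abs_lt] at b1 b2 b3
        rw [abs_le]; constructor <;> linarith [b1.1, b1.2, b2.1, b2.2, b3.1, b3.2])
      have h5 : dist (T^[a i] x) (T^[a i] y) = dist (T^[a i] x).1 (T^[a i] y).1 := rfl
      linarith)
  have h6 : F.card ≤ ((L + 1) * n) ^ M := h2.trans (Nat.pow_le_pow_left (by nlinarith) M)
  have h7 : (F.card : ℝ) ≤ ((L + 1) * n) ^ M := by exact_mod_cast h6
  rw [Real.norm_eq_abs, Real.norm_eq_abs, abs_of_nonneg (by positivity),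
    abs_of_pos (Real.exp_pos _), one_div, inv_mul_eq_div, le_div_iff₀ (by positivity)] at hn
  rw [mul_pow] at h7
  linarith

lemma tend0 : Tendsto (fun j => o (2 * P (2 * j + 1))) atTop (𝓝 0) := by
  rw [tendsto_pi_nhds]
  intro i
  have h1 : Tendsto (fun j : ℕ => (22 : ℝ) / (j : ℝ)) atTop (𝓝 0) :=
    tendsto_const_nhds.div_atTop tendsto_natCast_atTop_atTop
  refine squeeze_zero' (Eventually.of_forall fun j => (f_mem _).1) ?_ h1
  filter_upwards [eventually_ge_atTop (i + 1)] with j hj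
  have h2 := P_ge (2 * j + 1)
  have h3 : (i : ℝ) ≤ P (2 * j + 1) := by exact_mod_cast (by omega)
  have h4 : (0 : ℝ) ≤ i := by positivity
  have h5 : (0 : ℝ) < j := by exact_mod_cast (by omega)
  refine (f_small (k := 2 * j + 1) (by simp) (by push_cast; linarith) (by push_cast; linarith)).trans ?_
  apply div_le_div_of_nonneg_left (by norm_num) h5
  push_cast; linarith

noncomputable def z : X := ⟨0, mem_closure_of_tendsto tend0 (Eventually.of_forall fun _ => ⟨_, rfl⟩)⟩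

lemma not_mean : ¬ ∀ ε : ℝ, 0 < ε → ∃ δ : ℝ, 0 < δ ∧ ∀ x y : X, dist x y < δ →
    ∀ᶠ n in atTop, (∑ i ∈ Finset.range n, dist (T^[i] x) (T^[i] y)) / (n : ℝ) < ε := by
  intro h
  obtain ⟨δ, hδ, h1⟩ := h (1 / 4) (by norm_num)
  have h2 : Tendsto (fun j => oo (2 * P (2 * j + 1))) atTop (𝓝 z) := by
    rw [tendsto_subtype_rng]; exact tend0
  obtain ⟨j, hj⟩ := (Metric.tendsto_nhds.1 h2 δ hδ).exists
  generalize 2 * P (2 * j + 1) = m at hj
  obtain ⟨N, hN⟩ := eventually_atTop.1 (h1 _ _ hj)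
  obtain ⟨k, hk1, hk2, hk3, hk4⟩ : ∃ k, Even k ∧ 22 ≤ k ∧ N ≤ k ∧ m ≤ k :=
    ⟨2 * (N + m + 11), by simp, by omega, by omega, by omega⟩
  have h3 := P_ge k
  have h4 := hN (2 * P k) (by omega)
  have hP : (0 : ℝ) < P k := by exact_mod_cast P_pos _
  rw [div_lt_iff₀ (by push_cast; positivity), two_mul (P k), Finset.sum_range_add] at h4
  have h5 : 0 ≤ ∑ i ∈ Finset.range (P k), dist (T^[i] (oo m)) (T^[i] z) :=
    Finset.sum_nonneg fun _ _ => dist_nonneg
  have h6 := Finset.card_nsmul_le_sum (Finset.range (P k))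
    (fun i => dist (T^[P k + i] (oo m)) (T^[P k + i] z)) (1 / 2) (by
      intro i hi
      have hi2 : (i : ℝ) ≤ P k := by exact_mod_cast (Finset.mem_range.1 hi).le
      have hm : (m : ℝ) ≤ P k := by exact_mod_cast (by omega)
      have b1 := PiCountable.min_dist_le_dist_pi (T^[P k + i] (oo m)).1 (T^[P k + i] z).1 0
      refine le_trans (le_min (by norm_num) ?_) b1
      rw [iter_T, iter_T]
      show _ ≤ dist (f _) 0
      rw [Real.dist_eq, sub_zero]
      have hi0 : (0 : ℝ) ≤ i := by positivity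
      have hm0 : (0 : ℝ) ≤ m := by positivity
      exact (f_big hk1 hk2 (by push_cast; linarith) (by push_cast; linarith)).trans (le_abs_self _))
  simp only [Finset.card_range, nsmul_eq_mul] at h6
  push_cast at h4
  linarith

end Pool.Agent.H33.Nt
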