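import Mathlib

set_option autoImplicit false
open Finset

namespace Pool.Agent.H33.PS

abbrev QZ := AddCircle (1 : ℚ)

inductive W (M : Type) : Type
  | base : M → W M
  | node : ℕ → M → M → W M → W M
  | zero : W M
  | add : W M → W M → W M
  | gen : W M → QZ → W M

abbrev G (M : Type) := W M →₀ QZ

variable {M : Type}

noncomputable def val : W M → G M
  | .add a b => val a + val b
  | .gen a c => Finsupp.single a c
  | _ => 0

lemma val_surj (g : G M) : ∃ w, val w = g := by
  induction g using Finsupp.induction_linear with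
  | zero => exact ⟨.zero, rfl⟩
  | add f g hf hg =>
    obtain ⟨a, rfl⟩ := hf
    obtain ⟨b, rfl⟩ := hg
    exact ⟨.add a b, rfl⟩
  | single a c => exact ⟨.gen a c, rfl⟩

lemma qz_tor (c : QZ) : IsOfFinAddOrder c := by
  haveI : Fact ((0 : ℚ) < 1) := ⟨one_pos⟩
  induction c using QuotientAddGroup.induction_on with
  | H a => exact AddCircle.isOfFinAddOrder_iff_exists_rat_eq_div.2 ⟨a, by simp⟩

lemma g_tor (g : G M) : IsOfFinAddOrder g := by
  induction g using Finsupp.induction_linear with
  | zero => exact IsOfFinAddOrder.zero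
  | add f g hf hg => exact hf.add hg
  | single a c => exact (Finsupp.singleAddHom a).isOfFinAddOrder (qz_tor c)

def lvl : W M → ℕ
  | .node k _ _ _ => k + 1
  | _ => 0

noncomputable def V : W M → G M
  | .node _ _ _ w => val w
  | _ => 0

variable [CommMonoid M]

def X : W M → M
  | .node _ x _ _ => x
  | .base s => s
  | _ => 1

def Y : W M → M
  | .node _ _ y _ => y
  | _ => 1

variable (om : M → ℕ)

noncomputable def nn (i : W M) : ℕ := 2 * (om (X i) * om (Y i) * addOrderOf (V i))

noncomputable def rr (i : W M) : QZ := (((1 : ℚ) / (nn om i : ℚ) : ℚ) : QZ)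

noncomputable def u (i : W M) : G M := Finsupp.single i (rr om i)

def Tk : ℕ → M → G M → Prop
  | 0, t, g => ∃ (c : M →₀ ℕ) (f : M), IsIdempotentElem f ∧ t = f * c.prod (fun s n => s ^ n) ∧
      g = c.sum (fun s n => n • u om (.base s))
  | k + 1, t, g => ∃ (a b : W M →₀ ℕ) (s : M) (h : G M), Tk k s h ∧
      (∀ i, (a i ≠ 0 ∨ b i ≠ 0) → lvl i = k + 1 ∧ Tk k (X i * Y i) (V i)) ∧
      t = s * (a.prod (fun i n => X i ^ n) * b.prod (fun i n => Y i ^ n)) ∧
      g = h + (a.sum (fun i n => n • u om i) + b.sum (fun i n => n • (V i - u om i)))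

variable {om}

lemma T_succ {k : ℕ} {t : M} {g : G M} (h : Tk om k t g) : Tk om (k + 1) t g :=
  ⟨0, 0, t, g, h, by simp, by simp, by simp⟩

lemma T_mono {k l : ℕ} (hkl : k ≤ l) {t : M} {g : G M} (h : Tk om k t g) : Tk om l t g := by
  induction hkl with
  | refl => exact h
  | step _ ih => exact T_succ ih

lemma T_idem (k : ℕ) {f : M} (hf : IsIdempotentElem f) : Tk om k f 0 :=
  T_mono (Nat.zero_le k) ⟨0, f, hf, by simp, by simp⟩

lemma T_base (s : M) : Tk om 0 s (u om (.base s)) :=
  ⟨Finsupp.single s 1, 1, IsIdempotentElem.one, by simp, by simp⟩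

lemma T_mul (k : ℕ) : ∀ {t t' : M} {g g' : G M}, Tk om k t g → Tk om k t' g' →
    Tk om k (t * t') (g + g') := by
  induction k with
  | zero =>
    rintro t t' g g' ⟨c, f, hf, rfl, rfl⟩ ⟨c', f', hf', rfl, rfl⟩
    refine ⟨c + c', f * f', hf.mul hf', ?_, ?_⟩
    · rw [Finsupp.prod_add_index' (by simp) (by simp [pow_add])]
      exact mul_mul_mul_comm _ _ _ _
    · rw [Finsupp.sum_add_index' (by simp) (by simp [add_smul])]
  | succ k ih =>
    rintro t t' g g' ⟨a, b, s, h, hs, hv, rfl, rfl⟩ ⟨a', b', s', h', hs', hv', rfl, rfl⟩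
    refine ⟨a + a', b + b', s * s', h + h', ih hs hs', fun i hi => ?_, ?_, ?_⟩
    · by_cases h1 : a i ≠ 0 ∨ b i ≠ 0
      · exact hv i h1
      · apply hv' i
        simp only [Finsupp.add_apply] at hi
        omega
    · rw [Finsupp.prod_add_index' (by simp) (by simp [pow_add]),
        Finsupp.prod_add_index' (by simp) (by simp [pow_add])]
      simp only [mul_assoc, mul_left_comm, mul_comm]
    · rw [Finsupp.sum_add_index' (by simp) (by simp [add_smul]),
        Finsupp.sum_add_index' (by simp) (fun i n m => add_smul _ _ _)]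
      abel

lemma T_pow (k : ℕ) {t : M} {g : G M} (h : Tk om k t g) (n : ℕ) : Tk om k (t ^ n) (n • g) := by
  induction n with
  | zero => simpa using T_idem k IsIdempotentElem.one
  | succ n ih => rw [pow_succ, succ_nsmul]; exact T_mul k ih h

lemma T_prod (k : ℕ) {ι : Type} (F : Finset ι) (t : ι → M) (g : ι → G M)
    (h : ∀ i ∈ F, Tk om k (t i) (g i)) : Tk om k (∏ i ∈ F, t i) (∑ i ∈ F, g i) := by
  classical
  induction F using Finset.induction_on with
  | empty => simpa using T_idem k IsIdempotentElem.one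
  | insert a F ha ih =>
    rw [prod_insert ha, sum_insert ha]
    exact T_mul k (h a (mem_insert_self _ _)) (ih fun i hi => h i (mem_insert_of_mem hi))

lemma u_apply_ne {i j : W M} (h : i ≠ j) : u om i j = 0 := by
  simp [u, Finsupp.single_apply, h]

lemma T_supp (k : ℕ) : ∀ {t : M} {g : G M}, Tk om k t g → ∀ j, k < lvl j → g j = 0 := by
  induction k with
  | zero =>
    rintro t g ⟨c, f, hf, rfl, rfl⟩ j hj
    rw [Finsupp.sum, Finsupp.finsetSum_apply]
    refine sum_eq_zero fun s _ => ?_
    rw [Finsupp.smul_apply, u_apply_ne, smul_zero]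
    rintro rfl
    simp [lvl] at hj
  | succ k ih =>
    rintro t g ⟨a, b, s, h, hs, hv, rfl, rfl⟩ j hj
    have hne : ∀ i, (a i ≠ 0 ∨ b i ≠ 0) → u om i j = 0 := by
      intro i hi
      apply u_apply_ne
      rintro rfl
      have := (hv i hi).1
      omega
    simp only [Finsupp.add_apply, Finsupp.sum, Finsupp.finsetSum_apply, Finsupp.smul_apply,
      Finsupp.sub_apply]
    rw [ih hs j (by omega), sum_eq_zero, sum_eq_zero, add_zero, add_zero]
    · intro i hi
      have hi' : a i ≠ 0 ∨ b i ≠ 0 := Or.inr (Finsupp.mem_support_iff.1 hi)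
      rw [hne i hi', ih (hv i hi').2 j (by omega)]; simp
    · intro i hi
      rw [hne i (Or.inl (Finsupp.mem_support_iff.1 hi)), smul_zero]

section per
variable (hom : ∀ x, 0 < om x ∧ IsIdempotentElem (x ^ om x))
include hom

lemma nn_ge (i : W M) : 2 ≤ nn om i := by
  have h1 := (hom (X i)).1
  have h2 := (hom (Y i)).1
  have h3 := (g_tor (V i)).addOrderOf_pos
  have : 0 < om (X i) * om (Y i) * addOrderOf (V i) := by positivity
  unfold nn; omega

lemma ord_rr (i : W M) : addOrderOf (rr om i) = nn om i := by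
  haveI : Fact ((0 : ℚ) < 1) := ⟨one_pos⟩
  exact AddCircle.addOrderOf_period_div (by have := nn_ge hom i; omega)

lemma rr_mod (i : W M) {a b : ℕ} (h : a • rr om i = b • rr om i) : a ≡ b [MOD nn om i] := by
  rw [← ord_rr hom]; exact nsmul_eq_nsmul_iff_modEq.1 h

lemma idX (i : W M) (m : ℕ) : IsIdempotentElem (X i ^ (nn om i * m)) := by
  have : nn om i * m = om (X i) * (2 * om (Y i) * addOrderOf (V i) * m) := by unfold nn; ring
  rw [this, pow_mul]; exact (hom _).2.pow _

lemma idY (i : W M) (m : ℕ) : IsIdempotentElem (Y i ^ (nn om i * m)) := by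
  have : nn om i * m = om (Y i) * (2 * om (X i) * addOrderOf (V i) * m) := by unfold nn; ring
  rw [this, pow_mul]; exact (hom _).2.pow _

omit hom in
lemma nV (i : W M) (m : ℕ) : (nn om i * m) • V i = 0 := by
  have : nn om i * m = (2 * om (Y i) * om (X i) * m) * addOrderOf (V i) := by unfold nn; ring
  rw [this, mul_smul, addOrderOf_nsmul_eq_zero, smul_zero]

lemma T_node (k : ℕ) (i : W M) (h : Tk om k (X i * Y i) (V i)) {a b : ℕ}
    (hab : a ≡ b [MOD nn om i]) : Tk om k (X i ^ a * Y i ^ b) (b • V i) := by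
  rcases le_total a b with hle | hle
  · obtain ⟨m, hm⟩ := (Nat.modEq_iff_dvd' hle).1 hab
    have hb : b = a + nn om i * m := by omega
    have := T_mul k (T_pow k h a) (T_idem k (idY hom i m))
    rw [hb, add_smul, nV, pow_add, ← mul_assoc, ← mul_pow]
    exact this
  · obtain ⟨m, hm⟩ := (Nat.modEq_iff_dvd' hle).1 hab.symm
    have ha : a = b + nn om i * m := by omega
    have := T_mul k (T_pow k h b) (T_idem k (idX hom i m))
    rw [add_zero, mul_pow, mul_right_comm, ← pow_add, ← ha] at this
    exact this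

lemma T_cons (k : ℕ) {t : M} {g : G M} (h : Tk om (k + 1) t g)
    (hg : ∀ i, lvl i = k + 1 → g i = 0) : Tk om k t g := by
  classical
  obtain ⟨a, b, s, h, hs, hv, rfl, rfl⟩ := h
  set F := a.support ∪ b.support with hF
  have hFv : ∀ i ∈ F, a i ≠ 0 ∨ b i ≠ 0 := by
    intro i hi; simpa [hF] using hi
  have e1 : a.prod (fun i n => X i ^ n) = ∏ i ∈ F, X i ^ a i :=
    Finsupp.prod_of_support_subset _ subset_union_left _ (by simp)
  have e2 : b.prod (fun i n => Y i ^ n) = ∏ i ∈ F, Y i ^ b i :=
    Finsupp.prod_of_support_subset _ subset_union_right _ (by simp)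
  have e3 : a.sum (fun i n => n • u om i) = ∑ i ∈ F, a i • u om i :=
    Finsupp.sum_of_support_subset _ subset_union_left _ (by simp)
  have e4 : b.sum (fun i n => n • (V i - u om i)) = ∑ i ∈ F, b i • (V i - u om i) :=
    Finsupp.sum_of_support_subset _ subset_union_right _ (by simp)
  rw [e3, e4] at hg
  have key : ∀ j ∈ F, a j • rr om j = b j • rr om j := by
    intro j hj
    have hl := (hv j (hFv j hj)).1
    have := hg j hl
    simp only [Finsupp.add_apply, Finsupp.finsetSum_apply, Finsupp.smul_apply,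
      Finsupp.sub_apply] at this
    rw [T_supp k hs j (by omega), sum_eq_single_of_mem j hj, sum_eq_single_of_mem j hj,
      T_supp k (hv j (hFv j hj)).2 j (by omega)] at this
    · simp only [u, Finsupp.single_eq_same, zero_sub, smul_neg, zero_add] at this
      exact add_neg_eq_zero.1 this
    · intro i hi hne
      rw [u_apply_ne hne, T_supp k (hv i (hFv i hi)).2 j (by omega)]; simp
    · intro i hi hne
      rw [u_apply_ne hne, smul_zero]
  rw [e1, e2, e3, e4, ← prod_mul_distrib, ← sum_add_distrib]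
  refine T_mul k hs (T_prod k F _ _ fun i hi => ?_)
  have h2 : a i • u om i = b i • u om i := by
    simp only [u, Finsupp.smul_single, key i hi]
  rw [h2, ← smul_add, add_sub_cancel]
  exact T_node hom k i (hv i (hFv i hi)).2 (rr_mod hom i (key i hi))

lemma T_down (k : ℕ) {t : M} {g : G M} (h : Tk om k t g) (hg : ∀ i, 0 < lvl i → g i = 0) :
    Tk om 0 t g := by
  induction k with
  | zero => exact h
  | succ k ih => exact ih (T_cons hom k h fun i hi => hg i (by omega))

lemma T_base_inv (k : ℕ) {s t : M} (h : Tk om k t (u om (.base s))) :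
    ∃ f, IsIdempotentElem f ∧ t = s * f := by
  classical
  have h0 := T_down hom k h (fun i hi => u_apply_ne (by rintro rfl; simp [lvl] at hi))
  obtain ⟨c, f, hf, rfl, hg⟩ := h0
  set F := insert s c.support with hF
  have e1 : c.prod (fun s n => s ^ n) = ∏ x ∈ F, x ^ c x :=
    Finsupp.prod_of_support_subset _ (subset_insert _ _) _ (by simp)
  have e3 : c.sum (fun s n => n • u om (.base s)) = ∑ x ∈ F, c x • u om (.base x) :=
    Finsupp.sum_of_support_subset _ (subset_insert _ _) _ (by simp)
  rw [e3] at hg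
  have key : ∀ x ∈ F, u om (.base s) (.base x) = c x • rr om (.base x) := by
    intro x hx
    rw [hg, Finsupp.finsetSum_apply, sum_eq_single_of_mem x hx]
    · simp [u]
    · intro y _ hne
      rw [Finsupp.smul_apply, u_apply_ne (by simpa using hne), smul_zero]
  have hs : s ∈ F := mem_insert_self _ _
  have k1 : 1 ≡ c s [MOD nn om (.base s)] := by
    apply rr_mod hom
    rw [← key s hs]; simp [u]
  have hge := nn_ge hom (.base s)
  have hc : 1 ≤ c s := by
    by_contra h0
    have : c s = 0 := by omega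
    rw [this] at k1
    have := Nat.le_of_dvd one_pos ((Nat.modEq_zero_iff_dvd).1 k1)
    omega
  obtain ⟨m, hm⟩ := (Nat.modEq_iff_dvd' hc).1 k1
  have hcs : c s = 1 + nn om (.base s) * m := by omega
  have hrest : IsIdempotentElem (∏ x ∈ F.erase s, x ^ c x) := by
    refine prod_induction _ IsIdempotentElem (fun a b ha hb => ha.mul hb) IsIdempotentElem.one ?_
    intro x hx
    have hx' := mem_erase.1 hx
    have k2 : 0 ≡ c x [MOD nn om (.base x)] := by
      apply rr_mod hom
      rw [← key x hx'.2, u_apply_ne (by simpa using hx'.1.symm), zero_smul]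
    obtain ⟨m, hm⟩ := (Nat.modEq_zero_iff_dvd).1 k2.symm
    rw [hm]
    exact idX hom (.base x) m
  refine ⟨f * (s ^ (nn om (.base s) * m) * ∏ x ∈ F.erase s, x ^ c x),
    hf.mul ((idX hom (.base s) m).mul hrest), ?_⟩
  rw [e1, ← mul_prod_erase F (fun x => x ^ c x) hs, hcs, pow_add, pow_one]
  simp only [mul_assoc, mul_left_comm]
end per

lemma T_split (k : ℕ) {x y : M} {g : G M} (h : Tk om k (x * y) g) :
    ∃ g1 g2, Tk om (k + 1) x g1 ∧ Tk om (k + 1) y g2 ∧ g1 + g2 = g := by
  classical
  obtain ⟨w, rfl⟩ := val_surj g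
  have hv : ∀ (i : W M), (Finsupp.single (W.node k x y w) 1 : W M →₀ ℕ) i ≠ 0 →
      lvl i = k + 1 ∧ Tk om k (X i * Y i) (V i) := by
    intro i hi
    obtain ⟨rfl, -⟩ := Finsupp.single_apply_ne_zero.1 hi
    exact ⟨rfl, h⟩
  refine ⟨u om (.node k x y w), val w - u om (.node k x y w), ?_, ?_, by abel⟩
  · refine ⟨Finsupp.single (.node k x y w) 1, 0, 1, 0, T_idem k IsIdempotentElem.one,
      fun i hi => hv i (by simpa using hi), by simp [X], by simp⟩
  · refine ⟨0, Finsupp.single (.node k x y w) 1, 1, 0, T_idem k IsIdempotentElem.one,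
      fun i hi => hv i (by simpa using hi), by simp [Y], ?_⟩
    rw [Finsupp.sum_single_index (by simp)]
    simp [V]

open scoped Pointwise in
theorem main (hom : ∀ x, 0 < om x ∧ IsIdempotentElem (x ^ om x)) :
    ∃ f : M →ₙ* Set (Multiplicative (G M)), Function.Injective f ∧ ∀ s, (f s).Nonempty := by
  refine ⟨⟨fun t => {g | ∃ k, Tk om k t g.toAdd}, fun x y => ?_⟩, fun s t hst => ?_,
    fun s => ⟨Multiplicative.ofAdd (u om (.base s)), 0, T_base s⟩⟩
  · ext g
    constructor
    · rintro ⟨k, hk⟩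
      obtain ⟨g1, g2, h1, h2, h3⟩ := T_split k hk
      exact ⟨Multiplicative.ofAdd g1, ⟨_, h1⟩, Multiplicative.ofAdd g2, ⟨_, h2⟩,
        congrArg Multiplicative.ofAdd h3⟩
    · rintro ⟨g1, ⟨k, h1⟩, g2, ⟨l, h2⟩, rfl⟩
      exact ⟨max k l, T_mul _ (T_mono (le_max_left _ _) h1) (T_mono (le_max_right _ _) h2)⟩
  · have hst' : {g : Multiplicative (G M) | ∃ k, Tk om k s g.toAdd} =
        {g | ∃ k, Tk om k t g.toAdd} := hst
    have h1 : Multiplicative.ofAdd (u om (.base s)) ∈
        {g : Multiplicative (G M) | ∃ k, Tk om k s g.toAdd} := ⟨0, T_base s⟩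
    have h2 : Multiplicative.ofAdd (u om (.base t)) ∈
        {g : Multiplicative (G M) | ∃ k, Tk om k t g.toAdd} := ⟨0, T_base t⟩
    rw [hst'] at h1
    rw [← hst'] at h2
    obtain ⟨k, h1⟩ := h1
    obtain ⟨l, h2⟩ := h2
    obtain ⟨f, hf, e1⟩ := T_base_inv hom k h1
    obtain ⟨f', hf', e2⟩ := T_base_inv hom l h2
    have : t * f = t := by rw [e1, mul_assoc, hf.eq]
    rw [e1, e2, mul_right_comm, this]

end Pool.Agent.H33.PS
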