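import Mathlib

set_option autoImplicit false

namespace Pool.Agent.H33.Pair

open Finset Real Filter Topology

def q (k : ℕ) : ℕ := Nat.fermatNumber (k + 3)

lemma q_ge (k : ℕ) : 257 + k ≤ q k := by
  induction k with
  | zero => decide
  | succ k ih => exact Nat.succ_le_of_lt (ih.trans_lt (Nat.fermatNumber_strictMono (by omega)))

noncomputable def t (k : ℕ) : ℝ := 2 * π / q k

lemma q_pos (k : ℕ) : (257 : ℝ) ≤ q k := by exact_mod_cast le_trans (by omega) (q_ge k)

lemma cmod {k n n' : ℕ} (h : n ≡ n' [MOD q k]) : cos (n * t k) = cos (n' * t k) := by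
  obtain ⟨d, hd⟩ := h.dvd
  have := q_pos k
  have e : (n' : ℝ) - n = q k * d := by exact_mod_cast hd
  rw [← cos_add_int_mul_two_pi _ d, t]
  congr 1
  field_simp
  linarith

noncomputable def x (k : ℕ) : ℝ := cos ((q k / 4 + 1 : ℕ) * t k)

lemma hx (k : ℕ) : -1 / 4 ≤ x k ∧ x k ≤ 0 := by
  have h := q_pos k
  have h1 : (q k : ℝ) ≤ 4 * (q k / 4 + 1 : ℕ) := by exact_mod_cast (by omega)
  have h2 : (4 : ℝ) * (q k / 4 + 1 : ℕ) ≤ q k + 4 := by exact_mod_cast (by omega)
  have e : ((q k / 4 + 1 : ℕ) : ℝ) * t k = (4 * (q k / 4 + 1 : ℕ) - q k) / q k * (π / 2) + π / 2 := by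
    rw [t]; field_simp; ring
  have a : 0 ≤ ((4 : ℝ) * (q k / 4 + 1 : ℕ) - q k) / q k := div_nonneg (by linarith) (by linarith)
  have b : ((4 : ℝ) * (q k / 4 + 1 : ℕ) - q k) / q k ≤ 1 / 8 := by
    rw [div_le_iff₀ (by linarith)]; linarith
  rw [x, e, cos_add_pi_div_two]
  generalize ((4 : ℝ) * (q k / 4 + 1 : ℕ) - q k) / q k = s at a b
  have := sin_le (show 0 ≤ s * (π / 2) by positivity)
  have := sin_nonneg_of_nonneg_of_le_pi (show 0 ≤ s * (π / 2) by positivity) (by nlinarith [pi_pos])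
  constructor <;> nlinarith [pi_le_four]

noncomputable def a : ℕ → ℝ
  | 0 => 1
  | k + 1 => a k / (2 * (1 + x (k + 1)))

lemma ha (k : ℕ) : 0 < a k ∧ a k ≤ (2 / 3) ^ k := by
  induction k with
  | zero => simp [a]
  | succ k ih =>
    have := hx (k + 1)
    refine ⟨div_pos ih.1 (by linarith), ?_⟩
    rw [a, div_le_iff₀ (by linarith), pow_succ]
    nlinarith [pow_pos (show (0 : ℝ) < 2 / 3 by norm_num) k]

noncomputable def c (k : ℕ) : ℝ := a k / (1 - x k)

lemma hc (k : ℕ) : 0 < c k ∧ c k ≤ (2 / 3) ^ k :=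
  ⟨div_pos (ha k).1 (by linarith [hx k]), (div_le_self (ha k).1.le (by linarith [hx k])).trans (ha k).2⟩

lemma cb (k : ℕ) (y : ℝ) (hy : |y| ≤ 2) : ‖c k * y‖ ≤ 2 * (2 / 3) ^ k := by
  rw [norm_mul, Real.norm_of_nonneg (hc k).1.le, mul_comm]
  exact mul_le_mul hy (hc k).2 (hc k).1.le zero_le_two

lemma cs (y : ℕ → ℝ) (hy : ∀ k, |y k| ≤ 2) : Summable fun k => c k * y k :=
  .of_norm_bounded ((summable_geometric_of_lt_one (by norm_num) (by norm_num)).mul_left 2)
    fun k => cb k _ (hy k)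

lemma d2 (k : ℕ) (s : ℝ) : |cos s - x k| ≤ 2 :=
  abs_le.2 ⟨by linarith [neg_one_le_cos s, hx k], by linarith [cos_le_one s, hx k]⟩

noncomputable def m (n : ℕ) : ℝ := ∑' k, c k * (cos (n * t k) - x k)

lemma tail (n K : ℕ) : |m n| ≤ |∑ k ∈ range K, c k * (cos (n * t k) - x k)| + 6 * (2 / 3) ^ K := by
  rw [m, ← (cs _ fun k => d2 k _).sum_add_tsum_nat_add K]
  refine (abs_add_le _ _).trans (add_le_add le_rfl ?_)
  have := ((hasSum_geometric_of_lt_one (r := 2 / 3) (by norm_num) (by norm_num)).mul_right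
    ((2 / 3) ^ K)).mul_left 2
  refine (tsum_of_norm_bounded this fun k => (cb _ _ (d2 _ _)).trans (le_of_eq ?_)).trans
    (le_of_eq ?_) <;> ring

lemma pat (j K : ℕ) (h : j ≤ K) : ∑ k ∈ range (K + 1), c k * (cos ((if k < j then q k / 4 + 1 else
    if k = j then 0 else 2 * (q k / 4 + 1) : ℕ) * t k) - x k) = a K := by
  induction K, h using Nat.le_induction with
  | base =>
    have := hx j
    rw [sum_range_succ, sum_eq_zero fun k hk => by rw [if_pos (mem_range.1 hk), x, sub_self, mul_zero]]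
    simp only [lt_irrefl, if_false, if_true, Nat.cast_zero, zero_mul, cos_zero, zero_add, c]
    exact div_mul_cancel₀ _ (by linarith)
  | succ K h ih =>
    have := hx (K + 1)
    rw [sum_range_succ, ih, if_neg (by omega), if_neg (by omega), Nat.cast_mul, mul_assoc, Nat.cast_two,
      cos_two_mul, ← x, c, a]
    have : 1 + x (K + 1) ≠ 0 := by linarith
    have : 1 - x (K + 1) ≠ 0 := by linarith
    field_simp
    ring

lemma crt (N K : ℕ) (r : ℕ → ℕ) : ∃ i < ∏ k ∈ range K, q k, ∀ n, n % ∏ k ∈ range K, q k = i →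
    ∀ k < K, N + n ≡ r k [MOD q k] := by
  obtain ⟨y, hy⟩ := Nat.chineseRemainderOfFinset r q (range K) (fun k _ => by have := q_ge k; omega)
    fun i _ j _ h => Nat.coprime_fermatNumber_fermatNumber (by omega)
  obtain ⟨Q, hQ⟩ : ∃ Q, ∏ k ∈ range K, q k = Q + 1 :=
    Nat.exists_eq_succ_of_ne_zero (prod_ne_zero_iff.2 fun k _ => by have := q_ge k; omega)
  refine ⟨(y + N * Q) % _, Nat.mod_lt _ (by omega), fun n hn k hk => ?_⟩
  refine (Nat.ModEq.of_dvd (dvd_prod_of_mem q (mem_range.2 hk)) ?_).trans (hy k (mem_range.2 hk))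
  refine (Nat.ModEq.add_left N hn).trans ?_
  rw [hQ, show N + (y + N * Q) = y + N * (Q + 1) by ring]
  exact Nat.add_mul_mod_self_right _ _ _

lemma per (Q i : ℕ) (hi : i < Q) (φ : ℕ → ℝ) (hφ : ∀ n, n % Q = i → φ n = φ i) (p s : ℕ) (hs : s ≤ Q) :
    ∑ n ∈ range (Q * p + s), (if n % Q = i then 1 else 0) * φ n = (p + if i < s then 1 else 0) * φ i := by
  have e : ∀ p s, s ≤ Q → ∑ n ∈ range s, (if (Q * p + n) % Q = i then 1 else 0) * φ (Q * p + n) =
      (if i < s then 1 else 0) * φ i := fun p s hs => by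
    rw [sum_congr rfl fun n hn => show _ = if n = i then φ i else 0 by
      have : (Q * p + n) % Q = n := by rw [Nat.mul_add_mod, Nat.mod_eq_of_lt (by
        have := mem_range.1 hn; omega)]
      split_ifs with h1 h2 h2
      · rw [hφ _ h1, one_mul]
      · omega
      · omega
      · simp]
    simp
  rw [sum_range_add, e p s hs, add_mul]
  congr 1
  induction p with
  | zero => simp
  | succ p ih => rw [Nat.mul_succ, sum_range_add, ih, e p Q le_rfl, if_pos hi]; push_cast; ring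

noncomputable def S (b : ℕ → ℝ) (s : ℝ) (M : ℕ) : ℝ := ∑ n ∈ range M, b n * cos (n * s)

def R (ε : ℝ) (j N N' : ℕ) (b : ℕ → ℝ) : Prop := (∀ n, N ≤ n → n < N' → |b n| ≤ ε) ∧
  (∀ s, (s = 0 ∨ ∃ k < j, s = t k) → (∀ M, N ≤ M → M ≤ N' → |S b s M - S b s N| ≤ ε) ∧
    S b s N' = S b s N) ∧ S b (t j) N' = 0 ∧
  ∑ n ∈ range N', |b n| * |m n| ≤ ∑ n ∈ range N, |b n| * |m n| + ε

lemma stage (ε : ℝ) (hε : 0 < ε) (j N : ℕ) (b : ℕ → ℝ) :
    ∃ N' b', N < N' ∧ (∀ n < N, b' n = b n) ∧ R ε j N N' b' := by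
  obtain ⟨X, hX⟩ : ∃ X, X = S b (t j) N := ⟨_, rfl⟩
  obtain ⟨p, hp⟩ := exists_nat_gt (2 * |X| / ε)
  have p0 : (0 : ℝ) < p := lt_of_le_of_lt (by positivity) hp
  obtain ⟨K, hK, jK⟩ := ((tendsto_pow_atTop_nhds_zero_of_lt_one (r := (2 / 3 : ℝ)) (by norm_num)
    (by norm_num)).eventually_le_const (show 0 < ε / (14 * (|X| + 1)) by positivity)).and
    (eventually_ge_atTop j) |>.exists
  obtain ⟨i, i1, i2⟩ := crt N (K + 1) fun k => q k / 4 + 1
  obtain ⟨l, l1, l2⟩ := crt N (K + 1) fun k => if k < j then q k / 4 + 1 else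
    if k = j then 0 else 2 * (q k / 4 + 1)
  generalize ∏ k ∈ range (K + 1), q k = Q at *
  have i3 := i2 i (Nat.mod_eq_of_lt i1)
  have l3 := l2 l (Nat.mod_eq_of_lt l1)
  obtain ⟨α, hα⟩ : ∃ α, α = -X / (p * (1 - x j)) := ⟨_, rfl⟩
  have h1 : p * |α| ≤ |X| := by
    have := hx j
    rw [hα, abs_div, abs_neg, abs_of_pos (show 0 < p * (1 - x j) by nlinarith), ← mul_div_assoc,
      div_le_iff₀ (by nlinarith)]
    nlinarith [mul_nonneg p0.le (abs_nonneg X)]
  have h2 : 2 * |α| ≤ ε := by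
    rw [div_lt_iff₀ hε] at hp
    nlinarith
  let g : ℕ → ℝ := fun n => α * ((if n % Q = l then 1 else 0) - if n % Q = i then 1 else 0)
  have key : ∀ s, (s = 0 ∨ ∃ k ≤ j, s = t k) → ∀ p u, u ≤ Q →
      S (fun n => if n < N then b n else g (n - N)) s (N + (Q * p + u)) = S b s N + α *
        ((p + if l < u then 1 else 0) * cos ((N + l : ℕ) * s) -
        (p + if i < u then 1 else 0) * cos ((N + i : ℕ) * s)) := fun s hs p u hu => by
    rw [← per Q l l1 (fun n => cos ((N + n : ℕ) * s)) (fun n hn => ?_) p u hu,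
      ← per Q i i1 (fun n => cos ((N + n : ℕ) * s)) (fun n hn => ?_) p u hu, S, sum_range_add,
      ← sum_sub_distrib, mul_sum]
    · refine congrArg₂ _ (sum_congr rfl fun n hn => by rw [if_pos (mem_range.1 hn)])
        (sum_congr rfl fun n _ => ?_)
      simp only [add_lt_iff_neg_left, not_lt_zero', if_false, Nat.add_sub_cancel_left, g]
      ring
    all_goals rcases hs with rfl | ⟨k, hk, rfl⟩
    · simp
    · exact cmod ((i2 n hn k (by omega)).trans (i3 k (by omega)).symm)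
    · simp
    · exact cmod ((l2 n hn k (by omega)).trans (l3 k (by omega)).symm)
  have k0 := fun s hs => key s hs 0 0 (Nat.zero_le _)
  simp only [mul_zero, add_zero, Nat.cast_zero, not_lt_zero', if_false, zero_mul, sub_self] at k0
  have p1 : 0 < p := by exact_mod_cast p0
  refine ⟨N + (Q * p + 0), fun n => if n < N then b n else g (n - N), by nlinarith,
    fun n hn => if_pos hn, fun n hn _ => ?_, fun s hs => ?_, ?_, ?_⟩
  · simp only [if_neg (not_lt.2 hn), g]
    split_ifs <;> simp <;> linarith [abs_nonneg α]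
  · have hs' : s = 0 ∨ ∃ k ≤ j, s = t k := hs.imp_right fun ⟨k, a, b⟩ => ⟨k, a.le, b⟩
    have e : cos ((N + l : ℕ) * s) = cos ((N + i : ℕ) * s) := by
      rcases hs with rfl | ⟨k, hk, rfl⟩
      · simp
      · exact cmod ((l3 k (by omega)).trans (by rw [if_pos hk]; exact (i3 k (by omega)).symm))
    refine ⟨fun M h _ => ?_, by rw [key s hs' p 0 (by omega), k0 s hs', e]; simp⟩
    obtain ⟨M, rfl⟩ := Nat.exists_eq_add_of_le h
    rw [← Nat.div_add_mod M Q, key s hs' _ _ (Nat.mod_lt _ (by omega)).le, k0 s hs', e,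
      add_sub_cancel_left, abs_mul, ← sub_mul, abs_mul, add_sub_add_left_eq_sub]
    have := abs_cos_le_one ((N + i : ℕ) * s)
    have := abs_nonneg α
    generalize cos ((N + i : ℕ) * s) = y at *
    split_ifs <;> simp <;> nlinarith
  · have := hx j
    have : 1 - x j ≠ 0 := by linarith
    rw [key _ (Or.inr ⟨j, le_rfl, rfl⟩) p 0 (by omega), ← hX, cmod (i3 j (by omega)),
      cmod (l3 j (by omega)), ← x, hα]
    simp
    field_simp
    ring
  have a1 := per Q l l1 1 (fun _ _ => rfl) p 0 (by omega)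
  have a2 := per Q i i1 1 (fun _ _ => rfl) p 0 (by omega)
  simp only [Pi.one_apply, mul_one, not_lt_zero', if_false, add_zero (p : ℝ)] at a1 a2
  rw [sum_range_add]
  refine add_le_add le_rfl ((sum_le_sum (g := fun n => |α| * (7 * (2 / 3) ^ K) *
    ((if n % Q = l then 1 else 0) + if n % Q = i then 1 else 0)) fun n _ => ?_).trans ?_)
  · have t1 := tail (N + n) (K + 1)
    have : (0 : ℝ) < (2 / 3) ^ K := by positivity
    have b1 : n % Q = l → |m (N + n)| ≤ 7 * (2 / 3) ^ K := fun h => by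
      rw [sum_congr rfl fun k hk => by rw [cmod (l2 n h k (mem_range.1 hk))], pat j K jK,
        abs_of_pos (ha K).1, pow_succ] at t1
      linarith [ha K]
    have b2 : n % Q = i → |m (N + n)| ≤ 7 * (2 / 3) ^ K := fun h => by
      rw [sum_eq_zero fun k hk => by rw [cmod (i2 n h k (mem_range.1 hk)), x, sub_self, mul_zero],
        abs_zero, pow_succ] at t1
      linarith
    simp only [add_lt_iff_neg_left, not_lt_zero', if_false, Nat.add_sub_cancel_left, g]
    split_ifs with c1 c2 c2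
    · simp; positivity
    · simpa using mul_le_mul_of_nonneg_left (b1 c1) (abs_nonneg α)
    · simpa using mul_le_mul_of_nonneg_left (b2 c2) (abs_nonneg α)
    · simp
  · rw [← mul_sum, sum_add_distrib, a1, a2]
    rw [le_div_iff₀ (by positivity)] at hK
    nlinarith [pow_pos (show (0 : ℝ) < 2 / 3 by norm_num) K]

lemma glue (ε : ℕ → ℝ) (hε : ∀ j, 0 < ε j) (N0 : ℕ) (b0 : ℕ → ℝ) : ∃ (N : ℕ → ℕ) (b : ℕ → ℝ),
    StrictMono N ∧ N 0 = N0 ∧ (∀ n < N0, b n = b0 n) ∧ ∀ j, R (ε j) j (N j) (N (j + 1)) b := by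
  choose F G h1 h2 h3 using fun j => stage (ε j) (hε j) j
  let s : ℕ → ℕ × (ℕ → ℝ) := fun j => j.rec (N0, b0) fun j p => (F j p.1 p.2, G j p.1 p.2)
  have m : StrictMono fun j => (s j).1 := strictMono_nat_of_lt_succ fun j => h1 j _ _
  have e : ∀ j k, j ≤ k → ∀ n < (s j).1, (s k).2 n = (s j).2 n := fun j k h n hn => by
    induction k, h using Nat.le_induction with
    | base => rfl
    | succ k h ih => exact (h2 k _ _ n (hn.trans_le (m.monotone h))).trans ih
  have e' : ∀ j, ∀ n < (s j).1, (s (n + 1)).2 n = (s j).2 n := fun j n hn => by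
    rcases le_total j (n + 1) with h | h
    · exact e _ _ h n hn
    · exact (e _ _ h n (m.le_apply (x := n + 1))).symm
  refine ⟨_, fun n => (s (n + 1)).2 n, m, rfl, e' 0, fun j => ?_⟩
  obtain ⟨a1, a2, a3, a4⟩ : R (ε j) j (s j).1 (s (j + 1)).1 (s (j + 1)).2 := h3 j _ _
  have l := (m (Nat.lt_succ_self j)).le
  have f : ∀ (g : ℕ → ℝ → ℝ) M, M ≤ (s (j + 1)).1 → ∑ n ∈ range M, g n ((s (n + 1)).2 n) =
      ∑ n ∈ range M, g n ((s (j + 1)).2 n) := fun g M h =>
    sum_congr rfl fun n hn => by rw [e' (j + 1) n ((mem_range.1 hn).trans_le h)]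
  have f1 : ∀ u M, M ≤ (s (j + 1)).1 → S (fun n => (s (n + 1)).2 n) u M = S (s (j + 1)).2 u M :=
    fun u => f fun n y => y * cos (n * u)
  refine ⟨fun n a b => by beta_reduce; rw [e' (j + 1) n b]; exact a1 n a b, fun u hu => ⟨fun M a b => ?_, ?_⟩,
    (f1 _ _ le_rfl).trans a3, ?_⟩
  · rw [f1 _ _ b, f1 _ _ l]; exact (a2 u hu).1 M a b
  · rw [f1 _ _ le_rfl, f1 _ _ l]; exact (a2 u hu).2
  · rwa [f (fun n y => |y| * |Pair.m n|) _ le_rfl, f (fun n y => |y| * |Pair.m n|) _ l]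

lemma lim (N : ℕ → ℕ) (hN : StrictMono N) (ε u : ℕ → ℝ) (hε : Tendsto ε atTop (𝓝 0)) (J : ℕ)
    (h : ∀ j, J ≤ j → ∀ n, N j ≤ n → n < N (j + 1) → |u n| ≤ ε j) : Tendsto u atTop (𝓝 0) := by
  refine Metric.tendsto_atTop.2 fun δ hδ => ?_
  obtain ⟨K, hK⟩ := eventually_atTop.1 ((hε.eventually_lt_const hδ).and (eventually_ge_atTop J))
  refine ⟨N K, fun n hn => ?_⟩
  obtain ⟨j, a, b, c⟩ : ∃ j, K ≤ j ∧ N j ≤ n ∧ n < N (j + 1) := by
    induction n, hn using Nat.le_induction with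
    | base => exact ⟨K, le_rfl, le_rfl, hN (Nat.lt_succ_self K)⟩
    | succ n _ ih =>
      obtain ⟨j, a, b, c⟩ := ih
      rcases (Nat.succ_le_of_lt c).eq_or_lt with h | h
      · exact ⟨j + 1, by omega, h.ge, h.trans_lt (hN (Nat.lt_succ_self _))⟩
      · exact ⟨j, a, by omega, h⟩
  rw [Real.dist_0_eq_abs]
  exact (h j (hK j a).2 n b c).trans_lt (hK j a).1

lemma m01 : 0 < m 0 - m 1 := by
  rw [m, m, ← (cs _ fun k => d2 k _).tsum_sub (cs _ fun k => d2 k _)]
  refine ((cs _ fun k => d2 k _).sub (cs _ fun k => d2 k _)).tsum_pos (fun k => ?_) 0 ?_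
  · simpa using mul_le_mul_of_nonneg_left (sub_le_sub_right (cos_le_one (t k)) (x k)) (hc k).1.le
  · have h := q_pos 0
    have : 0 < t 0 := by unfold t; positivity
    have : t 0 < 2 * π := div_lt_self (by positivity) (by linarith)
    have := (cos_le_one _).lt_of_ne ((cos_eq_one_iff_of_lt_of_lt (x := t 0) (by linarith)
      (by linarith)).not.2 (by linarith))
    simpa using mul_lt_mul_of_pos_left (sub_lt_sub_right this (x 0)) (hc 0).1

lemma main : ∃ b : ℕ → ℝ, Tendsto b atTop (𝓝 0) ∧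
    (∀ s, (s = 0 ∨ ∃ k, s = t k) → Tendsto (S b s) atTop (𝓝 0)) ∧ (Summable fun n => |b n| * |m n|) ∧
    ¬ Tendsto (fun M => ∑ n ∈ range M, b n * m n) atTop (𝓝 0) := by
  have h0 := m01
  obtain ⟨η, hη⟩ : ∃ η, η = m 0 - m 1 := ⟨_, rfl⟩
  rw [← hη] at h0
  obtain ⟨N, b, h1, h2, h3, h4⟩ := glue (fun j => η / 2 / 2 / 2 ^ j) (fun j => by positivity) 2
    fun n => if n = 0 then 1 else -1
  have hs := hasSum_geometric_two' (η / 2)
  have he := hs.summable.tendsto_atTop_zero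
  have b0 := h3 0 (by norm_num)
  have b1 := h3 1 (by norm_num)
  simp only [if_true, one_ne_zero, if_false] at b0 b1
  have A : ∀ M, ∑ n ∈ range M, |b n| * |m n| ≤ ∑ n ∈ range 2, |b n| * |m n| + η / 2 := fun M => by
    have : ∀ j, ∑ n ∈ range (N j), |b n| * |m n| ≤ ∑ n ∈ range 2, |b n| * |m n| +
        ∑ i ∈ range j, η / 2 / 2 / 2 ^ i := fun j => by
      induction j with
      | zero => simp [h2]
      | succ j ih => rw [sum_range_succ _ j]; linarith [(h4 j).2.2.2]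
    exact (sum_le_sum_of_subset_of_nonneg (range_mono h1.le_apply) fun _ _ _ => by positivity).trans
      ((this M).trans (add_le_add le_rfl (sum_le_hasSum _ (fun _ _ => by positivity) hs)))
  refine ⟨b, lim N h1 _ _ he 0 fun j _ => (h4 j).1, fun s hs => ?_,
    summable_of_sum_range_le (fun _ => by positivity) A, fun h => ?_⟩
  · obtain ⟨J, a1, a2⟩ : ∃ J, S b s (N J) = 0 ∧ ∀ j, J ≤ j → s = 0 ∨ ∃ k < j, s = t k := by
      rcases hs with rfl | ⟨k, rfl⟩
      · exact ⟨0, by simp [h2, S, sum_range_succ, b0, b1], fun _ _ => Or.inl rfl⟩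
      · exact ⟨k + 1, (h4 k).2.2.1, fun j hj => Or.inr ⟨k, hj, rfl⟩⟩
    have : ∀ j, J ≤ j → S b s (N j) = 0 := fun j hj => by
      induction j, hj using Nat.le_induction with
      | base => exact a1
      | succ j hj ih => exact ((h4 j).2.1 s (a2 j hj)).2.trans ih
    exact lim N h1 _ _ he J fun j hj n a c => by
      simpa [this j hj] using ((h4 j).2.1 s (a2 j hj)).1 n a c.le
  · have := ge_of_tendsto h (eventually_atTop.2 ⟨2, fun M hM => show η / 2 ≤ _ by
      obtain ⟨M, rfl⟩ := Nat.exists_eq_add_of_le hM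
      have := A (2 + M)
      rw [sum_range_add] at this ⊢
      have := (neg_le_abs _).trans (abs_sum_le_sum_abs (fun n => b (2 + n) * m (2 + n)) (range M))
      simp only [abs_mul, sum_range_succ, range_zero, sum_empty, b0, b1] at *
      linarith⟩)
    linarith

end Pool.Agent.H33.Pair
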