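import Mathlib

set_option autoImplicit false
set_option linter.unusedVariables false

namespace Pool.Agent.H33.Pid

abbrev A := Fin 5
abbrev Wd := FreeSemigroup A

def stL : List (Wd × ℕ) :=
  [(⟨0, [1, 2, 3]⟩, 1), (⟨0, [1, 3, 2]⟩, 3), (⟨0, [2, 1, 3]⟩, 3), (⟨0, [2, 3, 1]⟩, 1),
   (⟨0, [3, 1, 2]⟩, 1), (⟨0, [3, 2, 1]⟩, 3), (⟨1, [0, 2, 3]⟩, 3), (⟨1, [0, 3, 2]⟩, 1),
   (⟨1, [2, 0, 3]⟩, 1), (⟨1, [2, 3, 0]⟩, 3), (⟨1, [3, 0, 2]⟩, 3), (⟨1, [3, 2, 0]⟩, 1),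
   (⟨2, [0, 1, 3]⟩, 1), (⟨2, [0, 3, 1]⟩, 3), (⟨2, [1, 0, 3]⟩, 3), (⟨2, [1, 3, 0]⟩, 1),
   (⟨2, [3, 0, 1]⟩, 1), (⟨2, [3, 1, 0]⟩, 3), (⟨3, [0, 1, 2]⟩, 3), (⟨3, [0, 2, 1]⟩, 1),
   (⟨3, [1, 0, 2]⟩, 1), (⟨3, [1, 2, 0]⟩, 3), (⟨3, [2, 0, 1]⟩, 3), (⟨3, [2, 1, 0]⟩, 1)]

def bqL : List (Wd × ℕ) :=
  [(⟨0, [4, 1, 2, 3]⟩, 1), (⟨0, [4, 1, 3, 2]⟩, 1), (⟨0, [1, 4, 3, 2]⟩, 1), (⟨0, [1, 3, 2, 4]⟩, 1),
   (⟨0, [2, 4, 1, 3]⟩, 1), (⟨0, [2, 4, 3, 1]⟩, 1), (⟨0, [2, 1, 3, 4]⟩, 1), (⟨0, [2, 3, 4, 1]⟩, 1),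
   (⟨0, [3, 4, 1, 2]⟩, 1), (⟨0, [3, 4, 2, 1]⟩, 1), (⟨0, [3, 1, 4, 2]⟩, 1), (⟨0, [3, 2, 4, 1]⟩, 1),
   (⟨1, [0, 4, 3, 2]⟩, 1), (⟨1, [0, 2, 4, 3]⟩, 1), (⟨1, [0, 2, 3, 4]⟩, 1), (⟨1, [0, 3, 2, 4]⟩, 1),
   (⟨1, [2, 0, 3, 4]⟩, 1), (⟨1, [3, 2, 0, 4]⟩, 1), (⟨2, [0, 1, 3, 4]⟩, 1), (⟨2, [0, 3, 4, 1]⟩, 1),
   (⟨2, [1, 0, 4, 3]⟩, 1), (⟨2, [3, 1, 0, 4]⟩, 1), (⟨3, [0, 1, 4, 2]⟩, 1), (⟨3, [0, 2, 4, 1]⟩, 1),
   (⟨3, [1, 2, 0, 4]⟩, 1), (⟨3, [2, 1, 0, 4]⟩, 1)]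

def tab : ℕ := 0x10000040000000000000000000000000000000000000000000000000000000000000000000000000000000000000000000000000000000000000000000000000000000000000000000000000000000000000000000000004000000000000000000000000000000000000000000000000000000000000000000000000000000000040000000000000000000000000000000000000000000000000000000000000000000000000000000000000000000000000000010040000000000000000000000000010000000400000000080000800000000000040000400000000000000000000000000000000000000000000000000000000000000000000000000000000000000000000000000000000000000000000000000000000000000000000004000000100000004000000000400000000000000000000000000000000000000000100410000000100000000000000000000000004000000000400000000000000000000000004000000000000000000000000000000000400000000000000000000000000000000000000000000000000000004000000000000000000000000000000000000000000000000000000000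000000000000000000000000000000000000000000100000000000000000000000000000000000000000000000000000000000000000000000000000000000000000000000100410000100000000410000000400000000000000000000000000200800000000000000100400000000000000000000000000000000000000000000000000000000000000000000000000000000000000000000000000000000000000000000000000000000000000000000000000000000000000000000000000040000000000000000100000000000000000000000000040100000000000000000000000000000000000000000080000000000000000000000000000000000400000000000000000000000000000000000000000000000000000000000000000000000200000000000000000400000000000000000000000000000000000000000000000000000000000000000000000000000000000000000000000000000000000000000000000000000000000000000000000000000000000000000000000000000000000000000000000000000000000000000000000000000000000000000000000000000000000000000000000000000000000000000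000000000000000000000000000000000000000000000000000000000000000000000000000000000000000000000000000000000000000000000000000000000000000000000000000000000000000000000000000000000000000000000000000000000000000000000000000000000000000000000000000000000000000000000000000000000000000000000000000000000000000000000000000000000000000000000000000000000000000000000000000000000000000000000000000000000000000000000000000000000000000000000000000000000000000000000000000000000000000000000000000000000000000000000000000000000000000000000000000000000000000000000000000000000000000000000000800000000000000800000000000000000000000000000000000000000000000000000000000000000000000000000000000000000000000000000000000000000000000000000000000000000000000000000000000000000000000000000000000000000000000000000000000000000000000000000000000000000000000000000000000000000000000000000000000000000000000000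000000000000000000000000000000000000000000000000000000000000000000000000000000000000000000000000000000000000000000000000000000000000000000000000000000000000000000000000000000000000000000000000000000000000000000000000000000000000000000000000000000000000000000000000000000000000000000000000000000000000000000000000000000000000000000000000000000000000000000000000000000000000000000000000000000000000000000000000000000000000000000000000000000000000000000000000000000000000000000000000000000000000000000000000000000000000000000000000000000000000000000000000000000000000000000000000000000000000000000000000000000000000000000000000000000000000000000000000000000000000000000000000000000000000000000000000000000010000000000000000000000000000000000000000000000000000000000000000000000000000010000000000000000000000000010000100000000000010000100000000000000000000000000000000000000000000000000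0100000000000000100001003000000000803000000000000000000000000000000000000000000000000000000000000000000000000000000000000000000000000000000000000000000000000000000000000000000000000000000000000000000000000000000000000000000000000000000000000000000000000000000000000000000000000000000000000000000000000000000000000000000000000000000000000000000000100000000000000300000800000000000300000000000000000000000000000000000000000000000000000000000000000000000004000000000000004000000000000000000000000000000000000000000000000000000000000300000000000004000000000000000004000000000104004000000000000100000004000000000000000000000000000000000300c00c0000000000400000000000020400400400c00000080000400000000000000000000000000000000000000000000000000000010040000000000000000000000000030000000c00000000000000000000000000000000000000000000000000000000000000000000000000000000000000000000000000000000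0000000000000000000000000000000000000000000000000000000000000000000000100001000000000100000004100100000000000000000000001004300001002000000000300000000000000000000000000000000100000004000300000000000004000000000000000004000000004104004000000000000200000000000000000000000000000000000000000000000000000000000004000000000000000000000000000004000000000000000000000000000000000000000000000000001004300000003000004204004004008000000004000000000000003004000000000000002008000000000000000000000000000000000000000002000000000000000008000000000000000000000000001004000000000000000000000000000000000000000000000000000000000000000000000000000000000000000000000000000000000000000000000000000000000000000000000000000000000000000000000000000000000000401400800400000001401003000000000000001000000000000000c03000000000000000000000000000000000401400000c0000040000800000000000140800c00800000000080000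8000000000000c0000400000000000000000000000000000000140100100300000140800c00800c00000100c000000000000003008000000000000000000000000000000000000000000000000000000803000000000000000000000000000001000000000000000000000000000000000000000000000000000000000000000000000000000c0100000000000040000400000000000100c000000000000000000000000000000000000000000000000000000000000000000000000000000000000000000000000000000000000000000000000000000000000000000000000000000000000000000000000000000000000000000000000000000000000000000000000200003000000000000803000000000000000000000000000000000000000000000000000000000400000000000000000000000000100000000000000000c0000c00000000000000000000000000000000000000000000000000000000000000000030000000800000000000000000000000000000400000000000000000000000000000000000000000000000000000000300000000000000000c00000000000300c00000000000000000000000000000000000000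000000000000000000000000000000000000000000000000000000000000000000000000000000000000000000000000000000000000000000000000000000000000000000000000000000000000000000000000000000000000000000000000000000000000000000000000000000000000000000000000000000000000000000000000000000000000000000000000000000000000000000000000000000000000000000000000000000000000000000000000000000000000000000000000000000000000000000000000000000000000000000000000000000000000000000000000000000000000000000000000000000000000000000000000000000000000000000000000000000000000000000000000000000000000000000000000000000000000000000000000000000000000000000000000000000000000000000000000000000000000000000000000000000000000000000000000000000000000000000000000000000000000000000000000000000000000000000000000000000000000000000000000000000000000000000000000000000000000000000000000000000000000000000000000000000000000000000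000000000000000000000000000000000000000000000000000000000000000000000000000000000000000000000000000000000000000000000000000000000000000000000000000000000000000000000000000000000000000000000000000000000000000000000000000000000000000000000000000000000000000000000000000000000000000000000000000000000000000000000000000000000000000000000000000000000000000000000000000000000000000000000000000000000000000000000000000000000000000000000000000000000000000000000000000000000000000000000000000000000000000000000000000000000000000000000000000000000000000000000000000000000000000000000000000000000000000000000000000000000000000000000000000000000000000000000000000000000000000000000000000000000000000000000000000000000000000000000000000000000000000000000000000000000000000000000000000000000000000000000000000000000000000000000000000000000000000000000000000000000000000000000000000000000000000000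000000000000000000000000000000000000000000000000000000000000000000000000000000000000000000000000000000000000000000000000000000000000000000000000000000000000000000000000000000000000000000000000000000000000000000000000000000000000000000000000000000000000000000000000000000000000000000000000000000000000000000000000000000000000000000000000000000000000000000000000000000000000000000000000000000000000000000000000000000000000000000000000000000000000000000000000000000000000000000000000000000000000000000000000000000000000000000000000000000000000000000000000000000000000000000000000000000000000000000000000000000000000000000000000000000000000000000000000000000000000000000000000000000000000000000000000000000000000000000000000000000000000000000000000000000000000000000000000000000000000000000000000000000000000000000000000000000000000000000000000000000000000000000000000000000000000000000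000000000000000000000000000000000000000000000000000000000000000000000000000000000000000000000000000000000000000000000000000000000000000000000000000000000000000000000000000000000000000000000000000000000000000000000000000000000000000000000000000000000000000000000000000000000000000000000000000000000000000000000000000000000000000000000000000000000000000000000000000000000000000000000000000000000000000000000000000000000000000000000000000000000000000000000000000000000000000000000000000000000000000000000000000000000000000000000000000000000000000000000000000000000000000000000000000000000000000000000000000000000000000000000000000000000000000000000000000000000000000000000000000000000000000000000000000000000000000000000000000000000000000000000000000000000000000000000000000000000000000000000000000000000000000000000000000000000000000000000000000000000000000000000000000000000000000000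000000000000000000000000000000000000000000000000000000000000000000000000000000000000000000000000000000000000000000000000000000000000000000000000000000000000000000000000000000000000000000000000000000000000000000000000000000000000000000000000000000000000000000000000000000000000000000000000000000000000000000000000000000000800000000000000000000000000000000000000000000000000000000000000000000000000000000000000000000000000000000000000000000000000000000000000000000000000000000000000000000000000000000000000000000000000000000000000000000000000000000000000000000000000000000000000000000000000000000000000000000000000000000000000000000000000000000000000000000000000000000000000000000000000000000000000000000000000000000000000000000000000000000000000000000000000000000000000000000000000000000000000000000000000000000000000000000000000000000000000000000000000000000000000000000000000000000000000000000000000000000000000000000000000000000000000000000000000000000000000000000000000000000000000000000000000000000000000000000000000000000000000000000000000000000000000000000000000000000000000000000000000000000000000000000000000000000000000000000000000000000000000000000000000000000000000000000000000000000000000000000000000000000000000000000000000000000000000000000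

def pF : ℕ → List (List ℕ)
  | 4 => [[0, 1, 1, 1, 1, 0]]
  | 5 => [[0, 1, 1, 1, 1, 1], [0, 1, 1, 1, 2, 0], [0, 1, 1, 2, 1, 0], [0, 1, 2, 1, 1, 0], [0, 2, 1, 1, 1, 0], [1, 1, 1, 1, 1, 0]]
  | _ => [[0, 1, 1, 1, 1, 2], [0, 1, 1, 1, 2, 1], [0, 1, 1, 1, 3, 0], [0, 1, 1, 2, 1, 1], [0, 1, 1, 2, 2, 0], [0, 1, 1, 3, 1, 0], [0, 1, 2, 1, 1, 1], [0, 1, 2, 1, 2, 0], [0, 1, 2, 2, 1, 0], [0, 1, 3, 1, 1, 0], [0, 2, 1, 1, 1, 1], [0, 2, 1, 1, 2, 0], [0, 2, 1, 2, 1, 0], [0, 2, 2, 1, 1, 0], [0, 3, 1, 1, 1, 0], [1, 1, 1, 1, 1, 1], [1, 1, 1, 1, 2, 0], [1, 1, 1, 2, 1, 0], [1, 1, 2, 1, 1, 0], [1, 2, 1, 1, 1, 0], [2, 1, 1, 1, 1, 0]]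

def pD : ℕ → List (List ℕ)
  | 5 => [[0, 1, 1, 1, 1, 1, 0]]
  | _ => [[0, 1, 1, 1, 1, 1, 1], [0, 1, 1, 1, 1, 2, 0], [0, 1, 1, 1, 2, 1, 0], [0, 1, 1, 2, 1, 1, 0], [0, 1, 2, 1, 1, 1, 0], [0, 2, 1, 1, 1, 1, 0], [1, 1, 1, 1, 1, 1, 0]]

def rho (r : A) (i : A) : A := if i = 4 then r else Fin.ofNat 5 ((i.val + r.val) % 4)

def sw (i : A) : A := if i = 0 then 4 else if i = 4 then 0 else i

def mp (ρ : A → A) (c : ℕ) (p : List (Wd × ℕ)) : List (Wd × ℕ) :=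
  p.map fun q => (⟨ρ q.1.head, q.1.tail.map ρ⟩, c * q.2)

def hL : List (Wd × ℕ) := mp (rho 0) 2 bqL ++ (mp (rho 1) 2 bqL ++ (mp (rho 2) 2 bqL ++ mp (rho 3) 2 bqL))

def fL : List (Wd × ℕ) := stL ++ hL


def dL : List (Wd × ℕ) := mp id 2 bqL ++ mp sw 2 bqL

def code (u : List A) : ℕ := u.foldl (fun acc x => acc * 6 + (x.val + 1)) 0

def frc (n : ℕ) (k : ℕ → Bool) : Bool := Nat.casesOn n (k 0) fun m => k (m + 1)

lemma frc_eq (n : ℕ) (k : ℕ → Bool) : frc n k = k n := by cases n <;> rfl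

def lk (c : ℕ) : ℕ := Nat.land (Nat.shiftRight tab (Nat.mul 2 c)) 3

def stV (g : ℕ → ℕ) (ca cb sb c0 c1 c2 c3 c4 s0 s1 s2 s3 s4 : ℕ) : ℕ :=
  (Nat.add (Nat.mul 1 (g (Nat.add (Nat.mul (Nat.add (Nat.mul (Nat.add (Nat.mul (Nat.add (Nat.mul (Nat.add (Nat.mul ca s0) c0) s1) c1) s2) c2) s3) c3) sb) cb)))
    (Nat.add (Nat.mul 3 (g (Nat.add (Nat.mul (Nat.add (Nat.mul (Nat.add (Nat.mul (Nat.add (Nat.mul (Nat.add (Nat.mul ca s0) c0) s1) c1) s3) c3) s2) c2) sb) cb)))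
    (Nat.add (Nat.mul 3 (g (Nat.add (Nat.mul (Nat.add (Nat.mul (Nat.add (Nat.mul (Nat.add (Nat.mul (Nat.add (Nat.mul ca s0) c0) s2) c2) s1) c1) s3) c3) sb) cb)))
    (Nat.add (Nat.mul 1 (g (Nat.add (Nat.mul (Nat.add (Nat.mul (Nat.add (Nat.mul (Nat.add (Nat.mul (Nat.add (Nat.mul ca s0) c0) s2) c2) s3) c3) s1) c1) sb) cb)))
    (Nat.add (Nat.mul 1 (g (Nat.add (Nat.mul (Nat.add (Nat.mul (Nat.add (Nat.mul (Nat.add (Nat.mul (Nat.add (Nat.mul ca s0) c0) s3) c3) s1) c1) s2) c2) sb) cb)))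
    (Nat.add (Nat.mul 3 (g (Nat.add (Nat.mul (Nat.add (Nat.mul (Nat.add (Nat.mul (Nat.add (Nat.mul (Nat.add (Nat.mul ca s0) c0) s3) c3) s2) c2) s1) c1) sb) cb)))
    (Nat.add (Nat.mul 3 (g (Nat.add (Nat.mul (Nat.add (Nat.mul (Nat.add (Nat.mul (Nat.add (Nat.mul (Nat.add (Nat.mul ca s1) c1) s0) c0) s2) c2) s3) c3) sb) cb)))
    (Nat.add (Nat.mul 1 (g (Nat.add (Nat.mul (Nat.add (Nat.mul (Nat.add (Nat.mul (Nat.add (Nat.mul (Nat.add (Nat.mul ca s1) c1) s0) c0) s3) c3) s2) c2) sb) cb)))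
    (Nat.add (Nat.mul 1 (g (Nat.add (Nat.mul (Nat.add (Nat.mul (Nat.add (Nat.mul (Nat.add (Nat.mul (Nat.add (Nat.mul ca s1) c1) s2) c2) s0) c0) s3) c3) sb) cb)))
    (Nat.add (Nat.mul 3 (g (Nat.add (Nat.mul (Nat.add (Nat.mul (Nat.add (Nat.mul (Nat.add (Nat.mul (Nat.add (Nat.mul ca s1) c1) s2) c2) s3) c3) s0) c0) sb) cb)))
    (Nat.add (Nat.mul 3 (g (Nat.add (Nat.mul (Nat.add (Nat.mul (Nat.add (Nat.mul (Nat.add (Nat.mul (Nat.add (Nat.mul ca s1) c1) s3) c3) s0) c0) s2) c2) sb) cb)))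
    (Nat.add (Nat.mul 1 (g (Nat.add (Nat.mul (Nat.add (Nat.mul (Nat.add (Nat.mul (Nat.add (Nat.mul (Nat.add (Nat.mul ca s1) c1) s3) c3) s2) c2) s0) c0) sb) cb)))
    (Nat.add (Nat.mul 1 (g (Nat.add (Nat.mul (Nat.add (Nat.mul (Nat.add (Nat.mul (Nat.add (Nat.mul (Nat.add (Nat.mul ca s2) c2) s0) c0) s1) c1) s3) c3) sb) cb)))
    (Nat.add (Nat.mul 3 (g (Nat.add (Nat.mul (Nat.add (Nat.mul (Nat.add (Nat.mul (Nat.add (Nat.mul (Nat.add (Nat.mul ca s2) c2) s0) c0) s3) c3) s1) c1) sb) cb)))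
    (Nat.add (Nat.mul 3 (g (Nat.add (Nat.mul (Nat.add (Nat.mul (Nat.add (Nat.mul (Nat.add (Nat.mul (Nat.add (Nat.mul ca s2) c2) s1) c1) s0) c0) s3) c3) sb) cb)))
    (Nat.add (Nat.mul 1 (g (Nat.add (Nat.mul (Nat.add (Nat.mul (Nat.add (Nat.mul (Nat.add (Nat.mul (Nat.add (Nat.mul ca s2) c2) s1) c1) s3) c3) s0) c0) sb) cb)))
    (Nat.add (Nat.mul 1 (g (Nat.add (Nat.mul (Nat.add (Nat.mul (Nat.add (Nat.mul (Nat.add (Nat.mul (Nat.add (Nat.mul ca s2) c2) s3) c3) s0) c0) s1) c1) sb) cb)))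
    (Nat.add (Nat.mul 3 (g (Nat.add (Nat.mul (Nat.add (Nat.mul (Nat.add (Nat.mul (Nat.add (Nat.mul (Nat.add (Nat.mul ca s2) c2) s3) c3) s1) c1) s0) c0) sb) cb)))
    (Nat.add (Nat.mul 3 (g (Nat.add (Nat.mul (Nat.add (Nat.mul (Nat.add (Nat.mul (Nat.add (Nat.mul (Nat.add (Nat.mul ca s3) c3) s0) c0) s1) c1) s2) c2) sb) cb)))
    (Nat.add (Nat.mul 1 (g (Nat.add (Nat.mul (Nat.add (Nat.mul (Nat.add (Nat.mul (Nat.add (Nat.mul (Nat.add (Nat.mul ca s3) c3) s0) c0) s2) c2) s1) c1) sb) cb)))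
    (Nat.add (Nat.mul 1 (g (Nat.add (Nat.mul (Nat.add (Nat.mul (Nat.add (Nat.mul (Nat.add (Nat.mul (Nat.add (Nat.mul ca s3) c3) s1) c1) s0) c0) s2) c2) sb) cb)))
    (Nat.add (Nat.mul 3 (g (Nat.add (Nat.mul (Nat.add (Nat.mul (Nat.add (Nat.mul (Nat.add (Nat.mul (Nat.add (Nat.mul ca s3) c3) s1) c1) s2) c2) s0) c0) sb) cb)))
    (Nat.add (Nat.mul 3 (g (Nat.add (Nat.mul (Nat.add (Nat.mul (Nat.add (Nat.mul (Nat.add (Nat.mul (Nat.add (Nat.mul ca s3) c3) s2) c2) s0) c0) s1) c1) sb) cb)))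
    (Nat.add (Nat.mul 1 (g (Nat.add (Nat.mul (Nat.add (Nat.mul (Nat.add (Nat.mul (Nat.add (Nat.mul (Nat.add (Nat.mul ca s3) c3) s2) c2) s1) c1) s0) c0) sb) cb))) 0))))))))))))))))))))))))

def fV (g : ℕ → ℕ) (ca cb sb c0 c1 c2 c3 c4 s0 s1 s2 s3 s4 : ℕ) : ℕ :=
  (Nat.add (Nat.mul 1 (g (Nat.add (Nat.mul (Nat.add (Nat.mul (Nat.add (Nat.mul (Nat.add (Nat.mul (Nat.add (Nat.mul ca s0) c0) s1) c1) s2) c2) s3) c3) sb) cb)))
    (Nat.add (Nat.mul 3 (g (Nat.add (Nat.mul (Nat.add (Nat.mul (Nat.add (Nat.mul (Nat.add (Nat.mul (Nat.add (Nat.mul ca s0) c0) s1) c1) s3) c3) s2) c2) sb) cb)))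
    (Nat.add (Nat.mul 3 (g (Nat.add (Nat.mul (Nat.add (Nat.mul (Nat.add (Nat.mul (Nat.add (Nat.mul (Nat.add (Nat.mul ca s0) c0) s2) c2) s1) c1) s3) c3) sb) cb)))
    (Nat.add (Nat.mul 1 (g (Nat.add (Nat.mul (Nat.add (Nat.mul (Nat.add (Nat.mul (Nat.add (Nat.mul (Nat.add (Nat.mul ca s0) c0) s2) c2) s3) c3) s1) c1) sb) cb)))
    (Nat.add (Nat.mul 1 (g (Nat.add (Nat.mul (Nat.add (Nat.mul (Nat.add (Nat.mul (Nat.add (Nat.mul (Nat.add (Nat.mul ca s0) c0) s3) c3) s1) c1) s2) c2) sb) cb)))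
    (Nat.add (Nat.mul 3 (g (Nat.add (Nat.mul (Nat.add (Nat.mul (Nat.add (Nat.mul (Nat.add (Nat.mul (Nat.add (Nat.mul ca s0) c0) s3) c3) s2) c2) s1) c1) sb) cb)))
    (Nat.add (Nat.mul 3 (g (Nat.add (Nat.mul (Nat.add (Nat.mul (Nat.add (Nat.mul (Nat.add (Nat.mul (Nat.add (Nat.mul ca s1) c1) s0) c0) s2) c2) s3) c3) sb) cb)))
    (Nat.add (Nat.mul 1 (g (Nat.add (Nat.mul (Nat.add (Nat.mul (Nat.add (Nat.mul (Nat.add (Nat.mul (Nat.add (Nat.mul ca s1) c1) s0) c0) s3) c3) s2) c2) sb) cb)))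
    (Nat.add (Nat.mul 1 (g (Nat.add (Nat.mul (Nat.add (Nat.mul (Nat.add (Nat.mul (Nat.add (Nat.mul (Nat.add (Nat.mul ca s1) c1) s2) c2) s0) c0) s3) c3) sb) cb)))
    (Nat.add (Nat.mul 3 (g (Nat.add (Nat.mul (Nat.add (Nat.mul (Nat.add (Nat.mul (Nat.add (Nat.mul (Nat.add (Nat.mul ca s1) c1) s2) c2) s3) c3) s0) c0) sb) cb)))
    (Nat.add (Nat.mul 3 (g (Nat.add (Nat.mul (Nat.add (Nat.mul (Nat.add (Nat.mul (Nat.add (Nat.mul (Nat.add (Nat.mul ca s1) c1) s3) c3) s0) c0) s2) c2) sb) cb)))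
    (Nat.add (Nat.mul 1 (g (Nat.add (Nat.mul (Nat.add (Nat.mul (Nat.add (Nat.mul (Nat.add (Nat.mul (Nat.add (Nat.mul ca s1) c1) s3) c3) s2) c2) s0) c0) sb) cb)))
    (Nat.add (Nat.mul 1 (g (Nat.add (Nat.mul (Nat.add (Nat.mul (Nat.add (Nat.mul (Nat.add (Nat.mul (Nat.add (Nat.mul ca s2) c2) s0) c0) s1) c1) s3) c3) sb) cb)))
    (Nat.add (Nat.mul 3 (g (Nat.add (Nat.mul (Nat.add (Nat.mul (Nat.add (Nat.mul (Nat.add (Nat.mul (Nat.add (Nat.mul ca s2) c2) s0) c0) s3) c3) s1) c1) sb) cb)))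
    (Nat.add (Nat.mul 3 (g (Nat.add (Nat.mul (Nat.add (Nat.mul (Nat.add (Nat.mul (Nat.add (Nat.mul (Nat.add (Nat.mul ca s2) c2) s1) c1) s0) c0) s3) c3) sb) cb)))
    (Nat.add (Nat.mul 1 (g (Nat.add (Nat.mul (Nat.add (Nat.mul (Nat.add (Nat.mul (Nat.add (Nat.mul (Nat.add (Nat.mul ca s2) c2) s1) c1) s3) c3) s0) c0) sb) cb)))
    (Nat.add (Nat.mul 1 (g (Nat.add (Nat.mul (Nat.add (Nat.mul (Nat.add (Nat.mul (Nat.add (Nat.mul (Nat.add (Nat.mul ca s2) c2) s3) c3) s0) c0) s1) c1) sb) cb)))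
    (Nat.add (Nat.mul 3 (g (Nat.add (Nat.mul (Nat.add (Nat.mul (Nat.add (Nat.mul (Nat.add (Nat.mul (Nat.add (Nat.mul ca s2) c2) s3) c3) s1) c1) s0) c0) sb) cb)))
    (Nat.add (Nat.mul 3 (g (Nat.add (Nat.mul (Nat.add (Nat.mul (Nat.add (Nat.mul (Nat.add (Nat.mul (Nat.add (Nat.mul ca s3) c3) s0) c0) s1) c1) s2) c2) sb) cb)))
    (Nat.add (Nat.mul 1 (g (Nat.add (Nat.mul (Nat.add (Nat.mul (Nat.add (Nat.mul (Nat.add (Nat.mul (Nat.add (Nat.mul ca s3) c3) s0) c0) s2) c2) s1) c1) sb) cb)))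
    (Nat.add (Nat.mul 1 (g (Nat.add (Nat.mul (Nat.add (Nat.mul (Nat.add (Nat.mul (Nat.add (Nat.mul (Nat.add (Nat.mul ca s3) c3) s1) c1) s0) c0) s2) c2) sb) cb)))
    (Nat.add (Nat.mul 3 (g (Nat.add (Nat.mul (Nat.add (Nat.mul (Nat.add (Nat.mul (Nat.add (Nat.mul (Nat.add (Nat.mul ca s3) c3) s1) c1) s2) c2) s0) c0) sb) cb)))
    (Nat.add (Nat.mul 3 (g (Nat.add (Nat.mul (Nat.add (Nat.mul (Nat.add (Nat.mul (Nat.add (Nat.mul (Nat.add (Nat.mul ca s3) c3) s2) c2) s0) c0) s1) c1) sb) cb)))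
    (Nat.add (Nat.mul 1 (g (Nat.add (Nat.mul (Nat.add (Nat.mul (Nat.add (Nat.mul (Nat.add (Nat.mul (Nat.add (Nat.mul ca s3) c3) s2) c2) s1) c1) s0) c0) sb) cb)))
    (Nat.add (Nat.mul 2 (g (Nat.add (Nat.mul (Nat.add (Nat.mul (Nat.add (Nat.mul (Nat.add (Nat.mul (Nat.add (Nat.mul (Nat.add (Nat.mul ca s0) c0) s0) c0) s1) c1) s2) c2) s3) c3) sb) cb)))
    (Nat.add (Nat.mul 2 (g (Nat.add (Nat.mul (Nat.add (Nat.mul (Nat.add (Nat.mul (Nat.add (Nat.mul (Nat.add (Nat.mul (Nat.add (Nat.mul ca s0) c0) s0) c0) s1) c1) s3) c3) s2) c2) sb) cb)))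
    (Nat.add (Nat.mul 2 (g (Nat.add (Nat.mul (Nat.add (Nat.mul (Nat.add (Nat.mul (Nat.add (Nat.mul (Nat.add (Nat.mul (Nat.add (Nat.mul ca s0) c0) s1) c1) s0) c0) s3) c3) s2) c2) sb) cb)))
    (Nat.add (Nat.mul 2 (g (Nat.add (Nat.mul (Nat.add (Nat.mul (Nat.add (Nat.mul (Nat.add (Nat.mul (Nat.add (Nat.mul (Nat.add (Nat.mul ca s0) c0) s1) c1) s3) c3) s2) c2) s0) c0) sb) cb)))
    (Nat.add (Nat.mul 2 (g (Nat.add (Nat.mul (Nat.add (Nat.mul (Nat.add (Nat.mul (Nat.add (Nat.mul (Nat.add (Nat.mul (Nat.add (Nat.mul ca s0) c0) s2) c2) s0) c0) s1) c1) s3) c3) sb) cb)))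
    (Nat.add (Nat.mul 2 (g (Nat.add (Nat.mul (Nat.add (Nat.mul (Nat.add (Nat.mul (Nat.add (Nat.mul (Nat.add (Nat.mul (Nat.add (Nat.mul ca s0) c0) s2) c2) s0) c0) s3) c3) s1) c1) sb) cb)))
    (Nat.add (Nat.mul 2 (g (Nat.add (Nat.mul (Nat.add (Nat.mul (Nat.add (Nat.mul (Nat.add (Nat.mul (Nat.add (Nat.mul (Nat.add (Nat.mul ca s0) c0) s2) c2) s1) c1) s3) c3) s0) c0) sb) cb)))
    (Nat.add (Nat.mul 2 (g (Nat.add (Nat.mul (Nat.add (Nat.mul (Nat.add (Nat.mul (Nat.add (Nat.mul (Nat.add (Nat.mul (Nat.add (Nat.mul ca s0) c0) s2) c2) s3) c3) s0) c0) s1) c1) sb) cb)))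
    (Nat.add (Nat.mul 2 (g (Nat.add (Nat.mul (Nat.add (Nat.mul (Nat.add (Nat.mul (Nat.add (Nat.mul (Nat.add (Nat.mul (Nat.add (Nat.mul ca s0) c0) s3) c3) s0) c0) s1) c1) s2) c2) sb) cb)))
    (Nat.add (Nat.mul 2 (g (Nat.add (Nat.mul (Nat.add (Nat.mul (Nat.add (Nat.mul (Nat.add (Nat.mul (Nat.add (Nat.mul (Nat.add (Nat.mul ca s0) c0) s3) c3) s0) c0) s2) c2) s1) c1) sb) cb)))
    (Nat.add (Nat.mul 2 (g (Nat.add (Nat.mul (Nat.add (Nat.mul (Nat.add (Nat.mul (Nat.add (Nat.mul (Nat.add (Nat.mul (Nat.add (Nat.mul ca s0) c0) s3) c3) s1) c1) s0) c0) s2) c2) sb) cb)))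
    (Nat.add (Nat.mul 2 (g (Nat.add (Nat.mul (Nat.add (Nat.mul (Nat.add (Nat.mul (Nat.add (Nat.mul (Nat.add (Nat.mul (Nat.add (Nat.mul ca s0) c0) s3) c3) s2) c2) s0) c0) s1) c1) sb) cb)))
    (Nat.add (Nat.mul 2 (g (Nat.add (Nat.mul (Nat.add (Nat.mul (Nat.add (Nat.mul (Nat.add (Nat.mul (Nat.add (Nat.mul (Nat.add (Nat.mul ca s1) c1) s0) c0) s0) c0) s3) c3) s2) c2) sb) cb)))
    (Nat.add (Nat.mul 2 (g (Nat.add (Nat.mul (Nat.add (Nat.mul (Nat.add (Nat.mul (Nat.add (Nat.mul (Nat.add (Nat.mul (Nat.add (Nat.mul ca s1) c1) s0) c0) s2) c2) s0) c0) s3) c3) sb) cb)))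
    (Nat.add (Nat.mul 2 (g (Nat.add (Nat.mul (Nat.add (Nat.mul (Nat.add (Nat.mul (Nat.add (Nat.mul (Nat.add (Nat.mul (Nat.add (Nat.mul ca s1) c1) s0) c0) s2) c2) s3) c3) s0) c0) sb) cb)))
    (Nat.add (Nat.mul 2 (g (Nat.add (Nat.mul (Nat.add (Nat.mul (Nat.add (Nat.mul (Nat.add (Nat.mul (Nat.add (Nat.mul (Nat.add (Nat.mul ca s1) c1) s0) c0) s3) c3) s2) c2) s0) c0) sb) cb)))
    (Nat.add (Nat.mul 2 (g (Nat.add (Nat.mul (Nat.add (Nat.mul (Nat.add (Nat.mul (Nat.add (Nat.mul (Nat.add (Nat.mul (Nat.add (Nat.mul ca s1) c1) s2) c2) s0) c0) s3) c3) s0) c0) sb) cb)))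
    (Nat.add (Nat.mul 2 (g (Nat.add (Nat.mul (Nat.add (Nat.mul (Nat.add (Nat.mul (Nat.add (Nat.mul (Nat.add (Nat.mul (Nat.add (Nat.mul ca s1) c1) s3) c3) s2) c2) s0) c0) s0) c0) sb) cb)))
    (Nat.add (Nat.mul 2 (g (Nat.add (Nat.mul (Nat.add (Nat.mul (Nat.add (Nat.mul (Nat.add (Nat.mul (Nat.add (Nat.mul (Nat.add (Nat.mul ca s2) c2) s0) c0) s1) c1) s3) c3) s0) c0) sb) cb)))
    (Nat.add (Nat.mul 2 (g (Nat.add (Nat.mul (Nat.add (Nat.mul (Nat.add (Nat.mul (Nat.add (Nat.mul (Nat.add (Nat.mul (Nat.add (Nat.mul ca s2) c2) s0) c0) s3) c3) s0) c0) s1) c1) sb) cb)))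
    (Nat.add (Nat.mul 2 (g (Nat.add (Nat.mul (Nat.add (Nat.mul (Nat.add (Nat.mul (Nat.add (Nat.mul (Nat.add (Nat.mul (Nat.add (Nat.mul ca s2) c2) s1) c1) s0) c0) s0) c0) s3) c3) sb) cb)))
    (Nat.add (Nat.mul 2 (g (Nat.add (Nat.mul (Nat.add (Nat.mul (Nat.add (Nat.mul (Nat.add (Nat.mul (Nat.add (Nat.mul (Nat.add (Nat.mul ca s2) c2) s3) c3) s1) c1) s0) c0) s0) c0) sb) cb)))
    (Nat.add (Nat.mul 2 (g (Nat.add (Nat.mul (Nat.add (Nat.mul (Nat.add (Nat.mul (Nat.add (Nat.mul (Nat.add (Nat.mul (Nat.add (Nat.mul ca s3) c3) s0) c0) s1) c1) s0) c0) s2) c2) sb) cb)))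
    (Nat.add (Nat.mul 2 (g (Nat.add (Nat.mul (Nat.add (Nat.mul (Nat.add (Nat.mul (Nat.add (Nat.mul (Nat.add (Nat.mul (Nat.add (Nat.mul ca s3) c3) s0) c0) s2) c2) s0) c0) s1) c1) sb) cb)))
    (Nat.add (Nat.mul 2 (g (Nat.add (Nat.mul (Nat.add (Nat.mul (Nat.add (Nat.mul (Nat.add (Nat.mul (Nat.add (Nat.mul (Nat.add (Nat.mul ca s3) c3) s1) c1) s2) c2) s0) c0) s0) c0) sb) cb)))
    (Nat.add (Nat.mul 2 (g (Nat.add (Nat.mul (Nat.add (Nat.mul (Nat.add (Nat.mul (Nat.add (Nat.mul (Nat.add (Nat.mul (Nat.add (Nat.mul ca s3) c3) s2) c2) s1) c1) s0) c0) s0) c0) sb) cb)))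
    (Nat.add (Nat.mul 2 (g (Nat.add (Nat.mul (Nat.add (Nat.mul (Nat.add (Nat.mul (Nat.add (Nat.mul (Nat.add (Nat.mul (Nat.add (Nat.mul ca s1) c1) s1) c1) s2) c2) s3) c3) s0) c0) sb) cb)))
    (Nat.add (Nat.mul 2 (g (Nat.add (Nat.mul (Nat.add (Nat.mul (Nat.add (Nat.mul (Nat.add (Nat.mul (Nat.add (Nat.mul (Nat.add (Nat.mul ca s1) c1) s1) c1) s2) c2) s0) c0) s3) c3) sb) cb)))
    (Nat.add (Nat.mul 2 (g (Nat.add (Nat.mul (Nat.add (Nat.mul (Nat.add (Nat.mul (Nat.add (Nat.mul (Nat.add (Nat.mul (Nat.add (Nat.mul ca s1) c1) s2) c2) s1) c1) s0) c0) s3) c3) sb) cb)))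
    (Nat.add (Nat.mul 2 (g (Nat.add (Nat.mul (Nat.add (Nat.mul (Nat.add (Nat.mul (Nat.add (Nat.mul (Nat.add (Nat.mul (Nat.add (Nat.mul ca s1) c1) s2) c2) s0) c0) s3) c3) s1) c1) sb) cb)))
    (Nat.add (Nat.mul 2 (g (Nat.add (Nat.mul (Nat.add (Nat.mul (Nat.add (Nat.mul (Nat.add (Nat.mul (Nat.add (Nat.mul (Nat.add (Nat.mul ca s1) c1) s3) c3) s1) c1) s2) c2) s0) c0) sb) cb)))
    (Nat.add (Nat.mul 2 (g (Nat.add (Nat.mul (Nat.add (Nat.mul (Nat.add (Nat.mul (Nat.add (Nat.mul (Nat.add (Nat.mul (Nat.add (Nat.mul ca s1) c1) s3) c3) s1) c1) s0) c0) s2) c2) sb) cb)))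
    (Nat.add (Nat.mul 2 (g (Nat.add (Nat.mul (Nat.add (Nat.mul (Nat.add (Nat.mul (Nat.add (Nat.mul (Nat.add (Nat.mul (Nat.add (Nat.mul ca s1) c1) s3) c3) s2) c2) s0) c0) s1) c1) sb) cb)))
    (Nat.add (Nat.mul 2 (g (Nat.add (Nat.mul (Nat.add (Nat.mul (Nat.add (Nat.mul (Nat.add (Nat.mul (Nat.add (Nat.mul (Nat.add (Nat.mul ca s1) c1) s3) c3) s0) c0) s1) c1) s2) c2) sb) cb)))
    (Nat.add (Nat.mul 2 (g (Nat.add (Nat.mul (Nat.add (Nat.mul (Nat.add (Nat.mul (Nat.add (Nat.mul (Nat.add (Nat.mul (Nat.add (Nat.mul ca s1) c1) s0) c0) s1) c1) s2) c2) s3) c3) sb) cb)))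
    (Nat.add (Nat.mul 2 (g (Nat.add (Nat.mul (Nat.add (Nat.mul (Nat.add (Nat.mul (Nat.add (Nat.mul (Nat.add (Nat.mul (Nat.add (Nat.mul ca s1) c1) s0) c0) s1) c1) s3) c3) s2) c2) sb) cb)))
    (Nat.add (Nat.mul 2 (g (Nat.add (Nat.mul (Nat.add (Nat.mul (Nat.add (Nat.mul (Nat.add (Nat.mul (Nat.add (Nat.mul (Nat.add (Nat.mul ca s1) c1) s0) c0) s2) c2) s1) c1) s3) c3) sb) cb)))
    (Nat.add (Nat.mul 2 (g (Nat.add (Nat.mul (Nat.add (Nat.mul (Nat.add (Nat.mul (Nat.add (Nat.mul (Nat.add (Nat.mul (Nat.add (Nat.mul ca s1) c1) s0) c0) s3) c3) s1) c1) s2) c2) sb) cb)))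
    (Nat.add (Nat.mul 2 (g (Nat.add (Nat.mul (Nat.add (Nat.mul (Nat.add (Nat.mul (Nat.add (Nat.mul (Nat.add (Nat.mul (Nat.add (Nat.mul ca s2) c2) s1) c1) s1) c1) s0) c0) s3) c3) sb) cb)))
    (Nat.add (Nat.mul 2 (g (Nat.add (Nat.mul (Nat.add (Nat.mul (Nat.add (Nat.mul (Nat.add (Nat.mul (Nat.add (Nat.mul (Nat.add (Nat.mul ca s2) c2) s1) c1) s3) c3) s1) c1) s0) c0) sb) cb)))
    (Nat.add (Nat.mul 2 (g (Nat.add (Nat.mul (Nat.add (Nat.mul (Nat.add (Nat.mul (Nat.add (Nat.mul (Nat.add (Nat.mul (Nat.add (Nat.mul ca s2) c2) s1) c1) s3) c3) s0) c0) s1) c1) sb) cb)))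
    (Nat.add (Nat.mul 2 (g (Nat.add (Nat.mul (Nat.add (Nat.mul (Nat.add (Nat.mul (Nat.add (Nat.mul (Nat.add (Nat.mul (Nat.add (Nat.mul ca s2) c2) s1) c1) s0) c0) s3) c3) s1) c1) sb) cb)))
    (Nat.add (Nat.mul 2 (g (Nat.add (Nat.mul (Nat.add (Nat.mul (Nat.add (Nat.mul (Nat.add (Nat.mul (Nat.add (Nat.mul (Nat.add (Nat.mul ca s2) c2) s3) c3) s1) c1) s0) c0) s1) c1) sb) cb)))
    (Nat.add (Nat.mul 2 (g (Nat.add (Nat.mul (Nat.add (Nat.mul (Nat.add (Nat.mul (Nat.add (Nat.mul (Nat.add (Nat.mul (Nat.add (Nat.mul ca s2) c2) s0) c0) s3) c3) s1) c1) s1) c1) sb) cb)))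
    (Nat.add (Nat.mul 2 (g (Nat.add (Nat.mul (Nat.add (Nat.mul (Nat.add (Nat.mul (Nat.add (Nat.mul (Nat.add (Nat.mul (Nat.add (Nat.mul ca s3) c3) s1) c1) s2) c2) s0) c0) s1) c1) sb) cb)))
    (Nat.add (Nat.mul 2 (g (Nat.add (Nat.mul (Nat.add (Nat.mul (Nat.add (Nat.mul (Nat.add (Nat.mul (Nat.add (Nat.mul (Nat.add (Nat.mul ca s3) c3) s1) c1) s0) c0) s1) c1) s2) c2) sb) cb)))
    (Nat.add (Nat.mul 2 (g (Nat.add (Nat.mul (Nat.add (Nat.mul (Nat.add (Nat.mul (Nat.add (Nat.mul (Nat.add (Nat.mul (Nat.add (Nat.mul ca s3) c3) s2) c2) s1) c1) s1) c1) s0) c0) sb) cb)))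
    (Nat.add (Nat.mul 2 (g (Nat.add (Nat.mul (Nat.add (Nat.mul (Nat.add (Nat.mul (Nat.add (Nat.mul (Nat.add (Nat.mul (Nat.add (Nat.mul ca s3) c3) s0) c0) s2) c2) s1) c1) s1) c1) sb) cb)))
    (Nat.add (Nat.mul 2 (g (Nat.add (Nat.mul (Nat.add (Nat.mul (Nat.add (Nat.mul (Nat.add (Nat.mul (Nat.add (Nat.mul (Nat.add (Nat.mul ca s0) c0) s1) c1) s2) c2) s1) c1) s3) c3) sb) cb)))
    (Nat.add (Nat.mul 2 (g (Nat.add (Nat.mul (Nat.add (Nat.mul (Nat.add (Nat.mul (Nat.add (Nat.mul (Nat.add (Nat.mul (Nat.add (Nat.mul ca s0) c0) s1) c1) s3) c3) s1) c1) s2) c2) sb) cb)))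
    (Nat.add (Nat.mul 2 (g (Nat.add (Nat.mul (Nat.add (Nat.mul (Nat.add (Nat.mul (Nat.add (Nat.mul (Nat.add (Nat.mul (Nat.add (Nat.mul ca s0) c0) s2) c2) s3) c3) s1) c1) s1) c1) sb) cb)))
    (Nat.add (Nat.mul 2 (g (Nat.add (Nat.mul (Nat.add (Nat.mul (Nat.add (Nat.mul (Nat.add (Nat.mul (Nat.add (Nat.mul (Nat.add (Nat.mul ca s0) c0) s3) c3) s2) c2) s1) c1) s1) c1) sb) cb)))
    (Nat.add (Nat.mul 2 (g (Nat.add (Nat.mul (Nat.add (Nat.mul (Nat.add (Nat.mul (Nat.add (Nat.mul (Nat.add (Nat.mul (Nat.add (Nat.mul ca s2) c2) s2) c2) s3) c3) s0) c0) s1) c1) sb) cb)))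
    (Nat.add (Nat.mul 2 (g (Nat.add (Nat.mul (Nat.add (Nat.mul (Nat.add (Nat.mul (Nat.add (Nat.mul (Nat.add (Nat.mul (Nat.add (Nat.mul ca s2) c2) s2) c2) s3) c3) s1) c1) s0) c0) sb) cb)))
    (Nat.add (Nat.mul 2 (g (Nat.add (Nat.mul (Nat.add (Nat.mul (Nat.add (Nat.mul (Nat.add (Nat.mul (Nat.add (Nat.mul (Nat.add (Nat.mul ca s2) c2) s3) c3) s2) c2) s1) c1) s0) c0) sb) cb)))
    (Nat.add (Nat.mul 2 (g (Nat.add (Nat.mul (Nat.add (Nat.mul (Nat.add (Nat.mul (Nat.add (Nat.mul (Nat.add (Nat.mul (Nat.add (Nat.mul ca s2) c2) s3) c3) s1) c1) s0) c0) s2) c2) sb) cb)))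
    (Nat.add (Nat.mul 2 (g (Nat.add (Nat.mul (Nat.add (Nat.mul (Nat.add (Nat.mul (Nat.add (Nat.mul (Nat.add (Nat.mul (Nat.add (Nat.mul ca s2) c2) s0) c0) s2) c2) s3) c3) s1) c1) sb) cb)))
    (Nat.add (Nat.mul 2 (g (Nat.add (Nat.mul (Nat.add (Nat.mul (Nat.add (Nat.mul (Nat.add (Nat.mul (Nat.add (Nat.mul (Nat.add (Nat.mul ca s2) c2) s0) c0) s2) c2) s1) c1) s3) c3) sb) cb)))
    (Nat.add (Nat.mul 2 (g (Nat.add (Nat.mul (Nat.add (Nat.mul (Nat.add (Nat.mul (Nat.add (Nat.mul (Nat.add (Nat.mul (Nat.add (Nat.mul ca s2) c2) s0) c0) s3) c3) s1) c1) s2) c2) sb) cb)))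
    (Nat.add (Nat.mul 2 (g (Nat.add (Nat.mul (Nat.add (Nat.mul (Nat.add (Nat.mul (Nat.add (Nat.mul (Nat.add (Nat.mul (Nat.add (Nat.mul ca s2) c2) s0) c0) s1) c1) s2) c2) s3) c3) sb) cb)))
    (Nat.add (Nat.mul 2 (g (Nat.add (Nat.mul (Nat.add (Nat.mul (Nat.add (Nat.mul (Nat.add (Nat.mul (Nat.add (Nat.mul (Nat.add (Nat.mul ca s2) c2) s1) c1) s2) c2) s3) c3) s0) c0) sb) cb)))
    (Nat.add (Nat.mul 2 (g (Nat.add (Nat.mul (Nat.add (Nat.mul (Nat.add (Nat.mul (Nat.add (Nat.mul (Nat.add (Nat.mul (Nat.add (Nat.mul ca s2) c2) s1) c1) s2) c2) s0) c0) s3) c3) sb) cb)))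
    (Nat.add (Nat.mul 2 (g (Nat.add (Nat.mul (Nat.add (Nat.mul (Nat.add (Nat.mul (Nat.add (Nat.mul (Nat.add (Nat.mul (Nat.add (Nat.mul ca s2) c2) s1) c1) s3) c3) s2) c2) s0) c0) sb) cb)))
    (Nat.add (Nat.mul 2 (g (Nat.add (Nat.mul (Nat.add (Nat.mul (Nat.add (Nat.mul (Nat.add (Nat.mul (Nat.add (Nat.mul (Nat.add (Nat.mul ca s2) c2) s1) c1) s0) c0) s2) c2) s3) c3) sb) cb)))
    (Nat.add (Nat.mul 2 (g (Nat.add (Nat.mul (Nat.add (Nat.mul (Nat.add (Nat.mul (Nat.add (Nat.mul (Nat.add (Nat.mul (Nat.add (Nat.mul ca s3) c3) s2) c2) s2) c2) s1) c1) s0) c0) sb) cb)))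
    (Nat.add (Nat.mul 2 (g (Nat.add (Nat.mul (Nat.add (Nat.mul (Nat.add (Nat.mul (Nat.add (Nat.mul (Nat.add (Nat.mul (Nat.add (Nat.mul ca s3) c3) s2) c2) s0) c0) s2) c2) s1) c1) sb) cb)))
    (Nat.add (Nat.mul 2 (g (Nat.add (Nat.mul (Nat.add (Nat.mul (Nat.add (Nat.mul (Nat.add (Nat.mul (Nat.add (Nat.mul (Nat.add (Nat.mul ca s3) c3) s2) c2) s0) c0) s1) c1) s2) c2) sb) cb)))
    (Nat.add (Nat.mul 2 (g (Nat.add (Nat.mul (Nat.add (Nat.mul (Nat.add (Nat.mul (Nat.add (Nat.mul (Nat.add (Nat.mul (Nat.add (Nat.mul ca s3) c3) s2) c2) s1) c1) s0) c0) s2) c2) sb) cb)))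
    (Nat.add (Nat.mul 2 (g (Nat.add (Nat.mul (Nat.add (Nat.mul (Nat.add (Nat.mul (Nat.add (Nat.mul (Nat.add (Nat.mul (Nat.add (Nat.mul ca s3) c3) s0) c0) s2) c2) s1) c1) s2) c2) sb) cb)))
    (Nat.add (Nat.mul 2 (g (Nat.add (Nat.mul (Nat.add (Nat.mul (Nat.add (Nat.mul (Nat.add (Nat.mul (Nat.add (Nat.mul (Nat.add (Nat.mul ca s3) c3) s1) c1) s0) c0) s2) c2) s2) c2) sb) cb)))
    (Nat.add (Nat.mul 2 (g (Nat.add (Nat.mul (Nat.add (Nat.mul (Nat.add (Nat.mul (Nat.add (Nat.mul (Nat.add (Nat.mul (Nat.add (Nat.mul ca s0) c0) s2) c2) s3) c3) s1) c1) s2) c2) sb) cb)))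
    (Nat.add (Nat.mul 2 (g (Nat.add (Nat.mul (Nat.add (Nat.mul (Nat.add (Nat.mul (Nat.add (Nat.mul (Nat.add (Nat.mul (Nat.add (Nat.mul ca s0) c0) s2) c2) s1) c1) s2) c2) s3) c3) sb) cb)))
    (Nat.add (Nat.mul 2 (g (Nat.add (Nat.mul (Nat.add (Nat.mul (Nat.add (Nat.mul (Nat.add (Nat.mul (Nat.add (Nat.mul (Nat.add (Nat.mul ca s0) c0) s3) c3) s2) c2) s2) c2) s1) c1) sb) cb)))
    (Nat.add (Nat.mul 2 (g (Nat.add (Nat.mul (Nat.add (Nat.mul (Nat.add (Nat.mul (Nat.add (Nat.mul (Nat.add (Nat.mul (Nat.add (Nat.mul ca s0) c0) s1) c1) s3) c3) s2) c2) s2) c2) sb) cb)))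
    (Nat.add (Nat.mul 2 (g (Nat.add (Nat.mul (Nat.add (Nat.mul (Nat.add (Nat.mul (Nat.add (Nat.mul (Nat.add (Nat.mul (Nat.add (Nat.mul ca s1) c1) s2) c2) s3) c3) s2) c2) s0) c0) sb) cb)))
    (Nat.add (Nat.mul 2 (g (Nat.add (Nat.mul (Nat.add (Nat.mul (Nat.add (Nat.mul (Nat.add (Nat.mul (Nat.add (Nat.mul (Nat.add (Nat.mul ca s1) c1) s2) c2) s0) c0) s2) c2) s3) c3) sb) cb)))
    (Nat.add (Nat.mul 2 (g (Nat.add (Nat.mul (Nat.add (Nat.mul (Nat.add (Nat.mul (Nat.add (Nat.mul (Nat.add (Nat.mul (Nat.add (Nat.mul ca s1) c1) s3) c3) s0) c0) s2) c2) s2) c2) sb) cb)))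
    (Nat.add (Nat.mul 2 (g (Nat.add (Nat.mul (Nat.add (Nat.mul (Nat.add (Nat.mul (Nat.add (Nat.mul (Nat.add (Nat.mul (Nat.add (Nat.mul ca s1) c1) s0) c0) s3) c3) s2) c2) s2) c2) sb) cb)))
    (Nat.add (Nat.mul 2 (g (Nat.add (Nat.mul (Nat.add (Nat.mul (Nat.add (Nat.mul (Nat.add (Nat.mul (Nat.add (Nat.mul (Nat.add (Nat.mul ca s3) c3) s3) c3) s0) c0) s1) c1) s2) c2) sb) cb)))
    (Nat.add (Nat.mul 2 (g (Nat.add (Nat.mul (Nat.add (Nat.mul (Nat.add (Nat.mul (Nat.add (Nat.mul (Nat.add (Nat.mul (Nat.add (Nat.mul ca s3) c3) s3) c3) s0) c0) s2) c2) s1) c1) sb) cb)))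
    (Nat.add (Nat.mul 2 (g (Nat.add (Nat.mul (Nat.add (Nat.mul (Nat.add (Nat.mul (Nat.add (Nat.mul (Nat.add (Nat.mul (Nat.add (Nat.mul ca s3) c3) s0) c0) s3) c3) s2) c2) s1) c1) sb) cb)))
    (Nat.add (Nat.mul 2 (g (Nat.add (Nat.mul (Nat.add (Nat.mul (Nat.add (Nat.mul (Nat.add (Nat.mul (Nat.add (Nat.mul (Nat.add (Nat.mul ca s3) c3) s0) c0) s2) c2) s1) c1) s3) c3) sb) cb)))
    (Nat.add (Nat.mul 2 (g (Nat.add (Nat.mul (Nat.add (Nat.mul (Nat.add (Nat.mul (Nat.add (Nat.mul (Nat.add (Nat.mul (Nat.add (Nat.mul ca s3) c3) s1) c1) s3) c3) s0) c0) s2) c2) sb) cb)))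
    (Nat.add (Nat.mul 2 (g (Nat.add (Nat.mul (Nat.add (Nat.mul (Nat.add (Nat.mul (Nat.add (Nat.mul (Nat.add (Nat.mul (Nat.add (Nat.mul ca s3) c3) s1) c1) s3) c3) s2) c2) s0) c0) sb) cb)))
    (Nat.add (Nat.mul 2 (g (Nat.add (Nat.mul (Nat.add (Nat.mul (Nat.add (Nat.mul (Nat.add (Nat.mul (Nat.add (Nat.mul (Nat.add (Nat.mul ca s3) c3) s1) c1) s0) c0) s2) c2) s3) c3) sb) cb)))
    (Nat.add (Nat.mul 2 (g (Nat.add (Nat.mul (Nat.add (Nat.mul (Nat.add (Nat.mul (Nat.add (Nat.mul (Nat.add (Nat.mul (Nat.add (Nat.mul ca s3) c3) s1) c1) s2) c2) s3) c3) s0) c0) sb) cb)))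
    (Nat.add (Nat.mul 2 (g (Nat.add (Nat.mul (Nat.add (Nat.mul (Nat.add (Nat.mul (Nat.add (Nat.mul (Nat.add (Nat.mul (Nat.add (Nat.mul ca s3) c3) s2) c2) s3) c3) s0) c0) s1) c1) sb) cb)))
    (Nat.add (Nat.mul 2 (g (Nat.add (Nat.mul (Nat.add (Nat.mul (Nat.add (Nat.mul (Nat.add (Nat.mul (Nat.add (Nat.mul (Nat.add (Nat.mul ca s3) c3) s2) c2) s3) c3) s1) c1) s0) c0) sb) cb)))
    (Nat.add (Nat.mul 2 (g (Nat.add (Nat.mul (Nat.add (Nat.mul (Nat.add (Nat.mul (Nat.add (Nat.mul (Nat.add (Nat.mul (Nat.add (Nat.mul ca s3) c3) s2) c2) s0) c0) s3) c3) s1) c1) sb) cb)))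
    (Nat.add (Nat.mul 2 (g (Nat.add (Nat.mul (Nat.add (Nat.mul (Nat.add (Nat.mul (Nat.add (Nat.mul (Nat.add (Nat.mul (Nat.add (Nat.mul ca s3) c3) s2) c2) s1) c1) s3) c3) s0) c0) sb) cb)))
    (Nat.add (Nat.mul 2 (g (Nat.add (Nat.mul (Nat.add (Nat.mul (Nat.add (Nat.mul (Nat.add (Nat.mul (Nat.add (Nat.mul (Nat.add (Nat.mul ca s0) c0) s3) c3) s3) c3) s2) c2) s1) c1) sb) cb)))
    (Nat.add (Nat.mul 2 (g (Nat.add (Nat.mul (Nat.add (Nat.mul (Nat.add (Nat.mul (Nat.add (Nat.mul (Nat.add (Nat.mul (Nat.add (Nat.mul ca s0) c0) s3) c3) s1) c1) s3) c3) s2) c2) sb) cb)))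
    (Nat.add (Nat.mul 2 (g (Nat.add (Nat.mul (Nat.add (Nat.mul (Nat.add (Nat.mul (Nat.add (Nat.mul (Nat.add (Nat.mul (Nat.add (Nat.mul ca s0) c0) s3) c3) s1) c1) s2) c2) s3) c3) sb) cb)))
    (Nat.add (Nat.mul 2 (g (Nat.add (Nat.mul (Nat.add (Nat.mul (Nat.add (Nat.mul (Nat.add (Nat.mul (Nat.add (Nat.mul (Nat.add (Nat.mul ca s0) c0) s3) c3) s2) c2) s1) c1) s3) c3) sb) cb)))
    (Nat.add (Nat.mul 2 (g (Nat.add (Nat.mul (Nat.add (Nat.mul (Nat.add (Nat.mul (Nat.add (Nat.mul (Nat.add (Nat.mul (Nat.add (Nat.mul ca s0) c0) s1) c1) s3) c3) s2) c2) s3) c3) sb) cb)))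
    (Nat.add (Nat.mul 2 (g (Nat.add (Nat.mul (Nat.add (Nat.mul (Nat.add (Nat.mul (Nat.add (Nat.mul (Nat.add (Nat.mul (Nat.add (Nat.mul ca s0) c0) s2) c2) s1) c1) s3) c3) s3) c3) sb) cb)))
    (Nat.add (Nat.mul 2 (g (Nat.add (Nat.mul (Nat.add (Nat.mul (Nat.add (Nat.mul (Nat.add (Nat.mul (Nat.add (Nat.mul (Nat.add (Nat.mul ca s1) c1) s3) c3) s0) c0) s2) c2) s3) c3) sb) cb)))
    (Nat.add (Nat.mul 2 (g (Nat.add (Nat.mul (Nat.add (Nat.mul (Nat.add (Nat.mul (Nat.add (Nat.mul (Nat.add (Nat.mul (Nat.add (Nat.mul ca s1) c1) s3) c3) s2) c2) s3) c3) s0) c0) sb) cb)))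
    (Nat.add (Nat.mul 2 (g (Nat.add (Nat.mul (Nat.add (Nat.mul (Nat.add (Nat.mul (Nat.add (Nat.mul (Nat.add (Nat.mul (Nat.add (Nat.mul ca s1) c1) s0) c0) s3) c3) s3) c3) s2) c2) sb) cb)))
    (Nat.add (Nat.mul 2 (g (Nat.add (Nat.mul (Nat.add (Nat.mul (Nat.add (Nat.mul (Nat.add (Nat.mul (Nat.add (Nat.mul (Nat.add (Nat.mul ca s1) c1) s2) c2) s0) c0) s3) c3) s3) c3) sb) cb)))
    (Nat.add (Nat.mul 2 (g (Nat.add (Nat.mul (Nat.add (Nat.mul (Nat.add (Nat.mul (Nat.add (Nat.mul (Nat.add (Nat.mul (Nat.add (Nat.mul ca s2) c2) s3) c3) s0) c0) s3) c3) s1) c1) sb) cb)))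
    (Nat.add (Nat.mul 2 (g (Nat.add (Nat.mul (Nat.add (Nat.mul (Nat.add (Nat.mul (Nat.add (Nat.mul (Nat.add (Nat.mul (Nat.add (Nat.mul ca s2) c2) s3) c3) s1) c1) s3) c3) s0) c0) sb) cb)))
    (Nat.add (Nat.mul 2 (g (Nat.add (Nat.mul (Nat.add (Nat.mul (Nat.add (Nat.mul (Nat.add (Nat.mul (Nat.add (Nat.mul (Nat.add (Nat.mul ca s2) c2) s0) c0) s1) c1) s3) c3) s3) c3) sb) cb)))
    (Nat.add (Nat.mul 2 (g (Nat.add (Nat.mul (Nat.add (Nat.mul (Nat.add (Nat.mul (Nat.add (Nat.mul (Nat.add (Nat.mul (Nat.add (Nat.mul ca s2) c2) s1) c1) s0) c0) s3) c3) s3) c3) sb) cb))) 0))))))))))))))))))))))))))))))))))))))))))))))))))))))))))))))))))))))))))))))))))))))))))))))))))))))))))))))))))))))))))))))))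

def dV (g : ℕ → ℕ) (ca cb sb c0 c1 c2 c3 c4 s0 s1 s2 s3 s4 : ℕ) : ℕ :=
  (Nat.add (Nat.mul 2 (g (Nat.add (Nat.mul (Nat.add (Nat.mul (Nat.add (Nat.mul (Nat.add (Nat.mul (Nat.add (Nat.mul (Nat.add (Nat.mul ca s0) c0) s4) c4) s1) c1) s2) c2) s3) c3) sb) cb)))
    (Nat.add (Nat.mul 2 (g (Nat.add (Nat.mul (Nat.add (Nat.mul (Nat.add (Nat.mul (Nat.add (Nat.mul (Nat.add (Nat.mul (Nat.add (Nat.mul ca s0) c0) s4) c4) s1) c1) s3) c3) s2) c2) sb) cb)))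
    (Nat.add (Nat.mul 2 (g (Nat.add (Nat.mul (Nat.add (Nat.mul (Nat.add (Nat.mul (Nat.add (Nat.mul (Nat.add (Nat.mul (Nat.add (Nat.mul ca s0) c0) s1) c1) s4) c4) s3) c3) s2) c2) sb) cb)))
    (Nat.add (Nat.mul 2 (g (Nat.add (Nat.mul (Nat.add (Nat.mul (Nat.add (Nat.mul (Nat.add (Nat.mul (Nat.add (Nat.mul (Nat.add (Nat.mul ca s0) c0) s1) c1) s3) c3) s2) c2) s4) c4) sb) cb)))
    (Nat.add (Nat.mul 2 (g (Nat.add (Nat.mul (Nat.add (Nat.mul (Nat.add (Nat.mul (Nat.add (Nat.mul (Nat.add (Nat.mul (Nat.add (Nat.mul ca s0) c0) s2) c2) s4) c4) s1) c1) s3) c3) sb) cb)))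
    (Nat.add (Nat.mul 2 (g (Nat.add (Nat.mul (Nat.add (Nat.mul (Nat.add (Nat.mul (Nat.add (Nat.mul (Nat.add (Nat.mul (Nat.add (Nat.mul ca s0) c0) s2) c2) s4) c4) s3) c3) s1) c1) sb) cb)))
    (Nat.add (Nat.mul 2 (g (Nat.add (Nat.mul (Nat.add (Nat.mul (Nat.add (Nat.mul (Nat.add (Nat.mul (Nat.add (Nat.mul (Nat.add (Nat.mul ca s0) c0) s2) c2) s1) c1) s3) c3) s4) c4) sb) cb)))
    (Nat.add (Nat.mul 2 (g (Nat.add (Nat.mul (Nat.add (Nat.mul (Nat.add (Nat.mul (Nat.add (Nat.mul (Nat.add (Nat.mul (Nat.add (Nat.mul ca s0) c0) s2) c2) s3) c3) s4) c4) s1) c1) sb) cb)))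
    (Nat.add (Nat.mul 2 (g (Nat.add (Nat.mul (Nat.add (Nat.mul (Nat.add (Nat.mul (Nat.add (Nat.mul (Nat.add (Nat.mul (Nat.add (Nat.mul ca s0) c0) s3) c3) s4) c4) s1) c1) s2) c2) sb) cb)))
    (Nat.add (Nat.mul 2 (g (Nat.add (Nat.mul (Nat.add (Nat.mul (Nat.add (Nat.mul (Nat.add (Nat.mul (Nat.add (Nat.mul (Nat.add (Nat.mul ca s0) c0) s3) c3) s4) c4) s2) c2) s1) c1) sb) cb)))
    (Nat.add (Nat.mul 2 (g (Nat.add (Nat.mul (Nat.add (Nat.mul (Nat.add (Nat.mul (Nat.add (Nat.mul (Nat.add (Nat.mul (Nat.add (Nat.mul ca s0) c0) s3) c3) s1) c1) s4) c4) s2) c2) sb) cb)))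
    (Nat.add (Nat.mul 2 (g (Nat.add (Nat.mul (Nat.add (Nat.mul (Nat.add (Nat.mul (Nat.add (Nat.mul (Nat.add (Nat.mul (Nat.add (Nat.mul ca s0) c0) s3) c3) s2) c2) s4) c4) s1) c1) sb) cb)))
    (Nat.add (Nat.mul 2 (g (Nat.add (Nat.mul (Nat.add (Nat.mul (Nat.add (Nat.mul (Nat.add (Nat.mul (Nat.add (Nat.mul (Nat.add (Nat.mul ca s1) c1) s0) c0) s4) c4) s3) c3) s2) c2) sb) cb)))
    (Nat.add (Nat.mul 2 (g (Nat.add (Nat.mul (Nat.add (Nat.mul (Nat.add (Nat.mul (Nat.add (Nat.mul (Nat.add (Nat.mul (Nat.add (Nat.mul ca s1) c1) s0) c0) s2) c2) s4) c4) s3) c3) sb) cb)))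
    (Nat.add (Nat.mul 2 (g (Nat.add (Nat.mul (Nat.add (Nat.mul (Nat.add (Nat.mul (Nat.add (Nat.mul (Nat.add (Nat.mul (Nat.add (Nat.mul ca s1) c1) s0) c0) s2) c2) s3) c3) s4) c4) sb) cb)))
    (Nat.add (Nat.mul 2 (g (Nat.add (Nat.mul (Nat.add (Nat.mul (Nat.add (Nat.mul (Nat.add (Nat.mul (Nat.add (Nat.mul (Nat.add (Nat.mul ca s1) c1) s0) c0) s3) c3) s2) c2) s4) c4) sb) cb)))
    (Nat.add (Nat.mul 2 (g (Nat.add (Nat.mul (Nat.add (Nat.mul (Nat.add (Nat.mul (Nat.add (Nat.mul (Nat.add (Nat.mul (Nat.add (Nat.mul ca s1) c1) s2) c2) s0) c0) s3) c3) s4) c4) sb) cb)))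
    (Nat.add (Nat.mul 2 (g (Nat.add (Nat.mul (Nat.add (Nat.mul (Nat.add (Nat.mul (Nat.add (Nat.mul (Nat.add (Nat.mul (Nat.add (Nat.mul ca s1) c1) s3) c3) s2) c2) s0) c0) s4) c4) sb) cb)))
    (Nat.add (Nat.mul 2 (g (Nat.add (Nat.mul (Nat.add (Nat.mul (Nat.add (Nat.mul (Nat.add (Nat.mul (Nat.add (Nat.mul (Nat.add (Nat.mul ca s2) c2) s0) c0) s1) c1) s3) c3) s4) c4) sb) cb)))
    (Nat.add (Nat.mul 2 (g (Nat.add (Nat.mul (Nat.add (Nat.mul (Nat.add (Nat.mul (Nat.add (Nat.mul (Nat.add (Nat.mul (Nat.add (Nat.mul ca s2) c2) s0) c0) s3) c3) s4) c4) s1) c1) sb) cb)))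
    (Nat.add (Nat.mul 2 (g (Nat.add (Nat.mul (Nat.add (Nat.mul (Nat.add (Nat.mul (Nat.add (Nat.mul (Nat.add (Nat.mul (Nat.add (Nat.mul ca s2) c2) s1) c1) s0) c0) s4) c4) s3) c3) sb) cb)))
    (Nat.add (Nat.mul 2 (g (Nat.add (Nat.mul (Nat.add (Nat.mul (Nat.add (Nat.mul (Nat.add (Nat.mul (Nat.add (Nat.mul (Nat.add (Nat.mul ca s2) c2) s3) c3) s1) c1) s0) c0) s4) c4) sb) cb)))
    (Nat.add (Nat.mul 2 (g (Nat.add (Nat.mul (Nat.add (Nat.mul (Nat.add (Nat.mul (Nat.add (Nat.mul (Nat.add (Nat.mul (Nat.add (Nat.mul ca s3) c3) s0) c0) s1) c1) s4) c4) s2) c2) sb) cb)))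
    (Nat.add (Nat.mul 2 (g (Nat.add (Nat.mul (Nat.add (Nat.mul (Nat.add (Nat.mul (Nat.add (Nat.mul (Nat.add (Nat.mul (Nat.add (Nat.mul ca s3) c3) s0) c0) s2) c2) s4) c4) s1) c1) sb) cb)))
    (Nat.add (Nat.mul 2 (g (Nat.add (Nat.mul (Nat.add (Nat.mul (Nat.add (Nat.mul (Nat.add (Nat.mul (Nat.add (Nat.mul (Nat.add (Nat.mul ca s3) c3) s1) c1) s2) c2) s0) c0) s4) c4) sb) cb)))
    (Nat.add (Nat.mul 2 (g (Nat.add (Nat.mul (Nat.add (Nat.mul (Nat.add (Nat.mul (Nat.add (Nat.mul (Nat.add (Nat.mul (Nat.add (Nat.mul ca s3) c3) s2) c2) s1) c1) s0) c0) s4) c4) sb) cb)))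
    (Nat.add (Nat.mul 2 (g (Nat.add (Nat.mul (Nat.add (Nat.mul (Nat.add (Nat.mul (Nat.add (Nat.mul (Nat.add (Nat.mul (Nat.add (Nat.mul ca s4) c4) s0) c0) s1) c1) s2) c2) s3) c3) sb) cb)))
    (Nat.add (Nat.mul 2 (g (Nat.add (Nat.mul (Nat.add (Nat.mul (Nat.add (Nat.mul (Nat.add (Nat.mul (Nat.add (Nat.mul (Nat.add (Nat.mul ca s4) c4) s0) c0) s1) c1) s3) c3) s2) c2) sb) cb)))
    (Nat.add (Nat.mul 2 (g (Nat.add (Nat.mul (Nat.add (Nat.mul (Nat.add (Nat.mul (Nat.add (Nat.mul (Nat.add (Nat.mul (Nat.add (Nat.mul ca s4) c4) s1) c1) s0) c0) s3) c3) s2) c2) sb) cb)))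
    (Nat.add (Nat.mul 2 (g (Nat.add (Nat.mul (Nat.add (Nat.mul (Nat.add (Nat.mul (Nat.add (Nat.mul (Nat.add (Nat.mul (Nat.add (Nat.mul ca s4) c4) s1) c1) s3) c3) s2) c2) s0) c0) sb) cb)))
    (Nat.add (Nat.mul 2 (g (Nat.add (Nat.mul (Nat.add (Nat.mul (Nat.add (Nat.mul (Nat.add (Nat.mul (Nat.add (Nat.mul (Nat.add (Nat.mul ca s4) c4) s2) c2) s0) c0) s1) c1) s3) c3) sb) cb)))
    (Nat.add (Nat.mul 2 (g (Nat.add (Nat.mul (Nat.add (Nat.mul (Nat.add (Nat.mul (Nat.add (Nat.mul (Nat.add (Nat.mul (Nat.add (Nat.mul ca s4) c4) s2) c2) s0) c0) s3) c3) s1) c1) sb) cb)))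
    (Nat.add (Nat.mul 2 (g (Nat.add (Nat.mul (Nat.add (Nat.mul (Nat.add (Nat.mul (Nat.add (Nat.mul (Nat.add (Nat.mul (Nat.add (Nat.mul ca s4) c4) s2) c2) s1) c1) s3) c3) s0) c0) sb) cb)))
    (Nat.add (Nat.mul 2 (g (Nat.add (Nat.mul (Nat.add (Nat.mul (Nat.add (Nat.mul (Nat.add (Nat.mul (Nat.add (Nat.mul (Nat.add (Nat.mul ca s4) c4) s2) c2) s3) c3) s0) c0) s1) c1) sb) cb)))
    (Nat.add (Nat.mul 2 (g (Nat.add (Nat.mul (Nat.add (Nat.mul (Nat.add (Nat.mul (Nat.add (Nat.mul (Nat.add (Nat.mul (Nat.add (Nat.mul ca s4) c4) s3) c3) s0) c0) s1) c1) s2) c2) sb) cb)))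
    (Nat.add (Nat.mul 2 (g (Nat.add (Nat.mul (Nat.add (Nat.mul (Nat.add (Nat.mul (Nat.add (Nat.mul (Nat.add (Nat.mul (Nat.add (Nat.mul ca s4) c4) s3) c3) s0) c0) s2) c2) s1) c1) sb) cb)))
    (Nat.add (Nat.mul 2 (g (Nat.add (Nat.mul (Nat.add (Nat.mul (Nat.add (Nat.mul (Nat.add (Nat.mul (Nat.add (Nat.mul (Nat.add (Nat.mul ca s4) c4) s3) c3) s1) c1) s0) c0) s2) c2) sb) cb)))
    (Nat.add (Nat.mul 2 (g (Nat.add (Nat.mul (Nat.add (Nat.mul (Nat.add (Nat.mul (Nat.add (Nat.mul (Nat.add (Nat.mul (Nat.add (Nat.mul ca s4) c4) s3) c3) s2) c2) s0) c0) s1) c1) sb) cb)))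
    (Nat.add (Nat.mul 2 (g (Nat.add (Nat.mul (Nat.add (Nat.mul (Nat.add (Nat.mul (Nat.add (Nat.mul (Nat.add (Nat.mul (Nat.add (Nat.mul ca s1) c1) s4) c4) s0) c0) s3) c3) s2) c2) sb) cb)))
    (Nat.add (Nat.mul 2 (g (Nat.add (Nat.mul (Nat.add (Nat.mul (Nat.add (Nat.mul (Nat.add (Nat.mul (Nat.add (Nat.mul (Nat.add (Nat.mul ca s1) c1) s4) c4) s2) c2) s0) c0) s3) c3) sb) cb)))
    (Nat.add (Nat.mul 2 (g (Nat.add (Nat.mul (Nat.add (Nat.mul (Nat.add (Nat.mul (Nat.add (Nat.mul (Nat.add (Nat.mul (Nat.add (Nat.mul ca s1) c1) s4) c4) s2) c2) s3) c3) s0) c0) sb) cb)))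
    (Nat.add (Nat.mul 2 (g (Nat.add (Nat.mul (Nat.add (Nat.mul (Nat.add (Nat.mul (Nat.add (Nat.mul (Nat.add (Nat.mul (Nat.add (Nat.mul ca s1) c1) s4) c4) s3) c3) s2) c2) s0) c0) sb) cb)))
    (Nat.add (Nat.mul 2 (g (Nat.add (Nat.mul (Nat.add (Nat.mul (Nat.add (Nat.mul (Nat.add (Nat.mul (Nat.add (Nat.mul (Nat.add (Nat.mul ca s1) c1) s2) c2) s4) c4) s3) c3) s0) c0) sb) cb)))
    (Nat.add (Nat.mul 2 (g (Nat.add (Nat.mul (Nat.add (Nat.mul (Nat.add (Nat.mul (Nat.add (Nat.mul (Nat.add (Nat.mul (Nat.add (Nat.mul ca s1) c1) s3) c3) s2) c2) s4) c4) s0) c0) sb) cb)))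
    (Nat.add (Nat.mul 2 (g (Nat.add (Nat.mul (Nat.add (Nat.mul (Nat.add (Nat.mul (Nat.add (Nat.mul (Nat.add (Nat.mul (Nat.add (Nat.mul ca s2) c2) s4) c4) s1) c1) s3) c3) s0) c0) sb) cb)))
    (Nat.add (Nat.mul 2 (g (Nat.add (Nat.mul (Nat.add (Nat.mul (Nat.add (Nat.mul (Nat.add (Nat.mul (Nat.add (Nat.mul (Nat.add (Nat.mul ca s2) c2) s4) c4) s3) c3) s0) c0) s1) c1) sb) cb)))
    (Nat.add (Nat.mul 2 (g (Nat.add (Nat.mul (Nat.add (Nat.mul (Nat.add (Nat.mul (Nat.add (Nat.mul (Nat.add (Nat.mul (Nat.add (Nat.mul ca s2) c2) s1) c1) s4) c4) s0) c0) s3) c3) sb) cb)))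
    (Nat.add (Nat.mul 2 (g (Nat.add (Nat.mul (Nat.add (Nat.mul (Nat.add (Nat.mul (Nat.add (Nat.mul (Nat.add (Nat.mul (Nat.add (Nat.mul ca s2) c2) s3) c3) s1) c1) s4) c4) s0) c0) sb) cb)))
    (Nat.add (Nat.mul 2 (g (Nat.add (Nat.mul (Nat.add (Nat.mul (Nat.add (Nat.mul (Nat.add (Nat.mul (Nat.add (Nat.mul (Nat.add (Nat.mul ca s3) c3) s4) c4) s1) c1) s0) c0) s2) c2) sb) cb)))
    (Nat.add (Nat.mul 2 (g (Nat.add (Nat.mul (Nat.add (Nat.mul (Nat.add (Nat.mul (Nat.add (Nat.mul (Nat.add (Nat.mul (Nat.add (Nat.mul ca s3) c3) s4) c4) s2) c2) s0) c0) s1) c1) sb) cb)))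
    (Nat.add (Nat.mul 2 (g (Nat.add (Nat.mul (Nat.add (Nat.mul (Nat.add (Nat.mul (Nat.add (Nat.mul (Nat.add (Nat.mul (Nat.add (Nat.mul ca s3) c3) s1) c1) s2) c2) s4) c4) s0) c0) sb) cb)))
    (Nat.add (Nat.mul 2 (g (Nat.add (Nat.mul (Nat.add (Nat.mul (Nat.add (Nat.mul (Nat.add (Nat.mul (Nat.add (Nat.mul (Nat.add (Nat.mul ca s3) c3) s2) c2) s1) c1) s4) c4) s0) c0) sb) cb))) 0))))))))))))))))))))))))))))))))))))))))))))))))))))

def ok2 (V : ℕ → ℕ → ℕ → ℕ → ℕ → ℕ → ℕ → ℕ → ℕ → ℕ → ℕ → ℕ → ℕ → ℕ) (a m0 m1 m2 m3 m4 b : List A) : Bool :=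
  frc (code a) fun ca => frc (code b) fun cb => frc (6 ^ b.length) fun sb =>
  frc (code m0) fun c0 => frc (code m1) fun c1 => frc (code m2) fun c2 => frc (code m3) fun c3 =>
  frc (code m4) fun c4 => frc (6 ^ m0.length) fun s0 => frc (6 ^ m1.length) fun s1 =>
  frc (6 ^ m2.length) fun s2 => frc (6 ^ m3.length) fun s3 => frc (6 ^ m4.length) fun s4 =>
  Nat.beq (Nat.land (V ca cb sb c0 c1 c2 c3 c4 s0 s1 s2 s3 s4) 3) 0

def okS (V : ℕ → ℕ → ℕ → ℕ → ℕ → ℕ → ℕ → ℕ → ℕ → ℕ → ℕ → ℕ → ℕ → ℕ) : List (List A) → Bool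
  | [a, m0, m1, m2, m3, b] => ok2 V a m0 m1 m2 m3 [] b
  | _ => false

def okD2 : List (List A) → Bool
  | [a, m0, m1, m2, m3, m4, b] => ok2 (dV lk) a m0 m1 m2 m3 m4 b
  | _ => false

def cut : List ℕ → List A → List (List A)
  | [], _ => []
  | l :: ls, W => W.take l :: cut ls (W.drop l)

def allW : ℕ → List (List A)
  | 0 => [[]]
  | n + 1 => (allW n).flatMap fun w => [0 :: w, 1 :: w, 2 :: w, 3 :: w, 4 :: w]

def full (W : List A) : Bool := W.contains 0 && W.contains 1 && W.contains 2 && W.contains 3 && W.contains 4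

def val (g : ℕ → ℕ) (ca cb sb : ℕ) (c s : A → ℕ) : List (Wd × ℕ) → ℕ
  | [] => 0
  | q :: p => Nat.add (Nat.mul q.2 (g (Nat.add (Nat.mul ((q.1.head :: q.1.tail).foldl
    (fun acc i => Nat.add (Nat.mul acc (s i)) (c i)) ca) sb) cb))) (val g ca cb sb c s p)

def fLit : List (Wd × ℕ) :=
  [(⟨0, [1, 2, 3]⟩, 1), (⟨0, [1, 3, 2]⟩, 3), (⟨0, [2, 1, 3]⟩, 3), (⟨0, [2, 3, 1]⟩, 1),
   (⟨0, [3, 1, 2]⟩, 1), (⟨0, [3, 2, 1]⟩, 3), (⟨1, [0, 2, 3]⟩, 3), (⟨1, [0, 3, 2]⟩, 1),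
   (⟨1, [2, 0, 3]⟩, 1), (⟨1, [2, 3, 0]⟩, 3), (⟨1, [3, 0, 2]⟩, 3), (⟨1, [3, 2, 0]⟩, 1),
   (⟨2, [0, 1, 3]⟩, 1), (⟨2, [0, 3, 1]⟩, 3), (⟨2, [1, 0, 3]⟩, 3), (⟨2, [1, 3, 0]⟩, 1),
   (⟨2, [3, 0, 1]⟩, 1), (⟨2, [3, 1, 0]⟩, 3), (⟨3, [0, 1, 2]⟩, 3), (⟨3, [0, 2, 1]⟩, 1),
   (⟨3, [1, 0, 2]⟩, 1), (⟨3, [1, 2, 0]⟩, 3), (⟨3, [2, 0, 1]⟩, 3), (⟨3, [2, 1, 0]⟩, 1),
   (⟨0, [0, 1, 2, 3]⟩, 2), (⟨0, [0, 1, 3, 2]⟩, 2), (⟨0, [1, 0, 3, 2]⟩, 2), (⟨0, [1, 3, 2, 0]⟩, 2),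
   (⟨0, [2, 0, 1, 3]⟩, 2), (⟨0, [2, 0, 3, 1]⟩, 2), (⟨0, [2, 1, 3, 0]⟩, 2), (⟨0, [2, 3, 0, 1]⟩, 2),
   (⟨0, [3, 0, 1, 2]⟩, 2), (⟨0, [3, 0, 2, 1]⟩, 2), (⟨0, [3, 1, 0, 2]⟩, 2), (⟨0, [3, 2, 0, 1]⟩, 2),
   (⟨1, [0, 0, 3, 2]⟩, 2), (⟨1, [0, 2, 0, 3]⟩, 2), (⟨1, [0, 2, 3, 0]⟩, 2), (⟨1, [0, 3, 2, 0]⟩, 2),
   (⟨1, [2, 0, 3, 0]⟩, 2), (⟨1, [3, 2, 0, 0]⟩, 2), (⟨2, [0, 1, 3, 0]⟩, 2), (⟨2, [0, 3, 0, 1]⟩, 2),
   (⟨2, [1, 0, 0, 3]⟩, 2), (⟨2, [3, 1, 0, 0]⟩, 2), (⟨3, [0, 1, 0, 2]⟩, 2), (⟨3, [0, 2, 0, 1]⟩, 2),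
   (⟨3, [1, 2, 0, 0]⟩, 2), (⟨3, [2, 1, 0, 0]⟩, 2), (⟨1, [1, 2, 3, 0]⟩, 2), (⟨1, [1, 2, 0, 3]⟩, 2),
   (⟨1, [2, 1, 0, 3]⟩, 2), (⟨1, [2, 0, 3, 1]⟩, 2), (⟨1, [3, 1, 2, 0]⟩, 2), (⟨1, [3, 1, 0, 2]⟩, 2),
   (⟨1, [3, 2, 0, 1]⟩, 2), (⟨1, [3, 0, 1, 2]⟩, 2), (⟨1, [0, 1, 2, 3]⟩, 2), (⟨1, [0, 1, 3, 2]⟩, 2),
   (⟨1, [0, 2, 1, 3]⟩, 2), (⟨1, [0, 3, 1, 2]⟩, 2), (⟨2, [1, 1, 0, 3]⟩, 2), (⟨2, [1, 3, 1, 0]⟩, 2),
   (⟨2, [1, 3, 0, 1]⟩, 2), (⟨2, [1, 0, 3, 1]⟩, 2), (⟨2, [3, 1, 0, 1]⟩, 2), (⟨2, [0, 3, 1, 1]⟩, 2),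
   (⟨3, [1, 2, 0, 1]⟩, 2), (⟨3, [1, 0, 1, 2]⟩, 2), (⟨3, [2, 1, 1, 0]⟩, 2), (⟨3, [0, 2, 1, 1]⟩, 2),
   (⟨0, [1, 2, 1, 3]⟩, 2), (⟨0, [1, 3, 1, 2]⟩, 2), (⟨0, [2, 3, 1, 1]⟩, 2), (⟨0, [3, 2, 1, 1]⟩, 2),
   (⟨2, [2, 3, 0, 1]⟩, 2), (⟨2, [2, 3, 1, 0]⟩, 2), (⟨2, [3, 2, 1, 0]⟩, 2), (⟨2, [3, 1, 0, 2]⟩, 2),
   (⟨2, [0, 2, 3, 1]⟩, 2), (⟨2, [0, 2, 1, 3]⟩, 2), (⟨2, [0, 3, 1, 2]⟩, 2), (⟨2, [0, 1, 2, 3]⟩, 2),
   (⟨2, [1, 2, 3, 0]⟩, 2), (⟨2, [1, 2, 0, 3]⟩, 2), (⟨2, [1, 3, 2, 0]⟩, 2), (⟨2, [1, 0, 2, 3]⟩, 2),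
   (⟨3, [2, 2, 1, 0]⟩, 2), (⟨3, [2, 0, 2, 1]⟩, 2), (⟨3, [2, 0, 1, 2]⟩, 2), (⟨3, [2, 1, 0, 2]⟩, 2),
   (⟨3, [0, 2, 1, 2]⟩, 2), (⟨3, [1, 0, 2, 2]⟩, 2), (⟨0, [2, 3, 1, 2]⟩, 2), (⟨0, [2, 1, 2, 3]⟩, 2),
   (⟨0, [3, 2, 2, 1]⟩, 2), (⟨0, [1, 3, 2, 2]⟩, 2), (⟨1, [2, 3, 2, 0]⟩, 2), (⟨1, [2, 0, 2, 3]⟩, 2),
   (⟨1, [3, 0, 2, 2]⟩, 2), (⟨1, [0, 3, 2, 2]⟩, 2), (⟨3, [3, 0, 1, 2]⟩, 2), (⟨3, [3, 0, 2, 1]⟩, 2),
   (⟨3, [0, 3, 2, 1]⟩, 2), (⟨3, [0, 2, 1, 3]⟩, 2), (⟨3, [1, 3, 0, 2]⟩, 2), (⟨3, [1, 3, 2, 0]⟩, 2),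
   (⟨3, [1, 0, 2, 3]⟩, 2), (⟨3, [1, 2, 3, 0]⟩, 2), (⟨3, [2, 3, 0, 1]⟩, 2), (⟨3, [2, 3, 1, 0]⟩, 2),
   (⟨3, [2, 0, 3, 1]⟩, 2), (⟨3, [2, 1, 3, 0]⟩, 2), (⟨0, [3, 3, 2, 1]⟩, 2), (⟨0, [3, 1, 3, 2]⟩, 2),
   (⟨0, [3, 1, 2, 3]⟩, 2), (⟨0, [3, 2, 1, 3]⟩, 2), (⟨0, [1, 3, 2, 3]⟩, 2), (⟨0, [2, 1, 3, 3]⟩, 2),
   (⟨1, [3, 0, 2, 3]⟩, 2), (⟨1, [3, 2, 3, 0]⟩, 2), (⟨1, [0, 3, 3, 2]⟩, 2), (⟨1, [2, 0, 3, 3]⟩, 2),
   (⟨2, [3, 0, 3, 1]⟩, 2), (⟨2, [3, 1, 3, 0]⟩, 2), (⟨2, [0, 1, 3, 3]⟩, 2), (⟨2, [1, 0, 3, 3]⟩, 2)]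

def dLit : List (Wd × ℕ) :=
  [(⟨0, [4, 1, 2, 3]⟩, 2), (⟨0, [4, 1, 3, 2]⟩, 2), (⟨0, [1, 4, 3, 2]⟩, 2), (⟨0, [1, 3, 2, 4]⟩, 2),
   (⟨0, [2, 4, 1, 3]⟩, 2), (⟨0, [2, 4, 3, 1]⟩, 2), (⟨0, [2, 1, 3, 4]⟩, 2), (⟨0, [2, 3, 4, 1]⟩, 2),
   (⟨0, [3, 4, 1, 2]⟩, 2), (⟨0, [3, 4, 2, 1]⟩, 2), (⟨0, [3, 1, 4, 2]⟩, 2), (⟨0, [3, 2, 4, 1]⟩, 2),
   (⟨1, [0, 4, 3, 2]⟩, 2), (⟨1, [0, 2, 4, 3]⟩, 2), (⟨1, [0, 2, 3, 4]⟩, 2), (⟨1, [0, 3, 2, 4]⟩, 2),
   (⟨1, [2, 0, 3, 4]⟩, 2), (⟨1, [3, 2, 0, 4]⟩, 2), (⟨2, [0, 1, 3, 4]⟩, 2), (⟨2, [0, 3, 4, 1]⟩, 2),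
   (⟨2, [1, 0, 4, 3]⟩, 2), (⟨2, [3, 1, 0, 4]⟩, 2), (⟨3, [0, 1, 4, 2]⟩, 2), (⟨3, [0, 2, 4, 1]⟩, 2),
   (⟨3, [1, 2, 0, 4]⟩, 2), (⟨3, [2, 1, 0, 4]⟩, 2), (⟨4, [0, 1, 2, 3]⟩, 2), (⟨4, [0, 1, 3, 2]⟩, 2),
   (⟨4, [1, 0, 3, 2]⟩, 2), (⟨4, [1, 3, 2, 0]⟩, 2), (⟨4, [2, 0, 1, 3]⟩, 2), (⟨4, [2, 0, 3, 1]⟩, 2),
   (⟨4, [2, 1, 3, 0]⟩, 2), (⟨4, [2, 3, 0, 1]⟩, 2), (⟨4, [3, 0, 1, 2]⟩, 2), (⟨4, [3, 0, 2, 1]⟩, 2),
   (⟨4, [3, 1, 0, 2]⟩, 2), (⟨4, [3, 2, 0, 1]⟩, 2), (⟨1, [4, 0, 3, 2]⟩, 2), (⟨1, [4, 2, 0, 3]⟩, 2),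
   (⟨1, [4, 2, 3, 0]⟩, 2), (⟨1, [4, 3, 2, 0]⟩, 2), (⟨1, [2, 4, 3, 0]⟩, 2), (⟨1, [3, 2, 4, 0]⟩, 2),
   (⟨2, [4, 1, 3, 0]⟩, 2), (⟨2, [4, 3, 0, 1]⟩, 2), (⟨2, [1, 4, 0, 3]⟩, 2), (⟨2, [3, 1, 4, 0]⟩, 2),
   (⟨3, [4, 1, 0, 2]⟩, 2), (⟨3, [4, 2, 0, 1]⟩, 2), (⟨3, [1, 2, 4, 0]⟩, 2), (⟨3, [2, 1, 4, 0]⟩, 2)]

lemma fL_eq : fL = fLit := by decide +kernel

lemma dL_eq : dL = dLit := by decide +kernel

lemma stV_eq (g : ℕ → ℕ) (ca cb sb : ℕ) (c s : A → ℕ) : val g ca cb sb c s stL =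
    stV g ca cb sb (c 0) (c 1) (c 2) (c 3) 0 (s 0) (s 1) (s 2) (s 3) 1 := by
  unfold stV
  simp only [val, stL, List.foldl_cons, List.foldl_nil]

lemma fV_eq (g : ℕ → ℕ) (ca cb sb : ℕ) (c s : A → ℕ) : val g ca cb sb c s fL =
    fV g ca cb sb (c 0) (c 1) (c 2) (c 3) 0 (s 0) (s 1) (s 2) (s 3) 1 := by
  rw [fL_eq]
  unfold fV
  simp only [val, fLit, List.foldl_cons, List.foldl_nil]

lemma dV_eq (g : ℕ → ℕ) (ca cb sb : ℕ) (c s : A → ℕ) : val g ca cb sb c s dL =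
    dV g ca cb sb (c 0) (c 1) (c 2) (c 3) (c 4) (s 0) (s 1) (s 2) (s 3) (s 4) := by
  rw [dL_eq]
  unfold dV
  simp only [val, dLit, List.foldl_cons, List.foldl_nil]

theorem c4 : (allW 4).all (fun W => !full W) = true := by decide +kernel

theorem c5 : (allW 5).all (fun W => !full W || (pF 5).all fun pt => okS (fV lk) (cut pt W)) = true := by
  decide +kernel

theorem d5 : (allW 5).all (fun W => !full W || (pD 5).all fun pt => okD2 (cut pt W)) = true := by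
  decide +kernel

theorem nf : (List.range 7).all (fun n => (allW n).all fun W => full W || lk (code W) == 0) = true := by
  decide +kernel

end Pool.Agent.H33.Pid
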