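import Pool.Agent.H33.Pid1

set_option autoImplicit false

namespace Pool.Agent.H33.Pid

theorem c6_0 : (allW 5).all (fun W => !full (0 :: W) ||
    (pF 6).all fun pt => okS (stV lk) (cut pt (0 :: W))) = true := by decide +kernel

theorem c6_1 : (allW 5).all (fun W => !full (1 :: W) ||
    (pF 6).all fun pt => okS (stV lk) (cut pt (1 :: W))) = true := by decide +kernel

theorem c6_2 : (allW 5).all (fun W => !full (2 :: W) ||
    (pF 6).all fun pt => okS (stV lk) (cut pt (2 :: W))) = true := by decide +kernel

theorem c6_3 : (allW 5).all (fun W => !full (3 :: W) ||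
    (pF 6).all fun pt => okS (stV lk) (cut pt (3 :: W))) = true := by decide +kernel

theorem c6_4 : (allW 5).all (fun W => !full (4 :: W) ||
    (pF 6).all fun pt => okS (stV lk) (cut pt (4 :: W))) = true := by decide +kernel

end Pool.Agent.H33.Pid
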