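import Pool.Agent.H33.Pid2
import Pool.Agent.H33.Pid3

set_option autoImplicit false

namespace Pool.Agent.H33.Pid

def toL (w : Wd) : List A := w.head :: w.tail

def phi (w : List A) : ℕ := lk (code w)

def sm (p : List (Wd × ℕ)) (a : List A) (m : A → List A) (b : List A) : ℕ :=
  (p.map fun q => q.2 * phi (a ++ (toL q.1).flatMap m ++ b)).sum

def cd (z : ℕ) (u : List A) : ℕ := u.foldl (fun acc x => acc * 6 + (x.val + 1)) z

lemma cd_eq (u : List A) : ∀ z, cd z u = z * 6 ^ u.length + code u := by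
  induction u with
  | nil => intro z; simp [cd, code]
  | cons x u ih =>
    intro z
    have h1 : cd z (x :: u) = cd (z * 6 + (x.val + 1)) u := rfl
    have h2 : code (x :: u) = cd (0 * 6 + (x.val + 1)) u := rfl
    rw [h1, h2, ih, ih, List.length_cons]
    ring

lemma code_app (u v : List A) : code (u ++ v) = code u * 6 ^ v.length + code v := by
  rw [← cd_eq]; simp [code, cd]

lemma code_fm (m : A → List A) (w : List A) : ∀ a : List A, code (a ++ w.flatMap m) =
    w.foldl (fun acc i => Nat.add (Nat.mul acc (6 ^ (m i).length)) (code (m i))) (code a) := by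
  induction w with
  | nil => simp
  | cons x w ih =>
    intro a
    rw [List.flatMap_cons, ← List.append_assoc, ih, code_app]
    rfl

lemma sm_val (a : List A) (m : A → List A) (b : List A) : ∀ p, sm p a m b =
    val lk (code a) (code b) (6 ^ b.length) (fun i => code (m i)) (fun i => 6 ^ (m i).length) p
  | [] => rfl
  | q :: p => by
    have := sm_val a m b p
    unfold sm at *
    rw [List.map_cons, List.sum_cons, this, val, phi, code_app, code_fm]
    rfl

lemma phi_long {w : List A} (h : 7 ≤ w.length) : phi w = 0 := by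
  obtain _ | ⟨x, u⟩ := w
  · simp at h
  · have h2 : code (x :: u) = cd (0 * 6 + (x.val + 1)) u := rfl
    have h3 : 6 ^ 6 ≤ code (x :: u) := by
      rw [h2, cd_eq]
      have : 6 ^ 6 ≤ 6 ^ u.length := Nat.pow_le_pow_right (by norm_num) (by simpa using h)
      nlinarith [Nat.zero_le (code u), Nat.zero_le (x.val * 6 ^ u.length)]
    have h4 : tab < 2 ^ (2 * 6 ^ 6) := by decide +kernel
    have h5 : tab >>> (2 * code (x :: u)) = 0 := by
      rw [Nat.shiftRight_eq_div_pow]
      exact Nat.div_eq_of_lt (h4.trans_le (Nat.pow_le_pow_right (by norm_num) (by omega)))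
    show (tab >>> (2 * code (x :: u))) &&& 3 = 0
    rw [h5]; rfl

lemma mem_allW : ∀ w : List A, w ∈ allW w.length
  | [] => by simp [allW]
  | x :: w => by
    rw [List.length_cons, allW, List.mem_flatMap]
    refine ⟨w, mem_allW w, ?_⟩
    fin_cases x <;> simp

lemma full_iff {w : List A} : full w = true ↔ ∀ x, x ∈ w := by
  simp [full, Fin.forall_fin_succ, and_assoc]

lemma phi_nf {w : List A} (h : ¬ full w = true) : phi w = 0 := by
  rcases le_or_gt 7 w.length with h1 | h1
  · exact phi_long h1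
  · have := List.all_eq_true.1 (List.all_eq_true.1 nf _ (List.mem_range.2 h1)) w (mem_allW w)
    simpa [h, phi] using this

lemma len_le (m : A → List A) (hm : ∀ i, m i ≠ []) {l w : List A} (h : l.Subperm w) :
    (l.flatMap m).length + w.length ≤ (w.flatMap m).length + l.length := by
  obtain ⟨k, h1, h2⟩ := h
  rw [← (h1.flatMap_right m).length_eq, ← h1.length_eq]
  clear h1
  induction h2 with
  | slnil => simp
  | cons x _ ih =>
    have := List.length_pos_of_ne_nil (hm x)
    simp only [List.flatMap_cons, List.length_append, List.length_cons] at *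
    omega
  | cons_cons x _ ih =>
    simp only [List.flatMap_cons, List.length_append, List.length_cons] at *
    omega

lemma sm_zero {p : List (Wd × ℕ)} {a b : List A} {m : A → List A}
    (h : ∀ q ∈ p, phi (a ++ (toL q.1).flatMap m ++ b) = 0) : sm p a m b = 0 := by
  apply List.sum_eq_zero
  intro x hx
  obtain ⟨q, hq, rfl⟩ := List.mem_map.1 hx
  rw [h q hq, mul_zero]

lemma sm_nf {p : List (Wd × ℕ)} {l : List A} (hp : ∀ q ∈ p, toL q.1 ⊆ l) {a b : List A}
    {m : A → List A} (h : ¬ full (a ++ l.flatMap m ++ b) = true) : sm p a m b = 0 :=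
  sm_zero fun q hq => phi_nf fun h1 => h <| full_iff.2 fun x => by
    have := full_iff.1 h1 x
    simp only [List.mem_append, List.mem_flatMap] at this ⊢
    rcases this with (h2 | ⟨i, h2, h3⟩) | h2
    · exact .inl (.inl h2)
    · exact .inl (.inr ⟨i, hp q hq h2, h3⟩)
    · exact .inr h2

lemma sm_long {p : List (Wd × ℕ)} {l : List A} (k : ℕ)
    (hp : ∀ q ∈ p, l.Subperm (toL q.1) ∧ l.length + k ≤ (toL q.1).length) {a b : List A}
    {m : A → List A} (hm : ∀ i, m i ≠ []) (h : 7 ≤ (a ++ l.flatMap m ++ b).length + k) :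
    sm p a m b = 0 :=
  sm_zero fun q hq => phi_long <| by
    have := len_le m hm (hp q hq).1
    have := (hp q hq).2
    simp only [List.length_append] at *
    omega

lemma cut_eq : ∀ ps : List (List A), cut (ps.map List.length) ps.flatten = ps
  | [] => rfl
  | u :: ps => by simp [cut, cut_eq ps]

lemma c6 (W : List A) (h : W.length = 6) (hf : full W = true) :
    ∀ pt ∈ pF 6, okS (stV lk) (cut pt W) = true := by
  obtain _ | ⟨x, W⟩ := W
  · simp at h
  have hW : W ∈ allW 5 := by simpa [← show W.length = 5 by simpa using h] using mem_allW W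
  fin_cases x
  · simpa [show full (0 :: W) = true from hf] using List.all_eq_true.1 c6_0 W hW
  · simpa [show full (1 :: W) = true from hf] using List.all_eq_true.1 c6_1 W hW
  · simpa [show full (2 :: W) = true from hf] using List.all_eq_true.1 c6_2 W hW
  · simpa [show full (3 :: W) = true from hf] using List.all_eq_true.1 c6_3 W hW
  · simpa [show full (4 :: W) = true from hf] using List.all_eq_true.1 c6_4 W hW

lemma d6 (W : List A) (h : W.length = 6) (hf : full W = true) :
    ∀ pt ∈ pD 6, okD2 (cut pt W) = true := by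
  obtain _ | ⟨x, W⟩ := W
  · simp at h
  have hW : W ∈ allW 5 := by simpa [← show W.length = 5 by simpa using h] using mem_allW W
  fin_cases x
  · simpa [show full (0 :: W) = true from hf] using List.all_eq_true.1 d6_0 W hW
  · simpa [show full (1 :: W) = true from hf] using List.all_eq_true.1 d6_1 W hW
  · simpa [show full (2 :: W) = true from hf] using List.all_eq_true.1 d6_2 W hW
  · simpa [show full (3 :: W) = true from hf] using List.all_eq_true.1 d6_3 W hW
  · simpa [show full (4 :: W) = true from hf] using List.all_eq_true.1 d6_4 W hW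

lemma patF (n a b c d e f : ℕ) (hn : n = 5 ∨ n = 6) (h : a + b + c + d + e + f = n) (h1 : 0 < b)
    (h2 : 0 < c) (h3 : 0 < d) (h4 : 0 < e) : [a, b, c, d, e, f] ∈ pF n := by
  have : ∀ a b c d e f : Fin 3, ∀ n : Fin 2, a.val + b + c + d + e + f = n + 1 →
      [a.val, b + 1, c + 1, d + 1, e + 1, f.val] ∈ pF (n + 5) := by decide +kernel
  have := this ⟨a, by omega⟩ ⟨b - 1, by omega⟩ ⟨c - 1, by omega⟩ ⟨d - 1, by omega⟩
    ⟨e - 1, by omega⟩ ⟨f, by omega⟩ ⟨n - 5, by omega⟩ (by simp only []; omega)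
  simp only [] at this
  rwa [Nat.sub_add_cancel h1, Nat.sub_add_cancel h2, Nat.sub_add_cancel h3, Nat.sub_add_cancel h4,
    Nat.sub_add_cancel (by omega)] at this

lemma patD (n a b c d e f g : ℕ) (hn : n = 5 ∨ n = 6) (h : a + b + c + d + e + f + g = n)
    (h1 : 0 < b) (h2 : 0 < c) (h3 : 0 < d) (h4 : 0 < e) (h5 : 0 < f) :
    [a, b, c, d, e, f, g] ∈ pD n := by
  have : ∀ a b c d e f g n : Fin 2, a.val + b + c + d + e + f + g = n →
      [a.val, b + 1, c + 1, d + 1, e + 1, f + 1, g.val] ∈ pD (n + 5) := by decide +kernel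
  have := this ⟨a, by omega⟩ ⟨b - 1, by omega⟩ ⟨c - 1, by omega⟩ ⟨d - 1, by omega⟩
    ⟨e - 1, by omega⟩ ⟨f - 1, by omega⟩ ⟨g, by omega⟩ ⟨n - 5, by omega⟩ (by simp only []; omega)
  simp only [] at this
  rwa [Nat.sub_add_cancel h1, Nat.sub_add_cancel h2, Nat.sub_add_cancel h3, Nat.sub_add_cancel h4,
    Nat.sub_add_cancel h5, Nat.sub_add_cancel (by omega)] at this

lemma land3 {n : ℕ} (h : Nat.beq (Nat.land n 3) 0 = true) : (n : ZMod 4) = 0 := by
  have h1 : n &&& (2 ^ 2 - 1) = 0 := Nat.eq_of_beq_eq_true h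
  rw [Nat.and_two_pow_sub_one_eq_mod] at h1
  exact (ZMod.natCast_eq_zero_iff n 4).2 (Nat.dvd_of_mod_eq_zero h1)

theorem zeroF (a b : List A) (m : A → List A) (hm : ∀ i, m i ≠ []) :
    (sm fL a m b : ZMod 4) = 0 := by
  have hl := fun i => List.length_pos_of_ne_nil (hm i)
  by_cases hf : full (a ++ [0, 1, 2, 3].flatMap m ++ b) = true; swap
  · rw [sm_nf (by decide +kernel) hf]; rfl
  have e : a ++ [0, 1, 2, 3].flatMap m ++ b = [a, m 0, m 1, m 2, m 3, b].flatten := by simp
  have hc := cut_eq [a, m 0, m 1, m 2, m 3, b]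
  simp only [List.map_cons, List.map_nil] at hc
  have hW := mem_allW (a ++ [0, 1, 2, 3].flatMap m ++ b)
  obtain ⟨n, hn⟩ : ∃ n, (a ++ [0, 1, 2, 3].flatMap m ++ b).length = n := ⟨_, rfl⟩
  have hn' : a.length + (m 0).length + (m 1).length + (m 2).length + (m 3).length + b.length = n := by
    rw [← hn]; simp; omega
  have := hl 0; have := hl 1; have := hl 2; have := hl 3
  rcases (show n = 4 ∨ n = 5 ∨ n = 6 ∨ 7 ≤ n by omega) with h | h | h | h
  · rw [hn, h] at hW
    have := List.all_eq_true.1 c4 _ hW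
    rw [hf] at this
    cases this
  · rw [hn, h] at hW
    have h1 := List.all_eq_true.1 c5 _ hW
    rw [hf, e] at h1
    have h2 := List.all_eq_true.1 h1 _ (patF 5 _ _ _ _ _ _ (.inl rfl) (h ▸ hn') (hl 0) (hl 1) (hl 2) (hl 3))
    rw [hc] at h2
    simp only [okS, ok2, frc_eq] at h2
    rw [sm_val, fV_eq]
    exact land3 h2
  · have h2 := c6 _ (hn.trans h) hf _ (patF 6 _ _ _ _ _ _ (.inr rfl) (h ▸ hn') (hl 0) (hl 1) (hl 2) (hl 3))
    rw [e, hc] at h2
    simp only [okS, ok2, frc_eq] at h2
    have h3 : sm fL a m b = sm stL a m b + sm hL a m b := by simp [sm, fL]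
    rw [h3, sm_long (p := hL) (l := [0, 1, 2, 3]) 1 (by decide +kernel) hm (by omega), add_zero,
      sm_val, stV_eq]
    exact land3 h2
  · rw [sm_long (p := fL) (l := [0, 1, 2, 3]) 0 (by decide +kernel) hm (by omega)]; rfl

theorem zeroD (a b : List A) (m : A → List A) (hm : ∀ i, m i ≠ []) :
    (sm dL a m b : ZMod 4) = 0 := by
  have hl := fun i => List.length_pos_of_ne_nil (hm i)
  by_cases hf : full (a ++ [0, 1, 2, 3, 4].flatMap m ++ b) = true; swap
  · rw [sm_nf (by decide +kernel) hf]; rfl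
  have e : a ++ [0, 1, 2, 3, 4].flatMap m ++ b = [a, m 0, m 1, m 2, m 3, m 4, b].flatten := by simp
  have hc := cut_eq [a, m 0, m 1, m 2, m 3, m 4, b]
  simp only [List.map_cons, List.map_nil] at hc
  have hW := mem_allW (a ++ [0, 1, 2, 3, 4].flatMap m ++ b)
  obtain ⟨n, hn⟩ : ∃ n, (a ++ [0, 1, 2, 3, 4].flatMap m ++ b).length = n := ⟨_, rfl⟩
  have hn' : a.length + (m 0).length + (m 1).length + (m 2).length + (m 3).length + (m 4).length
      + b.length = n := by
    rw [← hn]; simp; omega
  have := hl 0; have := hl 1; have := hl 2; have := hl 3; have := hl 4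
  rcases (show n = 5 ∨ n = 6 ∨ 7 ≤ n by omega) with h | h | h
  · rw [hn, h] at hW
    have h1 := List.all_eq_true.1 d5 _ hW
    rw [hf, e] at h1
    have h2 := List.all_eq_true.1 h1 _
      (patD 5 _ _ _ _ _ _ _ (.inl rfl) (h ▸ hn') (hl 0) (hl 1) (hl 2) (hl 3) (hl 4))
    rw [hc] at h2
    simp only [okD2, ok2, frc_eq] at h2
    rw [sm_val, dV_eq]
    exact land3 h2
  · have h2 := d6 _ (hn.trans h) hf _
      (patD 6 _ _ _ _ _ _ _ (.inr rfl) (h ▸ hn') (hl 0) (hl 1) (hl 2) (hl 3) (hl 4))
    rw [e, hc] at h2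
    simp only [okD2, ok2, frc_eq] at h2
    rw [sm_val, dV_eq]
    exact land3 h2
  · rw [sm_long (p := dL) (l := [0, 1, 2, 3, 4]) 0 (by decide +kernel) hm (by omega)]; rfl

end Pool.Agent.H33.Pid
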