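import Pool.Agent.H33.Pid4

set_option autoImplicit false

namespace Pool.Agent.H33.Pid

open Function

section gen
variable {R : Type} [NonUnitalRing R]

def ev (p : List (Wd × ℕ)) (s : A → R) : R := (p.map fun q => q.2 • FreeSemigroup.lift s q.1).sum

def fo (s : A → R) (z : R) (t : List A) : R := t.foldl (fun a b => a * s b) z

lemma lift_eq (s : A → R) (w : Wd) : FreeSemigroup.lift s w = fo s (s w.head) w.tail := rfl

lemma fo_add (s : A → R) (t : List A) : ∀ z z', fo s (z + z') t = fo s z t + fo s z' t := by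
  induction t with
  | nil => intros; rfl
  | cons x t ih => intro z z'; simp only [fo, List.foldl_cons, add_mul] at *; exact ih _ _

lemma fo_not (s : A → R) (i : A) (x : R) (t : List A) (h : i ∉ t) :
    ∀ z, fo (update s i x) z t = fo s z t := by
  induction t with
  | nil => intros; rfl
  | cons y t ih =>
    intro z
    simp only [List.mem_cons, not_or] at h
    simp only [fo, List.foldl_cons] at *
    rw [update_of_ne (Ne.symm h.1), ih h.2]

lemma fo_one (s : A → R) (i : A) (x y : R) (t : List A) (h : t.count i = 1) :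
    ∀ z, fo (update s i (x + y)) z t = fo (update s i x) z t + fo (update s i y) z t := by
  induction t with
  | nil => simp at h
  | cons k t ih =>
    intro z
    have e : ∀ u : A → R, fo u z (k :: t) = fo u (z * u k) t := fun _ => rfl
    rw [e, e, e]
    by_cases hk : k = i
    · subst hk
      have : k ∉ t := by simpa [List.count_eq_zero] using h
      simp only [update_self, fo_not _ _ _ _ this, mul_add, fo_add]
    · simp only [update_of_ne hk]
      exact ih (by simpa [List.count_cons, hk] using h) _

lemma lift_one (s : A → R) (i : A) (x y : R) (w : Wd) (h : (toL w).count i = 1) :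
    FreeSemigroup.lift (update s i (x + y)) w =
      FreeSemigroup.lift (update s i x) w + FreeSemigroup.lift (update s i y) w := by
  simp only [lift_eq]
  by_cases hk : w.head = i
  · have : i ∉ w.tail := by simpa [toL, hk, List.count_eq_zero] using h
    simp only [hk, update_self, fo_not _ _ _ _ this, fo_add]
  · simp only [update_of_ne hk]
    exact fo_one s i x y _ (by simpa [toL, List.count_cons, hk] using h) _

lemma ev_add {p : List (Wd × ℕ)} {i : A} (h : ∀ q ∈ p, (toL q.1).count i = 1) (s : A → R)
    (x y : R) : ev p (update s i (x + y)) = ev p (update s i x) + ev p (update s i y) := by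
  unfold ev
  rw [← List.sum_map_add]
  congr 1
  exact List.map_congr_left fun q hq => by rw [lift_one _ _ _ _ _ (h q hq), smul_add]

lemma ev_not {p : List (Wd × ℕ)} {i : A} (h : ∀ q ∈ p, i ∉ toL q.1) (s : A → R)
    (x : R) : ev p (update s i x) = ev p s := by
  unfold ev
  congr 1
  refine List.map_congr_left fun q hq => ?_
  have := h q hq
  simp only [toL, List.mem_cons, not_or] at this
  rw [lift_eq, lift_eq, fo_not _ _ _ _ this.2, update_of_ne (Ne.symm this.1)]

lemma ev_app (p q : List (Wd × ℕ)) (s : A → R) : ev (p ++ q) s = ev p s + ev q s := by simp [ev]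

lemma ev_mp (ρ : A → A) (c : ℕ) (p : List (Wd × ℕ)) (s : A → R) :
    ev (mp ρ c p) s = c • ev p (s ∘ ρ) := by
  unfold ev mp
  rw [List.map_map, List.smul_sum, List.map_map]
  congr 1
  refine List.map_congr_left fun q _ => ?_
  simp only [comp, lift_eq, fo, List.foldl_map, mul_smul]

lemma bq1 : ∀ i : A, ∀ q ∈ bqL, (toL q.1).count i = 1 := by decide +kernel

lemma G_ne (r i : A) (h : r ≠ i) (hr : r ≠ 4) (hi : i ≠ 4) (s : A → R) (x y : R) :
    ev bqL (update s i (x + y) ∘ rho r) =
      ev bqL (update s i x ∘ rho r) + ev bqL (update s i y ∘ rho r) := by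
  obtain ⟨j, hj⟩ : ∃ j, ∀ k, rho r k = i ↔ k = j := by
    revert r i; decide +kernel
  have : ∀ z, update s i z ∘ rho r = update (s ∘ rho r) j z := fun z => by
    ext k
    by_cases hk : k = j
    · subst hk; simp [(hj k).2 rfl]
    · simp [update_of_ne hk, update_of_ne (mt (hj k).1 hk)]
  simp only [this]
  exact ev_add (bq1 j) _ _ _

lemma G_eq (i : A) (hi : i ≠ 4) (s : A → R) (x y : R) :
    2 • ev bqL (update s i (x + y) ∘ rho i) =
      2 • ev bqL (update s i x ∘ rho i) + 2 • ev bqL (update s i y ∘ rho i) +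
        ev dL (update (update (s ∘ rho i) 0 x) 4 y) := by
  have hj : ∀ k, rho i k = i ↔ k = 0 ∨ k = 4 := by revert i; decide +kernel
  have : ∀ z, update s i z ∘ rho i = update (update (s ∘ rho i) 0 z) 4 z := fun z => by
    ext k
    by_cases h4 : k = 4
    · subst h4; simp [(hj 4).2 (.inr rfl)]
    by_cases h0 : k = 0
    · subst h0; simp [(hj 0).2 (.inl rfl)]
    simp [update_of_ne h4, update_of_ne h0, update_of_ne (mt (hj k).1 (not_or.2 ⟨h0, h4⟩))]
  simp only [this]
  generalize s ∘ rho i = u
  have e : update (update u 0 x) 4 y ∘ sw = update (update u 0 y) 4 x := by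
    ext k; fin_cases k <;> simp [sw]
  have e2 : ∀ z, ev bqL (update (update u 0 (x + y)) 4 z) =
      ev bqL (update (update u 0 x) 4 z) + ev bqL (update (update u 0 y) 4 z) := fun z => by
    simp only [update_comm (show (0 : A) ≠ 4 by decide)]
    exact ev_add (bq1 0) _ _ _
  rw [dL, ev_app, ev_mp, ev_mp, e, comp_id, ev_add (bq1 4), e2, e2]
  simp only [smul_add]
  abel

lemma f_add (i : A) (hi : i ≠ 4) (s : A → R) (x y : R) : ∃ t : A → R,
    ev fL (update s i (x + y)) = ev fL (update s i x) + ev fL (update s i y) + ev dL t := by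
  refine ⟨update (update (s ∘ rho i) 0 x) 4 y, ?_⟩
  have st : ∀ q ∈ stL, (toL q.1).count i = 1 := by revert i; decide +kernel
  have h1 := G_eq i hi s x y
  simp only [fL, hL, ev_app, ev_mp, ev_add st]
  fin_cases i
  · simp only [Fin.zero_eta] at *
    rw [h1, G_ne 1 0 (by decide) (by decide) hi, G_ne 2 0 (by decide) (by decide) hi,
      G_ne 3 0 (by decide) (by decide) hi]
    simp only [smul_add]; abel
  · simp only [Fin.mk_one] at *
    rw [h1, G_ne 0 1 (by decide) (by decide) hi, G_ne 2 1 (by decide) (by decide) hi,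
      G_ne 3 1 (by decide) (by decide) hi]
    simp only [smul_add]; abel
  · simp only [Fin.reduceFinMk] at *
    rw [h1, G_ne 0 2 (by decide) (by decide) hi, G_ne 1 2 (by decide) (by decide) hi,
      G_ne 3 2 (by decide) (by decide) hi]
    simp only [smul_add]; abel
  · simp only [Fin.reduceFinMk] at *
    rw [h1, G_ne 0 3 (by decide) (by decide) hi, G_ne 1 3 (by decide) (by decide) hi,
      G_ne 2 3 (by decide) (by decide) hi]
    simp only [smul_add]; abel
  · exact absurd rfl hi

end gen

abbrev P := FreeAbelianGroup Wd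

open FreeAbelianGroup in
lemma vanish (F : (A → P) → ZMod 4)
    (hcl : ∀ s i, (∀ m, F (update s i (of m)) = 0) → ∀ z, F (update s i z) = 0)
    (hm : ∀ m : A → Wd, F (fun i => of (m i)) = 0) (s : A → P) : F s = 0 := by
  have : ∀ T : Finset A, ∀ s : A → P, (∀ j ∉ T, ∃ m, s j = of m) → F s = 0 := by
    intro T
    induction T using Finset.induction_on with
    | empty =>
      intro s h
      choose m hm' using fun j => h j (by simp)
      rw [show s = fun i => of (m i) from funext hm']
      exact hm m
    | insert i T _ ih =>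
      intro s h
      rw [← update_eq_self i s]
      refine hcl s i (fun m => ih _ fun j hj => ?_) _
      by_cases hji : j = i
      · subst hji; exact ⟨m, by simp⟩
      · rw [update_of_ne hji]; exact h j (by simp [hji, hj])
  exact this Finset.univ s (by simp)

lemma add_van (F : P → ZMod 4) (h : ∀ x y, F (x + y) = F x + F y)
    (h0 : ∀ m, F (FreeAbelianGroup.of m) = 0) (z : P) : F z = 0 := by
  have : AddMonoidHom.mk' F h = 0 := FreeAbelianGroup.lift_ext _ _ h0
  exact DFunLike.congr_fun this z

def Phi (a b : List A) : P →+ ZMod 4 :=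
  FreeAbelianGroup.lift fun w => (phi (a ++ toL w ++ b) : ZMod 4)

lemma toL_mul (u v : Wd) : toL (u * v) = toL u ++ toL v := rfl

lemma lift_of (m : A → Wd) (w : Wd) : ∃ v : Wd, FreeSemigroup.lift
    (fun i => FreeAbelianGroup.of (m i)) w = FreeAbelianGroup.of v ∧
    toL v = (toL w).flatMap fun i => toL (m i) := by
  induction w using FreeSemigroup.recOnMul with
  | ih1 x => exact ⟨m x, rfl, by simp [toL]⟩
  | ih2 x y _ h =>
    obtain ⟨v, h1, h2⟩ := h
    refine ⟨m x * v, by rw [FreeSemigroup.lift_of_mul, h1, FreeAbelianGroup.of_mul], ?_⟩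
    rw [toL_mul, toL_mul, h2]
    simp [toL]

lemma Phi_ev (a b : List A) (m : A → Wd) (p : List (Wd × ℕ)) :
    Phi a b (ev p fun i => FreeAbelianGroup.of (m i)) = sm p a (fun i => toL (m i)) b := by
  unfold ev sm
  rw [map_list_sum, Nat.cast_list_sum, List.map_map, List.map_map]
  congr 1
  refine List.map_congr_left fun q _ => ?_
  obtain ⟨v, h1, h2⟩ := lift_of m q.1
  simp only [comp, map_nsmul, h1, Phi, FreeAbelianGroup.lift_apply_of, h2, nsmul_eq_mul,
    Nat.cast_mul]

lemma D0 (a b : List A) (s : A → P) : Phi a b (ev dL s) = 0 := by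
  have h1 : ∀ i : A, ∀ q ∈ dL, (toL q.1).count i = 1 := by decide +kernel
  refine vanish (fun s => Phi a b (ev dL s)) (fun s i h => add_van
    (fun z => Phi a b (ev dL (update s i z))) (fun x y => ?_) h) (fun m => ?_) s
  · rw [ev_add (h1 i), map_add]
  · rw [Phi_ev]; exact zeroD a b _ fun i => by simp [toL]

lemma F0 (a b : List A) (s : A → P) : Phi a b (ev fL s) = 0 := by
  refine vanish (fun s => Phi a b (ev fL s)) (fun s i h => ?_) (fun m => ?_) s
  · by_cases hi : i = 4
    · subst hi
      have h1 : ∀ q ∈ fL, (4 : A) ∉ toL q.1 := by decide +kernel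
      intro z
      have := h (FreeSemigroup.of 0)
      simp only [ev_not h1] at this ⊢
      exact this
    · refine add_van (fun z => Phi a b (ev fL (update s i z))) (fun x y => ?_) h
      obtain ⟨t, ht⟩ := f_add i hi s x y
      rw [ht, map_add, map_add, D0, add_zero]
  · rw [Phi_ev]; exact zeroF a b _ fun i => by simp [toL]

def J : TwoSidedIdeal P := TwoSidedIdeal.mk' {r | ∀ a b, Phi a b r = 0}
  (fun _ _ => map_zero _) (fun hx hy a b => by rw [map_add, hx, hy, add_zero])
  (fun hx a b => by rw [map_neg, hx, neg_zero])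
  (fun {x y} hy a b => add_van (fun x => Phi a b (x * y)) (fun _ _ => by rw [add_mul, map_add])
    (fun u => by
      rw [← hy (a ++ toL u) b, ← sub_eq_zero]
      refine add_van (fun y => Phi a b (FreeAbelianGroup.of u * y) - Phi (a ++ toL u) b y)
        (fun _ _ => by rw [mul_add, map_add, map_add]; ring) (fun v => ?_) y
      simp [← FreeAbelianGroup.of_mul, Phi, toL_mul]) x)
  (fun {x y} hx a b => add_van (fun y => Phi a b (x * y)) (fun _ _ => by rw [mul_add, map_add])
    (fun u => by
      rw [← hx a (toL u ++ b), ← sub_eq_zero]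
      refine add_van (fun x => Phi a b (x * FreeAbelianGroup.of u) - Phi a (toL u ++ b) x)
        (fun _ _ => by rw [add_mul, map_add, map_add]; ring) (fun v => ?_) x
      simp [← FreeAbelianGroup.of_mul, Phi, toL_mul]) y)

def Q : Type := J.ringCon.Quotient

instance : NonUnitalRing Q := inferInstanceAs (NonUnitalRing J.ringCon.Quotient)

def pr : P →ₙ+* Q where
  toFun x := (x : J.ringCon.Quotient)
  map_mul' _ _ := rfl
  map_zero' := rfl
  map_add' _ _ := rfl

lemma pr_surj : Surjective pr := Quotient.mk''_surjective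

lemma pr_zero {x : P} : pr x = 0 ↔ ∀ a b, Phi a b x = 0 := by
  have : pr x = 0 ↔ J.ringCon x 0 := RingCon.eq _
  rw [this, TwoSidedIdeal.rel_iff, sub_zero, J, TwoSidedIdeal.mem_mk']
  rfl

lemma ev_Q (r : A → Q) : ev fL r = 0 := by
  choose s hs using fun i => pr_surj (r i)
  have : ev fL r = pr (ev fL s) := by
    unfold ev
    rw [map_list_sum, List.map_map]
    congr 1
    refine List.map_congr_left fun q _ => ?_
    simp only [comp, map_nsmul]
    congr 1
    induction q.1 using FreeSemigroup.recOnMul with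
    | ih1 x => exact (hs x).symm
    | ih2 x y _ h => rw [FreeSemigroup.lift_of_mul, FreeSemigroup.lift_of_mul, map_mul, h, hs]
  rw [this, pr_zero]
  exact fun a b => F0 a b s

lemma phi5 (τ : Equiv.Perm A) :
    (phi [τ 0, τ 1, τ 2, τ 3, τ 4] : ZMod 4) = if τ = 1 then 2 else 0 := by
  have h : ∀ a b c d e : A, [a, b, c, d, e] ≠ [0, 1, 2, 3, 4] → phi [a, b, c, d, e] = 0 := by
    decide +kernel
  split_ifs with h1
  · subst h1
    have : phi [0, 1, 2, 3, 4] = 2 := by decide +kernel
    simp [this]
  · rw [h, Nat.cast_zero]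
    intro h2
    apply h1
    ext i
    simp only [List.cons.injEq] at h2
    fin_cases i <;> simp [h2]

theorem noml (α : Equiv.Perm A → ℤ)
    (h : ∀ x : A → Q, ∑ σ, α σ • (x (σ 0) * x (σ 1) * x (σ 2) * x (σ 3) * x (σ 4)) = 0)
    (σ : Equiv.Perm A) : Even (α σ) := by
  have h1 := h fun i => pr (FreeAbelianGroup.of (FreeSemigroup.of (σ⁻¹ i)))
  simp only [← map_mul, ← map_zsmul, ← FreeAbelianGroup.of_mul] at h1
  rw [← map_sum, pr_zero] at h1
  have h2 := h1 [] []
  simp only [map_sum, map_zsmul, Phi, FreeAbelianGroup.lift_apply_of] at h2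
  have h3 : ∑ τ, α τ • (if σ⁻¹ * τ = 1 then (2 : ZMod 4) else 0) = 0 := by
    refine Eq.trans (Finset.sum_congr rfl fun τ _ => ?_) h2
    rw [← phi5]; rfl
  simp only [inv_mul_eq_one, smul_ite, smul_zero, Finset.sum_ite_eq, Finset.mem_univ,
    if_true] at h3
  have h4 : ((α σ * 2 : ℤ) : ZMod 4) = 0 := by push_cast; rwa [zsmul_eq_mul] at h3
  rw [ZMod.intCast_zmod_eq_zero_iff_dvd] at h4
  rw [even_iff_two_dvd]
  push_cast at h4
  omega

end Pool.Agent.H33.Pid
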