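import Mathlib

set_option autoImplicit false

namespace Pool.Agent.H33.ProbED

open Polynomial

noncomputable def SS (R : Type*) [CommRing R] : R[X] := 2 * X ^ 2 - 2 * X + 1

noncomputable def HH {R : Type*} [CommRing R] (D1 E1 D2 DE E2 : R) : R[X] :=
  (2 * X - 1) * (26 * (C E2 + 2 * X * C DE + X ^ 2 * C D2) + (2 * X ^ 2 - 2 * X + 1) ^ 2
      - (C E1 + X * C D1) ^ 2)
    - (2 * X ^ 2 - 2 * X + 1) * (26 * (C DE + X * C D2)
      + ((2 * X ^ 2 - 2 * X + 1) - (C E1 + X * C D1)) * C D1)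

noncomputable def hp {R : Type*} [CommRing R] (t0 t1 : Fin 26 → R) : R[X] :=
  HH (∑ j, (t0 j - t1 j)) (∑ j, t1 j) (∑ j, (t0 j - t1 j) ^ 2) (∑ j, (t0 j - t1 j) * t1 j)
    (∑ j, t1 j ^ 2)

lemma hp_map {R S : Type*} [CommRing R] [CommRing S] (φ : R →+* S) (t0 t1 : Fin 26 → R) :
    (hp t0 t1).map φ = hp (fun j => φ (t0 j)) (fun j => φ (t1 j)) := by
  simp [hp, HH, Polynomial.map_sub, Polynomial.map_add, Polynomial.map_mul, Polynomial.map_pow,
    -map_sum, map_sum φ]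

lemma HH_deg (D1 E1 D2 DE E2 : ℂ) : (HH D1 E1 D2 DE E2).natDegree = 5 := by
  unfold HH
  compute_degree!

lemma HH_deg2 (D1 E1 D2 DE E2 : ℂ) :
    (derivative (HH D1 E1 D2 DE E2) * SS ℂ).natDegree = 6 := by
  have h1 : (SS ℂ).natDegree = 2 := by unfold SS; compute_degree!
  have h2 : (derivative (HH D1 E1 D2 DE E2)).natDegree = 4 := by
    rw [natDegree_derivative, HH_deg]
  rw [natDegree_mul, h1, h2]
  · intro h; rw [h] at h2; simp at h2
  · intro h; rw [h] at h1; simp at h1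

noncomputable def res {R : Type*} [CommRing R] (t0 t1 : Fin 26 → R) : R :=
  resultant (hp t0 t1) (derivative (hp t0 t1) * SS R) 5 6

lemma res_map {R S : Type*} [CommRing R] [CommRing S] (φ : R →+* S) (t0 t1 : Fin 26 → R) :
    φ (res t0 t1) = res (fun j => φ (t0 j)) (fun j => φ (t1 j)) := by
  rw [res, ← resultant_map_map, Polynomial.map_mul, ← derivative_map, hp_map]
  have : (SS R).map φ = SS S := by
    simp [SS, Polynomial.map_sub, Polynomial.map_add, Polynomial.map_mul, Polynomial.map_pow]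
  rw [this, res]

lemma res_ne_iff (t0 t1 : Fin 26 → ℂ) :
    res t0 t1 ≠ 0 ↔ IsCoprime (hp t0 t1) (derivative (hp t0 t1) * SS ℂ) := by
  have h1 : (hp t0 t1).natDegree = 5 := HH_deg ..
  have h2 : (derivative (hp t0 t1) * SS ℂ).natDegree = 6 := HH_deg2 ..
  have h3 : hp t0 t1 ≠ 0 := by intro h; rw [h] at h1; simp at h1
  have := resultant_eq_zero_iff (f := hp t0 t1) (g := derivative (hp t0 t1) * SS ℂ)
  rw [h1, h2] at this
  rw [res, Ne, this]
  simp [h3]

def CritP (t0 t1 x0 x1 : Fin 26 → ℂ) : Prop :=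
  ∑ j, x0 j + ∑ j, x1 j = 1 ∧ ∃ (a0 a1 : ℂ) (c : Fin 26 → ℂ),
    (∀ j, x0 j = a0 * c j) ∧ (∀ j, x1 j = a1 * c j) ∧ ∀ (b0 b1 : ℂ) (e : Fin 26 → ℂ),
      ∑ j, (b0 * c j + e j * a0) + ∑ j, (b1 * c j + e j * a1) = 0 →
      ∑ j, (x0 j - t0 j) * (b0 * c j + e j * a0) + ∑ j, (x1 j - t1 j) * (b1 * c j + e j * a1) = 0

noncomputable def ww (t0 t1 : Fin 26 → ℂ) (z : ℂ) (j : Fin 26) : ℂ :=
  26 * (t1 j + z * (t0 j - t1 j)) + (2 * z ^ 2 - 2 * z + 1)
    - (∑ j, t1 j + z * ∑ j, (t0 j - t1 j))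

noncomputable def qq (t0 t1 : Fin 26 → ℂ) (z : ℂ) (j : Fin 26) : ℂ :=
  ww t0 t1 z j / (26 * (2 * z ^ 2 - 2 * z + 1))

lemma sum_ww (t0 t1 : Fin 26 → ℂ) (z : ℂ) :
    ∑ j, ww t0 t1 z j = 26 * (2 * z ^ 2 - 2 * z + 1) := by
  simp only [ww, Finset.sum_sub_distrib, Finset.sum_add_distrib, ← Finset.mul_sum,
    Finset.sum_const, Finset.card_univ, Fintype.card_fin, nsmul_eq_mul]
  push_cast; ring

lemma eval_hp (t0 t1 : Fin 26 → ℂ) (z : ℂ) :
    26 * (hp t0 t1).eval z = ∑ j, ((2 * z - 1) * ww t0 t1 z j ^ 2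
      - 26 * (2 * z ^ 2 - 2 * z + 1) * ((t0 j - t1 j) * ww t0 t1 z j)) := by
  set L := (2 * z ^ 2 - 2 * z + 1) - (∑ j, t1 j + z * ∑ j, (t0 j - t1 j)) with hL
  have h1 : ∀ j, (2 * z - 1) * ww t0 t1 z j ^ 2
      - 26 * (2 * z ^ 2 - 2 * z + 1) * ((t0 j - t1 j) * ww t0 t1 z j)
      = ((2 * z - 1) * 676) * t1 j ^ 2
        + ((2 * z - 1) * 1352 * z - 676 * (2 * z ^ 2 - 2 * z + 1)) * ((t0 j - t1 j) * t1 j)
        + ((2 * z - 1) * 676 * z ^ 2 - 676 * (2 * z ^ 2 - 2 * z + 1) * z) * (t0 j - t1 j) ^ 2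
        + ((2 * z - 1) * 52 * L) * t1 j
        + ((2 * z - 1) * 52 * L * z - 26 * (2 * z ^ 2 - 2 * z + 1) * L) * (t0 j - t1 j)
        + (2 * z - 1) * L ^ 2 := by
    intro j; rw [hL, ww]; ring
  rw [Finset.sum_congr rfl fun j _ => h1 j]
  simp only [Finset.sum_add_distrib, ← Finset.mul_sum, Finset.sum_const, Finset.card_univ,
    Fintype.card_fin, nsmul_eq_mul]
  rw [hL]
  simp only [hp, HH, eval_sub, eval_add, eval_mul, eval_pow, eval_X, eval_C, eval_ofNat, eval_one]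
  push_cast; ring

lemma crit_iff (t0 t1 x0 x1 : Fin 26 → ℂ)
    (hs : ∀ z : ℂ, (hp t0 t1).eval z = 0 → 2 * z ^ 2 - 2 * z + 1 ≠ 0) :
    CritP t0 t1 x0 x1 ↔ ∃ z, (hp t0 t1).eval z = 0 ∧
      (∀ j, x0 j = z * qq t0 t1 z j) ∧ ∀ j, x1 j = (1 - z) * qq t0 t1 z j := by
  constructor
  · rintro ⟨hsum, a0, a1, c, h0, h1, hc⟩
    have hA : (a0 + a1) * ∑ j, c j = 1 := by
      rw [← hsum]; simp only [h0, h1, ← Finset.mul_sum]; ring
    set Cs := ∑ j, c j with hCs
    set z := a0 * Cs with hz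
    have hz1 : 1 - z = a1 * Cs := by rw [hz]; linear_combination -hA
    have hx0 : ∀ j, x0 j = z * ((a0 + a1) * c j) := by
      intro j; rw [h0, hz]; linear_combination (-a0 * c j) * hA
    have hx1 : ∀ j, x1 j = (1 - z) * ((a0 + a1) * c j) := by
      intro j; rw [h1, hz1]; linear_combination (-a1 * c j) * hA
    have t1' := hc 1 (-1) 0 (by simp)
    have hu : ∀ j, 26 * (a0 * (x0 j - t0 j) + a1 * (x1 j - t1 j))
        = ∑ k, (a0 * (x0 k - t0 k) + a1 * (x1 k - t1 k)) := by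
      intro j
      have h2 := hc 0 0 (fun k => (if k = j then 26 else 0) - 1) (by
        simp only [zero_mul, zero_add, ← Finset.sum_mul, Finset.sum_sub_distrib]
        simp)
      rw [← Finset.sum_add_distrib] at h2
      have h3 : ∀ k, (x0 k - t0 k) * (0 * c k + ((if k = j then 26 else 0) - 1) * a0)
          + (x1 k - t1 k) * (0 * c k + ((if k = j then 26 else 0) - 1) * a1)
          = (if k = j then 26 * (a0 * (x0 k - t0 k) + a1 * (x1 k - t1 k)) else 0)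
            - (a0 * (x0 k - t0 k) + a1 * (x1 k - t1 k)) := by
        intro k; split_ifs <;> ring
      rw [Finset.sum_congr rfl fun k _ => h3 k, Finset.sum_sub_distrib, Finset.sum_ite_eq'] at h2
      simp only [Finset.mem_univ, if_true] at h2
      linear_combination h2
    have hw : ∀ j, ww t0 t1 z j = 26 * (2 * z ^ 2 - 2 * z + 1) * ((a0 + a1) * c j) := by
      intro j
      have h2 := hu j
      have h3 : Cs * ∑ k, (a0 * (x0 k - t0 k) + a1 * (x1 k - t1 k))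
          = (2 * z ^ 2 - 2 * z + 1) - (∑ j, t1 j + z * ∑ j, (t0 j - t1 j)) := by
        have h4 : ∀ k, Cs * (a0 * (x0 k - t0 k) + a1 * (x1 k - t1 k))
            = ((2 * z ^ 2 - 2 * z + 1) * (a0 + a1)) * c k - (t1 k + z * (t0 k - t1 k)) := by
          intro k
          have e : Cs * (a0 * (x0 k - t0 k) + a1 * (x1 k - t1 k))
            = z * (x0 k - t0 k) + (1 - z) * (x1 k - t1 k) := by rw [hz1, hz]; ring
          rw [e, hx0, hx1]; ring
        rw [Finset.mul_sum, Finset.sum_congr rfl fun k _ => h4 k]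
        simp only [Finset.sum_sub_distrib, Finset.sum_add_distrib, ← Finset.mul_sum]
        linear_combination (2 * z ^ 2 - 2 * z + 1) * hA
      have e : Cs * (a0 * (x0 j - t0 j) + a1 * (x1 j - t1 j))
        = z * (x0 j - t0 j) + (1 - z) * (x1 j - t1 j) := by rw [hz1, hz]; ring
      rw [hx0, hx1] at e
      rw [ww]
      linear_combination (-1 : ℂ) * h3 - Cs * h2 + 26 * e
        + 26 * Cs * a0 * hx0 j + 26 * Cs * a1 * hx1 j
    have hh : (hp t0 t1).eval z = 0 := by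
      have h2 := eval_hp t0 t1 z
      rw [← Finset.sum_add_distrib] at t1'
      have h3 : ∀ j, (2 * z - 1) * ww t0 t1 z j ^ 2
          - 26 * (2 * z ^ 2 - 2 * z + 1) * ((t0 j - t1 j) * ww t0 t1 z j)
          = (676 * (2 * z ^ 2 - 2 * z + 1) ^ 2 * (a0 + a1)) *
            ((x0 j - t0 j) * (1 * c j + (0 : Fin 26 → ℂ) j * a0)
              + (x1 j - t1 j) * (-1 * c j + (0 : Fin 26 → ℂ) j * a1)) := by
        intro j; rw [hw, hx0, hx1]; simp only [Pi.zero_apply]; ring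
      rw [Finset.sum_congr rfl fun j _ => h3 j, ← Finset.mul_sum, t1', mul_zero] at h2
      linear_combination h2 / 26
    have hs' := hs z hh
    have hq : ∀ j, qq t0 t1 z j = (a0 + a1) * c j := by
      intro j; rw [qq, hw, mul_div_cancel_left₀ _ (mul_ne_zero (by norm_num) hs')]
    exact ⟨z, hh, fun j => by rw [hq, hx0], fun j => by rw [hq, hx1]⟩
  · rintro ⟨z, hh, hx0, hx1⟩
    have hs' := hs z hh
    have hw : ∀ j, ww t0 t1 z j = 26 * (2 * z ^ 2 - 2 * z + 1) * qq t0 t1 z j := by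
      intro j; rw [qq, mul_div_cancel₀ _ (mul_ne_zero (by norm_num) hs')]
    have hq1 : ∑ j, qq t0 t1 z j = 1 := by
      simp only [qq, ← Finset.sum_div, sum_ww]; exact div_self (mul_ne_zero (by norm_num) hs')
    set L := ((2 * z ^ 2 - 2 * z + 1) - (∑ j, t1 j + z * ∑ j, (t0 j - t1 j))) / 26 with hL
    have hl : ∀ j, z * (x0 j - t0 j) + (1 - z) * (x1 j - t1 j) = L := by
      intro j
      have := hw j
      rw [ww] at this
      rw [hx0, hx1, hL]
      linear_combination (-1 / 26 : ℂ) * this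
    have hd : ∑ j, ((x0 j - t0 j) - (x1 j - t1 j)) * qq t0 t1 z j = 0 := by
      have h2 := eval_hp t0 t1 z
      have h3 : ∀ j, (2 * z - 1) * ww t0 t1 z j ^ 2
          - 26 * (2 * z ^ 2 - 2 * z + 1) * ((t0 j - t1 j) * ww t0 t1 z j)
          = (676 * (2 * z ^ 2 - 2 * z + 1) ^ 2) *
            (((x0 j - t0 j) - (x1 j - t1 j)) * qq t0 t1 z j) := by
        intro j; rw [hw, hx0, hx1]; ring
      rw [Finset.sum_congr rfl fun j _ => h3 j, ← Finset.mul_sum, hh, mul_zero] at h2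
      exact (mul_eq_zero.1 h2.symm).resolve_left (mul_ne_zero (by norm_num) (pow_ne_zero _ hs'))
    refine ⟨?_, z, 1 - z, qq t0 t1 z, hx0, hx1, fun b0 b1 e he => ?_⟩
    · simp only [hx0, hx1, ← Finset.mul_sum, hq1]; ring
    · have he' : b0 + b1 + ∑ j, e j = 0 := by
        simp only [Finset.sum_add_distrib, ← Finset.mul_sum, ← Finset.sum_mul, hq1] at he
        linear_combination he
      rw [← Finset.sum_add_distrib]
      have h3 : ∀ j, (x0 j - t0 j) * (b0 * qq t0 t1 z j + e j * z)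
          + (x1 j - t1 j) * (b1 * qq t0 t1 z j + e j * (1 - z))
          = (b0 * (1 - z) - b1 * z) * (((x0 j - t0 j) - (x1 j - t1 j)) * qq t0 t1 z j)
            + ((b0 + b1) * L) * qq t0 t1 z j + L * e j := by
        intro j; rw [← hl j]; ring
      rw [Finset.sum_congr rfl fun j _ => h3 j]
      simp only [Finset.sum_add_distrib, ← Finset.mul_sum, hd, hq1]
      linear_combination L * he'

lemma sum_qq (t0 t1 : Fin 26 → ℂ) (z : ℂ) (hs' : 2 * z ^ 2 - 2 * z + 1 ≠ 0) :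
    ∑ j, qq t0 t1 z j = 1 := by
  simp only [qq, ← Finset.sum_div, sum_ww]; exact div_self (mul_ne_zero (by norm_num) hs')

lemma hs_of_res (t0 t1 : Fin 26 → ℂ) (h : res t0 t1 ≠ 0) (z : ℂ)
    (hz : (hp t0 t1).eval z = 0) : 2 * z ^ 2 - 2 * z + 1 ≠ 0 := by
  intro hs
  obtain ⟨u, v, huv⟩ := (res_ne_iff t0 t1).1 h
  have := congrArg (eval z) huv
  simp [hz, SS, hs] at this

lemma card_roots (t0 t1 : Fin 26 → ℂ) (h : res t0 t1 ≠ 0) :
    {z | (hp t0 t1).eval z = 0}.Finite ∧ {z | (hp t0 t1).eval z = 0}.ncard = 5 := by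
  classical
  have h1 : (hp t0 t1).natDegree = 5 := HH_deg ..
  have h3 : hp t0 t1 ≠ 0 := by intro h; rw [h] at h1; simp at h1
  have hsep : (hp t0 t1).Separable := ((res_ne_iff t0 t1).1 h).of_mul_right_left
  have e : {z | (hp t0 t1).eval z = 0} = ((hp t0 t1).roots.toFinset : Set ℂ) := by
    ext z; simp [h3]
  rw [e]
  refine ⟨Finset.finite_toSet _, ?_⟩
  rw [Set.ncard_coe_finset, Multiset.toFinset_card_of_nodup (nodup_roots hsep),
    IsAlgClosed.card_roots_eq_natDegree, h1]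

def T1 : Fin 26 → ℂ := fun j => if j = 0 then 1 else 0

lemma hp_T : hp (fun _ => (0:ℂ)) T1 = 8 * X ^ 5 - 16 * X ^ 4 + 16 * X ^ 3 - 33 * X ^ 2 + 27 * X := by
  have a1 : ∑ j, ((0:ℂ) - T1 j) = -1 := by simp [T1]
  have a2 : ∑ j, T1 j = 1 := by simp [T1]
  have a3 : ∑ j, ((0:ℂ) - T1 j) ^ 2 = 1 := by simp [T1]
  have a4 : ∑ j, ((0:ℂ) - T1 j) * T1 j = -1 := by simp [T1]
  have a5 : ∑ j, T1 j ^ 2 = 1 := by simp [T1]
  rw [hp, a1, a2, a3, a4, a5, HH]
  simp only [map_neg, map_one]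
  ring

lemma res_T : res (fun _ => (0:ℂ)) T1 ≠ 0 := by
  rw [res_ne_iff, hp_T]
  have hd : derivative (8 * X ^ 5 - 16 * X ^ 4 + 16 * X ^ 3 - 33 * X ^ 2 + 27 * X : ℂ[X])
      = 40 * X ^ 4 - 64 * X ^ 3 + 48 * X ^ 2 - 66 * X + 27 := by
    simp only [derivative_add, derivative_sub, derivative_mul, derivative_X_pow, derivative_ofNat,
      derivative_X, map_natCast]
    push_cast; ring
  rw [hd, SS]
  refine ⟨C (1 / 5595075) * (1833810 - 3975120 * X + 6130304 * X ^ 2 - 5773488 * X ^ 3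
      + 4831184 * X ^ 4 - 2926240 * X ^ 5),
    C (1 / 5595075) * (207225 - 912810 * X + 363560 * X ^ 2 - 307544 * X ^ 3 + 292624 * X ^ 4), ?_⟩
  have : (C (1 / 5595075) * 5595075 : ℂ[X]) = 1 := by
    rw [← map_ofNat C, ← map_mul]; norm_num
  linear_combination this

end Pool.Agent.H33.ProbED
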