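import Mathlib

set_option autoImplicit false

namespace Pool.Agent.H33.Toric

open MvPolynomial

variable {F V : Type*}

noncomputable def ex (r : F → (V →₀ ℕ)) (m : F →₀ ℕ) : V →₀ ℕ := m.sum fun f k => k • r f

lemma aeval_mono (r : F → (V →₀ ℕ)) (m : F →₀ ℕ) (c : ℂ) :
    aeval (fun f => (monomial (r f) (1:ℂ) : MvPolynomial V ℂ)) (monomial m c)
      = monomial (ex r m) c := by
  rw [aeval_monomial, ex]
  have h : (m.prod fun i k => (monomial (r i) (1:ℂ) : MvPolynomial V ℂ) ^ k)
      = monomial (m.sum fun f k => k • r f) 1 := by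
    rw [Finsupp.prod, Finsupp.sum, monomial_sum_one]
    refine Finset.prod_congr rfl fun i _ => ?_
    rw [monomial_pow, one_pow]
  rw [h, algebraMap_eq, C_mul_monomial, mul_one]

lemma key (r : F → (V →₀ ℕ)) (p : F → ℂ) (P : (F →₀ ℕ) → Prop)
    (h : ∀ m m', P m → P m' → ex r m = ex r m' →
      (m.prod fun f k => p f ^ k) = m'.prod fun f k => p f ^ k)
    (q : MvPolynomial F ℂ)
    (hq : aeval (fun f => (monomial (r f) (1:ℂ) : MvPolynomial V ℂ)) q = 0)
    (hP : ∀ m ∈ q.support, P m) : eval p q = 0 := by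
  classical
  let G : (V →₀ ℕ) → ℂ := fun e =>
    if he : ∃ m, P m ∧ ex r m = e then (he.choose.prod fun f k => p f ^ k) else 0
  let L : MvPolynomial V ℂ →ₗ[ℂ] ℂ := (basisMonomials V ℂ).constr ℂ G
  have hL : ∀ m c, P m → L (monomial (ex r m) c) = c * m.prod fun f k => p f ^ k := by
    intro m c hm
    have h1 : (monomial (ex r m) c : MvPolynomial V ℂ) = c • basisMonomials V ℂ (ex r m) := by
      simp [smul_monomial]
    have he : ∃ m', P m' ∧ ex r m' = ex r m := ⟨m, hm, rfl⟩
    rw [h1, map_smul, Module.Basis.constr_basis, smul_eq_mul]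
    simp only [G, dif_pos he]
    rw [h _ _ he.choose_spec.1 hm he.choose_spec.2]
  have h2 : L (aeval (fun f => (monomial (r f) (1:ℂ) : MvPolynomial V ℂ)) q) = eval p q := by
    conv_lhs => rw [q.as_sum]
    conv_rhs => rw [q.as_sum]
    rw [map_sum, map_sum, map_sum]
    refine Finset.sum_congr rfl fun m hm => ?_
    rw [aeval_mono, hL m _ (hP m hm), eval_monomial]
  rw [← h2, hq, map_zero]

lemma weight_ex {M : Type*} [AddCommMonoid M] (r : F → (V →₀ ℕ)) (ψ : V → M) (m : F →₀ ℕ) :
    Finsupp.weight ψ (ex r m) = ∑ f ∈ m.support, m f • Finsupp.weight ψ (r f) := by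
  rw [ex, Finsupp.sum, map_sum]
  refine Finset.sum_congr rfl fun f _ => ?_
  rw [map_nsmul]

open Classical in
noncomputable def pt (E : F → Prop) (e0 : F) : F → ℂ :=
  fun f => if f = e0 then 2 else if E f then 1 else 0

lemma sep (r : F → (V →₀ ℕ)) (E : F → Prop) (e0 e1 : F) (he0 : E e0)
    (ψ0 : V → ℕ) (hψ0 : ∀ f, Finsupp.weight ψ0 (r f) = 0 ↔ E f)
    (ψ : V → ℤ) (a b : ℤ)
    (hψ0' : Finsupp.weight ψ (r e0) = a) (hψ1 : e1 ≠ e0 → Finsupp.weight ψ (r e1) = b)
    (hψ : ∀ f, E f → f ≠ e0 → f ≠ e1 → Finsupp.weight ψ (r f) = 0)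
    (D : ℕ) (ha : a ≠ 0)
    (hD : ∀ x x' y y' : ℕ, y ≤ D → y' ≤ D → a * x + b * y = a * x' + b * y' → x = x')
    (q : MvPolynomial F ℂ)
    (hq : aeval (fun f => (monomial (r f) (1:ℂ) : MvPolynomial V ℂ)) q = 0)
    (hdeg : q.totalDegree ≤ D) : eval (pt E e0) q = 0 := by
  classical
  refine key r _ (fun m => m e1 ≤ D) ?_ q hq ?_
  · have hsupp : ∀ m : F →₀ ℕ, Finsupp.weight ψ0 (ex r m) = 0 ↔ ∀ f ∈ m.support, E f := by
      intro m
      rw [weight_ex, Finset.sum_eq_zero_iff]
      refine forall₂_congr fun f hf => ?_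
      rw [smul_eq_mul, mul_eq_zero, hψ0]
      have := Finsupp.mem_support_iff.1 hf
      tauto
    have hbad : ∀ m : F →₀ ℕ, (¬ ∀ f ∈ m.support, E f) →
        (m.prod fun f k => pt E e0 f ^ k) = 0 := by
      intro m hm
      push Not at hm
      obtain ⟨f, hf, hE⟩ := hm
      refine Finset.prod_eq_zero hf ?_
      have hne : f ≠ e0 := by rintro rfl; exact hE he0
      simp only [pt, if_neg hne, if_neg hE]
      exact zero_pow (Finsupp.mem_support_iff.1 hf)
    have hgood : ∀ m : F →₀ ℕ, (∀ f ∈ m.support, E f) →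
        (m.prod fun f k => pt E e0 f ^ k) = 2 ^ m e0 := by
      intro m hm
      rw [Finsupp.prod, Finset.prod_eq_single e0]
      · simp [pt]
      · intro f hf hne
        simp [pt, hne, hm f hf]
      · intro h
        rw [Finsupp.notMem_support_iff.1 h, pow_zero]
    have hw : ∀ m : F →₀ ℕ, (∀ f ∈ m.support, E f) →
        Finsupp.weight ψ (ex r m) = a * m e0 + (if e1 = e0 then 0 else b * m e1) := by
      intro m hm
      rw [weight_ex]
      by_cases h01 : e1 = e0
      · subst h01
        rw [Finset.sum_eq_single e1]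
        · simp [hψ0', mul_comm]
        · intro f hf hne
          rw [hψ f (hm f hf) hne hne, smul_zero]
        · intro h
          rw [Finsupp.notMem_support_iff.1 h, zero_smul]
      · rw [Finset.sum_eq_add e0 e1 (Ne.symm h01)]
        · simp [hψ0', hψ1 h01, h01, mul_comm]
        · intro f hf hne
          rw [hψ f (hm f hf) hne.1 hne.2, smul_zero]
        · intro h
          rw [Finsupp.notMem_support_iff.1 h, zero_smul]
        · intro h
          rw [Finsupp.notMem_support_iff.1 h, zero_smul]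
    intro m m' hm hm' hex
    by_cases h1 : ∀ f ∈ m.support, E f
    · have h2 : ∀ f ∈ m'.support, E f := by
        rw [← hsupp, ← hex, hsupp]; exact h1
      rw [hgood m h1, hgood m' h2]
      have h3 := hw m h1
      rw [hex, hw m' h2] at h3
      by_cases h01 : e1 = e0
      · simp only [h01, if_true, add_zero] at h3
        have := mul_left_cancel₀ ha h3
        have h4 : m' e0 = m e0 := by exact_mod_cast this
        rw [h4]
      · simp only [h01, if_false] at h3
        rw [hD _ _ _ _ hm' hm h3]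
    · have h2 : ¬ ∀ f ∈ m'.support, E f := by
        rw [← hsupp, ← hex, hsupp]; exact h1
      rw [hbad m h1, hbad m' h2]
  · intro m hm
    refine le_trans ?_ (le_trans (le_totalDegree hm) hdeg)
    by_cases h : e1 ∈ m.support
    · exact Finset.single_le_sum (f := fun i => m i) (fun _ _ => Nat.zero_le _) h
    · rw [Finsupp.notMem_support_iff.1 h]; exact Nat.zero_le _

end Pool.Agent.H33.Toric
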