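import Mathlib
import Pool.Agent.H33.Toric

set_option autoImplicit false

namespace Pool.Agent.H33.Prolong

open MvPolynomial Pool.Agent.H33.Toric

abbrev Fl : Type := {g : Fin 4 → ZMod 12 // ∑ i, g i = 0}

def e0 : Fl := ⟨![0,0,0,0], by decide⟩
def e1 : Fl := ⟨![9,2,11,2], by decide⟩
def e2 : Fl := ⟨![5,3,8,8], by decide⟩
def d0 : Fl := ⟨![0,2,8,2], by decide⟩
def d1 : Fl := ⟨![9,3,0,0], by decide⟩
def d2 : Fl := ⟨![5,0,11,8], by decide⟩

noncomputable def ff : MvPolynomial Fl ℂ := X e0 * X e1 * X e2 - X d0 * X d1 * X d2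

lemma ff_mem : ff ∈ RingHom.ker (MvPolynomial.aeval (R := ℂ)
    (fun g : Fl => (∏ i, MvPolynomial.X (some i, g.1 i) :
      MvPolynomial (Option (Fin 4) × ZMod 12) ℂ))) := by
  rw [RingHom.mem_ker]
  simp only [ff, map_sub, map_mul, aeval_X, Fin.prod_univ_four, e0, e1, e2, d0, d1, d2]
  simp only [Matrix.cons_val_zero, Matrix.cons_val_one, Matrix.cons_val]
  ring

def ok (i : Fin 4) (x : ZMod 12) : Bool :=
  if i = 0 then (x = 0 ∨ x = 9 ∨ x = 5) else if i = 1 then (x = 0 ∨ x = 2 ∨ x = 3)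
  else if i = 2 then (x = 0 ∨ x = 11 ∨ x = 8) else (x = 0 ∨ x = 2 ∨ x = 8)

def EE (f : Fl) : Prop := ∀ i, ok i (f.1 i) = true

noncomputable def pp : Fl → ℂ := pt EE e0

lemma pp_e0 : pp e0 = 2 := by simp [pp, pt]

lemma pp_one (f : Fl) (h1 : f ≠ e0) (h2 : ∀ i, ok i (f.1 i) = true) : pp f = 1 := by
  have : EE f := h2
  simp [pp, pt, h1, this]

lemma ev_ff : eval pp ff = 1 := by
  simp only [ff, map_sub, map_mul, eval_X, pp_e0]
  rw [pp_one e1 (by decide) (by decide), pp_one e2 (by decide) (by decide),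
    pp_one d0 (by decide) (by decide), pp_one d1 (by decide) (by decide),
    pp_one d2 (by decide) (by decide)]
  norm_num

lemma cells (f : Fl) (h : EE f) : f = e0 ∨ f = e1 ∨ f = e2 ∨ f = d0 ∨ f = d1 ∨ f = d2 := by
  have key : ∀ a : ZMod 12, ok 0 a = true → ∀ b : ZMod 12, ok 1 b = true →
      ∀ c : ZMod 12, ok 2 c = true → ∀ d : ZMod 12, ok 3 d = true → a + b + c + d = 0 →
      ![a,b,c,d] = e0.1 ∨ ![a,b,c,d] = e1.1 ∨ ![a,b,c,d] = e2.1 ∨ ![a,b,c,d] = d0.1 ∨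
      ![a,b,c,d] = d1.1 ∨ ![a,b,c,d] = d2.1 := by decide +kernel
  have h1 := key _ (h 0) _ (h 1) _ (h 2) _ (h 3) (by rw [← Fin.sum_univ_four]; exact f.2)
  have h2 : ![f.1 0, f.1 1, f.1 2, f.1 3] = f.1 := by
    funext i; fin_cases i <;> rfl
  rw [h2] at h1
  simpa only [Subtype.ext_iff] using h1

noncomputable def rr (A : Finset (Fin 4)) (f : Fl) : (Option (Fin 4) × ZMod 12) →₀ ℕ :=
  Finsupp.single (none, ∑ i ∈ A, f.1 i) 1 + ∑ i, Finsupp.single (some i, f.1 i) 1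

lemma w_rr {M : Type} [AddCommMonoid M] (A : Finset (Fin 4)) (ψ : Option (Fin 4) × ZMod 12 → M)
    (f : Fl) : Finsupp.weight ψ (rr A f) = ψ (none, ∑ i ∈ A, f.1 i) + ∑ i, ψ (some i, f.1 i) := by
  simp [rr, Finsupp.weight_single]

def psi0 : Option (Fin 4) × ZMod 12 → ℕ
  | (none, _) => 0
  | (some i, x) => if ok i x = true then 0 else 1

def psi (A : Finset (Fin 4)) (v : Option (Fin 4) × ZMod 12) : ℤ :=
  if A = {0,1} then (if v = (some 0, 0) then 1 else if v = (none, 2) then -1 else 0)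
  else if A = {2,3} then (if v = (some 0, 0) then 1 else if v = (none, 10) then -1 else 0)
  else if v = (none, 0) then 1 else 0

def val (A : Finset (Fin 4)) (f : Fl) : ℤ :=
  psi A (none, ∑ i ∈ A, f.1 i) + ∑ i, psi A (some i, f.1 i)

lemma vanish (A : Finset (Fin 4)) (hA : A.card = 2) (q : MvPolynomial Fl ℂ)
    (hq : q ∈ RingHom.ker (MvPolynomial.aeval (R := ℂ)
      (fun g : Fl => (MvPolynomial.X (none, ∑ i ∈ A, g.1 i) *
        ∏ i, MvPolynomial.X (some i, g.1 i) : MvPolynomial (Option (Fin 4) × ZMod 12) ℂ)))) :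
    q ∈ RingHom.ker (eval pp) := by
  rw [RingHom.mem_ker] at hq ⊢
  have key : ∀ A : Finset (Fin 4), A.card = 2 → val A e0 = 1 ∧ val A e1 = 0 ∧ val A e2 = 0 ∧
      val A d0 = 0 ∧ val A d1 = 0 ∧ val A d2 = 0 := by decide +kernel
  refine sep (rr A) EE e0 e0 (by unfold EE; decide) psi0 ?_ (psi A) 1 0 ?_ (fun h => absurd rfl h) ?_
    q.totalDegree one_ne_zero ?_ q ?_ le_rfl
  · intro f
    rw [w_rr]
    simp [psi0, EE]
  · rw [w_rr]; exact (key A hA).1
  · intro f hf h0 _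
    rw [w_rr]
    obtain ⟨-, k1, k2, k3, k4, k5⟩ := key A hA
    rcases cells f hf with rfl | rfl | rfl | rfl | rfl | rfl
    exacts [absurd rfl h0, k1, k2, k3, k4, k5]
  · intro x x' y y' _ _ h
    simpa using h
  · have : (fun f => (monomial (rr A f) (1:ℂ) : MvPolynomial (Option (Fin 4) × ZMod 12) ℂ))
        = fun g : Fl => (MvPolynomial.X (none, ∑ i ∈ A, g.1 i) *
        ∏ i, MvPolynomial.X (some i, g.1 i) : MvPolynomial (Option (Fin 4) × ZMod 12) ℂ) := by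
      funext f
      simp [rr, X, monomial_mul, Fin.sum_univ_four, Fin.prod_univ_four]
    rw [this]; exact hq

end Pool.Agent.H33.Prolong
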