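import Mathlib

set_option autoImplicit false

namespace Pool.Agent.H33.QH

open MvPolynomial

lemma chain0 {n : ℕ} (f : MvPolynomial (Fin n) ℂ →ₐ[ℂ] MvPolynomial (Fin n) ℂ) (a : Fin n → ℂ)
    (p : MvPolynomial (Fin n) ℂ) :
    eval a (f p) = eval (fun i => eval a (f (X i))) p := by
  induction p using MvPolynomial.induction_on with
  | C c =>
    have : f (C c) = C c := f.commutes c
    simp [this]
  | add p q hp hq => simp only [map_add, hp, hq]
  | mul_X p k hp => simp [hp]

lemma chain {n : ℕ} (f : MvPolynomial (Fin n) ℂ →ₐ[ℂ] MvPolynomial (Fin n) ℂ) (a : Fin n → ℂ)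
    (j : Fin n) (p : MvPolynomial (Fin n) ℂ) :
    eval a (f p) = eval (fun i => eval a (f (X i))) p ∧
    eval a (pderiv j (f p)) =
      ∑ i, eval a (pderiv j (f (X i))) * eval (fun i => eval a (f (X i))) (pderiv i p) := by
  induction p using MvPolynomial.induction_on with
  | C c =>
    have : f (C c) = C c := f.commutes c
    simp [this]
  | add p q hp hq =>
    simp only [map_add, hp.1, hq.1, hp.2, hq.2, mul_add, Finset.sum_add_distrib, and_self]
  | mul_X p k hp =>
    refine ⟨by simp [hp.1], ?_⟩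
    simp only [map_mul, Derivation.leibniz, smul_eq_mul, map_add, hp.1, hp.2, eval_X, mul_add,
      Finset.sum_add_distrib, Finset.mul_sum]
    congr 1
    · rw [Finset.sum_eq_single k]
      · simp [mul_comm]
      · intro i _ hi
        simp [pderiv_X, hi.symm]
      · simp
    · exact Finset.sum_congr rfl fun i _ => by ring

lemma sing_map {n : ℕ} (f : MvPolynomial (Fin n) ℂ →ₐ[ℂ] MvPolynomial (Fin n) ℂ) (a : Fin n → ℂ)
    (p : MvPolynomial (Fin n) ℂ)
    (h : eval (fun i => eval a (f (X i))) p = 0 ∧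
      ∀ j, eval (fun i => eval a (f (X i))) (pderiv j p) = 0) :
    eval a (f p) = 0 ∧ ∀ j, eval a (pderiv j (f p)) = 0 := by
  refine ⟨?_, fun j => ?_⟩
  · rw [chain0 f a p, h.1]
  · rw [(chain f a j p).2]; simp [h.2]

noncomputable def P : MvPolynomial (Fin 3) ℂ := X 0 * (X 0 - 1) * X 2 - X 1 ^ 2

lemma sing_P (a : Fin 3 → ℂ) :
    (eval a P = 0 ∧ ∀ j, eval a (pderiv j P) = 0) ↔ a = ![0, 0, 0] ∨ a = ![1, 0, 0] := by
  have e0 : eval a (pderiv 0 P) = (2 * a 0 - 1) * a 2 := by
    simp [P, pderiv_X]; ring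
  have e1 : eval a (pderiv 1 P) = - 2 * a 1 := by
    simp [P, pderiv_X]
  have e2 : eval a (pderiv 2 P) = a 0 * (a 0 - 1) := by
    simp [P, pderiv_X]
  have e : eval a P = a 0 * (a 0 - 1) * a 2 - a 1 ^ 2 := by simp [P]
  constructor
  · rintro ⟨_, h⟩
    have h0 := h 0
    have h1 := h 1
    have h2 := h 2
    rw [e0] at h0
    rw [e1] at h1
    rw [e2] at h2
    have h1' : a 1 = 0 := by simpa using h1
    rcases mul_eq_zero.1 h2 with h3 | h3
    · left
      have : a 2 = 0 := by rw [h3] at h0; simpa using h0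
      ext i; fin_cases i <;> simp [*]
    · right
      have h4 : a 0 = 1 := by linear_combination h3
      have : a 2 = 0 := by rw [h4] at h0; norm_num at h0; exact h0
      ext i; fin_cases i <;> simp [*]
  · intro h
    refine ⟨?_, fun j => ?_⟩
    · rw [e]; rcases h with rfl | rfl <;> simp
    · fin_cases j
      · show eval a (pderiv 0 P) = 0
        rw [e0]; rcases h with rfl | rfl <;> simp
      · show eval a (pderiv 1 P) = 0
        rw [e1]; rcases h with rfl | rfl <;> simp
      · show eval a (pderiv 2 P) = 0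
        rw [e2]; rcases h with rfl | rfl <;> simp

lemma contr_P : ContractibleSpace {x : Fin 3 → ℂ | eval x P = 0} := by
  have e : ∀ a : Fin 3 → ℂ, eval a P = a 0 * (a 0 - 1) * a 2 - a 1 ^ 2 := fun a => by simp [P]
  have c : ∀ i, Continuous fun a : {x : Fin 3 → ℂ | eval x P = 0} => a.1 i := fun i =>
    (continuous_apply i).comp continuous_subtype_val
  have c2 : ∀ i, Continuous fun a : unitInterval × {x : Fin 3 → ℂ | eval x P = 0} => a.2.1 i :=
    fun i => (c i).comp continuous_snd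
  have c1 : Continuous fun a : unitInterval × {x : Fin 3 → ℂ | eval x P = 0} =>
      (1 - (a.1 : ℝ) : ℂ) := by fun_prop
  rw [contractible_iff_id_nullhomotopic]
  let o : {x : Fin 3 → ℂ | eval x P = 0} := ⟨0, by simp [e]⟩
  let r : C({x : Fin 3 → ℂ | eval x P = 0}, {x : Fin 3 → ℂ | eval x P = 0}) :=
    ⟨fun x => ⟨![x.1 0, 0, 0], by simp [e]⟩, by
      refine Continuous.subtype_mk ?_ _
      refine continuous_pi fun i => ?_
      fin_cases i
      · exact c 0
      · exact continuous_const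
      · exact continuous_const⟩
  refine ⟨o, (?_ : (ContinuousMap.id _).Homotopic r).trans ?_⟩
  · refine ⟨⟨⟨fun z => ⟨![z.2.1 0, (1 - (z.1 : ℝ) : ℂ) * z.2.1 1, (1 - (z.1 : ℝ) : ℂ) ^ 2 * z.2.1 2], ?_⟩,
      ?_⟩, ?_, ?_⟩⟩
    · have h := z.2.2
      simp only [Set.mem_ofPred_eq, e] at h ⊢
      simp only [Matrix.cons_val_zero, Matrix.cons_val_one, Matrix.cons_val]
      linear_combination (1 - (z.1 : ℝ) : ℂ) ^ 2 * h
    · refine Continuous.subtype_mk ?_ _
      refine continuous_pi fun i => ?_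
      fin_cases i
      · exact c2 0
      · exact c1.mul (c2 1)
      · exact (c1.pow 2).mul (c2 2)
    · intro x; ext i; fin_cases i <;> simp
    · intro x; ext i; fin_cases i <;> simp [r]
  · refine ⟨⟨⟨fun z => ⟨![(1 - (z.1 : ℝ) : ℂ) * z.2.1 0, 0, 0], ?_⟩, ?_⟩, ?_, ?_⟩⟩
    · simp [e]
    · refine Continuous.subtype_mk ?_ _
      refine continuous_pi fun i => ?_
      fin_cases i
      · exact c1.mul (c2 0)
      · exact continuous_const
      · exact continuous_const
    · intro x; ext i; fin_cases i <;> simp [r]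
    · intro x; ext i; fin_cases i <;> simp [o]

lemma irred_P : Irreducible P := by
  have h : P = (X 0 * (X 0 - 1)) * X 2 + (- X 1 ^ 2) := by rw [P]; ring
  rw [h]
  apply irreducible_mul_X_add
  · intro h0
    have := congrArg (eval ![2, 0, 0]) h0
    norm_num at this
  · intro hv
    have h1 := vars_mul _ _ hv
    have h2 : (X 0 - 1 : MvPolynomial (Fin 3) ℂ).vars ⊆ {0} := by
      refine (vars_sub_subset _).trans ?_
      simp
    rcases Finset.mem_union.1 h1 with h3 | h3
    · simp at h3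
    · have := h2 h3
      simp at this
  · intro hv
    rw [vars_neg] at hv
    have := vars_pow _ _ hv
    simp at this
  · apply IsRelPrime.neg_right
    apply IsRelPrime.pow_right
    apply IsRelPrime.symm
    rw [(X_prime (i := (1 : Fin 3)) (R := ℂ)).irreducible.isRelPrime_iff_not_dvd]
    rintro ⟨q, hq⟩
    have := congrArg (eval ![2, 0, 0]) hq
    norm_num at this

lemma not_qh (φ : MvPolynomial (Fin 3) ℂ ≃ₐ[ℂ] MvPolynomial (Fin 3) ℂ) (w : Fin 3 → ℕ)
    (hw : ∀ i, 0 < w i) (d : ℤ)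
    (h : ∀ t : ℂ, t ≠ 0 → ∀ x : Fin 3 → ℂ,
      eval (fun i => t ^ w i * x i) (φ P) = t ^ d * eval x (φ P)) : False := by
  let S : MvPolynomial (Fin 3) ℂ → (Fin 3 → ℂ) → Prop := fun q a =>
    eval a q = 0 ∧ ∀ j, eval a (pderiv j q) = 0
  let F : (Fin 3 → ℂ) → (Fin 3 → ℂ) := fun a i => eval a (φ (X i))
  let G : (Fin 3 → ℂ) → (Fin 3 → ℂ) := fun a i => eval a (φ.symm (X i))
  have hFG : ∀ a, F (G a) = a := by
    intro a; funext i
    have := (chain (φ.symm : MvPolynomial (Fin 3) ℂ →ₐ[ℂ] MvPolynomial (Fin 3) ℂ) a 0 (φ (X i))).1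
    have e : (φ.symm : MvPolynomial (Fin 3) ℂ →ₐ[ℂ] MvPolynomial (Fin 3) ℂ) (φ (X i)) = X i :=
      φ.symm_apply_apply _
    rw [e, eval_X] at this
    exact this.symm
  have hGF : ∀ a, G (F a) = a := by
    intro a; funext i
    have := (chain (φ : MvPolynomial (Fin 3) ℂ →ₐ[ℂ] MvPolynomial (Fin 3) ℂ) a 0 (φ.symm (X i))).1
    have e : (φ : MvPolynomial (Fin 3) ℂ →ₐ[ℂ] MvPolynomial (Fin 3) ℂ) (φ.symm (X i)) = X i :=
      φ.apply_symm_apply _
    rw [e, eval_X] at this
    exact this.symm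
  have h1 : ∀ a, S P a → S (φ P) (G a) := by
    intro a ha
    apply sing_map (φ : MvPolynomial (Fin 3) ℂ →ₐ[ℂ] MvPolynomial (Fin 3) ℂ) (G a) P
    have : (fun i => eval (G a) ((φ : MvPolynomial (Fin 3) ℂ →ₐ[ℂ] MvPolynomial (Fin 3) ℂ) (X i))) = a := hFG a
    rw [this]; exact ha
  have h2 : ∀ b, S (φ P) b → S P (F b) := by
    intro b hb
    have := sing_map (φ.symm : MvPolynomial (Fin 3) ℂ →ₐ[ℂ] MvPolynomial (Fin 3) ℂ) (F b) (φ P) (by
      have : (fun i => eval (F b) ((φ.symm : MvPolynomial (Fin 3) ℂ →ₐ[ℂ] MvPolynomial (Fin 3) ℂ) (X i))) = b := hGF b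
      rw [this]; exact hb)
    simpa using this
  have h3 : ∀ t : ℂ, t ≠ 0 → ∀ b, S (φ P) b → S (φ P) (fun i => t ^ w i * b i) := by
    intro t ht b hb
    let σ : MvPolynomial (Fin 3) ℂ →ₐ[ℂ] MvPolynomial (Fin 3) ℂ :=
      aeval fun i => C (t⁻¹ ^ w i) * X i
    have e1 : σ (φ P) = C (t⁻¹ ^ d) * φ P := by
      apply MvPolynomial.funext
      intro x
      rw [(chain σ x 0 (φ P)).1]
      have := h t⁻¹ (inv_ne_zero ht) x
      simpa [σ] using this
    have e2 := sing_map σ (fun i => t ^ w i * b i) (φ P) (by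
      have : (fun i => eval (fun i => t ^ w i * b i) (σ (X i))) = b := by
        funext i
        simp only [σ, aeval_X, map_mul, eval_C, eval_X]
        rw [← mul_assoc, ← mul_pow, inv_mul_cancel₀ ht, one_pow, one_mul]
      rw [this]; exact hb)
    rw [e1] at e2
    have hc : t⁻¹ ^ d ≠ 0 := zpow_ne_zero _ (inv_ne_zero ht)
    refine ⟨?_, fun j => ?_⟩
    · have := e2.1
      rw [map_mul, eval_C] at this
      exact (mul_eq_zero.1 this).resolve_left hc
    · have := e2.2 j
      rw [pderiv_C_mul, map_mul, eval_C] at this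
      exact (mul_eq_zero.1 this).resolve_left hc
  have h4 : ∃ b, S (φ P) b ∧ b ≠ 0 := by
    by_contra hcon
    push Not at hcon
    have a1 := hcon _ (h1 _ ((sing_P _).2 (Or.inl rfl)))
    have a2 := hcon _ (h1 _ ((sing_P _).2 (Or.inr rfl)))
    have a3 := congrArg F (a1.trans a2.symm)
    rw [hFG, hFG] at a3
    have := congrFun a3 0
    simp at this
  obtain ⟨b, hb, hb0⟩ := h4
  obtain ⟨i, hi⟩ := Function.ne_iff.1 hb0
  have hinj : ∀ s t : ℕ, F (fun i => (s : ℂ) ^ w i * b i) = F (fun i => (t : ℂ) ^ w i * b i) →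
      s = t := by
    intro s t hst
    have := congrArg G hst
    rw [hGF, hGF] at this
    have h5 := mul_right_cancel₀ hi (congrFun this i)
    have h6 : s ^ w i = t ^ w i := by exact_mod_cast h5
    exact Nat.pow_left_injective (hw i).ne' h6
  have k : ∀ s : ℕ, s ≠ 0 → F (fun i => (s : ℂ) ^ w i * b i) = ![0, 0, 0] ∨
      F (fun i => (s : ℂ) ^ w i * b i) = ![1, 0, 0] := fun s hs =>
    (sing_P _).1 (h2 _ (h3 s (by exact_mod_cast hs) b hb))
  rcases k 1 (by norm_num) with k1 | k1 <;> rcases k 2 (by norm_num) with k2 | k2 <;>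
    rcases k 3 (by norm_num) with k3 | k3
  all_goals first
    | exact absurd (hinj _ _ (k1.trans k2.symm)) (by norm_num)
    | exact absurd (hinj _ _ (k1.trans k3.symm)) (by norm_num)
    | exact absurd (hinj _ _ (k2.trans k3.symm)) (by norm_num)

end Pool.Agent.H33.QH
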