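import Pool.Agent.H33.SDM

set_option autoImplicit false

namespace Pool.Agent.H33.SDM

open Function

def F (σ K t : ℤ) : ℤ × ℤ :=
  if t = 16 * K - 1 then (-(4 * K), 0) else
  if t + 2 < 8 * K then
    if (t + 2) % 4 = 0 then (2 * ((t + 2) / 4) - 1 - 4 * K, 0) else
    if (t + 2) % 4 = 1 then (-(2 * ((t + 2) / 4)) - 4 * K, 0) else
    if (t + 2) % 4 = 2 then (2 * ((t + 2) / 4) - 4 * K, 0) else
    (-(2 * ((t + 2) / 4)) - 1 - 4 * K, 1) else
  if (t + 2) % 4 = 0 then (2 * ((t + 2) / 4 - 2 * K) - 1, 0) else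
  if (t + 2) % 4 = 1 then (-(2 * ((t + 2) / 4 - 2 * K)) - 1, 1) else
  if (t + 2) % 4 = 2 then (1 + σ + 2 * ((t + 2) / 4 - 2 * K) - 4 * K, 1) else
  (σ - 2 * ((t + 2) / 4 - 2 * K) - 1 - 4 * K, 1)

def Q (σ K t : ℤ) : ℤ × ℤ :=
  if t = 16 * K - 2 then (1, 0) else
  if t + 2 < 8 * K then
    if (t + 2) % 4 = 0 then (1 - 4 * ((t + 2) / 4), 0) else
    if (t + 2) % 4 = 1 then (4 * ((t + 2) / 4), 0) else
    if (t + 2) % 4 = 2 then (-1 - 4 * ((t + 2) / 4), 1) else (σ * (2 + 4 * ((t + 2) / 4)), 1) else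
  if (t + 2) % 4 = 0 then (-(4 * ((t + 2) / 4 - 2 * K)), 1) else
  if (t + 2) % 4 = 1 then (σ * (2 + 4 * ((t + 2) / 4 - 2 * K)) + 1, 0) else
  if (t + 2) % 4 = 2 then (σ * (-2 - 4 * ((t + 2) / 4 - 2 * K)), 0) else
  (σ * (2 + 4 * ((t + 2) / 4 - 2 * K)) - 1, 1)

variable {K s t r : ℕ} {σ : ℤ} (hσ : σ = 1 ∨ σ = -1) (hr : (r : ℤ) = 4 * K + σ)
include hσ hr

omit hr in
lemma bF (ht : t < 16 * K - 1) : -(12 * K) < (F σ K t).1 ∧ (F σ K t).1 < 12 * K := by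
  unfold F
  split_ifs <;> dsimp only <;> omega

lemma iF (hs : s < 16 * K - 1) (ht : t < 16 * K - 1)
    (h : (e (F σ K s) : Gp (8 * K) r) = e (F σ K t)) : s = t := by
  obtain ⟨h1, h2⟩ := mod (by omega) hσ hr
  obtain ⟨h3, h4⟩ := of_eq h1 h2 h
  have b1 := bF hσ hs
  have b2 := bF hσ ht
  have h5 := small h3 (by omega) (by omega)
  clear h h3 h1 h2 hr b1 b2
  unfold F at *
  split_ifs at h4 h5 <;> dsimp only at h4 h5 <;> omega

lemma nF (ht : t < 16 * K - 1) : (e (F σ K t) : Gp (8 * K) r) ≠ 1 := fun h => by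
  obtain ⟨h1, h2⟩ := mod (by omega) hσ hr
  obtain ⟨h3, h4⟩ := of_eq h1 h2 (y := (0, 0)) (h.trans (by simp [e]))
  have b1 := bF hσ ht
  have h5 := small h3 (by omega) (by omega)
  clear h h3 h1 h2 hr b1
  unfold F at *
  split_ifs at h4 h5 <;> dsimp only at h4 h5 <;> omega

lemma iQ (hs : s < 16 * K - 1) (ht : t < 16 * K - 1)
    (h : (e (Q σ K s) : Gp (8 * K) r) = e (Q σ K t)) : s = t := by
  obtain ⟨h1, h2⟩ := mod (by omega) hσ hr
  obtain ⟨h3, h4⟩ := of_eq h1 h2 h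
  have b : ∀ t : ℕ, t < 16 * K - 1 → -(12 * K) < (Q σ K t).1 ∧ (Q σ K t).1 < 12 * K :=
    fun t ht => by
      unfold Q
      rcases hσ with rfl | rfl <;> split_ifs <;> dsimp only <;> omega
  have b1 := b s hs
  have b2 := b t ht
  have h5 := small h3 (by omega) (by omega)
  clear h h3 h1 h2 hr b b1 b2
  unfold Q at *
  rcases hσ with rfl | rfl <;> split_ifs at h4 h5 <;> dsimp only at h4 h5 <;> omega

lemma hQ (ht : t < 16 * K - 1) :
    (e (F σ K t) : Gp (8 * K) r)⁻¹ * e (F σ K (t + 1 : ℕ)) = e (Q σ K t) := by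
  rw [inv_mul_eq_iff_eq_mul]
  unfold F Q
  split_ifs <;> first
    | omega
    | (rw [m0]; refine eqv ?_; dsimp only; rcases hσ with rfl | rfl <;> omega)
    | (rw [m2 hσ hr]; refine eqv ?_; dsimp only; rcases hσ with rfl | rfl <;> split_ifs <;> omega)

lemma rseq (hK : 0 < K) : ∃ g : ZMod (16 * K - 1) → Gp (8 * K) r, Injective g ∧
    Set.range g = {1}ᶜ ∧ Injective fun i => (g i)⁻¹ * g (i + 1) := by
  have : NeZero (16 * K - 1) := ⟨by omega⟩
  have : NeZero (8 * K) := ⟨by omega⟩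
  obtain ⟨c1, c2⟩ := card (N := 8 * K) (r := r)
  have k : Injective fun i : ZMod (16 * K - 1) => (e (F σ K i.val) : Gp (8 * K) r) :=
    fun i j h => ZMod.val_injective _ (iF hσ hr i.val_lt j.val_lt h)
  refine ⟨_, k, Set.eq_of_subset_of_ncard_le (by rintro _ ⟨i, rfl⟩; exact nF hσ hr i.val_lt) ?_,
    cyc (16 * K - 1) (fun t => e (F σ K t)) (fun t => e (Q σ K t))
      (·⁻¹ * ·) (eqv ?_) (fun t => hQ hσ hr) fun s hs t ht => iQ hσ hr hs ht⟩
  · have := Set.ncard_add_ncard_compl ({1} : Set (Gp (8 * K) r))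
    rw [Set.ncard_range_of_injective k, Nat.card_zmod]
    rw [Set.ncard_singleton] at this
    omega
  · unfold F
    split_ifs <;> dsimp only <;> omega

end Pool.Agent.H33.SDM
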