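import Mathlib

set_option autoImplicit false

namespace Pool.Agent.H33.Ritt

open Finset Real

lemma prod_sub {ι : Type} (I : Finset ι) (a b : ι → ℂ) (ha : ∀ i, ‖a i‖ ≤ 1) (hb : ∀ i, ‖b i‖ ≤ 1) :
    ‖∏ i ∈ I, a i - ∏ i ∈ I, b i‖ ≤ ∑ i ∈ I, ‖a i - b i‖ := by
  classical
  induction I using Finset.induction_on with
  | empty => simp
  | insert j I hj ih =>
    rw [prod_insert hj, prod_insert hj, sum_insert hj]
    have e : a j * ∏ i ∈ I, a i - b j * ∏ i ∈ I, b i =
        (a j - b j) * ∏ i ∈ I, a i + b j * (∏ i ∈ I, a i - ∏ i ∈ I, b i) := by ring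
    have h : ‖∏ i ∈ I, a i‖ ≤ 1 := by
      rw [norm_prod]; exact prod_le_one (fun _ _ => norm_nonneg _) fun i _ => ha i
    rw [e]
    refine (norm_add_le _ _).trans (add_le_add ?_ ?_) <;> rw [norm_mul]
    · exact mul_le_of_le_one_right (norm_nonneg _) h
    · exact (mul_le_of_le_one_left (norm_nonneg _) (hb j)).trans ih

lemma one_success {ι : Type} [DecidableEq ι] (I : Finset ι) (a : ι → ℝ) (h0 : ∀ i, 0 ≤ a i)
    (h1 : ∀ i, a i ≤ 1) :
    ∑ k ∈ I, a k * ∏ l ∈ I.erase k, (1 - a l) + ∏ l ∈ I, (1 - a l) ≤ 1 := by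
  induction I using Finset.induction_on with
  | empty => simp
  | insert j I hj ih =>
    rw [prod_insert hj, sum_insert hj, erase_insert hj]
    have : ∑ k ∈ I, a k * ∏ l ∈ (insert j I).erase k, (1 - a l) =
        (1 - a j) * ∑ k ∈ I, a k * ∏ l ∈ I.erase k, (1 - a l) := by
      rw [mul_sum]
      refine sum_congr rfl fun k hk => ?_
      rw [erase_insert_of_ne (by rintro rfl; exact hj hk), prod_insert (by simp [hj])]
      ring
    have h : 0 ≤ ∑ k ∈ I, a k * ∏ l ∈ I.erase k, (1 - a l) :=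
      sum_nonneg fun k _ => mul_nonneg (h0 k) (prod_nonneg fun l _ => sub_nonneg.2 (h1 l))
    rw [this]
    nlinarith [mul_nonneg (h0 j) h]

lemma conv (u p : ℤ → ℝ) (hu : Summable u) (hp : Summable p) (φ : ℤ → ℂ) (hφ : ∀ x, ‖φ x‖ ≤ 1) :
    HasSum (fun m => ((∑' j, u j * p (m - j) : ℝ) : ℂ) * φ m)
      (∑' j, (u j : ℂ) * ∑' x, (p x : ℂ) * φ (j + x)) := by
  have h1 : Summable fun t : ℤ × ℤ => (u t.1 : ℂ) * ((p t.2 : ℂ) * φ (t.1 + t.2)) := by
    refine .of_norm_bounded (summable_mul_of_summable_norm (f := fun j => ‖u j‖)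
      (g := fun j => ‖p j‖) (by simpa using hu.norm) (by simpa using hp.norm)) fun t => ?_
    simp only [norm_mul, Complex.norm_real]
    exact mul_le_mul_of_nonneg_left (mul_le_of_le_one_right (norm_nonneg _) (hφ _)) (norm_nonneg _)
  let e : ℤ × ℤ ≃ ℤ × ℤ := ⟨fun t => (t.2, t.1 - t.2), fun t => (t.1 + t.2, t.1), fun t => by simp,
    fun t => by simp⟩
  have h2 := e.hasSum_iff.2 h1.hasSum
  rw [h1.tsum_prod] at h2
  simp only [tsum_mul_left] at h2
  refine h2.prod_fiberwise fun m => ?_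
  have := (h2.summable.prod_factor m).hasSum
  simp only [Function.comp, e, Equiv.coe_fn_mk, add_sub_cancel, ← mul_assoc, tsum_mul_right] at this ⊢
  simpa only [Complex.ofReal_tsum, Complex.ofReal_mul] using this

lemma hs_congr {ι : Type} {f g : ι → ℂ} {a : ℂ} (h : HasSum f a) (e : ∀ x, g x = f x) :
    HasSum g a := by rwa [funext e]

def N : ℕ → ℕ
  | 0 => 1
  | l + 1 => 2 * (l + 2) ^ 3 * N l

lemma Npos (l : ℕ) : 0 < N l := by
  induction l with
  | zero => simp [N]
  | succ l ih => rw [N]; positivity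

lemma Ndvd {k l : ℕ} (h : k < l) : ∃ M : ℕ, (l + 1) ^ 3 ≤ M ∧ N l = 2 * M * N k := by
  induction l, h using Nat.le_induction with
  | base => exact ⟨_, le_rfl, rfl⟩
  | succ l _ ih =>
    obtain ⟨M, h1, h2⟩ := ih
    have : 0 < M := lt_of_lt_of_le (by positivity) h1
    exact ⟨(l + 2) ^ 3 * (2 * M), Nat.le_mul_of_pos_right _ (by omega), by rw [N, h2]; ring⟩

lemma Ninj : Function.Injective fun k => (N k : ℤ) := by
  refine StrictMono.injective (strictMono_nat_of_lt_succ fun l => ?_)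
  have := Npos l
  have h : 0 < (l + 2) ^ 3 := by positivity
  rw [Nat.cast_lt, N]
  nlinarith

noncomputable def tau (k : ℕ) : ℝ := 1 / (2 * √(k + 1))
noncomputable def w (k : ℕ) : ℝ := tau k - tau (k + 1)

lemma w_bd (k : ℕ) (q : ℝ) (hq : 0 < q) (h : q ^ 2 ≤ k + 1) : 0 < w k ∧ w k ≤ 1 / (4 * q ^ 3) := by
  have a : q ≤ √(k + 1) := Real.le_sqrt_of_sq_le h
  have b : √((k : ℝ) + 1) ≤ √(((k + 1 : ℕ) : ℝ) + 1) := Real.sqrt_le_sqrt (by simp)
  have c := Real.sq_sqrt (show (0 : ℝ) ≤ k + 1 by positivity)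
  have d := Real.sq_sqrt (show (0 : ℝ) ≤ ((k + 1 : ℕ) : ℝ) + 1 by positivity)
  unfold w tau
  generalize √((k : ℝ) + 1) = u at *
  generalize √(((k + 1 : ℕ) : ℝ) + 1) = v at *
  have u0 : 0 < u := by linarith
  have v0 : 0 < v := by linarith
  have : 1 / (2 * u) - 1 / (2 * v) = 1 / (2 * (u * v * (u + v))) := by
    field_simp
    push_cast at d
    linarith
  rw [this]
  refine ⟨by positivity, one_div_le_one_div_of_le (by positivity) ?_⟩
  have : q * q * (q + q) ≤ u * v * (u + v) := by gcongr <;> linarith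
  linarith

lemma w_pos (k : ℕ) : 0 < w k := (w_bd k 1 one_pos (by simp)).1

lemma w_sum : HasSum w (1 / 2) := by
  rw [hasSum_iff_tendsto_nat_of_nonneg fun k => (w_pos k).le]
  simp only [w, sum_range_sub']
  have : Filter.Tendsto tau Filter.atTop (nhds 0) := by
    unfold tau
    simp only [one_div]
    exact tendsto_inv_atTop_zero.comp (Filter.Tendsto.const_mul_atTop two_pos
      (Real.tendsto_sqrt_atTop.comp (Filter.tendsto_atTop_add_const_right _ _
        tendsto_natCast_atTop_atTop)))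
  simpa [tau] using (tendsto_const_nhds (x := tau 0)).sub this

lemma exists_p : ∃ p : ℤ → ℝ, (∀ x, 0 ≤ p x) ∧ ∀ F : ℤ → ℂ, (∀ x, ‖F x‖ ≤ 1) →
    HasSum (fun x => (p x : ℂ) * F x) (F 0 / 2 + ∑' k, (w k : ℂ) / 2 * (F (N k) + F (-N k))) := by
  let p : ℤ → ℝ := Function.extend (fun k => (N k : ℤ)) (fun k => w k / 2) 0
  have p0 : ∀ x, 0 ≤ p x := fun x => by
    by_cases hx : ∃ k, (N k : ℤ) = x
    · obtain ⟨k, rfl⟩ := hx
      simp only [p, Ninj.extend_apply]
      exact (half_pos (w_pos _)).le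
    · simp [p, Function.extend_apply' _ _ _ hx]
  have h1 : ∀ F : ℤ → ℂ, (∀ x, ‖F x‖ ≤ 1) → Summable (fun k => (w k : ℂ) / 2 * F (N k)) ∧
      HasSum (fun x => (p x : ℂ) * F x) (∑' k, (w k : ℂ) / 2 * F (N k)) := by
    intro F hF
    have s : Summable fun k => (w k : ℂ) / 2 * F (N k) :=
      .of_norm_bounded w_sum.summable fun k => by
        have := w_pos k
        have := mul_le_of_le_one_right this.le (hF (N k))
        simp only [norm_mul, norm_div, Complex.norm_real, Real.norm_of_nonneg (w_pos k).le,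
          Complex.norm_ofNat]
        linarith
    refine ⟨s, (Ninj.hasSum_iff fun x hx => by simp [p, Function.extend_apply' _ _ _ hx]).1 ?_⟩
    refine hs_congr s.hasSum fun k => ?_
    simp [p, Ninj.extend_apply]
  refine ⟨fun x => (if x = 0 then 1 / 2 else 0) + (p x + p (-x)), fun x => ?_, fun F hF => ?_⟩
  · have := p0 x
    have := p0 (-x)
    dsimp only
    split_ifs <;> linarith
  · obtain ⟨a, b⟩ := h1 F hF
    obtain ⟨c, d⟩ := h1 (fun x => F (-x)) fun x => hF _
    have d' := (Equiv.neg ℤ).hasSum_iff.2 d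
    have := (hasSum_ite_eq (0 : ℤ) (F 0 / 2)).add (b.add d')
    simp only [mul_add, a.tsum_add c]
    refine hs_congr this fun k => ?_
    by_cases hk : k = 0 <;> simp [hk] <;> ring

noncomputable def s (l : ℕ) (x : ℤ) : ℝ := (1 - cos (π * x / N l)) / 2

lemma s_bd (l : ℕ) (x : ℤ) : 0 ≤ s l x ∧ s l x ≤ 1 := by
  have := cos_le_one (π * x / N l)
  have := neg_one_le_cos (π * x / N l)
  unfold s; constructor <;> linarith

lemma eigen (q : ℕ) (hq : 0 < q) (z : ℂ) (δ : ℝ) (h0 : 0 < δ) (hz : ‖z‖ ≤ 1 - δ) :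
    ∃ φ : ℤ → ℂ, (∀ x, ‖φ x‖ ≤ 1) ∧ φ 0 = 1 ∧ ∀ x,
      ‖φ x / 2 + ∑' k, (w k : ℂ) / 2 * (φ (x + N k) + φ (x + -N k)) -
        (1 - (1 / (4 * q) : ℝ) * (1 - z)) * φ x‖ ≤ 3 / q ^ 4 + 1 / (q ^ 3 * δ) := by
  let I := Ico (q ^ 2 - 1) (4 * q ^ 2 - 1)
  let ψ : ℕ → ℤ → ℂ := fun l x => 1 - s l x * (1 - z)
  have q1 : 1 ≤ q ^ 2 := Nat.one_le_pow _ _ hq
  have q0 : (0 : ℝ) < q := by exact_mod_cast hq
  have z1 : ‖z‖ ≤ 1 := by linarith
  have d1 : δ ≤ 1 := by linarith [norm_nonneg z]
  have z2 : ‖1 - z‖ ≤ 2 := (norm_sub_le _ _).trans (by rw [norm_one]; linarith)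
  have z3 : ‖1 + z‖ ≤ 2 := (norm_add_le _ _).trans (by rw [norm_one]; linarith)
  have hψ : ∀ l x, ‖ψ l x‖ ≤ 1 - δ * s l x := by
    intro l x
    obtain ⟨a, b⟩ := s_bd l x
    have : ψ l x = ((1 - s l x : ℝ) : ℂ) + s l x * z := by simp only [ψ]; push_cast; ring
    rw [this]
    refine (norm_add_le _ _).trans ?_
    rw [norm_mul, Complex.norm_real, Complex.norm_real, Real.norm_of_nonneg a,
      Real.norm_of_nonneg (by linarith)]
    nlinarith
  have hψ1 : ∀ l x, ‖ψ l x‖ ≤ 1 := fun l x =>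
    (hψ l x).trans (by nlinarith [(s_bd l x).1])
  have hφ : ∀ x, ‖∏ l ∈ I, ψ l x‖ ≤ 1 := fun x => by
    rw [norm_prod]; exact prod_le_one (fun _ _ => norm_nonneg _) fun i _ => hψ1 i x
  refine ⟨fun x => ∏ l ∈ I, ψ l x, hφ, by simp [ψ, s], fun x => ?_⟩
  have step : ∀ (k : ℕ) (σ : ℤ), σ = 1 ∨ σ = -1 →
      ‖∏ l ∈ I, ψ l (x + σ * N k) - (1 - (if k ∈ I then 1 - z else 0)) * ∏ l ∈ I, ψ l x‖ ≤
        6 / q ^ 4 + if k ∈ I then 4 * s k x * ∏ l ∈ I.erase k, (1 - δ * s l x) else 0 := by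
    intro k σ hσ
    have hN : ∀ l, (N l : ℝ) ≠ 0 := fun l => by exact_mod_cast (Npos l).ne'
    let Y : ℕ → ℂ := fun l => if l = k then ψ k (x + σ * N k) else ψ l x
    refine (norm_sub_le_norm_sub_add_norm_sub _ (∏ l ∈ I, Y l) _).trans (add_le_add ?_ ?_)
    · refine (prod_sub I _ _ (fun l => hψ1 _ _) fun l => by
        simp only [Y]; split_ifs <;> exact hψ1 _ _).trans ?_
      refine (sum_le_card_nsmul I _ (2 / (q : ℝ) ^ 6) fun l hl => ?_).trans (le_of_eq ?_)
      · rcases lt_trichotomy l k with h | rfl | h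
        · obtain ⟨M, -, hM⟩ := Ndvd h
          have : π * ((x + σ * N k : ℤ) : ℝ) / N l = π * x / N l + (σ * M : ℤ) * (2 * π) := by
            have := hN l
            rw [hM]; push_cast; field_simp
          simp only [Y, if_neg h.ne, ψ, s, this, cos_add_int_mul_two_pi, sub_self, norm_zero]
          positivity
        · simp only [Y, if_true, sub_self, norm_zero]; positivity
        · obtain ⟨M, hM1, hM⟩ := Ndvd h
          have h6 : (q : ℝ) ^ 6 ≤ M := by
            have : q ^ 2 ≤ l + 1 := by have := (mem_Ico.1 hl).1; omega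
            have := (Nat.pow_le_pow_left this 3).trans hM1
            rw [← pow_mul] at this
            exact_mod_cast this
          have M0 : (0 : ℝ) < M := lt_of_lt_of_le (by positivity) h6
          have e : ψ l (x + σ * N k) - ψ l x =
              ((cos (π * (x + σ * N k : ℤ) / N l) - cos (π * x / N l)) / 2 : ℝ) * (1 - z) := by
            simp only [ψ, s]; push_cast; ring
          have e2 : π * ((x + σ * N k : ℤ) : ℝ) / N l - π * x / N l = σ * (π / (2 * M)) := by
            have := hN k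
            rw [hM]; push_cast; field_simp; ring
          have := abs_cos_sub_cos_le (π * (x + σ * N k : ℤ) / N l) (π * x / N l)
          rw [e2, abs_mul, show |(σ : ℝ)| = 1 by rcases hσ with rfl | rfl <;> simp, one_mul,
            abs_of_pos (show 0 < π / (2 * M) by positivity)] at this
          simp only [Y, if_neg h.ne', e, norm_mul, Complex.norm_real, Real.norm_eq_abs, abs_div,
            abs_two]
          have h7 : π / (2 * M) ≤ 2 / q ^ 6 := by
            rw [div_le_div_iff₀ (by positivity) (by positivity)]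
            nlinarith [pi_le_four, pi_pos, pow_pos q0 6]
          nlinarith [abs_nonneg (cos (π * (x + σ * N k : ℤ) / N l) - cos (π * x / N l))]
      · rw [Nat.card_Ico, show 4 * q ^ 2 - 1 - (q ^ 2 - 1) = 3 * q ^ 2 by omega, nsmul_eq_mul]
        push_cast; field_simp; ring
    · split_ifs with hk
      · have e : s k (x + σ * N k) = 1 - s k x := by
          have : π * ((x + σ * N k : ℤ) : ℝ) / N k = π * x / N k + σ * π := by
            have := hN k
            push_cast; field_simp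
          simp only [s, this]
          rcases hσ with rfl | rfl <;> simp [cos_add] <;> ring
        rw [← mul_prod_erase I Y hk, ← mul_prod_erase I (fun l => ψ l x) hk,
          prod_congr rfl (f := Y) (g := fun l => ψ l x) fun l hl => if_neg (ne_of_mem_erase hl)]
        have : Y k * ∏ l ∈ I.erase k, ψ l x - (1 - (1 - z)) * (ψ k x * ∏ l ∈ I.erase k, ψ l x) =
            (1 - z) * (1 + z) * s k x * ∏ l ∈ I.erase k, ψ l x := by
          simp only [Y, if_true, ψ, e]; push_cast; ring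
        rw [this, norm_mul, norm_mul, norm_mul, norm_prod, Complex.norm_real,
          Real.norm_of_nonneg (s_bd k x).1]
        have := (s_bd k x).1
        gcongr with l
        · nlinarith [norm_nonneg (1 - z), norm_nonneg (1 + z)]
        · exact hψ l x
      · rw [prod_congr rfl (f := Y) (g := fun l => ψ l x) fun l hl =>
          if_neg (by rintro rfl; exact hk hl)]
        simp
  have hc : ∑ k ∈ I, w k = 1 / (4 * q) := by
    simp only [I, w]
    rw [sum_Ico_eq_sub _ (by omega), sum_range_sub', sum_range_sub', tau, tau, tau,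
      Nat.cast_pred (by omega), Nat.cast_pred (by omega), sub_add_cancel, sub_add_cancel]
    push_cast
    rw [show (4 : ℝ) * q ^ 2 = (2 * q) ^ 2 by ring, sqrt_sq (by positivity), sqrt_sq q0.le]
    field_simp; ring
  have a1 : Summable fun k => (w k : ℂ) / 2 * (∏ l ∈ I, ψ l (x + N k) + ∏ l ∈ I, ψ l (x + -N k)) :=
    .of_norm_bounded w_sum.summable fun k => by
      have := (norm_add_le _ _).trans (add_le_add (hφ (x + N k)) (hφ (x + -N k)))
      simp only [norm_mul, norm_div, Complex.norm_real, Real.norm_of_nonneg (w_pos k).le,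
        Complex.norm_ofNat]
      nlinarith [w_pos k]
  have a2 := ((Complex.hasSum_ofReal.2 w_sum).sub (hasSum_sum_of_ne_finset_zero (s := I)
    (f := fun k => if k ∈ I then (w k : ℂ) * (1 - z) else 0) fun k hk => if_neg hk)).mul_right
      (∏ l ∈ I, ψ l x)
  have a3 := (w_sum.mul_right (6 / (q : ℝ) ^ 4)).add (hasSum_sum_of_ne_finset_zero (s := I)
    (f := fun k => if k ∈ I then 1 / (q ^ 3 * δ) * (δ * s k x * ∏ l ∈ I.erase k, (1 - δ * s l x))
      else 0) fun k hk => if_neg hk)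
  have a4 := (a1.hasSum.sub a2).norm_le_of_bounded a3 fun k => by
    have b1 := step k 1 (Or.inl rfl)
    have b2 := step k (-1) (Or.inr rfl)
    rw [one_mul] at b1
    rw [neg_one_mul] at b2
    have b3 := (norm_add_le _ _).trans (add_le_add b1 b2)
    have e : (w k : ℂ) / 2 * (∏ l ∈ I, ψ l (x + N k) + ∏ l ∈ I, ψ l (x + -N k)) -
        (w k - if k ∈ I then (w k : ℂ) * (1 - z) else 0) * ∏ l ∈ I, ψ l x = (w k : ℂ) / 2 *
        (∏ l ∈ I, ψ l (x + N k) - (1 - (if k ∈ I then 1 - z else 0)) * ∏ l ∈ I, ψ l x +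
        (∏ l ∈ I, ψ l (x + -N k) - (1 - (if k ∈ I then 1 - z else 0)) * ∏ l ∈ I, ψ l x)) := by
      split_ifs <;> ring
    rw [e, norm_mul, norm_div, Complex.norm_real, Real.norm_of_nonneg (w_pos k).le,
      Complex.norm_ofNat]
    refine (mul_le_mul_of_nonneg_left b3 (half_pos (w_pos k)).le).trans ?_
    split_ifs with hk
    · have := (w_bd k q q0 (by
        have : q ^ 2 ≤ k + 1 := by have := (mem_Ico.1 hk).1; omega
        exact_mod_cast this)).2
      have h1 : 0 ≤ s k x * ∏ l ∈ I.erase k, (1 - δ * s l x) := mul_nonneg (s_bd k x).1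
        (prod_nonneg fun l _ => (norm_nonneg _).trans (hψ l x))
      have h2 : 1 / (q ^ 3 * δ) * (δ * s k x * ∏ l ∈ I.erase k, (1 - δ * s l x)) =
        4 * (1 / (4 * q ^ 3)) * (s k x * ∏ l ∈ I.erase k, (1 - δ * s l x)) := by field_simp
      rw [h2]
      nlinarith [mul_le_mul_of_nonneg_right this h1]
    · exact le_of_eq (by ring)
  rw [sum_ite_of_true fun _ h => h, sum_ite_of_true fun _ h => h, ← sum_mul, ← mul_sum,
    ← Complex.ofReal_sum, hc] at a4
  have b1 := one_success I (fun l => δ * s l x) (fun l => mul_nonneg h0.le (s_bd l x).1)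
    fun l => by nlinarith [s_bd l x]
  have b2 : 0 ≤ ∏ l ∈ I, (1 - δ * s l x) := prod_nonneg fun l _ => (norm_nonneg _).trans (hψ l x)
  refine le_trans (le_of_eq (congrArg _ ?_)) (a4.trans (add_le_add (le_of_eq (by ring))
    (mul_le_of_le_one_right (by positivity) (by linarith))))
  push_cast; ring

lemma drift (p : ℤ → ℝ) (p0 : ∀ x, 0 ≤ p x) (p1 : HasSum p 1) (u : ℕ → ℤ → ℝ)
    (u0 : u 0 = fun m => if m = 0 then 1 else 0) (us : ∀ n m, u (n + 1) m = ∑' j, u n j * p (m - j))
    (φ : ℤ → ℂ) (h1 : ∀ x, ‖φ x‖ ≤ 1) (h0 : φ 0 = 1) (c : ℂ) (hc : ‖c‖ ≤ 1) (ε : ℝ)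
    (h : ∀ x, ‖∑' y, (p y : ℂ) * φ (x + y) - c * φ x‖ ≤ ε) (n : ℕ) :
    ‖1 - c‖ * ‖c‖ ^ n - (2 * n + 1) * ε ≤ ∑' k, |u n k - u (n + 1) k| := by
  have a : ∀ n, (∀ x, 0 ≤ u n x) ∧ HasSum (u n) 1 := by
    intro n
    induction n with
    | zero => exact ⟨fun x => by rw [u0]; dsimp only; split_ifs <;> norm_num,
        u0 ▸ hasSum_ite_eq 0 1⟩
    | succ n ih =>
      refine ⟨fun x => us n x ▸ tsum_nonneg fun j => mul_nonneg (ih.1 j) (p0 _), ?_⟩
      have := conv (u n) p ih.2.summable p1.summable 1 (by simp)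
      simp only [Pi.one_apply, mul_one, ← Complex.ofReal_tsum, p1.tsum_eq, ih.2.tsum_eq,
        Complex.ofReal_one, ← us] at this
      exact Complex.hasSum_ofReal.1 this
  have b : ∀ n, Summable fun k => (u n k : ℂ) * φ k := fun n =>
    .of_norm_bounded (a n).2.summable fun k => by
      rw [norm_mul, Complex.norm_real, Real.norm_of_nonneg ((a n).1 k)]
      exact mul_le_of_le_one_right ((a n).1 k) (h1 k)
  have d : ∀ n, ‖∑' k, (u (n + 1) k : ℂ) * φ k - c * ∑' k, (u n k : ℂ) * φ k‖ ≤ ε := by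
    intro n
    have e : ∀ j, ‖(u n j : ℂ) * (∑' y, (p y : ℂ) * φ (j + y) - c * φ j)‖ ≤ u n j * ε := fun j => by
      rw [norm_mul, Complex.norm_real, Real.norm_of_nonneg ((a n).1 j)]
      exact mul_le_mul_of_nonneg_left (h j) ((a n).1 j)
    have s1 := Summable.of_norm_bounded ((a n).2.summable.mul_right ε) e
    have := s1.hasSum.norm_le_of_bounded ((a n).2.mul_right ε) e
    simp only [us, (conv (u n) p (a n).2.summable p1.summable φ h1).tsum_eq]
    rw [one_mul] at this
    refine le_trans (le_of_eq (congrArg _ ?_)) this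
    rw [sub_eq_iff_eq_add, ← tsum_mul_left, ← s1.tsum_add ((b n).mul_left c)]
    exact tsum_congr fun j => by ring
  have e0 : 0 ≤ ε := (norm_nonneg _).trans (d 0)
  have f : ∀ n, ‖∑' k, (u n k : ℂ) * φ k - c ^ n‖ ≤ n * ε := by
    intro n
    induction n with
    | zero => simp [u0, h0, apply_ite ((↑) : ℝ → ℂ)]
    | succ n ih =>
      have := norm_add_le (∑' k, (u (n + 1) k : ℂ) * φ k - c * ∑' k, (u n k : ℂ) * φ k)
        (c * (∑' k, (u n k : ℂ) * φ k - c ^ n))
      rw [norm_mul, show ∀ x y : ℂ, x - c * y + c * (y - c ^ n) = x - c ^ (n + 1) from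
        fun x y => by ring] at this
      have := mul_le_mul hc ih (norm_nonneg _) zero_le_one
      have := d n
      push_cast
      linarith
  have g := ((b n).hasSum.sub (b (n + 1)).hasSum).norm_le_of_bounded
    ((a n).2.summable.sub (a (n + 1)).2.summable).abs.hasSum fun k => by
      rw [← sub_mul, norm_mul, ← Complex.ofReal_sub, Complex.norm_real, Real.norm_eq_abs]
      exact mul_le_of_le_one_right (abs_nonneg _) (h1 k)
  refine le_trans ?_ g
  have i1 := d n
  have i2 := f n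
  generalize ∑' k, (u n k : ℂ) * φ k = x at *
  generalize ∑' k, (u (n + 1) k : ℂ) * φ k = y at *
  have i3 := norm_add₃_le (a := x - y) (b := y - c * x) (c := -((1 - c) * (x - c ^ n)))
  rw [show x - y + (y - c * x) + -((1 - c) * (x - c ^ n)) = (1 - c) * c ^ n by ring, norm_neg,
    norm_mul, norm_mul, norm_pow] at i3
  have i4 : ‖1 - c‖ ≤ 2 := (norm_sub_le _ _).trans (by rw [norm_one]; linarith)
  have := mul_le_mul i4 i2 (norm_nonneg _) zero_le_two
  linarith

end Pool.Agent.H33.Ritt
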