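import Mathlib

set_option autoImplicit false

namespace Pool.Agent.H33.SDM

/-- Relators `a ^ N`, `b ^ 2`, `b a b⁻¹ (a ^ r)⁻¹` with `a = of 0`, `b = of 1`. -/
def rels (N r : ℕ) : Set (FreeGroup (Fin 2)) :=
  {.of 0 ^ N, .of 1 ^ 2, .of 1 * .of 0 * (.of 1)⁻¹ * (.of 0 ^ r)⁻¹}

/-- The group with presentation `⟨a, b | a ^ N = b ^ 2 = 1, b a b⁻¹ = a ^ r⟩`. -/
abbrev Gp (N r : ℕ) := PresentedGroup (rels N r)

def e {N r : ℕ} (x : ℤ × ℤ) : Gp N r := .of 0 ^ x.1 * .of 1 ^ x.2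

variable {N r : ℕ}

lemma ha : (PresentedGroup.of 0 : Gp N r) ^ N = 1 := by
  simpa [PresentedGroup.of] using PresentedGroup.one_of_mem (rels := rels N r) (.inl rfl)

lemma hb : (PresentedGroup.of 1 : Gp N r) ^ (2 : ℤ) = 1 := by
  simpa [PresentedGroup.of, zpow_two, sq] using
    PresentedGroup.one_of_mem (rels := rels N r) (.inr (.inl rfl))

lemma hc (j : ℤ) : (PresentedGroup.of 1 : Gp N r) * .of 0 ^ j = .of 0 ^ (r * j) * .of 1 := by
  have : (PresentedGroup.of 1 : Gp N r) * .of 0 * (PresentedGroup.of 1)⁻¹ = .of 0 ^ r := by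
    simpa [mul_inv_eq_one, PresentedGroup.of] using
      PresentedGroup.one_of_mem (rels := rels N r) (.inr (.inr rfl))
  rw [zpow_mul, zpow_natCast, ← this, conj_zpow, inv_mul_cancel_right]

lemma m0 (i j t : ℤ) : (e (i, 0) : Gp N r) * e (j, t) = e (i + j, t) := by
  simp [e, zpow_add, mul_assoc]

lemma m1 (i j t : ℤ) : (e (i, 1) : Gp N r) * e (j, t) = e (i + r * j, t + 1) := by
  simp only [e, zpow_one]
  rw [mul_assoc, ← mul_assoc _ (_ ^ j), hc, zpow_add, add_comm t, zpow_add, zpow_one]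
  simp only [mul_assoc]

lemma bb (s : ℤ) : (PresentedGroup.of 1 : Gp N r) ^ s = if s % 2 = 0 then 1 else .of 1 := by
  rw [zpow_eq_zpow_emod s hb]
  split_ifs with h
  · rw [h, zpow_zero]
  · rw [show s % 2 = 1 by omega, zpow_one]

lemma eq_of {x y : ℤ × ℤ} (h1 : (N : ℤ) ∣ x.1 - y.1) (h2 : 2 ∣ x.2 - y.2) :
    (e x : Gp N r) = e y := by
  obtain ⟨c, hc⟩ := h1
  rw [e, e, show x.1 = N * c + y.1 by omega, zpow_add, zpow_mul, zpow_natCast, ha, one_zpow,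
    one_mul, bb, bb, show x.2 % 2 = y.2 % 2 by omega]

lemma of_eq (h1 : (r : ZMod N) * r = 1) (h2 : (r : ZMod N) ≠ 1) {x y : ℤ × ℤ}
    (h : (e x : Gp N r) = e y) : (N : ℤ) ∣ x.1 - y.1 ∧ 2 ∣ x.2 - y.2 := by
  let B : Equiv.Perm (ZMod N) := Function.Involutive.toPerm (fun x => r * x) fun x => by
    simp only [← mul_assoc, h1, one_mul]
  have hB : ∀ x, B x = r * x := fun _ => rfl
  let φ : Gp N r →* Equiv.Perm (ZMod N) :=
    PresentedGroup.toGroup (f := ![Equiv.addLeft 1, B]) (by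
      rintro _ (rfl | rfl | rfl)
      · ext x; simp
      · ext x; simp [sq, hB, ← mul_assoc, h1]
      · simp only [map_mul, map_inv, map_pow, FreeGroup.lift_apply_of, mul_inv_eq_one,
          mul_inv_eq_iff_eq_mul, one_mul]
        ext x
        simp [hB, mul_add])
  have k : (PresentedGroup.of 0 : Gp N r) ^ (x.1 - y.1) = .of 1 ^ (y.2 - x.2) := by
    rw [sub_eq_neg_add, zpow_add, zpow_neg, inv_mul_eq_iff_eq_mul, zpow_sub, ← mul_assoc,
      eq_mul_inv_iff_mul_eq]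
    exact h
  rw [bb] at k
  have k0 := congrArg (φ · 0) k
  have k1 := congrArg (φ · 1) k
  rw [← ZMod.intCast_zmod_eq_zero_iff_dvd]
  split_ifs at k0 k1 with hs
  · exact ⟨by simpa [φ] using k0, by omega⟩
  · simp [φ, hB] at k0 k1
    exact absurd (by rw [← k1, k0, zero_add]) h2

lemma card [NeZero N] : Finite (Gp N r) ∧ Nat.card (Gp N r) ≤ N * 2 := by
  have k : ∀ s j : ℤ, ∃ i : ℤ, (PresentedGroup.of 1 : Gp N r) ^ s * .of 0 ^ j =
      .of 0 ^ i * .of 1 ^ s := fun s j => by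
    rw [bb]
    split_ifs
    · exact ⟨j, by simp⟩
    · exact ⟨_, hc j⟩
  have s : Function.Surjective fun x : ZMod N × ZMod 2 => (e (x.1.val, x.2.val) : Gp N r) := by
    intro g
    obtain ⟨x, rfl⟩ : ∃ x, e x = g := by
      refine PresentedGroup.generated_by _ ⟨⟨⟨{g | ∃ x, e x = g}, ?_⟩, (0, 0), by simp [e]⟩, ?_⟩
        (fun j => ?_) g
      · rintro _ _ ⟨x, rfl⟩ ⟨y, rfl⟩
        obtain ⟨i, hi⟩ := k x.2 y.1
        refine ⟨(x.1 + i, x.2 + y.2), ?_⟩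
        simp only [e, zpow_add]
        rw [mul_assoc, ← mul_assoc (_ ^ i), ← hi]
        simp only [mul_assoc]
      · rintro _ ⟨x, rfl⟩
        obtain ⟨i, hi⟩ := k (-x.2) (-x.1)
        exact ⟨(i, -x.2), by rw [e, e, ← hi, mul_inv_rev, zpow_neg, zpow_neg]⟩
      · fin_cases j
        · exact ⟨(1, 0), by simp [e]⟩
        · exact ⟨(0, 1), by simp [e]⟩
    refine ⟨(x.1, x.2), eq_of ?_ ?_⟩
    · simp only [ZMod.val_intCast]
      exact Int.emod_emod_of_dvd _ dvd_rfl |> Int.ModEq.symm |>.dvd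
    · simp only [ZMod.val_intCast]
      omega
  exact ⟨.of_surjective _ s, by simpa using Nat.card_le_card_of_surjective _ s⟩

lemma cyc {G : Type} (M : ℕ) [NeZero M] (g q : ℕ → G) (op : G → G → G) (h0 : g M = g 0)
    (hq : ∀ t < M, op (g t) (g (t + 1)) = q t) (iq : ∀ s < M, ∀ t < M, q s = q t → s = t) :
    Function.Injective fun i : ZMod M => op (g i.val) (g (i + 1).val) := by
  have k : ∀ i : ZMod M, g (i + 1).val = g (i.val + 1) := fun i => by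
    have h1 := i.val_lt
    rw [show i + 1 = ((i.val + 1 : ℕ) : ZMod M) by simp, ZMod.val_natCast]
    rcases (Nat.succ_le_of_lt h1).eq_or_lt with h | h
    · rw [show i.val + 1 = M from h, Nat.mod_self, h0]
    · rw [Nat.mod_eq_of_lt h]
  intro i j h
  simp only [k, hq _ (ZMod.val_lt _)] at h
  exact ZMod.val_injective _ (iq _ i.val_lt _ j.val_lt h)

lemma small {N x : ℤ} (h : N ∣ x) (h1 : -(3 * N) < x) (h2 : x < 3 * N) :
    x = -(2 * N) ∨ x = -N ∨ x = 0 ∨ x = N ∨ x = 2 * N := by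
  obtain ⟨c, rfl⟩ := h
  have h0 : 0 < N := by omega
  have : -3 < c := by nlinarith
  have : c < 3 := by nlinarith
  interval_cases c <;> omega

lemma mod {K : ℕ} (hK : 0 < K) {σ : ℤ} (hσ : σ = 1 ∨ σ = -1) (hr : (r : ℤ) = 4 * K + σ) :
    (r : ZMod (8 * K)) * r = 1 ∧ (r : ZMod (8 * K)) ≠ 1 := by
  constructor
  · have : ((r * r - 1 : ℤ) : ZMod (8 * K)) = 0 := (ZMod.intCast_zmod_eq_zero_iff_dvd ..).2
      ⟨2 * K + σ, by rcases hσ with rfl | rfl <;> rw [hr] <;> push_cast <;> ring⟩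
    simpa [sub_eq_zero] using this
  · intro h
    have : ((r - 1 : ℤ) : ZMod (8 * K)) = 0 := by simp [h]
    have := small ((ZMod.intCast_zmod_eq_zero_iff_dvd ..).1 this)
    omega

lemma m2 {K : ℕ} {σ : ℤ} (hσ : σ = 1 ∨ σ = -1) (hr : (r : ℤ) = 4 * K + σ) (i j t : ℤ) :
    (e (i, 1) : Gp (8 * K) r) * e (j, t) =
      e (i + σ * j + (if j % 2 = 0 then 0 else 4 * K), t + 1) := by
  rw [m1]
  refine eq_of ⟨j / 2, ?_⟩ (by simp)
  simp only [hr]
  split_ifs with h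
  · obtain ⟨c, rfl⟩ : ∃ c, j = 2 * c := ⟨j / 2, by omega⟩
    rw [show 2 * c / 2 = c by omega]; push_cast; ring
  · obtain ⟨c, rfl⟩ : ∃ c, j = 2 * c + 1 := ⟨j / 2, by omega⟩
    rw [show (2 * c + 1) / 2 = c by omega]; push_cast; ring

lemma eqv {K : ℕ} {x y : ℤ × ℤ} (h : (x.1 = y.1 - 16 * K ∨ x.1 = y.1 - 8 * K ∨ x.1 = y.1 ∨
    x.1 = y.1 + 8 * K ∨ x.1 = y.1 + 16 * K) ∧ 2 ∣ x.2 - y.2) : (e x : Gp (8 * K) r) = e y := by
  refine eq_of ?_ h.2
  rcases h.1 with h | h | h | h | h <;> rw [h]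
  exacts [⟨-2, by push_cast; ring⟩, ⟨-1, by push_cast; ring⟩, by simp, ⟨1, by push_cast; ring⟩,
    ⟨2, by push_cast; ring⟩]

end Pool.Agent.H33.SDM
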