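import Mathlib

set_option autoImplicit false

namespace Pool.Agent.H33.SL

open Function

/-- `c` identifies `R` with the skew Laurent series ring over `A` twisted by `φ`:
`c r i` is the coefficient of `x ^ i` in `r`. -/
structure IsSL {A R : Type} [Ring A] [Ring R] (φ : A ≃+* A) (c : R → ℤ → A) : Prop where
  inj : Injective c
  rng : ∀ f : ℤ → A, (∃ r, c r = f) ↔ ∃ n, ∀ i < n, f i = 0
  add : ∀ r s, c (r + s) = c r + c s
  one : c 1 = Pi.single 0 1
  mul : ∀ r s n, c (r * s) n = ∑ᶠ i, c r i * (φ ^ i) (c s (n - i))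

def sub {A : Type} [Ring A] (φ : A ≃+* A) : Subring (HahnSeries ℤ (AddMonoid.End A)) where
  carrier := {F | ∀ i x, F.coeff i x = F.coeff i 1 * (φ ^ i) x}
  zero_mem' := by simp
  one_mem' i x := by
    rw [HahnSeries.coeff_one]
    split_ifs with h <;> simp [h]
  add_mem' {F G} h1 h2 i x := by
    rw [HahnSeries.coeff_add]
    change F.coeff i x + G.coeff i x = (F.coeff i 1 + G.coeff i 1) * _
    rw [h1, h2 i x, add_mul]
  neg_mem' {F} h i x := by
    rw [HahnSeries.coeff_neg]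
    change -F.coeff i x = (-F.coeff i 1) * _
    rw [h, neg_mul]
  mul_mem' {F G} h1 h2 n x := by
    rw [HahnSeries.coeff_mul]
    erw [AddMonoidHom.finsetSum_apply, AddMonoidHom.finsetSum_apply]
    rw [Finset.sum_mul]
    refine Finset.sum_congr rfl fun p hp => ?_
    change F.coeff p.1 (G.coeff p.2 x) = F.coeff p.1 (G.coeff p.2 1) * _
    rw [h1, h1 _ (G.coeff p.2 1), h2 _ x, map_mul, ← (Finset.mem_antidiagonal.1 hp).2.2, zpow_add,
      mul_assoc]
    rfl

theorem exists_SL {A : Type} [Ring A] (φ : A ≃+* A) :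
    ∃ (R : Type) (_ : Ring R) (c : R → ℤ → A), IsSL φ c := by
  refine ⟨sub φ, inferInstance, fun F i => F.1.coeff i 1, fun F G h => ?_, fun f => ⟨?_, ?_⟩,
    fun F G => rfl, ?_, fun F G n => ?_⟩
  · ext i x
    rw [F.2, G.2 i x]
    exact congrArg (· * _) (congrFun h i)
  · rintro ⟨F, rfl⟩
    exact ⟨F.1.order, fun i hi => by simp [HahnSeries.coeff_eq_zero_of_lt_order hi]⟩
  · rintro ⟨n, hn⟩
    refine ⟨⟨HahnSeries.ofSuppBddBelow (fun i => (AddMonoidHom.mulLeft (f i)).comp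
      (φ ^ i).toAddMonoidHom) ⟨n, fun i hi => ?_⟩, fun i x => ?_⟩, ?_⟩
    · by_contra! h
      exact hi (by ext x; change f i * _ = 0; rw [hn i h, zero_mul])
    · change f i * _ = f i * (φ ^ i) 1 * _
      simp
    · ext i
      change f i * (φ ^ i) 1 = _
      simp
  · ext i
    change (1 : HahnSeries ℤ (AddMonoid.End A)).coeff i 1 = _
    rw [HahnSeries.coeff_one, Pi.single_apply]
    split_ifs <;> simp
  · change (F.1 * G.1).coeff n 1 = _
    rw [HahnSeries.coeff_mul]
    erw [AddMonoidHom.finsetSum_apply]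
    rw [finsum_eq_sum_of_support_subset (s := (Finset.antidiagonal F.1.isPWO_support
      G.1.isPWO_support n).image Prod.fst), Finset.sum_image]
    · refine Finset.sum_congr rfl fun p hp => ?_
      rw [← (Finset.mem_antidiagonal.1 hp).2.2, add_sub_cancel_left, ← F.2]
      rfl
    · intro p hp q hq h
      have h1 := (Finset.mem_antidiagonal.1 hp).2.2
      have h2 := (Finset.mem_antidiagonal.1 hq).2.2
      ext <;> omega
    · intro i hi
      refine Finset.mem_coe.2 (Finset.mem_image.2 ⟨(i, n - i), Finset.mem_antidiagonal.2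
        ⟨fun h => hi ?_, fun h => hi ?_, by simp⟩, rfl⟩)
      · simp only at h; simp [h]
      · simp only at h; simp [h]

namespace IsSL
variable {A R : Type} [Ring A] [Ring R] {φ : A ≃+* A} {c : R → ℤ → A} (h : IsSL φ c)
include h

def hom (i : ℤ) : R →+ A := AddMonoidHom.mk' (c · i) fun r s => congrFun (h.add r s) i

lemma zero (i : ℤ) : c 0 i = 0 := (h.hom i).map_zero

lemma add' (r s : R) (i : ℤ) : c (r + s) i = c r i + c s i := (h.hom i).map_add r s

lemma sub' (r s : R) (i : ℤ) : c (r - s) i = c r i - c s i := (h.hom i).map_sub r s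

lemma sum' {ι : Type} (T : Finset ι) (r : ι → R) (i : ℤ) : c (∑ t ∈ T, r t) i = ∑ t ∈ T, c (r t) i :=
  map_sum (h.hom i) _ _

lemma ext {r s : R} (e : ∀ i, c r i = c s i) : r = s := h.inj (funext e)

lemma bdd (r : R) : ∃ n, ∀ i < n, c r i = 0 := (h.rng _).1 ⟨r, rfl⟩

lemma mul_eq {r s : R} {p q : ℤ} (hr : ∀ i < p, c r i = 0) (hs : ∀ i < q, c s i = 0) (n : ℤ) :
    c (r * s) n = ∑ i ∈ Finset.Icc p (n - q), c r i * (φ ^ i) (c s (n - i)) := by
  rw [h.mul, finsum_eq_sum_of_support_subset]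
  intro i hi
  rw [Finset.coe_Icc]
  by_contra hc
  rcases not_and_or.1 hc with h1 | h1
  · exact hi (by simp [hr i (not_le.1 h1)])
  · exact hi (by simp [hs (n - i) (by omega)])

lemma low {r s : R} {p q : ℤ} (hr : ∀ i < p, c r i = 0) (hs : ∀ i < q, c s i = 0) :
    c (r * s) (p + q) = c r p * (φ ^ p) (c s q) := by
  simp [h.mul_eq hr hs]

lemma low0 {r s : R} {p q : ℤ} (hr : ∀ i < p, c r i = 0) (hs : ∀ i < q, c s i = 0) :
    ∀ n < p + q, c (r * s) n = 0 := fun n hn => by
  rw [h.mul_eq hr hs, Finset.Icc_eq_empty (by omega), Finset.sum_empty]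

lemma ex_low {r : R} (hr : r ≠ 0) : ∃ p, c r p ≠ 0 ∧ ∀ i < p, c r i = 0 := by
  obtain ⟨n, hn⟩ := h.bdd r
  obtain ⟨p, h1, h2⟩ := Int.exists_least_of_bdd (P := fun i => c r i ≠ 0)
    ⟨n, fun i hi => not_lt.1 fun e => hi (hn i e)⟩
    (by by_contra! e; exact hr (h.ext fun i => by rw [e, h.zero]))
  exact ⟨p, h1, fun i hi => by_contra fun e => absurd (h2 i e) (not_le.2 hi)⟩

noncomputable def mono (a : A) (k : ℤ) : R :=
  ((h.rng (Pi.single k a)).2 ⟨k, fun _ hi => Pi.single_eq_of_ne hi.ne _⟩).choose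

lemma c_mono (a : A) (k : ℤ) : c (h.mono a k) = Pi.single k a :=
  ((h.rng (Pi.single k a)).2 ⟨k, fun _ hi => Pi.single_eq_of_ne hi.ne _⟩).choose_spec

lemma mono_mul (a : A) (k : ℤ) (s : R) (n : ℤ) :
    c (h.mono a k * s) n = a * (φ ^ k) (c s (n - k)) := by
  rw [h.mul, finsum_eq_single _ k fun i hi => by simp [h.c_mono, hi]]
  simp [h.c_mono]

lemma mul_mono (r : R) (a : A) (k n : ℤ) :
    c (r * h.mono a k) n = c r (n - k) * (φ ^ (n - k)) a := by
  rw [h.mul, finsum_eq_single _ (n - k) fun i hi => by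
    rw [h.c_mono, Pi.single_eq_of_ne (by omega), map_zero, mul_zero]]
  simp [h.c_mono]

end IsSL

end Pool.Agent.H33.SL
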