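import Mathlib

set_option autoImplicit false
open Filter Topology

namespace Pool.Agent.H33.Sm

abbrev T : Type := AddCircle (1 : ℝ)

noncomputable def ph (t : ℝ) : ℕ → T := fun k => ((t / 2 ^ k : ℝ) : T)
noncomputable def th (t : ℝ) : ℝ := t / (1 / 8 + |t|)
noncomputable def ta (a : ℝ) : ℝ := a / 8 / (1 - |a|)
noncomputable def G (a : ℝ) : ℝ := 2 * a / (1 + |a|)
noncomputable def Gi (a : ℝ) : ℝ := a / (2 - |a|)
noncomputable def Th (a u : ℝ) : ℝ :=
  (a / 8 + u * (1 - |a|)) / ((1 - |a|) / 8 + |a / 8 + u * (1 - |a|)|)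

lemma den_pos (t : ℝ) : 0 < 1 / 8 + |t| := by positivity

lemma abs_th (t : ℝ) : |th t| = |t| / (1 / 8 + |t|) := by
  unfold th; rw [abs_div, abs_of_pos (den_pos t)]

lemma one_sub_abs_th (t : ℝ) : 1 - |th t| = (1 / 8) / (1 / 8 + |t|) := by
  rw [abs_th]; have := den_pos t; field_simp; ring

lemma abs_th_lt (t : ℝ) : |th t| < 1 := by
  have h := one_sub_abs_th t
  have : 0 < (1 / 8 : ℝ) / (1 / 8 + |t|) := by have := den_pos t; positivity
  linarith

lemma ta_th (t : ℝ) : ta (th t) = t := by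
  unfold ta; rw [one_sub_abs_th]; unfold th; have := den_pos t; field_simp

lemma th_ta {a : ℝ} (h : |a| < 1) : th (ta a) = a := by
  have h1 : 0 < 1 - |a| := by linarith
  have : |ta a| = |a| / 8 / (1 - |a|) := by
    unfold ta; rw [abs_div, abs_div, abs_of_pos h1]; norm_num
  unfold th; rw [this]; unfold ta; field_simp; ring

lemma G_th (t : ℝ) : G (th t) = th (2 * t) := by
  unfold G; rw [abs_th]; unfold th; rw [abs_mul]
  have := den_pos t; have h2 := abs_nonneg t
  rw [abs_two]; field_simp; ring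

lemma Gi_th (t : ℝ) : Gi (th t) = th (t / 2) := by
  unfold Gi; rw [abs_th]; unfold th; rw [abs_div, abs_two]
  have := den_pos t; have h2 := abs_nonneg t
  have h3 : 2 - |t| / (1 / 8 + |t|) = (1 / 4 + |t|) / (1 / 8 + |t|) := by field_simp; ring
  rw [h3]; field_simp; ring

lemma Th_th (t u : ℝ) : Th (th t) u = th (t + u) := by
  unfold Th; rw [one_sub_abs_th]
  have h := den_pos t
  have h3 : th t / 8 + u * (1 / 8 / (1 / 8 + |t|)) = (t + u) * (1 / 8 / (1 / 8 + |t|)) := by
    unfold th; field_simp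
  have h4 : 0 < (1 / 8 : ℝ) / (1 / 8 + |t|) := by positivity
  rw [h3, abs_mul, abs_of_pos h4]
  unfold th
  have := den_pos (t + u)
  generalize (1 / 8 : ℝ) / (1 / 8 + |t|) = c at h4
  have h5 : c / 8 + |t + u| * c = (1 / 8 + |t + u|) * c := by ring
  rw [h5]; field_simp

lemma G_one : G 1 = 1 := by unfold G; norm_num
lemma G_neg : G (-1) = -1 := by unfold G; norm_num
lemma Gi_one : Gi 1 = 1 := by unfold Gi; norm_num
lemma Gi_neg : Gi (-1) = -1 := by unfold Gi; norm_num
lemma Th_one (u : ℝ) : Th 1 u = 1 := by unfold Th; norm_num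
lemma Th_neg (u : ℝ) : Th (-1) u = -1 := by unfold Th; norm_num

lemma th_inj : Function.Injective th := fun a b h => by
  rw [← ta_th a, h, ta_th]

lemma th_mono : StrictMono th := by
  intro a b hab
  unfold th
  have ha := den_pos a; have hb := den_pos b
  rw [div_lt_div_iff₀ ha hb]
  rcases abs_cases a with ⟨h1, h2⟩ | ⟨h1, h2⟩ <;> rcases abs_cases b with ⟨h3, h4⟩ | ⟨h3, h4⟩ <;>
    rw [h1, h3] <;> nlinarith

lemma th_lip_aux {a b : ℝ} (hab : a ≤ b) : th b - th a ≤ 8 * (b - a) := by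
  unfold th
  have ha := den_pos a; have hb := den_pos b
  rw [div_sub_div _ _ hb.ne' ha.ne', div_le_iff₀ (mul_pos hb ha)]
  rcases abs_cases a with ⟨h1, h2⟩ | ⟨h1, h2⟩ <;> rcases abs_cases b with ⟨h3, h4⟩ | ⟨h3, h4⟩ <;>
    rw [h1, h3]
  · nlinarith [mul_nonneg (sub_nonneg.2 hab) h2, mul_nonneg (sub_nonneg.2 hab) h4,
      mul_nonneg (sub_nonneg.2 hab) (mul_nonneg h2 h4)]
  · nlinarith
  · have h5 : 0 ≤ -a := by linarith
    nlinarith [mul_nonneg h5 h4, mul_nonneg (mul_nonneg h5 h4) h4, mul_nonneg (mul_nonneg h5 h4) h5,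
      mul_nonneg h5 h5, mul_nonneg h4 h4]
  · have h5 : 0 ≤ -a := by linarith
    have h6 : 0 ≤ -b := by linarith
    nlinarith [mul_nonneg (sub_nonneg.2 hab) h5, mul_nonneg (sub_nonneg.2 hab) h6,
      mul_nonneg (sub_nonneg.2 hab) (mul_nonneg h5 h6)]

lemma th_lip (a b : ℝ) : |th a - th b| ≤ 8 * |a - b| := by
  rcases le_total a b with h | h
  · rw [abs_sub_comm, abs_sub_comm a, abs_of_nonneg (sub_nonneg.2 h),
      abs_of_nonneg (sub_nonneg.2 (th_mono.monotone h))]
    exact th_lip_aux h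
  · rw [abs_of_nonneg (sub_nonneg.2 h), abs_of_nonneg (sub_nonneg.2 (th_mono.monotone h))]
    exact th_lip_aux h

lemma cont_th : Continuous th := by
  unfold th
  exact continuous_id.div (by fun_prop) (fun t => (den_pos t).ne')

lemma cont_ph : Continuous ph := by
  refine continuous_pi fun k => ?_
  exact (AddCircle.continuous_mk' (1 : ℝ)).comp (by fun_prop)

lemma cont_G : Continuous G := by
  unfold G
  exact Continuous.div (by fun_prop) (by fun_prop) (fun t => by positivity)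

lemma G_contr {a b : ℝ} (h : (1 / 2 ≤ a ∧ 1 / 2 ≤ b) ∨ (a ≤ -1 / 2 ∧ b ≤ -1 / 2)) :
    |G a - G b| ≤ 8 / 9 * |a - b| := by
  have key : ∀ a b : ℝ, 1 / 2 ≤ a → 1 / 2 ≤ b → |G a - G b| ≤ 8 / 9 * |a - b| := by
    intro a b ha hb
    have h1 : G a - G b = (a - b) * (2 / ((1 + a) * (1 + b))) := by
      unfold G; rw [abs_of_nonneg (by linarith), abs_of_nonneg (by linarith)]
      field_simp; ring
    have h2 : 0 < (1 + a) * (1 + b) := by positivity
    have h3 : 2 / ((1 + a) * (1 + b)) ≤ 8 / 9 := by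
      rw [div_le_iff₀ h2]; nlinarith
    rw [h1, abs_mul, abs_of_pos (div_pos two_pos h2), mul_comm]
    exact mul_le_mul_of_nonneg_right h3 (abs_nonneg _)
  rcases h with ⟨ha, hb⟩ | ⟨ha, hb⟩
  · exact key a b ha hb
  · have := key (-a) (-b) (by linarith) (by linarith)
    have e : ∀ x : ℝ, G (-x) = - G x := by intro x; unfold G; rw [abs_neg]; ring
    rw [e, e] at this
    have e1 : -G a - -G b = -(G a - G b) := by ring
    have e2 : -a - -b = -(a - b) := by ring
    rwa [e1, e2, abs_neg, abs_neg] at this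

lemma ph_add (a b : ℝ) : ph (a + b) = ph a + ph b := by
  funext k; simp only [ph, Pi.add_apply]; rw [add_div]; rfl

lemma ph_zero : ph 0 = 0 := by funext k; simp [ph]

lemma ph_succ (t : ℝ) (k : ℕ) : (2 : ℕ) • ph t (k + 1) = ph t k := by
  simp only [ph]
  rw [← AddCircle.coe_nsmul]; congr 1
  rw [nsmul_eq_mul, pow_succ]; push_cast; field_simp

lemma ph_two (t : ℝ) (k : ℕ) : (2 : ℕ) • ph t k = ph (2 * t) k := by
  simp only [ph]
  rw [← AddCircle.coe_nsmul]; congr 1
  rw [nsmul_eq_mul]; push_cast; ring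

lemma ph_half (t : ℝ) (k : ℕ) : ph t (k + 1) = ph (t / 2) k := by
  simp only [ph]; congr 1; rw [pow_succ]; field_simp

lemma ph_at0 (t : ℝ) : ph t 0 = (t : T) := by simp [ph]

/-- representative in (-1/2, 1/2] -/
noncomputable def rep (p : T) : ℝ := (AddCircle.equivIoc 1 (-1 / 2) p : ℝ)

lemma coe_rep (p : T) : ((rep p : ℝ) : T) = p := by
  unfold rep
  exact (AddCircle.equivIoc 1 (-1 / 2)).symm_apply_apply p

lemma norm_coe {r : ℝ} (h : |r| ≤ 1 / 2) : ‖(r : T)‖ = |r| := by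
  rw [AddCircle.norm_coe_eq_abs_iff (1 : ℝ) one_ne_zero]; simpa using h

lemma abs_rep (p : T) : |rep p| = ‖p‖ := by
  have h := (AddCircle.equivIoc 1 (-1 / 2) p).2
  have : |rep p| ≤ 1 / 2 := by
    unfold rep; rw [abs_le]; constructor <;> linarith [h.1, h.2]
  rw [← norm_coe this, coe_rep]

lemma coe_inj {a b : ℝ} (h : (a : T) = b) (hab : |a - b| < 1) : a = b := by
  have h1 : ((a - b : ℝ) : T) = 0 := by rw [AddCircle.coe_sub, h, sub_self]
  rw [AddCircle.coe_eq_zero_iff] at h1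
  obtain ⟨n, hn⟩ := h1
  simp only [zsmul_eq_mul, mul_one] at hn
  rw [← hn] at hab
  have : |n| < 1 := by exact_mod_cast hab
  have : n = 0 := by rw [abs_lt] at this; omega
  rw [this] at hn; simp at hn; linarith

lemma rep_coe {r : ℝ} (h : |r| < 1 / 2) : rep (r : T) = r := by
  apply coe_inj (coe_rep _)
  have h1 : |rep (r : T)| = |r| := by rw [abs_rep, norm_coe h.le]
  calc |rep (r : T) - r| ≤ |rep (r : T)| + |r| := abs_sub _ _
    _ < 1 := by linarith

lemma contAt_rep {p : T} (h : ‖p‖ < 1 / 2) : ContinuousAt rep p := by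
  have hne : p ≠ ((-1 / 2 : ℝ) : T) := by
    rintro rfl
    rw [norm_coe (by norm_num)] at h
    norm_num at h
  exact continuous_subtype_val.continuousAt.comp (AddCircle.continuousAt_equivIoc 1 (-1 / 2) hne)

end Pool.Agent.H33.Sm
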