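import Pool.Agent.H33.Sm

set_option autoImplicit false
open Filter Topology

namespace Pool.Agent.H33.Sm

def P (p : (ℕ → T) × ℝ) : Prop :=
  (∀ k, (2 : ℕ) • p.1 (k + 1) = p.1 k) ∧ (p.2 = 1 ∨ p.2 = -1 ∨ ∃ t, p.1 = ph t ∧ p.2 = th t)

abbrev X : Type := {p : (ℕ → T) × ℝ // P p}

lemma abs_le_one (x : X) : |x.1.2| ≤ 1 := by
  rcases x.2.2 with h | h | ⟨t, _, h⟩
  · rw [h]; simp
  · rw [h]; simp
  · rw [h]; exact (abs_th_lt t).le

lemma P_iff (p : (ℕ → T) × ℝ) : P p ↔ (∀ k, (2 : ℕ) • p.1 (k + 1) = p.1 k) ∧ |p.2| ≤ 1 ∧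
    (|p.2| < 1 → p.1 = ph (ta p.2)) := by
  constructor
  · intro h
    refine ⟨h.1, abs_le_one ⟨p, h⟩, fun h1 => ?_⟩
    rcases h.2 with h | h | ⟨t, h2, h⟩
    · rw [h] at h1; simp at h1
    · rw [h] at h1; simp at h1
    · rw [h2, h, ta_th]
  · rintro ⟨h1, h2, h3⟩
    refine ⟨h1, ?_⟩
    rcases h2.lt_or_eq with h | h
    · exact Or.inr (Or.inr ⟨_, h3 h, (th_ta h).symm⟩)
    · rcases abs_eq (zero_le_one) |>.1 h with h | h
      · exact Or.inl h
      · exact Or.inr (Or.inl h)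

lemma contAt_ta {a : ℝ} (h : |a| < 1) : ContinuousAt ta a := by
  unfold ta
  exact ContinuousAt.div (by fun_prop) (by fun_prop) (by linarith)

lemma closed_P : IsClosed {p : (ℕ → T) × ℝ | P p} := by
  simp only [P_iff, Set.setOf_and]
  refine IsClosed.inter ?_ (IsClosed.inter ?_ ?_)
  · simp only [Set.setOf_forall]
    exact isClosed_iInter fun k => isClosed_eq (by fun_prop) (by fun_prop)
  · exact isClosed_le (by fun_prop) continuous_const
  · rw [← isOpen_compl_iff, isOpen_iff_mem_nhds]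
    intro p hp
    simp only [Set.mem_compl_iff, Set.mem_setOf_eq, not_forall] at hp
    obtain ⟨h1, h2⟩ := hp
    have e1 : ∀ᶠ q : (ℕ → T) × ℝ in 𝓝 p, |q.2| < 1 :=
      (by fun_prop : Continuous fun q : (ℕ → T) × ℝ => |q.2|).continuousAt.eventually_lt
        continuousAt_const h1
    have c2 : ContinuousAt (fun q : (ℕ → T) × ℝ => q.1 - ph (ta q.2)) p :=
      continuousAt_fst.sub (cont_ph.continuousAt.comp
        (ContinuousAt.comp (f := fun q : (ℕ → T) × ℝ => q.2) (contAt_ta h1) continuousAt_snd))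
    have e2 := c2.eventually_ne (y := 0) (sub_ne_zero.2 h2)
    filter_upwards [e1, e2] with q hq1 hq2
    simp only [Set.mem_compl_iff, Set.mem_setOf_eq, not_forall]
    exact ⟨hq1, sub_ne_zero.1 hq2⟩

lemma compact_X : CompactSpace X := by
  have h : IsCompact {p : (ℕ → T) × ℝ | P p} := by
    have h1 : IsCompact ((Set.univ : Set (ℕ → T)) ×ˢ Set.Icc (-1 : ℝ) 1) :=
      isCompact_univ.prod isCompact_Icc
    refine h1.of_isClosed_subset closed_P fun p hp => ⟨trivial, ?_⟩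
    exact abs_le.1 (abs_le_one ⟨p, hp⟩)
  exact isCompact_iff_compactSpace.1 h

noncomputable def f0 (x : X) : X := ⟨(fun k => (2 : ℕ) • x.1.1 k, G x.1.2), by
  refine ⟨fun k => by simp only [x.2.1 k], ?_⟩
  rcases x.2.2 with h | h | ⟨t, h2, h⟩
  · left; simp only [h, G_one]
  · right; left; simp only [h, G_neg]
  · right; right; refine ⟨2 * t, ?_, ?_⟩
    · funext k; simp only [h2, ph_two]
    · simp only [h, G_th]⟩

noncomputable def f1 (x : X) : X := ⟨(fun k => x.1.1 (k + 1), Gi x.1.2), by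
  refine ⟨fun k => x.2.1 (k + 1), ?_⟩
  rcases x.2.2 with h | h | ⟨t, h2, h⟩
  · left; simp only [h, Gi_one]
  · right; left; simp only [h, Gi_neg]
  · right; right; refine ⟨t / 2, ?_, ?_⟩
    · funext k; simp only [h2, ph_half]
    · simp only [h, Gi_th]⟩

lemma f1_f0 (x : X) : f1 (f0 x) = x := by
  apply Subtype.ext; apply Prod.ext
  · funext k; exact x.2.1 k
  · show Gi (G x.1.2) = x.1.2
    rcases x.2.2 with h | h | ⟨t, h2, h⟩
    · rw [h, G_one, Gi_one]
    · rw [h, G_neg, Gi_neg]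
    · rw [h, G_th, Gi_th]; congr 1; ring

lemma f0_f1 (x : X) : f0 (f1 x) = x := by
  apply Subtype.ext; apply Prod.ext
  · funext k; exact x.2.1 k
  · show G (Gi x.1.2) = x.1.2
    rcases x.2.2 with h | h | ⟨t, h2, h⟩
    · rw [h, Gi_one, G_one]
    · rw [h, Gi_neg, G_neg]
    · rw [h, Gi_th, G_th]; congr 1; ring

lemma cont_f0 : Continuous f0 := by
  refine Continuous.subtype_mk ?_ _
  refine Continuous.prodMk (continuous_pi fun k => by fun_prop) (cont_G.comp (by fun_prop))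

lemma cont_f1 : Continuous f1 := by
  refine Continuous.subtype_mk ?_ _
  refine Continuous.prodMk (continuous_pi fun k => by fun_prop) ?_
  unfold Gi
  refine Continuous.div (by fun_prop) (by fun_prop) fun x => ?_
  have := abs_le_one x; linarith

noncomputable def f : X ≃ₜ X where
  toFun := f0
  invFun := f1
  left_inv := f1_f0
  right_inv := f0_f1
  continuous_toFun := cont_f0
  continuous_invFun := cont_f1

/-- the flow -/
noncomputable def fl (u : ℝ) (x : X) : X := ⟨(x.1.1 + ph u, Th x.1.2 u), by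
  refine ⟨fun k => by simp only [Pi.add_apply, smul_add, x.2.1 k, ph_succ], ?_⟩
  rcases x.2.2 with h | h | ⟨t, h2, h⟩
  · left; simp only [h, Th_one]
  · right; left; simp only [h, Th_neg]
  · right; right; refine ⟨t + u, ?_, ?_⟩
    · simp only [h2, ph_add]
    · simp only [h, Th_th]⟩

lemma fl_zero (x : X) : fl 0 x = x := by
  apply Subtype.ext; apply Prod.ext
  · show x.1.1 + ph 0 = x.1.1
    rw [ph_zero, add_zero]
  · show Th x.1.2 0 = x.1.2
    rcases x.2.2 with h | h | ⟨t, h2, h⟩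
    · rw [h, Th_one]
    · rw [h, Th_neg]
    · rw [h, Th_th, add_zero]

lemma fl_add (u v : ℝ) (x : X) : fl u (fl v x) = fl (u + v) x := by
  apply Subtype.ext; apply Prod.ext
  · show x.1.1 + ph v + ph u = x.1.1 + ph (u + v)
    rw [ph_add]; abel
  · show Th (Th x.1.2 v) u = Th x.1.2 (u + v)
    rcases x.2.2 with h | h | ⟨t, h2, h⟩
    · simp only [h, Th_one]
    · simp only [h, Th_neg]
    · simp only [h, Th_th]; congr 1; ring

lemma f0_fl (u : ℝ) (x : X) : f0 (fl u x) = fl (2 * u) (f0 x) := by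
  apply Subtype.ext; apply Prod.ext
  · funext k
    show (2 : ℕ) • (x.1.1 k + ph u k) = (2 : ℕ) • x.1.1 k + ph (2 * u) k
    rw [smul_add, ph_two]
  · show G (Th x.1.2 u) = Th (G x.1.2) (2 * u)
    rcases x.2.2 with h | h | ⟨t, h2, h⟩
    · simp only [h, Th_one, G_one]
    · simp only [h, Th_neg, G_neg]
    · simp only [h, Th_th, G_th]; congr 1; ring

lemma f1_fl (u : ℝ) (x : X) : f1 (fl u x) = fl (u / 2) (f1 x) := by
  have := f0_fl (u / 2) (f1 x)
  rw [f0_f1, show 2 * (u / 2) = u by ring] at this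
  rw [← this, f1_f0]

lemma cont_fl : Continuous fun p : ℝ × X => fl p.1 p.2 := by
  refine Continuous.subtype_mk ?_ _
  refine Continuous.prodMk (Continuous.add (by fun_prop) (cont_ph.comp continuous_fst)) ?_
  unfold Th
  refine Continuous.div (by fun_prop) (by fun_prop) fun p => ?_
  have h := abs_le_one p.2
  rcases h.lt_or_eq with h1 | h1
  · have : 0 < (1 - |p.2.1.2|) / 8 := by linarith
    positivity
  · rw [h1, sub_self, mul_zero, add_zero, zero_div, zero_add, abs_div, h1]; norm_num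

lemma fl_at0 (u : ℝ) (x : X) : (fl u x).1.1 0 = x.1.1 0 + (u : T) := by
  show x.1.1 0 + ph u 0 = _
  rw [ph_at0]

lemma fl_h (u : ℝ) (x : X) : |(fl u x).1.2 - x.1.2| ≤ 8 * |u| := by
  show |Th x.1.2 u - x.1.2| ≤ _
  rcases x.2.2 with h | h | ⟨t, h2, h⟩
  · rw [h, Th_one]; simp
  · rw [h, Th_neg]; simp
  · rw [h, Th_th]; have := th_lip (t + u) t; simpa using this

/-- the metric -/
noncomputable def ds (s r : ℕ → T) : ℝ := ∑' k : ℕ, (1 / 2 : ℝ) ^ k * ‖s k - r k‖

lemma norm_le (p : T) : ‖p‖ ≤ 1 := by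
  have := AddCircle.norm_le_half_period (1 : ℝ) (x := p) one_ne_zero
  simp at this; linarith

lemma term_le (s r : ℕ → T) (k : ℕ) : ‖(1 / 2 : ℝ) ^ k * ‖s k - r k‖‖ ≤ (1 / 2 : ℝ) ^ k := by
  rw [Real.norm_eq_abs, abs_of_nonneg (by positivity)]
  exact mul_le_of_le_one_right (by positivity) (norm_le _)

lemma summ (s r : ℕ → T) : Summable fun k : ℕ => (1 / 2 : ℝ) ^ k * ‖s k - r k‖ :=
  Summable.of_norm_bounded summable_geometric_two (term_le s r)

lemma cont_ds : Continuous fun p : (ℕ → T) × (ℕ → T) => ds p.1 p.2 :=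
  continuous_tsum (fun k => by fun_prop) summable_geometric_two fun k p => term_le p.1 p.2 k

lemma le_ds (s r : ℕ → T) (k : ℕ) : (1 / 2 : ℝ) ^ k * ‖s k - r k‖ ≤ ds s r :=
  (summ s r).le_tsum k fun j _ => by positivity

lemma ds_nonneg (s r : ℕ → T) : 0 ≤ ds s r := tsum_nonneg fun k => by positivity

lemma ds_comm (s r : ℕ → T) : ds s r = ds r s := by
  unfold ds; simp only [norm_sub_rev (s _)]

lemma ds_self (s : ℕ → T) : ds s s = 0 := by simp [ds]

lemma ds_tri (s r q : ℕ → T) : ds s q ≤ ds s r + ds r q := by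
  unfold ds
  rw [← (summ s r).tsum_add (summ r q)]
  refine (summ s q).tsum_le_tsum (fun k => ?_) ((summ s r).add (summ r q))
  rw [← mul_add]
  exact mul_le_mul_of_nonneg_left (norm_sub_le_norm_sub_add_norm_sub _ _ _) (by positivity)

lemma ds_eq {s r : ℕ → T} (h : ds s r = 0) : s = r := by
  funext k
  have h1 := le_ds s r k
  rw [h] at h1
  have h2 : (0 : ℝ) < (1 / 2) ^ k := by positivity
  have h3 : ‖s k - r k‖ ≤ 0 := by
    by_contra hc
    rw [not_le] at hc
    have := mul_pos h2 hc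
    linarith
  exact sub_eq_zero.1 (norm_le_zero_iff.1 h3)

lemma ds_ph (s : ℕ → T) {u : ℝ} (h : |u| ≤ 1 / 2) : ds (s + ph u) s = 4 / 3 * |u| := by
  have h1 : ∀ k : ℕ, (1 / 2 : ℝ) ^ k * ‖(s + ph u) k - s k‖ = |u| * (1 / 4) ^ k := by
    intro k
    have h2 : (1 : ℝ) ≤ 2 ^ k := one_le_pow₀ (by norm_num)
    have h3 : |u / 2 ^ k| = |u| / 2 ^ k := by rw [abs_div, abs_of_pos (a := (2 : ℝ) ^ k) (by positivity)]
    simp only [Pi.add_apply, add_sub_cancel_left, ph]
    rw [norm_coe, h3]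
    · rw [show (1 / 4 : ℝ) = (1 / 2) * (1 / 2) by norm_num, mul_pow, one_div, inv_pow]; ring
    · rw [h3]; exact (div_le_self (abs_nonneg _) h2).trans h
  unfold ds
  simp only [h1]
  rw [tsum_mul_left, tsum_geometric_of_lt_one (by norm_num) (by norm_num)]; ring

lemma ds_f0 (x y : X) (h : x.1.1 0 = y.1.1 0) :
    ds (f0 x).1.1 (f0 y).1.1 = 1 / 2 * ds x.1.1 y.1.1 := by
  unfold ds
  rw [(summ _ _).tsum_eq_zero_add, ← tsum_mul_left]
  have h0 : (f0 x).1.1 0 = (f0 y).1.1 0 := by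
    show (2 : ℕ) • x.1.1 0 = (2 : ℕ) • y.1.1 0
    rw [h]
  rw [h0, sub_self, norm_zero, mul_zero, zero_add]
  congr 1; funext k
  have h1 : (f0 x).1.1 (k + 1) = x.1.1 k := x.2.1 k
  have h2 : (f0 y).1.1 (k + 1) = y.1.1 k := y.2.1 k
  rw [h1, h2, pow_succ]; ring

noncomputable def d (x y : X) : ℝ := ds x.1.1 y.1.1 + |x.1.2 - y.1.2| / 8

lemma d_comm (x y : X) : d x y = d y x := by unfold d; rw [ds_comm, abs_sub_comm]

lemma d_eq (x y : X) : d x y = 0 ↔ x = y := by
  constructor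
  · intro h
    unfold d at h
    have h1 := ds_nonneg x.1.1 y.1.1
    have h2 := abs_nonneg (x.1.2 - y.1.2)
    apply Subtype.ext; apply Prod.ext
    · exact ds_eq (by linarith)
    · exact sub_eq_zero.1 (abs_eq_zero.1 (by linarith))
  · rintro rfl; simp [d, ds_self]

lemma d_tri (x y z : X) : d x z ≤ d x y + d y z := by
  unfold d
  have h1 := ds_tri x.1.1 y.1.1 z.1.1
  have h2 := abs_sub_le x.1.2 y.1.2 z.1.2
  linarith

lemma d_nonneg (x y : X) : 0 ≤ d x y := by
  unfold d; have := ds_nonneg x.1.1 y.1.1; positivity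

lemma cont_d : Continuous fun p : X × X => d p.1 p.2 := by
  unfold d
  refine Continuous.add ?_ (by fun_prop)
  exact cont_ds.comp (f := fun p : X × X => (p.1.1.1, p.2.1.1)) (by fun_prop)

lemma d_top (U : Set X) : IsOpen U ↔ ∀ x ∈ U, ∃ r > 0, ∀ y, d x y < r → y ∈ U := by
  have hc : ∀ x : X, Continuous fun y => d x y := fun x =>
    cont_d.comp (f := fun y : X => (x, y)) (by fun_prop)
  constructor
  · intro hU x hx
    haveI := compact_X
    rcases (Uᶜ).eq_empty_or_nonempty with h | h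
    · refine ⟨1, one_pos, fun y _ => ?_⟩
      by_contra hy
      have : y ∈ Uᶜ := hy
      rw [h] at this; exact this
    · obtain ⟨z, hz, hm⟩ := hU.isClosed_compl.isCompact.exists_isMinOn h (hc x).continuousOn
      refine ⟨d x z, ?_, fun y hy => ?_⟩
      · refine (d_nonneg x z).lt_of_ne fun h0 => hz ?_
        rw [← (d_eq x z).1 h0.symm]; exact hx
      · by_contra hy2
        exact absurd (hm hy2) (not_le.2 hy)
  · intro h
    rw [isOpen_iff_mem_nhds]
    intro x hx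
    obtain ⟨r, hr, h1⟩ := h x hx
    have : ∀ᶠ y in 𝓝 x, d x y < r :=
      (hc x).continuousAt.eventually_lt continuousAt_const (by rw [(d_eq x x).2 rfl]; exact hr)
    exact this.mono h1

lemma norm_le_d (x y : X) : ‖x.1.1 0 - y.1.1 0‖ ≤ d x y := by
  have := le_ds x.1.1 y.1.1 0
  unfold d
  have h2 := abs_nonneg (x.1.2 - y.1.2)
  simp at this; linarith

lemma d_fl_le (x : X) {u : ℝ} (h : |u| ≤ 1 / 2) : d (fl u x) x ≤ 7 / 3 * |u| := by
  have h1 : ds (fl u x).1.1 x.1.1 = 4 / 3 * |u| := ds_ph _ h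
  have h2 := fl_h u x
  unfold d; linarith

lemma le_d_fl (x : X) {u : ℝ} (h : |u| ≤ 1 / 2) : 4 / 3 * |u| ≤ d (fl u x) x := by
  have h1 : ds (fl u x).1.1 x.1.1 = 4 / 3 * |u| := ds_ph _ h
  have h2 := abs_nonneg ((fl u x).1.2 - x.1.2)
  unfold d; linarith

end Pool.Agent.H33.Sm
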