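import Pool.Agent.H33.Sm2

set_option autoImplicit false
open Filter Topology

namespace Pool.Agent.H33.Sm

noncomputable def uu (x y : X) : ℝ := rep (x.1.1 0 - y.1.1 0)

noncomputable def br (x y : X) : X := fl (uu x y) y

lemma abs_uu (x y : X) : |uu x y| ≤ d x y := by
  unfold uu; rw [abs_rep]; exact norm_le_d x y

lemma coe_uu (x y : X) : ((uu x y : ℝ) : T) = x.1.1 0 - y.1.1 0 := coe_rep _

lemma br_at0 (x y : X) : (br x y).1.1 0 = x.1.1 0 := by
  unfold br; rw [fl_at0, coe_uu]; abel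

lemma uu_self (x : X) : uu x x = 0 := by
  unfold uu; rw [sub_self]
  have := rep_coe (r := 0) (by norm_num)
  simpa using this

lemma br_self (x : X) : br x x = x := by unfold br; rw [uu_self, fl_zero]

lemma br_cont : ContinuousOn (fun p : X × X => br p.1 p.2) {p | d p.1 p.2 ≤ 1 / 64} := by
  intro p hp
  apply ContinuousAt.continuousWithinAt
  have h1 : ContinuousAt (fun p : X × X => uu p.1 p.2) p := by
    have h2 : ‖p.1.1.1 0 - p.2.1.1 0‖ < 1 / 2 := by
      have := norm_le_d p.1 p.2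
      have h3 : d p.1 p.2 ≤ 1 / 64 := hp
      linarith
    exact ContinuousAt.comp (f := fun p : X × X => p.1.1.1 0 - p.2.1.1 0) (contAt_rep h2)
      (by fun_prop)
  exact ContinuousAt.comp (f := fun p : X × X => (uu p.1 p.2, p.2)) cont_fl.continuousAt
    (h1.prodMk continuousAt_snd)

lemma br_right (x y z : X) (h1 : d y z ≤ 1 / 64) (h2 : d x (br y z) ≤ 1 / 64)
    (h3 : d x z ≤ 1 / 64) : br x (br y z) = br x z := by
  have e : uu x (br y z) + uu y z = uu x z := by
    apply coe_inj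
    · rw [AddCircle.coe_add, coe_uu, coe_uu, coe_uu, br_at0]; abel
    · have a1 := abs_le.1 ((abs_uu _ _).trans h1)
      have a2 := abs_le.1 ((abs_uu _ _).trans h2)
      have a3 := abs_le.1 ((abs_uu _ _).trans h3)
      rw [abs_lt]; constructor <;> linarith [a1.1, a1.2, a2.1, a2.2, a3.1, a3.2]
  show fl (uu x (br y z)) (fl (uu y z) z) = fl (uu x z) z
  rw [fl_add, e]

lemma br_left (x y z : X) : br (br x y) z = br x z := by
  have e : uu (br x y) z = uu x z := by unfold uu; rw [br_at0]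
  show fl (uu (br x y) z) z = fl (uu x z) z
  rw [e]

lemma br_f (x y : X) (h1 : d x y ≤ 1 / 64) (h2 : d (f0 x) (f0 y) ≤ 1 / 64) :
    f0 (br x y) = br (f0 x) (f0 y) := by
  have e : 2 * uu x y = uu (f0 x) (f0 y) := by
    apply coe_inj
    · rw [two_mul, AddCircle.coe_add, coe_uu, coe_uu]
      show _ = (2 : ℕ) • x.1.1 0 - (2 : ℕ) • y.1.1 0
      rw [two_nsmul, two_nsmul]; abel
    · have a1 := abs_le.1 ((abs_uu _ _).trans h1)
      have a2 := abs_le.1 ((abs_uu _ _).trans h2)
      rw [abs_lt]; constructor <;> linarith [a1.1, a1.2, a2.1, a2.2]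
  show f0 (fl (uu x y) y) = fl (uu (f0 x) (f0 y)) (f0 y)
  rw [f0_fl, e]

/-- the embedded line -/
noncomputable def io (t : ℝ) : X := ⟨(ph t, th t), fun k => ph_succ t k, Or.inr (Or.inr ⟨t, rfl, rfl⟩)⟩

lemma eq_io (x : X) (h : |x.1.2| < 1) : x = io (ta x.1.2) := by
  apply Subtype.ext; apply Prod.ext
  · exact ((P_iff _).1 x.2).2.2 h
  · exact (th_ta h).symm

lemma stab (y z : X) (h0 : y.1.1 0 = z.1.1 0) (h : d y z ≤ 1 / 32) :
    d (f0 y) (f0 z) ≤ 8 / 9 * d y z := by
  have h1 := ds_f0 y z h0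
  have h2 := ds_nonneg y.1.1 z.1.1
  have h3 : |y.1.2 - z.1.2| ≤ 1 / 4 := by unfold d at h; linarith
  by_cases hc : (1 / 2 ≤ y.1.2 ∧ 1 / 2 ≤ z.1.2) ∨ (y.1.2 ≤ -1 / 2 ∧ z.1.2 ≤ -1 / 2)
  · have h4 : |(f0 y).1.2 - (f0 z).1.2| ≤ 8 / 9 * |y.1.2 - z.1.2| := G_contr hc
    unfold d; linarith
  · have h5 := abs_le.1 h3
    have hy : |y.1.2| ≤ 3 / 4 := by
      rw [abs_le]; constructor
      · by_contra hh; exact hc (Or.inr ⟨by linarith, by linarith [h5.1]⟩)
      · by_contra hh; exact hc (Or.inl ⟨by linarith, by linarith [h5.2]⟩)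
    have hz : |z.1.2| ≤ 3 / 4 := by
      rw [abs_le]; constructor
      · by_contra hh; exact hc (Or.inr ⟨by linarith [h5.2], by linarith⟩)
      · by_contra hh; exact hc (Or.inl ⟨by linarith [h5.1], by linarith⟩)
    have bd : ∀ a : ℝ, |a| ≤ 3 / 4 → |ta a| ≤ 3 / 8 := by
      intro a ha
      have h6 : 0 < 1 - |a| := by linarith
      unfold ta
      rw [abs_div, abs_div, abs_of_pos h6, div_le_iff₀ h6]
      norm_num; linarith
    have ey := eq_io y (by linarith)
    have ez := eq_io z (by linarith)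
    have e : ta y.1.2 = ta z.1.2 := by
      apply coe_inj
      · rw [← ph_at0, ← ph_at0]
        have a1 : y.1.1 = ph (ta y.1.2) := congrArg (fun w : X => w.1.1) ey
        have a2 : z.1.1 = ph (ta z.1.2) := congrArg (fun w : X => w.1.1) ez
        rw [← a1, ← a2, h0]
      · have a1 := bd _ hy
        have a2 := bd _ hz
        have := abs_sub (ta y.1.2) (ta z.1.2)
        linarith
    have : y = z := by rw [ey, ez, e]
    rw [this, (d_eq _ _).2 rfl, (d_eq _ _).2 rfl]; simp

lemma stable (x y z : X) (h1 : d x y ≤ 1 / 64) (h2 : br y x = x) (h3 : d x z ≤ 1 / 64)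
    (h4 : br z x = x) : d (f0 y) (f0 z) ≤ 8 / 9 * d y z := by
  apply stab
  · rw [← br_at0 y x, ← br_at0 z x, h2, h4]
  · have := d_tri y x z
    rw [d_comm y x] at this; linarith

lemma unstable (x y z : X) (h1 : d x y ≤ 1 / 64) (h2 : br x y = x) (h3 : d x z ≤ 1 / 64)
    (h4 : br x z = x) : d (f1 y) (f1 z) ≤ 8 / 9 * d y z := by
  have a1 := abs_le.1 ((abs_uu _ _).trans h1)
  have a2 := abs_le.1 ((abs_uu _ _).trans h3)
  obtain ⟨v, hv, e⟩ : ∃ v : ℝ, |v| ≤ 1 / 2 ∧ y = fl v z := by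
    refine ⟨-uu x y + uu x z, ?_, ?_⟩
    · rw [abs_le]; constructor <;> linarith [a1.1, a1.2, a2.1, a2.2]
    · rw [← fl_add]
      have b1 : fl (uu x z) z = x := h4
      have b2 : fl (uu x y) y = x := h2
      rw [b1]
      calc y = fl (-uu x y) (fl (uu x y) y) := by rw [fl_add, neg_add_cancel, fl_zero]
        _ = _ := by rw [b2]
  have hv2 : |v / 2| = |v| / 2 := by rw [abs_div, abs_two]
  have c1 := le_d_fl z hv
  have c2 := d_fl_le (f1 z) (u := v / 2) (by rw [hv2]; linarith [abs_nonneg v])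
  rw [e, f1_fl]
  rw [hv2] at c2
  linarith [abs_nonneg v]

lemma cont_io : Continuous io := Continuous.subtype_mk (cont_ph.prodMk cont_th) _

lemma f0_io (t : ℝ) : f0 (io t) = io (2 * t) := by
  apply Subtype.ext; apply Prod.ext
  · funext k; exact ph_two t k
  · exact G_th t

lemma iter_io (n : ℕ) (t : ℝ) : f0^[n] (io t) = io (2 ^ n * t) := by
  induction n with
  | zero => simp
  | succ n ih => rw [Function.iterate_succ_apply', ih, f0_io]; congr 1; ring

lemma io_inj : Function.Injective io := fun a b h =>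
  th_inj (congrArg (fun w : X => w.1.2) h)

lemma sol_pow (x : X) (k j : ℕ) : (2 ^ j : ℕ) • x.1.1 (k + j) = x.1.1 k := by
  induction j with
  | zero => simp
  | succ j ih => rw [pow_succ, mul_smul, ← add_assoc, x.2.1, ih]

lemma approx (x : X) (n : ℕ) : ∃ t : ℝ, |t| ≤ 2 ^ n ∧ ∀ (m : ℤ) (k : ℕ), k ≤ n →
    ph (t + 2 ^ n * m) k = x.1.1 k := by
  refine ⟨2 ^ n * rep (x.1.1 n), ?_, fun m k hk => ?_⟩
  · rw [abs_mul, abs_rep, abs_of_pos (by positivity)]
    exact mul_le_of_le_one_right (by positivity) (norm_le _)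
  · obtain ⟨j, rfl⟩ := Nat.exists_eq_add_of_le hk
    rw [← sol_pow x k j]
    conv_rhs => rw [← coe_rep (x.1.1 (k + j))]
    rw [← AddCircle.coe_nsmul]
    simp only [ph]
    have : (2 ^ (k + j) * rep (x.1.1 (k + j)) + 2 ^ (k + j) * (m : ℝ)) / 2 ^ k
        = (2 ^ j : ℕ) • rep (x.1.1 (k + j)) + ((2 ^ j * m : ℤ) : ℝ) := by
      rw [nsmul_eq_mul]; push_cast; rw [pow_add]; field_simp
    rw [this, AddCircle.coe_add]
    have h0 : (((2 ^ j * m : ℤ) : ℝ) : T) = 0 := by
      rw [AddCircle.coe_eq_zero_iff]; exact ⟨2 ^ j * m, by simp⟩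
    rw [h0, add_zero]

lemma th_top : Tendsto th atTop (𝓝 1) := by
  have h1 : Tendsto (fun t : ℝ => 1 - (1 / 8) / (1 / 8 + t)) atTop (𝓝 (1 - 0)) :=
    tendsto_const_nhds.sub (tendsto_const_nhds.div_atTop (tendsto_atTop_add_const_left _ _ tendsto_id))
  rw [sub_zero] at h1
  refine h1.congr' ?_
  filter_upwards [eventually_ge_atTop 0] with t ht
  have := one_sub_abs_th t
  rw [abs_of_nonneg ht, abs_of_nonneg (by unfold th; positivity)] at this
  linarith

lemma th_neg (t : ℝ) : th (-t) = -th t := by unfold th; rw [abs_neg]; ring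

lemma dense_io (x : X) : x ∈ closure (Set.range io) := by
  choose t ht1 ht2 using approx x
  have hp : Tendsto (fun n : ℕ => (2 : ℝ) ^ n) atTop atTop :=
    tendsto_pow_atTop_atTop_of_one_lt (by norm_num)
  have key : ∀ m : ℤ, Tendsto (fun n => th (t n + 2 ^ n * m)) atTop (𝓝 x.1.2) →
      x ∈ closure (Set.range io) := by
    intro m hm
    refine mem_closure_of_tendsto (f := fun n => io (t n + 2 ^ n * m)) (b := atTop) ?_
      (Eventually.of_forall fun n => ⟨_, rfl⟩)
    rw [tendsto_subtype_rng]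
    refine Tendsto.prodMk_nhds ?_ hm
    rw [tendsto_pi_nhds]
    intro k
    refine tendsto_const_nhds.congr' ?_
    filter_upwards [eventually_ge_atTop k] with n hn
    exact (ht2 n m k hn).symm
  rcases x.2.2 with h | h | ⟨s, h2, h⟩
  · apply key 2
    rw [h]
    refine th_top.comp (tendsto_atTop_mono (fun n => ?_) hp)
    have := abs_le.1 (ht1 n)
    push_cast; linarith [this.1]
  · apply key (-2)
    rw [h]
    have : Tendsto (fun n : ℕ => th (-(t n + 2 ^ n * ((-2 : ℤ) : ℝ)))) atTop (𝓝 1) := by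
      refine th_top.comp (tendsto_atTop_mono (fun n => ?_) hp)
      have := abs_le.1 (ht1 n)
      push_cast; linarith [this.2]
    have h3 := this.neg
    simp only [th_neg, neg_neg] at h3
    exact h3
  · apply subset_closure
    refine ⟨s, ?_⟩
    apply Subtype.ext; apply Prod.ext
    · exact h2.symm
    · exact h.symm

lemma lt_of_iter (n : ℕ) (x : X) (h : |x.1.2| < 1) : |(f0^[n] x).1.2| < 1 := by
  rw [eq_io x h, iter_io]; exact abs_th_lt _

lemma surj_fix (τ : X → X) (hc : Continuous τ) (hf : ∀ x, τ (f0 x) = f0 (τ x))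
    (hi : Function.Injective τ) (h0 : τ (io 0) = io 0) : Function.Surjective τ := by
  have hit : ∀ n x, τ (f0^[n] x) = f0^[n] (τ x) := by
    intro n x
    induction n with
    | zero => rfl
    | succ n ih => rw [Function.iterate_succ_apply', Function.iterate_succ_apply', hf, ih]
  have hlt : ∀ t, |(τ (io t)).1.2| < 1 := by
    intro t
    have h1 : Tendsto (fun n : ℕ => t * (1 / 2 : ℝ) ^ n) atTop (𝓝 (t * 0)) :=
      (tendsto_pow_atTop_nhds_zero_of_lt_one (by norm_num) (by norm_num)).const_mul t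
    rw [mul_zero] at h1
    have h2 : Continuous fun s => |(τ (io s)).1.2| := by
      have := cont_io; fun_prop
    have h3 := (h2.tendsto 0).comp h1
    have h4 : |(τ (io 0)).1.2| < 1 := by rw [h0]; exact abs_th_lt 0
    obtain ⟨n, hn⟩ := (h3.eventually (gt_mem_nhds h4)).exists
    have h5 := lt_of_iter n _ hn
    rw [← hit, iter_io] at h5
    have : (2 : ℝ) ^ n * (t * (1 / 2) ^ n) = t := by
      rw [one_div, inv_pow]; field_simp
    rwa [this] at h5
  obtain ⟨g, hg, hgc⟩ : ∃ g : ℝ → ℝ, (∀ t, τ (io t) = io (g t)) ∧ Continuous g := by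
    refine ⟨fun t => ta (τ (io t)).1.2, fun t => eq_io _ (hlt t), ?_⟩
    rw [continuous_iff_continuousAt]
    intro t
    have h2 : Continuous fun s => (τ (io s)).1.2 := by
      have := cont_io; fun_prop
    exact ContinuousAt.comp (f := fun s => (τ (io s)).1.2) (contAt_ta (hlt t)) h2.continuousAt
  have gi : Function.Injective g := fun a b h => io_inj (hi (by rw [hg, hg, h]))
  have g0 : g 0 = 0 := io_inj (by rw [← hg, h0])
  have gp : ∀ (n : ℕ) t, g (2 ^ n * t) = 2 ^ n * g t := fun n t =>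
    io_inj (by rw [← hg, ← iter_io, hit, hg, iter_io])
  obtain ⟨a, b, ha, hb⟩ : ∃ a b, g a < 0 ∧ 0 < g b := by
    rcases hgc.strictMono_of_inj gi with h | h
    · exact ⟨-1, 1, by rw [← g0]; exact h (by norm_num), by rw [← g0]; exact h (by norm_num)⟩
    · exact ⟨1, -1, by rw [← g0]; exact h (by norm_num), by rw [← g0]; exact h (by norm_num)⟩
  have gs : Function.Surjective g := by
    intro c
    apply mem_range_of_exists_le_of_exists_ge hgc
    · obtain ⟨n, hn⟩ := pow_unbounded_of_one_lt (c / g a) (one_lt_two (α := ℝ))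
      refine ⟨2 ^ n * a, ?_⟩
      rw [gp]; rw [div_lt_iff_of_neg ha] at hn; exact hn.le
    · obtain ⟨n, hn⟩ := pow_unbounded_of_one_lt (c / g b) (one_lt_two (α := ℝ))
      refine ⟨2 ^ n * b, ?_⟩
      rw [gp]; rw [div_lt_iff₀ hb] at hn; exact hn.le
  have := compact_X
  have hcl : IsClosed (Set.range τ) := (isCompact_range hc).isClosed
  intro x
  have h1 : Set.range io ⊆ Set.range τ := by
    rintro _ ⟨t, rfl⟩
    obtain ⟨s, rfl⟩ := gs t
    exact ⟨io s, hg s⟩
  exact (closure_minimal h1 hcl) (dense_io x)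

lemma fix_finite : {x : X | f0 x = x}.Finite := by
  have h1 : {x : X | f0 x = x} ⊆ (fun x : X => x.1) ⁻¹' {(0, 1), (0, -1), (0, 0)} := by
    intro x hx
    have hx : f0 x = x := hx
    have a1 : x.1.1 = 0 := by
      funext k
      have : (2 : ℕ) • x.1.1 k = x.1.1 k := congrArg (fun w : X => w.1.1 k) hx
      rw [two_nsmul] at this
      simpa using this
    have a2 : G x.1.2 = x.1.2 := congrArg (fun w : X => w.1.2) hx
    simp only [Set.mem_preimage, Set.mem_insert_iff, Set.mem_singleton_iff, Prod.ext_iff]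
    rcases x.2.2 with h | h | ⟨t, h2, h⟩
    · exact Or.inl ⟨a1, h⟩
    · exact Or.inr (Or.inl ⟨a1, h⟩)
    · refine Or.inr (Or.inr ⟨a1, ?_⟩)
      rw [h, G_th] at a2
      have := th_inj a2
      have : t = 0 := by linarith
      rw [h, this]; simp [th]
  exact (Set.Finite.preimage Subtype.val_injective.injOn (Set.toFinite _)).subset h1

lemma surj (τ : X → X) (hc : Continuous τ) (hf : ∀ x, τ (f0 x) = f0 (τ x))
    (hi : Function.Injective τ) : Function.Surjective τ := by
  have := fix_finite.to_subtype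
  let σ : {x : X | f0 x = x} → {x : X | f0 x = x} := fun x => ⟨τ x.1, by
    show f0 (τ x.1) = τ x.1
    rw [← hf, show f0 x.1 = x.1 from x.2]⟩
  have hσ : Function.Injective σ := fun a b h => Subtype.ext (hi (congrArg Subtype.val h))
  have hb : f0 (io 0) = io 0 := by rw [f0_io, mul_zero]
  obtain ⟨n, hn, hper⟩ := Function.mem_periodicPts.1 (hσ.mem_periodicPts ⟨io 0, hb⟩)
  have hit : ∀ k (x : {x : X | f0 x = x}), (σ^[k] x).1 = τ^[k] x.1 := by
    intro k x
    induction k with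
    | zero => rfl
    | succ k ih => rw [Function.iterate_succ_apply', Function.iterate_succ_apply', ← ih]
  have h0 : τ^[n] (io 0) = io 0 := by
    have := hit n ⟨io 0, hb⟩
    rw [show σ^[n] ⟨io 0, hb⟩ = ⟨io 0, hb⟩ from hper] at this
    exact this.symm
  have h1 := surj_fix (τ^[n]) (hc.iterate n) (fun x => by
    have : Function.Commute τ f0 := hf
    exact this.iterate_left n x) (hi.iterate n) h0
  obtain ⟨m, rfl⟩ := Nat.exists_eq_succ_of_ne_zero hn.ne'
  rw [Function.iterate_succ'] at h1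
  exact h1.of_comp

lemma wander {Y Z : Type} [TopologicalSpace Y] [TopologicalSpace Z] [Countable Z] (g : Y → Y)
    (σ : Z → Z) (h : X ≃ₜ (Y ⊕ Z)) (hh : ∀ x, h (f0 x) = Sum.map g σ (h x))
    (hw : ∀ U : Set Y, IsOpen U → U.Nonempty → ∃ n : ℕ, 1 ≤ n ∧ (g^[n] '' U ∩ U).Nonempty) :
    False := by
  obtain ⟨t, ht, y, hy⟩ : ∃ t : ℝ, t ∈ Set.Ioo (1 : ℝ) 2 ∧ ∃ y, h (io t) = Sum.inl y := by
    by_contra hcon
    have h1 : Set.Ioo (1 : ℝ) 2 ⊆ (fun t => h (io t)) ⁻¹' Set.range Sum.inr := by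
      intro t ht
      rcases hs : h (io t) with y | z
      · exact absurd ⟨t, ht, y, hs⟩ hcon
      · exact ⟨z, hs.symm⟩
    have h2 : ((fun t => h (io t)) ⁻¹' Set.range (Sum.inr : Z → Y ⊕ Z)).Countable :=
      (Set.countable_range _).preimage (h.injective.comp io_inj)
    have h3 := h2.mono h1
    have := Cardinal.mk_Ioo_real (one_lt_two (α := ℝ))
    rw [← Cardinal.le_aleph0_iff_set_countable, this] at h3
    exact absurd h3 (not_le.2 Cardinal.aleph0_lt_continuum)
  have hy' : h.symm (Sum.inl y) = io t := by rw [← hy]; simp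
  have hc : Continuous fun y : Y => (h.symm (Sum.inl y)).1.2 := by fun_prop
  obtain ⟨n, hn, _, ⟨y1, hy1, rfl⟩, hy2⟩ := hw
    ((fun y : Y => (h.symm (Sum.inl y)).1.2) ⁻¹' Set.Ioo (th 1) (th 2))
    (isOpen_Ioo.preimage hc) ⟨y, by
      simp only [Set.mem_preimage, hy']
      exact ⟨th_mono ht.1, th_mono ht.2⟩⟩
  have hit : ∀ k, h.symm (Sum.inl (g^[k] y1)) = f0^[k] (h.symm (Sum.inl y1)) := by
    intro k
    induction k with
    | zero => rfl
    | succ k ih =>
      rw [Function.iterate_succ_apply', Function.iterate_succ_apply', ← ih]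
      apply h.injective
      rw [hh]; simp
  simp only [Set.mem_preimage, hit] at hy1 hy2
  have b1 := abs_lt.1 (abs_th_lt 1)
  have b2 := abs_lt.1 (abs_th_lt 2)
  obtain ⟨s, hs⟩ : ∃ s, h.symm (Sum.inl y1) = io s :=
    ⟨_, eq_io _ (by rw [abs_lt]; constructor <;> linarith [hy1.1, hy1.2, b1.1, b2.2])⟩
  rw [hs] at hy1 hy2
  rw [iter_io] at hy2
  have c1 : 1 < s := th_mono.lt_iff_lt.1 hy1.1
  have c2 : 2 ^ n * s < 2 := th_mono.lt_iff_lt.1 hy2.2
  have c3 : (2 : ℝ) ^ 1 ≤ 2 ^ n := pow_le_pow_right₀ (by norm_num) hn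
  nlinarith

end Pool.Agent.H33.Sm
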