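import Mathlib

set_option autoImplicit false

namespace Pool.Agent.H33.Sq

open Finset Real

lemma prod_sub {ι : Type} (I : Finset ι) (a b : ι → ℝ) (ha : ∀ i, |a i| ≤ 1) (hb : ∀ i, |b i| ≤ 1) :
    |∏ i ∈ I, a i - ∏ i ∈ I, b i| ≤ ∑ i ∈ I, |a i - b i| := by
  classical
  induction I using Finset.induction_on with
  | empty => simp
  | insert j I hj ih =>
    rw [prod_insert hj, prod_insert hj, sum_insert hj]
    have e : a j * ∏ i ∈ I, a i - b j * ∏ i ∈ I, b i =
        (a j - b j) * ∏ i ∈ I, a i + b j * (∏ i ∈ I, a i - ∏ i ∈ I, b i) := by ring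
    have h : |∏ i ∈ I, a i| ≤ 1 := by
      rw [abs_prod]; exact prod_le_one (fun _ _ => abs_nonneg _) fun i _ => ha i
    rw [e]
    refine (abs_add_le _ _).trans (add_le_add ?_ ?_) <;> rw [abs_mul]
    · exact mul_le_of_le_one_right (abs_nonneg _) h
    · exact (mul_le_of_le_one_left (abs_nonneg _) (hb j)).trans ih

lemma hs_congr {ι E : Type} [NormedAddCommGroup E] {f g : ι → E} {a : E} (h : HasSum f a)
    (e : ∀ x, g x = f x) : HasSum g a := by rwa [funext e]

lemma conv (u p : ℤ → ℝ) (hu : Summable u) (hp : Summable p) (φ : ℤ → ℝ) (hφ : ∀ x, |φ x| ≤ 1) :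
    HasSum (fun m => (∑' j, p j * u (m - j)) * φ m) (∑' j, u j * ∑' x, p x * φ (j + x)) := by
  have h1 : Summable fun t : ℤ × ℤ => u t.1 * (p t.2 * φ (t.1 + t.2)) := by
    refine .of_norm_bounded (summable_mul_of_summable_norm (f := fun j => ‖u j‖)
      (g := fun j => ‖p j‖) (by simpa using hu.norm) (by simpa using hp.norm)) fun t => ?_
    simp only [norm_mul]
    exact mul_le_mul_of_nonneg_left (mul_le_of_le_one_right (norm_nonneg _) (hφ _)) (norm_nonneg _)
  let e : ℤ × ℤ ≃ ℤ × ℤ := ⟨fun t => (t.1 - t.2, t.2), fun t => (t.1 + t.2, t.2), fun t => by simp,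
    fun t => by simp⟩
  have h2 := e.hasSum_iff.2 h1.hasSum
  rw [h1.tsum_prod] at h2
  simp only [tsum_mul_left] at h2
  refine h2.prod_fiberwise fun m => ?_
  have := (h2.summable.prod_factor m).hasSum
  simp only [Function.comp, e, Equiv.coe_fn_mk, sub_add_cancel, ← mul_assoc, tsum_mul_right] at this ⊢
  simpa only [mul_comm (u _)] using this

lemma mass (p : ℤ → ℝ) (p0 : ∀ x, 0 ≤ p x) (p1 : HasSum p 1) (u : ℕ → ℤ → ℝ)
    (u0 : u 0 = fun m => if m = 0 then 1 else 0) (us : ∀ n m, u (n + 1) m = ∑' j, p j * u n (m - j))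
    (n : ℕ) : (∀ x, 0 ≤ u n x) ∧ HasSum (u n) 1 := by
  induction n with
  | zero => exact ⟨fun x => by rw [u0]; dsimp only; split_ifs <;> norm_num,
      u0 ▸ hasSum_ite_eq 0 1⟩
  | succ n ih =>
    refine ⟨fun x => us n x ▸ tsum_nonneg fun j => mul_nonneg (p0 _) (ih.1 _), ?_⟩
    simpa only [Pi.one_apply, mul_one, p1.tsum_eq, ih.2.tsum_eq, ← us] using
      conv (u n) p ih.2.summable p1.summable 1 (by simp)

lemma bdd {u φ : ℤ → ℝ} (hu : Summable u) (B : ℝ) (h : ∀ x, |φ x| ≤ B) :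
    Summable fun k => u k * φ k :=
  .of_norm_bounded (hu.abs.mul_right B) fun k => by
    rw [norm_mul]; exact mul_le_mul_of_nonneg_left (h k) (abs_nonneg _)

lemma drift (p : ℤ → ℝ) (p0 : ∀ x, 0 ≤ p x) (p1 : HasSum p 1) (u : ℕ → ℤ → ℝ)
    (u0 : u 0 = fun m => if m = 0 then 1 else 0) (us : ∀ n m, u (n + 1) m = ∑' j, p j * u n (m - j))
    (φ : ℤ → ℝ) (h1 : ∀ x, |φ x| ≤ 1) (c : ℝ) (hc : |c| ≤ 1) (ε : ℝ)
    (h : ∀ x, |∑' y, p y * φ (x + y) - c * φ x| ≤ ε) (n : ℕ) :
    |∑' k, u n k * φ k - c ^ n * φ 0| ≤ n * ε := by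
  have a := mass p p0 p1 u u0 us
  have d : ∀ n, |∑' k, u (n + 1) k * φ k - c * ∑' k, u n k * φ k| ≤ ε := by
    intro n
    have e : ∀ j, ‖u n j * (∑' y, p y * φ (j + y) - c * φ j)‖ ≤ u n j * ε := fun j => by
      rw [norm_mul, Real.norm_of_nonneg ((a n).1 j)]
      exact mul_le_mul_of_nonneg_left (h j) ((a n).1 j)
    have s1 := Summable.of_norm_bounded ((a n).2.summable.mul_right ε) e
    have := s1.hasSum.norm_le_of_bounded ((a n).2.mul_right ε) e
    simp only [us, (conv (u n) p (a n).2.summable p1.summable φ h1).tsum_eq]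
    rw [one_mul] at this
    refine le_trans (le_of_eq (congrArg _ ?_)) this
    rw [sub_eq_iff_eq_add, ← tsum_mul_left, ← s1.tsum_add ((bdd (a n).2.summable 1 h1).mul_left c)]
    exact tsum_congr fun j => by ring
  induction n with
  | zero => simp [u0]
  | succ n ih =>
    have := abs_add_le (∑' k, u (n + 1) k * φ k - c * ∑' k, u n k * φ k)
      (c * (∑' k, u n k * φ k - c ^ n * φ 0))
    rw [abs_mul, show ∀ x y : ℝ, x - c * y + c * (y - c ^ n * φ 0) = x - c ^ (n + 1) * φ 0 from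
      fun x y => by ring] at this
    have := mul_le_mul hc ih (abs_nonneg _) zero_le_one
    have := d n
    push_cast
    linarith

def B (l : ℕ) : ℕ := 2 ^ l * l ^ 4 * 2 ^ 16

def N : ℕ → ℕ
  | 0 => 1
  | l + 1 => 4 * B (l + 2) * N l

lemma Bpos (l : ℕ) : 0 < B (l + 1) := by unfold B; positivity

lemma Npos (l : ℕ) : 0 < N l := by
  induction l with
  | zero => simp [N]
  | succ l ih => have := Bpos (l + 1); rw [N]; positivity

lemma Ndvd {k l : ℕ} (h : k < l) : ∃ M : ℕ, B (l + 1) ≤ M ∧ N l = 4 * M * N k := by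
  induction l, h using Nat.le_induction with
  | base => exact ⟨_, le_rfl, rfl⟩
  | succ l _ ih =>
    obtain ⟨M, h1, h2⟩ := ih
    have : 0 < M := (Bpos l).trans_le h1
    exact ⟨B (l + 2) * (4 * M), Nat.le_mul_of_pos_right _ (by omega), by rw [N, h2]; ring⟩

lemma Ninj : Function.Injective fun k => (N k : ℤ) := by
  refine StrictMono.injective (strictMono_nat_of_lt_succ fun l => ?_)
  have := Npos l
  have h := Bpos (l + 1)
  rw [Nat.cast_lt, N]
  nlinarith

noncomputable def w (k : ℕ) : ℝ := 1 / (16 * (2 ^ Nat.log 2 (k + 1)) ^ 2)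

lemma w_pos (k : ℕ) : 0 < w k := by unfold w; positivity

lemma w_sum : Summable w ∧ ∑' k, w k ≤ 1 / 2 := by
  have h : ∀ k, w k ≤ 1 / 2 * (1 / ((k : ℝ) + 1) - 1 / ((k + 1 : ℕ) + 1)) := by
    intro k
    have : k + 2 ≤ 2 ^ (Nat.log 2 (k + 1) + 1) := Nat.lt_pow_succ_log_self one_lt_two (k + 1)
    have : (k : ℝ) + 2 ≤ 2 ^ Nat.log 2 (k + 1) * 2 := by exact_mod_cast this
    have e : 1 / 2 * (1 / ((k : ℝ) + 1) - 1 / ((k + 1 : ℕ) + 1)) = 1 / (2 * ((k + 1) * (k + 2))) := by
      push_cast; field_simp; ring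
    rw [e]
    refine one_div_le_one_div_of_le (by positivity) ?_
    nlinarith [Nat.cast_nonneg (α := ℝ) k]
  have : ∀ n, ∑ k ∈ range n, w k ≤ 1 / 2 := fun n => (sum_le_sum fun k _ => h k).trans (by
    rw [← mul_sum, sum_range_sub' fun k : ℕ => 1 / ((k : ℝ) + 1)]
    have : (0 : ℝ) ≤ 1 / (n + 1) := by positivity
    simp only [Nat.cast_zero, zero_add, div_one]
    linarith)
  exact ⟨summable_of_sum_range_le (fun k => (w_pos k).le) this,
    Real.tsum_le_of_sum_range_le (fun k => (w_pos k).le) this⟩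

lemma exists_p : ∃ p : ℤ → ℝ, (∀ x, 0 ≤ p x) ∧ ∀ (E : Type) [NormedAddCommGroup E] [NormedSpace ℝ E]
    [CompleteSpace E] (F : ℤ → E), (∀ x, ‖F x‖ ≤ 1) → HasSum (fun x => p x • F x)
      ((1 - ∑' k, w k) • F 0 + ∑' k, (w k / 2) • (F (N k) + F (-N k))) := by
  let p : ℤ → ℝ := Function.extend (fun k => (N k : ℤ)) (fun k => w k / 2) 0
  have p0 : ∀ x, 0 ≤ p x := fun x => by
    by_cases hx : ∃ k, (N k : ℤ) = x
    · obtain ⟨k, rfl⟩ := hx
      simp only [p, Ninj.extend_apply]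
      exact (half_pos (w_pos _)).le
    · simp [p, Function.extend_apply' _ _ _ hx]
  refine ⟨fun x => (if x = 0 then 1 - ∑' k, w k else 0) + (p x + p (-x)), fun x => ?_,
    fun E _ _ _ F hF => ?_⟩
  · have := p0 x
    have := p0 (-x)
    have := w_sum.2
    dsimp only
    split_ifs <;> linarith
  have h1 : ∀ F : ℤ → E, (∀ x, ‖F x‖ ≤ 1) → Summable (fun k => (w k / 2) • F (N k)) ∧
      HasSum (fun x => p x • F x) (∑' k, (w k / 2) • F (N k)) := by
    intro F hF
    have s : Summable fun k => (w k / 2) • F (N k) :=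
      .of_norm_bounded w_sum.1 fun k => by
        have := w_pos k
        have := mul_le_of_le_one_right this.le (hF (N k))
        rw [norm_smul, Real.norm_of_nonneg (by positivity)]
        linarith
    refine ⟨s, (Ninj.hasSum_iff fun x hx => by simp [p, Function.extend_apply' _ _ _ hx]).1 ?_⟩
    refine hs_congr s.hasSum fun k => ?_
    simp [p, Ninj.extend_apply]
  obtain ⟨a, b⟩ := h1 F hF
  obtain ⟨c, d⟩ := h1 (fun x => F (-x)) fun x => hF _
  have d' := (Equiv.neg ℤ).hasSum_iff.2 d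
  have := (hasSum_ite_eq (0 : ℤ) ((1 - ∑' k, w k) • F 0)).add (b.add d')
  simp only [smul_add, a.tsum_add c]
  refine hs_congr this fun k => ?_
  by_cases hk : k = 0 <;> simp [hk, add_smul]

noncomputable def c (l : ℕ) (x : ℤ) : ℝ := cos (π * x / N l)

lemma hN (l : ℕ) : (N l : ℝ) ≠ 0 := by exact_mod_cast (Npos l).ne'

lemma c_per (l : ℕ) (x M : ℤ) : c l (x + 2 * M * N l) = c l x := by
  have : π * ((x + 2 * M * N l : ℤ) : ℝ) / N l = π * x / N l + M * (2 * π) := by
    have := hN l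
    push_cast; field_simp
  rw [c, this, cos_add_int_mul_two_pi, c]

lemma c_flip (l : ℕ) (x σ : ℤ) (h : σ = 1 ∨ σ = -1) : c l (x + σ * N l) = -c l x := by
  have : π * ((x + σ * N l : ℤ) : ℝ) / N l = π * x / N l + σ * π := by
    have := hN l
    push_cast; field_simp
  rw [c, this, c]
  rcases h with rfl | rfl <;> simp [cos_add]

lemma c_half (l : ℕ) (x : ℤ) (h : ℕ) (e : N l = 2 * h) : c l (x + h) ^ 2 = 1 - c l x ^ 2 := by
  have : π * ((x + h : ℤ) : ℝ) / N l = π * x / N l + π / 2 := by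
    have := hN l
    rw [e] at this ⊢
    push_cast at this ⊢
    have : (h : ℝ) ≠ 0 := by simpa using this
    field_simp
  rw [c, this, cos_add_pi_div_two, c, neg_sq, sin_sq]

lemma step (K : ℕ) (hK : 0 < K) (S : Finset ℕ) (hS : ∀ l ∈ S, K ≤ l + 1) (x : ℤ) (k : ℕ) (σ : ℤ)
    (hσ : σ = 1 ∨ σ = -1) : |∏ l ∈ S, c l (x + σ * N k) - (if k ∈ S then -1 else 1) * ∏ l ∈ S, c l x|
      ≤ S.card * (1 / B K) := by
  have b0 : (0 : ℝ) < B K := by unfold B; positivity
  have : (if k ∈ S then -1 else 1) * ∏ l ∈ S, c l x = ∏ l ∈ S, (if l = k then -1 else 1) * c l x := by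
    rw [prod_mul_distrib, prod_ite_eq']
  rw [this, ← nsmul_eq_mul]
  refine (prod_sub S (fun l => c l (x + σ * N k)) (fun l => (if l = k then -1 else 1) * c l x)
    (fun l => abs_cos_le_one _) fun l => ?_).trans (sum_le_card_nsmul _ _ _ fun l hl => ?_)
  · split_ifs <;> simp [c, abs_cos_le_one]
  rcases lt_trichotomy l k with h | rfl | h
  · obtain ⟨M, -, hM⟩ := Ndvd h
    rw [if_neg h.ne, hM, show x + σ * (4 * M * N l : ℕ) = x + 2 * (σ * 2 * M) * N l by
      push_cast; ring, c_per]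
    simp [b0.le]
  · simp [c_flip _ _ _ hσ, b0.le]
  · obtain ⟨M, hM1, hM⟩ := Ndvd h
    have h6 : (B K : ℝ) ≤ M := by
      have := hS l hl
      exact_mod_cast le_trans (by unfold B; gcongr; norm_num) hM1
    have M0 : (0 : ℝ) < M := b0.trans_le h6
    have e2 : π * ((x + σ * N k : ℤ) : ℝ) / N l - π * x / N l = σ * (π / (4 * M)) := by
      have := hN k
      rw [hM]; push_cast; field_simp; ring
    rw [if_neg h.ne', one_mul]
    refine (abs_cos_sub_cos_le _ _).trans ?_
    rw [e2, abs_mul, show |(σ : ℝ)| = 1 by rcases hσ with rfl | rfl <;> simp, one_mul,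
      abs_of_pos (show 0 < π / (4 * M) by positivity), div_le_div_iff₀ (by positivity) b0]
    nlinarith [pi_le_four, pi_pos]

lemma eigen (K : ℕ) (hK : 0 < K) (S : Finset ℕ) (hS : ∀ l ∈ S, K ≤ l + 1) (v : ℝ)
    (hv : ∀ l ∈ S, w l = v) (x : ℤ) :
    |(1 - ∑' k, w k) * ∏ l ∈ S, c l x + ∑' k, w k / 2 * (∏ l ∈ S, c l (x + -1 * N k) +
      ∏ l ∈ S, c l (x + 1 * N k)) - (1 - S.card * (2 * v)) * ∏ l ∈ S, c l x| ≤ S.card * (1 / B K) := by
  have hφ : ∀ x, |∏ l ∈ S, c l x| ≤ 1 := fun x => by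
    rw [abs_prod]; exact prod_le_one (fun _ _ => abs_nonneg _) fun i _ => abs_cos_le_one _
  have a1 : Summable fun k => w k / 2 * (∏ l ∈ S, c l (x + -1 * N k) + ∏ l ∈ S, c l (x + 1 * N k)) :=
    .of_norm_bounded w_sum.1 fun k => by
      have := (abs_add_le _ _).trans (add_le_add (hφ (x + -1 * N k)) (hφ (x + 1 * N k)))
      rw [norm_mul, Real.norm_of_nonneg (half_pos (w_pos k)).le, Real.norm_eq_abs]
      nlinarith [w_pos k]
  have a2 := (w_sum.1.hasSum.sub (hasSum_sum_of_ne_finset_zero (s := S)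
    (f := fun k => if k ∈ S then 2 * v else 0) fun k hk => if_neg hk)).mul_right (∏ l ∈ S, c l x)
  have a4 := (a1.hasSum.sub a2).norm_le_of_bounded (w_sum.1.hasSum.mul_right ((S.card : ℝ) * (1 / B K)))
    fun k => by
      have b3 := (abs_add_le _ _).trans
        (add_le_add (step K hK S hS x k (-1) (Or.inr rfl)) (step K hK S hS x k 1 (Or.inl rfl)))
      refine le_trans (le_of_eq ?_) ((mul_le_mul_of_nonneg_left b3 (half_pos (w_pos k)).le).trans
        (le_of_eq (by ring)))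
      rw [← abs_of_pos (half_pos (w_pos k)), ← abs_mul, abs_of_pos (half_pos (w_pos k))]
      refine congrArg _ ?_
      split_ifs with h
      · rw [← hv k h]; ring
      · ring
  rw [sum_ite_of_true fun _ h => h, sum_const, nsmul_eq_mul] at a4
  refine le_trans (le_of_eq (congrArg _ (by ring))) (a4.trans (mul_le_of_le_one_left (by positivity)
    (by linarith [w_sum.2])))

lemma shift (H : ℤ → ℂ) (Q : ℕ) (h : ∀ x, H (x + Q) = H x) (s : ℕ) :
    ∑ x ∈ range Q, H (x + s) = ∑ x ∈ range Q, H x := by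
  induction s with
  | zero => simp
  | succ s ih =>
    have a := sum_range_succ (fun x : ℕ => H (x + s)) Q
    have b := sum_range_succ' (fun x : ℕ => H (x + s)) Q
    rw [add_comm (Q : ℤ), h] at a
    simp only [Nat.cast_zero, zero_add, Nat.cast_succ, add_right_comm _ (1 : ℤ)] at b
    simp only [Nat.cast_succ, ← add_assoc]
    rw [← ih]
    exact add_right_cancel (b.symm.trans a)

lemma indep (Q : ℕ) (α β γ : ℕ → ℂ) (S : Finset ℕ) (hS : ∀ l ∈ S, 0 < l ∧ ∃ M : ℕ, Q = 2 * M * N l) :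
    ∑ x ∈ range Q, ∏ l ∈ S, (α l + β l * c l x + γ l * c l x ^ 2) = Q * ∏ l ∈ S, (α l + γ l / 2) := by
  induction S using Finset.induction_on_max with
  | empty => simp
  | insert t S ht ih =>
    have hn : t ∉ S := fun h => lt_irrefl _ (ht t h)
    have ih := ih fun l hl => hS l (mem_insert_of_mem hl)
    obtain ⟨t0, -⟩ := hS t (mem_insert_self _ _)
    obtain ⟨M, -, hM⟩ := Ndvd t0
    let G : ℤ → ℂ := fun x => ∏ l ∈ S, (α l + β l * c l x + γ l * c l x ^ 2)
    have per : ∀ l ∈ insert t S, ∀ x, c l (x + Q) = c l x := fun l hl x => by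
      obtain ⟨-, M, hM⟩ := hS l hl
      rw [hM]; push_cast; exact c_per _ _ _
    have gQ : ∀ x, G (x + Q) = G x := fun x =>
      prod_congr rfl fun l hl => by rw [per l (mem_insert_of_mem hl)]
    have gh : ∀ x, G (x + (2 * M * N 0 : ℕ)) = G x := fun x => prod_congr rfl fun l hl => by
      obtain ⟨M', -, h'⟩ := Ndvd (ht l hl)
      rw [show 2 * M * N 0 = 2 * M' * N l by nlinarith]; push_cast; rw [c_per]
    have gN : ∀ x, G (x + N t) = G x := fun x => by
      rw [hM, show x + (4 * M * N 0 : ℕ) = x + (2 * M * N 0 : ℕ) + (2 * M * N 0 : ℕ) by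
        push_cast; ring, gh, gh]
    have e1 := shift (fun x => c t x * G x) Q
      (fun x => by rw [gQ, per t (mem_insert_self _ _)]) (N t)
    have e2 := shift (fun x => c t x ^ 2 * G x) Q
      (fun x => by rw [gQ, per t (mem_insert_self _ _)]) (2 * M * N 0)
    have f1 := fun x => c_flip t x 1 (Or.inl rfl)
    simp only [one_mul] at f1
    simp only [gN, f1, Complex.ofReal_neg, neg_mul, sum_neg_distrib] at e1
    simp only [gh, ← Complex.ofReal_pow, c_half t _ _ (show N t = 2 * (2 * M * N 0) by rw [hM]; ring),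
      Complex.ofReal_sub, Complex.ofReal_one, sub_mul, one_mul, sum_sub_distrib] at e2
    simp only [Complex.ofReal_pow] at e2
    simp only [prod_insert hn, add_mul, sum_add_distrib, mul_assoc, ← mul_sum]
    change α t * ∑ x ∈ range Q, G x + β t * ∑ x ∈ range Q, c t x * G x +
      γ t * ∑ x ∈ range Q, c t x ^ 2 * G x = _
    change ∑ x ∈ range Q, G x = _ at ih
    linear_combination (α t + γ t / 2) * ih - β t / 2 * e1 - γ t / 2 * e2

end Pool.Agent.H33.Sq
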