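import Pool.Agent.H33.Sq

set_option autoImplicit false

namespace Pool.Agent.H33.Sq

open Finset Real

lemma low (I : Finset ℕ) (hK : 0 < I.card) (a : ℕ → ℝ) (τ ρ : ℝ) (hτ : 0 ≤ τ) (a0 : a 0 = 0)
    (h : ∀ s ≤ I.card, |a s| * τ ^ s ≤ ρ ^ s) (h1 : ρ / 2 ≤ a 1 * τ) :
    1 + I.card * (3 / 2 * ρ) - (ρ + 1) ^ I.card ≤
      (∑ S ∈ I.powerset, (a S.card : ℂ) * (Complex.I * τ) ^ S.card).im := by
  have e : ∑ S ∈ I.powerset, ((if S.card = 0 then 1 else 0) + (if S.card = 1 then 3 / 2 * ρ else 0)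
      - ρ ^ S.card) = 1 + I.card * (3 / 2 * ρ) - (ρ + 1) ^ I.card := by
    rw [sum_powerset_apply_card fun s => (if s = 0 then 1 else 0) + (if s = 1 then 3 / 2 * ρ else 0)
      - ρ ^ s, add_pow]
    simp only [nsmul_eq_mul, mul_sub, mul_add, sum_sub_distrib, sum_add_distrib, mul_ite, mul_zero,
      sum_ite_eq', mem_range, one_pow, mul_one]
    simp [hK, mul_comm]
  rw [← e, Complex.im_sum]
  refine sum_le_sum fun S hS => ?_
  have h2 := h _ (card_le_card (mem_powerset.1 hS))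
  have h3 := (neg_le_abs _).trans (Complex.abs_im_le_norm ((a S.card : ℂ) * (Complex.I * τ) ^ S.card))
  rw [norm_mul, norm_pow, norm_mul, Complex.norm_I, one_mul, Complex.norm_real, Complex.norm_real,
    Real.norm_of_nonneg hτ, Real.norm_eq_abs] at h3
  split_ifs with b1 b2 b2
  · omega
  · simp [b1, a0]
  · simp [b2]; linarith
  · linarith

lemma rindep (Q : ℕ) (α β γ : ℕ → ℝ) (S : Finset ℕ) (hS : ∀ l ∈ S, 0 < l ∧ ∃ M : ℕ, Q = 2 * M * N l) :
    ∑ x ∈ range Q, ∏ l ∈ S, (α l + β l * c l x + γ l * c l x ^ 2) = Q * ∏ l ∈ S, (α l + γ l / 2) := by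
  exact_mod_cast indep Q (fun l => α l) (fun l => β l) (fun l => γ l) S hS

lemma sub_prod {E : Type} [CommMonoid E] {I S : Finset ℕ} (hS : S ∈ I.powerset) (g : ℕ → E) :
    ∏ l ∈ S, g l = ∏ l ∈ I, if l ∈ S then g l else 1 := by
  rw [prod_ite_mem, inter_eq_right.2 (mem_powerset.1 hS)]

lemma upper (Q : ℕ) (I : Finset ℕ) (hQ : ∀ l ∈ I, 0 < l ∧ ∃ M : ℕ, Q = 2 * M * N l) (a : ℕ → ℝ) (r : ℝ)
    (ha : ∀ s ≤ I.card, 0 ≤ a s ∧ a s ≤ r ^ s) :
    ∑ x ∈ range Q, (∑ S ∈ I.powerset, a S.card * ∏ l ∈ S, c l x) ^ 2 ≤ Q * (1 + r ^ 2 / 2) ^ I.card := by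
  have e : ∀ a : ℕ → ℝ, ∑ x ∈ range Q, (∑ S ∈ I.powerset, a S.card * ∏ l ∈ S, c l x) ^ 2 =
      ∑ S ∈ I.powerset, ∑ T ∈ I.powerset, a S.card * a T.card *
        ∑ x ∈ range Q, (∏ l ∈ S, c l x) * ∏ l ∈ T, c l x := fun a => by
    simp only [sq, sum_mul_sum]
    simp only [mul_sum]
    rw [sum_comm]
    refine sum_congr rfl fun S _ => ?_
    rw [sum_comm]
    exact sum_congr rfl fun T _ => sum_congr rfl fun x _ => by ring
  have e2 := rindep Q 1 (fun _ => 2 * r) (fun _ => r ^ 2) I hQ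
  simp only [Pi.one_apply, prod_const] at e2
  rw [e, ← e2]
  refine le_trans (sum_le_sum fun S hS => sum_le_sum fun T hT => ?_)
    (le_of_eq ((e fun s => r ^ s).symm.trans (sum_congr rfl fun x _ => ?_)))
  · have b1 := ha _ (card_le_card (mem_powerset.1 hS))
    have b2 := ha _ (card_le_card (mem_powerset.1 hT))
    refine mul_le_mul_of_nonneg_right (mul_le_mul b1.2 b2.2 b2.1 (b1.1.trans b1.2)) ?_
    have := rindep Q (fun l => if l ∈ S then 0 else if l ∈ T then 0 else 1)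
      (fun l => if l ∈ S then if l ∈ T then 0 else 1 else if l ∈ T then 1 else 0)
      (fun l => if l ∈ S then if l ∈ T then 1 else 0 else 0) I hQ
    refine le_trans (mul_nonneg (Nat.cast_nonneg Q) (prod_nonneg fun l _ => ?_))
      (le_of_eq (this.symm.trans (sum_congr rfl fun x _ => ?_)))
    · split_ifs <;> norm_num
    · rw [sub_prod hS, sub_prod hT, ← prod_mul_distrib]
      refine prod_congr rfl fun l _ => ?_
      split_ifs <;> ring
  · simp only [← prod_const, ← prod_mul_distrib]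
    rw [← prod_one_add, ← prod_pow]
    exact prod_congr rfl fun l _ => by ring

lemma lower (Q : ℕ) (I : Finset ℕ) (hQ : ∀ l ∈ I, 0 < l ∧ ∃ M : ℕ, Q = 2 * M * N l) (a : ℕ → ℝ) (τ : ℝ)
    (hτ : I.card * (2 * τ) ^ 2 ≤ 1) :
    Q * (∑ S ∈ I.powerset, (a S.card : ℂ) * (Complex.I * τ) ^ S.card).im ≤
      2 * ∑ x ∈ range Q, |∑ S ∈ I.powerset, a S.card * ∏ l ∈ S, c l x| := by
  let φ : ℤ → ℂ := fun x => ∏ l ∈ I, (1 + Complex.I * (2 * τ) * c l x)
  have hφ : ∀ x, ‖φ x‖ ≤ 2 := fun x => by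
    have : ∀ l ∈ I, ‖1 + Complex.I * (2 * τ) * c l x‖ ≤ exp ((2 * τ) ^ 2 / 2) := fun l _ => by
      refine (abs_le_of_sq_le_sq' ?_ (exp_pos _).le).2
      have := add_one_le_exp ((2 * τ) ^ 2)
      have h : c l x ^ 2 ≤ 1 := cos_sq_le_one _
      rw [Complex.sq_norm, Complex.normSq_apply, ← exp_nat_mul]
      simp only [Complex.add_re, Complex.add_im, Complex.mul_re, Complex.mul_im, Complex.I_re,
        Complex.I_im, Complex.ofReal_re, Complex.ofReal_im, Complex.one_re, Complex.one_im,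
        Complex.re_ofNat, Complex.im_ofNat, Nat.cast_ofNat, mul_div_cancel₀ _ (two_ne_zero' ℝ)]
      nlinarith [sq_nonneg τ]
    rw [norm_prod]
    refine (prod_le_prod (fun _ _ => norm_nonneg _) this).trans ?_
    rw [prod_const, ← exp_nat_mul]
    refine (exp_le_exp.2 (show _ ≤ 1 / 2 by linarith)).trans ?_
    refine (abs_le_of_sq_le_sq' ?_ (by norm_num)).2
    rw [← exp_nat_mul]
    norm_num
    linarith [exp_one_lt_d9]
  have e : ∑ x ∈ range Q, ((∑ S ∈ I.powerset, a S.card * ∏ l ∈ S, c l x : ℝ) : ℂ) * φ x =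
      Q * ∑ S ∈ I.powerset, (a S.card : ℂ) * (Complex.I * τ) ^ S.card := by
    push_cast
    simp only [sum_mul, mul_sum]
    rw [sum_comm]
    refine sum_congr rfl fun S hS => ?_
    have := indep Q (fun l => if l ∈ S then 0 else 1)
      (fun l => if l ∈ S then 1 else Complex.I * (2 * τ))
      (fun l => if l ∈ S then Complex.I * (2 * τ) else 0) I hQ
    rw [← prod_const, sub_prod hS, mul_left_comm]
    simp only [mul_assoc, ← mul_sum]
    congr 1
    refine Eq.trans (sum_congr rfl fun x _ => ?_) (this.trans (congrArg _ (prod_congr rfl fun l _ => ?_)))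
    · rw [sub_prod hS, ← prod_mul_distrib]
      refine prod_congr rfl fun l _ => ?_
      split_ifs <;> ring
    · split_ifs <;> ring
  have := (le_abs_self _).trans ((Complex.abs_im_le_norm _).trans (e ▸ norm_sum_le _ _))
  rw [← Complex.ofReal_natCast, Complex.im_ofReal_mul] at this
  rw [mul_sum]
  refine this.trans (sum_le_sum fun x _ => ?_)
  rw [norm_mul, Complex.norm_real, mul_comm]
  exact mul_le_mul_of_nonneg_right (hφ x) (abs_nonneg _)

lemma core (q Q : ℕ) (hq : 0 < q) (I : Finset ℕ) (hI : I.card = q ^ 2)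
    (hQ : ∀ l ∈ I, 0 < l ∧ ∃ M : ℕ, Q = 2 * M * N l) (a : ℕ → ℝ) (r : ℝ) (r1 : 1 / 4 ≤ q * r)
    (r2 : q * r ≤ 1 / 2) (a0 : a 0 = 0) (ha : ∀ s ≤ I.card, 0 ≤ a s ∧ a s ≤ r ^ s) (a1 : r / 2 ≤ a 1) :
    (Q : ℝ) / 16384 ≤ ((range Q).filter fun x : ℕ =>
      1 / 256 < |∑ S ∈ I.powerset, a S.card * ∏ l ∈ S, c l x|).card := by
  have q0 : (0 : ℝ) < q := by exact_mod_cast hq
  have r0 : 0 < r := by nlinarith
  have hI' : (I.card : ℝ) = q ^ 2 := by exact_mod_cast hI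
  have h1 := upper Q I hQ a r ha
  have h2 := lower Q I hQ a (1 / (2 * q)) (by rw [hI']; field_simp; rfl)
  have h3 := low I (by rw [hI]; positivity) a (1 / (2 * q)) (r * (1 / (2 * q))) (by positivity) a0
    (fun s hs => by
      rw [mul_pow, abs_of_nonneg (ha s hs).1]
      exact mul_le_mul_of_nonneg_right (ha s hs).2 (by positivity))
    (by rw [← div_mul_eq_mul_div]; exact mul_le_mul_of_nonneg_right a1 (by positivity))
  have h4 : ∀ t : ℝ, 0 ≤ t → I.card * t ≤ 1 → (t + 1) ^ I.card ≤ 1 + I.card * t + (I.card * t) ^ 2 :=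
    fun t h0 h => by
      have := (abs_le.1 (abs_exp_sub_one_sub_id_le (x := I.card * t)
        (by rwa [abs_of_nonneg (by positivity)]))).2
      have := pow_le_pow_left₀ (by positivity) (add_one_le_exp t) I.card
      rw [← exp_nat_mul] at this
      linarith
  have h5 := h4 (r ^ 2 / 2) (by positivity) (by rw [hI']; nlinarith)
  have e : I.card * (r * (1 / (2 * q))) = q * r / 2 := by rw [hI']; field_simp
  have h6 := h4 (r * (1 / (2 * q))) (by positivity) (by linarith)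
  rw [hI', add_comm, show q ^ 2 * (r ^ 2 / 2) = (q * r) ^ 2 / 2 by ring] at h5
  rw [mul_left_comm, e] at h3
  rw [e] at h6
  have h7 : (q * r) ^ 2 ≤ 1 / 4 := by nlinarith
  have h8 := h1.trans (mul_le_mul_of_nonneg_left (h5.trans (show _ ≤ 2 by nlinarith [sq_nonneg (q * r)]))
    (Nat.cast_nonneg Q))
  have h9 := (mul_le_mul_of_nonneg_left (le_trans (show 1 / 32 ≤ 1 + 3 / 2 * (q * r / 2) -
    (r * (1 / (2 * q)) + 1) ^ I.card by nlinarith [mul_nonneg (sub_nonneg.2 r1) (sub_nonneg.2 r2)]) h3)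
    (Nat.cast_nonneg Q)).trans h2
  have := sum_le_sum (s := range Q) (f := fun x : ℕ => |∑ S ∈ I.powerset, a S.card * ∏ l ∈ S, c l x|)
    (g := fun x : ℕ => 1 / 256 + 1 / 256 * (∑ S ∈ I.powerset, a S.card * ∏ l ∈ S, c l x) ^ 2 + 64 *
      if 1 / 256 < |∑ S ∈ I.powerset, a S.card * ∏ l ∈ S, c l x| then 1 else 0) fun x _ => by
    generalize ∑ S ∈ I.powerset, a S.card * ∏ l ∈ S, c l x = g
    rw [← sq_abs]
    split_ifs <;> nlinarith [sq_nonneg (|g| - 128), sq_nonneg |g|]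
  simp only [sum_add_distrib, ← mul_sum, sum_boole, sum_const, card_range, nsmul_eq_mul] at this
  linarith

lemma params (L q D : ℕ) (hq : q = 4 ^ L ^ 2) (hD : 0 < D) : ∃ n : ℕ, L ^ 2 * (2 * D) ≤ n ∧
    n + 2 * D ≤ 8 * q * D ∧ 1 / 4 ≤ q * (1 - 1 / (2 * D) : ℝ) ^ n ∧
    q * (1 - 1 / (2 * D) : ℝ) ^ n ≤ 1 / 2 := by
  have D1 : (1 : ℝ) ≤ D := by exact_mod_cast hD
  have q1 : (1 : ℝ) ≤ q := by rw [hq]; exact_mod_cast Nat.one_le_pow _ _ (by norm_num)
  obtain ⟨d, hd⟩ : ∃ d : ℝ, d = 1 / (2 * D) := ⟨_, rfl⟩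
  have e : D * d = 1 / 2 := by rw [hd]; field_simp
  have d0 : 0 < d := by nlinarith
  have d1 : d ≤ 1 / 2 := by nlinarith
  rw [← hd]
  obtain ⟨n, h1, h2⟩ := exists_nat_pow_near_of_lt_one (x := (1 : ℝ) / (2 * q)) (y := 1 - d)
    (by positivity) (by rw [div_le_one (by positivity)]; linarith) (by linarith) (by linarith)
  rw [lt_div_iff₀ (by positivity)] at h1
  rw [div_le_iff₀ (by positivity)] at h2
  refine ⟨n + 1, ?_, ?_, by rw [pow_succ]; nlinarith, by linarith⟩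
  · by_contra h
    have a1 := pow_le_pow_of_le_one (a := 1 - d) (by linarith) (by linarith) (not_le.1 h).le
    have a2 := one_add_mul_le_pow (a := -d) (by linarith) D
    have a3 := pow_le_pow_left₀ (by norm_num) (show 1 / 2 ≤ (1 - d) ^ D by
      rw [sub_eq_add_neg]; linarith) (2 * L ^ 2)
    have a4 : (1 / 2 : ℝ) ^ (2 * L ^ 2) * q = 1 := by
      rw [hq, pow_mul]; push_cast; rw [← mul_pow]; norm_num
    rw [← pow_mul, show D * (2 * L ^ 2) = L ^ 2 * (2 * D) by ring] at a3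
    nlinarith
  · have a1 := one_add_mul_le_pow (a := d) (by linarith) n
    have a2 : (1 - d) ^ n * (1 + d) ^ n ≤ 1 := by
      rw [← mul_pow]; exact pow_le_one₀ (by nlinarith) (by nlinarith)
    have a3 : 1 + n * d ≤ 2 * q := by nlinarith [pow_pos (show 0 < 1 + d by linarith) n]
    have : (n : ℝ) + 1 + 2 * D ≤ 8 * q * D := by nlinarith
    exact_mod_cast this

lemma tele (a : ℕ → ℝ) (n D : ℕ) (L : ℝ) (hD : 0 < D) (hL : 0 < L) (h : L ^ 2 * D ≤ n + 1) (t : ℝ)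
    (ht : 0 < t) (ha : t < |a (n + 1) - a (n + 1 + D)|) :
    ENNReal.ofReal ((L * t) ^ 2) < ∑' m : ℕ, ENNReal.ofReal (((m : ℝ) + 1) * (a (m + 1) - a (m + 2)) ^ 2) := by
  have D0 : (0 : ℝ) < D := by exact_mod_cast hD
  refine lt_of_lt_of_le ?_ (ENNReal.sum_le_tsum (Ico n (n + D)))
  rw [← ENNReal.ofReal_sum_of_nonneg fun m _ => by positivity,
    ENNReal.ofReal_lt_ofReal_iff_of_nonneg (by positivity), sum_Ico_eq_sum_range, Nat.add_sub_cancel_left]
  have h1 := sq_sum_le_card_mul_sum_sq (s := range D) (f := fun m => a (n + m + 1) - a (n + (m + 1) + 1))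
  rw [sum_range_sub' fun m => a (n + m + 1), card_range, add_zero, add_right_comm, ← sq_abs] at h1
  have h2 := pow_lt_pow_left₀ ha ht.le two_ne_zero
  calc _ < L ^ 2 * D * ∑ m ∈ range D, (a (n + m + 1) - a (n + (m + 1) + 1)) ^ 2 := by
        rw [mul_pow, mul_assoc]; exact mul_lt_mul_of_pos_left (h2.trans_le h1) (by positivity)
    _ ≤ _ := by
      rw [mul_sum]
      refine sum_le_sum fun m _ => mul_le_mul_of_nonneg_right (h.trans ?_) (sq_nonneg _)
      push_cast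
      linarith [Nat.cast_nonneg (α := ℝ) m]

lemma tail (u : ℤ → ℝ) (u0 : ∀ x, 0 ≤ u x) (hu : Summable u) (ε C : ℝ) (hε : 0 < ε) (hC : 0 < C) :
    ∃ T : ℕ, ∀ g : ℤ → ℝ, (∀ j, |g j| ≤ C) → (∀ j : ℤ, |j| ≤ T → g j = 0) → |∑' j, u j * g j| ≤ ε := by
  obtain ⟨s, hs⟩ := summable_iff_vanishing_norm.1 hu (ε / C) (by positivity)
  refine ⟨s.sup Int.natAbs, fun g h1 h2 => (norm_tsum_le_tsum_norm (bdd hu C h1).norm).trans
    (Real.tsum_le_of_sum_le (fun _ => norm_nonneg _) fun t => ?_)⟩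
  have := ((le_abs_self _).trans_lt (hs (t \ s) sdiff_disjoint)).le
  rw [le_div_iff₀ hC, sum_mul] at this
  rw [← sum_subset (sdiff_subset (s := t) (t := s)) fun j a b => ?_]
  · refine le_trans (sum_le_sum fun j _ => ?_) this
    rw [norm_mul, Real.norm_of_nonneg (u0 j)]
    exact mul_le_mul_of_nonneg_left (h1 j) (u0 j)
  · have : j.natAbs ≤ s.sup Int.natAbs := le_sup (f := Int.natAbs) (by simpa [a] using b)
    rw [h2 j (by rw [Int.abs_eq_natAbs]; exact_mod_cast this), mul_zero, norm_zero]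

lemma approx (p : ℤ → ℝ) (p0 : ∀ x, 0 ≤ p x) (p1 : HasSum p 1) (hp : ∀ F : ℤ → ℝ, (∀ x, ‖F x‖ ≤ 1) →
    HasSum (fun x => p x • F x) ((1 - ∑' k, w k) • F 0 + ∑' k, (w k / 2) • (F (N k) + F (-N k))))
    (u : ℕ → ℤ → ℝ) (u0 : u 0 = fun m => if m = 0 then 1 else 0)
    (us : ∀ n m, u (n + 1) m = ∑' j, p j * u n (m - j)) (K : ℕ) (hK : 0 < K) (I : Finset ℕ) (v : ℝ)
    (hI : ∀ l ∈ I, K ≤ l + 1 ∧ w l = v) (v0 : 0 ≤ v) (hv : I.card * (2 * v) ≤ 1) (k : ℤ) (n : ℕ) :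
    |∑' j, u n j * ∏ l ∈ I, (1 + c l (k - j)) - ∑ S ∈ I.powerset, (1 - S.card * (2 * v)) ^ n *
      ∏ l ∈ S, c l k| ≤ 2 ^ I.card * (n * (I.card * (1 / B K))) := by
  have hφ : ∀ (S : Finset ℕ) x, |∏ l ∈ S, c l x| ≤ 1 := fun S x => by
    rw [abs_prod]; exact prod_le_one (fun _ _ => abs_nonneg _) fun i _ => abs_cos_le_one _
  simp only [prod_one_add, mul_sum]
  rw [Summable.tsum_finsetSum fun S _ => bdd (mass p p0 p1 u u0 us n).2.summable 1 fun j => hφ S _,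
    ← sum_sub_distrib]
  refine (abs_sum_le_sum_abs _ _).trans ((sum_le_card_nsmul _ _ ((n : ℝ) * (I.card * (1 / B K)))
    fun S hS => ?_).trans (le_of_eq ?_))
  swap
  · simp
  have hS := mem_powerset.1 hS
  have h : (S.card : ℝ) ≤ I.card := by exact_mod_cast card_le_card hS
  have := drift p p0 p1 u u0 us (fun j => ∏ l ∈ S, c l (k - j)) (fun j => hφ S _) (1 - S.card * (2 * v))
    (abs_le.2 ⟨by nlinarith, by nlinarith [Nat.cast_nonneg (α := ℝ) S.card]⟩) _ (fun x => by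
      have := (hp (fun y => ∏ l ∈ S, c l (k - (x + y))) fun y => hφ S _).tsum_eq
      simp only [smul_eq_mul, add_zero, show ∀ y : ℤ, k - (x + y) = k - x + -1 * y from
        fun y => by ring, show ∀ y : ℤ, -1 * -y = 1 * y from fun y => by ring] at this ⊢
      rw [this]
      exact eigen K hK S (fun l hl => (hI l (hS hl)).1) v (fun l hl => (hI l (hS hl)).2) _) n
  rw [sub_zero] at this
  exact this.trans (by gcongr)

end Pool.Agent.H33.Sq
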