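import Mathlib
import Pool.Agent.H33.Toric

set_option autoImplicit false

namespace Pool.Agent.H33.Tripod

open MvPolynomial Pool.Agent.H33.Toric

abbrev GG (K : ℕ) : Type := ZMod 3 × ZMod (K+2) × ZMod (K+2)

variable {K : ℕ}

def sg (j : ZMod (K+2)) (b : ZMod 3) : ZMod (K+2) :=
  if b = 2 then (if j = 0 then 0 else j - 1) else (if j = -1 then -2 else j)

def okA (a : GG K) : Prop := a.1 ≠ 2 ∧ a.2.2 = 0
def okB (b : GG K) : Prop := -b.2.1 = sg (-b.2.2) (-b.1)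
def okC (c : GG K) : Prop := c.2.1 = 0

def om (i : ZMod (K+2)) : ℤ := (-2) ^ (K - i.val)
def cc (b : ZMod 3) : ℤ := if b = 0 then 1 else if b = 1 then 0 else 2

open Classical in
noncomputable def psi0 (v : Fin 3 × GG K) : ℕ :=
  if v.1 = 0 then (if okA v.2 then 0 else 1)
  else if v.1 = 1 then (if okB v.2 then 0 else 1) else (if okC v.2 then 0 else 1)

def psi (v : Fin 3 × GG K) : ℤ :=
  if v.1 = 0 then (if v.2.1 = 0 then om v.2.2.1 else 0)
  else if v.1 = 1 then - cc (-v.2.1 - 1) * om (sg (-v.2.2.2) 0)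
  else cc v.2.1 * om (sg v.2.2.2 0)

lemma one_ne_zero' : (1 : ZMod (K+2)) ≠ 0 := by
  have : Fact (1 < K + 2) := ⟨by omega⟩
  exact one_ne_zero

lemma castK1 : ((K+1 : ℕ) : ZMod (K+2)) = -1 := by
  have h : ((K+2 : ℕ) : ZMod (K+2)) = 0 := ZMod.natCast_self _
  push_cast at h ⊢
  linear_combination h

lemma castK : ((K : ℕ) : ZMod (K+2)) = -2 := by
  have h : ((K+2 : ℕ) : ZMod (K+2)) = 0 := ZMod.natCast_self _
  push_cast at h ⊢
  linear_combination h

lemma om_cast (n : ℕ) (hn : n < K + 2) : om ((n : ℕ) : ZMod (K+2)) = (-2) ^ (K - n) := by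
  rw [om, ZMod.val_cast_of_lt hn]

lemma om_neg_two : om (-2 : ZMod (K+2)) = 1 := by
  rw [← castK, om_cast K (by omega), Nat.sub_self, pow_zero]

lemma om_zero : om (0 : ZMod (K+2)) = (-2) ^ K := by
  simp [om]

lemma om_step (j : ZMod (K+2)) (h0 : j ≠ 0) (h1 : j ≠ -1) : om (j - 1) + 2 * om j = 0 := by
  have hj : ((j.val : ℕ) : ZMod (K+2)) = j := ZMod.natCast_zmod_val j
  have hlt : j.val < K + 2 := ZMod.val_lt j
  obtain ⟨n, hn⟩ : ∃ n, j.val = n := ⟨_, rfl⟩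
  rw [hn] at hj hlt
  subst hj
  rcases n with _ | n
  · simp at h0
  · have h2 : n ≠ K := by
      rintro rfl
      exact h1 castK1
    have h3 : ((n + 1 : ℕ) : ZMod (K+2)) - 1 = (n : ℕ) := by push_cast; ring
    rw [h3, om_cast n (by omega), om_cast (n+1) hlt]
    obtain ⟨d, hd⟩ : ∃ d, K = n + 1 + d := ⟨K - (n+1), by omega⟩
    have e1 : K - n = d + 1 := by omega
    have e2 : K - (n+1) = d := by omega
    rw [e1, e2]; ring

section
variable {F : Type} (co : F → Fin 3 → GG K) (mk : GG K → GG K → F)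

noncomputable def rr (f : F) : (Fin 3 × GG K) →₀ ℕ :=
  Finsupp.single (0, co f 0) 1 + Finsupp.single (1, co f 1) 1 + Finsupp.single (2, co f 2) 1

def EE (f : F) : Prop := okA (co f 0) ∧ okB (co f 1) ∧ okC (co f 2)

lemma mono_rr (f : F) : (monomial (rr co f) (1:ℂ) : MvPolynomial (Fin 3 × GG K) ℂ)
    = X (0, co f 0) * X (1, co f 1) * X (2, co f 2) := by
  simp [rr, X, monomial_mul]

lemma w_rr {M : Type} [AddCommMonoid M] (ψ : Fin 3 × GG K → M) (f : F) :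
    Finsupp.weight ψ (rr co f) = ψ (0, co f 0) + ψ (1, co f 1) + ψ (2, co f 2) := by
  simp [rr, Finsupp.weight_single]

noncomputable def phi : MvPolynomial F ℂ →ₐ[ℂ] MvPolynomial (Fin 3 × GG K) ℂ :=
  aeval fun f => X (0, co f 0) * X (1, co f 1) * X (2, co f 2)

structure Good : Prop where
  sum : ∀ f, co f 0 + co f 1 + co f 2 = 0
  inj : ∀ f g, co f 0 = co g 0 → co f 2 = co g 2 → f = g
  m0 : ∀ a c, co (mk a c) 0 = a
  m2 : ∀ a c, co (mk a c) 2 = c

variable {co mk}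

lemma Good.c1 (h : Good co mk) (f : F) : co f 1 = - co f 0 - co f 2 := by
  have := h.sum f
  linear_combination this

lemma Good.m1 (h : Good co mk) (a c : GG K) : co (mk a c) 1 = - a - c := by
  rw [h.c1, h.m0, h.m2]

lemma z3 (x : ZMod 3) : x = 0 ∨ x = 1 ∨ x = 2 := by
  revert x; decide

lemma small (h : Good co mk) (q : MvPolynomial F ℂ) (hq : phi co q = 0)
    (hd : q.totalDegree < 2 ^ K) :
    eval (pt (EE co) (mk (0,0,0) (2,0,0))) q = 0 := by
  refine sep (rr co) (EE co) (mk (0,0,0) (2,0,0)) (mk (0,-2,0) (2,0,-1)) ?_ psi0 ?_ psi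
    (3 * (-2) ^ K) 3 ?_ ?_ ?_ (2 ^ K - 1) (by positivity) ?_ q ?_ (by omega)
  · refine ⟨?_, ?_, ?_⟩
    · rw [h.m0]; exact ⟨(by decide : (0 : ZMod 3) ≠ 2), rfl⟩
    · rw [h.m1]; simp [okB, sg]
    · rw [h.m2]; rfl
  · intro f
    rw [w_rr]
    simp only [psi0, EE]
    by_cases h1 : okA (co f 0) <;> by_cases h2 : okB (co f 1) <;> by_cases h3 : okC (co f 2) <;>
      simp [h1, h2, h3]
  · rw [w_rr, h.m0, h.m1, h.m2]
    have e1 : (2 : ZMod 3) - 1 = 1 := by decide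
    have e2 : (2 : ZMod 3) ≠ 0 := by decide
    have e3 : (2 : ZMod 3) ≠ 1 := by decide
    have e4 : (0 : ZMod 3) ≠ 2 := by decide
    have e5 : (1 : ZMod 3) ≠ 0 := by decide
    simp [psi, sg, cc, e1, e2, e3, e4, e5, one_ne_zero', om_zero]
    ring
  · intro _
    rw [w_rr, h.m0, h.m1, h.m2]
    have e1 : (2 : ZMod 3) - 1 = 1 := by decide
    have e2 : (2 : ZMod 3) ≠ 0 := by decide
    have e3 : (2 : ZMod 3) ≠ 1 := by decide
    have e4 : (0 : ZMod 3) ≠ 2 := by decide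
    have e5 : (1 : ZMod 3) ≠ 0 := by decide
    simp [psi, sg, cc, e1, e2, e3, e4, e5, om_neg_two]
  · intro f hf hne0 hne1
    rw [w_rr]
    obtain ⟨⟨hA1, hA2⟩, hB, hC⟩ := hf
    have hc1 := h.c1 f
    have hi0 := h.inj f (mk (0,0,0) (2,0,0))
    have hi1 := h.inj f (mk (0,-2,0) (2,0,-1))
    rw [h.m0, h.m2] at hi0 hi1
    rw [hc1] at hB ⊢
    generalize co f 0 = a at *
    generalize co f 2 = c at *
    obtain ⟨al, i, z⟩ := a
    obtain ⟨ga, z', j⟩ := c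
    simp only [okC] at hC hA1 hA2
    subst hA2 hC
    have hB' : i = sg j (al + ga) := by
      simpa [okB, add_comm] using hB
    have e1 : (2 : ZMod 3) - 1 = 1 := by decide
    have e2 : (2 : ZMod 3) ≠ 0 := by decide
    have e3 : (2 : ZMod 3) ≠ 1 := by decide
    have e4 : (0 : ZMod 3) ≠ 2 := by decide
    have e5 : (1 : ZMod 3) ≠ 0 := by decide
    have e6 : (1 : ZMod 3) ≠ 2 := by decide
    have e7 : (-1 : ZMod 3) = 2 := by decide
    rcases z3 al with rfl | rfl | rfl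
    · rcases z3 ga with rfl | rfl | rfl
      · simp [psi, hB', cc, e2, e3, e7]; ring
      · simp [psi, hB', cc, sg, e4, e6]
      · have hj0 : j ≠ 0 := by
          rintro rfl
          apply hne0
          apply hi0 _ rfl
          simp [hB', sg]
        have hj1 : j ≠ -1 := by
          rintro rfl
          apply hne1
          apply hi1 _ rfl
          simp only [hB', sg, zero_add, if_true, if_neg hj0, Prod.mk.injEq, true_and, and_true]
          ring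
        have := om_step j hj0 hj1
        simp [psi, hB', cc, sg, e1, e2, e3, e4, e5, hj0, hj1]
        linarith
    · simp [psi, e5]
    · exact absurd rfl hA1
  · intro x x' y y' hy hy' hxy
    have hpos : 0 < 2 ^ K := by positivity
    have h1 : (y:ℤ) < 2 ^ K := by exact_mod_cast (by omega : y < 2 ^ K)
    have h2 : (y':ℤ) < 2 ^ K := by exact_mod_cast (by omega : y' < 2 ^ K)
    have h3 : (-2:ℤ) ^ K * ((x:ℤ) - x') = y' - y := by linarith
    have h4 : |(-2:ℤ) ^ K * ((x:ℤ) - x')| < 2 ^ K := by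
      rw [h3, abs_lt]
      have := Int.natCast_nonneg y
      have := Int.natCast_nonneg y'
      constructor <;> linarith
    rw [abs_mul, abs_pow, abs_neg, abs_two] at h4
    have h5 : |(x:ℤ) - x'| < 1 := by
      by_contra hc
      push Not at hc
      have : (0:ℤ) < 2 ^ K := by positivity
      nlinarith
    have h6 : (x:ℤ) - x' = 0 := Int.abs_lt_one_iff.1 h5
    exact_mod_cast sub_eq_zero.1 h6
  · have : (fun f => (monomial (rr co f) (1:ℂ) : MvPolynomial (Fin 3 × GG K) ℂ))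
        = fun f => X (0, co f 0) * X (1, co f 1) * X (2, co f 2) := funext (mono_rr co)
    rw [this]; exact hq

variable (mk) in
noncomputable def Pb (i0 i2 j : ZMod (K+2)) : MvPolynomial F ℂ :=
  X (mk (0,i0,0) (0,0,j)) * X (mk (0,i0,0) (1,0,j)) * X (mk (0,i2,0) (2,0,j))

variable (mk) in
noncomputable def Qb (i0 i2 j : ZMod (K+2)) : MvPolynomial F ℂ :=
  X (mk (1,i0,0) (2,0,j)) * X (mk (1,i0,0) (0,0,j)) * X (mk (1,i2,0) (1,0,j))

noncomputable def t0 (i : ZMod (K+2)) : MvPolynomial (Fin 3 × GG K) ℂ := X (0, (0,i,0))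
noncomputable def t1 (i : ZMod (K+2)) : MvPolynomial (Fin 3 × GG K) ℂ := X (0, (1,i,0))

lemma blk (h : Good co mk) (i0 i2 j : ZMod (K+2)) :
    phi co (Pb mk i0 i2 j) * (t1 i0 ^ 2 * t1 i2) = phi co (Qb mk i0 i2 j) * (t0 i0 ^ 2 * t0 i2) := by
  have e1 : (-1 - 2 : ZMod 3) = 0 := by decide
  have e2 : (-1 - 1 : ZMod 3) = -2 := by decide
  simp only [Pb, Qb, phi, map_mul, aeval_X, h.m0, h.m1, h.m2, t0, t1, Prod.neg_mk, Prod.mk_sub_mk,
    neg_zero, sub_zero, zero_sub, e1, e2]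
  ring

lemma ev_mk (h : Good co mk) (al ga : ZMod 3) (i j : ZMod (K+2)) (hal : al ≠ 2)
    (hi : i = sg j (al + ga)) (hne : al ≠ 0 ∨ ga ≠ 2 ∨ j ≠ 0) :
    pt (EE co) (mk (0,0,0) (2,0,0)) (mk (al,i,0) (ga,0,j)) = 1 := by
  have h1 : mk (al,i,0) (ga,0,j) ≠ mk (0,0,0) (2,0,0) := by
    intro hh
    have h0 := congrArg (fun f => co f 0) hh
    have h2 := congrArg (fun f => co f 2) hh
    simp only [h.m0, h.m2, Prod.mk.injEq] at h0 h2
    tauto
  have h2 : EE co (mk (al,i,0) (ga,0,j)) := by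
    refine ⟨?_, ?_, ?_⟩
    · rw [h.m0]; exact ⟨hal, rfl⟩
    · rw [h.m1]; simp [okB, hi, add_comm]
    · rw [h.m2]; rfl
  simp [pt, h1, h2]

lemma ev_Qb (h : Good co mk) (j : ZMod (K+2)) :
    eval (pt (EE co) (mk (0,0,0) (2,0,0))) (Qb mk (sg j 0) (sg j 2) j) = 1 := by
  have e5 : (1 : ZMod 3) ≠ 0 := by decide
  have e6 : (1 : ZMod 3) ≠ 2 := by decide
  have e4 : (0 : ZMod 3) ≠ 2 := by decide
  simp only [Qb, map_mul, eval_X]
  rw [ev_mk h 1 2 _ j e6 (by rw [(by decide : (1 + 2 : ZMod 3) = 0)]) (Or.inl e5),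
    ev_mk h 1 0 _ j e6 (by simp [sg, e4, e6]) (Or.inl e5),
    ev_mk h 1 1 _ j e6 (by rw [(by decide : (1 + 1 : ZMod 3) = 2)]) (Or.inl e5)]
  norm_num

lemma ev_Pb (h : Good co mk) (j : ZMod (K+2)) (hj : j ≠ 0) :
    eval (pt (EE co) (mk (0,0,0) (2,0,0))) (Pb mk (sg j 0) (sg j 2) j) = 1 := by
  have e6 : (1 : ZMod 3) ≠ 2 := by decide
  have e4 : (0 : ZMod 3) ≠ 2 := by decide
  simp only [Pb, map_mul, eval_X]
  rw [ev_mk h 0 0 _ j e4 (by simp) (Or.inr (Or.inr hj)),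
    ev_mk h 0 1 _ j e4 (by simp [sg, e4, e6]) (Or.inr (Or.inr hj)),
    ev_mk h 0 2 _ j e4 (by simp) (Or.inr (Or.inr hj))]
  norm_num

lemma ev_Pb0 (h : Good co mk) :
    eval (pt (EE co) (mk (0,0,0) (2,0,0))) (Pb mk (0 : ZMod (K+2)) 0 0) = 2 := by
  have e6 : (1 : ZMod 3) ≠ 2 := by decide
  have e4 : (0 : ZMod 3) ≠ 2 := by decide
  simp only [Pb, map_mul, eval_X]
  rw [ev_mk h 0 0 0 0 e4 (by simp [sg, e4, one_ne_zero']) (Or.inr (Or.inl e4)),
    ev_mk h 0 1 0 0 e4 (by simp [sg, e6, one_ne_zero']) (Or.inr (Or.inl e6))]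
  simp [pt]

lemma chain (h : Good co mk) (k : ℕ) (hk : k ≤ K) : ∃ P Q : MvPolynomial F ℂ,
    eval (pt (EE co) (mk (0,0,0) (2,0,0))) P ≠ eval (pt (EE co) (mk (0,0,0) (2,0,0))) Q ∧
    phi co P * t1 (k : ZMod (K+2)) ^ (3 * 2 ^ k) = phi co Q * t0 (k : ZMod (K+2)) ^ (3 * 2 ^ k) := by
  have e4 : (0 : ZMod 3) ≠ 2 := by decide
  induction k with
  | zero =>
    refine ⟨Pb mk 0 0 0, Qb mk 0 0 0, ?_, ?_⟩
    · have h1 := ev_Qb h (0 : ZMod (K+2))
      have a1 : sg (0 : ZMod (K+2)) 0 = 0 := by simp [sg, e4, one_ne_zero']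
      have a2 : sg (0 : ZMod (K+2)) 2 = 0 := by simp [sg]
      rw [a1, a2] at h1
      rw [h1, ev_Pb0 h]; norm_num
    · have := blk h 0 0 0
      simp only [Nat.cast_zero, pow_zero, mul_one]
      linear_combination this
  | succ k ih =>
    obtain ⟨P, Q, hne, hPQ⟩ := ih (by omega)
    have hj0 : ((k+1 : ℕ) : ZMod (K+2)) ≠ 0 := by
      rw [Ne, ZMod.natCast_eq_zero_iff]
      intro hd
      have := Nat.le_of_dvd (by omega) hd
      omega
    have hj1 : ((k+1 : ℕ) : ZMod (K+2)) ≠ -1 := by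
      intro hh
      have h2 : ((k+2 : ℕ) : ZMod (K+2)) = 0 := by
        push_cast at hh ⊢
        linear_combination hh
      rw [ZMod.natCast_eq_zero_iff] at h2
      have := Nat.le_of_dvd (by omega) h2
      omega
    have a1 : sg ((k+1 : ℕ) : ZMod (K+2)) 0 = (k+1 : ℕ) := by
      simp only [sg, if_neg e4, if_neg hj1]
    have a2 : sg ((k+1 : ℕ) : ZMod (K+2)) 2 = (k : ℕ) := by
      simp only [sg, if_true, if_neg hj0]; push_cast; ring
    have h1 := ev_Qb h ((k+1 : ℕ) : ZMod (K+2))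
    have h2 := ev_Pb h _ hj0
    rw [a1, a2] at h1 h2
    have h3 := blk h ((k+1 : ℕ) : ZMod (K+2)) (k : ℕ) (k+1 : ℕ)
    set n := 3 * 2 ^ k with hn
    have hn2 : 3 * 2 ^ (k+1) = 2 * n := by rw [hn]; ring
    refine ⟨Q * Pb mk (k+1 : ℕ) (k : ℕ) (k+1 : ℕ) ^ n, P * Qb mk (k+1 : ℕ) (k : ℕ) (k+1 : ℕ) ^ n,
      ?_, ?_⟩
    · simp only [map_mul, map_pow, h1, h2, one_pow, mul_one]
      exact hne.symm
    · have h4 := congrArg (· ^ n) h3
      simp only [mul_pow] at h4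
      have ht : t1 (k : ZMod (K+2)) ^ n ≠ 0 := pow_ne_zero _ (X_ne_zero _)
      apply mul_right_cancel₀ ht
      rw [hn2, map_mul, map_mul, map_pow, map_pow, pow_mul, pow_mul]
      linear_combination phi co Q * h4
        - phi co (Qb mk (k+1 : ℕ) (k : ℕ) (k+1 : ℕ)) ^ n * (t0 ((k+1 : ℕ) : ZMod (K+2)) ^ 2) ^ n * hPQ

lemma big (h : Good co mk) : ∃ f : MvPolynomial F ℂ, phi co f = 0 ∧
    eval (pt (EE co) (mk (0,0,0) (2,0,0))) f ≠ 0 := by
  have e4 : (0 : ZMod 3) ≠ 2 := by decide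
  obtain ⟨P, Q, hne, hPQ⟩ := chain h K le_rfl
  rw [castK] at hPQ
  have hj0 : (-1 : ZMod (K+2)) ≠ 0 := neg_ne_zero.2 one_ne_zero'
  have a1 : sg (-1 : ZMod (K+2)) 0 = -2 := by simp only [sg, if_neg e4, if_true]
  have a2 : sg (-1 : ZMod (K+2)) 2 = -2 := by simp only [sg, if_true, if_neg hj0]; ring
  have h1 := ev_Qb h (-1 : ZMod (K+2))
  have h2 := ev_Pb h _ hj0
  rw [a1, a2] at h1 h2
  have h3 := blk h (-2 : ZMod (K+2)) (-2) (-1)
  refine ⟨Q * Pb mk (-2) (-2) (-1) ^ 2 ^ K - P * Qb mk (-2) (-2) (-1) ^ 2 ^ K, ?_, ?_⟩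
  · have h3' : phi co (Pb mk (-2) (-2) (-1)) * t1 (-2 : ZMod (K+2)) ^ 3
        = phi co (Qb mk (-2) (-2) (-1)) * t0 (-2 : ZMod (K+2)) ^ 3 := by
      linear_combination h3
    have h4 := congrArg (· ^ 2 ^ K) h3'
    simp only [mul_pow] at h4
    rw [pow_mul, pow_mul] at hPQ
    have ht : (t1 (-2 : ZMod (K+2)) ^ 3) ^ 2 ^ K ≠ 0 := pow_ne_zero _ (pow_ne_zero _ (X_ne_zero _))
    apply mul_right_cancel₀ ht
    rw [map_sub, map_mul, map_mul, map_pow, map_pow]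
    linear_combination phi co Q * h4 - phi co (Qb mk (-2) (-2) (-1)) ^ 2 ^ K * hPQ
  · simp only [map_sub, map_mul, map_pow, h1, h2, one_pow, mul_one]
    exact sub_ne_zero.2 hne.symm

theorem main (h : Good co mk) : ∃ p : F → ℂ, (∃ e, p e ≠ 0) ∧
    (∃ f : MvPolynomial F ℂ, phi co f = 0 ∧ eval p f ≠ 0) ∧
    ∀ q : MvPolynomial F ℂ, phi co q = 0 → q.totalDegree < 2 ^ K → eval p q = 0 :=
  ⟨_, ⟨mk (0,0,0) (2,0,0), by simp [pt]⟩, big h, small h⟩

end

lemma card_GG : Fintype.card (GG K) = 3 * (K+2)^2 := by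
  simp [GG, ZMod.card]; ring

lemma growth (Q : Polynomial ℕ) : ∃ K : ℕ, Q.eval (3 * (K+2)^2) < 2 ^ K := by
  have hb : ∀ x : ℕ, 1 ≤ x → Q.eval x ≤ Q.eval 1 * x ^ Q.natDegree := by
    intro x hx
    rw [Polynomial.eval_eq_sum_range, Polynomial.eval_eq_sum_range, Finset.sum_mul]
    refine Finset.sum_le_sum fun i hi => ?_
    rw [one_pow, mul_one]
    exact Nat.mul_le_mul_left _ (Nat.pow_le_pow_right hx (by simpa [Nat.lt_succ_iff] using hi))
  set d := Q.natDegree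
  set C := Q.eval 1
  have ht := tendsto_pow_const_div_const_pow_of_one_lt (2 * d) (r := 2) (by norm_num)
  have hpos : (0:ℝ) < 1 / (4 * C * 3 ^ d + 1) := by positivity
  obtain ⟨N, hN⟩ := Filter.eventually_atTop.1 (ht.eventually (gt_mem_nhds hpos))
  refine ⟨N, lt_of_le_of_lt (hb _ (by nlinarith [Nat.zero_le N])) ?_⟩
  have h1 := hN (N + 2) (by omega)
  rw [div_lt_div_iff₀ (by positivity) (by positivity)] at h1
  have h2 : ((C * (3 * (N+2)^2) ^ d : ℕ) : ℝ) < (2 ^ N : ℕ) := by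
    push_cast at h1 ⊢
    rw [mul_pow, ← pow_mul]
    have h3 : (0:ℝ) ≤ ((N:ℝ) + 2) ^ (2 * d) := by positivity
    have h4 : (2:ℝ) ^ (N + 2) = 4 * 2 ^ N := by ring
    nlinarith
  exact_mod_cast h2

end Pool.Agent.H33.Tripod
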