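import Mathlib

set_option autoImplicit false
open Filter Topology

namespace Pool.Agent.H33.UA

abbrev A := Lex (ℕ →₀ ℤ)

instance : Countable A := inferInstanceAs (Countable (ℕ →₀ ℤ))

lemma A_lt (a b : A) : a < b ↔ ∃ j, (∀ l < j, ofLex a l = ofLex b l) ∧ ofLex a j < ofLex b j :=
  Iff.rfl

def D : Type := {χ : A →+ ℤ // Function.Surjective χ}

def B (_d : D) : Type := A

noncomputable instance (d : D) : AddCommGroup (B d) := inferInstanceAs (AddCommGroup A)

def toA {d : D} (a : B d) : A := a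
def ofA (d : D) (a : A) : B d := a

noncomputable instance (d : D) : LinearOrder (B d) :=
  LinearOrder.lift' (fun a : B d => (toLex (d.1 (toA a), toA a) : ℤ ×ₗ A))
    (fun _ _ h => congrArg (fun p : ℤ ×ₗ A => (ofLex p).2) h)

lemma B_lt {d : D} (a b : B d) :
    a < b ↔ d.1 (toA a) < d.1 (toA b) ∨ (d.1 (toA a) = d.1 (toA b) ∧ toA a < toA b) :=
  Prod.Lex.toLex_lt_toLex

lemma B_le {d : D} (a b : B d) :
    a ≤ b ↔ d.1 (toA a) < d.1 (toA b) ∨ (d.1 (toA a) = d.1 (toA b) ∧ toA a ≤ toA b) :=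
  Prod.Lex.toLex_le_toLex

lemma toA_add {d : D} (a b : B d) : toA (a + b) = toA a + toA b := rfl
lemma toA_sub {d : D} (a b : B d) : toA (a - b) = toA a - toA b := rfl
lemma toA_zero {d : D} : toA (0 : B d) = 0 := rfl

instance (d : D) : IsOrderedAddMonoid (B d) where
  add_le_add_left a b h c := by
    rw [B_le] at h ⊢
    simp only [toA_add, map_add, add_lt_add_iff_right, add_left_inj, add_le_add_iff_right]
    exact h

lemma chi_mono {d : D} {a b : B d} (h : a ≤ b) : d.1 (toA a) ≤ d.1 (toA b) := by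
  rcases (B_le a b).1 h with h | h
  · exact h.le
  · exact h.1.le

lemma small (d : D) (m : ℕ) : ∃ k : A, d.1 k = 0 ∧ 0 < k ∧ ∀ l < m, ofLex k l = 0 := by
  set e : ℕ → A := fun n => toLex (Finsupp.single n 1) with he
  by_cases hv : d.1 (e (m + 1)) = 0
  · refine ⟨e (m + 1), hv, (A_lt _ _).2 ⟨m + 1, fun l hl => ?_, by simp [he]⟩, fun l hl => ?_⟩
    · simp [he, Finsupp.single_apply, hl.ne']
    · simp [he, Finsupp.single_apply]; omega
  · set u := d.1 (e m)
    set v := d.1 (e (m + 1))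
    have hf : ∀ l, ofLex ((v * v) • e m - (u * v) • e (m + 1)) l =
        (v * v) * (if m = l then 1 else 0) - (u * v) * (if m + 1 = l then 1 else 0) := by
      intro l
      rw [← Finsupp.single_apply, ← Finsupp.single_apply]
      rfl
    have hz : ∀ l < m, ofLex ((v * v) • e m - (u * v) • e (m + 1)) l = 0 := by
      intro l hl
      have h1 : m ≠ l := by omega
      have h2 : m + 1 ≠ l := by omega
      rw [hf, if_neg h1, if_neg h2]; simp
    refine ⟨(v * v) • e m - (u * v) • e (m + 1), ?_,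
      (A_lt _ _).2 ⟨m, fun l hl => (hz l hl).symm, ?_⟩, hz⟩
    · rw [map_sub, map_zsmul, map_zsmul]; simp only [smul_eq_mul]; ring
    · rw [hf]; simpa using hv

instance (d : D) : DenselyOrdered (B d) where
  dense a b hab := by
    have hs : 0 < b - a := sub_pos.2 hab
    suffices ∃ k : B d, 0 < k ∧ k < b - a by
      obtain ⟨k, h1, h2⟩ := this
      exact ⟨a + k, lt_add_of_pos_right a h1, lt_sub_iff_add_lt'.1 h2⟩
    generalize b - a = s at hs
    rcases (B_lt _ _).1 hs with h | ⟨h1, h2⟩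
    · obtain ⟨k, k1, k2, -⟩ := small d 0
      refine ⟨ofA d k, (B_lt _ _).2 (Or.inr ⟨?_, k2⟩), (B_lt _ _).2 (Or.inl ?_)⟩
      · exact (map_zero _).trans k1.symm
      · rw [toA_zero, map_zero] at h
        exact k1.trans_lt h
    · obtain ⟨j, j1, j2⟩ := (A_lt _ _).1 h2
      obtain ⟨k, k1, k2, k3⟩ := small d (j + 1)
      rw [toA_zero, map_zero] at h1
      refine ⟨ofA d k, (B_lt _ _).2 (Or.inr ⟨?_, k2⟩), (B_lt _ _).2 (Or.inr ⟨k1.trans h1, ?_⟩)⟩
      · exact (map_zero _).trans k1.symm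
      · refine (A_lt _ _).2 ⟨j, fun l hl => ?_, ?_⟩
        · exact (k3 l (by omega)).trans (j1 l hl)
        · exact (k3 j (by omega)).trans_lt j2

lemma exists_pos (d : D) : ∃ k : B d, 0 < k := by
  obtain ⟨k, k1, k2, -⟩ := small d 0
  exact ⟨ofA d k, (B_lt _ _).2 (Or.inr ⟨(map_zero _).trans k1.symm, k2⟩)⟩

instance (d : D) : NoMaxOrder (B d) where
  exists_gt a := by
    obtain ⟨k, hk⟩ := exists_pos d
    exact ⟨a + k, lt_add_of_pos_right a hk⟩

instance (d : D) : NoMinOrder (B d) where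
  exists_lt a := by
    obtain ⟨k, hk⟩ := exists_pos d
    exact ⟨a - k, sub_lt_self a hk⟩

noncomputable def c (d : D) (a b : A) : Ordering := cmp (ofA d a) (ofA d b)

instance : TopologicalSpace D where
  IsOpen U := ∀ d ∈ U, ∃ S : Finset (A × A), ∀ d', (∀ p ∈ S, c d' p.1 p.2 = c d p.1 p.2) → d' ∈ U
  isOpen_univ _ _ := ⟨∅, fun _ _ => trivial⟩
  isOpen_inter s t hs ht d hd := by
    classical
    obtain ⟨S, hS⟩ := hs d hd.1
    obtain ⟨T, hT⟩ := ht d hd.2
    exact ⟨S ∪ T, fun d' h => ⟨hS d' fun p hp => h p (Finset.mem_union_left _ hp),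
      hT d' fun p hp => h p (Finset.mem_union_right _ hp)⟩⟩
  isOpen_sUnion s hs d := by
    rintro ⟨U, hU, hd⟩
    obtain ⟨S, hS⟩ := hs U hU d hd
    exact ⟨S, fun d' h => ⟨U, hU, hS d' h⟩⟩

lemma c_lc (a b : A) : IsLocallyConstant fun d => c d a b := by
  intro s d hd
  exact ⟨{(a, b)}, fun d' h => by
    have := h (a, b) (Finset.mem_singleton_self _)
    simp only [Set.mem_preimage] at hd ⊢
    rw [this]; exact hd⟩

lemma comb (χ η : A →+ ℤ) (T : Finset A) :
    ∃ N : ℕ, ∀ s ∈ T, (0 < χ s ∨ (χ s = 0 ∧ 0 < η s)) → 0 < (N • χ + η) s := by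
  refine ⟨1 + ∑ s ∈ T, (η s).natAbs, fun s hs h => ?_⟩
  have h1 : (η s).natAbs ≤ ∑ s ∈ T, (η s).natAbs :=
    Finset.single_le_sum (f := fun s => (η s).natAbs) (fun _ _ => Nat.zero_le _) hs
  generalize ∑ s ∈ T, (η s).natAbs = M at h1
  simp only [AddMonoidHom.add_apply, AddMonoidHom.nsmul_apply, nsmul_eq_mul]
  rcases h with h | ⟨h, h'⟩
  · have : -(η s) ≤ M := by omega
    push_cast
    nlinarith [Int.natCast_nonneg M]
  · rw [h]; simpa using h'

noncomputable def coord (n : ℕ) : A →+ ℤ where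
  toFun a := ofLex a n
  map_zero' := rfl
  map_add' _ _ := rfl

lemma eta (T : Finset A) : ∃ η : A →+ ℤ, ∀ s ∈ T, 0 < s → 0 < η s := by
  classical
  obtain ⟨M, hM⟩ : ∃ M : ℕ, ∀ s ∈ T, ∀ j, M ≤ j → ofLex s j = 0 := by
    refine ⟨(T.biUnion fun s => (ofLex s).support).sup id + 1, fun s hs j hj => ?_⟩
    by_contra h
    have : j ≤ (T.biUnion fun s => (ofLex s).support).sup id :=
      Finset.le_sup (f := id) (Finset.mem_biUnion.2 ⟨s, hs, Finsupp.mem_support_iff.2 h⟩)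
    omega
  have key : ∀ k n, n + k = M → ∃ η : A →+ ℤ, ∀ s ∈ T, ∀ j, n ≤ j →
      (∀ l, n ≤ l → l < j → ofLex s l = 0) → 0 < ofLex s j → 0 < η s := by
    intro k
    induction k with
    | zero =>
      intro n hn
      exact ⟨0, fun s hs j hj _ h => by rw [hM s hs j (by omega)] at h; exact absurd h (lt_irrefl _)⟩
    | succ k ih =>
      intro n hn
      obtain ⟨η, hη⟩ := ih (n + 1) (by omega)
      obtain ⟨N, hN⟩ := comb (coord n) η T
      refine ⟨_, fun s hs j hj h1 h2 => hN s hs ?_⟩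
      rcases hj.eq_or_lt with rfl | hj
      · exact Or.inl h2
      · exact Or.inr ⟨h1 n le_rfl hj, hη s hs j hj (fun l k1 k2 => h1 l (by omega) k2) h2⟩
  obtain ⟨η, hη⟩ := key M 0 (by simp)
  refine ⟨η, fun s hs h => ?_⟩
  obtain ⟨j, j1, j2⟩ := (A_lt _ _).1 h
  exact hη s hs j (Nat.zero_le _) (fun l _ hl => (j1 l hl).symm) j2

lemma normalise (χ : A →+ ℤ) (a : A) (ha : χ a ≠ 0) : ∃ d : D, ∀ s, 0 < χ s → 0 < d.1 s := by
  obtain ⟨g, hg⟩ := Int.subgroup_cyclic χ.range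
  wlog hpos : 0 ≤ g generalizing g
  · refine this (-g) ?_ (by omega)
    rw [hg, ← AddSubgroup.zmultiples_eq_closure, ← AddSubgroup.zmultiples_eq_closure,
      AddSubgroup.zmultiples_neg]
  rw [← AddSubgroup.zmultiples_eq_closure] at hg
  have hd : ∀ s, g ∣ χ s := fun s => by
    have : χ s ∈ AddSubgroup.zmultiples g := hg ▸ ⟨s, rfl⟩
    exact Int.mem_zmultiples_iff.1 this
  have hg0 : g ≠ 0 := by
    rintro rfl
    exact ha (zero_dvd_iff.1 (hd a))
  obtain ⟨a0, ha0⟩ : g ∈ χ.range := hg ▸ AddSubgroup.mem_zmultiples g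
  refine ⟨⟨AddMonoidHom.mk' (fun s => χ s / g) fun s t => ?_, fun n => ⟨n • a0, ?_⟩⟩,
    fun s hs => ?_⟩
  · rw [map_add, Int.add_ediv_of_dvd_left (hd s)]
  · show χ (n • a0) / g = n
    rw [map_zsmul, ha0, smul_eq_mul, Int.mul_ediv_cancel _ hg0]
  · exact Int.ediv_pos_of_pos_of_dvd hs hpos (hd s)

lemma sep (d : D) (S : Finset (A × A)) (a : A) (ha : a ≠ 0) :
    ∃ d' : D, (∀ p ∈ S, c d' p.1 p.2 = c d p.1 p.2) ∧ d'.1 a ≠ 0 := by
  classical
  set T : Finset A := {a, -a} ∪ (S.image (fun p => p.1 - p.2) ∪ S.image (fun p => p.2 - p.1))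
  obtain ⟨η, hη⟩ := eta T
  obtain ⟨N, hN⟩ := comb d.1 η T
  have key : ∀ s ∈ T, 0 < ofA d s → 0 < (N • d.1 + η) s := by
    intro s hs h
    apply hN s hs
    rcases (B_lt _ _).1 h with h | h
    · left; rwa [toA_zero, map_zero] at h
    · right
      rw [toA_zero, map_zero] at h
      exact ⟨h.1.symm, hη s hs h.2⟩
  have hsa : ∃ s ∈ T, 0 < ofA d s ∧ (s = a ∨ s = -a) := by
    have : ofA d a ≠ 0 := ha
    rcases lt_or_gt_of_ne this with h | h
    · exact ⟨-a, by simp [T], neg_pos.2 h, Or.inr rfl⟩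
    · exact ⟨a, by simp [T], h, Or.inl rfl⟩
  obtain ⟨s0, hs0, hpos, hs0a⟩ := hsa
  obtain ⟨d', hd'⟩ := normalise _ s0 (key s0 hs0 hpos).ne'
  have key2 : ∀ x y : A, y - x ∈ T → ofA d x < ofA d y → ofA d' x < ofA d' y := by
    intro x y hT h
    have := hd' _ (key _ hT (sub_pos.2 h))
    rw [map_sub, sub_pos] at this
    exact (B_lt _ _).2 (Or.inl this)
  refine ⟨d', fun p hp => ?_, ?_⟩
  · unfold c
    rcases lt_trichotomy (ofA d p.1) (ofA d p.2) with h | h | h
    · rw [(cmp_eq_lt_iff _ _).2 h, cmp_eq_lt_iff]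
      refine key2 _ _ ?_ h
      exact Finset.mem_union_right _ (Finset.mem_union_right _ (Finset.mem_image_of_mem _ hp))
    · have : p.1 = p.2 := h
      rw [this, cmp_self_eq_eq, cmp_self_eq_eq]
    · rw [(cmp_eq_gt_iff _ _).2 h, cmp_eq_gt_iff]
      refine key2 _ _ ?_ h
      exact Finset.mem_union_right _ (Finset.mem_union_left _ (Finset.mem_image_of_mem _ hp))
  · have := (hd' _ (key s0 hs0 hpos)).ne'
    rcases hs0a with rfl | rfl
    · exact this
    · simpa using this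

end Pool.Agent.H33.UA
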