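import Pool.Agent.H33.UA1

set_option autoImplicit false
open Filter Topology

namespace Pool.Agent.H33.UA

noncomputable def en : ℕ → A := (exists_surjective_nat A).choose
lemma en_surj : Function.Surjective en := (exists_surjective_nat A).choose_spec

def Fits (d : D) (L : Finset (A × A)) (a b : A) : Prop := ∀ p ∈ L, c d p.1 a = c d p.2 b
def Good (d : D) (L : Finset (A × A)) : Prop := ∀ p ∈ L, ∀ q ∈ L, c d p.1 q.1 = c d p.2 q.2

open Classical in
noncomputable def pick (d : D) (L : Finset (A × A)) (a : A) : A :=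
  if h : ∃ n, Fits d L a (en n) then en (Nat.find h) else a

lemma ex_fits {d : D} {L : Finset (A × A)} (h : Good d L) (a : A) : ∃ n, Fits d L a (en n) := by
  obtain ⟨b, hb⟩ := Order.PartialIso.exists_across (α := B d) (β := B d) ⟨L, h⟩ (ofA d a)
  obtain ⟨n, hn⟩ := en_surj (toA b)
  exact ⟨n, hn ▸ hb⟩

lemma pick_fits {d : D} {L : Finset (A × A)} (h : Good d L) (a : A) : Fits d L a (pick d L a) := by
  classical
  rw [pick, dif_pos (ex_fits h a)]
  exact Nat.find_spec (ex_fits h a)

lemma fits_ev (d : D) (L : Finset (A × A)) (a b : A) :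
    ∀ᶠ d' in 𝓝 d, (Fits d' L a b ↔ Fits d L a b) := by
  have : ∀ᶠ d' in 𝓝 d, ∀ p ∈ L, c d' p.1 a = c d p.1 a ∧ c d' p.2 b = c d p.2 b :=
    (eventually_all_finset L).2 fun p _ =>
      ((c_lc _ _).eventually_eq d).and ((c_lc _ _).eventually_eq d)
  filter_upwards [this] with d' h
  exact forall₂_congr fun p hp => by rw [(h p hp).1, (h p hp).2]

lemma pick_ev {d : D} {L : Finset (A × A)} (h : Good d L) (a : A) :
    ∀ᶠ d' in 𝓝 d, pick d' L a = pick d L a := by
  classical
  have h0 := ex_fits h a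
  have : ∀ᶠ d' in 𝓝 d, ∀ m ∈ Finset.range (Nat.find h0 + 1),
      (Fits d' L a (en m) ↔ Fits d L a (en m)) :=
    (eventually_all_finset _).2 fun m _ => fits_ev d L a (en m)
  filter_upwards [this] with d' hd
  have h1 : Fits d' L a (en (Nat.find h0)) := (hd _ (by simp)).2 (Nat.find_spec h0)
  have h2 : ∃ n, Fits d' L a (en n) := ⟨_, h1⟩
  rw [pick, pick, dif_pos h2, dif_pos h0]
  congr 1
  rw [Nat.find_eq_iff]
  refine ⟨h1, fun m hm hf => Nat.find_min h0 hm ((hd m (Finset.mem_range.2 (Nat.lt_succ_of_lt hm))).1 hf)⟩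

lemma good_insert {d : D} {L : Finset (A × A)} [DecidableEq (A × A)] (h : Good d L) {a b : A}
    (hf : Fits d L a b) : Good d (insert (a, b) L) := by
  intro p hp q hq
  rw [Finset.mem_insert] at hp hq
  rcases hp with (rfl | pf) <;> rcases hq with (rfl | qf)
  · simp only [c, cmp_self_eq_eq]
  · unfold c
    rw [cmp_eq_cmp_symm]
    exact hf _ qf
  · exact hf _ pf
  · exact h _ pf _ qf

def sw (L : Finset (A × A)) : Finset (A × A) := L.map (Equiv.prodComm A A).toEmbedding

lemma mem_sw {L : Finset (A × A)} {p : A × A} : p ∈ sw L ↔ p.swap ∈ L := by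
  simp [sw, Finset.mem_map_equiv]

lemma good_sw {d : D} {L : Finset (A × A)} (h : Good d L) : Good d (sw L) :=
  fun _ hp _ hq => (h _ (mem_sw.1 hp) _ (mem_sw.1 hq)).symm

open Classical in
noncomputable def st (d : D) (L : Finset (A × A)) (a : A) : Finset (A × A) :=
  sw (insert (a, pick d L a) L)

lemma st_good {d : D} {L : Finset (A × A)} (h : Good d L) (a : A) : Good d (st d L a) := by
  classical
  exact good_sw (by convert good_insert h (pick_fits h a))

lemma st_ev {d : D} {L : Finset (A × A)} (h : Good d L) (a : A) :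
    ∀ᶠ d' in 𝓝 d, st d' L a = st d L a := by
  filter_upwards [pick_ev h a] with d' hd
  rw [st, st, hd]

noncomputable def a0 : A := toLex (Finsupp.single 0 1)

lemma a0_ne : a0 ≠ 0 := by
  intro h
  have := congrArg (fun a : A => ofLex a 0) h
  simp [a0] at this

open Classical in
noncomputable def LL (d : D) : ℕ → Finset (A × A)
  | 0 => {(0, 0), (a0, a0), (a0 + a0, a0 + a0 + a0)}
  | n + 1 => st d (st d (LL d n) (en n)) (en n)

lemma LL_good (d : D) (n : ℕ) : Good d (LL d n) := by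
  induction n with
  | succ n ih => exact st_good (st_good ih _) _
  | zero =>
    have hne : ofA d a0 ≠ 0 := a0_ne
    have key : ∀ x : B d, x ≠ 0 → ∀ i j k l : ℤ, cmp i j = cmp k l →
        cmp (i • x) (j • x) = cmp (k • x) (l • x) := by
      intro x hx i j k l h
      rcases lt_or_gt_of_ne hx with h0 | h0
      · have m : StrictAnti fun i : ℤ => i • x := fun i j hij => by
          have := zsmul_lt_zsmul_left (neg_pos.2 h0) hij
          simpa using this
        rw [m.cmp_map_eq, m.cmp_map_eq, cmp_eq_cmp_symm]; exact h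
      · have m : StrictMono fun i : ℤ => i • x := fun i j hij => zsmul_lt_zsmul_left h0 hij
        rw [m.cmp_map_eq, m.cmp_map_eq]; exact h
    have hp : ∀ p ∈ LL d 0, ∃ i k : ℤ, ((i = 0 ∧ k = 0) ∨ (i = 1 ∧ k = 1) ∨ (i = 2 ∧ k = 3)) ∧
        ofA d p.1 = i • ofA d a0 ∧ ofA d p.2 = k • ofA d a0 := by
      intro p hp
      simp only [LL, Finset.mem_insert, Finset.mem_singleton] at hp
      rcases hp with rfl | rfl | rfl
      · exact ⟨0, 0, by simp, (zero_zsmul _).symm, (zero_zsmul _).symm⟩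
      · exact ⟨1, 1, by simp, (one_zsmul _).symm, (one_zsmul _).symm⟩
      · refine ⟨2, 3, by simp, (two_zsmul _).symm, ?_⟩
        show ofA d a0 + ofA d a0 + ofA d a0 = _
        abel
    intro p h1 q h2
    obtain ⟨i, k, e, e1, e2⟩ := hp p h1
    obtain ⟨j, l, f, f1, f2⟩ := hp q h2
    unfold c
    rw [e1, e2, f1, f2]
    apply key _ hne
    rcases e with ⟨rfl, rfl⟩ | ⟨rfl, rfl⟩ | ⟨rfl, rfl⟩ <;>
      rcases f with ⟨rfl, rfl⟩ | ⟨rfl, rfl⟩ | ⟨rfl, rfl⟩ <;> decide

lemma LL_ev (d : D) (n : ℕ) : ∀ᶠ d' in 𝓝 d, LL d' n = LL d n := by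
  induction n with
  | zero => exact Eventually.of_forall fun _ => rfl
  | succ n ih =>
    filter_upwards [ih, st_ev (LL_good d n) (en n), st_ev (st_good (LL_good d n) (en n)) (en n)]
      with d' h1 h2 h3
    simp only [LL]
    rw [h1, h2, h3]

lemma LL_mono (d : D) : Monotone (LL d) := by
  refine monotone_nat_of_le_succ fun n p hp => ?_
  simp only [LL, st, mem_sw, Finset.mem_insert]
  exact Or.inr (Or.inr (by simpa using hp))

def R (d : D) (a b : A) : Prop := ∃ n, (a, b) ∈ LL d n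

lemma R_cmp {d : D} {a b a' b' : A} (h : R d a b) (h' : R d a' b') : c d a a' = c d b b' := by
  obtain ⟨n, hn⟩ := h
  obtain ⟨m, hm⟩ := h'
  exact LL_good d (max n m) _ (LL_mono d (le_max_left _ _) hn) _ (LL_mono d (le_max_right _ _) hm)

lemma R_left (d : D) (a : A) : ∃ b, R d a b := by
  obtain ⟨n, rfl⟩ := en_surj a
  refine ⟨pick d (LL d n) (en n), n + 1, ?_⟩
  simp [LL, st, mem_sw]

lemma R_right (d : D) (b : A) : ∃ a, R d a b := by
  obtain ⟨n, rfl⟩ := en_surj b
  refine ⟨pick d (st d (LL d n) (en n)) (en n), n + 1, ?_⟩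
  rw [LL, st, mem_sw]
  simp

lemma R_ev {d : D} {a b : A} (h : R d a b) : ∀ᶠ d' in 𝓝 d, R d' a b := by
  obtain ⟨n, hn⟩ := h
  filter_upwards [LL_ev d n] with d' hd
  exact ⟨n, hd ▸ hn⟩

noncomputable def psi (d : D) : B d ≃o B d :=
  OrderIso.ofCmpEqCmp (fun a => ofA d (R_left d (toA a)).choose)
    (fun b => ofA d (R_right d (toA b)).choose)
    (fun a b => R_cmp (R_left d (toA a)).choose_spec (R_right d (toA b)).choose_spec)

lemma psi_eq {d : D} {a b : A} (h : R d a b) : psi d (ofA d a) = ofA d b := by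
  have := R_cmp (R_left d a).choose_spec h
  rw [c, cmp_self_eq_eq] at this
  exact (cmp_eq_eq_iff _ _).1 this.symm

lemma psi_R (d : D) (a : B d) : R d (toA a) (toA (psi d a)) := (R_left d (toA a)).choose_spec

def GG : AddSubgroup (∀ d, B d) where
  carrier := {f | IsLocallyConstant fun d => toA (f d)}
  zero_mem' := IsLocallyConstant.const (0 : A)
  add_mem' := fun {f g} hf hg => IsLocallyConstant.comp₂ hf hg (· + ·)
  neg_mem' := fun {f} hf => IsLocallyConstant.comp hf (fun a : A => -a)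

lemma mem_GG {f : ∀ d, B d} : f ∈ GG ↔ ∀ d, ∀ᶠ d' in 𝓝 d, toA (f d') = toA (f d) :=
  IsLocallyConstant.iff_eventually_eq _

lemma le_c (d : D) (x y : B d) : x ≤ y ↔ c d (toA x) (toA y) ≠ Ordering.gt := by
  rw [c, Ne, cmp_eq_gt_iff, not_lt]; rfl

lemma sup_mem (f g : ∀ d, B d) (hf : f ∈ GG) (hg : g ∈ GG) : f ⊔ g ∈ GG := by
  rw [mem_GG] at hf hg ⊢
  intro d
  filter_upwards [hf d, hg d, (c_lc (toA (f d)) (toA (g d))).eventually_eq d] with d' h1 h2 h3
  have : f d' ≤ g d' ↔ f d ≤ g d := by rw [le_c, le_c, h1, h2, h3]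
  simp only [Pi.sup_apply]
  rcases le_total (f d) (g d) with h | h
  · rw [sup_eq_right.2 h, sup_eq_right.2 (this.2 h), h2]
  · rcases h.eq_or_lt with h | h
    · have e : f d' = g d' := h1.trans ((congrArg toA h.symm).trans h2.symm)
      rw [e, ← h, sup_idem, sup_idem, h2]
    · rw [sup_eq_left.2 h.le, sup_eq_left.2 (not_le.1 fun k => h.not_ge (this.1 k)).le, h1]

lemma inf_mem (f g : ∀ d, B d) (hf : f ∈ GG) (hg : g ∈ GG) : f ⊓ g ∈ GG := by
  have := GG.neg_mem (sup_mem _ _ (GG.neg_mem hf) (GG.neg_mem hg))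
  rwa [neg_sup, neg_neg, neg_neg] at this

noncomputable instance : Lattice GG :=
  Subtype.lattice (P := fun f => f ∈ GG) (fun f g => sup_mem f g) (fun f g => inf_mem f g)

instance : IsOrderedAddMonoid GG where
  add_le_add_left a b h c := by
    have h' : (a : ∀ d, B d) ≤ b := h
    show (a : ∀ d, B d) + c ≤ b + c
    gcongr

noncomputable def Phi : GG ≃o GG where
  toFun f := ⟨fun d => psi d (f.1 d), mem_GG.2 fun d => by
    filter_upwards [mem_GG.1 f.2 d, R_ev (psi_R d (f.1 d))] with d' h1 h2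
    rw [← h1] at h2
    exact psi_eq h2⟩
  invFun f := ⟨fun d => (psi d).symm (f.1 d), mem_GG.2 fun d => by
    have h0 := psi_R d ((psi d).symm (f.1 d))
    rw [OrderIso.apply_symm_apply] at h0
    filter_upwards [mem_GG.1 f.2 d, R_ev h0] with d' h1 h2
    rw [← h1] at h2
    have := psi_eq h2
    exact (psi d').symm_apply_eq.2 this.symm⟩
  left_inv f := Subtype.ext (funext fun d => (psi d).symm_apply_apply _)
  right_inv f := Subtype.ext (funext fun d => (psi d).apply_symm_apply _)
  map_rel_iff' := by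
    intro f g
    exact forall_congr' fun d => (psi d).le_iff_le

def cst (a : A) : GG := ⟨fun d => ofA d a, IsLocallyConstant.const a⟩

lemma Phi_cst {a b : A} (h : ∀ d, (a, b) ∈ LL d 0) : Phi (cst a) = cst b :=
  Subtype.ext (funext fun d => psi_eq ⟨0, h d⟩)

noncomputable def emb : GG →+ (D → ℤ) where
  toFun f d := d.1 (toA (f.1 d))
  map_zero' := funext fun d => map_zero d.1
  map_add' f g := funext fun d => map_add d.1 _ _

lemma emb_inj : Function.Injective emb := by
  rw [injective_iff_map_eq_zero]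
  intro f hf
  refine Subtype.ext (funext fun d => ?_)
  by_contra hne
  obtain ⟨S, hS⟩ := f.2 {toA (f.1 d)} d rfl
  obtain ⟨d', h1, h2⟩ := sep d S (toA (f.1 d)) hne
  have h3 : toA (f.1 d') = toA (f.1 d) := hS d' h1
  apply h2
  rw [← h3]
  exact congrFun hf d'

lemma D_ne : Nonempty D :=
  ⟨⟨coord 0, fun n => ⟨toLex (Finsupp.single 0 n), by simp [coord]⟩⟩⟩

end Pool.Agent.H33.UA
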