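import Mathlib

set_option autoImplicit false

namespace Pool.Agent.H33.Vol

open MeasureTheory Set Filter Topology VectorMeasure

noncomputable section

abbrev B : ℂ →L[ℝ] ℂ →L[ℝ] ℂ := ContinuousLinearMap.mul ℝ ℂ

variable {X Y : Type} [MeasurableSpace X] [MeasurableSpace Y]

lemma rep (μ : ComplexMeasure X) : ∃ (ρ : Measure X) (h : X → ℂ), IsFiniteMeasure ρ ∧
    Measurable h ∧ Integrable h ρ ∧ μ = ρ.withDensityᵥ h := by
  set s := ComplexMeasure.re μ
  set t := ComplexMeasure.im μ
  let ρ : Measure X := s.totalVariation + t.totalVariation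
  have hs : s ≪ᵥ ρ.toENNRealVectorMeasure := by
    rw [SignedMeasure.absolutelyContinuous_ennreal_iff,
      VectorMeasure.ennrealToMeasure_toENNRealVectorMeasure]
    exact Measure.absolutelyContinuous_of_le (Measure.le_add_right le_rfl)
  have ht : t ≪ᵥ ρ.toENNRealVectorMeasure := by
    rw [SignedMeasure.absolutelyContinuous_ennreal_iff,
      VectorMeasure.ennrealToMeasure_toENNRealVectorMeasure]
    exact Measure.absolutelyContinuous_of_le (Measure.le_add_left le_rfl)
  have h1 := SignedMeasure.withDensityᵥ_rnDeriv_eq s ρ hs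
  have h2 := SignedMeasure.withDensityᵥ_rnDeriv_eq t ρ ht
  have i1 := (SignedMeasure.integrable_rnDeriv s ρ).ofReal (𝕜 := ℂ)
  have i2 := ((SignedMeasure.integrable_rnDeriv t ρ).ofReal (𝕜 := ℂ)).mul_const Complex.I
  refine ⟨ρ, fun x => (s.rnDeriv ρ x : ℂ) + (t.rnDeriv ρ x : ℂ) * Complex.I, inferInstance,
    ?_, i1.add i2, ?_⟩
  · have := SignedMeasure.measurable_rnDeriv s ρ
    have := SignedMeasure.measurable_rnDeriv t ρ
    fun_prop
  · ext E hE
    have e1 := congrArg (fun m : SignedMeasure X => m E) h1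
    have e2 := congrArg (fun m : SignedMeasure X => m E) h2
    rw [withDensityᵥ_apply (SignedMeasure.integrable_rnDeriv _ _) hE] at e1 e2
    refine Eq.trans ?_ (withDensityᵥ_apply (i1.add i2) hE).symm
    refine Eq.trans ?_ (MeasureTheory.integral_add i1.integrableOn i2.integrableOn).symm
    rw [integral_mul_const, integral_ofReal, integral_ofReal, e1, e2]
    exact (Complex.re_add_im (μ E)).symm

lemma fin_wd {ρ : Measure X} {h : X → ℂ} (hi : Integrable h ρ) :
    IsFiniteMeasure (ρ.withDensityᵥ h).variation := by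
  rw [Measure.variation_withDensityᵥ hi]
  exact isFiniteMeasure_withDensity (ne_of_lt hi.2)

instance fin_var (μ : ComplexMeasure X) : IsFiniteMeasure (VectorMeasure.variation μ) := by
  obtain ⟨ρ, h, -, -, hi, rfl⟩ := rep μ
  exact fin_wd hi

/-- integral against a complex measure -/
def J (μ : ComplexMeasure X) (φ : X → ℂ) : ℂ := VectorMeasure.integral μ φ B

lemma int_mul {ρ : Measure X} {h φ : X → ℂ} (hm : Measurable h) (hi : Integrable h ρ)
    (hφ : Integrable φ (ρ.withDensityᵥ h).variation) : Integrable (fun x => φ x * h x) ρ := by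
  rw [Measure.variation_withDensityᵥ hi] at hφ
  have := (integrable_withDensity_iff_integrable_smul (f := fun x => ‖h x‖₊) (μ := ρ)
    hm.nnnorm (g := φ)).1 hφ
  have hne : ∀ x, φ x * h x = (‖h x‖₊ • φ x) * (h x / ‖h x‖) := by
    intro x
    by_cases h0 : h x = 0
    · simp [h0]
    · have : (‖h x‖ : ℂ) ≠ 0 := by simpa using h0
      simp only [NNReal.smul_def, coe_nnnorm, Complex.real_smul]
      field_simp
  simp_rw [hne]
  refine this.mul_bdd (c := 1) (by fun_prop : Measurable fun x => h x / (‖h x‖ : ℂ)).aestronglyMeasurable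
    (Eventually.of_forall fun x => ?_)
  by_cases h0 : h x = 0
  · simp [h0]
  · simp [h0]

lemma J_wd {ρ : Measure X} {h : X → ℂ} (hm : Measurable h) (hi : Integrable h ρ) {φ : X → ℂ}
    (hφ : Integrable φ (ρ.withDensityᵥ h).variation) :
    J (ρ.withDensityᵥ h) φ = ∫ x, φ x * h x ∂ρ := by
  have := fin_wd hi
  revert φ
  refine Integrable.induction _ ?_ ?_ ?_ ?_
  · intro c s hs _
    unfold J
    rw [VectorMeasure.integral_indicator_const]
    · have : (fun x => s.indicator (fun _ => c) x * h x) = s.indicator (fun x => c * h x) := by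
        ext x; by_cases hx : x ∈ s <;> simp [hx]
      rw [this, MeasureTheory.integral_indicator hs, integral_const_mul,
        withDensityᵥ_apply hi hs]
      rfl
    · exact hs
  · intro f g _ hf hg e1 e2
    unfold J at *
    rw [VectorMeasure.integral_add hf hg, e1, e2,
      ← MeasureTheory.integral_add (int_mul hm hi hf) (int_mul hm hi hg)]
    simp [add_mul]
  · refine isClosed_eq VectorMeasure.continuous_integral ?_
    refine (LipschitzWith.of_dist_le_mul (K := 1) fun f g => ?_).continuous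
    have hf := L1.integrable_coeFn f
    have hg := L1.integrable_coeFn g
    rw [dist_eq_norm, ← MeasureTheory.integral_sub (int_mul hm hi hf) (int_mul hm hi hg),
      L1.dist_eq_integral_dist]
    refine (norm_integral_le_integral_norm _).trans (le_of_eq ?_)
    simp only [NNReal.coe_one, one_mul]
    have e := Measure.variation_withDensityᵥ hi
    generalize (f : X → ℂ) = F
    generalize (g : X → ℂ) = G
    rw [e]
    have := integral_withDensity_eq_integral_smul (μ := ρ) (f := fun x => ‖h x‖₊) hm.nnnorm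
      (fun x => dist (F x) (G x))
    refine Eq.trans ?_ this.symm
    congr 1
    ext x
    rw [← sub_mul, norm_mul, dist_eq_norm, NNReal.smul_def, coe_nnnorm, smul_eq_mul, mul_comm]
  · intro f g hfg _ e
    unfold J at *
    rw [← VectorMeasure.integral_congr_ae hfg, e]
    apply MeasureTheory.integral_congr_ae
    rw [Measure.variation_withDensityᵥ hi] at hfg
    have := (ae_withDensity_iff (f := fun x => ‖h x‖ₑ) hm.enorm).1 hfg
    filter_upwards [this] with x hx
    by_cases h0 : h x = 0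
    · simp [h0]
    · rw [hx (by simpa using h0)]

/-- bounded measurable -/
def BM (φ : X → ℂ) : Prop := Measurable φ ∧ ∃ C : ℝ, ∀ x, ‖φ x‖ ≤ C

lemma BM.int {φ : X → ℂ} (h : BM φ) (m : Measure X) [IsFiniteMeasure m] : Integrable φ m := by
  obtain ⟨h1, C, h2⟩ := h
  exact Integrable.of_bound h1.aestronglyMeasurable C (Eventually.of_forall h2)

lemma BM.mul {φ ψ : X → ℂ} (h : BM φ) (g : BM ψ) : BM fun x => φ x * ψ x := by
  obtain ⟨h1, C, h2⟩ := h
  obtain ⟨g1, D, g2⟩ := g
  refine ⟨h1.mul g1, C * D, fun x => ?_⟩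
  rw [norm_mul]
  exact mul_le_mul (h2 x) (g2 x) (norm_nonneg _) ((norm_nonneg _).trans (h2 x))

lemma BM.comp {φ : Y → ℂ} (h : BM φ) {T : X → Y} (hT : Measurable T) : BM fun x => φ (T x) := by
  obtain ⟨h1, C, h2⟩ := h
  exact ⟨h1.comp hT, C, fun x => h2 _⟩

lemma BM.ind {s : Set X} (hs : MeasurableSet s) : BM (s.indicator fun _ => (1 : ℂ)) :=
  ⟨measurable_const.indicator hs, 1, fun x => by by_cases hx : x ∈ s <;> simp [hx]⟩

lemma J_le (μ : ComplexMeasure X) {φ : X → ℂ} {C : ℝ} (h : ∀ x, ‖φ x‖ ≤ C) :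
    ‖J μ φ‖ ≤ C * (VectorMeasure.variation μ).real univ := by
  have := VectorMeasure.norm_integral_le_of_norm_le_const (μ := μ) (B := B) (f := φ) (C := C)
    (Eventually.of_forall h)
  simpa [J] using this

lemma BM.J (ν : ComplexMeasure Y) {F : X × Y → ℂ} (h : BM F) :
    BM fun x => J ν fun y => F (x, y) := by
  refine ⟨?_, ?_⟩
  · obtain ⟨σ, g, _, gm, gi, rfl⟩ := rep ν
    have := fin_wd gi
    have e : (fun x => Vol.J (σ.withDensityᵥ g) fun y => F (x, y)) =
        fun x => ∫ y, F (x, y) * g y ∂σ := by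
      ext x
      exact J_wd gm gi ((h.comp measurable_prodMk_left).int _)
    rw [e]
    have : StronglyMeasurable fun p : X × Y => F p * g p.2 :=
      (h.1.mul (gm.comp measurable_snd)).stronglyMeasurable
    exact this.integral_prod_right'.measurable
  · obtain ⟨-, C, h2⟩ := h
    exact ⟨_, fun x => J_le ν fun y => h2 _⟩

lemma prod_wd {ρ : Measure X} {σ : Measure Y} [IsFiniteMeasure ρ] [IsFiniteMeasure σ]
    {h : X → ℂ} {g : Y → ℂ} (hi : Integrable h ρ) (gi : Integrable g σ) :
    (ρ.withDensityᵥ h).prod (σ.withDensityᵥ g) B =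
      (ρ.prod σ).withDensityᵥ fun p => h p.1 * g p.2 := by
  apply prod_eq_of_forall_apply_prod
  intro s t hs ht
  rw [withDensityᵥ_apply (hi.mul_prod gi) (hs.prod ht), withDensityᵥ_apply hi hs,
    withDensityᵥ_apply gi ht, setIntegral_prod_mul]
  rfl

lemma J_prod (μ : ComplexMeasure X) (ν : ComplexMeasure Y) {F : X × Y → ℂ} (hF : BM F) :
    J (μ.prod ν B) F = J μ fun x => J ν fun y => F (x, y) := by
  have hJ := hF.J ν
  obtain ⟨ρ, h, _, hm, hi, rfl⟩ := rep μ
  obtain ⟨σ, g, _, gm, gi, rfl⟩ := rep ν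
  have := fin_wd gi
  have := fin_wd hi
  have := fin_wd (hi.mul_prod gi)
  have m2 : Measurable fun p : X × Y => h p.1 * g p.2 := by fun_prop
  rw [prod_wd hi gi, J_wd m2 (hi.mul_prod gi) (hF.int _), J_wd hm hi (hJ.int _),
    integral_prod _ (int_mul m2 (hi.mul_prod gi) (hF.int _))]
  congr 1
  ext x
  rw [J_wd gm gi ((hF.comp measurable_prodMk_left).int _), ← integral_mul_const]
  congr 1
  ext y
  ring

lemma J_ind (μ : ComplexMeasure X) {s : Set X} (hs : MeasurableSet s) :
    J μ (s.indicator fun _ => 1) = μ s := by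
  unfold J
  rw [VectorMeasure.integral_indicator_const]
  · simp
  · exact hs

lemma J_congr (μ : ComplexMeasure X) {φ ψ : X → ℂ}
    (h : ∀ᵐ x ∂(VectorMeasure.variation μ), φ x = ψ x) : J μ φ = J μ ψ :=
  VectorMeasure.integral_congr_ae h

lemma J_cmul (μ : ComplexMeasure X) {φ : X → ℂ} (hφ : BM φ) (c : ℂ) :
    J μ (fun x => c * φ x) = c * J μ φ := by
  obtain ⟨ρ, h, _, hm, hi, rfl⟩ := rep μ
  have := fin_wd hi
  rw [J_wd hm hi ((hφ.int _).const_mul c), J_wd hm hi (hφ.int _), ← integral_const_mul]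
  simp [mul_assoc]

lemma J_sum (μ : ComplexMeasure X) {ι : Type} (s : Finset ι) {φ : ι → X → ℂ}
    (hφ : ∀ i, BM (φ i)) : J μ (fun x => ∑ i ∈ s, φ i x) = ∑ i ∈ s, J μ (φ i) :=
  VectorMeasure.integral_finsetSum s fun i _ => (hφ i).int _

end

end Pool.Agent.H33.Vol
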