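import Pool.Agent.H33.Vol1

set_option autoImplicit false

namespace Pool.Agent.H33.Vol

open MeasureTheory Set Filter Topology VectorMeasure
open scoped ENNReal

noncomputable section

/-- truncated convolution of complex Borel measures -/
def conv (μ ν : ComplexMeasure ℝ) : ComplexMeasure ℝ :=
  ((μ.prod ν (ContinuousLinearMap.mul ℝ ℂ)).map fun p : ℝ × ℝ => p.1 + p.2).restrict (Ioo 0 1)

def chi : ℝ → ℂ := (Ioo 0 1).indicator fun _ => 1

lemma chi_BM : BM chi := BM.ind measurableSet_Ioo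

lemma chi_in {x : ℝ} (h : x ∈ Ioo (0 : ℝ) 1) : chi x = 1 := by simp [chi, h]

lemma chi_out {x : ℝ} (h : x ∉ Ioo (0 : ℝ) 1) : chi x = 0 := by simp [chi, h]

lemma madd : Measurable fun p : ℝ × ℝ => p.1 + p.2 := by fun_prop

lemma J_conv (μ ν : ComplexMeasure ℝ) {φ : ℝ → ℂ} (hφ : BM φ) :
    J (conv μ ν) φ = J μ fun s => J ν fun t => chi (s + t) * φ (s + t) := by
  have h1 : BM fun x => chi x * φ x := chi_BM.mul hφ
  have h2 := h1.comp madd
  rw [← J_prod μ ν h2]
  unfold J conv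
  rw [← VectorMeasure.integral_indicator measurableSet_Ioo]
  have : (Ioo (0 : ℝ) 1).indicator φ = fun x => chi x * φ x := by
    ext x
    by_cases hx : x ∈ Ioo (0 : ℝ) 1
    · simp [chi_in hx, hx]
    · simp [chi_out hx, hx]
  rw [this, VectorMeasure.integral_map madd h1.1.aestronglyMeasurable (h2.int _)]

/-- carried by a set -/
def On (μ : ComplexMeasure ℝ) (s : Set ℝ) : Prop := ∀ᵐ x ∂(VectorMeasure.variation μ), x ∈ s

lemma on_of {μ : ComplexMeasure ℝ} (h : μ.restrict (Ioo 0 1) = μ) : On μ (Ioo 0 1) := by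
  unfold On
  rw [← h, variation_restrict measurableSet_Ioo]
  exact ae_restrict_mem measurableSet_Ioo

lemma on_conv (μ ν : ComplexMeasure ℝ) : On (conv μ ν) (Ioo 0 1) := by
  unfold On conv
  rw [variation_restrict measurableSet_Ioo]
  exact ae_restrict_mem measurableSet_Ioo

lemma conv_assoc {μ ν κ : ComplexMeasure ℝ} (h1 : On μ (Ioo 0 1)) (h2 : On ν (Ioo 0 1))
    (h3 : On κ (Ioo 0 1)) : conv (conv μ ν) κ = conv μ (conv ν κ) := by
  ext E hE
  have hφ : BM (E.indicator fun _ => (1 : ℂ)) := BM.ind hE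
  rw [← J_ind _ hE, ← J_ind _ hE]
  generalize (E.indicator fun _ => (1 : ℂ)) = φ at hφ
  have hc : BM fun x => chi x * φ x := chi_BM.mul hφ
  rw [J_conv _ _ hφ, J_conv _ _ ((hc.comp madd).J κ), J_conv _ _ hφ]
  apply J_congr
  filter_upwards [h1] with s hs
  rw [J_conv _ _ (hc.comp (measurable_const_add s))]
  apply J_congr
  filter_upwards [h2] with t ht
  rw [← J_cmul _ (hc.comp (measurable_const_add (s + t)))]
  apply J_congr
  filter_upwards [h3] with u hu
  rw [add_assoc]
  by_cases h : s + (t + u) ∈ Ioo (0 : ℝ) 1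
  · rw [chi_in (x := s + t) ⟨by linarith [hs.1, ht.1], by linarith [h.2, hu.1]⟩,
      chi_in (x := t + u) ⟨by linarith [hu.1, ht.1], by linarith [h.2, hs.1]⟩]
  · simp [chi_out h]

/-- total variation norm -/
def nrm (μ : ComplexMeasure ℝ) : ℝ := (VectorMeasure.variation μ univ).toReal

lemma half {μ : ComplexMeasure ℝ} (h1 : On μ (Ioo 0 1)) (h : nrm (conv μ μ) = nrm μ ^ 2) :
    On μ (Ioo 0 (1 / 2)) := by
  set m := VectorMeasure.variation μ
  have hB : ‖(B : ℂ →L[ℝ] ℂ →L[ℝ] ℂ)‖ₑ = 1 := by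
    rw [← ofReal_norm]; simp
  have a1 : VectorMeasure.variation (conv μ μ) univ ≤
      m.prod m ((fun p : ℝ × ℝ => p.1 + p.2) ⁻¹' Ioo 0 1) := by
    unfold conv
    rw [variation_restrict measurableSet_Ioo, Measure.restrict_apply_univ]
    refine (variation_map_le _).trans ?_
    rw [Measure.map_apply madd measurableSet_Ioo]
    refine (variation_prod_le _).trans ?_
    rw [hB, one_smul]
  have a2 : m.prod m ((fun p : ℝ × ℝ => p.1 + p.2) ⁻¹' Ioo 0 1) + m (Ici (1 / 2)) * m (Ici (1 / 2))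
      ≤ m univ * m univ := by
    rw [← Measure.prod_prod, ← Measure.prod_prod, ← measure_union _
      (measurableSet_Ici.prod measurableSet_Ici)]
    · exact measure_mono (by simp)
    · rw [Set.disjoint_left]
      rintro ⟨s, t⟩ ⟨-, b⟩ ⟨c, d⟩
      simp only [mem_Ici] at b c d
      linarith
  have a3 : VectorMeasure.variation (conv μ μ) univ = m univ * m univ := by
    unfold nrm at h
    rw [← ENNReal.toReal_eq_toReal_iff' (measure_ne_top _ _)
      (ENNReal.mul_ne_top (measure_ne_top _ _) (measure_ne_top _ _)), h, ENNReal.toReal_mul, sq]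
  have a4 : m univ * m univ + m (Ici (1 / 2)) * m (Ici (1 / 2)) ≤ m univ * m univ + 0 := by
    rw [add_zero]
    refine le_trans ?_ a2
    gcongr
    rw [← a3]
    exact a1
  rw [ENNReal.add_le_add_iff_left
    (ENNReal.mul_ne_top (measure_ne_top _ _) (measure_ne_top _ _))] at a4
  have a5 : m (Ici (1 / 2)) = 0 := by simpa using a4
  have a6 : ∀ᵐ x ∂m, x ∉ Ici (1 / 2 : ℝ) := measure_eq_zero_iff_ae_notMem.1 a5
  filter_upwards [h1, a6] with x hx hy
  exact ⟨hx.1, by simpa using hy⟩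

def ek (k : ℕ) (x : ℝ) : ℂ := chi x * ((x : ℂ) ^ k / (k.factorial : ℂ))

lemma ek_le (k : ℕ) (x : ℝ) : ‖ek k x‖ ≤ 1 := by
  unfold ek
  by_cases h : x ∈ Ioo (0 : ℝ) 1
  · rw [chi_in h, one_mul, norm_div, norm_pow, Complex.norm_real, Complex.norm_natCast,
      Real.norm_of_nonneg h.1.le]
    have h1 : x ^ k ≤ 1 := pow_le_one₀ h.1.le h.2.le
    have h2 : (1 : ℝ) ≤ k.factorial := by exact_mod_cast Nat.succ_le_of_lt k.factorial_pos
    exact (div_le_one (by linarith)).2 (by linarith)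
  · simp [chi_out h]

lemma ek_BM (k : ℕ) : BM (ek k) := by
  refine ⟨?_, 1, ek_le k⟩
  have := chi_BM.1
  unfold ek
  fun_prop

/-- exponential generating series of the moments -/
def mom (μ : ComplexMeasure ℝ) : PowerSeries ℂ := PowerSeries.mk fun k => J μ (ek k)

lemma mom_le (μ : ComplexMeasure ℝ) (k : ℕ) : ‖PowerSeries.coeff k (mom μ)‖ ≤ nrm μ := by
  have := J_le μ (ek_le k)
  simpa [mom, nrm, Measure.real] using this

lemma ek_add (k : ℕ) {s t : ℝ} (hs : s ∈ Ioo (0 : ℝ) (1 / 2)) (ht : t ∈ Ioo (0 : ℝ) (1 / 2)) :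
    chi (s + t) * ek k (s + t) = ∑ p ∈ Finset.HasAntidiagonal.antidiagonal k, ek p.1 s * ek p.2 t := by
  unfold ek
  rw [chi_in (x := s + t) ⟨by linarith [hs.1, ht.1], by linarith [hs.2, ht.2]⟩,
    chi_in (x := s) ⟨hs.1, by linarith [hs.2]⟩, chi_in (x := t) ⟨ht.1, by linarith [ht.2]⟩]
  push_cast
  rw [(Commute.all (s : ℂ) t).add_pow', Finset.sum_div, one_mul, one_mul]
  refine Finset.sum_congr rfl fun p hp => ?_
  rw [← Finset.HasAntidiagonal.mem_antidiagonal.1 hp, nsmul_eq_mul, Nat.cast_add_choose]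
  have : ∀ n : ℕ, (n.factorial : ℂ) ≠ 0 := fun n => by exact_mod_cast n.factorial_ne_zero
  have h1 := this p.1
  have h2 := this p.2
  have h3 := this (p.1 + p.2)
  field_simp

lemma mom_conv {μ ν : ComplexMeasure ℝ} (h1 : On μ (Ioo 0 (1 / 2))) (h2 : On ν (Ioo 0 (1 / 2))) :
    mom (conv μ ν) = mom μ * mom ν := by
  ext k
  rw [PowerSeries.coeff_mul]
  simp only [mom, PowerSeries.coeff_mk]
  rw [J_conv _ _ (ek_BM k)]
  have hc : ∀ c : ℂ, BM fun _ : ℝ => c := fun c => ⟨measurable_const, ‖c‖, fun _ => le_rfl⟩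
  have : ∀ p : ℕ × ℕ, J μ (ek p.1) * J ν (ek p.2) = J μ fun s => J ν (ek p.2) * ek p.1 s := by
    intro p
    rw [J_cmul _ (ek_BM _), mul_comm]
  simp_rw [this]
  rw [← J_sum μ _ fun p : ℕ × ℕ => (hc _).mul (ek_BM p.1)]
  apply J_congr
  filter_upwards [h1] with s hs
  have : ∀ p : ℕ × ℕ, J ν (ek p.2) * ek p.1 s = J ν fun t => ek p.1 s * ek p.2 t := by
    intro p
    rw [J_cmul _ (ek_BM _), mul_comm]
  simp_rw [this]
  rw [← J_sum ν _ fun p : ℕ × ℕ => (hc _).mul (ek_BM p.2)]
  apply J_congr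
  filter_upwards [h2] with t ht
  exact ek_add k hs ht

lemma mom_zero {μ : ComplexMeasure ℝ} (h1 : On μ (Ioo 0 1)) (h : mom μ = 0) : nrm μ = 0 := by
  obtain ⟨ρ, g, _, gm, gi, rfl⟩ := rep μ
  have := fin_wd gi
  have hv := Measure.variation_withDensityᵥ gi
  let F : ℝ → ℂ := fun x => chi x * g x
  have Fi : Integrable F ρ := int_mul gm gi (chi_BM.int _)
  have F0 : ∀ x, x ∉ Ioo (0 : ℝ) 1 → F x = 0 := fun x hx => by simp [F, chi_out hx]
  have ci : ∀ u : ℝ → ℝ, Continuous u → Integrable (fun x => u x • F x) ρ := by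
    intro u hu
    obtain ⟨C, hC⟩ := isCompact_Icc.exists_bound_of_continuousOn (s := Icc (0 : ℝ) 1)
      hu.continuousOn
    refine (Fi.norm.const_mul C).mono' (hu.aestronglyMeasurable.smul Fi.1)
      (Eventually.of_forall fun x => ?_)
    by_cases hx : x ∈ Ioo (0 : ℝ) 1
    · rw [norm_smul]
      exact mul_le_mul_of_nonneg_right (hC x (Ioo_subset_Icc_self hx)) (norm_nonneg _)
    · simp [F0 x hx]
  have m0 : ∀ k : ℕ, ∫ x, x ^ k • F x ∂ρ = 0 := by
    intro k
    have e := congrArg (PowerSeries.coeff k) h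
    simp only [mom, PowerSeries.coeff_mk, _root_.map_zero] at e
    rw [J_wd gm gi ((ek_BM k).int _)] at e
    have : (fun x : ℝ => x ^ k • F x) = fun x => (k.factorial : ℂ) * (ek k x * g x) := by
      ext x
      have : (k.factorial : ℂ) ≠ 0 := by exact_mod_cast k.factorial_ne_zero
      simp only [F, ek, Complex.real_smul]
      push_cast
      field_simp
    rw [this, integral_const_mul, e, mul_zero]
  have p0 : ∀ p : Polynomial ℝ, ∫ x, p.eval x • F x ∂ρ = 0 := by
    intro p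
    induction p using Polynomial.induction_on' with
    | add p q hp hq =>
      simp only [Polynomial.eval_add, add_smul]
      rw [MeasureTheory.integral_add (ci _ p.continuous) (ci _ q.continuous), hp, hq, add_zero]
    | monomial n a =>
      simp only [Polynomial.eval_monomial, mul_smul]
      rw [MeasureTheory.integral_smul, m0, smul_zero]
  have c0 : ∀ u : ℝ → ℝ, Continuous u → ∫ x, u x • F x ∂ρ = 0 := by
    intro u hu
    rw [← norm_le_zero_iff]
    refine le_of_forall_pos_le_add fun ε hε => ?_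
    have hI : 0 ≤ ∫ x, ‖F x‖ ∂ρ := integral_nonneg fun _ => norm_nonneg _
    obtain ⟨p, hp⟩ := exists_polynomial_near_of_continuousOn 0 1 u hu.continuousOn
      (ε / (∫ x, ‖F x‖ ∂ρ + 1)) (by positivity)
    have e : ∫ x, u x • F x ∂ρ = ∫ x, (u x • F x - p.eval x • F x) ∂ρ := by
      rw [MeasureTheory.integral_sub (ci u hu) (ci _ p.continuous), p0, sub_zero]
    rw [e, zero_add]
    refine (norm_integral_le_of_norm_le (Fi.norm.const_mul (ε / (∫ x, ‖F x‖ ∂ρ + 1)))
      (Eventually.of_forall fun x => ?_)).trans ?_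
    · by_cases hx : x ∈ Ioo (0 : ℝ) 1
      · rw [← sub_smul, norm_smul]
        refine mul_le_mul_of_nonneg_right ?_ (norm_nonneg _)
        rw [Real.norm_eq_abs, abs_sub_comm]
        exact (hp x (Ioo_subset_Icc_self hx)).le
      · simp [F0 x hx]
    · rw [integral_const_mul, div_mul_eq_mul_div, div_le_iff₀ (by positivity)]
      nlinarith
  have z := ae_eq_zero_of_integral_contDiff_smul_eq_zero Fi.locallyIntegrable
    fun u hu _ => c0 u hu.continuous
  unfold On at h1
  rw [hv, ae_withDensity_iff gm.enorm] at h1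
  have z2 : ∀ᵐ x ∂ρ, ‖g x‖ₑ = 0 := by
    filter_upwards [z, h1] with x hx hy
    by_contra hne
    have := hy hne
    simp only [F, chi_in this, one_mul] at hx
    exact hne (by simp [hx])
  unfold nrm
  rw [hv, withDensity_apply _ MeasurableSet.univ, Measure.restrict_univ, lintegral_congr_ae z2]
  simp

end

end Pool.Agent.H33.Vol
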