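import Pool.Agent.H33.Vol2

set_option autoImplicit false

namespace Pool.Agent.H33.Vol

open MeasureTheory Set Filter Topology VectorMeasure
open scoped ENNReal

noncomputable section

/-- `pw mul a n` is the power of `a` with exponent `n + 1`. -/
def pw {α : Type} (mul : α → α → α) (a : α) : ℕ → α
  | 0 => a
  | n + 1 => mul (pw mul a n) a

def rr (n : ℕ) : ℝ := 1 / ((Nat.log 4 n : ℝ) + 1)

lemma rr_pos (n : ℕ) : 0 < rr n := by unfold rr; positivity

lemma rr_anti : Antitone rr := fun m n h => by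
  unfold rr
  have : (Nat.log 4 m : ℝ) ≤ Nat.log 4 n := by exact_mod_cast Nat.log_mono_right h
  gcongr

lemma rr_run (k j : ℕ) (h1 : 4 ^ k ≤ j) (h2 : j < 4 ^ (k + 1)) : rr j = 1 / ((k : ℝ) + 1) := by
  unfold rr
  rw [Nat.log_eq_of_pow_le_of_lt_pow h1 h2]

lemma rr_lim : Tendsto rr atTop (𝓝 0) := by
  have h : Tendsto (fun n : ℕ => Nat.log 4 n) atTop atTop := by
    refine tendsto_atTop_atTop.2 fun b => ⟨4 ^ b, fun a ha => ?_⟩
    exact Nat.le_log_of_pow_le (by norm_num) ha
  exact tendsto_one_div_add_atTop_nhds_zero_nat.comp h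

lemma on_pw {a : ComplexMeasure ℝ} (ha : On a (Ioo 0 1)) : ∀ n, On (pw conv a n) (Ioo 0 1)
  | 0 => ha
  | _ + 1 => on_conv _ _

lemma pw_add {a : ComplexMeasure ℝ} (ha : On a (Ioo 0 1)) (m : ℕ) :
    ∀ n, pw conv a (m + n + 1) = conv (pw conv a m) (pw conv a n)
  | 0 => rfl
  | n + 1 => by
    show conv (pw conv a (m + n + 1)) a = conv _ (conv (pw conv a n) a)
    rw [pw_add ha m n, conv_assoc (on_pw ha m) (on_pw ha n) ha]

theorem no_meas {a : ComplexMeasure ℝ} (ha : On a (Ioo 0 1))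
    (h : ∀ n, nrm (pw conv a n) = rr (n + 1) ^ (n + 1)) : False := by
  have hS : ∀ k j, 4 ^ k ≤ j + 1 → j + 1 < 2 * 4 ^ k → On (pw conv a j) (Ioo 0 (1 / 2)) := by
    intro k j h1 h2
    apply half (on_pw ha j)
    rw [← pw_add ha, h, h, rr_run k (j + 1) h1 (by rw [pow_succ]; omega),
      rr_run k (j + j + 1 + 1) (by omega) (by rw [pow_succ]; omega), ← pow_mul]
    congr 1
    ring
  have h0 : On a (Ioo 0 (1 / 2)) := hS 0 0 (by norm_num) (by norm_num)
  have hne : ∀ n, mom (pw conv a n) ≠ 0 := fun n e => by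
    have := mom_zero (on_pw ha n) e
    rw [h] at this
    exact (pow_pos (rr_pos _) _).ne' this
  have key : ∀ k n, n + 1 = 4 ^ k → mom (pw conv a n) = mom a ^ (n + 1) := by
    intro k n hn
    have e1 : ∀ i, i ≤ n + 1 → mom (pw conv a (n + i)) = mom (pw conv a n) * mom a ^ i := by
      intro i
      induction i with
      | zero => simp
      | succ i ih =>
        intro hi
        show mom (conv (pw conv a (n + i)) a) = _
        rw [mom_conv (hS k _ (by omega) (by omega)) h0, ih (by omega), pow_succ, mul_assoc]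
    have e2 := e1 (n + 1) le_rfl
    have hn' := hS k n (by omega) (by have := Nat.pos_of_ne_zero (pow_ne_zero k (by norm_num : 4 ≠ 0)); omega)
    rw [← add_assoc, pw_add ha, mom_conv hn' hn'] at e2
    exact mul_left_cancel₀ (hne n) e2
  have hm : mom a ≠ 0 := hne 0
  have hc : PowerSeries.constantCoeff (PowerSeries.divXPowOrder (mom a)) ≠ 0 := by
    rwa [Ne, PowerSeries.constantCoeff_divXPowOrder_eq_zero_iff]
  have hd := PowerSeries.X_pow_order_mul_divXPowOrder (f := mom a)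
  generalize PowerSeries.divXPowOrder (mom a) = Q at hc hd
  generalize (mom a).order.toNat = d at hd
  have b : ∀ k : ℕ, ‖PowerSeries.constantCoeff Q‖ ≤ 1 / ((k : ℝ) + 1) := by
    intro k
    obtain ⟨n, hn⟩ : ∃ n, n + 1 = 4 ^ k :=
      ⟨4 ^ k - 1, by have := Nat.pos_of_ne_zero (pow_ne_zero k (by norm_num : 4 ≠ 0)); omega⟩
    have := mom_le (pw conv a n) (0 + d * (n + 1))
    rw [key k n hn, h, ← hd, mul_pow, ← pow_mul, PowerSeries.coeff_X_pow_mul,
      PowerSeries.coeff_zero_eq_constantCoeff, map_pow, norm_pow,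
      rr_run k (n + 1) hn.ge (by rw [hn, pow_succ]; omega)] at this
    exact le_of_pow_le_pow_left₀ (Nat.succ_ne_zero n) (by positivity) this
  have := ge_of_tendsto' tendsto_one_div_add_atTop_nhds_zero_nat b
  exact hc (norm_le_zero_iff.1 this)

/-- Volterra convolution -/
def vconv (f g : ℝ → ℂ) (t : ℝ) : ℂ := ∫ s in (0 : ℝ)..t, f (t - s) * g s

lemma J_wd' {ρ : Measure ℝ} {h : ℝ → ℂ} (hi : Integrable h ρ) {φ : ℝ → ℂ} (hφ : BM φ) :
    J (ρ.withDensityᵥ h) φ = ∫ x, φ x * h x ∂ρ := by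
  have e := hi.1.ae_eq_mk
  have hi' := hi.congr e
  have := fin_wd hi'
  rw [WithDensityᵥEq.congr_ae e, J_wd hi.1.stronglyMeasurable_mk.measurable hi' (hφ.int _)]
  apply MeasureTheory.integral_congr_ae
  filter_upwards [e] with x hx
  rw [hx]

def emb (f : ℝ → ℂ) : ComplexMeasure ℝ := volume.withDensityᵥ ((Ioo 0 1).indicator f)

lemma vc_eq (f g : ℝ → ℂ) {x : ℝ} (hx : x ∈ Ioo (0 : ℝ) 1) : vconv f g x =
    ∫ s, (Ioo 0 1).indicator g s * (Ioo 0 1).indicator f (x - s) := by
  unfold vconv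
  rw [intervalIntegral.integral_of_le hx.1.le, integral_Ioc_eq_integral_Ioo,
    ← MeasureTheory.integral_indicator measurableSet_Ioo]
  congr 1
  ext s
  by_cases hs : s ∈ Ioo 0 x
  · rw [indicator_of_mem hs, indicator_of_mem (show s ∈ Ioo (0 : ℝ) 1 from ⟨hs.1, hs.2.trans hx.2⟩),
      indicator_of_mem (show x - s ∈ Ioo (0 : ℝ) 1 from ⟨by linarith [hs.2], by linarith [hs.1, hx.2]⟩),
      mul_comm]
  · rw [indicator_of_notMem hs]
    by_cases h1 : s ∈ Ioo (0 : ℝ) 1
    · rw [indicator_of_notMem (s := Ioo (0 : ℝ) 1) (a := x - s), mul_zero]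
      exact fun h2 => hs ⟨h1.1, by linarith [h2.1]⟩
    · rw [indicator_of_notMem h1, zero_mul]

lemma emb_conv {f g : ℝ → ℂ} (hf : IntegrableOn f (Ioo 0 1)) (hg : IntegrableOn g (Ioo 0 1)) :
    IntegrableOn (vconv f g) (Ioo 0 1) ∧ emb (vconv f g) = conv (emb g) (emb f) := by
  have Fi := (MeasureTheory.integrable_indicator_iff measurableSet_Ioo).2 hf
  have Gi := (MeasureTheory.integrable_indicator_iff measurableSet_Ioo).2 hg
  have hv := fun x => vc_eq f g (x := x)
  unfold emb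
  generalize (Ioo (0 : ℝ) 1).indicator f = F at Fi hv
  generalize (Ioo (0 : ℝ) 1).indicator g = G at Gi hv
  have I : Integrable (fun p : ℝ × ℝ => G p.2 * F (p.1 - p.2)) (volume.prod volume) :=
    Gi.convolution_integrand B Fi
  have i1 : IntegrableOn (vconv f g) (Ioo 0 1) :=
    (I.integral_prod_left.integrableOn (s := Ioo 0 1)).congr_fun (fun x hx => (hv x hx).symm)
      measurableSet_Ioo
  refine ⟨i1, ?_⟩
  ext E hE
  have hφ : BM (E.indicator fun _ => (1 : ℂ)) := BM.ind hE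
  rw [← J_ind _ hE, ← J_ind _ hE]
  generalize (E.indicator fun _ => (1 : ℂ)) = φ at hφ
  have hc : BM fun x => chi x * φ x := chi_BM.mul hφ
  rw [J_conv _ _ hφ, J_wd' ((MeasureTheory.integrable_indicator_iff measurableSet_Ioo).2 i1) hφ,
    J_wd' Gi ((hc.comp madd).J _)]
  have e1 : ∀ x, φ x * (Ioo 0 1).indicator (vconv f g) x =
      ∫ s, chi x * φ x * (G s * F (x - s)) := by
    intro x
    rw [integral_const_mul]
    by_cases hx : x ∈ Ioo (0 : ℝ) 1
    · rw [indicator_of_mem hx, chi_in hx, hv x hx, one_mul]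
    · simp [chi_out hx, hx]
  simp_rw [e1]
  obtain ⟨m1, C, hC⟩ := hc
  rw [integral_integral_swap]
  · congr 1
    ext s
    rw [J_wd' Fi (BM.comp (φ := fun x => chi x * φ x) ⟨m1, C, hC⟩ (measurable_const_add s)),
      ← integral_mul_const,
      ← integral_add_left_eq_self (fun x => chi x * φ x * (G s * F (x - s))) s]
    congr 1
    ext t
    rw [add_sub_cancel_left]
    ring
  · exact I.bdd_mul (c := C) (m1.comp measurable_fst).aestronglyMeasurable
      (Eventually.of_forall fun p => hC _)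

lemma nrm_emb {f : ℝ → ℂ} (hf : IntegrableOn f (Ioo 0 1)) :
    nrm (emb f) = ∫ t in (0 : ℝ)..1, ‖f t‖ := by
  have Fi := (MeasureTheory.integrable_indicator_iff measurableSet_Ioo).2 hf
  unfold nrm emb
  rw [Measure.variation_withDensityᵥ Fi, MeasureTheory.withDensity_apply _ MeasurableSet.univ,
    Measure.restrict_univ, ← integral_norm_eq_lintegral_enorm Fi.1,
    intervalIntegral.integral_of_le zero_le_one, integral_Ioc_eq_integral_Ioo,
    ← MeasureTheory.integral_indicator measurableSet_Ioo]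
  congr 1
  ext x
  rw [norm_indicator_eq_indicator_norm]

lemma on_emb {f : ℝ → ℂ} (hf : IntegrableOn f (Ioo 0 1)) : On (emb f) (Ioo 0 1) := by
  have Fi := (MeasureTheory.integrable_indicator_iff measurableSet_Ioo).2 hf
  unfold On emb
  rw [Measure.variation_withDensityᵥ Fi, ae_withDensity_iff' Fi.1.enorm]
  refine Eventually.of_forall fun x hx => ?_
  by_contra h
  simp [h] at hx

lemma emb_pw {f : ℝ → ℂ} (hf : IntegrableOn f (Ioo 0 1)) :
    ∀ n, IntegrableOn (pw vconv f n) (Ioo 0 1) ∧ emb (pw vconv f n) = pw conv (emb f) n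
  | 0 => ⟨hf, rfl⟩
  | n + 1 => by
    obtain ⟨h1, h2⟩ := emb_pw hf n
    obtain ⟨h3, h4⟩ := emb_conv h1 hf
    refine ⟨h3, h4.trans ?_⟩
    have := pw_add (on_emb hf) 0 n
    rw [zero_add] at this
    rw [h2, this]
    rfl

theorem no_fun {f : ℝ → ℂ} (hf : IntegrableOn f (Ioo 0 1))
    (h : ∀ n, ∫ t in (0 : ℝ)..1, ‖pw vconv f n t‖ = rr (n + 1) ^ (n + 1)) : False :=
  no_meas (on_emb hf) fun n => by
    rw [← (emb_pw hf n).2, nrm_emb (emb_pw hf n).1, h]

end

end Pool.Agent.H33.Vol
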