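import Mathlib

set_option autoImplicit false

namespace Pool.Agent.H33.WNa

open MvPolynomial Finset

noncomputable section

def Q : Ideal (MvPolynomial ℕ ℚ) :=
  Ideal.span ((fun s => monomial s (1 : ℚ)) '' Set.range fun i : ℕ => Finsupp.single i 2)

abbrev C := MvPolynomial ℕ ℚ ⧸ Q

def x (i : ℕ) : C := Ideal.Quotient.mkₐ ℚ Q (X i)

lemma xx (i : ℕ) : x i * x i = 0 := by
  rw [x, ← map_mul, ← sq, X_pow_eq_monomial]
  exact Ideal.Quotient.eq_zero_iff_mem.2 (Ideal.subset_span ⟨_, ⟨i, rfl⟩, rfl⟩)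

def xS (S : Finset ℕ) : C := ∏ i ∈ S, x i

lemma xS_ne (S : Finset ℕ) : xS S ≠ 0 := by
  intro h
  have e : ∏ i ∈ S, (X i : MvPolynomial ℕ ℚ) = monomial (∑ i ∈ S, Finsupp.single i 1) 1 := by
    rw [monomial_sum_one]; rfl
  simp only [xS, x, ← map_prod, e] at h
  obtain ⟨_, ⟨i, rfl⟩, h⟩ := mem_ideal_span_monomial_image.1 (Ideal.Quotient.eq_zero_iff_mem.1 h)
    (∑ i ∈ S, Finsupp.single i 1) (by simp [support_monomial])
  have := h i
  simp [Finsupp.finset_sum_apply, Finsupp.single_apply] at this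
  split_ifs at this <;> omega

lemma mul_xS (i : ℕ) (S : Finset ℕ) : x i * xS S = if i ∈ S then 0 else xS (insert i S) := by
  split_ifs with h
  · rw [xS, ← mul_prod_erase _ _ h, ← mul_assoc, xx, zero_mul]
  · rw [xS, xS, prod_insert h]

lemma span_xS (c : C) : ∃ a : Finset ℕ →₀ ℚ, c = a.sum fun S r => r • xS S := by
  suffices c ∈ Submodule.span ℚ (Set.range xS) by
    obtain ⟨a, ha⟩ := Finsupp.mem_span_range_iff_exists_finsupp.1 this
    exact ⟨a, ha.symm⟩
  obtain ⟨p, rfl⟩ := Ideal.Quotient.mkₐ_surjective ℚ Q c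
  induction p using MvPolynomial.induction_on with
  | C a =>
    rw [← algebraMap_eq, AlgHom.commutes, Algebra.algebraMap_eq_smul_one]
    exact Submodule.smul_mem _ _ (Submodule.subset_span ⟨∅, rfl⟩)
  | add p q hp hq => rw [map_add]; exact add_mem hp hq
  | mul_X p i hp =>
    rw [map_mul, mul_comm]
    change x i * _ ∈ _
    generalize Ideal.Quotient.mkₐ ℚ Q p = c at hp
    induction hp using Submodule.span_induction with
    | mem y hy =>
      obtain ⟨S, rfl⟩ := hy
      rw [mul_xS]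
      split_ifs
      · exact zero_mem _
      · exact Submodule.subset_span ⟨_, rfl⟩
    | zero => simp
    | add _ _ _ _ h1 h2 => rw [mul_add]; exact add_mem h1 h2
    | smul _ _ _ h => rw [mul_smul_comm]; exact Submodule.smul_mem _ _ h

def φ (σ : ℕ → Option ℕ) : C →ₐ[ℚ] C :=
  Ideal.Quotient.liftₐ Q (aeval fun i => (σ i).elim 0 x) fun a ha => by
    refine (Ideal.span_le.2 ?_ : Q ≤ RingHom.ker _) ha
    rintro _ ⟨_, ⟨i, rfl⟩, rfl⟩
    simp only [SetLike.mem_coe, RingHom.mem_ker, ← X_pow_eq_monomial, map_pow, aeval_X]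
    cases σ i <;> simp [sq, xx]

lemma φ_x (σ : ℕ → Option ℕ) (i : ℕ) : φ σ (x i) = (σ i).elim 0 x := by simp [φ, x]

lemma φ_xS (σ : ℕ → Option ℕ) (S : Finset ℕ) : φ σ (xS S) = ∏ i ∈ S, (σ i).elim 0 x := by
  simp [xS, φ_x]

lemma φ_id (c : C) : φ some c = c := by
  obtain ⟨a, rfl⟩ := span_xS c
  simp [Finsupp.sum, φ_x, xS]

lemma im (σ : ℕ → Option ℕ) (T : Finset ℕ) : φ σ (xS T) = 0 ∨
    ∃ T', φ σ (xS T) = xS T' ∧ #T' = #T ∧ ∀ b ∈ T', ∃ a ∈ T, σ a = some b := by
  induction T using Finset.induction with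
  | empty => exact .inr ⟨∅, by simp [xS], rfl, by simp⟩
  | insert a T ha ih =>
    have e : φ σ (xS (insert a T)) = (σ a).elim 0 x * φ σ (xS T) := by
      rw [φ_xS, φ_xS, prod_insert ha]
    rcases ih with h | ⟨T', h, h1, h2⟩
    · simp [e, h]
    rcases hb : σ a with _ | b
    · simp [e, hb]
    by_cases hT : b ∈ T'
    · simp [e, hb, h, mul_xS, hT]
    refine .inr ⟨insert b T', by simp [e, hb, h, mul_xS, hT], by simp [*], fun c hc => ?_⟩
    rcases mem_insert.1 hc with rfl | hc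
    · exact ⟨a, by simp, hb⟩
    · obtain ⟨d, hd, h⟩ := h2 c hc
      exact ⟨d, by simp [hd], h⟩

abbrev J (k : ℕ) := Fin k → Option (Fin k)

def σ {k : ℕ} (j : J k) (i : ℕ) : Option ℕ := if h : i < k then (j ⟨i, h⟩).map (↑) else some i

lemma σ_id (k : ℕ) : σ (some : J k) = some := by
  funext i
  simp [σ]

def Sys (I : ℕ → Ideal C) : Prop := ∀ n c, c ∈ I n ↔ ∀ j : J n, φ (σ j) c ∈ I (n + 1)

variable {I : ℕ → Ideal C} (hI : Sys I)
include hI

lemma mono : Monotone I := monotone_nat_of_le_succ fun n c hc => by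
  simpa [σ_id, φ_id] using (hI n c).1 hc some

lemma all {n : ℕ} {S : Finset ℕ} (h : xS S ∈ I n) (T : Finset ℕ) (hT : #S ≤ #T) (k : ℕ) :
    xS T ∈ I k := by
  obtain ⟨m, h1, h2, h3, h4⟩ : ∃ m, n ≤ m ∧ k ≤ m ∧ (∀ i ∈ S, i < m) ∧ ∀ i ∈ T, i < m :=
    ⟨n + k + (S ∪ T).sup id + 1, by omega, by omega, fun i hi => by
      have := le_sup (f := id) (mem_union_left T hi); simp only [id] at this; omega, fun i hi => by
      have := le_sup (f := id) (mem_union_right S hi); simp only [id] at this; omega⟩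
  have : ∀ l ≤ m + 1, ∀ T, #S ≤ #T → (∀ i ∈ T, i < m) → xS T ∈ I l := fun l hl => by
    induction hl using Nat.decreasingInduction with
    | self =>
      intro T hT hm
      obtain ⟨T0, s, c⟩ := exists_subset_card_eq hT
      let e : S ≃ T0 := equivOfCardEq c.symm
      have := (hI m _).1 (mono hI h1 h) fun i =>
        if h : i.1 ∈ S then some ⟨e ⟨i, h⟩, hm _ (s (e _).2)⟩ else none
      rw [φ_xS, ← prod_coe_sort, prod_congr rfl (g := fun i => x (e i)) fun i _ => by
        simp [σ, h3 _ i.2], e.prod_comp (fun t => x t), prod_coe_sort T0 x] at this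
      rw [xS, ← prod_sdiff s]
      exact Ideal.mul_mem_left _ _ this
    | of_succ l hl ih =>
      intro T hT hm
      refine (hI l _).2 fun j => ?_
      rcases im (σ j) T with h | ⟨T', h, c, h'⟩ <;> rw [h]
      · exact zero_mem _
      refine ih _ (c ▸ hT) fun b hb => ?_
      obtain ⟨a, ha, e⟩ := h' b hb
      have := hm a ha
      simp only [σ] at e
      split_ifs at e with h
      · obtain ⟨d, -, rfl⟩ := Option.map_eq_some_iff.1 e
        omega
      · cases e; omega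
  exact this k (by omega) T hT h4

lemma sub {n : ℕ} {a : Finset ℕ →₀ ℚ} (h : (a.sum fun S r => r • xS S) ∈ I n) {S : Finset ℕ}
    (hS : S ∈ a.support) : ∃ S0 ⊆ S, ∃ m, xS S0 ∈ I m := by
  obtain ⟨S0, h0, hm⟩ := exists_min_image (a.support.filter (· ⊆ S)) card ⟨S, by simpa using hS⟩
  rw [mem_filter] at h0
  let m := n + (a.support.biUnion id).sup id + 1
  have hl : ∀ T ∈ a.support, ∀ i ∈ T, i < m := fun T hT i hi => by
    have := le_sup (f := id) (mem_biUnion.2 ⟨T, hT, hi⟩ : i ∈ a.support.biUnion id)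
    simp only [id] at this
    omega
  have := (hI m _).1 (mono hI (by omega) h) fun i => if i.1 ∈ S0 then some i else none
  rw [Finsupp.sum, map_sum, sum_eq_single S0, map_smul, φ_xS, prod_congr rfl (g := x)
    fun i hi => by simp [σ, hl _ h0.1 i hi, hi]] at this
  · refine ⟨S0, h0.2, m + 1, ?_⟩
    have := Ideal.mul_mem_left _ (algebraMap ℚ C (a S0)⁻¹) this
    rwa [← Algebra.smul_def, inv_smul_smul₀ (Finsupp.mem_support_iff.1 h0.1)] at this
  · intro T hT hne
    obtain ⟨i, hi, hi'⟩ := not_subset.1 fun s : T ⊆ S0 => hne (eq_of_subset_of_card_le s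
      (hm T (mem_filter.2 ⟨hT, s.trans h0.2⟩)))
    rw [map_smul, φ_xS, prod_eq_zero hi (by simp [σ, hl _ hT i hi, hi']), smul_zero]
  · exact fun h => (h h0.1).elim

end

end Pool.Agent.H33.WNa
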