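import Mathlib

set_option autoImplicit false
open Filter Topology Metric Set

namespace Pool.Agent.H33.Zem

lemma allan {B : Type} [NormedRing B] [NormedAlgebra ℂ B] [CompleteSpace B] (z x : B) (R : ℝ)
    (hR : 0 ≤ R) (hz : ∀ y, z * y = y * z) (hn : ∀ y, ‖z * y‖ ≤ R * ‖y‖)
    (h : ∀ l : ℂ, ‖l‖ ≤ R → ∃ c d, c * x = 1 + d * (algebraMap ℂ B l - z)) : ∃ g, g * x = 1 := by
  by_contra hh
  obtain ⟨L, hL, hx⟩ := Ideal.exists_le_maximal (Ideal.span {x}) fun e =>
    hh (Ideal.mem_span_singleton'.1 (e ▸ trivial : (1 : B) ∈ Ideal.span {x}))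
  have hx : x ∈ L := hx (Ideal.mem_span_singleton_self x)
  have h1 : (1 : B) ∉ L := (Ideal.ne_top_iff_one L).1 hL.ne_top
  have : Nontrivial (B ⧸ L) := Submodule.Quotient.nontrivial_iff.2 hL.ne_top
  let T : (B ⧸ L) →L[ℂ] (B ⧸ L) := LinearMap.mkContinuous
    { toFun := fun q => z • q, map_add' := smul_add z, map_smul' := fun c q => smul_comm z c q } R
    fun q => le_of_forall_pos_le_add fun ε he => by
      obtain ⟨m, rfl, hm⟩ := Submodule.Quotient.norm_mk_lt q (show 0 < ε / (R + 1) by positivity)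
      refine (Submodule.Quotient.norm_mk_le L (z * m)).trans ((hn m).trans ?_)
      have : R * (ε / (R + 1)) ≤ ε := by
        rw [← mul_div_assoc, div_le_iff₀ (by positivity)]; nlinarith
      nlinarith
  obtain ⟨l, hl⟩ := spectrum.nonempty T
  obtain ⟨c, d, e⟩ := h l ((spectrum.norm_le_norm_of_mem hl).trans
    (LinearMap.mkContinuous_norm_le _ hR _))
  set w := algebraMap ℂ B l - z with hw
  have wc : ∀ y, w * y = y * w := fun y => by rw [hw, sub_mul, mul_sub, hz, Algebra.commutes]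
  have hT : ∀ y : B, (algebraMap ℂ _ l - T) (Submodule.Quotient.mk y) =
      Submodule.Quotient.mk (w * y) := fun y => by
    rw [hw, sub_mul, ← Algebra.smul_def, Submodule.Quotient.mk_sub]
    rfl
  have e1 : 1 + d * w ∈ L := e ▸ L.mul_mem_left c hx
  refine hl (ContinuousLinearMap.isUnit_iff_bijective.2 ⟨(injective_iff_map_eq_zero _).2 ?_, ?_⟩)
  · intro q hq
    obtain ⟨y, rfl⟩ := Submodule.Quotient.mk_surjective L q
    rw [hT, Submodule.Quotient.mk_eq_zero] at hq
    rw [Submodule.Quotient.mk_eq_zero]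
    by_contra hy
    obtain ⟨p, r, hr, e2⟩ := hL.exists_inv hy
    have : w ∈ L := by
      rw [← mul_one w, ← e2, mul_add, ← mul_assoc, wc p, mul_assoc]
      exact L.add_mem (L.mul_mem_left _ hq) (L.mul_mem_left _ hr)
    exact h1 (by simpa using L.sub_mem e1 (L.mul_mem_left d this))
  · intro q
    obtain ⟨y, rfl⟩ := Submodule.Quotient.mk_surjective L q
    refine ⟨Submodule.Quotient.mk (-(y * d)), ?_⟩
    rw [hT, eq_comm, Submodule.Quotient.eq, wc]
    simpa [mul_add, mul_assoc] using L.mul_mem_left y e1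

lemma path {B : Type} [NormedRing B] [CompleteSpace B] (x : ℝ → B) (hx : Continuous x)
    (h : ∀ t ∈ Icc (0 : ℝ) 1, ∃ g, g * x t = 1) : ∃ u : Bˣ, u * x 0 = x 1 := by
  refine isPreconnected_Icc.induction₂ (fun s t => ∃ u : Bˣ, u * x s = x t) (fun s hs => ?_)
    ?_ ?_ (left_mem_Icc.2 zero_le_one) (right_mem_Icc.2 zero_le_one)
  · obtain ⟨g, hg⟩ := h s hs
    have : Continuous fun t => 1 + (x t - x s) * g := by fun_prop
    filter_upwards [nhdsWithin_le_nhds (this.continuousAt.preimage_mem_nhds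
      (Units.isOpen.mem_nhds (by simp)))] with t ⟨u, hu⟩
    exact ⟨u, by rw [hu, add_mul, mul_assoc, hg]; simp⟩
  · rintro r s t - - - ⟨u, h1⟩ ⟨v, h2⟩
    exact ⟨v * u, by rw [Units.val_mul, mul_assoc, h1, h2]⟩
  · rintro r s - - ⟨u, h1⟩
    exact ⟨u⁻¹, by rw [← h1]; simp⟩

lemma ringlem {S : Type} [Ring S] (u : Sˣ) (p n : S) (hp : p * p = p)
    (h : IsUnit (1 + ((1 - p) * (↑u⁻¹ * n) * (1 - p) - (1 - p)))) :
    IsUnit (u * p + n * (1 - p)) := by
  have hp' : ∀ y, p * (p * y) = p * y := fun y => by rw [← mul_assoc, hp]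
  obtain ⟨m, rfl⟩ : ∃ m, n = u * m := ⟨↑u⁻¹ * n, by simp⟩
  rw [Units.inv_mul_cancel_left] at h
  have h2 : IsUnit (1 + p * m * (1 - p)) := by
    refine ⟨⟨_, 1 - p * m * (1 - p), ?_, ?_⟩, rfl⟩ <;>
      simp only [mul_add, add_mul, mul_sub, sub_mul, mul_assoc, hp', hp, mul_one, one_mul] <;> abel
  convert u.isUnit.mul (h.mul h2) using 1
  simp only [mul_add, add_mul, mul_sub, sub_mul, mul_assoc, hp', hp, mul_one, one_mul]
  abel

lemma main {A : Type} [NormedRing A] [NormedAlgebra ℂ A] [CompleteSpace A] (a b : A)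
    (hb : b * a = 1) (R : ℝ) (hR : 0 ≤ R)
    (h : ∀ l : ℂ, ‖l‖ ≤ R → ∃ c : A, c * (a - algebraMap ℂ A l) = 1) :
    ∃ w : A, w * a = a ∧ ∀ l : ℂ, ‖l‖ ≤ R → IsUnit (w - l • b) := by
  let X := closedBall (0 : ℂ) R
  have : CompactSpace X := isCompact_iff_compactSpace.1 (isCompact_closedBall _ _)
  let z : C(X, A) := ⟨fun l => algebraMap ℂ A l, by fun_prop⟩
  let k : A → C(X, A) := ContinuousMap.const X
  let Q := Algebra.adjoin ℂ (insert z (range k))
  let B := Q.topologicalClosure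
  have : CompleteSpace B := Q.isClosed_topologicalClosure.completeSpace_coe
  have zc : ∀ y, z * y = y * z := fun y => by ext l; exact Algebra.commutes _ _
  let z' : B := ⟨z, Q.le_topologicalClosure (Algebra.subset_adjoin (Or.inl rfl))⟩
  let k' : A → B := fun c => ⟨k c, Q.le_topologicalClosure (Algebra.subset_adjoin (Or.inr ⟨c, rfl⟩))⟩
  obtain ⟨u', hu⟩ := path (fun t => k' a - (t : ℂ) • z') (by fun_prop) fun t ht => by
    refine allan z' _ R hR (fun y => Subtype.ext (zc y)) (fun y => ?_) fun l hl => ?_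
    · refine (ContinuousMap.norm_le _ (by positivity)).2 fun l => ?_
      change ‖algebraMap ℂ A l * y.1 l‖ ≤ _
      rw [← Algebra.smul_def, norm_smul]
      exact mul_le_mul (mem_closedBall_zero_iff.1 l.2) (y.1.norm_coe_le_norm l) (norm_nonneg _) hR
    · obtain ⟨c, hc⟩ := h (t * l) (by
        rw [norm_mul, Complex.norm_real, Real.norm_of_nonneg ht.1]
        nlinarith [ht.1, ht.2, norm_nonneg l])
      refine ⟨k' c, (t : ℂ) • k' c, Subtype.ext (ContinuousMap.ext fun m => ?_)⟩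
      change c * (a - (t : ℂ) • algebraMap ℂ A m) =
        1 + (t : ℂ) • c * (algebraMap ℂ A l - algebraMap ℂ A m)
      rw [← hc]
      simp only [Algebra.algebraMap_eq_smul_one, mul_sub, mul_smul_comm, smul_mul_assoc, mul_one]
      module
  let u : C(X, A)ˣ := Units.map B.val.toMonoidHom u'
  have u1 : u * k a = k a - z := by
    simp only [Complex.ofReal_zero, zero_smul, sub_zero, Complex.ofReal_one, one_smul] at hu
    exact congrArg Subtype.val hu
  have u2 : (u : C(X, A)) ∈ closure (Q : Set C(X, A)) := u'.1.2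
  set p := k (a * b) with hp
  have pp : p * p = p := by
    ext l
    change a * b * (a * b) = a * b
    rw [mul_assoc, ← mul_assoc b, hb, one_mul]
  have pa : (1 - p) * k a = 0 := by
    ext l
    change (1 - a * b) * a = 0
    rw [sub_mul, mul_assoc, hb]; simp
  set e := (1 - p) * ↑u⁻¹ with he
  have ea : e * k a = e * z := by
    rw [← sub_eq_zero, ← mul_sub, ← u1, he, mul_assoc, Units.inv_mul_cancel_left, pa]
  have key : ∀ v ∈ Q, ∀ m, ∃ n, e * k m * v = e * k n := by
    intro v hv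
    induction hv using Algebra.adjoin_induction with
    | mem v hv =>
      rcases hv with rfl | ⟨c, rfl⟩
      · exact fun m => ⟨a * m, by rw [mul_assoc, ← zc, ← mul_assoc, ← ea, mul_assoc]; rfl⟩
      · exact fun m => ⟨m * c, by rw [mul_assoc]; rfl⟩
    | algebraMap r => exact fun m => ⟨m * algebraMap ℂ A r, by rw [mul_assoc]; rfl⟩
    | add x y _ _ h1 h2 =>
      intro m
      obtain ⟨n1, h1⟩ := h1 m
      obtain ⟨n2, h2⟩ := h2 m
      exact ⟨n1 + n2, by rw [mul_add, h1, h2, ← mul_add]; rfl⟩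
    | mul x y _ _ h1 h2 =>
      intro m
      obtain ⟨n1, h1⟩ := h1 m
      obtain ⟨n2, h2⟩ := h2 n1
      exact ⟨n2, by rw [← mul_assoc, h1, h2]⟩
  have hc : Continuous fun v : C(X, A) => 1 + (e * v * (1 - p) - (1 - p)) := by fun_prop
  obtain ⟨v, v1, v2⟩ := mem_closure_iff_nhds.1 u2 _ (hc.continuousAt.preimage_mem_nhds
    (Units.isOpen.mem_nhds (by
      rw [he, Units.inv_mul_cancel_right, mul_sub, mul_one, sub_mul, one_mul, pp]; simp)))
  obtain ⟨n, hn⟩ := key v v2 1
  have hn : e * v = e * k n := by rw [← hn, show k 1 = 1 from rfl, mul_one]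
  have hw := ringlem u p (k n) pp (by rw [← mul_assoc (1 - p), ← he, ← hn]; exact v1)
  refine ⟨a * b + n * (1 - a * b), by simp [add_mul, sub_mul, mul_assoc, hb], fun l hl => ?_⟩
  rw [show p = k a * k b from rfl, ← mul_assoc, u1] at hw
  have : IsUnit ((a - algebraMap ℂ A l) * b + n * (1 - a * b)) :=
    hw.map ((Pi.evalMonoidHom (fun _ : X => A) ⟨l, mem_closedBall_zero_iff.2 hl⟩).comp
      ContinuousMap.coeFnMonoidHom)
  convert this using 1
  rw [sub_mul, ← Algebra.smul_def]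
  abel

end Pool.Agent.H33.Zem
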